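import Pool.Agent.Lib.N4S.Kit78
import Pool.Agent.Lib.KP.B_PSI1
import Pool.Agent.Lib.KP.B_NHS

/-! Project n4s: the curvature of the truncated weights. -/

open scoped Classical Topology ContDiff ComplexOrder Matrix
open Set Filter MeasureTheory

noncomputable section

namespace Pool.Agent.Lib.N4S.Adm51

open Pool.Agent.Lib.SV (E)
open Pool.Agent.Lib.HS32 Pool.Agent.Lib.HLK Pool.Agent.Lib.F4 Pool.Agent.Lib.NU4
open Pool.Agent.Lib.EXH (aw)
open Pool.Agent.Lib.N4S.K78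

variable {n : ℕ} {M : Mf n} {I : Type} [Fintype I] (S : Sd M I) (a : ℝ → M.X → ℝ) (q : Sq)

/-- The defect of positivity. -/
def la (j : ℕ) (x : M.X) : ℝ := q.e j + (if a (q.e j) x < -q.N j then 1 else 0) +
  ∑ k, q.d j / (sg S.toDk k x + q.d j)

theorem fr_nn (j : ℕ) (k : I) (x : M.X) : 0 ≤ q.d j / (sg S.toDk k x + q.d j) :=
  div_nonneg (q.d0 j).1.le (add_nonneg (sg_nn _ k x) (q.d0 j).1.le)

theorem fr_le (j : ℕ) (k : I) (x : M.X) : q.d j / (sg S.toDk k x + q.d j) ≤ 1 :=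
  div_le_one_of_le₀ (le_add_of_nonneg_left (sg_nn _ k x)) (add_nonneg (sg_nn _ k x) (q.d0 j).1.le)

theorem la_nn (j : ℕ) (x : M.X) : 0 ≤ la S a q j x :=
  add_nonneg (add_nonneg (q.e0 j).1.le (by split_ifs <;> norm_num))
    (Finset.sum_nonneg fun k _ => fr_nn S q j k x)

theorem la_le (j : ℕ) (x : M.X) : la S a q j x ≤ 2 + Fintype.card I := by
  have h1 : (if a (q.e j) x < -q.N j then (1 : ℝ) else 0) ≤ 1 := by split_ifs <;> norm_num
  have h2 := Finset.sum_le_sum fun k (_ : k ∈ Finset.univ) => fr_le S q j k x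
  simp only [Finset.sum_const, Finset.card_univ, nsmul_eq_mul, mul_one] at h2
  rw [la]
  linarith [(q.e0 j).2]

variable {S a}

theorem la_ms (hZ : Zs S a) (j : ℕ) : Measurable (la S a q j) :=
  (measurable_const.add (Measurable.ite
    (measurableSet_lt (a_sm hZ q j).continuous.measurable measurable_const)
    measurable_const measurable_const)).add (Finset.measurable_sum _ fun k _ =>
      measurable_const.div ((sg_sm _ k).continuous.measurable.add measurable_const))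

theorem la_int [M.Cpt] (hZ : Zs S a) (j : ℕ) {g : M.X → ℝ} (hg : Continuous g) :
    Integrable (fun x => la S a q j x * g x) (M.mu S.H) :=
  ((mMU n M _ (met S)).2.2.2.2.1 ℝ g hg).bdd_mul (c := 2 + Fintype.card I)
    (la_ms q hZ j).aestronglyMeasurable (Eventually.of_forall fun x => by
      rw [Real.norm_of_nonneg (la_nn S a q j x)]
      exact la_le S a q j x)

/-- The curvature is almost positive. -/
theorem curv [M.Cpt] (hZ : Zs S a) {m : ℕ} (hm : 1 ≤ m) : ∃ C : ℝ, 0 ≤ C ∧ ∀ j,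
    M.All fun e z => ((M.hw (pm S m) + M.ric S.H + M.hs (ww S a q m j)) e z +
      (C * la S a q j (e.symm z)) • S.H e z).PosSemidef := by
  obtain ⟨B, B0, -, hB⟩ := (mBD n M _ (met S)).1 _
    ((bf_clo S).sub ((mHES n M).2.2.2.2.2.2.2.2.1 _ (met S))).toForm
  choose c c0 hc using fun k =>
    KP.st_PSI1 KP.st_NHS n M S.H (S.L k) (S.f k) (S.φ k) (met S) (S.hol k) (S.wt k)
  have m0 : (0 : ℝ) ≤ (m : ℝ) - 1 := sub_nonneg.2 (by exact_mod_cast hm)
  have s0 : 0 ≤ ∑ k, c k := Finset.sum_nonneg fun k _ => (c0 k).le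
  refine ⟨((m : ℝ) - 1) * (1 + B) + ∑ k, c k, by positivity, fun j e he z hz => ?_⟩
  obtain ⟨h1, -, h3⟩ := lj_cv hZ q hm j e he z hz
  obtain ⟨d0, d1⟩ := q.d1 j (a (q.e j) (e.symm z))
  have d2 := (q.d2 j (a (q.e j) (e.symm z))).1
  have i1 : 1 - deriv (q.χ j) (a (q.e j) (e.symm z)) ≤
      if a (q.e j) (e.symm z) < -q.N j then 1 else 0 := by
    split_ifs with h
    · linarith
    · rw [(q.id j _ (not_lt.1 h)).2.1, sub_self]
  have i0 : (0 : ℝ) ≤ if a (q.e j) (e.symm z) < -q.N j then 1 else 0 := by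
    split_ifs <;> norm_num
  have p1 := (hZ.out.kae _ (q.e0 j)).pos e he z hz
  have p2 := hB e he z hz
  have p3 := BHES.ds_psd (a_sm hZ q j) e he z hz
  have p4 := fun k => hc k _ (q.d0 j).1 e he z hz
  have p5 := ((met S).pos e he z hz).posSemidef
  have f0 := fun k => fr_nn S q j k (e.symm z)
  have F0 := Finset.sum_nonneg fun k (_ : k ∈ Finset.univ) => f0 k
  have i2 : ∑ k, ka S.toDk m k * (c k * (q.d j / (sg S.toDk k (e.symm z) + q.d j))) ≤
      (∑ k, c k) * ∑ k, q.d j / (sg S.toDk k (e.symm z) + q.d j) := by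
    rw [Finset.mul_sum]
    refine Finset.sum_le_sum fun k _ => (mul_le_of_le_one_left (mul_nonneg (c0 k).le (f0 k))
      (ka_lt _ m k).le).trans (mul_le_mul_of_nonneg_right ?_ (f0 k))
    exact Finset.single_le_sum (fun k _ => (c0 k).le) (Finset.mem_univ k)
  simp only [Pi.zero_apply, sub_zero, Pi.neg_apply, Pi.smul_apply, sub_neg_eq_add,
    Pi.sub_apply] at p2 p3
  generalize deriv (q.χ j) (a (q.e j) (e.symm z)) = t at *
  generalize deriv (deriv (q.χ j)) (a (q.e j) (e.symm z)) = t' at *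
  have e0 := (q.e0 j).1.le
  have r0 : 0 ≤ (((m : ℝ) - 1) * (1 + B) + ∑ k, c k) * la S a q j (e.symm z) -
      ((m : ℝ) - 1) * (t * q.e j + (1 - t) * B) -
      ∑ k, ka S.toDk m k * (c k * (q.d j / (sg S.toDk k (e.symm z) + q.d j))) := by
    rw [la]
    generalize (if a (q.e j) (e.symm z) < -q.N j then (1 : ℝ) else 0) = ι at *
    have g1 : t * q.e j + (1 - t) * B ≤ (1 + B) * (q.e j + ι) := by
      nlinarith [mul_le_mul_of_nonneg_right i1 B0.le, mul_le_of_le_one_left e0 d1,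
        mul_nonneg B0.le e0]
    nlinarith [mul_le_mul_of_nonneg_left g1 m0, mul_nonneg s0 (add_nonneg e0 i0),
      mul_nonneg (mul_nonneg m0 (add_nonneg zero_le_one B0.le)) F0]
  have := ((((p1.posSemidef.smul d0).add (p2.smul (sub_nonneg.2 d1))).add (p3.smul d2)).smul
    m0).add ((Matrix.posSemidef_sum Finset.univ fun k _ => (p4 k).smul (ka_nn S.toDk m k)).add
      (p5.smul r0))
  refine (congrArg Matrix.PosSemidef ?_).mp this
  rw [h1, h3]
  simp only [smul_add, Finset.sum_add_distrib, smul_smul, ← Finset.sum_smul, sub_smul, oms, sg]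
  module

/-- The curvature term is almost positive. -/
theorem cu_low [M.Cpt] (hZ : Zs S a) {m : ℕ} (hm : 1 ≤ m) : ∃ C : ℝ, 0 ≤ C ∧ ∀ j W x,
    -(C * (la S a q j x * (lj S a q m j).pn W x)) ≤
      cu (M.hw (pm S m) + M.ric S.H + M.hs (ww S a q m j)) (lj S a q m j) W x := by
  obtain ⟨C, C0, hC⟩ := curv q hZ hm
  refine ⟨C * n, by positivity, fun j W x => ?_⟩
  have h := (hC j).ch x
  beta_reduce at h
  rw [Mf.ch_symm] at h
  have := CU.low aFK1 aFK2 ((met S).pos.ch x) (mul_nonneg C0 (la_nn S a q j x))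
    (Real.exp_pos (-aw M (pm S m) (ww S a q m j) (M.ch x) (M.ch x x))).le h (W (M.ch x) (M.ch x x))
  rw [← CU.qm_eq] at this
  refine le_trans (le_of_eq ?_) this
  rw [mul_right_comm C (la S a q j x), mul_assoc (C * n)]
  rfl

/-- The weights are admissible. -/
theorem adm [M.Cpt] (hZ : Zs S a) {m : ℕ} (hm : 1 ≤ m)
    (bd : ∃ C : ℝ, ∀ j, ∫ x, Real.exp (-ww S a q m j x) ∂M.mu S.H ≤ C)
    (nc1 : ∀ η : ℝ, 0 < η → ∃ C : ℝ, 0 ≤ C ∧ ∀ j W, (lb S m).Sec W →
      (lj S a q m j).nr S.H W ≤ η * (∫ x, gb S.H (lj S a q m j) W x ∂M.mu S.H +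
        (lj S a q m j).nr S.H W) + C * (lb S m).nr S.H W)
    (nc2 : ∀ η : ℝ, 0 < η → ∀ᶠ j in atTop, ∀ W, (lb S m).Sec W →
      ∫ x, la S a q j x * (lj S a q m j).pn W x ∂M.mu S.H ≤
        η * (∫ x, gb S.H (lj S a q m j) W x ∂M.mu S.H + (lj S a q m j).nr S.H W)) :
    Adm M S.H (Lb S m) (pm S m) (ww S a q m) := by
  refine ⟨pm_wt S m, ww_sm hZ q m, ww_le hZ q hm, bd, nc1, fun η hη => ?_⟩
  obtain ⟨C, C0, hC⟩ := cu_low q hZ hm
  filter_upwards [nc2 (η / (C + 1)) (by positivity)] with j h W hW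
  have hW' : (lj S a q m j).Sec W := ⟨hW.sm, hW.cmp⟩
  have c1 : Continuous ((lj S a q m j).pn W) :=
    Complex.continuous_re.comp ((lj_ok hZ q m j).pp_rep hW' hW').2.continuous
  have t : M.Ten (M.hw (pm S m) + M.ric S.H + M.hs (ww S a q m j)) :=
    (((pm_wt S m).clo.add ((mHES n M).2.2.2.2.2.2.2.2.1 _ (met S))).add
      ((mHES n M).1 _ (ww_sm hZ q m j))).toTen
  have c2 := (aCU n M S.H _ _ _ W (met S) t (lj_wt hZ q m j) hW').2.1
  have i := integral_mono ((la_int q hZ j c1).const_mul C).neg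
    ((mMU n M _ (met S)).2.2.2.2.1 ℝ _ c2) (hC j W)
  have p : 0 ≤ ∫ x, la S a q j x * (lj S a q m j).pn W x ∂M.mu S.H :=
    integral_nonneg fun x => mul_nonneg (la_nn S a q j x)
      (Pre.pn_nonneg (g := ⟨S.H, lj S a q m j, met S, lj_ok hZ q m j⟩) W x)
  have k := mul_le_mul_of_nonneg_left (h W hW) (by positivity : 0 ≤ C + 1)
  rw [← mul_assoc, mul_div_cancel₀ _ (by positivity : C + 1 ≠ 0)] at k
  simp only [Pi.neg_apply, integral_neg, integral_const_mul] at i
  linarith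

end Pool.Agent.Lib.N4S.Adm51
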