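import Pool.Agent.Lib.N4S.Defs
import Pool.Agent.Lib.NU4.Blue
import Pool.Agent.Lib.F4.B_PW1
import Pool.Agent.Lib.F4.B_S2K
import Pool.Agent.Lib.HS32.MAll
import Pool.Agent.Lib.K3S.B_MS
import Pool.Agent.Lib.K3S.B_SG
import Pool.Agent.Lib.ZE45.Kit

/-! Project n4s: a field without divergence on which the class `N` is not positive is small. -/

open scoped Classical Topology ContDiff ComplexOrder Matrix
open Set Filter MeasureTheory

set_option linter.unusedVariables false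

noncomputable section

namespace Pool.Agent.Lib.N4S

open Pool.Agent.Lib.SV (E)
open Pool.Agent.Lib.HS32 Pool.Agent.Lib.HLK Pool.Agent.Lib.F4 Pool.Agent.Lib.NU4
open Pool.Agent.Lib.K3E (kan wk lk)

namespace Smv49

variable {n : ℕ} {M : Mf n} {I : Type} [Fintype I] {H : M.Fam (Mat n)} {V : M.Fam (E n)}

theorem nq_lin (A B : Mat n) (a b : ℝ) (v : E n) :
    nq (a • A + b • B) v = a * nq A v + b * nq B v := by
  simp only [nq, Matrix.add_mulVec, Matrix.smul_mulVec, dotProduct_add, dotProduct_smul,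
    Complex.add_re, Complex.real_smul, Complex.mul_re, Complex.ofReal_re, Complex.ofReal_im,
    zero_mul, sub_zero]

theorem qv_lin (A B : M.Fam (Mat n)) (a b : ℝ) (x : M.X) :
    qV M H (a • A + b • B) V x = a * qV M H A V x + b * qV M H B V x := by
  change nq (a • M.ev A x + b • M.ev B x) (M.ev V x) / (M.ev H x).det.re =
    a * (nq (M.ev A x) (M.ev V x) / (M.ev H x).det.re) +
      b * (nq (M.ev B x) (M.ev V x) / (M.ev H x).det.re)
  rw [nq_lin]
  ring

theorem qv_add (A B : M.Fam (Mat n)) (x : M.X) :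
    qV M H (A + B) V x = qV M H A V x + qV M H B V x := by
  simpa only [one_smul, one_mul] using qv_lin (H := H) (V := V) A B 1 1 x

theorem qv_sub (A B : M.Fam (Mat n)) (x : M.X) :
    qV M H (A - B) V x = qV M H A V x - qV M H B V x := by
  simpa only [one_smul, one_mul, neg_smul, neg_mul, ← sub_eq_add_neg] using
    qv_lin (H := H) (V := V) A B 1 (-1) x

theorem qv_smul (A : M.Fam (Mat n)) (a : ℝ) (x : M.X) :
    qV M H (a • A) V x = a * qV M H A V x := by
  simpa only [zero_smul, zero_mul, add_zero] using qv_lin (H := H) (V := V) A A a 0 x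

theorem qv_nn (hH : M.Met H) {A : M.Fam (Mat n)} (hA : M.Le 0 A) (x : M.X) : 0 ≤ qV M H A V x :=
  div_nonneg (Complex.nonneg_iff.1
    ((Mf.AllOn.ch (DM.K63.le0.1 hA) x).dotProduct_mulVec_nonneg _)).1
    (Mf.pd_det_re (hH.ev_pos x)).le

theorem qv_sm (hH : M.Met H) (hV : HT M 1 V) {A : M.Fam (Mat n)} (hA : M.Ten A) :
    M.Sm (qV M H A V) :=
  (st_S2K st_PW1 n M H hH).2.2.2.2.2.2.1 A V hA ((st_S2K st_PW1 n M H hH).2.1 V hV)

theorem cq (hK : St_KIT) (hP : NU4.St_PW) (hH : M.Met H) (T : M.Fam (Mat n)) (x : M.X) :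
    cu T (lk H 1) (vec M V) x = qV M H T V x := by
  obtain ⟨-, -, -, -, -, t6, -⟩ := hK n M H 1 (vec M V) hH
  rw [(t6 x).2 T, pow_one]
  have h6 := (hP n (M.ev H x) (M.ev T x) (M.ev V x) 0 0 (hH.ev_pos x)).2.2.2.2.2.1
  exact congrArg (· / (M.ev H x).det.re) h6

variable [M.Cpt]

theorem qv_int (hH : M.Met H) (hV : HT M 1 V) {A : M.Fam (Mat n)} (hA : M.Ten A) :
    Integrable (qV M H A V) (M.mu H) :=
  (mMU n M H hH).2.2.2.2.1 _ _ (qv_sm hH hV hA).continuous

/-- A Hessian has mean zero on a field without divergence. -/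
theorem hs0 (hI : St_IBP) (hK : St_KIT) (hP : NU4.St_PW) (hL : St_LIE) (hH : M.Kae H)
    (hV : V1 M V) {u : M.X → ℝ} (hu : M.Sm u) : ∫ x, qV M H (M.hs u) V x ∂M.mu H = 0 := by
  obtain ⟨t1, t2, -⟩ := hK n M H 1 (vec M V) hH.toMet
  have hV1 : HT M (1 : ℕ) V := by simpa only [Nat.cast_one] using hV.ht
  obtain ⟨s1, s2⟩ := t1.1 (t2 V hV1).1
  obtain ⟨-, -, -, i4, -, i6⟩ := hI n M H 1 (vec M V) (fun _ => 1) u hH (Mf.sm_const 1) hu s1
  have e0 : sm M (fun _ => 1) (vec M V) = vec M V := by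
    funext e z
    simp only [sm, Complex.ofReal_one, one_smul]
  have p0 : ∀ x, M.ev (P0 M H 1 (vec M V)) x = 0 := fun x => by
    have h1 := (Mf.AllOn.ch i4 x).2.2
    have hv : HolV (V (M.ch x)) (M.ch x x) := Mf.AllOn.ch hV.ht.hol x
    have hw : HolV (vec M V (M.ch x)) (M.ch x x) := Mf.AllOn.ch s2 x
    have hf : HolN (fun _ : E n => (0 : ℂ)) (M.ch x x) :=
      Eventually.of_forall fun _ => differentiableAt_const _
    have h2 := (hL n _ _ _ _ _ hv hv hw hf).2.2.2.2.2.2.2.2.2.2.2.1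
    have h3 : dv (V (M.ch x)) (M.ch x x) = 0 := Mf.AllOn.ch hV.dv0 x
    rw [h3, zero_smul] at h2
    change P0 M H 1 (vec M V) (M.ch x) (M.ch x x) = 0
    rw [h1, Nat.cast_one, sub_self, zero_smul, sub_zero]
    exact h2
  have h1 := (i6 s2).1
  rw [e0] at h1
  simp only [one_mul, cq hK hP hH.toMet, Bun.ip, Bun.pp, p0, Matrix.mulVec_zero, dotProduct_zero,
    integral_zero, Complex.zero_re, neg_zero] at h1
  exact h1

/-- An effective class is not negative on a field without divergence. -/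
theorem eff (hI : St_IBP) (hK : St_KIT) (hP : NU4.St_PW) (hL : St_LIE) (hH : M.Kae H)
    (hV : V1 M V) {σ : M.X → ℝ} {Θ : M.Fam (Mat n)} (h : DM.K63.Sg M σ Θ) :
    0 ≤ ∫ x, qV M H Θ V x ∂M.mu H := by
  have hm := hH.toMet
  have sΘ := qv_sm hm hV.ht h.clo.toTen
  have sp := qv_sm hm hV.ht (DM.K63.pk_form h.sm h.clo.toForm).toTen
  have hint := (mMU n M H hm).2.2.2.2.1 ℝ
  refine le_of_forall_pos_le_add fun η η0 => ?_
  obtain ⟨δ, h1, hδ⟩ := ((h.lam0 hm sΘ.neg η0).and self_mem_nhdsWithin).exists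
  replace hδ : 0 < δ := hδ
  have k : ∀ x, qV M H (M.hs fun x => Real.log (σ x + δ)) V x + qV M H Θ V x =
      δ / (σ x + δ) * qV M H Θ V x + δ / (σ x + δ) ^ 2 * qV M H (DM.K63.pk M σ Θ) V x :=
    fun x => by
      have k1 := Mf.AllOn.ch (h.hs_log hδ) x
      rw [Mf.ch_symm] at k1
      rw [← qv_add]
      change nq (M.hs (fun x => Real.log (σ x + δ)) (M.ch x) (M.ch x x) + Θ (M.ch x) (M.ch x x))
        (M.ev V x) / (M.ev H x).det.re =
        δ / (σ x + δ) * (nq (Θ (M.ch x) (M.ch x x)) (M.ev V x) / (M.ev H x).det.re) +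
        δ / (σ x + δ) ^ 2 * (nq (DM.K63.pk M σ Θ (M.ch x) (M.ch x x)) (M.ev V x) /
          (M.ev H x).det.re)
      rw [k1, nq_lin]
      ring
  have k2 := integral_congr_ae (μ := M.mu H) (ae_of_all _ k)
  rw [integral_add (qv_int hm hV.ht ((mHES n M).1 _ (h.lsm hδ)).toTen) (hint _ sΘ.continuous),
    hs0 hI hK hP hL hH hV (h.lsm hδ), zero_add,
    integral_add (hint _ ((h.lam hδ).mul sΘ).continuous)
      (hint _ ((h.lam2 hδ).mul sp).continuous)] at k2
  have k3 : 0 ≤ ∫ x, δ / (σ x + δ) ^ 2 * qV M H (DM.K63.pk M σ Θ) V x ∂M.mu H :=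
    integral_nonneg fun x => mul_nonneg (div_nonneg hδ.le (sq_nonneg _)) (qv_nn hm h.psd x)
  simp only [mul_neg, integral_neg] at h1
  linarith

variable (S : Sd M I)

omit [M.Cpt] in
theorem sum_clo (s : Finset I) : M.Clo (∑ k ∈ s, al S.toDk k • M.hw (S.φ k)) := by
  induction s using Finset.induction_on with
  | empty => rw [Finset.sum_empty]; exact Mf.clo_zero
  | insert a s ha ih => rw [Finset.sum_insert ha]; exact ((S.wt a).clo.smul _).add ih

omit [M.Cpt] in
theorem bf_clo : M.Clo (bf S) := ((mHES n M).1 _ S.su).sub (sum_clo S _)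

omit [M.Cpt] in
theorem th_clo : M.Clo (bf S - M.ric S.H) :=
  (bf_clo S).sub ((mHES n M).2.2.2.2.2.2.2.2.1 _ S.kae.toMet)

theorem sgk (k : I) : DM.K63.Sg M (sg S.toDk k) (M.hw (S.φ k)) :=
  ZE45.bridge S.kae.toMet (K3S.MS.sg K3S.bSG S.toDk k).1

/-- The divisors are not negative on a field without divergence. -/
theorem dpos (hI : St_IBP) (hK : St_KIT) (hP : NU4.St_PW) (hL : St_LIE) (hV : V1 M V) (k : I) :
    0 ≤ ∫ x, qV M S.H (M.hw (S.φ k)) V x ∂M.mu S.H :=
  eff hI hK hP hL S.kae hV (sgk S k)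

theorem bf_le (hI : St_IBP) (hK : St_KIT) (hP : NU4.St_PW) (hL : St_LIE) (hV : V1 M V) :
    ∫ x, qV M S.H (bf S) V x ∂M.mu S.H ≤ 0 := by
  have hm := S.kae.toMet
  have k : ∀ s : Finset I,
      0 ≤ ∫ x, qV M S.H (∑ k ∈ s, al S.toDk k • M.hw (S.φ k)) V x ∂M.mu S.H := fun s => by
    induction s using Finset.induction_on with
    | empty => exact integral_nonneg fun x => qv_nn hm (by rw [Finset.sum_empty]; exact Mf.Le.refl _) x
    | insert a s ha ih =>
      simp only [Finset.sum_insert ha, qv_add, qv_smul]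
      rw [integral_add ((qv_int hm hV.ht (S.wt a).clo.toTen).const_mul _)
        (qv_int hm hV.ht (sum_clo S s).toTen), integral_const_mul]
      exact add_nonneg (mul_nonneg (div_nonneg (Nat.cast_nonneg _) (Nat.cast_nonneg _))
        (dpos S hI hK hP hL hV a)) ih
  simp only [bf, qv_sub]
  rw [integral_sub (qv_int hm hV.ht ((mHES n M).1 _ S.su).toTen)
    (qv_int hm hV.ht (sum_clo S _).toTen), hs0 hI hK hP hL S.kae hV S.su, zero_sub]
  exact neg_nonpos.2 (k _)

/-- The class `N` is below the canonical class on a field without divergence. -/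
theorem th_le (hI : St_IBP) (hK : St_KIT) (hP : NU4.St_PW) (hL : St_LIE) (hV : V1 M V) :
    ∫ x, qV M S.H (bf S - M.ric S.H) V x ∂M.mu S.H ≤ ∫ x, qV M S.H (-M.ric S.H) V x ∂M.mu S.H := by
  have hm := S.kae.toMet
  simp only [sub_eq_add_neg (bf S), qv_add]
  rw [integral_add (qv_int hm hV.ht (bf_clo S).toTen)
    (qv_int hm hV.ht ((mHES n M).2.2.2.2.2.2.2.2.1 _ hm).neg.toTen)]
  linarith [bf_le S hI hK hP hL hV]

theorem key (hI : St_IBP) (hK : St_KIT) (hP : NU4.St_PW) (hL : St_LIE) (hV : V1 M V) (ε : ℝ)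
    {v : M.X → ℝ} (hv : M.Sm v) : ∫ x, cu (oms S ε v) (lk S.H 1) (vec M V) x ∂M.mu S.H =
      ∫ x, qV M S.H (bf S - M.ric S.H) V x ∂M.mu S.H +
        ε * ∫ x, qV M S.H S.H V x ∂M.mu S.H := by
  have hm := S.kae.toMet
  have i1 := qv_int hm hV.ht (th_clo S).toTen
  have i2 := (qv_int hm hV.ht hm.toTen).const_mul ε
  have i4 : Integrable (fun x => qV M S.H (bf S - M.ric S.H) V x + ε * qV M S.H S.H V x)
    (M.mu S.H) := i1.add i2
  simp only [cq hK hP hm, oms, qv_add, qv_smul]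
  rw [integral_add i4 (qv_int hm hV.ht ((mHES n M).1 _ hv).toTen), integral_add i1 i2,
    integral_const_mul, hs0 hI hK hP hL S.kae hV hv, add_zero]

omit [M.Cpt] in
theorem hh0 : 0 ≤ ∫ x, qV M S.H S.H V x ∂M.mu S.H := integral_nonneg fun x =>
  qv_nn S.kae.toMet (DM.K63.le0.2 fun e he z hz => (S.kae.toMet.pos e he z hz).posSemidef) x

variable {a : ℝ → M.X → ℝ}

/-- The smallness of a field without divergence. -/
theorem smv (hI : St_IBP) (hK : St_KIT) (hP : NU4.St_PW) (hL : St_LIE) (hZ : Zs S a)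
    (hV : V1 M V) (h : N0s S a 1 (vec M V) ∨ ∫ x, qV M S.H (-M.ric S.H) V x ∂M.mu S.H ≤ 0 ∨
      ∫ x, qV M S.H (bf S - M.ric S.H) V x ∂M.mu S.H ≤ 0) : Sm0 S 1 (vec M V) := by
  have hc0 := hh0 (V := V) S
  have hl : ∫ x, qV M S.H (bf S - M.ric S.H) V x ∂M.mu S.H ≤ 0 := by
    rcases h with h | h | h
    · refine le_of_forall_pos_le_add fun η hη => ?_
      obtain ⟨ε, hε, -, h1⟩ := h η hη
      rw [key S hI hK hP hL hV ε (hZ.out.sm ε hε)] at h1
      have := mul_nonneg hε.1.le hc0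
      linarith
    · exact (th_le S hI hK hP hL hV).trans h
    · exact h
  refine ⟨_, hc0, fun ε u hε hu _ => ?_⟩
  rw [key S hI hK hP hL hV ε hu, mul_comm]
  linarith

/-- The class `N` is not negative on a field without divergence. -/
theorem th_nn (hI : St_IBP) (hK : St_KIT) (hP : NU4.St_PW) (hL : St_LIE) (hZ : Zs S a)
    (hV : V1 M V) : 0 ≤ ∫ x, qV M S.H (bf S - M.ric S.H) V x ∂M.mu S.H := by
  have t : Tendsto (fun ε : ℝ => ∫ x, qV M S.H (bf S - M.ric S.H) V x ∂M.mu S.H +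
      ε * ∫ x, qV M S.H S.H V x ∂M.mu S.H) (𝓝[>] 0) (𝓝 (_ + 0 * _)) :=
    ((continuous_const.add (continuous_mul_const _)).tendsto 0).mono_left nhdsWithin_le_nhds
  rw [zero_mul, add_zero] at t
  refine ge_of_tendsto t ?_
  filter_upwards [Ioc_mem_nhdsGT zero_lt_one] with ε hε
  rw [← key S hI hK hP hL hV ε (hZ.out.sm ε hε)]
  simp only [cq hK hP S.kae.toMet]
  exact integral_nonneg fun x => qv_nn S.kae.toMet (DM.K63.le0.2 fun e he z hz =>
    ((hZ.out.kae ε hε).toMet.pos e he z hz).posSemidef) x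

/-- The class `N` vanishes on a small field without divergence. -/
theorem th0 (hI : St_IBP) (hK : St_KIT) (hP : NU4.St_PW) (hL : St_LIE) (hZ : Zs S a)
    (hV : V1 M V) (h : Sm0 S 1 (vec M V)) :
    ∫ x, qV M S.H (bf S - M.ric S.H) V x ∂M.mu S.H = 0 := by
  refine le_antisymm ?_ (th_nn S hI hK hP hL hZ hV)
  obtain ⟨C, C0, hC⟩ := h
  have t : Tendsto (fun ε : ℝ => C * ε) (𝓝[>] 0) (𝓝 (C * 0)) :=
    ((continuous_const_mul C).tendsto 0).mono_left nhdsWithin_le_nhds
  rw [mul_zero] at t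
  refine ge_of_tendsto t ?_
  filter_upwards [Ioc_mem_nhdsGT zero_lt_one] with ε hε
  have h1 := hC ε _ hε.1.le (hZ.out.sm ε hε) (DM.K63.le0.2 fun e he z hz =>
    ((hZ.out.kae ε hε).toMet.pos e he z hz).posSemidef)
  rw [key S hI hK hP hL hV ε (hZ.out.sm ε hε)] at h1
  have := mul_nonneg hε.1.le (hh0 (V := V) S)
  linarith

end Smv49

end Pool.Agent.Lib.N4S
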