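import Pool.Agent.Lib.N4S.Kit78
import Pool.Agent.Lib.N4S.Smv49
import Pool.Agent.Lib.NU4.Hv39
import Pool.Agent.Lib.NU4.B_XS
import Pool.Agent.Lib.NU4.B_QQL

/-! Project n4s: the derivatives of the weights along a small tangent field of level one have a
holomorphic limit. -/

open scoped Classical Topology ContDiff ComplexOrder Matrix
open Set Filter MeasureTheory

noncomputable section

namespace Pool.Agent.Lib.N4S

open Pool.Agent.Lib.SV (E)
open Pool.Agent.Lib.HS32 Pool.Agent.Lib.HLK Pool.Agent.Lib.F4 Pool.Agent.Lib.NU4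
open Pool.Agent.Lib.K3E (kan wk lk triv)

namespace A80

variable {n : ℕ} {M : Mf n}

section gen

variable {H : M.Fam (Mat n)} {V : M.Fam (E n)}

/-- The squared norm of a section of the canonical bundle. -/
def nk (H : M.Fam (Mat n)) (t : M.Fam ℂ) (x : M.X) : ℝ :=
  M.ev (fun e z => ‖t e z‖ ^ 2 / (H e z).det.re) x

theorem nk_ct (hH : M.Met H) {t : M.Fam ℂ} (ht : M.Sec 1 t) : Continuous (nk H t) := by
  have h := ((mHES n M).2.2.2.2.2.2.2.1 1 _ t t
    (by simpa only [Nat.cast_one] using (mINV n M H hH).2.2.2.2.2.2.1) ht ht).2.re.continuous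
  refine h.congr fun x => ?_
  have p := Mf.pd_det_re (hH.ev_pos x)
  simp only [Mf.ev] at p
  simp only [nk, Mf.ev, Complex.star_def, Complex.mul_conj, ← Complex.ofReal_mul,
    Complex.ofReal_re, Real.exp_neg, Real.exp_log p, Complex.normSq_eq_norm_sq, div_eq_mul_inv]

theorem nk_nn (hH : M.Met H) (t : M.Fam ℂ) (x : M.X) : 0 ≤ nk H t x :=
  div_nonneg (sq_nonneg _) (Mf.pd_det_re (hH.ev_pos x)).le

theorem dir_sec (hV : HT M 1 V) {f : M.X → ℝ} (hf : M.Sm f) :
    M.Sec 1 fun e => dir (V e) (M.lc f e) := by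
  refine ⟨fun e he z hz => X91.cd_dir (hV.hol e he z hz) (hf.lc e he z hz),
    fun e he e' he' x hx hx' => ?_⟩
  have k : M.lc f e' =ᶠ[𝓝 (e' x)] M.lc f e ∘ e ∘ e'.symm :=
    ((mTR n M).2.1 e he e' he' x hx hx').2.2.2.1.mono fun w hw => by
      simp only [Mf.lc, Function.comp, hw.2.2.2.2.1]
  beta_reduce
  rw [Q76.dir_congr k, X91.dir_cmp hV e he e' he' x hx hx' _ (cd_diff (hf.lc.at he hx)), pow_one,
    mul_comm]

theorem amg {w α β η : ℝ} (hη : 0 < η) (hα : 0 ≤ α) :
    w * (√α + β) ≤ 2 * η * w ^ 2 + η⁻¹ * (α + β ^ 2) := by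
  have k : ∀ y : ℝ, w * y ≤ η * w ^ 2 + η⁻¹ * y ^ 2 := fun y => by
    have h : η * w ^ 2 + η⁻¹ * y ^ 2 - w * y = ((η * w - y / 2) ^ 2 + 3 / 4 * y ^ 2) / η := by
      field_simp
      ring
    rw [← sub_nonneg, h]
    positivity
  have h1 := k √α
  have h2 := k β
  rw [Real.sq_sqrt hα] at h1
  linarith

end gen

variable {I : Type} [Fintype I] (S : Sd M I) {V : M.Fam (E n)} {b : M.Fam ℂ} {e : M.Ch} {z : E n}

theorem cd_lg {d : ℝ} (hd : 0 ≤ d) (he : e ∈ M.C) (hz : z ∈ e.target)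
    (h : e.symm z ∈ Of S.toDk) (k : I) :
    ContDiffAt ℝ ∞ (fun w => Real.log (sg S.toDk k (e.symm w) + d)) z :=
  ((K78.sg_sm S.toDk k e he z hz).add contDiffAt_const).log
    (add_pos_of_pos_of_nonneg (K78.sg_pos _ h k) hd).ne'

theorem ph_eq (v : M.X → ℝ) (d : ℝ) (e : M.Ch) : ph S v d e = fun w => ld (S.H e) w +
    M.lc S.u e w + M.lc v e w +
      ∑ k, (al S.toDk k : ℂ) * (Real.log (sg S.toDk k (e.symm w) + d) : ℝ) := by
  funext w
  simp only [ph, pot, Mf.lc, Complex.ofReal_add, Complex.ofReal_sum, Complex.ofReal_mul, add_assoc]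

theorem cd_ph {v : M.X → ℝ} (hv : M.Sm v) {d : ℝ} (hd : 0 ≤ d) (he : e ∈ M.C)
    (hz : z ∈ e.target) (h : e.symm z ∈ Of S.toDk) : ContDiffAt ℝ ∞ (ph S v d e) z := by
  rw [ph_eq]
  exact (((X91.cd_ld (K78.met S) e he z hz).add (S.su.lc e he z hz)).add (hv.lc e he z hz)).add
    (ContDiffAt.sum fun k _ => contDiffAt_const.mul (cd_ofReal (cd_lg S hd he hz h k)))

/-- The curvature of the model weight off the divisors. -/
theorem hess_ph (he : e ∈ M.C) (hz : z ∈ e.target) (h : e.symm z ∈ Of S.toDk) :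
    hess (ph S 0 0 e) z = (bf S - M.ric S.H) e z := by
  have c1 := X91.cd_ld (K78.met S) e he z hz
  have c2 := S.su.lc e he z hz
  have c3 : ContDiffAt ℝ ∞ (M.lc 0 e) z := (Mf.sm_const (0 : ℝ)).lc e he z hz
  have c4 := fun k => cd_ofReal (cd_lg S le_rfl he hz h k)
  have k1 : ∀ k, hess (fun w => ((Real.log (sg S.toDk k (e.symm w) + 0) : ℝ) : ℂ)) z =
      -M.hw (S.φ k) e z := fun k => by
    obtain ⟨l1, l2, -⟩ := ((mHOL n _ _).2.2 ((S.hol k).holN e he z hz)).2.2.2
      ((K78.mem_Of _ he hz).1 h k)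
    have ev : (fun w => ((Real.log (sg S.toDk k (e.symm w) + 0) : ℝ) : ℂ)) =ᶠ[𝓝 z] fun w =>
        ((Real.log (Complex.normSq (S.f k e w)) : ℝ) : ℂ) - (S.φ k e w : ℝ) :=
      (K78.ev_Of _ he hz h).mono fun w hw => by
        beta_reduce
        rw [add_zero, K78.sg_rep _ k e he w hw.1, Real.log_mul ((map_ne_zero _).2
          ((K78.mem_Of _ he hw.1).1 hw.2 k)) (Real.exp_pos _).ne', Real.log_exp]
        push_cast
        ring
    rw [hess_congr ev, hess_sub (cd_ofReal l1) (cd_ofReal ((S.wt k).sm e he z hz)), l2, zero_sub]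
    rfl
  have k2 : ∀ s : Finset I, hess (fun w => ∑ k ∈ s, (al S.toDk k : ℂ) *
      (Real.log (sg S.toDk k (e.symm w) + 0) : ℝ)) z =
        -∑ k ∈ s, al S.toDk k • M.hw (S.φ k) e z := fun s => by
    induction s using Finset.induction_on with
    | empty => simp
    | insert k s hk ih =>
      simp only [Finset.sum_insert hk]
      rw [hess_add (contDiffAt_const.mul (c4 k)) (ContDiffAt.sum fun j _ =>
        contDiffAt_const.mul (c4 j)), ih, hess_const_mul _ (c4 k), k1, neg_add, smul_neg]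
      rfl
  have k3 : hess (M.lc 0 e) z = 0 := by
    rw [show M.lc 0 e = fun _ => (0 : ℂ) from funext fun _ => Complex.ofReal_zero, hess_const]
  rw [ph_eq, hess_add ((c1.add c2).add c3) (ContDiffAt.sum fun j _ => contDiffAt_const.mul (c4 j)),
    hess_add (c1.add c2) c3, hess_add c1 c2, k2, k3]
  simp only [bf, Mf.ric, Mf.hs, Pi.sub_apply, Finset.sum_apply, Pi.smul_apply]
  abel

theorem fr_Of [M.Cpt] (hz : z ∈ e.target) :
    ∃ᶠ w in 𝓝 z, w ∈ e.target ∧ e.symm w ∈ Of S.toDk := by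
  have d : Dense (Of S.toDk) := by
    have : Of S.toDk = ⋂ k, {x | sg S.toDk k x ≠ 0} := by ext x; simp [Of]
    rw [this]
    exact dense_iInter_of_isOpen
      (fun k => isOpen_ne_fun (K78.sg_sm _ k).continuous continuous_const)
      fun k => (K3S.MS.sg K3S.bSG S.toDk k).2.1
  have h := mem_closure_iff_frequently.1 (d (e.symm z))
  rw [← e.symm.map_nhds_eq hz, frequently_map] at h
  exact (h.and_eventually (e.open_target.eventually_mem hz)).mono fun w hw => ⟨hw.2, hw.1⟩

/-- The `(0,1)` derivative of the affine structure of the model. -/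
theorem db [M.Cpt] (hV : HT M 1 V) (hb : B0 S V b) :
    M.All fun e z => ∀ l, dzb l (b e) z = ((bf S - M.ric S.H) e z *ᵥ V e z) l := by
  have off : ∀ e ∈ M.C, ∀ z ∈ e.target, e.symm z ∈ Of S.toDk →
      ∀ l, dzb l (b e) z = ((bf S - M.ric S.H) e z *ᵥ V e z) l := fun e he z hz h l => by
    rw [dzb_congr ((K78.ev_Of _ he hz h).mono fun w hw => hb.eq e he w hw.1 hw.2),
      ← hess_ph S he hz h]
    exact Hx39.dzb_dir (hV.hol e he z hz) (cd_ph S (Mf.sm_const 0) le_rfl he hz h) l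
  intro e he z hz l
  have c1 := (cd_dzb (hb.sm e he z hz) l).continuousAt
  have c2 : ContinuousAt (fun w => ((bf S - M.ric S.H) e w *ᵥ V e w) l) z :=
    (contDiffAt_pi.1 (((Smv49.th_clo S).sm e he z hz).mulVec
      (contDiffAt_pi.2 (Q76.cd_v hV he hz))) l).continuousAt
  exact tendsto_nhds_unique_of_frequently_eq c1 c2
    ((fr_Of S hz).mono fun w hw => off e he w hw.1 hw.2 l)

/-- The derivative of the regularised weight. -/
theorem dir_ph (V : E n → E n) {v : M.X → ℝ} (hv : M.Sm v) {d : ℝ} (hd : 0 ≤ d) (he : e ∈ M.C)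
    (hz : z ∈ e.target) (h : e.symm z ∈ Of S.toDk) : dir V (ph S v d e) z =
      dir V (ld (S.H e)) z + dir V (M.lc S.u e) z + dir V (M.lc v e) z +
        ∑ k, (al S.toDk k / (sg S.toDk k (e.symm z) + d) : ℝ) * dir V (M.lc (sg S.toDk k) e) z := by
  have c1 := cd_diff (X91.cd_ld (K78.met S) e he z hz)
  have c2 := cd_diff (S.su.lc e he z hz)
  have c3 := cd_diff (hv.lc e he z hz)
  have c4 := fun k => cd_diff (cd_ofReal (cd_lg S hd he hz h k))
  have k1 : ∀ k j, dz j (fun w => ((Real.log (sg S.toDk k (e.symm w) + d) : ℝ) : ℂ)) z =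
      ((sg S.toDk k (e.symm z) + d)⁻¹ : ℝ) * dz j (M.lc (sg S.toDk k) e) z := fun k j =>
    dz_comp_real (u := fun w => sg S.toDk k (e.symm w)) (φ := fun t => Real.log (t + d))
      (by simpa only [one_div] using ((hasDerivAt_id' (sg S.toDk k (e.symm z))).add_const d).log
            (add_pos_of_pos_of_nonneg (K78.sg_pos _ h k) hd).ne')
      (cd_diff (K78.sg_sm S.toDk k e he z hz))
  rw [ph_eq, Q76.dir_add ((c1.fun_add c2).fun_add c3) (DifferentiableAt.fun_sum fun k _ =>
    (c4 k).const_mul _), Q76.dir_add (c1.fun_add c2) c3, Q76.dir_add c1 c2]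
  refine congrArg _ ?_
  simp only [dir, dz_sum fun k _ => (c4 k).const_mul _, dz_const_mul _ (c4 _), k1, Finset.mul_sum]
  rw [Finset.sum_comm]
  refine Finset.sum_congr rfl fun k _ => Finset.sum_congr rfl fun j _ => ?_
  push_cast
  ring

variable {S} {a : ℝ → M.X → ℝ} (hZ : Zs S a) (q : Sq)
include hZ

theorem exp_tp (c : ℝ) (j : ℕ) (x : M.X) :
    Real.exp (-(c * tp a q j x)) ^ 2 ≤ Real.exp (-((2 * |c| + 1) * a (q.e j) x)) := by
  have h1 := K78.tp_le hZ q j x
  have h2 := (K78.tp_ge (a := a) q j x).2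
  have h3 := le_abs_self c
  have h4 := abs_nonneg c
  rw [← Real.exp_nat_mul]
  refine Real.exp_le_exp.2 ?_
  push_cast
  nlinarith

/-- From the quadratic mean to the limit of the derivatives of the weights. -/
theorem fd_of [M.Cpt] (hV : HT M 1 V) (hb : B0 S V b) {δ : M.Fam ℂ}
    (h1 : M.All fun e z => HolN (δ e) z) (h2 : M.Sec 1 (δ - a0 M S.H V))
    (h3 : Tendsto (fun j => ∫ x, nk S.H (fun e z => dir (V e) (M.lc (tp a q j) e) z + b e z - δ e z)
      x ∂M.mu S.H) atTop (𝓝 0)) : Fd S a q 1 V δ := by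
  have hm := K78.met S
  have := (mMU n M S.H hm).2.1
  have It := (mMU n M S.H hm).2.2.2.2.1 ℝ
  refine ⟨by simpa only [Nat.cast_one] using hV, fun e he z hz _ => h1 e he z hz,
    fun e he e' he' x hx hx' _ => (h2.cmp e he e' he' x hx hx').trans (mul_comm _ _),
    fun K hK c => ?_⟩
  choose s s0 hs using fun k => hK.1.exists_forall_le' (K78.sg_sm S.toDk k).continuous.continuousOn
    (a := 0) fun x hx => K78.sg_pos _ (hK.2 hx) k
  choose B hB using fun k => (isCompact_univ (X := M.X)).exists_bound_of_continuousOn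
    (nk_ct hm (dir_sec hV (K78.sg_sm S.toDk k))).continuousOn
  obtain ⟨C, hC⟩ := hZ.itg (2 * |c| + 1) (by positivity)
  obtain ⟨β, hβ⟩ : ∃ β : ℝ, β = ∑ k, al S.toDk k / s k ^ 2 * √(B k) := ⟨_, rfl⟩
  have sA : ∀ j, M.Sec 1 fun e z => dir (V e) (M.lc (tp a q j) e) z + b e z - δ e z := fun j => by
    have t := dir_sec hV (K78.tp_sm hZ q j)
    refine ⟨fun e he z hz => ((t.sm e he z hz).add (hb.sm e he z hz)).sub
      ((mHOL n _ _).2.2 (h1 e he z hz)).1, fun e he e' he' x hx hx' => ?_⟩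
    have k1 := t.cmp e he e' he' x hx hx'
    have k2 := hb.sec.cmp e he e' he' x hx hx'
    have k3 := h2.cmp e he e' he' x hx hx'
    simp only [Pi.sub_apply] at k1 k2 k3 ⊢
    linear_combination k1 + k2 - k3
  have pt : ∀ j, ∀ x ∈ K, M.ev (fun e z => ‖dir (V e) (ph S (tp a q j) (q.d j) e) z - δ e z‖ /
      √((S.H e z).det.re ^ 1)) x ≤ √(nk S.H (fun e z => dir (V e) (M.lc (tp a q j) e) z + b e z -
        δ e z) x) + q.d j * β := fun j x hx => by
    have he := Mf.ch_mem x
    have hz := Mf.ch_tgt x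
    have ho : (M.ch x).symm (M.ch x x) ∈ Of S.toDk := by rw [Mf.ch_symm]; exact hK.2 hx
    have p := Real.sqrt_pos.2 (Mf.pd_det_re (hm.pos _ he _ hz))
    have d0 := (q.d0 j).1
    have r : ∀ t : M.Fam ℂ, √(nk S.H t x) = ‖t (M.ch x) (M.ch x x)‖ /
        √(S.H (M.ch x) (M.ch x x)).det.re := fun t => by
      rw [nk, Mf.ev, Real.sqrt_div (sq_nonneg _), Real.sqrt_sq (norm_nonneg _)]
    have k0 : dir (V (M.ch x)) (M.lc 0 (M.ch x)) (M.ch x x) = 0 := by
      rw [show M.lc 0 (M.ch x) = fun _ => (0 : ℂ) from funext fun _ => Complex.ofReal_zero]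
      simp [dir]
    have k1 : dir (V (M.ch x)) (ph S (tp a q j) (q.d j) (M.ch x)) (M.ch x x) -
        δ (M.ch x) (M.ch x x) =
        (dir (V (M.ch x)) (M.lc (tp a q j) (M.ch x)) (M.ch x x) + b (M.ch x) (M.ch x x) -
          δ (M.ch x) (M.ch x x)) + ∑ k, (al S.toDk k / (sg S.toDk k x + q.d j) -
            al S.toDk k / (sg S.toDk k x + 0) : ℝ) *
              dir (V (M.ch x)) (M.lc (sg S.toDk k) (M.ch x)) (M.ch x x) := by
      rw [hb.eq _ he _ hz ho, dir_ph S _ (K78.tp_sm hZ q j) d0.le he hz ho,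
        dir_ph S _ (v := 0) (Mf.sm_const 0) le_rfl he hz ho, k0, Mf.ch_symm]
      simp only [Complex.ofReal_sub, sub_mul, Finset.sum_sub_distrib]
      ring
    rw [r, Mf.ev, pow_one, k1, hβ, Finset.mul_sum]
    refine (div_le_div_of_nonneg_right ((norm_add_le _ _).trans
      (add_le_add le_rfl (norm_sum_le _ _))) p.le).trans ?_
    rw [add_div, Finset.sum_div]
    refine add_le_add le_rfl (Finset.sum_le_sum fun k _ => ?_)
    have b1 := Real.sqrt_le_sqrt ((le_abs_self _).trans (hB k x (mem_univ x)))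
    rw [r] at b1
    have s1 := hs k x hx
    have s2 := s0 k
    have s3 := K78.al_nn S.toDk k
    have s4 : 0 < sg S.toDk k x := s2.trans_le s1
    rw [norm_mul, mul_div_assoc, ← mul_assoc]
    refine mul_le_mul ?_ b1 (by positivity) (by positivity)
    rw [Complex.norm_real, Real.norm_eq_abs, abs_sub_comm, add_zero, show al S.toDk k /
      sg S.toDk k x - al S.toDk k / (sg S.toDk k x + q.d j) = q.d j * (al S.toDk k /
        (sg S.toDk k x * (sg S.toDk k x + q.d j))) by field_simp; ring, abs_of_nonneg (by positivity)]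
    refine mul_le_mul_of_nonneg_left (div_le_div_of_nonneg_left s3 (by positivity) ?_) d0.le
    nlinarith
  have nn : ∀ j x, 0 ≤ Real.exp (-(c * tp a q j x)) * M.ev (fun e z =>
      ‖dir (V e) (ph S (tp a q j) (q.d j) e) z - δ e z‖ / √((S.H e z).det.re ^ 1)) x :=
    fun j x => mul_nonneg (Real.exp_pos _).le (div_nonneg (norm_nonneg _) (Real.sqrt_nonneg _))
  have dt : Tendsto q.d atTop (𝓝 0) := by simpa using q.dt 0 1 one_pos
  have t2 : Tendsto (fun j => ∫ x, nk S.H (fun e z => dir (V e) (M.lc (tp a q j) e) z + b e z -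
      δ e z) x ∂M.mu S.H + (M.mu S.H).real univ * (q.d j * β) ^ 2) atTop (𝓝 0) := by
    simpa using h3.add (((dt.mul_const β).pow 2).const_mul ((M.mu S.H).real univ))
  have C0 : 0 ≤ C := (integral_nonneg fun x => (Real.exp_pos _).le).trans (hC _ (q.e0 0))
  refine tendsto_order.2 ⟨fun ε hε => Eventually.of_forall fun j =>
    hε.trans_le (integral_nonneg (nn j)), fun ε hε => ?_⟩
  obtain ⟨η, η0, hη⟩ : ∃ η : ℝ, 0 < η ∧ η * (2 * C + 2) = ε :=
    ⟨ε / (2 * C + 2), by positivity, by field_simp⟩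
  filter_upwards [t2.eventually_le_const (pow_pos η0 2)] with j hj
  have i1 := It _ ((K78.a_sm hZ q j).const_mul (2 * |c| + 1)).neg.exp.continuous
  have i2 := It _ (nk_ct hm (sA j))
  have i3 := (i2.add (integrable_const ((q.d j * β) ^ 2))).const_mul η⁻¹
  have i4 := (i1.const_mul (2 * η)).add i3
  refine lt_of_le_of_lt ((integral_mono_of_nonneg (Eventually.of_forall (nn j)) i4.integrableOn
    ((ae_restrict_iff' hK.1.measurableSet).2 (Eventually.of_forall fun x hx => ?_))).trans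
    (setIntegral_le_integral i4 (Eventually.of_forall fun x => ?_))) ?_
  · refine (mul_le_mul_of_nonneg_left (pt j x hx) (Real.exp_pos _).le).trans
      ((amg η0 (nk_nn hm _ x)).trans (add_le_add (mul_le_mul_of_nonneg_left
        (exp_tp hZ q c j x) (by positivity)) le_rfl))
  · exact add_nonneg (by positivity) (mul_nonneg (by positivity)
      (add_nonneg (nk_nn hm _ x) (sq_nonneg _)))
  · rw [integral_add' (i1.const_mul _) i3, integral_const_mul, integral_const_mul,
      integral_add' i2 (integrable_const _), integral_const, smul_eq_mul]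
    have u1 := mul_le_mul_of_nonneg_left (hC _ (q.e0 j)) (by positivity : 0 ≤ 2 * η)
    have u2 := mul_le_mul_of_nonneg_left hj (inv_pos.2 η0).le
    rw [show η⁻¹ * η ^ 2 = η by field_simp] at u2
    nlinarith

/-- The curvature of the truncated potentials. -/
theorem cvb [M.Cpt] : ∃ C : ℝ, 0 ≤ C ∧ ∀ j, M.All fun e z =>
    ((bf S - M.ric S.H) e z + M.hs (tp a q j) e z + (q.e j +
      C * (1 - deriv (q.χ j) (a (q.e j) (e.symm z)))) • S.H e z).PosSemidef := by
  obtain ⟨C, C0, -, hC⟩ := (mBD n M S.H (K78.met S)).1 _ (Smv49.th_clo S).toForm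
  refine ⟨C, C0.le, fun j e he z hz => ?_⟩
  have p1 := ((hZ.out.kae _ (q.e0 j)).pos e he z hz).posSemidef
  have p2 := hC e he z hz
  have p3 := ((mHES n M).2.2.1 _ (K78.a_sm hZ q j)).2 e he z hz
  have p4 := ((K78.met S).pos e he z hz).posSemidef
  obtain ⟨d1, d2⟩ := q.d1 j (a (q.e j) (e.symm z))
  have k := ((p1.smul d1).add (p2.smul (sub_nonneg.2 d2))).add
    ((p3.smul (q.d2 j (a (q.e j) (e.symm z))).1).add
      (p4.smul (mul_nonneg (q.e0 j).1.le (sub_nonneg.2 d2))))
  refine (congrArg Matrix.PosSemidef ?_).mp k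
  rw [K78.tp_hs hZ q j e he z hz]
  simp only [Pi.add_apply, Pi.sub_apply, Pi.smul_apply, Pi.neg_apply, Pi.zero_apply]
  module

theorem lat [M.Cpt] (C : ℝ) : Tendsto (fun j => (1 + (q.N j + 1)) *
    ∫ x, (q.e j + C * (1 - deriv (q.χ j) (a (q.e j) x))) ∂M.mu S.H) atTop (𝓝 0) := by
  have hm := K78.met S
  have := (mMU n M S.H hm).2.1
  have It := (mMU n M S.H hm).2.2.2.2.1 ℝ
  obtain ⟨A, hA⟩ := hZ.itg 1 one_pos
  have ct : ∀ j, Continuous fun x => 1 - deriv (q.χ j) (a (q.e j) x) := fun j =>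
    continuous_const.sub (((q.sm j).continuous_deriv (by simp)).comp (K78.a_sm hZ q j).continuous)
  have t1 : Tendsto (fun j => (1 + (q.N j + 1)) * q.e j) atTop (𝓝 0) := by
    refine squeeze_zero (fun j => mul_nonneg (by linarith [q.N1 j]) (q.e0 j).1.le) (fun j => ?_)
      (by simpa using (q.et 1).const_mul 2)
    have := Real.add_one_le_exp (q.N j)
    have := (q.e0 j).1
    have := q.N1 j
    nlinarith
  have t2 : Tendsto (fun j => (1 + (q.N j + 1)) *
      ∫ x, (1 - deriv (q.χ j) (a (q.e j) x)) ∂M.mu S.H) atTop (𝓝 0) := by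
    have u := ((Real.tendsto_pow_mul_exp_neg_atTop_nhds_zero 1).comp q.Nt).mul_const (3 * A)
    refine squeeze_zero (fun j => mul_nonneg (by linarith [q.N1 j])
      (integral_nonneg fun x => sub_nonneg.2 (q.d1 j _).2)) (fun j => ?_) (by simpa using u)
    have i1 := It _ ((K78.a_sm hZ q j).const_mul 1).neg.exp.continuous
    have k : ∫ x, (1 - deriv (q.χ j) (a (q.e j) x)) ∂M.mu S.H ≤ Real.exp (-q.N j) * A := by
      refine (integral_mono (It _ (ct j)) (i1.const_mul (Real.exp (-q.N j))) fun x => ?_).trans ?_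
      · beta_reduce
        rw [← Real.exp_add]
        by_cases h : -q.N j ≤ a (q.e j) x
        · rw [(q.id j _ h).2.1, sub_self]
          exact (Real.exp_pos _).le
        · exact (sub_le_self _ (q.d1 j _).1).trans (Real.one_le_exp (by linarith [not_le.1 h]))
      · rw [integral_const_mul]
        exact mul_le_mul_of_nonneg_left (hA _ (q.e0 j)) (Real.exp_pos _).le
    have A0 : 0 ≤ Real.exp (-q.N j) * A :=
      (integral_nonneg fun x => sub_nonneg.2 (q.d1 j _).2).trans k
    have := mul_le_mul (show 1 + (q.N j + 1) ≤ 3 * q.N j by linarith [q.N1 j]) k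
      (integral_nonneg fun x => sub_nonneg.2 (q.d1 j _).2) (by linarith [q.N1 j])
    linarith
  have t3 := (t1.const_mul ((M.mu S.H).real univ)).add (t2.const_mul C)
  simp only [mul_zero, add_zero] at t3
  refine t3.congr fun j => ?_
  rw [integral_add (integrable_const _) ((It _ (ct j)).const_mul C), integral_const,
    integral_const_mul, smul_eq_mul]
  ring

end A80

end Pool.Agent.Lib.N4S
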