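import Pool.Agent.Lib.NU4.B_XS
import Pool.Agent.Lib.NU4.B_PW
import Pool.Agent.Lib.NU4.Ibp20
import Pool.Agent.Lib.NU4.Flip71e

/-! Project n4s: the affine structure along a field of level one on which a limit of almost
positive forms vanishes. -/

open scoped Classical Topology ContDiff ComplexOrder Matrix
open Set Filter MeasureTheory

set_option linter.unusedVariables false

noncomputable section

namespace Pool.Agent.Lib.N4S.A32

open Pool.Agent.Lib.SV (E)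
open Pool.Agent.Lib.HS32 Pool.Agent.Lib.HLK Pool.Agent.Lib.F4 Pool.Agent.Lib.NU4
open Pool.Agent.Lib.K3E (kan wk lk triv)
open Pool.Agent.Lib.F4.Clo (U1)
open Pool.Agent.Lib.HLK.ONE

variable {n : ℕ}

/-! ### Pointwise algebra -/

theorem cs {T : Mat n} (h : T.PosSemidef) (v ξ : E n) (t : ℝ) :
    2 * t * (star (T *ᵥ v) ⬝ᵥ ξ).re ≤ nq T v + t ^ 2 * nq T ξ := by
  have p := (Complex.nonneg_iff.1 (h.dotProduct_mulVec_nonneg (v - (t : ℂ) • ξ))).1
  have e1 : star v ⬝ᵥ T *ᵥ ξ = star (T *ᵥ v) ⬝ᵥ ξ := by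
    rw [Matrix.star_mulVec, h.1.eq, Matrix.dotProduct_mulVec]
  have e2 : (star ξ ⬝ᵥ T *ᵥ v).re = (star (T *ᵥ v) ⬝ᵥ ξ).re := by
    rw [Matrix.star_dotProduct, Complex.star_def, Complex.conj_re]
  simp only [star_sub, star_smul, Matrix.mulVec_sub, Matrix.mulVec_smul, sub_dotProduct,
    dotProduct_sub, smul_dotProduct, dotProduct_smul, smul_eq_mul, Complex.star_def,
    Complex.conj_ofReal, Complex.sub_re, Complex.re_ofReal_mul, e1, e2] at p
  simp only [nq]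
  nlinarith

theorem nq_ad (A B : Mat n) (c : ℝ) (v : E n) : nq (A + c • B) v = nq A v + c * nq B v := by
  simp only [nq, Matrix.add_mulVec, Matrix.smul_mulVec, dotProduct_add, dotProduct_smul,
    Complex.add_re, Complex.real_smul, Complex.re_ofReal_mul]

theorem nq_st (T : Mat n) (v : E n) : (star (T *ᵥ v) ⬝ᵥ v).re = nq T v := by
  rw [Matrix.star_dotProduct, Complex.star_def, Complex.conj_re, nq]

theorem pw {H S : Mat n} (hH : H.PosDef) {l t K : ℝ} (hl : 0 ≤ l) (ht : 0 ≤ t)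
    (hS : (S + l • H).PosSemidef) {v ξ : E n} (h1 : nq H ξ ≤ K) (h2 : nq H v ≤ K) :
    2 * t * (star (S *ᵥ v) ⬝ᵥ ξ).re ≤
      nq S v + t ^ 2 * K * (H⁻¹ * S).trace.re + (1 + t ^ 2 * n + 2 * t) * K * l := by
  have a := cs hS v ξ t
  have b := cs hH.posSemidef v ξ (-1)
  obtain ⟨-, -, -, -, c1, c2, -, -, c3⟩ := st_PW n H (S + l • H) ξ 0 (crv ξ *ᵥ vac n) hH
  have c := (c3 hS).2.1
  have d := Mf.trace_inv_mul_nonneg hH hS
  rw [c1, c2] at c
  have e : (H⁻¹ * (S + l • H)).trace.re = (H⁻¹ * S).trace.re + l * n := by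
    rw [Matrix.mul_add, Matrix.mul_smul, Matrix.nonsing_inv_mul _ (Mf.pd_det_ne hH).isUnit,
      Matrix.trace_add, Matrix.trace_smul, Matrix.trace_one, Complex.add_re]
    simp
  have f : (star ((S + l • H) *ᵥ v) ⬝ᵥ ξ).re =
      (star (S *ᵥ v) ⬝ᵥ ξ).re + l * (star (H *ᵥ v) ⬝ᵥ ξ).re := by
    simp only [Matrix.add_mulVec, Matrix.smul_mulVec, star_add, add_dotProduct, star_smul,
      smul_dotProduct, Complex.add_re, star_trivial, Complex.real_smul, Complex.re_ofReal_mul]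
  have g := c.trans (mul_le_mul_of_nonneg_left h1 d)
  rw [e] at g
  rw [f, nq_ad S H l v] at a
  have g2 := mul_le_mul_of_nonneg_left g (sq_nonneg t)
  have g3 := mul_le_mul_of_nonneg_left h2 hl
  have g4 : -(2 * (star (H *ᵥ v) ⬝ᵥ ξ).re) ≤ 2 * K := by linarith
  have g5 := mul_le_mul_of_nonneg_left g4 (mul_nonneg ht hl)
  nlinarith

theorem u1_adj (x : Fs n → ℂ) (v : E n) : star (U1 n *ᵥ v) ⬝ᵥ x = star v ⬝ᵥ (U1 n)ᴴ *ᵥ x := by
  rw [Matrix.star_mulVec, Matrix.dotProduct_mulVec]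

theorem u1_la {G : Mat n} (hG : G.PosDef) (v : E n) (x : Fs n → ℂ) :
    star (U1 n *ᵥ v) ⬝ᵥ La G *ᵥ x = star (G *ᵥ v) ⬝ᵥ (U1 n)ᴴ *ᵥ x := by
  have pd := ((aFK2 n).2 G).2.2.2.2.2 hG
  rw [Matrix.dotProduct_mulVec, ← pd.1.eq, ← Matrix.star_mulVec, Clo.la_u1, u1_adj]

theorem vac_la {G : Mat n} (hG : G.PosDef) (c : ℂ) (x : Fs n → ℂ) :
    star (c • Clo.vac n) ⬝ᵥ La G *ᵥ x = star c * x ∅ := by
  have pd := ((aFK2 n).2 G).2.2.2.2.2 hG
  rw [Matrix.dotProduct_mulVec, ← pd.1.eq, ← Matrix.star_mulVec, Matrix.mulVec_smul, Clo.la_vac]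
  simp

/-! ### The bundle of level one -/

variable {M : Mf n} {H : M.Fam (Mat n)}

theorem pp_eq (hH : M.Met H) (W U : M.Fam (Fs n → ℂ)) (x : M.X) : (lk H 1).pp W U x =
    (((M.ev H x).det.re⁻¹ : ℝ) : ℂ) * (star (M.ev W x) ⬝ᵥ La (M.ev H x) *ᵥ M.ev U x) := by
  have d := Mf.pd_det_re (hH.ev_pos x)
  simp only [Bun.pp, Mf.ev, lam, wk, Matrix.smul_mulVec, dotProduct_smul, smul_eq_mul,
    Nat.cast_one, one_mul] at d ⊢
  rw [Real.exp_neg, Real.exp_log d]

theorem p_eq (W : M.Fam (Fs n → ℂ)) (e : M.Ch) (z : E n) :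
    (oP H (wk H 1)).ap W e z = pf0 (W e) z := by
  rw [I20.op_ap]
  have : gd (fun w => (KP.T60.phC M H (wk H 1) e w : ℂ)) z = 0 := funext fun k => by
    simp [gd, KP.T60.phC, wk]
  simp [this, anv]

theorem sv_sec {L : M.Co} {φ : M.Fam ℝ} {s : M.Fam ℂ} (hs : M.SecC L s) :
    (lam H L φ).Sec fun e z => s e z • Clo.vac n :=
  ⟨fun e he z hz => (hs.sm e he z hz).smul contDiffAt_const, fun e he e' he' x hx hx' => by
    simp only [lam, Matrix.smul_mulVec, Matrix.mulVec_smul, Clo.la_vac, smul_smul,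
      hs.cmp e he e' he' x hx hx']
    rw [mul_assoc, mul_inv_cancel₀ (L.ne e he e' he' x hx hx'), mul_one]⟩

theorem vv_sec {V : M.Fam (E n)} (hV : HT M 1 V) :
    (lk H 1).Sec (fun e z => U1 n *ᵥ V e z) ∧ Hol fun e z => U1 n *ᵥ V e z := by
  have h3 : Hol fun e z => U1 n *ᵥ V e z := fun e he z hz A => by
    filter_upwards [eventually_all.2 (hV.hol e he z hz)] with w hw
    show DifferentiableAt ℂ (fun w => ∑ i, U1 n A i * V e w i) w
    exact DifferentiableAt.fun_sum fun i _ => (hw i).const_mul _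
  refine ⟨⟨fun e he z hz => contDiffAt_pi.2 fun A => ((mHOL n _ _).2.2 (h3 e he z hz A)).1,
    fun e he e' he' x hx hx' => ?_⟩, h3⟩
  have := ((mTR n M).2.1 e he e' he' x hx hx').2.1
  have t := hV.cmp e he e' he' x hx hx'
  simp only [zpow_one, jd] at t
  simp only [lam, kan, triv, Mf.Co.tw, pow_one, mul_one, Matrix.smul_mulVec, Clo.la_u1, t,
    Matrix.mulVec_smul, smul_smul, inv_mul_cancel₀ this, one_smul]

theorem dzb_dir {v : E n → E n} {f : E n → ℂ} {z : E n} (hv : HolV v z)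
    (hf : ContDiffAt ℝ ∞ f z) (l : Fin n) : dzb l (dir v f) z = (hess f z *ᵥ v z) l := by
  have d := fun k => (hv k).self_of_nhds
  refine (dzb_sum fun k _ => ((d k).restrictScalars ℝ).fun_mul (cd_diff (cd_dz hf k))).trans
    (Finset.sum_congr rfl fun k _ => ?_)
  rw [dzb_mul ((d k).restrictScalars ℝ) (cd_diff (cd_dz hf k)), HS.SIUK.dzb_hol (d k)]
  simp [mul_comm]

theorem p_uv [M.Cpt] (hH : M.Kae H) {V : M.Fam (E n)} (hV : HT M 1 V) {u : M.X → ℝ}
    (hu : M.Sm u) : M.All fun e z => pf0 (sm M u (fun e z => U1 n *ᵥ V e z) e) z =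
      dir (V e) (M.lc u e) z • Clo.vac n := fun e he z hz => by
  obtain ⟨a, b⟩ := vv_sec (H := H) hV
  have r := I20.pf0_smul (cd_diff (hu.lc e he z hz)) (a.sm e he z hz)
  have r0 : pf0 (fun w => U1 n *ᵥ V e w) z = 0 := Clo.clo hH a b e he z hz
  rw [r0, smul_zero, zero_add, I20.anv_mv] at r
  refine Eq.trans (show pf0 (fun w => M.lc u e w • U1 n *ᵥ V e w) z = _ from r) ?_
  simp only [Clo.an_u1, smul_smul, ← Finset.sum_smul, gd, dir, mul_comm]

/-- The decomposition of Hodge at the level one. -/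
theorem hod [M.Cpt] (hn : 0 < n) (hH : M.Kae H) (o : (lk H 1).Ok)
    (k : (oD H (wk H 1)).Skew (lk H 1) H) (f : Pre (IDX.geo (kan M 1) (wk H 1) hH.toMet o)) :
    ∃ w : Pre (IDX.geo (kan M 1) (wk H 1) hH.toMet o), Hol w.val ∧ ∀ η : ℝ, 0 < η → ∃ y,
      ‖f - w - Pre.op (g := IDX.geo (kan M 1) (wk H 1) hH.toMet o) _ k.sec y‖ < η := by
  let g := IDX.geo (kan M 1) (wk H 1) hH.toMet o
  let D := Pre.op (g := g) _ k.sec
  let K : Submodule ℂ (L2 g) :=
    (LinearMap.range (UniformSpace.Completion.toComplₗᵢ.toLinearMap ∘ₗ D)).topologicalClosure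
  obtain ⟨a, ha, u, hu, e⟩ := K.exists_add_mem_mem_orthogonal (f : L2 g)
  obtain ⟨w, w1, w2⟩ := IDX.bHB aLAM aVL (IDX.bHA aSKW aBOC) n M H _ _ hH.toMet o k u hn hH
    (Clo.can hH.toMet) fun η hη => by
      obtain ⟨s, s1, s2⟩ := (aDNS (Pre g) D (Pre.op_skew (g := g) k) (aWS n M _ g _ k)).2 u 0
        (fun s => by
          rw [inner_zero_left]
          exact (Submodule.mem_orthogonal' _ _).1 hu _
            (Submodule.le_topologicalClosure _ ⟨s, rfl⟩)) η hη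
      rw [zero_add, UniformSpace.Completion.norm_coe] at s2
      exact ⟨s, s1, s2⟩
  refine ⟨w, w1, fun η hη => ?_⟩
  obtain ⟨_, ⟨y, rfl⟩, hy⟩ := Metric.mem_closure_iff.1 ha η hη
  refine ⟨y, ?_⟩
  rw [dist_eq_norm] at hy
  rwa [← UniformSpace.Completion.norm_coe, UniformSpace.Completion.coe_sub,
    UniformSpace.Completion.coe_sub, w2, e, add_sub_cancel_right]

/-- The main statement. -/
theorem afx [M.Cpt] (hn : 0 < n) (hH : M.Kae H) (h0 : ∀ t, M.HSec 1 t → Zr M t)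
    {V : M.Fam (E n)} (hV : HT M 1 V) {θ : M.Fam (Mat n)} (hθ : M.Ten θ) {b : M.Fam ℂ}
    (hb : M.All fun e z => ContDiffAt ℝ ∞ (b e) z) (hs : M.Sec 1 (b - a0 M H V))
    (hd : M.All fun e z => ∀ l, dzb l (b e) z = (θ e z *ᵥ V e z) l)
    (h1 : ∫ x, qV M H θ V x ∂M.mu H ≤ 0) {u la : ℕ → M.X → ℝ} {m : ℕ → ℝ}
    (hu : ∀ j, M.Sm (u j)) (hm : ∀ j x, |u j x| ≤ m j) (hl : ∀ j, Continuous (la j))
    (l0 : ∀ j x, 0 ≤ la j x)
    (hp : ∀ j x, (M.ev θ x + M.ev (M.hs (u j)) x + la j x • M.ev H x).PosSemidef)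
    (ht : Tendsto (fun j => (1 + m j) * ∫ x, la j x ∂M.mu H) atTop (𝓝 0)) :
    ∃ δ : M.Fam ℂ, (M.All fun e z => HolN (δ e) z) ∧ M.Sec 1 (b - δ) ∧
      (∀ j, Continuous (M.ev fun e z =>
        ‖dir (V e) (M.lc (u j) e) z + b e z - δ e z‖ ^ 2 / (H e z).det.re)) ∧
      Tendsto (fun j => ∫ x, M.ev (fun e z =>
        ‖dir (V e) (M.lc (u j) e) z + b e z - δ e z‖ ^ 2 / (H e z).det.re) x ∂M.mu H)
        atTop (𝓝 0) := by
  have hM := hH.toMet
  have hφ := (K3E.bKAN n M H 1 hM).1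
  have o : (lk H 1).Ok := (aLAM n M H _ _ hM hφ).1
  obtain ⟨k1, -, s1⟩ := aSKW n M H _ _ hH hφ
  have it := (mMU n M H hM).2.2.2.2.1 ℝ
  let g := IDX.geo (kan M 1) (wk H 1) hM o
  have q1 : ∀ W, g.b.Sec W → g.b.Sec ((oQ H).ap W) := fun W h => (aSQ n M H _ _ W hM h).1
  have p1 : ∀ W, g.b.Sec W → g.b.Sec ((oP H (wk H 1)).ap W) := fun W h => aSP n M H _ _ W hM hφ h
  obtain ⟨Q, hQ⟩ : ∃ Q, Q = Pre.op (g := g) _ q1 := ⟨_, rfl⟩
  obtain ⟨P, hP⟩ : ∃ P, P = Pre.op (g := g) _ p1 := ⟨_, rfl⟩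
  have Qv : ∀ a, M.All fun e z => (Q a).val e z = (oQ H).ap a.val e z := fun a =>
    hQ ▸ Pre.op_val q1 a
  have Pv : ∀ a, M.All fun e z => (P a).val e z = pf0 (a.val e) z := fun a e he z hz =>
    (hP ▸ Pre.op_val p1 a e he z hz).trans (p_eq _ _ _)
  have eD : ∀ s : Pre g, Pre.op (g := g) _ k1.sec s = Q s + P s := fun s => by
    rw [hQ, hP]
    refine Pre.ext (funext fun e => funext fun z => ?_)
    show (if e ∈ M.C ∧ z ∈ e.target then (oD H (wk H 1)).ap s.val e z else 0) =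
      (if e ∈ M.C ∧ z ∈ e.target then (oQ H).ap s.val e z else 0) +
      if e ∈ M.C ∧ z ∈ e.target then (oP H (wk H 1)).ap s.val e z else 0
    by_cases c : e ∈ M.C ∧ z ∈ e.target
    · simp only [if_pos c]
      exact (s1 _ s.sec).1 e z
    · simp only [if_neg c, add_zero]
  have ort : ∀ a b : Pre g, inner ℂ (Q a) (P b) = 0 := fun a b => by
    rw [hQ, hP]
    exact (ip_op q1 p1 a b).2.2.trans ((s1 _ a.sec).2.1 _ b.sec)
  have adj : ∀ a b : Pre g, inner ℂ (Q a) b = -inner ℂ a (P b) := fun a b => by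
    rw [hQ, hP, (ip_op q1 p1 a b).1, (ip_op q1 p1 a b).2.1]
    exact aADJ n M H _ _ _ _ hH hφ a.sec b.sec
  have rin : ∀ a b : Pre g, Integrable (fun x => ((lk H 1).pp a.val b.val x).re) (M.mu H) ∧
      (inner ℂ a b).re = ∫ x, ((lk H 1).pp a.val b.val x).re ∂M.mu H := fun a b =>
    ⟨(Pre.itg a b).re, (integral_re (Pre.itg a b)).symm⟩
  have z1 : ∀ a b : Pre g, (∀ x, M.ev a.val x = 0 ∨ M.ev b.val x = 0) → inner ℂ a b = 0 :=
    fun a b h => integral_eq_zero_of_ae (Eventually.of_forall fun x => by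
      rcases h x with h | h <;> simp [Bun.pp, h])
  have ph : ∀ a w : Pre g, Hol w.val → inner ℂ a (P w) = 0 ∧ inner ℂ (Q w) a = 0 :=
    fun a w h => ⟨z1 _ _ fun x => .inr ((Mf.AllOn.ch (Pv w) x).trans
      (Mf.AllOn.ch (Clo.clo hH w.sec h) x)), z1 _ _ fun x => .inl
        ((Mf.AllOn.ch (Qv w) x).trans (Mf.AllOn.ch (Fl.q_hol h) x))⟩
  have af : X91.Aff (kan M 1) b := by
    refine ⟨hb, fun e he e' he' x hx hx' => ?_⟩
    obtain ⟨hN, hJ, -, t, -⟩ := (mTR n M).2.1 e he e' he' x hx hx'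
    have c5 := (mCHN n _ _ hN).2.2.2.2.1
    filter_upwards [c5, X91.hol_dir (hV.hol.at he' hx') c5,
      c5.self_of_nhds.continuousAt.eventually_ne hJ, t.eventually_nhds] with w a1 a2 a3 a4
    refine (a2.mul (a1.inv a3)).congr_of_eventuallyEq (a4.mono fun y hy => ?_)
    have r1 := X91.a0_cmp hM hV e he e' he' _ hy.2.1 hy.2.2.1
    have r2 := hs.cmp e he e' he' _ hy.2.1 hy.2.2.1
    simp only [Pi.sub_apply, jd, hy.2.2.2.2.2.1, hy.2.2.2.2.2.2, pow_one] at r1 r2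
    simp only [kan, triv, Mf.Co.tw, hy.2.2.2.2.2.2, pow_one, mul_one, Pi.mul_apply, Pi.inv_apply]
    rw [← div_eq_mul_inv]
    linear_combination r2 + r1
  let x1 : Pre g := Pre.mk _ (X91.aff_sec hM af)
  let v : Pre g := Pre.mk _ (vv_sec hV).1
  have vh : Hol v.val := (vv_sec (H := H) hV).2
  let uv : ℕ → Pre g := fun j => Pre.mk _ (I20.sec_sm _ (hu j) (vv_sec hV).1)
  have cv : ∀ j, M.All fun e z => (P (uv j)).val e z = dir (V e) (M.lc (u j) e) z • Clo.vac n :=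
    fun j e he z hz => (Pv _ e he z hz).trans (p_uv hH hV (hu j) e he z hz)
  have e1 : ∀ x, M.ev x1.val x = U1 n *ᵥ (M.ev H x)⁻¹ *ᵥ M.ev θ x *ᵥ M.ev V x := fun x =>
    (X91.q_vac b _ _).trans (congrArg _ (congrArg _ (funext (Mf.AllOn.ch hd x))))
  have e2 : ∀ j x, M.ev (Q (P (uv j))).val x =
      U1 n *ᵥ (M.ev H x)⁻¹ *ᵥ M.ev (M.hs (u j)) x *ᵥ M.ev V x := fun j x =>
    (Mf.AllOn.ch (Qv _) x).trans ((Mf.AllOn.ch (Fl.ap_congr (oQ H) (cv j)) x).trans
      ((X91.q_vac (fun e => dir (V e) (M.lc (u j) e)) _ _).trans (congrArg _ (congrArg _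
        (funext (dzb_dir (Mf.AllOn.ch hV.hol x) (Mf.AllOn.ch (hu j).lc x)))))))
  have f1 : ∀ (a ξ : Pre g) x s, M.ev a.val x = U1 n *ᵥ (M.ev H x)⁻¹ *ᵥ s →
      ((lk H 1).pp a.val ξ.val x).re =
        (star s ⬝ᵥ (U1 n)ᴴ *ᵥ M.ev ξ.val x).re / (M.ev H x).det.re := fun a ξ x s h => by
    rw [pp_eq hM, h, u1_la (hM.ev_pos x), Matrix.mulVec_mulVec,
      Matrix.mul_nonsing_inv _ (hM.ev_det x).isUnit, Matrix.one_mulVec, Complex.re_ofReal_mul,
      div_eq_inv_mul]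
  have ev : ∀ x, (U1 n)ᴴ *ᵥ M.ev v.val x = M.ev V x := fun x => X91.u1h_u1 _
  have q2 : ∀ (a : Pre g) (T : M.Fam (Mat n)), (∀ x, M.ev a.val x =
      U1 n *ᵥ (M.ev H x)⁻¹ *ᵥ M.ev T x *ᵥ M.ev V x) →
      (fun x => ((lk H 1).pp a.val v.val x).re) = qV M H T V := fun a T h => funext fun x => by
    rw [f1 a v x _ (h x), ev, nq_st]
    rfl
  have i1 : Integrable (qV M H θ V) (M.mu H) := q2 x1 θ e1 ▸ (rin x1 v).1
  have i2 : ∀ j, Integrable (qV M H (M.hs (u j)) V) (M.mu H) ∧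
      ∫ x, qV M H (M.hs (u j)) V x ∂M.mu H = 0 := fun j => by
    rw [← q2 _ _ (e2 j)]
    exact ⟨(rin _ v).1, by rw [← (rin _ v).2, adj, (ph _ v vh).1]; simp⟩
  have bd : ∀ ξ : Pre g, ∃ K : ℝ, 0 < K ∧ ∀ x,
      nq (M.ev H x) ((U1 n)ᴴ *ᵥ M.ev ξ.val x) ≤ K * (M.ev H x).det.re := fun ξ => by
    obtain ⟨K, K0, hK⟩ := (o.pp_rep ξ.sec ξ.sec).2.exists_bound
    refine ⟨K, K0, fun x => (X91.prj (hM.ev_pos x) _).trans ?_⟩
    have r := (Complex.re_le_norm _).trans (hK x)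
    rwa [pp_eq hM, Complex.re_ofReal_mul, inv_mul_le_iff₀ (Mf.pd_det_re (hM.ev_pos x)),
      mul_comm] at r
  obtain ⟨K, K0, hK⟩ := bd v
  simp only [ev] at hK
  have m0 : ∀ j, 0 ≤ ∫ x, la j x ∂M.mu H := fun j => integral_nonneg (l0 j)
  have m1 : ∀ j, 0 ≤ m j := fun j => by
    obtain ⟨x⟩ : Nonempty M.X := inferInstance
    exact (abs_nonneg _).trans (hm j x)
  have t1 : Tendsto (fun j => ∫ x, la j x ∂M.mu H) atTop (𝓝 0) :=
    squeeze_zero m0 (fun j => by nlinarith only [m0 j, m1 j]) ht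
  have t2 : Tendsto (fun j => m j * ∫ x, la j x ∂M.mu H) atTop (𝓝 0) :=
    squeeze_zero (fun j => mul_nonneg (m1 j) (m0 j)) (fun j => by nlinarith only [m0 j]) ht
  have e3 : ∀ j x, M.ev (x1 + Q (P (uv j))).val x =
      U1 n *ᵥ (M.ev H x)⁻¹ *ᵥ (M.ev θ x + M.ev (M.hs (u j)) x) *ᵥ M.ev V x := fun j x => by
    rw [Matrix.add_mulVec, Matrix.mulVec_add, Matrix.mulVec_add, ← e1, ← e2]
    rfl
  have wk0 : ∀ (ξ : Pre g) (η : ℝ), 0 < η →
      ∀ᶠ j in atTop, (inner ℂ (x1 + Q (P (uv j))) ξ).re ≤ η := fun ξ η hη => by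
    obtain ⟨A, A0, hA⟩ := bd ξ
    obtain ⟨B, hB⟩ : ∃ B, B = A + K := ⟨_, rfl⟩
    obtain ⟨c, hc⟩ : ∃ c, c = ∫ x, M.tr H θ x ∂M.mu H := ⟨_, rfl⟩
    have B0 : 0 < B := by rw [hB]; positivity
    obtain ⟨t, t0, tt⟩ : ∃ t : ℝ, 0 < t ∧ t * (B * |c| + 1) = η :=
      ⟨η / (B * |c| + 1), by positivity, div_mul_cancel₀ _ (by positivity)⟩
    have t3 := t1.const_mul ((1 + t ^ 2 * n + 2 * t) * B)
    rw [mul_zero] at t3
    filter_upwards [(tendsto_order.1 t3).2 _ (mul_pos t0 hη)] with j hj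
    have i3 := it _ ((mINV n M H hM).1 θ hθ).2.1.continuous
    have i4 := it _ ((mLAP n M _ _ (hu j) (hu j)).2.2 H hM).1.continuous
    have i5 := ((mGRN n M).2 H _ _ hH (hu j) (hu j)).1
    have j1 : Integrable (fun x => qV M H θ V x + qV M H (M.hs (u j)) V x) (M.mu H) :=
      i1.add (i2 j).1
    have j2 : Integrable (fun x => t ^ 2 * B * (M.tr H θ x + M.lap H (u j) x)) (M.mu H) :=
      (i3.add i4).const_mul _
    have j3 : Integrable (fun x => qV M H θ V x + qV M H (M.hs (u j)) V x +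
      t ^ 2 * B * (M.tr H θ x + M.lap H (u j) x)) (M.mu H) := j1.add j2
    have r : ∫ x, 2 * t * ((lk H 1).pp (x1 + Q (P (uv j))).val ξ.val x).re ∂M.mu H ≤
        ∫ x, (qV M H θ V x + qV M H (M.hs (u j)) V x +
          t ^ 2 * B * (M.tr H θ x + M.lap H (u j) x) +
          (1 + t ^ 2 * n + 2 * t) * B * la j x) ∂M.mu H := by
      refine integral_mono ((rin _ _).1.const_mul _) (j3.add ((it _ (hl j)).const_mul _))
        fun x => ?_
      have d := Mf.pd_det_re (hM.ev_pos x)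
      have r := div_le_div_of_nonneg_right (pw (K := B * (M.ev H x).det.re) (hM.ev_pos x)
        (l0 j x) t0.le (hp j x) ((hA x).trans (by rw [hB]; nlinarith only [d, K0]))
        ((hK x).trans (by rw [hB]; nlinarith only [d, A0]))) d.le
      have r2 := nq_ad (M.ev θ x) (M.ev (M.hs (u j)) x) 1 (M.ev V x)
      rw [one_smul, one_mul] at r2
      beta_reduce
      rw [f1 _ ξ x _ (e3 j x), ← mul_div_assoc]
      refine r.trans (le_of_eq ?_)
      rw [r2, Matrix.mul_add, Matrix.trace_add, Complex.add_re]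
      show _ = nq (M.ev θ x) (M.ev V x) / (M.ev H x).det.re +
        nq (M.ev (M.hs (u j)) x) (M.ev V x) / (M.ev H x).det.re + t ^ 2 * B *
          (((M.ev H x)⁻¹ * M.ev θ x).trace.re + ((M.ev H x)⁻¹ * M.ev (M.hs (u j)) x).trace.re) + _
      field_simp
    rw [integral_const_mul, ← (rin _ _).2, integral_add j3 ((it _ (hl j)).const_mul _),
      integral_add j1 j2, integral_add i1 (i2 j).1, integral_const_mul, integral_const_mul,
      integral_add i3 i4, (i2 j).2, i5, ← hc] at r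
    have r3 : t ^ 2 * B * (c + 0) ≤ t * η := by
      rw [← tt]
      nlinarith only [mul_le_mul_of_nonneg_left (le_abs_self c) (mul_pos (pow_pos t0 2) B0).le,
        sq_nonneg t]
    refine le_of_mul_le_mul_left ?_ (mul_pos two_pos t0)
    linarith only [r, r3, hj, h1]
  obtain ⟨w, w1, w2⟩ := hod hn hH o k1 x1
  have a1 : (inner ℂ x1 w).re ≤ 0 := le_of_forall_pos_le_add fun η hη => by
    obtain ⟨j, hj⟩ := (wk0 w η hη).exists
    rw [inner_add_left, adj, (ph _ w w1).1] at hj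
    simpa using hj
  have qx : ∀ a, inner ℂ x1 (P a) = 0 := fun a => by
    have := z1 (Q x1) a fun x => .inl ((Mf.AllOn.ch (Qv x1) x).trans (X91.sq hH (Mf.ch_mem x)
      (Mf.ch_tgt x) ((Mf.AllOn.ch hb x).smul contDiffAt_const)))
    rwa [adj, neg_eq_zero] at this
  have sk : ∀ t, M.SecC (kan M 1) t → M.Sec 1 t := fun t ht =>
    ⟨ht.sm, fun e he e' he' x hx hx' => by
      simpa [kan, triv, Mf.Co.tw] using ht.cmp e he e' he' x hx hx'⟩
  obtain ⟨δ, d1, d2⟩ := X91.ext hn hM hφ af (fun t ht => h0 t ⟨sk t ht.toSecC, ht.hol⟩)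
    fun η hη => by
      obtain ⟨y, hy⟩ := w2 (√η / 2) (by positivity)
      rw [eD] at hy
      refine ⟨y.val, y.sec, ?_⟩
      have k : M.All fun e z => (x1 - Q y).val e z = (x1.val - (oQ H).ap y.val) e z :=
        fun e he z hz => congrArg (x1.val e z - ·) (Qv y e he z hz)
      have e : (lk H 1).nr H (x1.val - (oQ H).ap y.val) = ‖x1 - Q y‖ ^ 2 := by
        rw [Pre.norm_sq]
        unfold Bun.nr Bun.pn
        rw [Pre.pp_congr (g := g) k k]
        rfl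
      obtain ⟨r, hr⟩ : ∃ r, r = x1 - w - (Q y + P y) := ⟨_, rfl⟩
      obtain ⟨z, hz⟩ : ∃ z, z = w + P y := ⟨_, rfl⟩
      have b1 : inner ℂ z z = inner ℂ x1 w - inner ℂ r z := by
        rw [show inner ℂ z z = inner ℂ (x1 - Q y - r) z by rw [hr, hz]; congr 1; abel,
          inner_sub_left, inner_sub_left, hz, inner_add_right x1, inner_add_right (Q y), qx, ort,
          adj, (ph _ w w1).1]
        ring
      have b2 := congrArg Complex.re b1
      have b3 := (abs_le.1 (NEAR.re_le r z)).1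
      rw [NEAR.re_self, Complex.sub_re] at b2
      rw [← hr] at hy
      have b4 : ‖z‖ ≤ ‖r‖ := by nlinarith only [norm_nonneg z, norm_nonneg r, b2, b3, a1]
      have b5 : ‖x1 - Q y‖ ≤ √η := by
        rw [show x1 - Q y = z + r by rw [hr, hz]; abel]
        linarith only [norm_add_le z r, b4, hy]
      exact e.trans_le ((pow_le_pow_left₀ (norm_nonneg _) b5 2).trans_eq (Real.sq_sqrt hη.le))
  let f : Pre g := Pre.mk _ (sv_sec d2)
  have av : ∀ j x, M.ev (P (uv j) + f).val x =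
      M.ev (fun e z => dir (V e) (M.lc (u j) e) z + b e z - δ e z) x • Clo.vac n := fun j x => by
    refine (congrArg (· + M.ev f.val x) (Mf.AllOn.ch (cv j) x)).trans ?_
    simp only [f, Pre.val_mk, Mf.ev, Pi.sub_apply, ← add_smul, add_sub_assoc]
  have pa : ∀ j (ξ : Pre g), (∀ x, M.ev ξ.val x ∅ = 0) → inner ℂ (P (uv j) + f) ξ = 0 :=
    fun j ξ h => integral_eq_zero_of_ae (Eventually.of_forall fun x => by
      refine (pp_eq hM _ _ x).trans ?_
      rw [av, vac_la (hM.ev_pos x), h]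
      simp)
  have pn : ∀ j, (M.ev fun e z => ‖dir (V e) (M.lc (u j) e) z + b e z - δ e z‖ ^ 2 /
      (H e z).det.re) = (lk H 1).pn (P (uv j) + f).val := fun j => funext fun x => by
    rw [Bun.pn, pp_eq hM, av, vac_la (hM.ev_pos x), Complex.re_ofReal_mul, Pi.smul_apply,
      show Clo.vac n ∅ = 1 from Pi.single_eq_same _ _, smul_eq_mul, mul_one, Complex.star_def,
      Complex.conj_mul', ← div_eq_inv_mul]
    norm_cast
  have qa : ∀ j ξ, inner ℂ (Q (P (uv j) + f)) ξ = inner ℂ (x1 + Q (P (uv j))) ξ := fun j ξ => by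
    have := z1 (Q f - x1) ξ fun x => .inl (by
      refine sub_eq_zero.2 (((Mf.AllOn.ch (Qv f) x).trans (X91.q_vac (b - δ) _ _)).trans
        (Eq.trans (congrArg _ (congrArg _ (funext fun l => ?_))) (X91.q_vac b _ _).symm))
      have dd := (Mf.AllOn.ch d1 x).self_of_nhds
      refine (dzb_sub (cd_diff (Mf.AllOn.ch hb x)) (dd.restrictScalars ℝ)).trans ?_
      rw [HS.SIUK.dzb_hol dd, sub_zero])
    rw [inner_sub_left, sub_eq_zero] at this
    rw [map_add, inner_add_left, inner_add_left, this, add_comm]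
  have c2 : ∀ j, (inner ℂ (P (uv j) + f) (P (uv j))).re ≤
      2 * K * (m j * ∫ x, la j x ∂M.mu H) := fun j => by
    have r : ∫ x, -((lk H 1).pp (x1 + Q (P (uv j))).val (uv j).val x).re ∂M.mu H ≤
        ∫ x, (m j * qV M H θ V x + m j * qV M H (M.hs (u j)) V x +
          2 * K * m j * la j x) ∂M.mu H := by
      refine integral_mono (rin _ _).1.neg (((i1.const_mul _).add ((i2 j).1.const_mul _)).add
        ((it _ (hl j)).const_mul _)) fun x => ?_
      have d := Mf.pd_det_re (hM.ev_pos x)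
      have r1 : (U1 n)ᴴ *ᵥ M.ev (uv j).val x = (u j x : ℂ) • M.ev V x := by
        rw [← ev, ← Matrix.mulVec_smul]
        simp only [uv, v, Pre.val_mk, Mf.ev, sm, Mf.ch_symm]
      have r2 := nq_ad (M.ev θ x) (M.ev (M.hs (u j)) x) 1 (M.ev V x)
      have r3 := (Complex.nonneg_iff.1 ((hp j x).dotProduct_mulVec_nonneg (M.ev V x))).1
      have r4 := nq_ad (M.ev θ x + M.ev (M.hs (u j)) x) (M.ev H x) (la j x) (M.ev V x)
      rw [one_smul, one_mul] at r2
      beta_reduce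
      rw [f1 _ _ x _ (e3 j x), r1, dotProduct_smul, smul_eq_mul, Complex.re_ofReal_mul, nq_st, r2]
      show _ ≤ m j * (nq (M.ev θ x) (M.ev V x) / (M.ev H x).det.re) +
        m j * (nq (M.ev (M.hs (u j)) x) (M.ev V x) / (M.ev H x).det.re) + _
      rw [← mul_add, ← add_div, ← mul_div_assoc, ← neg_div, div_add' _ _ _ d.ne']
      refine div_le_div_of_nonneg_right ?_ d.le
      change 0 ≤ nq _ _ at r3
      rw [r4, r2] at r3
      generalize nq (M.ev θ x) (M.ev V x) + nq (M.ev (M.hs (u j)) x) (M.ev V x) = s at r3 ⊢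
      have r5 := mul_le_mul_of_nonneg_left (hK x) (l0 j x)
      have r6 : 0 ≤ la j x * (K * (M.ev H x).det.re) := mul_nonneg (l0 j x) (by positivity)
      have r7 : |s| ≤ s + 2 * (la j x * (K * (M.ev H x).det.re)) :=
        abs_le.2 ⟨by linarith only [r3, r5], by linarith only [r6]⟩
      have r8 := mul_le_mul (hm j x) r7 (abs_nonneg s) (m1 j)
      rw [← abs_mul] at r8
      linarith only [neg_abs_le (u j x * s), r8]
    have j1 : Integrable (fun x => m j * qV M H θ V x + m j * qV M H (M.hs (u j)) V x) (M.mu H) :=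
      (i1.const_mul _).add ((i2 j).1.const_mul _)
    rw [integral_neg, ← (rin _ _).2, integral_add j1 ((it _ (hl j)).const_mul _),
      integral_add (i1.const_mul _) ((i2 j).1.const_mul _), integral_const_mul, integral_const_mul,
      integral_const_mul, (i2 j).2, ← qa, adj, Complex.neg_re, neg_neg] at r
    linarith only [mul_le_mul_of_nonneg_left h1 (m1 j), r]
  have nr : ∀ a : Pre g, Continuous ((lk H 1).pn a.val) ∧
      ∫ x, (lk H 1).pn a.val x ∂M.mu H = ‖a‖ ^ 2 := fun a =>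
    ⟨(o.pp_rep a.sec a.sec).2.re.continuous, (Pre.norm_sq a).symm⟩
  refine ⟨δ, d1, sk _ d2, fun j => pn j ▸ (nr _).1, ?_⟩
  simp only [pn, fun a => (nr a).2]
  obtain ⟨w', w3, w4⟩ := hod hn hH o k1 f
  have w0 : ∀ x, M.ev w'.val x ∅ = 0 := fun x => Mf.AllOn.ch (h0 _ ⟨sk _ (X91.deg0 w'.sec),
    fun e he z hz => (w3 e he z hz ∅).self_of_nhds⟩) x
  refine tendsto_order.2 ⟨fun c hc => Eventually.of_forall fun j => hc.trans_le (sq_nonneg _),
    fun c hc => ?_⟩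
  obtain ⟨y, hy⟩ := w4 (√(c / 2)) (by positivity)
  have t3 := t2.const_mul (2 * K)
  rw [mul_zero] at t3
  filter_upwards [wk0 (-y) (c / 8) (by positivity), (tendsto_order.1 t3).2 (c / 8) (by positivity)]
    with j j1 j2
  rw [eD] at hy
  obtain ⟨r, hr⟩ : ∃ r, r = f - w' - (Q y + P y) := ⟨_, rfl⟩
  have q0 : ∀ x, M.ev (Q y).val x ∅ = 0 := fun x => by
    refine (congrFun ((Mf.AllOn.ch (Qv y) x).trans (SQ.ap_eq _ _)) ∅).trans ?_
    simp [cr, Matrix.mulVec, dotProduct, fun k A => (Finset.insert_ne_empty k A).symm]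
  have b1 : inner ℂ (P (uv j) + f) (P (uv j) + f) = inner ℂ (P (uv j) + f) (P (uv j)) +
      inner ℂ (x1 + Q (P (uv j))) (-y) + inner ℂ (P (uv j) + f) r := by
    rw [← qa, adj, map_neg, inner_neg_right, neg_neg, hr, inner_sub_right, inner_sub_right,
      inner_add_right _ (Q y), pa j _ w0, pa j _ q0, inner_add_right _ (P (uv j))]
    ring
  have b2 := congrArg Complex.re b1
  have b3 := (abs_le.1 (NEAR.re_le (P (uv j) + f) r)).2
  rw [NEAR.re_self, Complex.add_re, Complex.add_re] at b2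
  rw [← hr] at hy
  have b4 := pow_lt_pow_left₀ hy (norm_nonneg _) two_ne_zero
  rw [Real.sq_sqrt (by positivity)] at b4
  linarith only [c2 j, sq_nonneg (‖P (uv j) + f‖ - ‖r‖), b2, b3, b4, j1, j2]

end Pool.Agent.Lib.N4S.A32
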