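import Pool.Agent.Lib.NU4.B_FK
import Pool.Agent.Lib.NU4.B_PW

open scoped Classical Topology ComplexOrder Matrix MatrixOrder
open Set Filter

noncomputable section

namespace Pool.Agent.Lib.N4S.R81

open Pool.Agent.Lib.SV (E)
open Pool.Agent.Lib.HS32 Pool.Agent.Lib.HLK Pool.Agent.Lib.F4 Pool.Agent.Lib.NU4

variable {n : ℕ}

theorem crv_single (k : Fin n) : crv (Pi.single k 1) = cr k := by
  simp [crv, Pi.single_apply]

theorem r1u (A : Mat n) (u v : E n) :
    La (A + Matrix.vecMulVec u v) = La A + crv u * La A * anv v := by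
  have k := fun a b c g => st_FK n a b c g 0 0
  rw [← sub_eq_zero]
  refine (st_FK1 n).2 _ (fun j => crv ((A + Matrix.vecMulVec u v) *ᵥ Pi.single j 1))
    (fun j => ?_) fun B => ?_
  · have h1 := (k (Pi.single j 1) 0 0 (A + Matrix.vecMulVec u v)).2.2.2.1
    have h2 := (k (Pi.single j 1) 0 0 A).2.2.2.1
    have h3 := (k (Pi.single j 1) 0 v A).2.2.1
    have h4 : crv ((A + Matrix.vecMulVec u v) *ᵥ Pi.single j 1) =
        crv (A *ᵥ Pi.single j 1) + v j • crv u := by
      rw [Matrix.add_mulVec, (k _ _ 0 A).2.2.2.2.2.1, Matrix.vecMulVec_mulVec,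
        ← (st_FK n u 0 0 A (v j) 0).2.2.2.2.2.2.2.1]
      simp
    have h5 := (k u (A *ᵥ Pi.single j 1) 0 A).1
    have h6 := (k u 0 0 A).2.1
    rw [crv_single] at h1 h2 h3
    rw [dotProduct_single, mul_one, ← eq_sub_iff_add_eq] at h3
    rw [sub_mul, h1, mul_sub, add_mul, h2, mul_assoc (crv u * La A), h3, h4]
    congr 1
    simp only [mul_sub, mul_add, add_mul, mul_smul_comm, smul_mul_assoc, mul_one, ← mul_assoc, h6,
      smul_zero, add_zero]
    rw [mul_assoc (crv u) (La A) (cr j), h2, ← mul_assoc, h5]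
    simp only [neg_mul]
    abel
  · have e : ∀ Y : Mx (Fs n), Y B ∅ = (Y *ᵥ vac n) B := fun Y => by simp [vac]
    refine (e _).trans ?_
    rw [Matrix.sub_mulVec, Matrix.add_mulVec, ← Matrix.mulVec_mulVec, (k 0 0 v A).2.2.2.2.2.2.2.2.2.2.2.1,
      (k 0 0 v A).2.2.2.2.2.2.2.2.2.2.2.2.1, (k 0 0 v _).2.2.2.2.2.2.2.2.2.2.2.2.1]
    simp

theorem crv_star (v : E n) : crv (star v) = (anv v)ᴴ := by
  simp [crv, anv, an, Matrix.conjTranspose_sum]

/-- The rank one update of the norm. -/
theorem ng_r1 (A : Mat n) (v : E n) (W : Fs n → ℂ) :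
    ng (A + Matrix.vecMulVec (star v) v) W = ng A W + ng A (anv v *ᵥ W) := by
  rw [ng, r1u, Matrix.add_mulVec, dotProduct_add, Complex.add_re, ng, ng, crv_star,
    ← Matrix.mulVec_mulVec, ← Matrix.mulVec_mulVec, Matrix.dotProduct_mulVec _ (anv v)ᴴ,
    ← Matrix.star_mulVec]

theorem ng_nonneg {A : Mat n} (h : A.PosSemidef) (W : Fs n → ℂ) : 0 ≤ ng A W := by
  obtain ⟨B, rfl⟩ := CStarAlgebra.nonneg_iff_eq_star_mul_self.1 h.nonneg
  have k := fun g => (st_FK2 st_FK1 n).2 g
  rw [ng, (k _).2.2.1, Matrix.star_eq_conjTranspose, (k B).1]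
  exact (Complex.nonneg_iff.1 ((Matrix.posSemidef_conjTranspose_mul_self _).dotProduct_mulVec_nonneg W)).1

theorem ng_sum {ι : Type} (s : Finset ι) (v : ι → E n) {A : Mat n} (h : A.PosSemidef)
    (W : Fs n → ℂ) : ng A W ≤ ng (A + ∑ i ∈ s, Matrix.vecMulVec (star (v i)) (v i)) W := by
  induction s using Finset.induction_on with
  | empty => simp
  | insert a s ha ih =>
    rw [Finset.sum_insert ha, add_comm (Matrix.vecMulVec _ _), ← add_assoc, ng_r1]
    have : (A + ∑ i ∈ s, Matrix.vecMulVec (star (v i)) (v i)).PosSemidef :=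
      h.add (Matrix.posSemidef_sum _ fun i _ => Matrix.posSemidef_vecMulVec_star_self _)
    linarith [ng_nonneg this (anv (v a) *ᵥ W)]

/-- The norm is monotone. -/
theorem ng_mono {A B : Mat n} (h : A.PosSemidef) (h' : (B - A).PosSemidef) (W : Fs n → ℂ) :
    ng A W ≤ ng B W := by
  obtain ⟨C, hC⟩ := CStarAlgebra.nonneg_iff_eq_star_mul_self.1 h'.nonneg
  have : B = A + ∑ i, Matrix.vecMulVec (star (C i)) (C i) := by
    rw [← sub_eq_iff_eq_add', hC]
    ext i j
    simp [Matrix.mul_apply, Matrix.sum_apply, Matrix.vecMulVec_apply]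
  rw [this]
  exact ng_sum _ _ h W

/-- The bound by the iterated contractions. -/
theorem ng_bd {ι : Type} (s : Finset ι) (v : ι → E n) (b : ℝ) (W : Fs n → ℂ)
    (h : ∀ l : List ι, ‖(l.foldl (fun U i => anv (v i) *ᵥ U) W) ∅‖ ^ 2 ≤ b) :
    ng (∑ i ∈ s, Matrix.vecMulVec (star (v i)) (v i)) W ≤ 2 ^ s.card * b := by
  induction s using Finset.induction_on generalizing W with
  | empty =>
    have e : La (0 : Mat n) *ᵥ W = W ∅ • vac n := by
      funext A
      rw [Matrix.mulVec, dotProduct, Finset.sum_eq_single ∅ (fun B _ hB => ?_) (by simp),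
        ((st_FK2 st_FK1 n).2 0).2.1]
      · simp [vac, Pi.single_apply, mul_comm]
      · rw [La, Matrix.of_apply]
        split_ifs with c
        · have : Nonempty (Fin A.card) := ⟨⟨0, c ▸ Finset.card_pos.2 (Finset.nonempty_iff_ne_empty.2 hB)⟩⟩
          simp
        · simp
    have := h []
    rw [Finset.sum_empty, ng, e, dotProduct_smul, vac, dotProduct_single, mul_one, Pi.star_apply,
      smul_eq_mul, RCLike.star_def, Complex.mul_conj, Complex.ofReal_re, Complex.normSq_eq_norm_sq]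
    simpa using this
  | insert a s ha ih =>
    rw [Finset.sum_insert ha, add_comm, ng_r1, Finset.card_insert_of_notMem ha, pow_succ]
    linarith [ih W h, ih (anv (v a) *ᵥ W) fun l => h (a :: l)]

theorem anv_ac (u v : E n) : anv u * anv v = -(anv v * anv u) := by
  have := congrArg Matrix.conjTranspose (st_FK n (star v) (star u) 0 0 0 0).1
  simpa only [crv_star, Matrix.conjTranspose_mul, Matrix.conjTranspose_conjTranspose,
    Matrix.conjTranspose_neg] using this

theorem der {ι : Type} (s : Finset ι) (u v : ι → E n) (S : Mat n) (φ : Mx (Fs n) →ₗ[ℂ] ℂ) (t : ℂ) :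
    HasDerivAt (fun t : ℂ => φ (La (S + t • ∑ i ∈ s, Matrix.vecMulVec (u i) (v i))))
      (φ (∑ j ∈ s, crv (u j) * La (S + t • ∑ i ∈ s, Matrix.vecMulVec (u i) (v i)) * anv (v j))) t := by
  induction s using Finset.induction_on generalizing φ with
  | empty => simpa using hasDerivAt_const t _
  | insert a s ha ih =>
    have e : ∀ t : ℂ, La (S + t • ∑ i ∈ insert a s, Matrix.vecMulVec (u i) (v i)) =
        La (S + t • ∑ i ∈ s, Matrix.vecMulVec (u i) (v i)) + t • (crv (u a) *
          La (S + t • ∑ i ∈ s, Matrix.vecMulVec (u i) (v i)) * anv (v a)) := fun t => by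
      rw [Finset.sum_insert ha, add_comm (Matrix.vecMulVec _ _), smul_add, ← add_assoc,
        ← Matrix.smul_vecMulVec, r1u, (st_FK n (u a) 0 0 0 t 0).2.2.2.2.2.2.2.1, smul_mul_assoc,
        smul_mul_assoc]
    have h2 := (hasDerivAt_id t).mul
      (ih (φ ∘ₗ LinearMap.mulRight ℂ (anv (v a)) ∘ₗ LinearMap.mulLeft ℂ (crv (u a))))
    simp only [e, map_add, map_smul, smul_eq_mul]
    refine ((ih φ).add h2).congr_deriv ?_
    generalize La (S + t • ∑ i ∈ s, Matrix.vecMulVec (u i) (v i)) = L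
    have z : crv (u a) * (crv (u a) * L * anv (v a)) * anv (v a) = 0 := by
      simp only [← mul_assoc, (st_FK n (u a) 0 0 0 0 0).2.1, zero_mul]
    have w : ∀ j, crv (u j) * (crv (u a) * L * anv (v a)) * anv (v j) =
        crv (u a) * (crv (u j) * L * anv (v j)) * anv (v a) := fun j => by
      simp only [← mul_assoc]
      rw [(st_FK n (u j) (u a) 0 0 0 0).1, mul_assoc _ (anv (v a)), anv_ac (v a)]
      simp only [neg_mul, mul_neg, neg_neg, mul_assoc]
    simp only [Finset.sum_insert ha, mul_add, add_mul, mul_smul_comm, smul_mul_assoc, z, w,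
      Finset.sum_add_distrib, map_add, map_smul, map_sum, smul_eq_mul, LinearMap.comp_apply,
      LinearMap.mulRight_apply, LinearMap.mulLeft_apply, id, Finset.mul_sum, smul_zero, add_zero,
      one_mul]
    ring

open Polynomial in
theorem poly (S B : Mat n) (φ : Mx (Fs n) →ₗ[ℂ] ℂ) :
    ∃ p : ℂ[X], p.natDegree ≤ n ∧ ∀ t : ℂ, φ (La (S + t • B)) = p.eval t := by
  have h : ∀ A A' : Fs n, ∃ p : ℂ[X], p.natDegree ≤ n ∧ ∀ t : ℂ, La (S + t • B) A A' = p.eval t := by
    intro A A'
    by_cases c : A'.card = A.card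
    · refine ⟨((X : ℂ[X]) • (B.submatrix (A.orderEmbOfFin rfl) (A'.orderEmbOfFin c)).map C +
        (S.submatrix (A.orderEmbOfFin rfl) (A'.orderEmbOfFin c)).map C).det,
        (natDegree_det_X_add_C_le _ _).trans (by simpa using A.card_le_univ), fun t => ?_⟩
      rw [La, Matrix.of_apply, dif_pos c, ← coe_evalRingHom, RingHom.map_det]
      congr 1
      ext i j
      simp only [RingHom.mapMatrix_apply, Matrix.map_apply, Matrix.add_apply, Matrix.smul_apply,
        Matrix.submatrix_apply, smul_eq_mul, coe_evalRingHom, eval_add, eval_mul, eval_X, eval_C]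
      ring
    · exact ⟨0, by simp, fun t => by rw [La, Matrix.of_apply, dif_neg c, eval_zero]⟩
  choose p p1 p2 using h
  refine ⟨∑ A, ∑ A', C (φ (Matrix.single A A' 1)) * p A A', natDegree_sum_le_of_forall_le _ _
    fun A _ => natDegree_sum_le_of_forall_le _ _ fun A' _ => (natDegree_C_mul_le _ _).trans (p1 _ _),
    fun t => ?_⟩
  rw [Matrix.matrix_eq_sum_single (La (S + t • B))]
  simp only [map_sum, eval_finsetSum, eval_mul, eval_C, ← p2]
  refine Finset.sum_congr rfl fun A _ => Finset.sum_congr rfl fun A' _ => ?_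
  rw [mul_comm, ← smul_eq_mul, ← map_smul, Matrix.smul_single, smul_eq_mul, mul_one]

open Polynomial in
theorem four {p : ℂ[X]} (h : p.natDegree ≤ 4) :
    p.eval 1 - p.eval 0 = ((derivative p).eval 0 + 4 * (derivative p).eval (1 / 2) +
      (derivative p).eval 1) / 6 ∧
    p.eval 0 = 5 * p.eval 1 - 10 * p.eval 2 + 10 * p.eval 3 - 5 * p.eval 4 + p.eval 5 := by
  rw [p.as_sum_range_C_mul_X_pow' (n := 5) (by omega)]
  simp only [Finset.sum_range_succ, Finset.sum_range_zero, derivative_add, derivative_C_mul_X_pow,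
    eval_add, eval_mul, eval_C, eval_pow, eval_X, zero_add]
  constructor <;> norm_num <;> ring

/-- The extrapolation from the interior of the cone. -/
def ex5 (A H B : Mat 4) (W : Fs 4 → ℂ) : ℝ :=
  5 * cg (A + (1 : ℝ) • H) B W - 10 * cg (A + (2 : ℝ) • H) B W + 10 * cg (A + (3 : ℝ) • H) B W -
    5 * cg (A + (4 : ℝ) • H) B W + cg (A + (5 : ℝ) • H) B W

theorem cg_ex (A H B : Mat 4) (W : Fs 4 → ℂ) : cg A B W = ex5 A H B W := by
  let φ : Mx (Fs 4) →ₗ[ℂ] ℂ :=
    ⟨⟨fun Y => ∑ k, ∑ l, B l k * (star (an l *ᵥ W) ⬝ᵥ Y *ᵥ an k *ᵥ W), fun Y Z => by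
      simp only [Matrix.add_mulVec, dotProduct_add, mul_add, Finset.sum_add_distrib]⟩, fun c Y => by
      simp only [Matrix.smul_mulVec, dotProduct_smul, smul_eq_mul, RingHom.id_apply, Finset.mul_sum,
        mul_left_comm]⟩
  obtain ⟨p, p1, p2⟩ := poly A H φ
  have e : ∀ t : ℝ, cg (A + t • H) B W = (p.eval (t : ℂ)).re := fun t => by
    rw [← p2, Complex.coe_smul]
    rfl
  have := congrArg Complex.re (four p1).2
  have e0 := e 0
  rw [zero_smul, add_zero] at e0
  simp only [ex5, e, e0]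
  push_cast
  simpa using this

/-- The difference of the norms. -/
theorem ng_sub (A B : Mat 4) (W : Fs 4 → ℂ) : ng (A + B) W - ng A W =
    (cg A B W + 4 * cg (A + (1 / 2 : ℝ) • B) B W + cg (A + B) B W) / 6 := by
  let φ : Mx (Fs 4) →ₗ[ℂ] ℂ :=
    ⟨⟨fun Y => star W ⬝ᵥ Y *ᵥ W, fun Y Z => by
      simp only [Matrix.add_mulVec, dotProduct_add]⟩, fun c Y => by
      simp only [Matrix.smul_mulVec, dotProduct_smul, RingHom.id_apply]⟩
  obtain ⟨p, p1, p2⟩ := poly A B φ
  have b : B = ∑ l, Matrix.vecMulVec (Pi.single l 1) (B l) := by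
    ext i j
    simp [Matrix.sum_apply, Matrix.vecMulVec_apply, Pi.single_apply]
  have d : ∀ t : ℝ, cg (A + t • B) B W = ((Polynomial.derivative p).eval (t : ℂ)).re := fun t => by
    have h := der Finset.univ (fun l => Pi.single l 1) B A φ t
    rw [← b, funext p2] at h
    rw [← h.unique (p.hasDerivAt _), Complex.coe_smul, cg, Finset.sum_comm, map_sum]
    refine congrArg _ (Finset.sum_congr rfl fun l _ => ?_)
    change _ = star W ⬝ᵥ _ *ᵥ W
    rw [crv_single, ← Matrix.mulVec_mulVec, ← Matrix.mulVec_mulVec, Matrix.dotProduct_mulVec _ (cr l),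
      show star W ᵥ* cr l = star (an l *ᵥ W) by rw [Matrix.star_mulVec, an,
        Matrix.conjTranspose_conjTranspose]]
    simp only [anv, Matrix.sum_mulVec, Matrix.smul_mulVec, Matrix.mulVec_sum, Matrix.mulVec_smul,
      dotProduct_sum, dotProduct_smul, smul_eq_mul]
  have e : ∀ t : ℝ, ng (A + t • B) W = (p.eval (t : ℂ)).re := fun t => by
    rw [← p2, Complex.coe_smul]
    rfl
  have := congrArg Complex.re (four p1).1
  have e0 := e 0
  have e1 := e 1
  have d0 := d 0
  have d1 := d 1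
  rw [zero_smul, add_zero] at e0 d0
  rw [one_smul] at e1 d1
  rw [e0, e1, d0, d1, d]
  push_cast
  simpa using this

end Pool.Agent.Lib.N4S.R81

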