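import Pool.Agent.Lib.NU4.B_PW

/-! Project n4s: the norm of a multivector as a function of a semipositive matrix. -/

open scoped Classical Matrix ComplexOrder

noncomputable section

namespace Pool.Agent.Lib.N4S.A86

open Pool.Agent.Lib.SV (E)
open Pool.Agent.Lib.HS32 Pool.Agent.Lib.HLK Pool.Agent.Lib.F4 Pool.Agent.Lib.NU4

variable {n : ℕ}

theorem re_self {σ : Type} [Fintype σ] (x : σ → ℂ) : (star x ⬝ᵥ x).re = ∑ i, ‖x i‖ ^ 2 := by
  rw [dotProduct, Complex.re_sum]
  refine Finset.sum_congr rfl fun i _ => ?_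
  rw [Pi.star_apply, Complex.star_def, Complex.conj_mul', ← Complex.ofReal_pow, Complex.ofReal_re]

theorem la_psd {H : Mat n} (hH : H.PosSemidef) : (La H).PosSemidef := by
  obtain ⟨B, rfl⟩ := Mf.psd_factor hH
  rw [((aFK2 n).2 Bᴴ).2.2.1, ((aFK2 n).2 B).1]
  exact Matrix.posSemidef_conjTranspose_mul_self _

theorem ng_nonneg {H : Mat n} (hH : H.PosSemidef) (W : Fs n → ℂ) : 0 ≤ ng H W :=
  (Complex.le_def.1 ((la_psd hH).dotProduct_mulVec_nonneg W)).1

theorem nq_nonneg {H : Mat n} (hH : H.PosSemidef) (v : E n) : 0 ≤ nq H v :=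
  (Complex.le_def.1 (hH.dotProduct_mulVec_nonneg v)).1

/-- The number operator. -/
theorem num (Y : Fs n → ℂ) (A : Fs n) : ∑ l, (cr l *ᵥ an l *ᵥ Y) A = A.card * Y A := by
  have h : ∀ l, (cr l *ᵥ an l *ᵥ Y) A = if l ∈ A then Y A else 0 := fun l => by
    have e : cr l *ᵥ an l *ᵥ Y = Y - an l *ᵥ cr l *ᵥ Y := by
      rw [Clo.an_cr, if_pos rfl, sub_sub_cancel]
    by_cases c : l ∈ A
    · rw [e, Pi.sub_apply, FK98.an_ap, if_neg (not_not.2 c), sub_zero, if_pos c]
    · rw [if_neg c, Matrix.mulVec, dotProduct]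
      refine Finset.sum_eq_zero fun B _ => ?_
      rw [FK1.cr_apply, if_neg, zero_mul]
      rintro ⟨-, rfl⟩
      exact c (Finset.mem_insert_self _ _)
  simp only [h]
  rw [Finset.sum_ite_mem, Finset.univ_inter, Finset.sum_const, nsmul_eq_mul]

/-- The identity of Euler, polarized. -/
theorem eulerC (H : Mat n) {q : ℕ} (Y : Fs n → ℂ) {Z : Fs n → ℂ} (hZ : Dg q Z) :
    ∑ k, ∑ l, H l k * (star (an l *ᵥ Y) ⬝ᵥ La H *ᵥ an k *ᵥ Z) = q * (star Y ⬝ᵥ La H *ᵥ Z) := by
  have e : ∀ l, ∑ k, H l k * (star (an l *ᵥ Y) ⬝ᵥ La H *ᵥ an k *ᵥ Z) =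
      star Y ⬝ᵥ cr l *ᵥ an l *ᵥ La H *ᵥ Z := fun l => by
    rw [Matrix.mulVec_mulVec Z (an l), ((aFK2 n).2 H).2.2.2.2.1, Matrix.sum_mulVec,
      Matrix.mulVec_sum, dotProduct_sum]
    refine Finset.sum_congr rfl fun k _ => ?_
    rw [Matrix.smul_mulVec, Matrix.mulVec_smul, dotProduct_smul, smul_eq_mul,
      Matrix.star_mulVec, ← Matrix.dotProduct_mulVec, ← Matrix.mulVec_mulVec, an,
      Matrix.conjTranspose_conjTranspose]
  rw [Finset.sum_comm]
  simp only [e]
  rw [← dotProduct_sum, ← smul_eq_mul, ← dotProduct_smul]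
  refine congrArg _ (funext fun A => ?_)
  rw [Finset.sum_apply, num, Pi.smul_apply, smul_eq_mul]
  by_cases c : A.card = q
  · rw [c]
  · rw [FK98.dg_la H hZ A c, mul_zero, mul_zero]

/-- The identity of Euler. -/
theorem euler (H : Mat n) {q : ℕ} {W : Fs n → ℂ} (hW : Dg q W) : cg H H W = q * ng H W := by
  rw [cg, eulerC H W hW, ng, ← Complex.ofReal_natCast, Complex.re_ofReal_mul]

theorem cg_add (H T S : Mat n) (W : Fs n → ℂ) : cg H (T + S) W = cg H T W + cg H S W := by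
  simp only [cg, Matrix.add_apply, add_mul, Finset.sum_add_distrib, Complex.add_re]

theorem cg_sub (H T S : Mat n) (W : Fs n → ℂ) : cg H (T - S) W = cg H T W - cg H S W := by
  simp only [cg, Matrix.sub_apply, sub_mul, Finset.sum_sub_distrib, Complex.sub_re]

theorem cg_smul (H T : Mat n) (c : ℝ) (W : Fs n → ℂ) : cg H (c • T) W = c * cg H T W := by
  simp only [cg, Matrix.smul_apply, Complex.real_smul, mul_assoc, ← Finset.mul_sum,
    Complex.re_ofReal_mul]

theorem cg_zero (H : Mat n) (W : Fs n → ℂ) : cg H 0 W = 0 := by simp [cg]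

theorem cg_sum {ι : Type} (s : Finset ι) (H : Mat n) (T : ι → Mat n) (W : Fs n → ℂ) :
    cg H (∑ i ∈ s, T i) W = ∑ i ∈ s, cg H (T i) W := by
  induction s using Finset.induction_on with
  | empty => simp [cg_zero]
  | insert i s hi ih => rw [Finset.sum_insert hi, Finset.sum_insert hi, cg_add, ih]

/-- A matrix of rank one. -/
theorem cg_rk (H : Mat n) (a : E n) (W : Fs n → ℂ) :
    cg H (Matrix.vecMulVec (star a) a) W = ng H (anv a *ᵥ W) := by
  simp only [cg, ng, anv, Matrix.sum_mulVec, Matrix.smul_mulVec, star_sum, star_smul,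
    Matrix.mulVec_sum, Matrix.mulVec_smul, sum_dotProduct, dotProduct_sum, smul_dotProduct,
    dotProduct_smul, smul_eq_mul, Matrix.vecMulVec_apply, Pi.star_apply]
  refine congrArg _ (Finset.sum_congr rfl fun k _ => ?_)
  rw [Finset.mul_sum]
  exact Finset.sum_congr rfl fun l _ => by ring

theorem nq_rk (a v : E n) : nq (Matrix.vecMulVec (star a) a) v = ‖a ⬝ᵥ v‖ ^ 2 := by
  rw [nq, Matrix.vecMulVec_mulVec, dotProduct_smul, MulOpposite.smul_eq_mul_unop,
    MulOpposite.unop_op, Matrix.star_dotProduct_star, Complex.star_def,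
    Complex.conj_mul', ← Complex.ofReal_pow, Complex.ofReal_re]

theorem nq_sum {ι : Type} (s : Finset ι) (T : ι → Mat n) (v : E n) :
    nq (∑ i ∈ s, T i) v = ∑ i ∈ s, nq (T i) v := by
  simp only [nq, Matrix.sum_mulVec, dotProduct_sum, Complex.re_sum]

/-- The curvature term is a sum of values on vectors. -/
theorem cg_nq {H : Mat n} (hH : H.PosSemidef) (W : Fs n → ℂ) :
    ∃ v : Fs n → E n, ∀ T, cg H T W = ∑ A, nq T (v A) := by
  obtain ⟨B, rfl⟩ := Mf.psd_factor hH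
  refine ⟨fun A k => (La B *ᵥ an k *ᵥ W) A, fun T => ?_⟩
  have e : ∀ l k, star (an l *ᵥ W) ⬝ᵥ La (Bᴴ * B) *ᵥ an k *ᵥ W =
      ∑ A, star ((La B *ᵥ an l *ᵥ W) A) * (La B *ᵥ an k *ᵥ W) A := fun l k => by
    rw [((aFK2 n).2 Bᴴ).2.2.1, ((aFK2 n).2 B).1, ← Matrix.mulVec_mulVec,
      Matrix.dotProduct_mulVec, ← Matrix.star_mulVec]
    rfl
  simp only [cg, e, nq, ← Complex.re_sum]
  refine congrArg _ ?_
  simp only [dotProduct, Matrix.mulVec, Pi.star_apply, Finset.mul_sum]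
  rw [Finset.sum_comm]
  conv_rhs => rw [Finset.sum_comm]
  refine Finset.sum_congr rfl fun l _ => ?_
  rw [Finset.sum_comm]
  exact Finset.sum_congr rfl fun A _ => Finset.sum_congr rfl fun k _ => by
    simp only [← Finset.mul_sum]; ring

/-- Monotone in the form. -/
theorem cg_le {H T S : Mat n} (hH : H.PosSemidef) (h : ∀ v, nq T v ≤ nq S v) (W : Fs n → ℂ) :
    cg H T W ≤ cg H S W := by
  obtain ⟨v, hv⟩ := cg_nq hH W
  rw [hv, hv]
  exact Finset.sum_le_sum fun A _ => h _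

theorem nq_sub (T S : Mat n) (v : E n) : nq (T - S) v = nq T v - nq S v := by
  simp only [nq, Matrix.sub_mulVec, dotProduct_sub, Complex.sub_re]

theorem nq_add (T S : Mat n) (v : E n) : nq (T + S) v = nq T v + nq S v := by
  simp only [nq, Matrix.add_mulVec, dotProduct_add, Complex.add_re]

theorem nq_le {T S : Mat n} (h : (S - T).PosSemidef) (v : E n) : nq T v ≤ nq S v := by
  have := nq_nonneg h v
  rw [nq_sub] at this
  linarith

theorem cg_nonneg {H T : Mat n} (hH : H.PosSemidef) (hT : T.PosSemidef) (W : Fs n → ℂ) :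
    0 ≤ cg H T W := by
  obtain ⟨v, hv⟩ := cg_nq hH W
  rw [hv]
  exact Finset.sum_nonneg fun A _ => nq_nonneg hT _

theorem cg_fac (H B : Mat n) (W : Fs n → ℂ) :
    cg H (Bᴴ * B) W = ∑ m, ng H (anv (B m) *ᵥ W) := by
  rw [PW98.cg_eq, W98.qn_fac]
  rfl

theorem ng_zero (H : Mat n) {W : Fs n → ℂ} (hW : Dg 0 W) : ng H W = ‖W ∅‖ ^ 2 := by
  have e : ng H W = W98.nn H (W ∅ • Clo.vac n) := congrArg (W98.nn H) (FK98.dg0 hW)
  rw [e, W98.nn_smul, W98.nn_vac, mul_one]

theorem anv_zero (a : E n) {W : Fs n → ℂ} (hW : Dg 0 W) : anv a *ᵥ W = 0 := by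
  rw [FK98.dg0 hW, Matrix.mulVec_smul, show anv a *ᵥ vac n = 0 from W98.av_vac a, smul_zero]

theorem cg_deg0 (H T : Mat n) {W : Fs n → ℂ} (hW : Dg 0 W) : cg H T W = 0 := by
  have e : ∀ k, an k *ᵥ W = 0 := fun k => by
    rw [FK98.dg0 hW, Matrix.mulVec_smul, show an k *ᵥ vac n = 0 from Clo.an_vac k, smul_zero]
  simp [cg, e]

/-- One step of the bound by contractions. -/
theorem ng_step {ι : Type} [Fintype ι] {B : Mat n} (hB : B.PosSemidef) (a : ι → E n)
    (h : ∀ v, nq B v ≤ ∑ s, ‖a s ⬝ᵥ v‖ ^ 2) {q : ℕ} {W : Fs n → ℂ} (hW : Dg q W) :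
    q * ng B W ≤ ∑ s, ng B (anv (a s) *ᵥ W) := by
  rw [← euler B hW]
  refine (cg_le hB (S := ∑ s, Matrix.vecMulVec (star (a s)) (a s)) (fun v => ?_) W).trans_eq ?_
  · simpa only [nq_sum, nq_rk] using h v
  · simp only [cg_sum, cg_rk]

/-- Monotone in the matrix, in a fixed degree. -/
theorem ng_le_deg {A B : Mat n} (hA : A.PosSemidef) (hB : B.PosSemidef)
    (h : ∀ v, nq A v ≤ nq B v) : ∀ (q : ℕ) (W : Fs n → ℂ), Dg q W → ng A W ≤ ng B W
  | 0, W, hW => by rw [ng_zero A hW, ng_zero B hW]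
  | q + 1, W, hW => by
    have h1 := cg_le hA h W
    obtain ⟨C, hC⟩ := Mf.psd_factor hB
    have h2 : cg A B W ≤ cg B B W := by
      rw [congrArg (cg A · W) hC, congrArg (cg B · W) hC]
      simp only [cg_fac]
      exact Finset.sum_le_sum fun m _ => ng_le_deg hA hB h q _ (FK98.dg_an _ hW)
    rw [euler A hW] at h1
    rw [euler B hW] at h2
    exact le_of_mul_le_mul_left (h1.trans h2) (by positivity)

/-- The part of degree `q`. -/
def pt (q : ℕ) (W : Fs n → ℂ) : Fs n → ℂ := fun A => if A.card = q then W A else 0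

theorem dg_pt (q : ℕ) (W : Fs n → ℂ) : Dg q (pt q W) := fun _ hA => if_neg hA

theorem sum_pt (W : Fs n → ℂ) : ∑ q ∈ Finset.range (n + 1), pt q W = W := by
  funext A
  have : A.card ∈ Finset.range (n + 1) := by
    simpa [Nat.lt_succ_iff] using A.card_le_univ
  simp only [Finset.sum_apply, pt]
  rw [Finset.sum_ite_eq, if_pos this]

theorem ip_pt (H : Mat n) (Y Z : Fs n → ℂ) : star Y ⬝ᵥ La H *ᵥ Z =
    ∑ q ∈ Finset.range (n + 1), star (pt q Y) ⬝ᵥ La H *ᵥ pt q Z := by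
  conv_lhs => rw [← sum_pt Z, Matrix.mulVec_sum, dotProduct_sum]
  refine Finset.sum_congr rfl fun q _ => Finset.sum_congr rfl fun A _ => ?_
  by_cases c : A.card = q
  · simp only [Pi.star_apply, pt, if_pos c]
  · rw [FK98.dg_la H (dg_pt q Z) A c, mul_zero, mul_zero]

theorem ng_pt (H : Mat n) (W : Fs n → ℂ) :
    ng H W = ∑ q ∈ Finset.range (n + 1), ng H (pt q W) := by
  rw [ng, ip_pt, Complex.re_sum]
  rfl

/-- Monotone in the matrix. -/
theorem ng_le {A B : Mat n} (hA : A.PosSemidef) (hB : B.PosSemidef) (h : ∀ v, nq A v ≤ nq B v)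
    (W : Fs n → ℂ) : ng A W ≤ ng B W := by
  rw [ng_pt A, ng_pt B]
  exact Finset.sum_le_sum fun q _ => ng_le_deg hA hB h q _ (dg_pt q W)

theorem ng_mono {A B : Mat n} (hA : A.PosSemidef) (h : (B - A).PosSemidef) (W : Fs n → ℂ) :
    ng A W ≤ ng B W :=
  ng_le hA (by simpa using hA.add h) (nq_le h) W

/-- Monotone in the metric. -/
theorem cg_mono {A B T : Mat n} (hA : A.PosSemidef) (h : (B - A).PosSemidef)
    (hT : T.PosSemidef) (W : Fs n → ℂ) : cg A T W ≤ cg B T W := by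
  obtain ⟨C, rfl⟩ := Mf.psd_factor hT
  simp only [cg_fac]
  exact Finset.sum_le_sum fun m _ => ng_mono hA h _

theorem anv_anti (a b : E n) (W : Fs n → ℂ) : anv a *ᵥ anv b *ᵥ W = -(anv b *ᵥ anv a *ᵥ W) := by
  have h := congrArg Matrix.conjTranspose (W98.cvcv (star a) (star b))
  rw [Matrix.conjTranspose_add, Matrix.conjTranspose_mul, Matrix.conjTranspose_mul, W98.cv_ct,
    W98.cv_ct, star_star, star_star, Matrix.conjTranspose_zero] at h
  rw [Matrix.mulVec_mulVec, Matrix.mulVec_mulVec, ← Matrix.neg_mulVec]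
  exact congrArg (· *ᵥ W) (eq_neg_of_add_eq_zero_right h)

theorem ng_neg (H : Mat n) (W : Fs n → ℂ) : ng H (-W) = ng H W := by
  simp [ng, Matrix.mulVec_neg]

/-- The first two terms of the expansion, in a fixed degree. -/
theorem ng_add_deg {A B : Mat n} (hA : A.PosSemidef) (hB : B.PosSemidef) :
    ∀ (q : ℕ) (W : Fs n → ℂ), Dg q W → ng A W + cg A B W ≤ ng (A + B) W
  | 0, W, hW => by rw [ng_zero A hW, ng_zero _ hW, cg_deg0 A B hW, add_zero]
  | q + 1, W, hW => by
    obtain ⟨C, hC⟩ := Mf.psd_factor hA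
    obtain ⟨D, hD⟩ := Mf.psd_factor hB
    have fA : ∀ H Y, cg H A Y = ∑ m, ng H (anv (C m) *ᵥ Y) := fun H Y => by rw [hC, cg_fac]
    have fB : ∀ H Y, cg H B Y = ∑ m, ng H (anv (D m) *ᵥ Y) := fun H Y => by rw [hD, cg_fac]
    have h1 : cg A B W ≤ cg (A + B) B W := cg_mono hA (by simpa using hB) hB W
    have h2 : ∑ m, cg A B (anv (C m) *ᵥ W) = q * cg A B W := by
      simp only [fB]
      rw [Finset.sum_comm, Finset.mul_sum]
      refine Finset.sum_congr rfl fun j _ => ?_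
      have := euler A (FK98.dg_an (D j) hW)
      rw [Nat.add_sub_cancel] at this
      rw [← this, fA]
      exact Finset.sum_congr rfl fun m _ => by rw [anv_anti, ng_neg]
    have h3 : cg A A W + q * cg A B W ≤ cg (A + B) A W := by
      rw [← h2, fA, fA, ← Finset.sum_add_distrib]
      exact Finset.sum_le_sum fun m _ => ng_add_deg hA hB q _ (FK98.dg_an _ hW)
    have h4 := euler (A + B) hW
    rw [cg_add] at h4
    rw [euler A hW] at h3
    push_cast at h3 h4
    have : (0 : ℝ) < q + 1 := by positivity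
    nlinarith

theorem cg_pt (H T : Mat n) (W : Fs n → ℂ) :
    cg H T W = ∑ q ∈ Finset.range (n + 1), cg H T (pt q W) := by
  have e : ∀ (k : Fin n) (q : ℕ), an k *ᵥ pt (q + 1) W = pt q (an k *ᵥ W) := fun k q => by
    have h := PW98.av_prt (Pi.single k 1) q W
    have a : W98.av (Pi.single k (1 : ℂ)) = an k := by simp [W98.av, Pi.single_apply]
    rwa [a] at h
  have t : ∀ k : Fin n, pt n (an k *ᵥ W) = 0 := fun k => funext fun A => by
    by_cases c : A.card = n
    · have : k ∈ A := by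
        rw [(Finset.card_eq_iff_eq_univ A).1 (by simpa using c)]
        exact Finset.mem_univ k
      simp only [pt, if_pos c, FK98.an_ap, if_neg (not_not.2 this), Pi.zero_apply]
    · exact if_neg c
  rw [Finset.sum_range_succ', cg_deg0 H T (dg_pt 0 W), add_zero]
  simp only [cg, e, ← Complex.re_sum]
  refine congrArg _ ?_
  rw [Finset.sum_comm (s := Finset.range n)]
  refine Finset.sum_congr rfl fun k _ => ?_
  rw [Finset.sum_comm (s := Finset.range n)]
  refine Finset.sum_congr rfl fun l _ => ?_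
  rw [ip_pt, Finset.sum_range_succ, t k, Matrix.mulVec_zero, dotProduct_zero, add_zero,
    Finset.mul_sum]

/-- The first two terms of the expansion. -/
theorem ng_add {A B : Mat n} (hA : A.PosSemidef) (hB : B.PosSemidef) (W : Fs n → ℂ) :
    ng A W + cg A B W ≤ ng (A + B) W := by
  rw [ng_pt A, ng_pt (A + B), cg_pt, ← Finset.sum_add_distrib]
  exact Finset.sum_le_sum fun q _ => ng_add_deg hA hB q _ (dg_pt q W)

/-- Homogeneity. -/
theorem ng_smul (t : ℝ) (H : Mat n) {q : ℕ} {W : Fs n → ℂ} (hW : Dg q W) :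
    ng (t • H) W = t ^ q * ng H W := by
  have e : La (t • H) *ᵥ W = ((t ^ q : ℝ) : ℂ) • La H *ᵥ W := funext fun A => by
    simp only [Matrix.mulVec, dotProduct, Pi.smul_apply, smul_eq_mul, Finset.mul_sum]
    refine Finset.sum_congr rfl fun B _ => ?_
    by_cases c : B.card = q
    · by_cases d : B.card = A.card
      · have s : t • H = (t : ℂ) • H := by
          ext i j
          simp
        simp only [La, Matrix.of_apply, dif_pos d, s, Matrix.submatrix_smul, Pi.smul_apply,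
          Matrix.det_smul, Fintype.card_fin]
        rw [show (t : ℂ) ^ A.card = (t : ℂ) ^ q by rw [← c, d]]
        push_cast
        ring
      · simp only [La, Matrix.of_apply, dif_neg d, zero_mul, mul_zero]
    · rw [hW B c, mul_zero, mul_zero, mul_zero]
  rw [ng, e, dotProduct_smul, smul_eq_mul, Complex.re_ofReal_mul, ng]

theorem cg_smul_left (t : ℝ) (H : Mat n) {T : Mat n} (hT : T.PosSemidef) {q : ℕ} {W : Fs n → ℂ}
    (hW : Dg q W) : cg (t • H) T W = t ^ (q - 1) * cg H T W := by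
  obtain ⟨C, rfl⟩ := Mf.psd_factor hT
  simp only [cg_fac, Finset.mul_sum]
  exact Finset.sum_congr rfl fun m _ => ng_smul t H (FK98.dg_an _ hW)

/-! ### Degrees one and two -/

theorem dg_an (k : Fin n) {q : ℕ} {W : Fs n → ℂ} (hW : Dg q W) : Dg (q - 1) (an k *ᵥ W) := by
  have a : anv (Pi.single k (1 : ℂ)) = an k := by simp [anv, Pi.single_apply]
  exact a ▸ FK98.dg_an _ hW

theorem ip_zero (H : Mat n) (Y : Fs n → ℂ) {Z : Fs n → ℂ} (hZ : Dg 0 Z) :
    star Y ⬝ᵥ La H *ᵥ Z = star (Y ∅) * Z ∅ := by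
  conv_lhs => rw [FK98.dg0 hZ, Matrix.mulVec_smul, show La H *ᵥ vac n = vac n from Clo.la_vac H]
  simp [vac, mul_comm]

theorem ip_one (H : Mat n) (Y : Fs n → ℂ) {Z : Fs n → ℂ} (hZ : Dg 1 Z) :
    star Y ⬝ᵥ La H *ᵥ Z = ∑ j, ∑ i, H i j * (star ((an i *ᵥ Y) ∅) * (an j *ᵥ Z) ∅) := by
  have h := eulerC H Y hZ
  rw [Nat.cast_one, one_mul] at h
  rw [← h]
  exact Finset.sum_congr rfl fun j _ => Finset.sum_congr rfl fun i _ => by
    rw [ip_zero H _ (dg_an j hZ)]

/-- Degree one. -/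
theorem cg_one (H T : Mat n) {W : Fs n → ℂ} (hW : Dg 1 W) : cg H T W = ng T W := by
  rw [cg, ng, ip_one T W hW]
  exact congrArg _ (Finset.sum_congr rfl fun j _ => Finset.sum_congr rfl fun i _ => by
    rw [ip_zero H _ (dg_an j hW)])

theorem ng_one_add (A B : Mat n) {W : Fs n → ℂ} (hW : Dg 1 W) :
    ng (A + B) W = ng A W + ng B W := by
  rw [← cg_one A _ hW, cg_add, cg_one A A hW, cg_one A B hW]

theorem an_anti (i j : Fin n) (W : Fs n → ℂ) : an i *ᵥ an j *ᵥ W = -(an j *ᵥ an i *ᵥ W) := by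
  rw [Matrix.mulVec_mulVec, Matrix.mulVec_mulVec, ← Matrix.neg_mulVec]
  exact congrArg (· *ᵥ W) (eq_neg_of_add_eq_zero_left ((aFK1 n).1 i j).2.1)

/-- Degree two: symmetry. -/
theorem cg_two (H T : Mat n) {W : Fs n → ℂ} (hW : Dg 2 W) : cg H T W = cg T H W := by
  have e : ∀ A B : Mat n, cg A B W = (∑ k, ∑ l, ∑ j, ∑ i, B l k * A i j *
      (star ((an i *ᵥ an l *ᵥ W) ∅) * (an j *ᵥ an k *ᵥ W) ∅)).re := fun A B => by
    refine congrArg _ (Finset.sum_congr rfl fun k _ => Finset.sum_congr rfl fun l _ => ?_)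
    rw [ip_one A _ (dg_an k hW)]
    simp only [Finset.mul_sum, mul_assoc]
  rw [e, e]
  refine congrArg _ ?_
  have s : ∀ f : Fin n → Fin n → Fin n → Fin n → ℂ,
      ∑ k, ∑ l, ∑ j, ∑ i, f k l j i = ∑ j, ∑ i, ∑ k, ∑ l, f k l j i := fun f => by
    have h := Finset.sum_comm (s := Finset.univ) (t := Finset.univ)
      (f := fun (p r : Fin n × Fin n) => f p.1 p.2 r.1 r.2)
    simpa only [Fintype.sum_prod_type] using h
  rw [s]
  refine Finset.sum_congr rfl fun j _ => Finset.sum_congr rfl fun i _ =>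
    Finset.sum_congr rfl fun k _ => Finset.sum_congr rfl fun l _ => ?_
  rw [an_anti i l, an_anti j k]
  simp only [Pi.neg_apply, star_neg]
  ring

/-- Degree two: the expansion. -/
theorem ng_two_add (A B : Mat n) {W : Fs n → ℂ} (hW : Dg 2 W) :
    ng (A + B) W = ng A W + cg (A + (1 / 2 : ℝ) • B) B W := by
  have h1 := euler (A + B) hW
  have h2 := euler A hW
  rw [cg_add, cg_two _ A hW, cg_two _ B hW, cg_add, cg_add, cg_two B A hW] at h1
  rw [cg_two _ B hW, cg_add, cg_smul, cg_two B A hW]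
  push_cast at h1 h2
  linarith

theorem cg_two_add (A B T : Mat n) {W : Fs n → ℂ} (hW : Dg 2 W) :
    cg (A + B) T W = cg A T W + cg B T W := by
  rw [cg_two _ T hW, cg_add, cg_two T A hW, cg_two T B hW]

theorem cg_two_sub (A B T : Mat n) {W : Fs n → ℂ} (hW : Dg 2 W) :
    cg (A - B) T W = cg A T W - cg B T W := by
  rw [cg_two _ T hW, cg_sub, cg_two T A hW, cg_two T B hW]

theorem cg_two_smul (c : ℝ) (A T : Mat n) {W : Fs n → ℂ} (hW : Dg 2 W) :
    cg (c • A) T W = c * cg A T W := by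
  rw [cg_two _ T hW, cg_smul, cg_two T A hW]

end Pool.Agent.Lib.N4S.A86
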