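import Pool.Agent.Lib.N4S.B_OB1
import Pool.Agent.Lib.N4S.Afw80
import Pool.Agent.Lib.N4S.Afx32
import Pool.Agent.Lib.NU4.B_IBP
import Pool.Agent.Lib.NU4.B_KIT
import Pool.Agent.Lib.NU4.B_LIE

/-! Project n4s, row AFX: fields of level one. -/

open scoped Classical Topology ContDiff ComplexOrder Matrix
open Set Filter MeasureTheory

noncomputable section

namespace Pool.Agent.Lib.N4S

open Pool.Agent.Lib.HS32 Pool.Agent.Lib.HLK Pool.Agent.Lib.F4 Pool.Agent.Lib.NU4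

theorem st_AFX : St_AFX := by
  intro n M _ I _ S a q V hZ hN hV hT hS
  obtain ⟨⟨b, hb⟩, -⟩ := (st_OB1 n M I S V hV.ht).1 hT
  obtain ⟨C, C0, hC⟩ := A80.cvb hZ q
  obtain ⟨δ, d1, d2, -, d3⟩ := A32.afx S.pos S.kae (hN 1 one_pos) hV.ht
    (Smv49.th_clo S).toForm.toTen hb.sm hb.sec (A80.db S hV.ht hb)
    (Smv49.th0 S (NU4.st_IBP NU4.st_KIT NU4.st_FK NU4.st_PW) NU4.st_KIT NU4.st_PW
      (NU4.st_LIE NU4.st_FK) hZ hV hS).le (u := tp a q)
    (la := fun j x => q.e j + C * (1 - deriv (q.χ j) (a (q.e j) x))) (m := fun j => q.N j + 1)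
    (K78.tp_sm hZ q)
    (fun j x => abs_le.2 ⟨by linarith [(K78.tp_ge (a := a) q j x).1],
      by linarith [K78.tp_le hZ q j x, q.N1 j]⟩)
    (fun j => continuous_const.add (continuous_const.mul (continuous_const.sub
      (((q.sm j).continuous_deriv (by simp)).comp (K78.a_sm hZ q j).continuous))))
    (fun j x => add_nonneg (q.e0 j).1.le (mul_nonneg C0 (sub_nonneg.2 (q.d1 j _).2)))
    (fun j x => by
      have r := Mf.AllOn.ch (hC j) x
      simp only [Mf.ch_symm] at r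
      exact r)
    (A80.lat hZ q C)
  refine ⟨δ, A80.fd_of hZ q hV.ht hb d1 ⟨fun e he z hz => ?_, fun e he e' he' x hx hx' => ?_⟩ d3⟩
  · exact ((mHOL n _ _).2.2 (d1 e he z hz)).1.sub (Q76.cd_a0 (K78.met S) hV.ht he hz)
  · have k1 := hb.sec.cmp e he e' he' x hx hx'
    have k2 := d2.cmp e he e' he' x hx hx'
    simp only [Pi.sub_apply] at k1 k2 ⊢
    linear_combination k1 - k2

end Pool.Agent.Lib.N4S
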