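import Pool.Agent.Lib.NU4.Dich84

/-! Project n4s: limits of almost harmonic sections for a sequence of weights without
concentration. -/

open scoped Classical Topology ContDiff ComplexOrder Matrix
open Set MeasureTheory Complex Metric Filter

noncomputable section

namespace Pool.Agent.Lib.N4S.Lim84

open Pool.Agent.Lib.SV (E)
open Pool.Agent.Lib.HS32 Pool.Agent.Lib.KP Pool.Agent.Lib.HLK
open Pool.Agent.Lib.EXH (aw)
open Pool.Agent.Lib.HLK.ONE
open Pool.Agent.Lib.IDX.DIM (pj)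
open Pool.Agent.Lib.NU4

section gen

variable {n : ℕ} {M : Mf n} [M.Cpt] {σ : Type} [Fintype σ] [DecidableEq σ] {b : Bun M σ}
  {H : M.Fam (Mat n)} {s d u : M.Fam (σ → ℂ)}

theorem nr0 (hH : M.Met H) (hb : b.Ok) (hs : b.Sec s) : 0 ≤ b.nr H s :=
  (sq_nonneg _).trans_eq (Pre.norm_sq (Pre.mk (g := ⟨H, b, hH, hb⟩) s hs))

omit [M.Cpt] in
theorem sec_sub (hH : M.Met H) (hb : b.Ok) (hs : b.Sec s) (hd : b.Sec d) : b.Sec (s - d) :=
  (Pre.mk (g := ⟨H, b, hH, hb⟩) s hs - Pre.mk (g := ⟨H, b, hH, hb⟩) d hd).sec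

/-- The inequality of Cauchy and Schwarz. -/
theorem cs (hH : M.Met H) (hb : b.Ok) (hs : b.Sec s) (hd : b.Sec d) :
    ‖b.ip H s d‖ ^ 2 ≤ b.nr H s * b.nr H d := by
  let g : Geo M σ := ⟨H, b, hH, hb⟩
  let u : Pre g := Pre.mk s hs
  let v : Pre g := Pre.mk d hd
  rw [show b.nr H s = ‖u‖ ^ 2 from (Pre.norm_sq u).symm,
    show b.nr H d = ‖v‖ ^ 2 from (Pre.norm_sq v).symm, ← mul_pow]
  exact pow_le_pow_left₀ (norm_nonneg _) (norm_inner_le_norm (𝕜 := ℂ) u v) 2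

theorem ip_sub (hH : M.Met H) (hb : b.Ok) (hs : b.Sec s) (hd : b.Sec d) (hu : b.Sec u) :
    b.ip H s (d - u) = b.ip H s d - b.ip H s u :=
  inner_sub_right (𝕜 := ℂ) (Pre.mk (g := ⟨H, b, hH, hb⟩) s hs) (Pre.mk (g := ⟨H, b, hH, hb⟩) d hd)
    (Pre.mk (g := ⟨H, b, hH, hb⟩) u hu)

theorem ip_self (hH : M.Met H) (hb : b.Ok) (hs : b.Sec s) : (b.ip H s s).re = b.nr H s :=
  (NEAR.re_self (Pre.mk (g := ⟨H, b, hH, hb⟩) s hs)).trans
    (Pre.norm_sq (Pre.mk (g := ⟨H, b, hH, hb⟩) s hs))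

theorem nr_le (hH : M.Met H) (hb : b.Ok) (hs : b.Sec s) (hd : b.Sec d) :
    b.nr H s ≤ 2 * b.nr H (s - d) + 2 * b.nr H d := by
  let g : Geo M σ := ⟨H, b, hH, hb⟩
  let u : Pre g := Pre.mk s hs
  let v : Pre g := Pre.mk d hd
  rw [show b.nr H s = ‖u‖ ^ 2 from (Pre.norm_sq u).symm,
    show b.nr H d = ‖v‖ ^ 2 from (Pre.norm_sq v).symm,
    show b.nr H (s - d) = ‖u - v‖ ^ 2 from (Pre.norm_sq (u - v)).symm]
  have h := norm_add_le (u - v) v
  rw [sub_add_cancel] at h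
  nlinarith [pow_le_pow_left₀ (norm_nonneg _) h 2, sq_nonneg (‖u - v‖ - ‖v‖)]

/-- A bounded factor times a factor that tends to zero. -/
theorem sqz {l : Filter ℕ} {c : ℕ → ℂ} {x : ℕ → ℝ} {B : ℝ} (h : ∀ᶠ j in l, ‖c j‖ ^ 2 ≤ B * x j)
    (hx : Tendsto x l (𝓝 0)) : Tendsto c l (𝓝 0) := by
  have t := hx.const_mul B
  rw [mul_zero] at t
  have t2 := (squeeze_zero' (Eventually.of_forall fun j => sq_nonneg _) h t).sqrt
  simp only [Real.sqrt_sq (norm_nonneg _), Real.sqrt_zero] at t2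
  exact tendsto_zero_iff_norm_tendsto_zero.2 t2

end gen

variable {n : ℕ} {M : Mf n}

/-- The weighted energy. -/
def en (H : M.Fam (Mat n)) (L : M.Co) (φ : M.Fam ℝ) (w : M.X → ℝ) (W : M.Fam (Fs n → ℂ)) : ℝ :=
  ∫ x, gb H (lam H L (aw M φ w)) W x ∂M.mu H + (lam H L (aw M φ w)).nr H W

/-- Weights without concentration. -/
structure Nc (H : M.Fam (Mat n)) (L : M.Co) (φ : M.Fam ℝ) (w : ℕ → M.X → ℝ) : Prop where
  sm : ∀ j, M.Sm (w j)
  le : ∀ j x, w j x ≤ 0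
  itg : ∃ C : ℝ, ∀ j, ∫ x, Real.exp (-w j x) ∂M.mu H ≤ C
  nc1 : ∃ C : ℝ, ∀ j W, (lam H L φ).Sec W →
    (lam H L (aw M φ (w j))).nr H W ≤ 1 / 2 * en H L φ (w j) W + C * (lam H L φ).nr H W
  nc2 : ∀ η : ℝ, 0 < η → ∀ᶠ j in atTop, ∀ W, (lam H L φ).Sec W → -(η * en H L φ (w j) W) ≤
    ∫ x, cu (M.hw φ + M.ric H + M.hs (w j)) (lam H L (aw M φ (w j))) W x ∂M.mu H

variable [M.Cpt] {H : M.Fam (Mat n)} {L : M.Co} {φ : M.Fam ℝ} {w : ℕ → M.X → ℝ}

omit [M.Cpt] in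
theorem sw (ψ : M.Fam ℝ) {W : M.Fam (Fs n → ℂ)} (h : (lam H L φ).Sec W) : (lam H L ψ).Sec W :=
  ⟨h.sm, h.cmp⟩

omit [M.Cpt] in
/-- The curvature of the sum of the weights. -/
theorem cu_aw (hm : M.Met H) (hφ : M.WtC L φ) {v : M.X → ℝ} (hv : M.Sm v) (b : Bun M (Fs n))
    (W : M.Fam (Fs n → ℂ)) :
    cu (M.hw (aw M φ v) + M.ric H) b W = cu (M.hw φ + M.ric H + M.hs v) b W := by
  obtain ⟨-, hh⟩ := ((aLAM n M H L φ hm hφ).2.2 v).1 hv
  funext x
  have k := hh _ (Mf.ch_mem x) _ ((M.ch x).map_source (Mf.mem_ch x))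
  beta_reduce at k
  simp only [cu, Mf.ev, Pi.add_apply, k, add_right_comm (M.hw φ _ _)]

omit [M.Cpt] in
/-- The curvature term, from a pointwise bound. -/
theorem cu_low (hm : M.Met H) {θ : M.Fam (Mat n)} {la : M.X → ℝ} (l0 : ∀ x, 0 ≤ la x)
    (hc : M.All fun e z => (θ e z + la (e.symm z) • H e z).PosSemidef) (W : M.Fam (Fs n → ℂ))
    (x : M.X) : -(n * (la x * (lam H L φ).pn W x)) ≤ cu θ (lam H L φ) W x := by
  have c1 := Mf.ch_mem x
  have c2 := (M.ch x).map_source (Mf.mem_ch x)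
  have p := hc _ c1 _ c2
  beta_reduce at p
  rw [(M.ch x).left_inv (Mf.mem_ch x)] at p
  have k := CU.low aFK1 aFK2 (hm.pos _ c1 _ c2) (l0 x)
    (Real.exp_pos (-φ (M.ch x) (M.ch x x))).le p (W (M.ch x) (M.ch x x))
  simp only [cu, Bun.pn, Bun.pp, Mf.ev, lam, CU.qm_eq]
  linarith

theorem en0 (hm : M.Met H) (hφ : M.WtC L φ) {v : M.X → ℝ} (hv : M.Sm v) {W : M.Fam (Fs n → ℂ)}
    (hW : (lam H L φ).Sec W) : 0 ≤ en H L φ v W := by
  obtain ⟨o1, l1, -⟩ := aLAM n M H L _ hm (((aLAM n M H L φ hm hφ).2.2 v).1 hv).1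
  exact add_nonneg (integral_nonneg ((aGB n M _ H _ hm o1 l1).1 _ (sw _ hW)).2.2.1)
    (nr0 hm o1 (sw _ hW))

/-- The hypotheses from a pointwise bound for the curvature. -/
theorem Nc.of (hm : M.Met H) (hφ : M.WtC L φ) (sm : ∀ j, M.Sm (w j)) (le : ∀ j x, w j x ≤ 0)
    (ig : ∃ C : ℝ, ∀ j, ∫ x, Real.exp (-w j x) ∂M.mu H ≤ C)
    (h1 : ∀ η : ℝ, 0 < η → ∃ C : ℝ, ∀ j W, (lam H L φ).Sec W →
      (lam H L (aw M φ (w j))).nr H W ≤ η * en H L φ (w j) W + C * (lam H L φ).nr H W)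
    {la : ℕ → M.X → ℝ} (l0 : ∀ j x, 0 ≤ la j x) (li : ∀ j, Integrable (la j) (M.mu H))
    (hc : ∀ j, M.All fun e z =>
      ((M.hw φ + M.ric H + M.hs (w j)) e z + la j (e.symm z) • H e z).PosSemidef)
    {o : ℕ → ℝ} (ot : Tendsto o atTop (𝓝 0)) (h2 : ∀ j W, (lam H L φ).Sec W →
      ∫ x, la j x * (lam H L (aw M φ (w j))).pn W x ∂M.mu H ≤ o j * en H L φ (w j) W) :
    Nc H L φ w := by
  refine ⟨sm, le, ig, h1 _ (by norm_num), fun η hη => ?_⟩
  have t : Tendsto (fun j => n * o j) atTop (𝓝 0) := by simpa using ot.const_mul (n : ℝ)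
  filter_upwards [(tendsto_order.1 t).2 η hη] with j hj W hW
  have hψ := (((aLAM n M H L φ hm hφ).2.2 (w j)).1 (sm j)).1
  have o1 := (aLAM n M H L _ hm hψ).1
  obtain ⟨-, cc, -⟩ := aCU n M H _ L _ _ hm
    (hψ.clo.toTen.add ((mHES n M).2.2.2.2.2.2.2.2.1 H hm).toTen) hψ (sw _ hW)
  rw [cu_aw hm hφ (sm j)] at cc
  have r := (o1.pp_rep (sw _ hW) (sw _ hW)).2
  obtain ⟨K, -, hK⟩ := r.exists_bound
  have i : Integrable (fun x => la j x * (lam H L (aw M φ (w j))).pn W x) (M.mu H) :=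
    (li j).mul_bdd (c := K) (continuous_re.comp r.continuous).aestronglyMeasurable
      (Eventually.of_forall fun x => (abs_re_le_norm _).trans (hK x))
  have k := integral_mono (i.const_mul (n : ℝ)).neg ((mMU n M H hm).2.2.2.2.1 ℝ _ cc)
    fun x => cu_low hm (l0 j) (hc j) W x
  simp only [Pi.neg_apply, integral_neg, integral_const_mul] at k
  nlinarith [mul_le_mul_of_nonneg_left (h2 j W hW) (n.cast_nonneg (α := ℝ)),
    mul_le_mul_of_nonneg_right hj.le (en0 hm hφ (sm j) hW)]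

theorem Nc.bd (h : Nc H L φ w) (hm : M.Met H) (hφ : M.WtC L φ) {s : M.Fam (Fs n → ℂ)}
    (hs : (lam H L φ).Sec s) : ∃ B : ℝ, 0 ≤ B ∧ ∀ j, (lam H L (aw M φ (w j))).nr H s ≤ B := by
  obtain ⟨o0, -, a0⟩ := aLAM n M H L φ hm hφ
  obtain ⟨K, K0, hK, -⟩ := Dich84.cross hm o0 hs
  obtain ⟨C, hC⟩ := h.itg
  have it := (mMU n M H hm).2.2.2.2.1
  refine ⟨K * C, mul_nonneg K0 ((integral_nonneg fun p => (Real.exp_pos _).le).trans (hC 0)),
    fun j => le_trans ?_ (mul_le_mul_of_nonneg_left (hC j) K0)⟩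
  have sx := ((h.sm j).neg.exp).continuous
  rw [← integral_const_mul, Bun.nr]
  simp only [fun p => ((a0 (w j)).2 s s p).2.1]
  exact integral_mono (it ℝ _ ((continuous_re.comp (o0.pp_rep hs hs).2.continuous).mul sx))
    ((it ℝ _ sx).const_mul _) fun p => mul_le_mul_of_nonneg_right (hK p) (Real.exp_pos _).le

/-- The weight increases the norm and the gradient term. -/
theorem mono (hm : M.Met H) (hφ : M.WtC L φ) {v : M.X → ℝ} (hv : M.Sm v) (v0 : ∀ x, v x ≤ 0)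
    {W : M.Fam (Fs n → ℂ)} (hW : (lam H L φ).Sec W) :
    (lam H L φ).nr H W ≤ (lam H L (aw M φ v)).nr H W ∧ 0 ≤ ∫ x, gb H (lam H L φ) W x ∂M.mu H ∧
      ∫ x, gb H (lam H L φ) W x ∂M.mu H ≤ ∫ x, gb H (lam H L (aw M φ v)) W x ∂M.mu H := by
  obtain ⟨o0, l0, a0⟩ := aLAM n M H L φ hm hφ
  obtain ⟨⟨hψ, -⟩, a1⟩ := And.intro ((a0 v).1 hv) (a0 v).2
  obtain ⟨o1, l1, -⟩ := aLAM n M H L _ hm hψ
  have ex : ∀ x, 1 ≤ Real.exp (-v x) := fun x => Real.one_le_exp (by linarith [v0 x])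
  have it := (mMU n M H hm).2.2.2.2.1 ℝ
  obtain ⟨-, g0c, g0p, -⟩ := (aGB n M _ H _ hm o0 l0).1 _ hW
  obtain ⟨-, g1c, -, -⟩ := (aGB n M _ H _ hm o1 l1).1 _ (sw _ hW)
  refine ⟨integral_mono (itg (Pre.mk (g := ⟨H, _, hm, o0⟩) W hW))
    (itg (Pre.mk (g := ⟨H, _, hm, o1⟩) W (sw _ hW))) fun x => ?_, integral_nonneg g0p,
    integral_mono (it _ g0c) (it _ g1c) fun x => ?_⟩
  · have p := Pre.pn_nonneg (g := ⟨H, _, hm, o0⟩) W x
    change 0 ≤ (lam H L φ).pn W x at p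
    change (lam H L φ).pn W x ≤ (lam H L (aw M φ v)).pn W x
    rw [(a1 W W x).2.1]
    nlinarith [ex x]
  · have := g0p x
    simp only [(a1 W W x).2.2]
    nlinarith [ex x]

/-- The limit of almost harmonic sections. -/
theorem Nc.lim (h : Nc H L φ w) (hn : 0 < n) (hH : M.Kae H) (hφ : M.WtC L φ) (l : Ultrafilter ℕ)
    (hl : (l : Filter ℕ) ≤ atTop) {W : ℕ → M.Fam (Fs n → ℂ)} {B : ℝ}
    (hW : ∀ j, (lam H L φ).Sec (W j) ∧ (lam H L (aw M φ (w j))).nr H (W j) ≤ B)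
    (hD : Tendsto (fun j => (lam H L (aw M φ (w j))).nr H ((oD H (aw M φ (w j))).ap (W j))) l
      (𝓝 0)) :
    ∃ V, (lam H L φ).Sec V ∧ Hol V ∧
      Tendsto (fun j => (lam H L (aw M φ (w j))).nr H (W j - V)) l (𝓝 0) ∧
      ∀ y, (lam H L φ).Sec y →
        Tendsto (fun j => (lam H L (aw M φ (w j))).ip H ((oQ H).ap y) V) l (𝓝 0) := by
  have hm := hH.toMet
  obtain ⟨o0, l0, a0⟩ := aLAM n M H L φ hm hφ
  have hψ := fun j => ((a0 (w j)).1 (h.sm j)).1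
  have o1 := fun j => (aLAM n M H L _ hm (hψ j)).1
  have l1 := fun j => (aLAM n M H L _ hm (hψ j)).2.1
  obtain ⟨C, hC⟩ := h.nc1
  have mo := fun j => mono hm hφ (h.sm j) (h.le j) (hW j).1
  have sk := fun j => ((aSKW n M H L _ hH (hψ j)).2.2 _ (sw _ (hW j).1)).2.2
  have n1 := fun j => nr0 hm (o1 j) (sw (aw M φ (w j)) (hW j).1)
  have B0 : 0 ≤ B := (n1 0).trans (hW 0).2
  have gt : Tendsto (fun j => ∫ x, gb H (lam H L (aw M φ (w j))) (W j) x ∂M.mu H) l (𝓝 0) := by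
    refine tendsto_order.2 ⟨fun c hc => Eventually.of_forall fun j =>
      hc.trans_le ((mo j).2.1.trans (mo j).2.2), fun c hc => ?_⟩
    obtain ⟨η, hη, η1, η2⟩ : ∃ η : ℝ, 0 < η ∧ η ≤ 1 / 2 ∧ η * (B + 1) ≤ c / 4 :=
      ⟨min (1 / 2) (c / 4 / (B + 1)), by positivity, min_le_left _ _,
        (le_div_iff₀ (by positivity)).1 (min_le_right _ _)⟩
    filter_upwards [hl (h.nc2 η hη), (tendsto_order.1 hD).2 (c / 4) (by positivity)] with j k hj
    have boc := aBOC n M H L _ _ hH (hψ j) (sw _ (hW j).1)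
    have k := k _ (hW j).1
    have g0 := (mo j).2.1.trans (mo j).2.2
    rw [en] at k
    rw [sk j, boc, cu_aw hm hφ (h.sm j)] at hj
    nlinarith [mul_le_mul_of_nonneg_left (hW j).2 hη.le, mul_le_mul_of_nonneg_right η1 g0]
  have g0t : Tendsto (fun j => ∫ x, gb H (lam H L φ) (W j) x ∂M.mu H) l (𝓝 0) :=
    squeeze_zero (fun j => (mo j).2.1) (fun j => (mo j).2.2) gt
  let U : ℕ → M.Fam (Fs n → ℂ) := fun j =>
    if ∫ x, gb H (lam H L φ) (W j) x ∂M.mu H ≤ 1 then W j else W 0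
  have eU : ∀ᶠ j in l, U j = W j := by
    filter_upwards [(tendsto_order.1 g0t).2 1 one_pos] with j hj using if_pos hj.le
  obtain ⟨V, v1, v2, v3⟩ := aVL n M _ H _ l U
    (max B (max 1 (∫ x, gb H (lam H L φ) (W 0) x ∂M.mu H))) hn hm o0 l0 (fun j => by
      by_cases c : ∫ x, gb H (lam H L φ) (W j) x ∂M.mu H ≤ 1
      · simp only [U, if_pos c]
        exact ⟨(hW j).1, ((mo j).1.trans (hW j).2).trans (le_max_left _ _),
          c.trans ((le_max_left _ _).trans (le_max_right _ _))⟩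
      · simp only [U, if_neg c]
        exact ⟨(hW 0).1, ((mo 0).1.trans (hW 0).2).trans (le_max_left _ _),
          (le_max_right _ _).trans (le_max_right _ _)⟩)
    (g0t.congr' (eU.mono fun j hj => by simp only [hj]))
  have v4 : Tendsto (fun j => (lam H L φ).nr H (W j - V)) l (𝓝 0) :=
    v3.congr' (eU.mono fun j hj => by simp only [hj])
  have sd := fun j => sec_sub hm o0 (hW j).1 v1
  have xt : Tendsto (fun j => (lam H L (aw M φ (w j))).nr H (W j - V)) l (𝓝 0) := by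
    have t := gt.add ((v4.const_mul C).const_mul 2)
    simp only [mul_zero, add_zero] at t
    refine squeeze_zero (fun j => nr0 hm (o1 j) (sw _ (sd j))) (fun j => ?_) t
    have k := hC j _ (sd j)
    rw [en, ((aGB n M _ H _ hm (o1 j) (l1 j)).1 _ (sw _ (hW j).1)).2.2.2 V (sw _ v1) v2] at k
    linarith
  refine ⟨V, v1, v2, xt, fun y hy => ?_⟩
  have qy := (aSQ n M H L _ y hm hy).1
  obtain ⟨A, A0, hA⟩ := h.bd hm hφ hy
  obtain ⟨A', -, hA'⟩ := h.bd hm hφ qy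
  have t1 : Tendsto (fun j => (lam H L (aw M φ (w j))).ip H ((oQ H).ap y) (W j)) l (𝓝 0) :=
    sqz (B := A) (Eventually.of_forall fun j => by
      have ps := aSP n M H L _ _ hm (hψ j) (sw _ (hW j).1)
      rw [aADJ n M H L _ _ _ hH (hψ j) (sw _ hy) (sw _ (hW j).1), norm_neg, sk j]
      refine (cs hm (o1 j) (sw _ hy) ps).trans (mul_le_mul (hA j) (le_add_of_nonneg_left
        (nr0 hm (o1 j) (aSQ n M H L _ _ hm (sw _ (hW j).1)).1)) (nr0 hm (o1 j) ps) A0)) hD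
  have t2 : Tendsto (fun j => (lam H L (aw M φ (w j))).ip H ((oQ H).ap y) (W j - V)) l (𝓝 0) :=
    sqz (B := A') (Eventually.of_forall fun j => (cs hm (o1 j) (sw _ qy) (sw _ (sd j))).trans
      (mul_le_mul_of_nonneg_right (hA' j) (nr0 hm (o1 j) (sw _ (sd j))))) xt
  have t3 := t1.sub t2
  simp only [fun j => ip_sub hm (o1 j) (sw _ qy) (sw _ (hW j).1) (sw _ v1), sub_sub_cancel,
    sub_zero] at t3
  exact t3

/-- The parts of a section have a smaller norm. -/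
theorem pj_nr (hm : M.Met H) (hφ : M.WtC L φ) (p : ℕ → Prop) {W : M.Fam (Fs n → ℂ)}
    (hW : (lam H L φ).Sec W) : (lam H L φ).nr H (pj p W) ≤ (lam H L φ).nr H W := by
  have o := (aLAM n M H L φ hm hφ).1
  have s := Fl.pj_sec p hW
  have e : pj p (pj p W) = pj p W := funext fun e => funext fun z => funext fun A => by
    by_cases c : p A.card
    · simp only [pj, if_pos c]
    · simp only [pj, if_neg c]
  have e2 : (lam H L φ).ip H (pj p W) (pj p W) = (lam H L φ).ip H W (pj p W) := by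
    rw [Bun.ip, Bun.ip, Fl.pj_pp, e]
  have c := cs hm o hW s
  have a := ip_self hm o s
  rw [e2] at a
  have a2 := pow_le_pow_left₀ (nr0 hm o s) (a.symm.le.trans (re_le_norm _)) 2
  rcases (nr0 hm o s).eq_or_lt with z | z
  · exact z.symm.le.trans (nr0 hm o hW)
  · exact le_of_mul_le_mul_right (by nlinarith) z

/-- The limit of almost harmonic sections of norm one, with the degrees in `p`. -/
theorem Nc.lim1 (h : Nc H L φ w) (hn : 0 < n) (hH : M.Kae H) (hφ : M.WtC L φ) (l : Ultrafilter ℕ)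
    (hl : (l : Filter ℕ) ≤ atTop) (p : ℕ → Prop) {W : ℕ → M.Fam (Fs n → ℂ)}
    (hW : ∀ j, (lam H L φ).Sec (W j) ∧ (lam H L (aw M φ (w j))).nr H (W j) = 1 ∧
      M.All fun e z => ∀ A : Fs n, ¬p A.card → W j e z A = 0)
    (hD : Tendsto (fun j => (lam H L (aw M φ (w j))).nr H ((oD H (aw M φ (w j))).ap (W j))) l
      (𝓝 0)) :
    ∃ V, (lam H L φ).Sec V ∧ Hol V ∧ Nz V ∧ (∀ e z (A : Fs n), ¬p A.card → V e z A = 0) ∧
      Tendsto (fun j => (lam H L (aw M φ (w j))).nr H (W j - V)) l (𝓝 0) ∧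
      ∀ y, (lam H L φ).Sec y →
        Tendsto (fun j => (lam H L (aw M φ (w j))).ip H ((oQ H).ap y) V) l (𝓝 0) := by
  have hm := hH.toMet
  obtain ⟨o0, -, a0⟩ := aLAM n M H L φ hm hφ
  have hψ := fun j => ((a0 (w j)).1 (h.sm j)).1
  have o1 := fun j => (aLAM n M H L _ hm (hψ j)).1
  obtain ⟨V, v1, v2, v3, v4⟩ := h.lim hn hH hφ l hl (fun j => ⟨(hW j).1, (hW j).2.1.le⟩) hD
  have s := Fl.pj_sec p v1
  have t : Tendsto (fun j => (lam H L (aw M φ (w j))).nr H (W j - pj p V)) l (𝓝 0) := by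
    refine squeeze_zero (fun j => nr0 hm (o1 j) (sw _ (sec_sub hm o0 (hW j).1 s))) (fun j => ?_) v3
    refine le_of_eq_of_le ?_ (pj_nr hm (hψ j) p (sw _ (sec_sub hm o0 (hW j).1 v1)))
    have k : M.All fun e z => (W j - pj p V) e z = pj p (W j - V) e z := fun e he z hz =>
      funext fun A => by
        by_cases c : p A.card
        · simp only [pj, if_pos c, Pi.sub_apply]
        · simp only [pj, if_neg c, Pi.sub_apply, (hW j).2.2 e he z hz A c, sub_zero]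
    unfold Bun.nr Bun.pn
    rw [show (lam H L (aw M φ (w j))).pp _ _ = _ from Pre.pp_congr (g := ⟨H, _, hm, o1 j⟩) k k]
  refine ⟨pj p V, s, Fl.pj_hol p v2, by_contra fun z => ?_, fun e z A c => if_neg c, t,
    fun y hy => ?_⟩
  · have k : ∀ j, M.All fun e z => (W j - pj p V) e z = W j e z := fun j e he x hx => by
      have : pj p V e x = 0 := by_contra fun c => z ⟨e, he, x, hx, c⟩
      simp only [Pi.sub_apply, this, sub_zero]
    have e : ∀ j, (lam H L (aw M φ (w j))).nr H (W j - pj p V) = 1 := fun j => by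
      rw [← (hW j).2.1]
      unfold Bun.nr Bun.pn
      rw [show (lam H L (aw M φ (w j))).pp _ _ = _ from
        Pre.pp_congr (g := ⟨H, _, hm, o1 j⟩) (k j) (k j)]
    simp only [e] at t
    exact one_ne_zero (tendsto_nhds_unique tendsto_const_nhds t)
  · simpa only [Bun.ip, ← Fl.pj_pp, Fl.pj_q] using v4 _ (Fl.pj_sec (fun q => p (q + 1)) hy)

/-- One weight. -/
theorem step {η : ℝ} {x : M.Fam (Fs n → ℂ)} (hH : M.Kae H) (hφ : M.WtC L φ)
    (hx : (lam H L φ).Sec x) (hQ : M.All fun e z => (oQ H).ap x e z = 0) (hη : 0 < η) :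
    ∃ u y : M.Fam (Fs n → ℂ), (lam H L φ).Sec u ∧ (lam H L φ).Sec y ∧
      (lam H L φ).nr H (x - (oQ H).ap y) ≤ 2 * (lam H L φ).nr H u + 2 * η ^ 2 ∧
      (lam H L φ).nr H u ≤ 2 * (lam H L φ).nr H x + 2 * η ^ 2 ∧
      (lam H L φ).nr H ((oD H φ).ap u) ≤ 2 * η ^ 2 ∧
      (lam H L φ).nr H u - η ≤ ((lam H L φ).ip H x u).re := by
  have hm := hH.toMet
  obtain ⟨o1, -, -⟩ := aLAM n M H L _ hm hφ
  let g1 : Geo M (Fs n) := ⟨H, lam H L φ, hm, o1⟩
  have q1 : ∀ W, g1.b.Sec W → g1.b.Sec ((oQ H).ap W) := fun W h => (aSQ n M H L _ W hm h).1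
  have p1 : ∀ W, g1.b.Sec W → g1.b.Sec ((oP H φ).ap W) := fun W h => aSP n M H L _ W hm hφ h
  obtain ⟨k1, -, s1⟩ := aSKW n M H L _ hH hφ
  have eD : ∀ s : Pre g1, Pre.op (g := g1) _ k1.sec s = Pre.op _ q1 s + Pre.op _ p1 s := fun s =>
    Pre.ext (funext fun e => funext fun z => by
      show (if e ∈ M.C ∧ z ∈ e.target then (oD H φ).ap s.val e z else 0) =
        (if e ∈ M.C ∧ z ∈ e.target then (oQ H).ap s.val e z else 0) +
        if e ∈ M.C ∧ z ∈ e.target then (oP H φ).ap s.val e z else 0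
      by_cases c : e ∈ M.C ∧ z ∈ e.target
      · simp only [if_pos c]
        exact (s1 _ s.sec).1 e z
      · simp only [if_neg c, add_zero])
  have ort : ∀ a b : Pre g1, inner ℂ (Pre.op _ q1 a) (Pre.op _ p1 b) = 0 := fun a b =>
    (ip_op q1 p1 a b).2.2.trans ((s1 _ a.sec).2.1 _ b.sec)
  have adj : ∀ a b : Pre g1, inner ℂ (Pre.op _ q1 a) b = -inner ℂ a (Pre.op _ p1 b) := fun a b => by
    rw [(ip_op q1 p1 a b).1, (ip_op q1 p1 a b).2.1]
    exact aADJ n M H L _ _ _ hH hφ a.sec b.sec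
  let f : Pre g1 := Pre.mk x hx
  have f0 : ‖Pre.op _ q1 f‖ = 0 := by
    refine pow_eq_zero_iff (two_ne_zero) |>.1 ?_
    rw [nr_op q1 f]
    have k : M.All fun e z => (oQ H).ap x e z = (0 : M.Fam (Fs n → ℂ)) e z := hQ
    change ∫ p, ((lam H L φ).pp ((oQ H).ap x) ((oQ H).ap x) p).re ∂M.mu H = 0
    rw [show (lam H L φ).pp ((oQ H).ap x) ((oQ H).ap x) = _ from Pre.pp_congr (g := g1) k k]
    simp [Bun.pp, Mf.ev]
  obtain ⟨u, y, c1, c2, c3, c4, c5⟩ := Near84.near3 (Pre g1) (Pre.op _ p1) (Pre.op _ q1) adj ort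
    (fun t d f hd => by
      simpa only [eD] using (aDNS (Pre g1) (Pre.op (g := g1) _ k1.sec) (Pre.op_skew (g := g1) k1)
        (aWS n M _ g1 _ k1)).1 t d f hd) f f0 η hη
  have eu : (lam H L φ).nr H u.val = ‖u‖ ^ 2 := (Pre.norm_sq u).symm
  refine ⟨u.val, y.val, u.sec, y.sec, ?_, ?_, ?_, by rw [eu]; exact c5⟩
  · have k : M.All fun e z => (f - Pre.op _ q1 y).val e z = (x - (oQ H).ap y.val) e z :=
      fun e he z hz => by
        show x e z - (Pre.op _ q1 y).val e z = x e z - (oQ H).ap y.val e z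
        rw [Pre.op_val q1 y e he z hz]
    have e : (lam H L φ).nr H (x - (oQ H).ap y.val) = ‖f - Pre.op _ q1 y‖ ^ 2 := by
      rw [Pre.norm_sq]
      unfold Bun.nr Bun.pn
      rw [Pre.pp_congr (g := g1) k k]
    have h1 : ‖f - Pre.op _ q1 y‖ ≤ ‖u‖ + η := by
      have := norm_add_le u (f - u - Pre.op _ q1 y)
      rw [show u + (f - u - Pre.op _ q1 y) = f - Pre.op _ q1 y by abel] at this
      linarith
    rw [e, eu]
    have := pow_le_pow_left₀ (norm_nonneg _) h1 2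
    nlinarith [sq_nonneg (‖u‖ - η)]
  · rw [show (lam H L φ).nr H x = ‖f‖ ^ 2 from (Pre.norm_sq f).symm, eu]
    have := pow_le_pow_left₀ (norm_nonneg _) c4 2
    nlinarith [sq_nonneg (‖f‖ - η)]
  · rw [(s1 _ u.sec).2.2, show (lam H L φ).nr H ((oQ H).ap u.val) = _ from (nr_op q1 u).symm,
      show (lam H L φ).nr H ((oP H _).ap u.val) = _ from (nr_op p1 u).symm]
    have m3 := pow_le_pow_left₀ (norm_nonneg _) c2 2
    have m4 := pow_le_pow_left₀ (norm_nonneg _) c3 2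
    linarith

/-- A closed section is almost exact, or it pairs with a holomorphic section. -/
theorem Nc.dich (h : Nc H L φ w) (hn : 0 < n) (hH : M.Kae H) (hφ : M.WtC L φ) (l : Ultrafilter ℕ)
    (hl : (l : Filter ℕ) ≤ atTop) {x : M.Fam (Fs n → ℂ)} (hx : (lam H L φ).Sec x)
    (hQ : M.All fun e z => (oQ H).ap x e z = 0) :
    (∀ η : ℝ, 0 < η → ∃ y, (lam H L φ).Sec y ∧ (lam H L φ).nr H (x - (oQ H).ap y) ≤ η) ∨
    ∃ V, (lam H L φ).Sec V ∧ Hol V ∧ (∀ y, (lam H L φ).Sec y →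
        Tendsto (fun j => (lam H L (aw M φ (w j))).ip H ((oQ H).ap y) V) l (𝓝 0)) ∧
      ∃ c : ℝ, 0 < c ∧ ∀ᶠ j in l, c ≤ ((lam H L (aw M φ (w j))).ip H x V).re := by
  refine or_iff_not_imp_left.2 fun k => ?_
  push Not at k
  obtain ⟨η, hη, k⟩ := k
  have hm := hH.toMet
  obtain ⟨o0, -, a0⟩ := aLAM n M H L φ hm hφ
  have hψ := fun j => ((a0 (w j)).1 (h.sm j)).1
  have o1 := fun j => (aLAM n M H L _ hm (hψ j)).1
  let δ : ℕ → ℝ := fun j => 1 / ((j : ℝ) + 1)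
  have δ0 : ∀ j, 0 < δ j := fun j => by positivity
  have δ1 : ∀ j, δ j ≤ 1 := fun j => by
    rw [div_le_one (by positivity)]; linarith [j.cast_nonneg (α := ℝ)]
  have δt : Tendsto δ l (𝓝 0) := tendsto_one_div_add_atTop_nhds_zero_nat.mono_left hl
  choose u y s1 s2 s3 s4 s5 s6 using fun j => step hH (hψ j) (sw _ hx) hQ (δ0 j)
  obtain ⟨B, B0, hB⟩ := h.bd hm hφ hx
  obtain ⟨V, v1, v2, v3, v4⟩ := h.lim hn hH hφ l hl (W := u) (B := 2 * B + 2)
    (fun j => ⟨sw _ (s1 j), by nlinarith [s4 j, hB j, δ0 j, δ1 j]⟩)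
    (squeeze_zero (fun j => nr0 hm (o1 j) ((aSKW n M H L _ hH (hψ j)).1.sec _ (s1 j))) s5
      (by simpa using (δt.pow 2).const_mul 2))
  refine ⟨V, v1, v2, v4, η / 8, by positivity, ?_⟩
  have sd := fun j => sec_sub hm (o1 j) (s1 j) (sw _ v1)
  have t := (continuous_re.tendsto _).comp (sqz (B := B) (Eventually.of_forall fun j =>
    (cs hm (o1 j) (sw _ hx) (sd j)).trans (mul_le_mul_of_nonneg_right (hB j)
      (nr0 hm (o1 j) (sd j)))) v3)
  filter_upwards [(tendsto_order.1 t).2 (η / 8) (by simpa using hη),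
    (tendsto_order.1 δt).2 (η / 8) (by positivity)] with j h1 h2
  simp only [Function.comp, ip_sub hm (o1 j) (sw _ hx) (s1 j) (sw _ v1), sub_re] at h1
  have a := k _ (sw φ (s2 j))
  have b := (mono hm hφ (h.sm j) (h.le j)
    (sec_sub hm o0 hx (aSQ n M H L _ _ hm (sw φ (s2 j))).1)).1
  nlinarith [s3 j, s6 j, δ0 j, δ1 j]

end Pool.Agent.Lib.N4S.Lim84
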