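import Pool.Agent.Lib.N4S.Tw31
import Pool.Agent.Lib.N4S.Lim84
import Pool.Agent.Lib.K3S.B_MS
import Pool.Agent.Lib.K3S.B_SG

/-! Project n4s: finitely many levels have almost harmonic sections. -/

open scoped Classical Topology ContDiff ComplexOrder Matrix
open Set MeasureTheory Complex Filter

set_option linter.unusedVariables false

noncomputable section

namespace Pool.Agent.Lib.N4S

open Pool.Agent.Lib.SV (E)
open Pool.Agent.Lib.HS32 Pool.Agent.Lib.KP Pool.Agent.Lib.HLK Pool.Agent.Lib.NU4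
open Pool.Agent.Lib.EXH (aw)

namespace F31

variable {n : ℕ} {M : Mf n} {I : Type} [Fintype I] (S : Sd M I)

theorem den [M.Cpt] : Dense (Of S.toDk) := by
  have : ∀ s : Finset I, Dense {x | ∀ k ∈ s, sg S.toDk k x ≠ 0} := fun s => by
    induction s using Finset.induction_on with
    | empty => simp
    | insert a s ha ih =>
      refine (((K3S.MS.sg K3S.bSG S.toDk a).2.1).inter_of_isOpen_left ih (isOpen_ne_fun
        ((S.wt a).nr_sm (S.hol a).toSecC).continuous continuous_const)).mono fun x hx k hk => ?_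
      rcases Finset.mem_insert.1 hk with rfl | hk
      exacts [hx.1, hx.2 k hk]
  refine (this Finset.univ).mono fun x hx k => ?_
  exact hx k (Finset.mem_univ k)

theorem f_ne {x : M.X} (hx : x ∈ Of S.toDk) {e : M.Ch} (he : e ∈ M.C) (h : x ∈ e.source) (k : I) :
    S.f k e (e x) ≠ 0 := fun c => Mf.nrC_ne.1 (hx k) (by
  rw [Mf.ev, (S.hol k).cmp e he _ (Mf.ch_mem x) x h (Mf.mem_ch x), c, zero_mul])

theorem up_hm {m : ℕ} {W : M.Fam (Fs n → ℂ)} (hW : (lb S m).Sec W) (hh : Hol W) :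
    HM M m (up S m W) := by
  refine ⟨fun e he z hz i => ?_, fun e he e' he' x hx hx' => ?_⟩
  · filter_upwards [hh e he z hz i, e.open_target.mem_nhds hz] with w a b
    exact (HasFDerivAt.finsetProd fun k _ =>
      (((S.hol k).hol e he w b).fun_pow _).hasFDerivAt).differentiableAt.mul a
  · have p : ∏ k, (S.L k).c e e' x ^ fl S.toDk m k ≠ 0 := Finset.prod_ne_zero_iff.2 fun k _ =>
      pow_ne_zero _ ((S.L k).ne e he e' he' x hx hx')
    simp only [up, hW.cmp e he e' he' x hx hx', fun k => (S.hol k).cmp e he e' he' x hx hx', lam,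
      Lb, K3E.kan, K3E.triv, Mf.Co.tw, Matrix.smul_mulVec, Matrix.mulVec_smul, smul_smul, mul_pow,
      Finset.prod_mul_distrib, mul_one, mul_inv, inv_inv]
    congr 1
    ring

theorem up_nz [M.Cpt] {m : ℕ} {W : M.Fam (Fs n → ℂ)} (hW : (lb S m).Sec W) (hz : Nz W) :
    Nz (up S m W) := by
  obtain ⟨e, he, z, hz, h⟩ := hz
  have c : ContinuousAt (fun x => W e (e x)) (e.symm z) :=
    ContinuousAt.comp (by rw [e.right_inv hz]; exact (hW.sm e he z hz).continuousAt)
      (e.continuousAt (e.map_target hz))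
  obtain ⟨x, x1, x2, x3⟩ := (den S).inter_nhds_nonempty (Filter.inter_mem
    (e.open_source.mem_nhds (e.map_target hz)) (c.eventually_ne (show W e (e (e.symm z)) ≠ 0 by
      rwa [e.right_inv hz])))
  exact ⟨e, he, e x, e.map_source x2, smul_ne_zero (Finset.prod_ne_zero_iff.2 fun k _ =>
    pow_ne_zero _ (f_ne S x1 he x2 k)) x3⟩

end F31

variable {n : ℕ} {M : Mf n} [M.Cpt]

/-- The hard Lefschetz theorem for weights without concentration. -/
theorem hl31 {H : M.Fam (Mat n)} {L : M.Co} {φ : M.Fam ℝ} {w : ℕ → M.X → ℝ}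
    (h : Lim84.Nc H L φ w) (hn : 0 < n) (hH : M.Kae H) (hφ : M.WtC L φ) (hA : Ah H L φ) :
    ∃ V, (lam H L φ).Sec V ∧ Hol V ∧ Nz V := by
  choose W w1 w2 w3 using fun j : ℕ => ahw hH hφ (h.sm j) hA (1 / ((j : ℝ) + 1)) (by positivity)
  have hψ := fun j => (((aLAM n M H L φ hH.toMet hφ).2.2 (w j)).1 (h.sm j)).1
  obtain ⟨V, v1, v2, v3, -⟩ := h.lim1 hn hH hφ (hyperfilter ℕ) Nat.hyperfilter_le_atTop
    (fun _ => True) (W := W) (fun j => ⟨Lim84.sw _ (w1 j), w2 j, fun _ _ _ _ _ c => (c trivial).elim⟩)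
    (squeeze_zero (fun j => Lim84.nr0 hH.toMet (aLAM n M H L _ hH.toMet (hψ j)).1
      ((aSKW n M H L _ hH (hψ j)).1.sec _ (w1 j))) w3
      (tendsto_one_div_add_atTop_nhds_zero_nat.mono_left Nat.hyperfilter_le_atTop))
  exact ⟨V, v1, v2, v3⟩

/-- Finitely many levels have almost harmonic sections. -/
theorem finL {I : Type} [Fintype I] (S : Sd M I)
    (hN : ∀ m, 2 ≤ m → ∃ w, Lim84.Nc S.H (Lb S m) (pm S m) w)
    (hI : {m | ∃ W, HM M m W ∧ Nz W}.Finite) : {l | Ah S.H (Lb S l) (pm S l)}.Finite := by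
  refine (hI.union (finite_lt_nat 2)).subset fun m hm => ?_
  rcases lt_or_ge m 2 with c | c
  · exact Or.inr c
  obtain ⟨w, hw⟩ := hN m c
  obtain ⟨V, v1, v2, v3⟩ := hl31 hw S.pos S.kae (T31.wtL S m) hm
  exact Or.inl ⟨_, F31.up_hm S v1 v2, F31.up_nz S v1 v3⟩

end Pool.Agent.Lib.N4S
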