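import Pool.Agent.Lib.N4S.Defs
import Pool.Agent.Lib.N4S.Lim84
import Pool.Agent.Lib.K3S.B_MS
import Pool.Agent.Lib.K3S.B_SG

/-! Project n4s: limits at the level `m` are weakly parallel off the divisors. -/

open scoped Classical Topology ContDiff ComplexOrder Matrix
open Set Filter MeasureTheory Complex

noncomputable section

namespace Pool.Agent.Lib.N4S.Spw84

open Pool.Agent.Lib.SV (E)
open Pool.Agent.Lib.HS32 Pool.Agent.Lib.KP Pool.Agent.Lib.HLK Pool.Agent.Lib.F4 Pool.Agent.Lib.NU4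
open Pool.Agent.Lib.K3E (kan wk lk)
open Pool.Agent.Lib.EXH (aw)
open Pool.Agent.Lib.N4S.Lim84

variable {n : ℕ} {M : Mf n} {I : Type} [Fintype I]

theorem adm_nc {H : M.Fam (Mat n)} {L : M.Co} {φ : M.Fam ℝ} {w : ℕ → M.X → ℝ}
    (h : Adm M H L φ w) : Nc H L φ w :=
  ⟨h.sm, h.le, h.bd, (h.nc _ (by norm_num)).imp fun _ k => k.2, h.ng⟩

/-- A section that vanishes off a closed set vanishes near the points off the set. -/
theorem zero_near {σ : Type} [Fintype σ] [DecidableEq σ] {b : Bun M σ} {y : M.Fam (σ → ℂ)}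
    (hy : b.Sec y) {K : Set M.X} (hK : IsClosed K) (h0 : ∀ x ∉ K, M.ev y x = 0) :
    M.All fun e z => e.symm z ∉ K → ∀ᶠ w in 𝓝 z, y e w = 0 := fun e he z hz c => by
  filter_upwards [e.open_target.mem_nhds hz,
    (e.continuousAt_symm hz).eventually (hK.isOpen_compl.mem_nhds c)] with w h1 h2
  have k := hy.cmp e he _ (Mf.ch_mem _) _ (e.map_target h1) (Mf.mem_ch _)
  have k0 := h0 _ h2
  rw [Mf.ev] at k0
  beta_reduce at k
  rwa [k0, Matrix.mulVec_zero, e.right_inv h1] at k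

variable (S : Sd M I)

/-- The product of the equations. -/
def fp (m : ℕ) : M.Fam ℂ := fun e z => ∏ k, S.f k e z ^ fl S.toDk m k

/-- The quotient by the equations. -/
def dn (m : ℕ) (y : M.Fam (Fs n → ℂ)) : M.Fam (Fs n → ℂ) := fun e z => (fp S m e z)⁻¹ • y e z

theorem fp_sm (m : ℕ) : M.All fun e z => ContDiffAt ℝ ∞ (fp S m e) z := fun e he z hz =>
  contDiffAt_prod fun k _ => ((S.hol k).sm e he z hz).pow _

theorem fp_hol (m : ℕ) : M.All fun e z => DifferentiableAt ℂ (fp S m e) z := fun e he z hz =>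
  (HasFDerivAt.finsetProd fun k _ =>
    (((S.hol k).hol e he z hz).fun_pow _).hasFDerivAt).differentiableAt

theorem f_ne (k : I) : M.All fun e z => e.symm z ∈ Of S.toDk → S.f k e z ≠ 0 :=
  fun e he z hz c d => c k (by
    have := (S.hol k).cmp e he _ (Mf.ch_mem _) _ (e.map_target hz) (Mf.mem_ch _)
    beta_reduce at this
    rw [e.right_inv hz, d, zero_mul] at this
    simp only [sg, Mf.nrC, Mf.ev, this, map_zero, zero_mul])

theorem fp_ne (m : ℕ) : M.All fun e z => e.symm z ∈ Of S.toDk → fp S m e z ≠ 0 :=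
  fun e he z hz c => Finset.prod_ne_zero_iff.2 fun k _ => pow_ne_zero _ (f_ne S k e he z hz c)

variable {S} {m : ℕ} {y : M.Fam (Fs n → ℂ)} {K : Set M.X}

theorem dn_sec (hy : (lk S.H m).Sec y) (hK : IsClosed K) (hO : K ⊆ Of S.toDk)
    (h0 : ∀ x ∉ K, M.ev y x = 0) : (lb S m).Sec (dn S m y) := by
  refine ⟨fun e he z hz => ?_, fun e he e' he' x hx hx' => ?_⟩
  · by_cases c : e.symm z ∈ K
    · exact ((fp_sm S m e he z hz).inv (fp_ne S m e he z hz (hO c))).smul (hy.sm e he z hz)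
    · exact (contDiffAt_const (c := 0)).congr_of_eventuallyEq
        ((zero_near hy hK h0 e he z hz c).mono fun w hw => by simp only [dn, hw, smul_zero])
  · have k := hy.cmp e he e' he' x hx hx'
    have c : ∏ k, (S.L k).c e e' x ^ fl S.toDk m k ≠ 0 := Finset.prod_ne_zero_iff.2 fun k _ =>
      pow_ne_zero _ ((S.L k).ne e he e' he' x hx hx')
    have f := fun k => (S.hol k).cmp e he e' he' x hx hx'
    beta_reduce at f
    simp only [lam, dn, Lb, fp, f, Matrix.smul_mulVec, Matrix.mulVec_smul, smul_smul, mul_pow,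
      Finset.prod_mul_distrib, mul_inv, inv_inv] at k ⊢
    rw [k, smul_smul]
    congr 1
    field_simp

theorem q_dn (hy : (lk S.H m).Sec y) (hK : IsClosed K) (hO : K ⊆ Of S.toDk)
    (h0 : ∀ x ∉ K, M.ev y x = 0) : M.All fun e z =>
      (oQ S.H).ap y e z = fp S m e z • (oQ S.H).ap (dn S m y) e z ∧
      (e.symm z ∉ K → (oQ S.H).ap (dn S m y) e z = 0) := fun e he z hz => by
  have zq : ∀ {u : M.Fam (Fs n → ℂ)}, (∀ᶠ w in 𝓝 z, u e w = 0) → (oQ S.H).ap u e z = 0 :=
    fun {u} h => by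
      have : ∀ l, dzbv l (u e) z = 0 := fun l => funext fun i =>
        (dzb_congr (g := fun _ => 0) (h.mono fun w hw => by simp only [hw, Pi.zero_apply])).trans
          (dzb_const 0)
      simp only [Fl.q_ap, this, Matrix.mulVec_zero, Finset.sum_const_zero]
  have z2 : e.symm z ∉ K → (oQ S.H).ap (dn S m y) e z = 0 := fun c =>
    zq ((zero_near hy hK h0 e he z hz c).mono fun w hw => by simp only [dn, hw, smul_zero])
  refine ⟨?_, z2⟩
  by_cases c : e.symm z ∈ K
  · have s := (dn_sec hy hK hO h0).sm e he z hz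
    have f := fp_sm S m e he z hz
    have : ∀ l, dzbv l (y e) z = fp S m e z • dzbv l (dn S m y e) z := fun l => funext fun i => by
      have e1 : (fun w => y e w i) =ᶠ[𝓝 z] fun w => fp S m e w * dn S m y e w i :=
        (f.continuousAt.eventually_ne (fp_ne S m e he z hz (hO c))).mono fun w hw => by
          simp only [dn, Pi.smul_apply, smul_eq_mul, mul_inv_cancel_left₀ hw]
      refine (dzb_congr e1).trans ((dzb_mul (cd_diff f) (cd_diff (contDiffAt_pi.1 s i))).trans ?_)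
      rw [((mHOL n _ z).1 (cd_diff f)).1 (fp_hol S m e he z hz) l, zero_mul, zero_add]
      rfl
    simp only [Fl.q_ap, this, Matrix.mulVec_smul, Finset.smul_sum]
  · rw [z2 c, smul_zero, zq (zero_near hy hK h0 e he z hz c)]

theorem al_eq (hm : 1 ≤ m) (k : I) :
    ((m : ℝ) - 1) * al S.toDk k = fl S.toDk m k + ka S.toDk m k := by
  have c0 : (S.c : ℝ) ≠ 0 := Nat.cast_ne_zero.2 S.c0.ne'
  have h := congrArg (Nat.cast : ℕ → ℝ) (Nat.div_add_mod ((m - 1) * S.a k) S.c)
  rw [Nat.cast_add, Nat.cast_mul, Nat.cast_mul, Nat.cast_sub hm, Nat.cast_one] at h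
  simp only [al, fl, ka]
  field_simp
  linarith

/-- The quotient of the two densities. -/
def rt (S : Sd M I) (m : ℕ) (d : ℝ) (x : M.X) : ℝ :=
  ∏ k, (sg S.toDk k x / (sg S.toDk k x + d)) ^ fl S.toDk m k

theorem pp_up (hm : 1 ≤ m) (v : M.X → ℝ) (d : ℝ) {x : M.X} (hd : ∀ k, 0 < sg S.toDk k x + d)
    {A B : M.Fam (Fs n → ℂ)} (W : M.Fam (Fs n → ℂ))
    (h : M.ev A x = M.ev (fp S m) x • M.ev B x) :
    (Real.exp (-(((m : ℝ) - 1) * pot S v d x)) : ℂ) * (lk S.H m).pp A (up S m W) x =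
      (rt S m d x * Real.exp (-(((m : ℝ) - 1) * v x + lf S m d x)) : ℝ) * (lb S m).pp B W x := by
  have e1 : rt S m d x = normSq (M.ev (fp S m) x) * Real.exp (-∑ k, fl S.toDk m k *
      (M.ev (S.φ k) x + Real.log (sg S.toDk k x + d))) := by
    simp only [rt, fp, Mf.ev, map_prod, map_pow, ← Finset.sum_neg_distrib, Real.exp_sum,
      ← Finset.prod_mul_distrib]
    refine Finset.prod_congr rfl fun k _ => ?_
    rw [← mul_neg, Real.exp_nat_mul, ← mul_pow, neg_add, Real.exp_add, Real.exp_neg (Real.log _),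
      Real.exp_log (hd k), div_eq_mul_inv, ← mul_assoc]
    rfl
  have e2 : ((m : ℝ) - 1) * pot S v d x = ((m : ℝ) - 1) * (S.u x + v x) +
      ∑ k, fl S.toDk m k * Real.log (sg S.toDk k x + d) + lf S m d x := by
    simp only [pot, lf, mul_add, Finset.mul_sum, ← mul_assoc, al_eq hm, add_mul,
      Finset.sum_add_distrib, add_assoc]
  have e3 : Real.exp (-(((m : ℝ) - 1) * pot S v d x)) * Real.exp (-M.ev (wk S.H m) x) =
      Real.exp (-∑ k, fl S.toDk m k * (M.ev (S.φ k) x + Real.log (sg S.toDk k x + d))) *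
      Real.exp (-(((m : ℝ) - 1) * v x + lf S m d x)) * Real.exp (-M.ev (pm S m) x) := by
    simp only [← Real.exp_add, e2, pm, Mf.ev, Mf.ch_symm, mul_add, Finset.sum_add_distrib]
    congr 1
    ring
  have e4 := congrArg (ofReal : ℝ → ℂ) e3
  have e5 : M.ev (up S m W) x = M.ev (fp S m) x • M.ev W x := rfl
  rw [e1]
  simp only [Bun.pp, h, e5, star_smul, Matrix.mulVec_smul, smul_dotProduct, dotProduct_smul,
    smul_eq_mul, ofReal_mul, normSq_eq_conj_mul_self, RCLike.star_def] at e4 ⊢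
  simp only [lam, Mf.ev, Matrix.smul_mulVec, dotProduct_smul, smul_eq_mul] at e4 ⊢
  linear_combination (starRingEnd ℂ (fp S m (M.ch x) (M.ch x x)) * fp S m (M.ch x) (M.ch x x) *
    (star (B (M.ch x) (M.ch x x)) ⬝ᵥ La (S.H (M.ch x) (M.ch x x)) *ᵥ W (M.ch x) (M.ch x x))) * e4

variable [M.Cpt] {a : ℝ → M.X → ℝ} {q : Sq}

/-- Parallel for the level bundles gives weakly parallel off the divisors. -/
theorem spw (hm : 1 ≤ m) (hφ : M.WtC (Lb S m) (pm S m)) (sm : ∀ j, M.Sm (ww S a q m j))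
    (bd : ∃ C : ℝ, ∀ j, ∫ x, Real.exp (-ww S a q m j x) ∂M.mu S.H ≤ C) {W : M.Fam (Fs n → ℂ)}
    (hW : (lb S m).Sec W) (h : ∀ y, (lb S m).Sec y →
      Tendsto (fun j => (lj S a q m j).ip S.H ((oQ S.H).ap y) W) (hyperfilter ℕ) (𝓝 0)) :
    Wp S a q m (up S m W) := by
  rintro y hy ⟨K, ⟨hK, hO⟩, h0⟩
  have hH := S.kae.toMet
  obtain ⟨o0, -, a0⟩ := aLAM n M S.H _ _ hH hφ
  obtain ⟨C, hC⟩ := bd
  have it := (mMU n M S.H hH).2.2.2.2.1
  have s1 := dn_sec hy hK.isClosed hO h0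
  have s2 := q_dn hy hK.isClosed hO h0
  have r := (o0.pp_rep (aSQ n M S.H _ _ _ hH s1).1 hW).2
  obtain ⟨B, B0, hB⟩ := r.exists_bound
  have sc := fun k => (K3S.MS.sg K3S.bSG S.toDk k).1.sm.continuous
  have s0 : ∀ k x, 0 ≤ sg S.toDk k x := fun k => (K3S.MS.sg K3S.bSG S.toDk k).1.nn
  have p : ∀ j k x, 0 < sg S.toDk k x + q.d j := fun j k x =>
    add_pos_of_nonneg_of_pos (s0 k x) (q.d0 j).1
  have lo : ∀ k, ∃ c : ℝ, 0 < c ∧ ∀ x ∈ K, c ≤ sg S.toDk k x := fun k => by
    rcases K.eq_empty_or_nonempty with rfl | ne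
    · exact ⟨1, one_pos, fun x hx => hx.elim⟩
    · obtain ⟨x, hx, hm⟩ := hK.exists_isMinOn ne (sc k).continuousOn
      exact ⟨_, (s0 k x).lt_of_ne' (hO hx k), hm⟩
  choose c c0 hc using lo
  have dt : Tendsto q.d atTop (𝓝 0) := by simpa using q.dt 0 1 one_pos
  have ρt : Tendsto (fun j => (1 - ∏ k, (c k / (c k + q.d j)) ^ fl S.toDk m k) * B * C) atTop
      (𝓝 0) := by
    have t : Tendsto (fun j => ∏ k, (c k / (c k + q.d j)) ^ fl S.toDk m k) atTop
        (𝓝 (∏ k, (c k / (c k + 0)) ^ fl S.toDk m k)) := tendsto_finsetProd _ fun k _ =>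
      (tendsto_const_nhds.div (dt.const_add _) (by simpa using (c0 k).ne')).pow _
    simp only [add_zero, fun k => div_self (c0 k).ne', one_pow, Finset.prod_const_one] at t
    simpa using ((t.const_sub 1).mul_const B).mul_const C
  let g := (lb S m).pp ((oQ S.H).ap (dn S m y)) W
  have ec := fun j => (sm j).neg.exp.continuous
  have rc : ∀ j, Continuous (rt S m (q.d j)) := fun j => continuous_finsetProd _ fun k _ =>
    ((sc k).div ((sc k).add continuous_const) fun x => (p j k x).ne').pow _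
  have t2 : Tendsto (fun j => ∫ x, (((1 - rt S m (q.d j) x) * Real.exp (-ww S a q m j x) : ℝ) : ℂ) *
      g x ∂M.mu S.H) atTop (𝓝 0) := by
    refine squeeze_zero_norm (fun j => ?_) ρt
    have ρ1 : ∏ k, (c k / (c k + q.d j)) ^ fl S.toDk m k ≤ 1 :=
      Finset.prod_le_one (fun k _ => by have := c0 k; have := (q.d0 j).1; positivity) fun k _ =>
        pow_le_one₀ (by have := c0 k; have := (q.d0 j).1; positivity)
          (div_le_one_of_le₀ (by linarith [(q.d0 j).1]) (by linarith [c0 k, (q.d0 j).1]))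
    refine (norm_integral_le_of_norm_le ((it ℝ _ (ec j)).const_mul
      ((1 - ∏ k, (c k / (c k + q.d j)) ^ fl S.toDk m k) * B)) (Eventually.of_forall fun x => ?_)).trans ?_
    · by_cases hx : x ∈ K
      · have r1 : rt S m (q.d j) x ≤ 1 :=
          Finset.prod_le_one (fun k _ => pow_nonneg (div_nonneg (s0 k x) (p j k x).le) _) fun k _ =>
            pow_le_one₀ (div_nonneg (s0 k x) (p j k x).le)
              (div_le_one_of_le₀ (by linarith [(q.d0 j).1]) (p j k x).le)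
        have r2 : ∏ k, (c k / (c k + q.d j)) ^ fl S.toDk m k ≤ rt S m (q.d j) x :=
          Finset.prod_le_prod (fun k _ => by have := c0 k; have := (q.d0 j).1; positivity)
            fun k _ => pow_le_pow_left₀ (by have := c0 k; have := (q.d0 j).1; positivity) (by
              rw [div_le_div_iff₀ (by linarith [c0 k, (q.d0 j).1]) (p j k x)]
              nlinarith [hc k x hx, (q.d0 j).1]) _
        rw [norm_mul, norm_real, Real.norm_of_nonneg (mul_nonneg (by linarith) (Real.exp_pos _).le),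
          mul_right_comm]
        exact mul_le_mul_of_nonneg_right (mul_le_mul (by linarith) (hB x) (norm_nonneg _)
          (by linarith)) (Real.exp_pos _).le
      · have z := (s2 _ (Mf.ch_mem x) _ (Mf.ch_tgt x)).2 (by rwa [Mf.ch_symm])
        have : g x = 0 := by simp only [g, Bun.pp, Mf.ev, z, star_zero, zero_dotProduct]
        rw [this, mul_zero, norm_zero]
        exact mul_nonneg (mul_nonneg (by linarith) B0.le) (Real.exp_pos _).le
    · rw [integral_const_mul]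
      exact mul_le_mul_of_nonneg_left (hC j) (mul_nonneg (by linarith) B0.le)
  have t3 := (h _ s1).sub (t2.mono_left Nat.hyperfilter_le_atTop)
  rw [sub_zero] at t3
  refine t3.congr fun j => ?_
  have i1 : Integrable (fun x => g x * (Real.exp (-ww S a q m j x) : ℝ)) (M.mu S.H) :=
    it ℂ _ (r.continuous.mul (continuous_ofReal.comp (ec j)))
  have i2 : Integrable (fun x => (((1 - rt S m (q.d j) x) * Real.exp (-ww S a q m j x) : ℝ) : ℂ) *
      g x) (M.mu S.H) :=
    it ℂ _ ((continuous_ofReal.comp ((continuous_const.sub (rc j)).mul (ec j))).mul r.continuous)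
  simp only [Bun.ip, fun x => ((a0 (ww S a q m j)).2 ((oQ S.H).ap (dn S m y)) W x).1]
  rw [← integral_sub i1 i2]
  refine integral_congr_ae (Eventually.of_forall fun x => ?_)
  beta_reduce
  rw [pp_up hm (tp a q j) (q.d j) (p j · x) (A := (oQ S.H).ap y) (B := (oQ S.H).ap (dn S m y)) W
    (s2 _ (Mf.ch_mem x) _ (Mf.ch_tgt x)).1]
  simp only [ww, g, ofReal_mul, ofReal_sub, ofReal_one]
  ring

/-- The limit of almost harmonic sections at the level `m`. -/
theorem limS (hm : 1 ≤ m) (h : Adm M S.H (Lb S m) (pm S m) (ww S a q m)) (p : ℕ → Prop)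
    {W : ℕ → M.Fam (Fs n → ℂ)} (hW : ∀ j, (lb S m).Sec (W j) ∧ (lj S a q m j).nr S.H (W j) = 1 ∧
      M.All fun e z => ∀ A : Fs n, ¬p A.card → W j e z A = 0)
    (hD : Tendsto (fun j => (lj S a q m j).nr S.H
      ((oD S.H (aw M (pm S m) (ww S a q m j))).ap (W j))) (hyperfilter ℕ) (𝓝 0)) :
    ∃ V, (lb S m).Sec V ∧ Hol V ∧ Nz V ∧ (∀ e z (A : Fs n), ¬p A.card → V e z A = 0) ∧
      Wp S a q m (up S m V) := by
  obtain ⟨V, v1, v2, v3, v4, -, v6⟩ := (adm_nc h).lim1 S.pos S.kae h.wt (hyperfilter ℕ)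
    Nat.hyperfilter_le_atTop p hW hD
  exact ⟨V, v1, v2, v3, v4, spw hm h.wt h.sm h.bd v1 v6⟩

/-- The hard Lefschetz theorem for one class at the level `m`. -/
theorem hlxS (hm : 1 ≤ m) (h : Adm M S.H (Lb S m) (pm S m) (ww S a q m)) {x : M.Fam (Fs n → ℂ)}
    (hx : (lb S m).Sec x) (hQ : Zr M ((oQ S.H).ap x)) :
    (∀ η : ℝ, 0 < η → ∃ y, (lb S m).Sec y ∧ (lb S m).nr S.H (x - (oQ S.H).ap y) ≤ η) ∨
    ∃ V, (lb S m).Sec V ∧ Hol V ∧ Wp S a q m (up S m V) ∧
      ∃ c : ℝ, 0 < c ∧ ∀ᶠ j in hyperfilter ℕ, c ≤ ((lj S a q m j).ip S.H x V).re :=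
  ((adm_nc h).dich S.pos S.kae h.wt (hyperfilter ℕ) Nat.hyperfilter_le_atTop hx hQ).imp_right
    fun ⟨V, v1, v2, v3, v4⟩ => ⟨V, v1, v2, spw hm h.wt h.sm h.bd v1 v3, v4⟩

theorem den_Of (S : Sd M I) : M.All fun e z => ∃ᶠ w in 𝓝 z, e.symm w ∈ Of S.toDk := by
  have d : Dense (⋂ k ∈ (univ : Set I), {x | sg S.toDk k x ≠ 0}) := by
    refine Set.Finite.induction_on (motive := fun s _ => Dense (⋂ k ∈ s, {x | sg S.toDk k x ≠ 0}))
      univ finite_univ (by simp) fun {k s} _ _ ih => ?_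
    rw [biInter_insert]
    exact (K3S.MS.sg K3S.bSG S.toDk k).2.1.inter_of_isOpen_left ih
      (isOpen_ne_fun (K3S.MS.sg K3S.bSG S.toDk k).1.sm.continuous continuous_const)
  intro e he z hz
  have x1 := e.map_target hz
  have t := (e.continuousAt x1).tendsto
  rw [e.right_inv hz] at t
  refine t.frequently (((mem_closure_iff_frequently.1 (d (e.symm z))).and_eventually
    (e.open_source.mem_nhds x1)).mono fun x hx k => ?_)
  rw [e.left_inv hx.2]
  exact mem_iInter₂.1 hx.1 k (mem_univ k)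

/-- A smooth family is determined by its product with the equations off the divisors. -/
theorem eq_of_up {W U : M.Fam (Fs n → ℂ)} (hW : (lb S m).Sec W) (hU : (lb S m).Sec U)
    (h : M.All fun e z => e.symm z ∈ Of S.toDk → up S m W e z = up S m U e z) :
    M.All fun e z => W e z = U e z := fun e he z hz =>
  tendsto_nhds_unique_of_frequently_eq (hW.sm e he z hz).continuousAt
    (hU.sm e he z hz).continuousAt (((den_Of S e he z hz).and_eventually
      (e.open_target.mem_nhds hz)).mono fun w hw =>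
        smul_right_injective _ (fp_ne S m e he w hw.2 hw.1) (h e he w hw.2 hw.1))

omit [M.Cpt] in
theorem nw_congr {W U : M.Fam (Fs n → ℂ)} (hW : (lb S m).Sec W) (hh : Hol W) (hU : Nw S m U)
    (h : M.All fun e z => W e z = U e z) : Nw S m W := by
  obtain ⟨C, C0, hC⟩ := hU.sml
  refine ⟨⟨hW, hh, fun k hk e he z hz c => ?_⟩, C, C0, fun ε v h1 h2 h3 d hd =>
    le_of_eq_of_le ?_ (hC ε v h1 h2 h3 d hd)⟩
  · rw [h e he z hz]
    exact hU.tan k hk e he z hz c
  · simp only [cu, Mf.ev, fun x => h _ (Mf.ch_mem x) _ (Mf.ch_tgt x)]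

/-- The class of the level `m` is seen off the divisors. -/
theorem back {W U : M.Fam (Fs n → ℂ)} (hW : (lb S m).Sec W) (hh : Hol W) (hU : Nw S m U)
    (h : M.All fun e z => e.symm z ∈ Of S.toDk → up S m W e z = up S m U e z) : Nw S m W :=
  nw_congr hW hh hU (eq_of_up hW hU.sec h)

omit [M.Cpt] in
theorem up_ho {W : M.Fam (Fs n → ℂ)} (hW : (lb S m).Sec W) (hh : Hol W) : HO S m (up S m W) := by
  refine ⟨fun e he z hz _ i => ?_, fun e he e' he' x hx hx' _ => ?_⟩
  · filter_upwards [hh e he z hz i, e.open_target.mem_nhds hz] with w h1 h2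
    exact (fp_hol S m e he w h2).mul h1
  · have k := hW.cmp e he e' he' x hx hx'
    have f := fun k => (S.hol k).cmp e he e' he' x hx hx'
    beta_reduce at f
    simp only [lam, up, Lb, f, Matrix.smul_mulVec, Matrix.mulVec_smul, smul_smul, mul_pow,
      Finset.prod_mul_distrib, mul_inv, inv_inv, kan, K3E.triv, Mf.Co.tw, mul_one, jd] at k ⊢
    rw [k, smul_smul]
    congr 1
    ring

/-- The limit is in the class of the level `m`. -/
theorem limN (hm : 1 ≤ m) (h : Adm M S.H (Lb S m) (pm S m) (ww S a q m))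
    (hLB : ∀ T, HO S m T → Wp S a q m T → ∃ U, Nw S m U ∧
      M.All fun e z => e.symm z ∈ Of S.toDk → T e z = up S m U e z) (p : ℕ → Prop)
    {W : ℕ → M.Fam (Fs n → ℂ)} (hW : ∀ j, (lb S m).Sec (W j) ∧ (lj S a q m j).nr S.H (W j) = 1 ∧
      M.All fun e z => ∀ A : Fs n, ¬p A.card → W j e z A = 0)
    (hD : Tendsto (fun j => (lj S a q m j).nr S.H
      ((oD S.H (aw M (pm S m) (ww S a q m j))).ap (W j))) (hyperfilter ℕ) (𝓝 0)) :
    ∃ V, Nw S m V ∧ Nz V ∧ ∀ e z (A : Fs n), ¬p A.card → V e z A = 0 := by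
  obtain ⟨V, v1, v2, v3, v4, v5⟩ := limS hm h p hW hD
  obtain ⟨U, u1, u2⟩ := hLB _ (up_ho v1 v2) v5
  exact ⟨V, back v1 v2 u1 u2, v3, v4⟩

/-- A closed section is almost exact, or it pairs with an element of the class. -/
theorem hlxN (hm : 1 ≤ m) (h : Adm M S.H (Lb S m) (pm S m) (ww S a q m))
    (hLB : ∀ T, HO S m T → Wp S a q m T → ∃ U, Nw S m U ∧
      M.All fun e z => e.symm z ∈ Of S.toDk → T e z = up S m U e z) {x : M.Fam (Fs n → ℂ)}
    (hx : (lb S m).Sec x) (hQ : Zr M ((oQ S.H).ap x)) :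
    (∀ η : ℝ, 0 < η → ∃ y, (lb S m).Sec y ∧ (lb S m).nr S.H (x - (oQ S.H).ap y) ≤ η) ∨
    ∃ V, Nw S m V ∧ ¬Tendsto (fun j => (lj S a q m j).ip S.H V x) (hyperfilter ℕ) (𝓝 0) := by
  refine (hlxS hm h hx hQ).imp_right fun ⟨V, v1, v2, v3, c, c0, hc⟩ => ?_
  obtain ⟨U, u1, u2⟩ := hLB _ (up_ho v1 v2) v3
  refine ⟨V, back v1 v2 u1 u2, fun t => ?_⟩
  have hH := S.kae.toMet
  have t2 := (continuous_re.tendsto _).comp t
  obtain ⟨j, h1, h3⟩ := (hc.and ((tendsto_order.1 t2).2 c (by simpa using c0))).exists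
  obtain ⟨o1, -, -⟩ := aLAM n M S.H _ _ hH (((aLAM n M S.H _ _ hH h.wt).2.2 _).1 (h.sm j)).1
  let g : Geo M (Fs n) := ⟨S.H, _, hH, o1⟩
  have s := NEAR.re_symm (Pre.mk (g := g) x (sw _ hx)) (Pre.mk (g := g) V (sw _ v1))
  exact absurd (h1.trans_eq s) (not_le.2 h3)

end Pool.Agent.Lib.N4S.Spw84
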