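import Pool.Agent.Lib.N4S.Blue
import Pool.Agent.Lib.N4S.Fin31
import Pool.Agent.Lib.N4S.Spw84
import Pool.Agent.Lib.NU4.B_EXC
import Pool.Agent.Lib.NU4.B_KIT
import Pool.Agent.Lib.NU4.B_FK

/-! Project n4s, row EXC: the exchange between fields and bivectors. -/

open scoped Classical Topology ContDiff ComplexOrder Matrix
open Set Filter MeasureTheory

noncomputable section

namespace Pool.Agent.Lib.N4S

open Pool.Agent.Lib.SV (E)
open Pool.Agent.Lib.HS32 Pool.Agent.Lib.HLK Pool.Agent.Lib.F4 Pool.Agent.Lib.NU4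

namespace E29

variable {n : ℕ} {M : Mf n} {I : Type} [Fintype I] {S : Sd M I} {m : ℕ}

theorem prt_pj (r : ℕ) (W : M.Fam (Fs n → ℂ)) :
    prt M r W = IDX.DIM.pj (fun k => k = r) W :=
  funext fun e => funext fun z => funext fun A => by
    by_cases c : A.card = r
    · simp only [prt, IDX.DIM.pj, c, if_true]
    · simp only [prt, IDX.DIM.pj, c, if_false]

theorem prt_dg (r : ℕ) (W : M.Fam (Fs n → ℂ)) : DgM M r (prt M r W) := fun _ _ _ _ _ c => if_neg c

theorem up_dg {r : ℕ} {W : M.Fam (Fs n → ℂ)} (h : DgM M r W) : DgM M r (up S m W) :=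
  fun e he z hz A c => by rw [up, Pi.smul_apply, h e he z hz A c, smul_zero]

theorem up_prt {r : ℕ} (W : M.Fam (Fs n → ℂ)) (e : M.Ch) (z : E n) {A : Fs n} (c : A.card = r) :
    up S m (prt M r W) e z A = up S m W e z A := by
  simp only [up, prt, Pi.smul_apply, if_pos c]

variable [M.Cpt] {a : ℝ → M.X → ℝ}

/-- The flip of the parity in the class. -/
theorem flip (hFLP : St_FLP) (hLB : St_LB) (hADM : St_ADM) (q : Sq) (Z : Zs S a) (no : NoS M)
    (hm : 2 ≤ m) {r : ℕ} {T : M.Fam (Fs n → ℂ)} (hT : Nn S m T) (d : DgM M r T) (nz : Nz T) :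
    ∃ U, HM M m U ∧ Nz U ∧ Pa M (-(-1) ^ r) U ∧ ∀ k, ∃ Y, Nn S m Y ∧ DgM M k Y ∧
      ∀ e z (A : Fs n), A.card = k → Y e z A = U e z A := by
  obtain ⟨W, hW, eq⟩ := hT
  have ad := hADM n M I S a q m Z hm
  have dW : DgM M r W := fun e he z hz A c => by
    refine (congrFun (Spw84.eq_of_up hW.sec (prt_pj r W ▸ Fl.pj_sec _ hW.sec)
      (fun e he z hz _ => funext fun B => ?_) e he z hz) A).trans (if_neg c)
    by_cases b : B.card = r
    · exact (up_prt W e z b).symm
    · rw [← eq e he z hz, d e he z hz B b, up_dg (prt_dg r W) e he z hz B b]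
  obtain ⟨U, u1, u2, u3, u4, u5⟩ := hFLP n M I S a q m ((-1) ^ r) W Z no hm
    (neg_one_pow_eq_or ℂ r) hW (by
      obtain ⟨e, he, z, hz, c⟩ := nz
      exact ⟨e, he, z, hz, fun k => c (by rw [eq e he z hz, up, k, smul_zero])⟩) (X29.pa_of dW)
  refine ⟨up S m U, F31.up_hm S u1 u2, F31.up_nz S u1 u3, fun e he z hz => funext fun A => ?_,
    fun k => ⟨up S m (prt M k U), ?_, up_dg (prt_dg k U), fun e z A c => up_prt U e z c⟩⟩
  · have := congrFun (u4 e he z hz) A
    simp only [IDX.par, up, Pi.smul_apply, smul_eq_mul] at this ⊢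
    rw [mul_left_comm, this, mul_left_comm]
  · have s : (lb S m).Sec (prt M k U) := prt_pj k U ▸ Fl.pj_sec _ u1
    have h := K92.prt_hol k u2
    obtain ⟨Y, y1, -, y2⟩ := hLB n M I S a q m k _ Z hm (Spw84.up_ho s h) (up_dg (prt_dg k U))
      (Spw84.spw (by omega) ad.wt ad.sm ad.bd s fun y hy => by
        rw [prt_pj]
        refine (u5.pj (fun l => l = k) y hy).congr fun j => ?_
        refine integral_congr_ae (Eventually.of_forall fun x => ?_)
        exact (mul_comm _ _).trans (((aLAM n M _ _ _ S.kae.toMet ad.wt).2.2 _).2 _ _ x).1.symm)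
    exact ⟨_, Spw84.back s h y1 y2, fun _ _ _ _ => rfl⟩

end E29

open E29 X29 in
theorem st_EXC (hFLP : St_FLP) (hLB : St_LB) (hKV : St_KV) (hADM : St_ADM) (hPR1 : St_PR1) :
    St_EXC := by
  intro M _ I _ S a q m B hm
  have hH := S.kae.toMet
  have three : ∀ t, HM M m t → DgM M 3 t → Sm0 S m t → Zr M t := fun t h d s => by
    by_contra c
    exact B.nu (hKV 4 M I S a m 3 t B.zs rfl h d (nz_iff.2 c) s)
  have cardle : ∀ A : Fs 4, A.card ≤ 4 := fun A => by
    simpa using Finset.card_le_univ A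
  have nn := (hPR1 4 M I S a q m B.zs hm).1
  refine ⟨three, fun ⟨π, h, d, nz⟩ => ?_, fun ⟨W, h, nz, s⟩ => ?_⟩
  · obtain ⟨U, hU, ⟨e, he, z, hz, c⟩, pU, k⟩ := flip hFLP hLB hADM q B.zs B.no hm h d nz
    obtain ⟨A, hA⟩ := Function.ne_iff.1 c
    obtain ⟨Y3, a1, a2, a3⟩ := k 3
    obtain ⟨Y, ⟨Y0, b0, b1⟩, b2, b3⟩ := k 1
    have c1 : A.card = 1 := by
      by_contra c1
      by_cases c3 : A.card = 3
      · exact hA ((a3 e z A c3).symm.trans
          (congrFun (three _ (nn _ a1).1 a2 (nn _ a1).2.1 e he z hz) A))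
      refine hA (pa_zero pU he hz ?_)
      have := cardle A
      have k : A.card = 0 ∨ A.card = 2 ∨ A.card = 4 := by omega
      rcases k with k | k | k <;> rw [k] <;> norm_num
    have K := st_KIT 4 M S.H m Y hH
    have eq : M.All fun e z => Y e z = vec M (fun e z k => Y e z {k}) e z := fun e he z hz =>
      (st_FK 4 0 0 0 0 0 (Y e z)).2.2.2.2.2.2.2.2.2.2.2.2.2.2.2.2.2.1 (b2 e he z hz)
    have ht := (K.2.2.2.2.1 (nn _ ⟨Y0, b0, b1⟩).1).2.1
    refine ⟨_, ht, ((K.2.1 _ ht).2.2).2 ⟨e, he, z, hz, fun k => hA ?_⟩, Y0, b0,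
      fun e he z hz => (eq e he z hz).symm.trans (b1 e he z hz)⟩
    exact (b3 e z A c1).symm.trans (congrFun ((eq e he z hz).trans k) A)
  · have K0 := (st_KIT 4 M S.H m 0 hH).2.1 W h
    obtain ⟨U, hU, ⟨e, he, z, hz, c⟩, pU, k⟩ := flip hFLP hLB hADM q B.zs B.no hm s K0.2.1
      (K0.2.2.1 nz)
    obtain ⟨A, hA⟩ := Function.ne_iff.1 c
    obtain ⟨Y, b1, b2, b3⟩ := k 2
    have K := (st_KIT 4 M S.H m U hH).2.2.2.2.1 hU
    have c2 : A.card = 2 := by
      by_contra c2
      by_cases c0 : A.card = 0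
      · rw [Finset.card_eq_zero.1 c0] at hA
        exact hA (B.no m (by omega) _ K.2.2.1 e he z hz)
      by_cases c4 : A.card = 4
      · rw [Finset.eq_univ_of_card A (by simpa using c4)] at hA
        exact hA (B.no (m - 1) (by omega) _ (K.2.2.2.1 (by omega)) e he z hz)
      refine hA (pa_zero pU he hz ?_)
      have := cardle A
      have k : A.card = 1 ∨ A.card = 3 := by omega
      rcases k with k | k <;> rw [k] <;> norm_num
    exact ⟨Y, b1, b2, e, he, z, hz, fun k => hA ((b3 e z A c2).symm.trans (congrFun k A))⟩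

end Pool.Agent.Lib.N4S
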