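import Pool.Agent.Lib.N4S.Lim84
import Pool.Agent.Lib.NU4.B_EXC

/-! Project n4s: the flip of the parity for a sequence of weights. -/

open scoped Classical Topology ContDiff ComplexOrder Matrix
open Set Filter MeasureTheory

set_option linter.unusedVariables false

noncomputable section

namespace Pool.Agent.Lib.N4S.X29

open Pool.Agent.Lib.SV (E)
open Pool.Agent.Lib.HS32 Pool.Agent.Lib.HLK Pool.Agent.Lib.F4 Pool.Agent.Lib.NU4
open Pool.Agent.Lib.K3E (kan wk lk)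
open Pool.Agent.Lib.EXH (aw)
open Pool.Agent.Lib.IDX.DIM (pj)

section gen

variable {n : ℕ} {M : Mf n} [M.Cpt] {H : M.Fam (Mat n)} {L : M.Co} {φ : M.Fam ℝ}

/-- A holomorphic section, normalised. -/
theorem nrm (hH : M.Kae H) (hφ : M.WtC L φ) {s : ℂ} {W : M.Fam (Fs n → ℂ)}
    (hW : (lam H L φ).Sec W) (hh : Hol W) (hp : Pa M s W) {t : ℝ} (t0 : 0 < t)
    (ht : t ≤ (lam H L φ).nr H W) : ∃ U, (lam H L φ).Sec U ∧ Pa M s U ∧
      (lam H L φ).nr H U = 1 ∧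
      (lam H L φ).nr H ((oD H φ).ap U) ≤ (lam H L φ).nr H ((oP H φ).ap W) / t := by
  have hm := hH.toMet
  let g : Geo M (Fs n) := ⟨H, lam H L φ, hm, (aLAM n M H L φ hm hφ).1⟩
  obtain ⟨k, -, s0⟩ := aSKW n M H L φ hH hφ
  let u : Pre g := Pre.mk W hW
  have e : ‖u‖ ^ 2 = (lam H L φ).nr H W := Pre.norm_sq u
  have u0 : 0 < ‖u‖ := by
    by_contra c
    rw [le_antisymm (not_lt.1 c) (norm_nonneg _)] at e
    linarith
  have q : (lam H L φ).nr H ((oQ H).ap W) = 0 := by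
    have z : M.All fun e z => (oQ H).ap W e z = (0 : M.Fam (Fs n → ℂ)) e z := Fl.q_hol hh
    unfold Bun.nr Bun.pn
    rw [show (lam H L φ).pp _ _ = _ from Pre.pp_congr (g := g) z z]
    simp [Bun.pp, Mf.ev]
  have d : ‖Pre.op (g := g) _ k.sec u‖ ^ 2 = (lam H L φ).nr H ((oP H φ).ap W) := by
    rw [ONE.nr_op]
    exact (s0 W hW).2.2.trans (by rw [q, zero_add])
  refine ⟨(((‖u‖⁻¹ : ℝ) : ℂ) • u).val, (((‖u‖⁻¹ : ℝ) : ℂ) • u).sec, fun e he z hz => ?_, ?_, ?_⟩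
  · have := hp e he z hz
    funext A
    have := congrFun this A
    simp only [IDX.par, Pi.smul_apply, smul_eq_mul] at this
    change (-1 : ℂ) ^ A.card * (((‖u‖⁻¹ : ℝ) : ℂ) * W e z A) = s * (((‖u‖⁻¹ : ℝ) : ℂ) * W e z A)
    rw [mul_left_comm, this, mul_left_comm]
  · refine (Pre.norm_sq (g := g) (((‖u‖⁻¹ : ℝ) : ℂ) • u)).symm.trans ?_
    rw [norm_smul, Complex.norm_real, norm_inv, norm_norm, inv_mul_cancel₀ u0.ne', one_pow]
  · refine (ONE.nr_op (g := g) k.sec (((‖u‖⁻¹ : ℝ) : ℂ) • u)).symm.trans_le ?_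
    rw [map_smul, norm_smul, Complex.norm_real, norm_inv, norm_norm, mul_pow, inv_pow, e, d,
      ← div_eq_inv_mul]
    exact div_le_div_of_nonneg_left (d ▸ sq_nonneg _) t0 ht

/-- The flip of the parity for a sequence of weights. -/
theorem flip0 {w : ℕ → M.X → ℝ} (h : Lim84.Nc H L φ w) (hn : 0 < n) (hH : M.Kae H)
    (hφ : M.WtC L φ) {s : ℂ} (hs : s = 1 ∨ s = -1)
    (hX : ∀ j W η, (lam H L (aw M φ (w j))).Sec W → Pa M s W →
      (lam H L (aw M φ (w j))).nr H W = 1 → 0 < η →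
      (lam H L (aw M φ (w j))).nr H ((oD H (aw M φ (w j))).ap W) ≤ η →
      ∃ U, (lam H L (aw M φ (w j))).Sec U ∧ Pa M (-s) U ∧ (lam H L (aw M φ (w j))).nr H U = 1 ∧
        (lam H L (aw M φ (w j))).nr H ((oD H (aw M φ (w j))).ap U) ≤ 4 * η)
    {W : M.Fam (Fs n → ℂ)} (hW : (lam H L φ).Sec W) (hh : Hol W) (nz : Nz W) (hp : Pa M s W)
    (hP : Tendsto (fun j => (lam H L (aw M φ (w j))).nr H ((oP H (aw M φ (w j))).ap W)) atTop
      (𝓝 0)) :
    ∃ V, (lam H L φ).Sec V ∧ Hol V ∧ Nz V ∧ Pa M (-s) V ∧ ∀ y, (lam H L φ).Sec y →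
      Tendsto (fun j => (lam H L (aw M φ (w j))).ip H ((oQ H).ap y) V) (hyperfilter ℕ) (𝓝 0) := by
  have hm := hH.toMet
  obtain ⟨o0, -, a0⟩ := aLAM n M H L φ hm hφ
  have hψ := fun j => ((a0 (w j)).1 (h.sm j)).1
  have o1 := fun j => (aLAM n M H L _ hm (hψ j)).1
  have t0 : 0 < (lam H L φ).nr H W := (Lim84.nr0 hm o0 hW).lt_of_ne' fun c => by
    obtain ⟨e, he, z, hz, k⟩ := nz
    refine k ((IDX.st_INJ n M _ ⟨H, _, hm, o0⟩ (Pre.mk W hW)).1 ?_ e he z hz)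
    exact pow_eq_zero_iff two_ne_zero |>.1 ((Pre.norm_sq (g := ⟨H, _, hm, o0⟩) (Pre.mk W hW)).trans c)
  choose U u1 u2 u3 u4 using fun j => nrm hH (hψ j) (Lim84.sw _ hW) hh hp t0
    (Lim84.mono hm hφ (h.sm j) (h.le j) hW).1
  have p0 := fun j => Lim84.nr0 hm (o1 j) (aSP n M H L _ W hm (hψ j) (Lim84.sw _ hW))
  choose Y y1 y2 y3 y4 using fun j : ℕ => hX j (U j) (_ / _ + 1 / ((j : ℝ) + 1)) (u1 j) (u2 j)
    (u3 j) (add_pos_of_nonneg_of_pos (div_nonneg (p0 j) t0.le) (by positivity))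
    ((u4 j).trans (le_add_of_nonneg_right (by positivity)))
  have t := ((hP.div_const ((lam H L φ).nr H W)).add
    (tendsto_one_div_add_atTop_nhds_zero_nat (𝕜 := ℝ))).const_mul 4
  simp only [zero_div, add_zero, mul_zero] at t
  obtain ⟨V, v1, v2, v3, v4, -, v5⟩ := h.lim1 hn hH hφ (hyperfilter ℕ) Nat.hyperfilter_le_atTop
    (fun r => (-1 : ℂ) ^ r = -s) (W := Y)
    (fun j => ⟨Lim84.sw _ (y1 j), y3 j, fun e he z hz A c => NU4.X29.pa_zero (y2 j) he hz c⟩)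
    ((squeeze_zero (fun j => Lim84.nr0 hm (o1 j)
      ((aSKW n M H L _ hH (hψ j)).1.sec _ (y1 j))) y4 t).mono_left Nat.hyperfilter_le_atTop)
  refine ⟨V, v1, v2, v3, fun e he z hz => funext fun A => ?_, v5⟩
  change (-1 : ℂ) ^ A.card * V e z A = -s * V e z A
  by_cases c : (-1 : ℂ) ^ A.card = -s
  · rw [c]
  · rw [v4 e z A c, mul_zero, mul_zero]

end gen

end Pool.Agent.Lib.N4S.X29
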