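import Pool.Agent.Lib.N4S.Blue
import Pool.Agent.Lib.N4S.Exc29
import Pool.Agent.Lib.N4S.Fin31
import Pool.Agent.Lib.N4S.Spw84

/-! Project n4s, row FLP: the flip of the parity. -/

open scoped Classical Topology ContDiff ComplexOrder Matrix
open Set Filter MeasureTheory

noncomputable section

namespace Pool.Agent.Lib.N4S

open Pool.Agent.Lib.HS32 Pool.Agent.Lib.HLK Pool.Agent.Lib.NU4

theorem st_FLP (hADM : St_ADM) (hINF : St_INF) (hSG : St_SG) : St_FLP := by
  intro n M _ I _ S a q m s W Z no hm hs hW nz hp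
  have ad := hADM n M I S a q m Z hm
  have hf := finL S (fun l hl => ⟨_, Spw84.adm_nc (hADM n M I S a q l Z hl)⟩) (hINF n M I S no).1
  obtain ⟨V, v1, v2, v3, v4, v5⟩ := X29.flip0 (Spw84.adm_nc ad) S.pos S.kae ad.wt hs
    (fun j U η u1 u2 u3 hη u4 => by
      obtain ⟨Y, y1, y2⟩ := exsL S (by omega) hf (ad.sm j) hs (Lim84.sw _ u1) u2 u3 hη u4
      exact ⟨Y, Lim84.sw _ y1, y2⟩) hW.sec hW.hol nz hp (hSG n M I S a q m W Z hm hW)
  refine ⟨V, v1, v2, v3, v4, fun y hy => (v5 y hy).congr fun j => ?_⟩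
  refine integral_congr_ae (Eventually.of_forall fun x => ?_)
  exact ((((aLAM n M _ _ _ S.kae.toMet ad.wt).2.2 _).2 _ _ x).1).trans (mul_comm _ _)

end Pool.Agent.Lib.N4S
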