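import Pool.Agent.Lib.N4S.Defs
import Pool.Agent.Lib.NU4.B_EV

/-! Project n4s: limits of weighted divergences are weakly parallel. -/

open scoped Classical Topology ContDiff ComplexOrder Matrix
open Set Filter MeasureTheory

set_option linter.unusedVariables false

noncomputable section

namespace Pool.Agent.Lib.N4S.G87

open Pool.Agent.Lib.SV (E)
open Pool.Agent.Lib.HS32 Pool.Agent.Lib.HLK Pool.Agent.Lib.F4 Pool.Agent.Lib.NU4
open Pool.Agent.Lib.K3E (kan wk lk)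

variable {n : ℕ} {M : Mf n} {I : Type} [Fintype I] {S : Sd M I} {a : ℝ → M.X → ℝ} {q : Sq}
  {m : ℕ} {T R y : M.Fam (Fs n → ℂ)} {K : Set M.X}

/-- The operators are local. -/
theorem ap_loc {σ : Type} [Fintype σ] [DecidableEq σ] (D : Op M σ) {U W : M.Fam (σ → ℂ)}
    {e : M.Ch} {z : E n} (h : U e =ᶠ[𝓝 z] W e) : D.ap U e z = D.ap W e z := by
  have ev : ∀ i, (fun w => U e w i) =ᶠ[𝓝 z] fun w => W e w i := fun i =>
    h.mono fun w hw => congrFun hw i
  have e1 : ∀ k, dzv k (U e) z = dzv k (W e) z := fun k => funext fun i => dz_congr (ev i)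
  have e2 : ∀ k, dzbv k (U e) z = dzbv k (W e) z := fun k => funext fun i => dzb_congr (ev i)
  simp only [Op.ap, e1, e2, h.self_of_nhds]

/-- The support of the image of a section. -/
theorem ap_off {σ : Type} [Fintype σ] [DecidableEq σ] (D : Op M σ) {b : Bun M σ}
    {y : M.Fam (σ → ℂ)} (hy : b.Sec y) (hK : IsClosed K) (h0 : ∀ x ∉ K, M.ev y x = 0) (x : M.X)
    (hx : x ∉ K) : M.ev (D.ap y) x = 0 := by
  have h : y (M.ch x) =ᶠ[𝓝 (M.ch x x)] (0 : M.Fam (σ → ℂ)) (M.ch x) := by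
    have h1 : ∀ᶠ w in 𝓝 (M.ch x x), (M.ch x).symm w ∈ Kᶜ :=
      ((M.ch x).continuousAt_symm (Mf.ch_tgt x)).eventually
        (hK.isOpen_compl.mem_nhds (by rwa [Mf.ch_symm]))
    filter_upwards [h1, (M.ch x).open_target.mem_nhds (Mf.ch_tgt x)] with w hw ht
    have h2 := hy.cmp _ (Mf.ch_mem x) _ (Mf.ch_mem _) _ ((M.ch x).map_target ht) (Mf.mem_ch _)
    have h3 : y (M.ch _) (M.ch _ _) = 0 := h0 _ hw
    beta_reduce at h2
    rwa [h3, Matrix.mulVec_zero, (M.ch x).right_inv ht] at h2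
  have e1 : ∀ k, dzv k ((0 : M.Fam (σ → ℂ)) (M.ch x)) (M.ch x x) = 0 :=
    fun k => funext fun i => dz_const 0
  have e2 : ∀ k, dzbv k ((0 : M.Fam (σ → ℂ)) (M.ch x)) (M.ch x x) = 0 :=
    fun k => funext fun i => dzb_const 0
  refine (ap_loc D h).trans ?_
  simp only [Op.ap, e1, e2, Matrix.mulVec_zero, add_zero, Finset.sum_const_zero, zero_add]
  exact Matrix.mulVec_zero _

theorem sm_sg (k : I) : M.Sm (sg S.toDk k) := (S.wt k).nr_sm (S.hol k).toSecC

theorem sg_nn (k : I) (x : M.X) : 0 ≤ sg S.toDk k x := Mf.nrC_nonneg _ _ x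

theorem of_open : IsOpen (Of S.toDk) := by
  rw [Of, ofPred_forall]
  exact isOpen_iInter_of_finite fun k => isOpen_ne_fun (sm_sg k).continuous continuous_const

/-- A global section that agrees with `T` near a compact set. -/
theorem ext [M.Cpt] (hK : Cp S K) (hT : HO S m T) : ∃ U, (lk S.H m).Sec U ∧
    ∀ x ∈ K, M.ev U x = M.ev T x ∧ ∀ D : Op M (Fs n), M.ev (D.ap U) x = M.ev (D.ap T) x := by
  obtain ⟨ρ, hρ, -, h1, h2⟩ := (mCOV n M).2.2.2.2.2 K _ hK.1.isClosed of_open hK.2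
  refine ⟨sm M ρ T, ⟨fun e he z hz => ?_, fun e he e' he' x hx hx' => ?_⟩, fun x hx => ?_⟩
  · by_cases c : e.symm z ∈ Of S.toDk
    · exact (hρ.lc e he z hz).smul (contDiffAt_pi.2 fun i =>
        ((mHOL n _ _).2.2 (hT.hol e he z hz c i)).1)
    · have h3 : ∀ᶠ w in 𝓝 z, ρ (e.symm w) = 0 := (e.continuousAt_symm hz).eventually
        (notMem_tsupport_iff_eventuallyEq.1 fun h => c (h2 h))
      refine (contDiffAt_const (c := 0)).congr_of_eventuallyEq (h3.mono fun w hw => ?_)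
      simp only [sm, hw, Complex.ofReal_zero, zero_smul]
  · simp only [sm, e.left_inv hx, e'.left_inv hx', Matrix.mulVec_smul]
    by_cases c : x ∈ Of S.toDk
    · rw [hT.cmp e he e' he' x hx hx' c]
      simp [lam, kan, K3E.triv, Mf.Co.tw, Matrix.smul_mulVec]
    · rw [image_eq_zero_of_notMem_tsupport fun h => c (h2 h), Complex.ofReal_zero, zero_smul,
        zero_smul]
  · have h3 : ∀ᶠ w in 𝓝 (M.ch x x), ρ ((M.ch x).symm w) = 1 :=
      ((M.ch x).continuousAt_symm (Mf.ch_tgt x)).eventually (by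
        rw [Mf.ch_symm]
        exact h1.filter_mono (nhds_le_nhdsSet hx))
    have h4 : sm M ρ T (M.ch x) =ᶠ[𝓝 (M.ch x x)] T (M.ch x) := h3.mono fun w hw => by
      simp only [sm, hw, Complex.ofReal_one, one_smul]
    exact ⟨h4.self_of_nhds, fun D => ap_loc D h4⟩

theorem sm_pj (h : ∀ ε ∈ Ioc (0 : ℝ) 1, M.Sm (a ε)) (j : ℕ) :
    M.Sm (tp a q j) ∧ M.Sm (pj S a q j) := by
  have h1 : M.Sm (tp a q j) := Mf.Sm.comp (φ := q.χ j) (fun _ => (q.sm j).contDiffAt) (h _ (q.e0 j))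
  exact ⟨h1, (S.su.add h1).add (Mf.Sm.sum fun k _ => Mf.Sm.const_mul _ (Mf.Sm.log
    ((sm_sg k).add (Mf.sm_const _))
    fun x => (add_pos_of_nonneg_of_pos (sg_nn k x) (q.d0 j).1).ne'))⟩

/-- Comparison of the two weights on a compact set. -/
theorem cmpK (hK : Cp S K) (c : ℝ) : ∃ C : ℝ, 0 ≤ C ∧ ∀ j, ∀ x ∈ K,
    Real.exp (-(c * pj S a q j x)) ≤ C * Real.exp (-(c * tp a q j x)) := by
  have h1 : ContinuousOn (fun x => |S.u x| + ∑ k, |al S.toDk k| * |Real.log (sg S.toDk k x)|) K :=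
    S.su.continuous.abs.continuousOn.add (continuousOn_finsetSum _ fun k _ =>
      continuousOn_const.mul ((sm_sg k).continuous.continuousOn.log fun x hx => hK.2 hx k).abs)
  obtain ⟨B, hB⟩ := hK.1.exists_bound_of_continuousOn h1
  refine ⟨Real.exp (|c| * B), (Real.exp_pos _).le, fun j x hx => ?_⟩
  rw [← Real.exp_add, Real.exp_le_exp]
  have h2 : |S.u x + ∑ k, al S.toDk k * Real.log (sg S.toDk k x + q.d j)| ≤ B := by
    refine le_trans ?_ ((le_abs_self _).trans (hB x hx))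
    refine (abs_add_le _ _).trans (add_le_add le_rfl ((Finset.abs_sum_le_sum_abs _ _).trans
      (Finset.sum_le_sum fun k _ => ?_)))
    rw [abs_mul]
    refine mul_le_mul_of_nonneg_left ?_ (abs_nonneg _)
    have p : 0 < sg S.toDk k x := (sg_nn k x).lt_of_ne' (hK.2 hx k)
    have h3 := Real.log_le_log p (le_add_of_nonneg_right (q.d0 j).1.le)
    have h4 : Real.log (sg S.toDk k x + q.d j) ≤ 0 :=
      Real.log_nonpos (add_nonneg p.le (q.d0 j).1.le) (by linarith [S.sml k x, (q.d0 j).2])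
    rw [abs_of_nonpos h4]
    linarith [neg_le_abs (Real.log (sg S.toDk k x))]
  have h5 := (neg_le_abs _).trans ((abs_mul c _).trans_le
    (mul_le_mul_of_nonneg_left h2 (abs_nonneg c)))
  simp only [pot]
  linarith

theorem pp_loc {b : Bun M (Fs n)} {U : M.Fam (Fs n → ℂ)} (h0 : ∀ x ∉ K, M.ev y x = 0)
    (h : ∀ x ∈ K, M.ev U x = M.ev T x) : b.pp y U = b.pp y T := by
  funext x
  by_cases c : x ∈ K
  · rw [Bun.pp, Bun.pp, h x c]
  · rw [Bun.pp, Bun.pp, h0 x c, star_zero, zero_dotProduct, zero_dotProduct]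

/-- The weighted product with a section supported off the divisors. -/
def wi (S : Sd M I) (a : ℝ → M.X → ℝ) (q : Sq) (m j : ℕ) (y T : M.Fam (Fs n → ℂ)) : ℂ :=
  ∫ x, (Real.exp (-(((m : ℝ) - 1) * pj S a q j x)) : ℂ) * (lk S.H m).pp y T x ∂M.mu S.H

/-- The adjoint of `Q`, and the orthogonality of the images. -/
theorem adj [M.Cpt] (h : ∀ ε ∈ Ioc (0 : ℝ) 1, M.Sm (a ε)) (hK : Cp S K) (hT : HO S m T)
    (hy : (lk S.H m).Sec y) (h0 : ∀ x ∉ K, M.ev y x = 0) (j : ℕ) :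
    wi S a q m j ((oQ S.H).ap y) T = -wi S a q m j y (Pd S a q m j T) ∧
      wi S a q m j ((oQ S.H).ap y) (Pd S a q m j T) = 0 := by
  have hH := S.kae.toMet
  have w := (K3E.bKAN n M S.H m hH).1
  obtain ⟨-, -, a1⟩ := aLAM n M S.H _ _ hH w
  obtain ⟨U, hU, h1⟩ := ext hK hT
  have h2 := ap_off (oQ S.H) hy hK.1.isClosed h0
  obtain ⟨a2, a3⟩ := a1 fun x => ((m : ℝ) - 1) * pj S a q j x
  have w2 := (a2 ((sm_pj h j).2.const_mul _)).1
  have ad := aADJ n M S.H _ _ y U S.kae w2 ⟨hy.sm, hy.cmp⟩ ⟨hU.sm, hU.cmp⟩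
  have sk := ((aSKW n M S.H _ _ S.kae w2).2.2 y ⟨hy.sm, hy.cmp⟩).2.1 U ⟨hU.sm, hU.cmp⟩
  simp only [Bun.ip, (a3 _ _ _).1] at ad sk
  rw [pp_loc h2 fun x hx => (h1 x hx).1, pp_loc h0 fun x hx => (h1 x hx).2 _] at ad
  rw [pp_loc h2 fun x hx => (h1 x hx).2 _] at sk
  simp only [wi, mul_comm _ ((lk S.H m).pp _ _ _)]
  exact ⟨ad, sk⟩

/-- The error term. -/
theorem err [M.Cpt] (h : ∀ ε ∈ Ioc (0 : ℝ) 1, M.Sm (a ε)) (hK : Cp S K) (hT : HO S m T)
    (hR : HO S m R) (hL : Lq S a q m T R) (hy : (lk S.H m).Sec y) (h0 : ∀ x ∉ K, M.ev y x = 0) :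
    Tendsto (fun j => wi S a q m j y (Pd S a q m j T) - wi S a q m j y R) atTop (𝓝 0) := by
  have hH := S.kae.toMet
  have w := (K3E.bKAN n M S.H m hH).1
  obtain ⟨ob, -, a1⟩ := aLAM n M S.H _ _ hH w
  let g : Geo M (Fs n) := ⟨S.H, lk S.H m, hH, ob⟩
  have it := (mMU n M S.H hH).2.2.2.2.1
  obtain ⟨B, B0, hB⟩ := (ob.pp_rep hy hy).2.re.exists_bound
  obtain ⟨C, C0, hC⟩ := cmpK (a := a) (q := q) hK ((m : ℝ) - 1)
  obtain ⟨U, hU, h1⟩ := ext hK hT
  obtain ⟨V, hV, h2⟩ := ext hK hR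
  have lim := (hL K hK ((m : ℝ) - 1)).const_mul (C * √B)
  rw [mul_zero] at lim
  refine squeeze_zero_norm (fun j => ?_) lim
  have su := (sm_pj (S := S) (q := q) h j).2.const_mul ((m : ℝ) - 1)
  have hP := aSP n M S.H _ _ U hH ((a1 _).1 su).1 ⟨hU.sm, hU.cmp⟩
  have hP' : (lk S.H m).Sec (Pd S a q m j U) := ⟨hP.sm, hP.cmp⟩
  have hD : (lk S.H m).Sec (Pd S a q m j U - V) := (lk S.H m).secs.sub_mem hP' hV
  have cE := su.neg.exp.ofReal.continuous
  have e1 : ∀ x ∈ K, (lk S.H m).pn (Pd S a q m j T - R) x = (lk S.H m).pn (Pd S a q m j U - V) x :=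
    fun x hx => by
      have e2 : M.ev (Pd S a q m j T - R) x = M.ev (Pd S a q m j U - V) x :=
        (congrArg₂ (· - ·) ((h1 x hx).2 _) (h2 x hx).1).symm
      rw [Bun.pn, Bun.pn, Bun.pp, Bun.pp, e2]
  have mK := hK.1.isClosed.measurableSet
  rw [wi, wi, ← pp_loc h0 fun x hx => (h1 x hx).2 _, ← pp_loc h0 fun x hx => (h2 x hx).1,
    ← integral_sub (it ℂ _ (cE.fun_mul (ob.pp_rep hy hP').2.continuous))
      (it ℂ _ (cE.fun_mul (ob.pp_rep hy hV).2.continuous)),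
    setIntegral_congr_fun mK fun x hx => by rw [e1 x hx], ← integral_const_mul,
    ← integral_indicator mK]
  refine norm_integral_le_of_norm_le (((it ℝ _ ((((sm_pj (S := S) h j).1.const_mul
    _).neg.exp.continuous).mul (ob.pp_rep hD hD).2.re.continuous.sqrt)).const_mul _).indicator mK)
    (Eventually.of_forall fun x => ?_)
  have e3 : (lk S.H m).pp y (Pd S a q m j U) x - (lk S.H m).pp y V x =
      (lk S.H m).pp y (Pd S a q m j U - V) x := by
    simp only [Bun.pp, Mf.ev, Pi.sub_apply, Matrix.mulVec_sub, dotProduct_sub]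
  rw [← mul_sub, e3]
  by_cases c : x ∈ K
  · rw [indicator_of_mem c, norm_mul, Complex.norm_real, Real.norm_of_nonneg (Real.exp_pos _).le,
      mul_mul_mul_comm]
    exact mul_le_mul (hC j x c) ((EV.pcs g _ _ x).trans (mul_le_mul_of_nonneg_right
      (Real.sqrt_le_sqrt ((le_abs_self _).trans (hB x))) (Real.sqrt_nonneg _))) (norm_nonneg _)
      (mul_nonneg C0 (Real.exp_pos _).le)
  · rw [indicator_of_notMem c, Bun.pp, h0 x c, star_zero, zero_dotProduct, mul_zero, norm_zero]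

/-- A limit of weighted divergences is weakly parallel. -/
theorem wpR [M.Cpt] (h : ∀ ε ∈ Ioc (0 : ℝ) 1, M.Sm (a ε)) (hT : HO S m T) (hR : HO S m R)
    (hL : Lq S a q m T R) : Wp S a q m R := by
  rintro y hy ⟨K, hK, h0⟩
  have h1 := (err h hK hT hR hL (aSQ n M S.H _ _ y S.kae.toMet hy).1
    (ap_off (oQ S.H) hy hK.1.isClosed h0)).neg
  simp only [(adj h hK hT hy h0 _).2, zero_sub, neg_neg, neg_zero] at h1
  exact h1.mono_left Nat.hyperfilter_le_atTop

/-- If the weighted divergences tend to zero, the multivector is weakly parallel. -/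
theorem wpT [M.Cpt] (h : ∀ ε ∈ Ioc (0 : ℝ) 1, M.Sm (a ε)) (hT : HO S m T)
    (hR : M.All fun e z => e.symm z ∈ Of S.toDk → R e z = 0) (hL : Lq S a q m T R) :
    Wp S a q m T := by
  rintro y hy ⟨K, hK, h0⟩
  have hR' : HO S m R := ⟨fun e he z hz c i => by
    have h1 : ∀ᶠ w in 𝓝 z, R e w i = 0 := by
      filter_upwards [(e.continuousAt_symm hz).eventually (of_open.mem_nhds c),
        e.open_target.mem_nhds hz] with w hw ht using congrFun (hR e he w ht hw) i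
    exact h1.eventually_nhds.mono fun w hw =>
      (differentiableAt_const (0 : ℂ)).congr_of_eventuallyEq hw,
    fun e he e' he' x hx hx' c => by
      rw [hR e he _ (e.map_source hx) (by rwa [e.left_inv hx]),
        hR e' he' _ (e'.map_source hx') (by rwa [e'.left_inv hx']), Matrix.mulVec_zero, smul_zero]⟩
  have h1 := (err h hK hT hR' hL hy h0).neg
  have h2 : ∀ j, wi S a q m j y R = 0 := fun j => by
    rw [wi, pp_loc (U := R) (T := 0) h0 fun x hx =>
      hR _ (Mf.ch_mem x) _ (Mf.ch_tgt x) (by rw [Mf.ch_symm]; exact hK.2 hx)]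
    simp only [Bun.pp, Mf.ev, Pi.zero_apply, Matrix.mulVec_zero, dotProduct_zero, mul_zero,
      integral_zero]
  simp only [h2, sub_zero, ← (adj h hK hT hy h0 _).1, neg_zero] at h1
  exact h1.mono_left Nat.hyperfilter_le_atTop

end Pool.Agent.Lib.N4S.G87
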