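import Pool.Agent.Lib.N4S.Blue
import Pool.Agent.Lib.N4S.Gen87

/-! Project n4s: the limit of the divergences. -/

namespace Pool.Agent.Lib.N4S

theorem st_GEN : St_GEN := fun n M _ I _ S a q m T R h _ hT hR hL =>
  have k : HO S m T := ⟨fun e he z hz _ => hT.hol e he z hz,
    fun e he e' he' x hx hx' _ => hT.cmp e he e' he' x hx hx'⟩
  ⟨G87.wpR h.out.sm k hR hL, fun h0 => G87.wpT h.out.sm k h0 hL⟩

end Pool.Agent.Lib.N4S
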