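import Pool.Agent.Lib.N4S.Blue
import Pool.Agent.Lib.N4S.Spw84

/-! Project n4s: the hard Lefschetz theorem for one class. -/

open scoped Classical Topology ContDiff ComplexOrder Matrix
open Set Filter MeasureTheory Complex

noncomputable section

namespace Pool.Agent.Lib.N4S

open Pool.Agent.Lib.SV (E)
open Pool.Agent.Lib.HS32 Pool.Agent.Lib.KP Pool.Agent.Lib.HLK Pool.Agent.Lib.F4 Pool.Agent.Lib.NU4
open Pool.Agent.Lib.K3E (kan wk lk)
open Pool.Agent.Lib.EXH (aw)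
open Pool.Agent.Lib.N4S.Lim84 Pool.Agent.Lib.N4S.Spw84

theorem st_HLX : St_HLX := fun n M _ H L φ w x hn hH h hx hQ => by
  have hm := hH.toMet
  obtain ⟨-, -, a0⟩ := aLAM n M H L φ hm h.wt
  refine ((adm_nc h).dich hn hH h.wt (hyperfilter ℕ) Nat.hyperfilter_le_atTop hx hQ).imp_right
    fun ⟨V, v1, v2, v3, c, c0, hc⟩ => ⟨V, v1, v2, fun y hy => (v3 y hy).congr fun j => ?_,
      fun t => ?_⟩
  · simp only [Bun.ip, fun x => ((a0 (w j)).2 ((oQ H).ap y) V x).1, mul_comm]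
  · have t2 := (continuous_re.tendsto _).comp t
    obtain ⟨j, h1, h3⟩ := (hc.and ((tendsto_order.1 t2).2 c (by simpa using c0))).exists
    obtain ⟨o1, -, -⟩ := aLAM n M H _ _ hm ((a0 _).1 (h.sm j)).1
    let g : Geo M (Fs n) := ⟨H, _, hm, o1⟩
    have s := NEAR.re_symm (Pre.mk (g := g) x (sw _ hx)) (Pre.mk (g := g) V (sw _ v1))
    exact absurd (h1.trans_eq s) (not_le.2 h3)

end Pool.Agent.Lib.N4S
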