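import Pool.Agent.Lib.N4S.Defs
import Pool.Agent.Lib.NU4.Inf69
import Pool.Agent.Lib.KF.All

/-! Project n4s: without pluricanonical forms, only finitely many levels carry tensors. -/

open scoped Classical Topology Matrix
open Set Filter

noncomputable section

namespace Pool.Agent.Lib.N4S.S33

open Pool.Agent.Lib.HS32 Pool.Agent.Lib.HLK Pool.Agent.Lib.NU4 Pool.Agent.Lib.KS
open Pool.Agent.Lib.K3S (Dk bSG)
open Pool.Agent.Lib.RAA (kp)
open Pool.Agent.Lib.K3E (Tw)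

variable {n : ℕ} {M : Mf n} [M.Cpt] {I : Type} [Fintype I] {D : Dk M I}

theorem inf_k (am : AmpM D) (ns : NoS M) (q : ℕ) : {a | ∃ s : M.Fam ((Fin q → Fin n) → ℂ),
    Tw M (fun e e' x => kp q (M.J e e' x)) a s}.Finite := by
  refine by_contra fun c => ?_
  obtain ⟨P, p⟩ := dkp D
  have hM : KX.Mv4 P.L 0 := by
    refine KF.mv4 am p.law (C := 1) (β := (id : Fin q → Fin q)) (Set.Infinite.of_image (q + ·)
      ((Set.Infinite.sdiff c (finite_lt_nat q)).mono ?_))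
    rintro a ⟨⟨s, hs⟩, ha⟩
    obtain ⟨b, rfl⟩ := Nat.exists_eq_add_of_le (Nat.le_of_not_lt ha)
    refine ⟨b, ⟨1, fun _ => s, by simp, fun c hc => ?_, fun _ => ⟨⟨fun e he z hz _ => ?_,
      fun e he e' he' x hx hx' _ => ?_⟩, fun e he z hz I p p' h1 h2 => absurd h2 h1⟩⟩, rfl⟩
    · obtain ⟨e, he, z, hz, h⟩ := hs.nz
      have := hc e he z hz
      beta_reduce at this
      rw [Fin.sum_univ_one, smul_eq_zero, or_iff_left h] at this
      exact funext fun i => by rw [Subsingleton.elim i 0, this]; rfl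
    · filter_upwards [eventually_all.2 fun i => hs.hol e he z hz i] with w hw
      exact differentiableAt_pi.2 hw
    · beta_reduce
      rw [hs.cmp e he e' he' x hx hx', smul_smul, mul_inv_cancel₀ (pow_ne_zero _
        ((mTR n M).2.1 e he e' he' x hx hx').2.1), one_smul]
  obtain ⟨Y, m, m0, -, -, y1, y2⟩ := KX.aTK4 HS21.st_AUBIN P 0 hM (p.neg am)
  obtain ⟨C, h⟩ := GL3.gk KU.aK6 Y m0 y1 y2
  obtain ⟨j, ⟨k, t, t1, t2, t3⟩, j0⟩ := (h.sdiff (finite_singleton 0)).nonempty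
  obtain ⟨t', t4, t5⟩ := sc_mul bSG D t2 fun s => p.sc (t3 s)
  have k0 : 0 < k := Nat.pos_of_ne_zero fun h => by simp [h] at t1
  have z := ns _ (Nat.mul_pos (Nat.pos_of_ne_zero j0) D.c0) _ (t5 ⟨0, k0⟩)
  have := congrFun (t4 (Pi.single ⟨0, k0⟩ 1) fun e he w hw => by
    simpa [Pi.single_apply] using z e he w hw) ⟨0, k0⟩
  simp at this

theorem inf (am : AmpM D) (ns : NoS M) :
    {m | ∃ W, HM M m W ∧ Nz W}.Finite ∧ {m | ∃ h, HM2 M m h ∧ Nz h}.Finite := by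
  refine ⟨((finite_Iic n).biUnion fun q _ => inf_k am ns q).subset fun m ⟨W, w, nz⟩ => ?_,
    ((finite_Iic (n + n)).biUnion fun q _ => inf_k am ns q).subset fun m ⟨h, hh, nz⟩ => ?_⟩
  · obtain ⟨q, hq, s, s1, -⟩ := KT.tLAM n M m W ⟨w.hol, nz, w.cmp⟩
    exact mem_biUnion hq ⟨s, s1⟩
  · obtain ⟨q, hq, s⟩ := I69.two hh nz
    exact mem_biUnion hq s

end Pool.Agent.Lib.N4S.S33
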