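import Pool.Agent.Lib.N4S.Blue
import Pool.Agent.Lib.N4S.Inf33

/-! Project n4s, row INF. -/

namespace Pool.Agent.Lib.N4S

theorem st_INF : St_INF := fun _ _ _ _ _ S ns => S33.inf S.amp ns

end Pool.Agent.Lib.N4S
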