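import Pool.Agent.Lib.NU4.Kv53b
import Pool.Agent.Lib.F4H.Vol38
import Pool.Agent.Lib.ZE.N_AUB
import Pool.Agent.Lib.ZK.B_UP
import Pool.Agent.Lib.KP21.E21

/-! Project n4s: a section of degree `n - 1` on which the forms close to a nef class are small
bounds the volume of the class. -/

open scoped Classical Topology ContDiff ComplexOrder Matrix
open Set Filter MeasureTheory

set_option linter.unusedVariables false

noncomputable section

namespace Pool.Agent.Lib.N4S.K82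

open Pool.Agent.Lib.SV (E)
open Pool.Agent.Lib.HS32 Pool.Agent.Lib.HS32.Mf Pool.Agent.Lib.HLK Pool.Agent.Lib.F4

theorem prod_le {q : ℕ} (a p : Fin (q + 1) → ℝ) (a0 : ∀ i, 0 < a i) (p0 : ∀ i, 0 ≤ p i) :
    0 ≤ (∑ i, a i) * (∑ i, p i) - ∑ i, a i * p i ∧ (∏ i, a i) * (∑ i, p i) ^ q ≤
      (∑ i, a i) * ((∑ i, a i) * (∑ i, p i) - ∑ i, a i * p i) ^ q := by
  obtain ⟨k, -, hk⟩ := Finset.exists_max_image Finset.univ a Finset.univ_nonempty
  have t0 : 0 ≤ ∑ i, p i := Finset.sum_nonneg fun i _ => p0 i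
  have s : ∑ i, a i = a k + ∑ j, a (k.succAbove j) := Fin.sum_univ_succAbove a k
  have r0 : 0 ≤ ∑ j, a (k.succAbove j) := Finset.sum_nonneg fun j _ => (a0 _).le
  have u : ∑ i, a i * p i ≤ a k * ∑ i, p i := by
    rw [Finset.mul_sum]
    exact Finset.sum_le_sum fun i _ => mul_le_mul_of_nonneg_right (hk i (Finset.mem_univ i)) (p0 i)
  have m : (∑ j, a (k.succAbove j)) * ∑ i, p i ≤ (∑ i, a i) * (∑ i, p i) - ∑ i, a i * p i := by
    rw [s]; linarith
  refine ⟨(mul_nonneg r0 t0).trans m, ?_⟩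
  have e : (∏ j, a (k.succAbove j)) * (∑ i, p i) ^ q = ∏ j, (a (k.succAbove j) * ∑ i, p i) := by
    rw [Finset.prod_mul_distrib, Finset.prod_const, Finset.card_univ, Fintype.card_fin]
  rw [Fin.prod_univ_succAbove a k, mul_assoc, e]
  refine mul_le_mul (by rw [s]; linarith) ?_
    (Finset.prod_nonneg fun j _ => mul_nonneg (a0 _).le t0) (by rw [s]; linarith [a0 k])
  refine (Finset.prod_le_prod (fun j _ => mul_nonneg (a0 _).le t0) fun j _ =>
    (mul_le_mul_of_nonneg_right (Finset.single_le_sum (f := fun j => a (k.succAbove j))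
      (fun j _ => (a0 _).le) (Finset.mem_univ j)) t0).trans m).trans_eq ?_
  rw [Finset.prod_const, Finset.card_univ, Fintype.card_fin]

theorem pt {U τ t m ε B : ℝ} {q : ℕ} (hε : 0 < ε) (τ0 : 0 ≤ τ) (τB : τ ≤ B) (t0 : 0 < t)
    (m0 : 0 ≤ m) (h : Real.exp U * τ ^ q ≤ t * m ^ q) :
    τ * U ≤ q + B * t + q * Real.log ε * τ + q * B / ε * m := by
  have q0 : (0 : ℝ) ≤ q := q.cast_nonneg
  have B0 : 0 ≤ B := τ0.trans τB
  rcases τ0.eq_or_lt with rfl | τp
  · have : 0 ≤ q * B / ε * m := by positivity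
    have : 0 ≤ B * t := by positivity
    linarith
  have l : 0 < Real.exp U * τ ^ q := by positivity
  have mq : m ^ q ≠ 0 := fun c => by rw [c, mul_zero] at h; linarith
  have h1 := Real.log_le_log l h
  rw [Real.log_mul (Real.exp_pos U).ne' (by positivity), Real.log_exp, Real.log_mul t0.ne' mq,
    Real.log_pow, Real.log_pow] at h1
  have h2 : Real.log t ≤ t := by linarith [Real.log_le_sub_one_of_pos t0]
  have h3 : q * Real.log m ≤ q * (Real.log ε + m / ε) := by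
    rcases q.eq_zero_or_pos with rfl | qp
    · simp
    have mp : 0 < m := m0.lt_of_ne fun c => mq (by rw [← c]; exact zero_pow qp.ne')
    have := Real.log_le_sub_one_of_pos (div_pos mp hε)
    rw [Real.log_div mp.ne' hε.ne'] at this
    exact mul_le_mul_of_nonneg_left (by linarith) q0
  have h4 : -1 ≤ τ * Real.log τ := by
    have := mul_le_mul_of_nonneg_left (Real.log_le_sub_one_of_pos (inv_pos.2 τp)) τ0
    rw [Real.log_inv, mul_sub, mul_inv_cancel₀ τp.ne'] at this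
    linarith
  have h5 : U ≤ t + q * (Real.log ε + m / ε) - q * Real.log τ := by linarith
  have h6 := mul_le_mul_of_nonneg_left h5 τ0
  have h7 := mul_le_mul_of_nonneg_left h4 q0
  have h8 := mul_le_mul_of_nonneg_right τB t0.le
  have h9 : τ * (q * (m / ε)) ≤ B * (q * (m / ε)) :=
    mul_le_mul_of_nonneg_right τB (by positivity)
  have h10 : q * B / ε * m = B * (q * (m / ε)) := by ring
  rw [h10]
  linarith

/-- The pointwise inequality. -/
theorem dq_le {q : ℕ} {M : Mf (q + 1)} {H T A : M.Fam (Mat (q + 1))} (hH : M.Met H) (hT : M.Met T)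
    (A0 : M.Le 0 A) (x : M.X) : 0 < M.tr H T x ∧ 0 ≤ mx M H T A x ∧
      M.dq H T x * M.tr H A x ^ q ≤ M.tr H T x * mx M H T A x ^ q := by
  obtain ⟨a, L, a0, -, LG, L0, h⟩ := F4H.V38.pw (hH.ev_pos x) (hT.ev_pos x)
  have ps : (M.ev A x).PosSemidef := by
    have := AllOn.ch A0 x
    rwa [Pi.zero_apply, Pi.zero_apply, sub_zero] at this
  have e1 : M.tr H T x = ∑ i, a i := (h _).1.trans (Finset.sum_congr rfl fun i _ => LG i)
  have e2 : M.tr H A x = ∑ i, L (M.ev A x) i := (h _).1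
  have e3 : M.ip H T A x = ∑ i, a i * L (M.ev A x) i := (h _).2.1
  have e4 : M.dq H T x = ∏ i, a i := by simpa [dq] using ((h 0).2.2 0 le_rfl).1
  rw [mx, e1, e2, e3, e4]
  exact ⟨Finset.sum_pos (fun i _ => a0 i) Finset.univ_nonempty, prod_le a _ a0 (L0 _ ps)⟩

/-- A semipositive form that is almost killed by the forms close to a nef class. -/
theorem kvA {n q : ℕ} {M : Mf n} [M.Cpt] {H θ A : M.Fam (Mat n)} {C : ℝ} (hq : q + 1 = n)
    (hH : M.Kae H) (hθ : M.Clo θ) (hA : M.Form A) (A0 : M.Le 0 A) (nz : ∃ x, M.tr H A x ≠ 0)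
    (nef : ∀ ε ∈ Ioc (0 : ℝ) 1, ∃ φ, M.Sm φ ∧ M.Kae (θ + ε • H + M.hs φ))
    (sml : ∀ ε ∈ Ioc (0 : ℝ) 1, ∀ u, M.Sm u → M.Kae (θ + ε • H + M.hs u) →
      ∫ x, mx M H (θ + ε • H + M.hs u) A x ∂M.mu H ≤ C * ε) :
    ∃ K : ℝ, ∀ ε ∈ Ioc (0 : ℝ) 1, ∫ x, M.dq H (θ + ε • H) x ∂M.mu H ≤ K * ε ^ q := by
  subst hq
  have hm := hH.toMet
  obtain ⟨-, fin, op, hv, hint, -⟩ := mMU _ M H hm
  obtain ⟨i1, -, i3, -⟩ := mINV _ M H hm
  obtain ⟨C₀, C0, hC, -⟩ := (mBD _ M H hm).1 θ hθ.toForm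
  obtain ⟨D, D0, hD, -⟩ := mPSH _ M H (C₀ + 1) hm
  have sτ := (i1 A hA.toTen).2.1
  have τ0 : ∀ x, 0 ≤ M.tr H A x := hm.tr_nonneg A0
  obtain ⟨B, B0, hB⟩ := sτ.exists_bound
  have τB : ∀ x, M.tr H A x ≤ B := fun x => (le_abs_self _).trans (hB x)
  have iτ := hint ℝ _ sτ.continuous
  have J0 : 0 < ∫ x, M.tr H A x ∂M.mu H := by
    obtain ⟨x, hx⟩ := nz
    exact sτ.continuous.integral_pos_of_hasCompactSupport_nonneg_nonzero
      (HasCompactSupport.of_compactSpace _) τ0 hx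
  set v := (M.mu H).real univ with hvd
  set J := ∫ x, M.tr H A x ∂M.mu H with hJ
  set R := q * v + B * ((C₀ + 1) * (q + 1 : ℕ) * v) + q * B * C + B * D with hR
  refine ⟨v * Real.exp (R / J), fun ε hε => ?_⟩
  obtain ⟨φ, sφ, kφ⟩ := nef ε hε
  obtain ⟨U, sU, kU, dU⟩ := ZE.nAUB HS21.st_AUBIN _ M H (θ + ε • H) φ (fun _ => 0) q.succ_pos hm
    sφ kφ (sm_const 0)
  obtain ⟨x₀, hx₀⟩ := sU.exists_max
  have cl : M.Clo (θ + ε • H) := hθ.add (hH.toClo.smul ε)
  have le : M.Le (θ + ε • H) ((C₀ + 1) • H) := by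
    rw [add_smul]
    exact hC.add (hm.le_smul hε.2)
  have su : M.Sm fun x => U x - U x₀ := sU.sub (sm_const _)
  have h1 := hD _ su ((ZK.UP.met_sub_const sU (U x₀) kU.toMet).nonneg.trans (le.add (Le.refl _)))
    (fun x => sub_nonpos.2 (hx₀ x)) ⟨x₀, sub_self _⟩
  have st := (i1 _ kU.toTen).2.1
  have sx : M.Sm (mx M H (θ + ε • H + M.hs U) A) := (st.mul sτ).sub (i3 _ _ kU.toTen hA.toTen).2.1
  have it := hint ℝ _ st.continuous
  have ix := hint ℝ _ sx.continuous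
  have iu := hint ℝ _ su.continuous
  have sl := ((mLAP _ M U U sU sU).2.2 H hm).1
  have h2 : ∫ x, M.tr H (θ + ε • H + M.hs U) x ∂M.mu H ≤ (C₀ + 1) * (q + 1 : ℕ) * v := by
    have := integral_mono it ((integrable_const ((C₀ + 1) * ((q + 1 : ℕ) : ℝ))).add
      (hint ℝ _ sl.continuous)) fun x => by
        have := hm.tr_mono le x
        rw [tr_smul, hm.tr_self] at this
        rw [tr_add]
        exact add_le_add this le_rfl
    simp only [Pi.add_apply] at this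
    rw [integral_add (integrable_const _) (hint ℝ _ sl.continuous),
      ((mGRN _ M).2 H U U hH sU sU).1, integral_const, smul_eq_mul] at this
    linarith
  have j1 : Integrable (fun x => (q : ℝ) + B * M.tr H (θ + ε • H + M.hs U) x) (M.mu H) :=
    (integrable_const _).add (it.const_mul _)
  have j2 : Integrable (fun x => (q : ℝ) + B * M.tr H (θ + ε • H + M.hs U) x +
      q * Real.log ε * M.tr H A x) (M.mu H) := j1.add (iτ.const_mul _)
  have h3 : ∫ x, (U x₀ * M.tr H A x + B * (U x - U x₀)) ∂M.mu H ≤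
      ∫ x, ((q : ℝ) + B * M.tr H (θ + ε • H + M.hs U) x + q * Real.log ε * M.tr H A x +
        q * B / ε * mx M H (θ + ε • H + M.hs U) A x) ∂M.mu H := by
    refine integral_mono ((iτ.const_mul _).add (iu.const_mul _)) (j2.add (ix.const_mul _))
      fun x => ?_
    obtain ⟨t0, m0, p⟩ := dq_le hm kU.toMet A0 x
    rw [dU x, add_zero] at p
    have := mul_le_mul_of_nonneg_right (τB x) (sub_nonneg.2 (hx₀ x))
    have := pt hε.1 (τ0 x) (τB x) t0 m0 p
    beta_reduce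
    linarith
  rw [integral_add (iτ.const_mul _) (iu.const_mul _), integral_add j2 (ix.const_mul _),
    integral_add j1 (iτ.const_mul _), integral_add (integrable_const _) (it.const_mul _),
    integral_const_mul, integral_const_mul, integral_const_mul, integral_const_mul,
    integral_const_mul, integral_const, smul_eq_mul, ← hvd, ← hJ] at h3
  have h4 : q * B / ε * ∫ x, mx M H (θ + ε • H + M.hs U) A x ∂M.mu H ≤ q * B * C := by
    have := hε.1
    refine (mul_le_mul_of_nonneg_left (sml ε hε U sU kU) (by positivity)).trans_eq ?_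
    field_simp
  have h5 : U x₀ ≤ R / J + q * Real.log ε := by
    have a := mul_le_mul_of_nonneg_left h1 B0.le
    have b := mul_le_mul_of_nonneg_left h2 B0.le
    rw [← sub_le_iff_le_add, le_div_iff₀ J0, hR]
    linarith
  rw [← mCOH _ M H _ U hm cl sU]
  calc _ ≤ ∫ x, Real.exp (U x₀) ∂M.mu H :=
        integral_mono (hint ℝ _ (i1 _ kU.toTen).2.2.2.1.continuous) (integrable_const _) fun x => by
          rw [dU x, add_zero]
          exact Real.exp_le_exp.2 (hx₀ x)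
    _ = v * Real.exp (U x₀) := by rw [integral_const, smul_eq_mul]
    _ ≤ v * Real.exp (R / J + q * Real.log ε) :=
        mul_le_mul_of_nonneg_left (Real.exp_le_exp.2 h5) hv.le
    _ = _ := by rw [Real.exp_add, ← Real.log_pow, Real.exp_log (pow_pos hε.1 q), mul_assoc]

/-- A section of degree `n - 1` that is almost killed by the forms close to a nef class. -/
theorem kva {n q : ℕ} {M : Mf n} [M.Cpt] {H θ : M.Fam (Mat n)} {L : M.Co} {φ : M.Fam ℝ}
    {W : M.Fam (Fs n → ℂ)} {C : ℝ} (hq : q + 1 = n) (hH : M.Kae H) (hθ : M.Clo θ)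
    (hφ : M.WtC L φ) (hW : (lam H L φ).Sec W)
    (hd : M.All fun e z => ∀ A : Fs n, A.card ≠ q → W e z A = 0) (nz : Nz W)
    (nef : ∀ ε ∈ Ioc (0 : ℝ) 1, ∃ u, M.Sm u ∧ M.Kae (θ + ε • H + M.hs u))
    (sml : ∀ ε ∈ Ioc (0 : ℝ) 1, ∀ u, M.Sm u → M.Kae (θ + ε • H + M.hs u) →
      ∫ x, cu (θ + ε • H + M.hs u) (lam H L φ) W x ∂M.mu H ≤ C * ε) :
    ∃ K : ℝ, ∀ ε ∈ Ioc (0 : ℝ) 1, ∫ x, M.dq H (θ + ε • H) x ∂M.mu H ≤ K * ε ^ q := by
  have hm := hH.toMet
  have ok := (aLAM n M H L φ hm hφ).1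
  obtain ⟨A, hA, A0, -, tA, cA⟩ := NU4.K53.kv1 hm hφ hq hW hd
  refine kvA (C := C) hq hH hθ hA A0 ?_ nef fun ε hε u su ku => ?_
  · obtain ⟨e, he, z, hz, ne⟩ := nz
    refine ⟨e.symm z, ?_⟩
    rw [tA, Bun.pn, (ok.pp_rep hW hW).1 e he z hz]
    exact (Complex.pos_iff.1 ((ok.pos e he z hz).dotProduct_mulVec_pos ne)).1.ne'
  · simpa only [cA] using sml ε hε u su ku

end Pool.Agent.Lib.N4S.K82
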