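import Pool.Agent.Lib.N4S.Blue
import Pool.Agent.Lib.N4S.Kva82
import Pool.Agent.Lib.NU4.B_KIT
import Pool.Agent.Lib.K3S.B_MS
import Pool.Agent.Lib.K3E.B_KAN

/-! Project n4s: the vanishing theorem in degree `n - 1`. -/

open scoped Classical Topology Matrix
open Set Filter MeasureTheory

noncomputable section

namespace Pool.Agent.Lib.N4S

open Pool.Agent.Lib.HS32 Pool.Agent.Lib.HLK Pool.Agent.Lib.F4 Pool.Agent.Lib.NU4

theorem st_KV : St_KV := fun n M _ I _ S a m r T hz hr hT hd nz ⟨C, _, sml⟩ => by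
  have hm := S.kae.toMet
  have e : bf S - M.ric S.H = S.toDk.T + M.hs S.u := by
    simp only [bf, al, K3S.Dk.T]
    abel
  have cT := K3S.MS.clo S.toDk
  have cl : M.Clo (bf S - M.ric S.H) := e ▸ cT.add ((mHES n M).1 _ S.su)
  obtain ⟨K, hK⟩ := K82.kva (C := C) hr S.kae cl (K3E.bKAN n M S.H m hm).1
    ((K92.hm_iff S.H).1 hT).1 hd nz (fun ε hε => ⟨a ε, hz.out.sm ε hε, hz.out.kae ε hε⟩)
    fun ε hε u su ku => sml ε u hε.1.le su ku.toMet.nonneg
  refine ⟨K, fun ε hε => ?_⟩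
  have := hK ε hε
  rw [e, add_right_comm, mCOH n M S.H _ S.u hm (cT.add (S.kae.toClo.smul ε)) S.su] at this
  rwa [show n - 1 = r by omega]

end Pool.Agent.Lib.N4S
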