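import Pool.Agent.Lib.N4S.Lb5c

/-! Project n4s: the integral bounds for weakly parallel multivectors. -/

open scoped Classical Topology ContDiff ComplexOrder Matrix
open Set Filter MeasureTheory

noncomputable section

namespace Pool.Agent.Lib.N4S.L5

open Pool.Agent.Lib.SV (E)
open Pool.Agent.Lib.HS32 Pool.Agent.Lib.HLK Pool.Agent.Lib.F4 Pool.Agent.Lib.NU4
open Pool.Agent.Lib.K3E (kan wk lk bKAN)

variable {n : ℕ} {M : Mf n} {I : Type} [Fintype I] {S : Sd M I} {a : ℝ → M.X → ℝ} {q : Sq}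
  {m : ℕ} {T : M.Fam (Fs n → ℂ)} {K : Set M.X}

theorem pn_eq (H : M.Fam (Mat n)) (U : M.Fam (Fs n → ℂ)) (x : M.X) : (lk H m).pn U x =
    Real.exp (-M.ev (wk H m) x) * ng (M.ev H x) (M.ev U x) := by
  simp only [Bun.pn, Bun.pp, lam, ng, Mf.ev, Matrix.smul_mulVec, dotProduct_smul, smul_eq_mul,
    Complex.re_ofReal_mul]

theorem ng_sc (H : Mat n) (c : ℝ) (Y : Fs n → ℂ) : ng H ((c : ℂ) • Y) = c ^ 2 * ng H Y := by
  simp only [ng, star_smul, Matrix.mulVec_smul, smul_dotProduct, dotProduct_smul, smul_eq_mul,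
    RCLike.star_def, Complex.conj_ofReal, Complex.re_ofReal_mul]
  ring

theorem lg_ct (hK : Cp S K) (w : I → ℕ) {g : M.X → ℝ} (hg : M.Sm g) :
    ContinuousOn (A23.lg S.toDk w g) K :=
  (continuousOn_finsetSum _ fun k _ => continuousOn_const.mul
    ((A23.sg_sm S.toDk k).continuous.continuousOn.log fun _ hx => hK.2 hx k)).sub
    hg.continuous.continuousOn

/-- The integral bounds. -/
theorem lb1 [M.Cpt] (h1 : 1 ≤ m) (hZ : Zs S a) (hT : HO S m T) (hP : Wp S a q m T) :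
    ∃ (w : I → ℕ) (g : M.X → ℝ) (B : ℝ), (∀ k, 0 < w k) ∧ M.Sm g ∧
      (∀ K, Cp S K →
        IntegrableOn (fun x => (lk S.H m).pn T x / pw S.toDk (m - 1) x) K (M.mu S.H) ∧
        ∫ x in K, (lk S.H m).pn T x / pw S.toDk (m - 1) x ∂M.mu S.H ≤ B) ∧
      ∀ (R : ℝ) (K : Set M.X), Cp S K → (∀ x ∈ K, |A23.lg S.toDk w g x + R| ≤ 1 / 4) →
        IntegrableOn (fun x => (lk S.H m).pn (iot M (A23.lg S.toDk w g) T) x /
          pw S.toDk (m - 1) x) K (M.mu S.H) ∧
        ∫ x in K, (lk S.H m).pn (iot M (A23.lg S.toDk w g) T) x / pw S.toDk (m - 1) x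
          ∂M.mu S.H ≤ B := by
  have hm := S.kae.toMet
  have fin := (mMU n M S.H hm).2.1
  have kc := (bKAN n M S.H m hm).1
  have ok := (aLAM n M S.H _ _ hm kc).1
  obtain ⟨w, g, C, c, hw, hg, C0, c0, -, hc⟩ := A23.amp S.amp
  obtain ⟨B, hB⟩ := bound h1 hZ hT hP C0
  have s1 : ∀ k x, sg S.toDk k x ≤ 1 := fun k x => (S.sml k x).trans (by norm_num)
  obtain ⟨t, t0, t1, t2⟩ : ∃ t : ℝ, 0 < t ∧ t ≤ 1 / 2 ∧ t ≤ 1 / 4 * c :=
    ⟨min (1 / 2) (1 / 4 * c), by positivity, min_le_left _ _, min_le_right _ _⟩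
  have key : ∀ (R : ℝ) (K : Set M.X), Cp S K → ∃ G : M.X → ℝ, IntegrableOn G K (M.mu S.H) ∧
      ∫ x in K, G x ∂M.mu S.H ≤ B ∧ ContinuousOn ((lk S.H m).pn T) K ∧
      (∀ x ∈ K, -R - 1 / 4 ≤ A23.lg S.toDk w g x →
        t ^ n * ((lk S.H m).pn T x / pw S.toDk (m - 1) x) ≤ G x) ∧
      ((∀ x ∈ K, |A23.lg S.toDk w g x + R| ≤ 1 / 4) →
        ContinuousOn ((lk S.H m).pn (iot M (A23.lg S.toDk w g) T)) K ∧ ∀ x ∈ K, t ^ n *
          ((lk S.H m).pn (iot M (A23.lg S.toDk w g) T) x / pw S.toDk (m - 1) x) ≤ G x) := by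
    intro R K hK
    obtain ⟨χ, x0, x1, x2, x3, x4, x5⟩ := chi2 R
    obtain ⟨sv, ⟨K1, k1, k2, k3, k4⟩, k5⟩ := A23.cv_sm s1 hw hg x0 x1
    obtain ⟨cl, pv, ge⟩ := A23.ga_ge s1 hw hg x0 x1 C0 c0.le hc x2 x3
    have hU : Cp S (K ∪ K1) := ⟨hK.1.union k1, union_subset hK.2 k2⟩
    obtain ⟨W, hW, hE⟩ := cut hU hT
    have b := hB _ W _ hU hW hE sv (fun x hx => k3 x fun h => hx (Or.inr h)) (fun x hx =>
      (k4 _ (Mf.ch_mem x) _ (Mf.ch_tgt x) (by rw [Mf.ch_symm]; exact fun h => hx (Or.inr h))).1) pv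
    have i := (((pw_ct hU (m - 1)).inv₀ fun x hx => (Nb51.pw_pos (hU.2 hx) _).ne').mul
      (ng_sm cl.toTen kc hW).continuous.continuousOn).integrableOn_compact (μ := M.mu S.H) hU.1
    have e1 : ∀ x ∈ K, M.ev W x = M.ev T x := fun x hx =>
      (hE _ (Mf.ch_mem x) _ (Mf.ch_tgt x) (by rw [Mf.ch_symm]; exact Or.inl hx)).eq_of_nhds
    have up : ∀ x ∈ K, ∀ (A : Mat n) (y : ℝ), A.PosSemidef → y ≤ ng A (M.ev T x) →
        ((deriv χ (A23.lg S.toDk w g x) * c) • M.ev S.H x +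
          deriv (deriv χ) (A23.lg S.toDk w g x) • M.ev (M.ds (A23.lg S.toDk w g)
            (A23.lg S.toDk w g)) x - t • A).PosSemidef →
        t ^ n * (Real.exp (-M.ev (wk S.H m) x) * y / pw S.toDk (m - 1) x) ≤
          (pw S.toDk (m - 1) x)⁻¹ * (Real.exp (-M.ev (wk S.H m) x) *
            ng (M.ev (C • S.β + M.hs (A23.cv S.toDk w g χ)) x) (M.ev W x)) :=
      fun x hx A y hA hy h => by
      have g1 := ge _ (Mf.ch_mem x) _ (Mf.ch_tgt x) (by rw [Mf.ch_symm]; exact hK.2 hx)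
      rw [Mf.ch_symm] at g1
      have g2 := A86.ng_mono (Mf.psd_rsmul hA t0.le)
        (B := M.ev (C • S.β + M.hs (A23.cv S.toDk w g χ)) x)
        ((congrArg Matrix.PosSemidef (by simp only [Mf.ev]; abel)).mp (g1.add h)) (M.ev T x)
      have g3 := (mul_le_mul_of_nonneg_left hy (pow_pos t0 n).le).trans
        ((ng_lo hA t0.le (by linarith) _).trans g2)
      have g4 := mul_le_mul_of_nonneg_left (mul_le_mul_of_nonneg_left g3
        (Real.exp_pos (-M.ev (wk S.H m) x)).le) (inv_pos.2 (Nb51.pw_pos (hK.2 hx) (m - 1))).le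
      rw [e1 x hx]
      exact le_of_eq_of_le (by ring) g4
    have ds := fun x (hx : x ∈ K) => A23.ds_psd (w := w) hg _ (Mf.ch_mem x) _ (Mf.ch_tgt x)
      (by rw [Mf.ch_symm]; exact hK.2 hx)
    have hp := fun x => (hm.ev_pos x).posSemidef
    refine ⟨_, i.mono_set subset_union_left, (setIntegral_mono_set i ?_
      subset_union_left.eventuallyLE).trans b, ?_, fun x hx h => ?_, fun h => ⟨?_, fun x hx => ?_⟩⟩
    · exact Eventually.of_forall fun x => mul_nonneg (inv_nonneg.2 (Nb51.pw_nn _ x))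
        (mul_nonneg (Real.exp_pos _).le (A86.ng_nonneg (by simpa [Mf.ev] using pv.ch x) _))
    · exact (ok.pp_rep hW hW).2.re.continuous.continuousOn.congr fun x hx => by
        simp only [Bun.pn, Bun.pp, e1 x hx]
    · rw [pn_eq]
      refine up x hx _ _ (hp x) le_rfl ((congrArg Matrix.PosSemidef ?_).mp
        ((Mf.psd_rsmul (hp x) (show 0 ≤ deriv χ (A23.lg S.toDk w g x) * c - t by
          nlinarith [x4 _ h])).add (Mf.psd_rsmul (ds x hx).1 (x3 (A23.lg S.toDk w g x)))))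
      simp only [Mf.ev]
      module
    · have si := I20.sec_iot st_FK S.H _ _ sv hW
      have d4 : ∀ x ∈ K, 1 / 4 ≤ deriv χ (A23.lg S.toDk w g x) := fun x hx =>
        x4 _ (by linarith [(abs_le.1 (h x hx)).1])
      refine ((ok.pp_rep si si).2.re.continuous.continuousOn.div
        (((x0.continuous_deriv (by simp)).comp_continuousOn (lg_ct hK w hg)).pow 2)
        fun x hx => pow_ne_zero 2 (by linarith [d4 x hx] :
          0 < deriv χ (A23.lg S.toDk w g x)).ne').congr fun x hx => ?_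
      have g1 := (k5 _ (Mf.ch_mem x) _ (Mf.ch_tgt x) (by rw [Mf.ch_symm]; exact hK.2 hx)).2
      rw [Mf.ch_symm] at g1
      have g2 : M.ev (iot M (A23.cv S.toDk w g χ) W) x =
          ((deriv χ (A23.lg S.toDk w g x) : ℝ) : ℂ) • M.ev (iot M (A23.lg S.toDk w g) T) x := by
        have := e1 x hx
        simp only [Mf.ev] at this
        simp only [Mf.ev, iot, g1, this, anv, Pi.smul_apply, smul_eq_mul, mul_smul,
          ← Finset.smul_sum, Matrix.smul_mulVec]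
      show _ = (lk S.H m).pn _ x / deriv χ (A23.lg S.toDk w g x) ^ 2
      rw [eq_div_iff (pow_ne_zero 2 (by linarith [d4 x hx] :
        0 < deriv χ (A23.lg S.toDk w g x)).ne'), pn_eq, pn_eq, g2, ng_sc]
      ring
    · rw [pn_eq]
      refine up x hx (M.ev S.H x + M.ev (M.ds (A23.lg S.toDk w g) (A23.lg S.toDk w g)) x) _
        ((hp x).add (ds x hx).1) ?_ ((congrArg Matrix.PosSemidef ?_).mp
        ((Mf.psd_rsmul (hp x) (show 0 ≤ deriv χ (A23.lg S.toDk w g x) * c - t by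
          nlinarith [x4 (A23.lg S.toDk w g x) (by linarith [(abs_le.1 (h x hx)).1])])).add
          (Mf.psd_rsmul (ds x hx).1 (show 0 ≤ deriv (deriv χ) (A23.lg S.toDk w g x) - t by
            linarith [x5 _ (h x hx)]))))
      · simp only [Mf.ev]
        rw [(ds x hx).2, R81.ng_r1]
        exact le_add_of_nonneg_left (A86.ng_nonneg (hp x) _)
      · simp only [Mf.ev]
        module
  have fi : ∀ (K : Set M.X) (f G : M.X → ℝ), Cp S K → IntegrableOn G K (M.mu S.H) →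
      ∫ x in K, G x ∂M.mu S.H ≤ B → ContinuousOn f K →
      (∀ x ∈ K, t ^ n * (f x / pw S.toDk (m - 1) x) ≤ G x) →
      IntegrableOn (fun x => f x / pw S.toDk (m - 1) x) K (M.mu S.H) ∧
        ∫ x in K, f x / pw S.toDk (m - 1) x ∂M.mu S.H ≤ B / t ^ n := fun K f G hK i b cf h => by
    have j := (cf.div (pw_ct hK (m - 1)) fun x hx =>
      (Nb51.pw_pos (hK.2 hx) _).ne').integrableOn_compact (μ := M.mu S.H) hK.1
    refine ⟨j, (le_div_iff₀' (pow_pos t0 n)).2 ?_⟩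
    rw [← integral_const_mul]
    exact (setIntegral_mono_on (j.const_mul _) i hK.1.isClosed.measurableSet h).trans b
  refine ⟨w, g, B / t ^ n, hw, hg, fun K hK => ?_, fun R K hK h => ?_⟩
  · obtain ⟨R, hR⟩ := hK.1.exists_bound_of_continuousOn (lg_ct hK w hg)
    obtain ⟨G, i, b, cf, u, -⟩ := key R K hK
    exact fi K _ G hK i b cf fun x hx => u x hx (by linarith [(abs_le.1 (hR x hx)).1])
  · obtain ⟨G, i, b, -, -, u⟩ := key R K hK
    exact fi K _ G hK i b (u h).1 (u h).2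

end Pool.Agent.Lib.N4S.L5
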