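import Pool.Agent.Lib.N4S.Amp23
import Pool.Agent.Lib.EX.K68A
import Pool.Agent.Lib.NU4.Ibp20
import Pool.Agent.Lib.NU4.Pb56a
import Pool.Agent.Lib.NU4.B_FK

/-! Project n4s: multivectors that are holomorphic off the divisors and have a finite weighted norm
come from the bundle of the level; tangency from bounds on shells. -/

open scoped Classical Topology ContDiff ComplexOrder Matrix ENNReal
open Set Filter MeasureTheory

set_option linter.unusedVariables false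

noncomputable section

namespace Pool.Agent.Lib.N4S.R61

open Pool.Agent.Lib.SV (E)
open Pool.Agent.Lib.HS32 Pool.Agent.Lib.HLK Pool.Agent.Lib.F4 Pool.Agent.Lib.NU4
open Pool.Agent.Lib.K3E (kan wk lk)
open Pool.Agent.Lib.K3S (Dk)

variable {n : ℕ} {M : Mf n} {I : Type} [Fintype I]

section euc

variable {J : Type} {U : Set (E n)}

/-- Finitely many continuous functions without an open set of zeros have no common such set. -/
theorem freq_all {X : Type} [TopologicalSpace X] {U : Set X} (hU : IsOpen U) (f : J → X → ℂ)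
    (s : Finset J) (hf : ∀ k ∈ s, ContinuousOn (f k) U)
    (h0 : ∀ k ∈ s, ∀ x ∈ U, ∃ᶠ w in 𝓝 x, f k w ≠ 0) :
    ∀ x ∈ U, ∃ᶠ w in 𝓝 x, ∀ k ∈ s, f k w ≠ 0 := by
  induction s using Finset.induction_on with
  | empty => exact fun x _ => Frequently.of_forall fun w k hk => absurd hk (by simp)
  | insert a s ha ih =>
    intro x hx
    have h1 := ih (fun k hk => hf k (Finset.mem_insert_of_mem hk))
      (fun k hk => h0 k (Finset.mem_insert_of_mem hk))
    have h2 := (h0 a (Finset.mem_insert_self a s) x hx).and_eventually (hU.mem_nhds hx)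
    refine frequently_frequently_nhds.1 (h2.mono fun y hy => ?_)
    have h3 : ∀ᶠ w in 𝓝 y, f a w ≠ 0 :=
      ((hf a (Finset.mem_insert_self a s)).continuousAt (hU.mem_nhds hy.2)).eventually_ne hy.1
    refine ((h1 y hy.2).and_eventually h3).mono fun w hw k hk => ?_
    rcases Finset.mem_insert.1 hk with rfl | hk
    · exact hw.2
    · exact hw.1 k hk

/-- A function with a non-zero derivative is not zero near the point. -/
theorem freq_of_fderiv {f : E n → ℂ} {x : E n} (h : fderiv ℂ f x ≠ 0) : ∃ᶠ w in 𝓝 x, f w ≠ 0 := by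
  intro h1
  have h2 : f =ᶠ[𝓝 x] fun _ => 0 := h1.mono fun w hw => not_not.1 hw
  exact h (by rw [h2.fderiv_eq]; simp)

theorem diff_prod (f : J → E n → ℂ) (s : Finset J) (hf : ∀ k ∈ s, DifferentiableOn ℂ (f k) U) :
    DifferentiableOn ℂ (fun w => ∏ k ∈ s, f k w) U := by
  induction s using Finset.induction_on with
  | empty => simp
  | insert a s ha ih =>
    simp only [Finset.prod_insert ha]
    exact (hf a (Finset.mem_insert_self a s)).fun_mul
      (ih fun k hk => hf k (Finset.mem_insert_of_mem hk))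

/-- A function with a finite integral against the inverse of the squared norm of `f` is zero on
the zero set of `f`. -/
theorem zero_of (hU : IsOpen U) {g f : E n → ℂ} (hg : DifferentiableOn ℂ g U)
    (hf : DifferentiableOn ℂ f U) (h0 : ∀ x ∈ U, ∃ᶠ w in 𝓝 x, f w ≠ 0)
    (hi : ∀ x ∈ U, ∃ V ∈ 𝓝 x, ∫⁻ w in {w | w ∈ V ∧ f w ≠ 0},
      ENNReal.ofReal (‖g w‖ ^ 2 / ‖f w‖ ^ 2) ≠ ⊤) : ∀ w ∈ U, f w = 0 → g w = 0 := by
  obtain ⟨h, -, e⟩ := EX.K68.div_sq hU hg hf h0 (by simpa only [norm_div, div_pow] using hi)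
  intro w hw h1
  rw [e w hw, h1, zero_mul]

end euc

section dk

variable (D : Dk M I) {e : M.Ch} {z : E n}

theorem sg_rep (k : I) (he : e ∈ M.C) (hz : z ∈ e.target) :
    sg D k (e.symm z) = Complex.normSq (D.f k e z) * Real.exp (-D.φ k e z) :=
  (D.wt k).nr_rep (D.hol k).toSecC e he z hz

theorem sg_ne (k : I) (he : e ∈ M.C) (hz : z ∈ e.target) :
    sg D k (e.symm z) ≠ 0 ↔ D.f k e z ≠ 0 := by
  rw [sg_rep D k he hz, mul_ne_zero_iff_right (Real.exp_pos _).ne', ne_eq, Complex.normSq_eq_zero]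

theorem mem_of (he : e ∈ M.C) (hz : z ∈ e.target) : e.symm z ∈ Of D ↔ ∀ k, D.f k e z ≠ 0 :=
  forall_congr' fun k => sg_ne D k he hz

theorem sg_nn (k : I) (x : M.X) : 0 ≤ sg D k x := Mf.nrC_nonneg _ _ x

theorem sg_cont (k : I) : Continuous (sg D k) := ((D.wt k).nr_sm (D.hol k).toSecC).continuous

theorem f_hol (k : I) (he : e ∈ M.C) (hz : z ∈ e.target) : HolN (D.f k e) z :=
  (e.open_target.eventually_mem hz).mono fun w hw => (D.hol k).hol e he w hw

theorem f_on (k : I) (he : e ∈ M.C) : DifferentiableOn ℂ (D.f k e) e.target :=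
  fun w hw => ((D.hol k).hol e he w hw).differentiableWithinAt

theorem of_open : IsOpen (Of D) := by
  have : Of D = ⋂ k, {x | sg D k x ≠ 0} := by ext x; simp [Of]
  rw [this]
  exact isOpen_iInter_of_finite fun k => isOpen_ne_fun (sg_cont D k) continuous_const

/-- From the manifold to a chart. -/
theorem freq_ch {p : M.X → Prop} (hz : z ∈ e.target) (h : ∃ᶠ y in 𝓝 (e.symm z), p y) :
    ∃ᶠ w in 𝓝 z, w ∈ e.target ∧ p (e.symm w) := by
  rw [← e.symm.map_nhds_eq hz, frequently_map] at h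
  exact (h.and_eventually (e.open_target.mem_nhds hz)).mono fun w hw => ⟨hw.2, hw.1⟩

/-- From a chart to the manifold. -/
theorem freq_mf {p : M.X → Prop} {x : M.X} (hx : x ∈ e.source)
    (h : ∃ᶠ w in 𝓝 (e x), p (e.symm w)) : ∃ᶠ y in 𝓝 x, p y :=
  (e.tendsto_symm hx).frequently h

theorem freq_sg (k : I) (x : M.X) : ∃ᶠ y in 𝓝 x, sg D k y ≠ 0 := by
  obtain ⟨e, he, hx, h⟩ := D.deg k x
  by_cases h0 : D.f k e (e x) = 0
  · refine freq_mf hx (((freq_of_fderiv (h h0).1).and_eventually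
      (e.open_target.mem_nhds (e.map_source hx))).mono fun w hw => (sg_ne D k he hw.2).2 hw.1)
  · have := (sg_ne D k he (e.map_source hx)).2 h0
    rw [e.left_inv hx] at this
    exact ((sg_cont D k).continuousAt.eventually_ne this).frequently

theorem freq_of (x : M.X) : ∃ᶠ y in 𝓝 x, y ∈ Of D :=
  (freq_all isOpen_univ (fun k y => (sg D k y : ℂ)) Finset.univ
    (fun k _ => (Complex.continuous_ofReal.comp (sg_cont D k)).continuousOn)
    (fun k _ y _ => (freq_sg D k y).mono fun w hw => Complex.ofReal_ne_zero.2 hw) x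
    (mem_univ x)).mono fun y hy k => Complex.ofReal_ne_zero.1 (hy k (Finset.mem_univ k))

/-- Continuous functions in a chart that agree off the divisors agree. -/
theorem eq_ch {F : Type} [TopologicalSpace F] [T2Space F] {s t : E n → F} (hz : z ∈ e.target)
    (hs : ContinuousAt s z) (ht : ContinuousAt t z)
    (h : ∀ᶠ w in 𝓝 z, w ∈ e.target → e.symm w ∈ Of D → s w = t w) : s z = t z :=
  tendsto_nhds_unique_of_frequently_eq hs ht
    (((freq_ch hz (freq_of D _)).and_eventually h).mono fun w hw => hw.2 hw.1.1 hw.1.2)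

/-- From a finite integral on the manifold to a finite integral in a chart. -/
theorem fin_ch [M.Cpt] {g : M.X → ℝ} {O : Set M.X} {t : E n → ℝ} {p : E n → Prop} {C : ℝ}
    (hi : ∫⁻ x in O, ENNReal.ofReal (g x) ∂M.mu D.H ≠ ⊤) (he : e ∈ M.C) (hz : z ∈ e.target)
    (ho : IsOpen {w | w ∈ e.target ∧ p w}) (C0 : 0 ≤ C)
    (hb : ∀ᶠ w in 𝓝 z, p w → e.symm w ∈ O ∧ 0 ≤ g (e.symm w) ∧ t w ≤ C * g (e.symm w)) :
    ∃ V ∈ 𝓝 z, ∫⁻ w in {w | w ∈ V ∧ p w}, ENNReal.ofReal (t w) ≠ ⊤ := by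
  have hH := D.kae.toMet
  have d0 := Mf.pd_det_re (hH.pos e he z hz)
  have dc : ContinuousAt (fun w => (D.H e w).det.re) z := Complex.continuous_re.continuousAt.comp
    (mCOF n _ z (hH.sm e he z hz)).1.continuousAt
  obtain ⟨V, hV, oV, zV⟩ := _root_.mem_nhds_iff.1 (inter_mem (inter_mem hb
    (dc.eventually (lt_mem_nhds (half_lt_self d0)))) (e.open_target.mem_nhds hz))
  set c := (D.H e z).det.re / 2 with hc
  have c0 : 0 < c := half_pos d0
  have hB : IsOpen {w | w ∈ V ∧ p w} := by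
    have : {w | w ∈ V ∧ p w} = V ∩ {w | w ∈ e.target ∧ p w} :=
      Set.ext fun w => ⟨fun h => ⟨h.1, (hV h.1).2, h.2⟩, fun h => ⟨h.1, h.2.2⟩⟩
    rw [this]; exact oV.inter ho
  obtain ⟨-, h2, -⟩ := (mMU n M D.H hH).2.2.2.2.2.1 e he _ hB.measurableSet
    fun w hw => (hV hw.1).2
  have h3 : ∫⁻ x in e.symm '' {w | w ∈ V ∧ p w}, ENNReal.ofReal (g x) ∂M.mu D.H ≠ ⊤ :=
    ne_top_of_le_ne_top hi (lintegral_mono_set (by
      rintro _ ⟨w, hw, rfl⟩
      exact ((hV hw.1).1.1 hw.2).1))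
  rw [h2] at h3
  refine ⟨V, oV.mem_nhds zV, ne_top_of_le_ne_top
    (ENNReal.mul_ne_top (ENNReal.ofReal_ne_top (r := C / c)) h3) ?_⟩
  rw [← lintegral_const_mul' _ _ ENNReal.ofReal_ne_top]
  refine setLIntegral_mono' hB.measurableSet fun w hw => ?_
  obtain ⟨-, g0, h5⟩ := (hV hw.1).1.1 hw.2
  have h6 : c < (D.H e w).det.re := (hV hw.1).1.2
  rw [← ENNReal.ofReal_mul (c0.trans h6).le, ← ENNReal.ofReal_mul (div_nonneg C0 c0.le)]
  refine ENNReal.ofReal_le_ofReal (h5.trans ?_)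
  have e1 : C * g (e.symm w) = C / c * (c * g (e.symm w)) := by field_simp
  rw [e1]
  exact mul_le_mul_of_nonneg_left (mul_le_mul_of_nonneg_right h6.le g0) (div_nonneg C0 c0.le)

theorem of_ch_open (he : e ∈ M.C) : IsOpen {w | w ∈ e.target ∧ ∏ k, D.f k e w ≠ 0} :=
  (diff_prod (fun k => D.f k e) Finset.univ fun k _ =>
    f_on D k he).continuousOn.isOpen_inter_preimage e.open_target isOpen_ne

/-- Extension across the divisors. -/
theorem ext [M.Cpt] {g : M.X → ℝ} {t : E n → ℂ}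
    (hi : ∫⁻ x in Of D, ENNReal.ofReal (g x) ∂M.mu D.H ≠ ⊤) (he : e ∈ M.C)
    (ht : ∀ z ∈ e.target, e.symm z ∈ Of D → DifferentiableAt ℂ t z)
    (hb : ∀ z ∈ e.target, ∃ C : ℝ, 0 ≤ C ∧ ∀ᶠ w in 𝓝 z, e.symm w ∈ Of D →
      0 ≤ g (e.symm w) ∧ ‖t w‖ ^ 2 ≤ C * g (e.symm w)) :
    ∃ h, DifferentiableOn ℂ h e.target ∧ ∀ w ∈ e.target, e.symm w ∈ Of D → h w = t w := by
  have pr : ∀ w ∈ e.target, ∏ k, D.f k e w ≠ 0 ↔ e.symm w ∈ Of D := fun w hw => by
    rw [mem_of D he hw, Finset.prod_ne_zero_iff]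
    simp
  obtain ⟨h, hh, eh⟩ := SV.H85.ext_sq volume (f := t) (j := fun w => ∏ k, D.f k e w) e.open_target
    (diff_prod (fun k => D.f k e) Finset.univ fun k _ => f_on D k he)
    (fun z hz h0 => (freq_ch hz (freq_of D _)) (h0.mono fun w hw h1 => (pr w h1.1).2 h1.2 hw))
    (fun w hw => (ht w hw.1 ((pr w hw.1).1 hw.2)).differentiableWithinAt) fun z hz => by
      obtain ⟨C, C0, hC⟩ := hb z hz
      refine fin_ch D hi he hz (of_ch_open D he) C0 ?_
      filter_upwards [hC, e.open_target.mem_nhds hz] with w h1 h2 h3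
      exact ⟨(pr w h2).1 h3, h1 ((pr w h2).1 h3)⟩
  exact ⟨h, hh, fun w hw h1 => eh w hw ((pr w hw).2 h1)⟩

end dk

/-- The norm in a chart, at one point. -/
theorem pn_at {σ : Type} [Fintype σ] [DecidableEq σ] {b : Bun M σ} (hb : b.Ok)
    {W : M.Fam (σ → ℂ)} {e : M.Ch} (he : e ∈ M.C) {x : M.X} (hx : x ∈ e.source)
    (h : W (M.ch x) (M.ch x x) = b.T (M.ch x) e x *ᵥ W e (e x)) :
    b.pn W x = (star (W e (e x)) ⬝ᵥ b.G e (e x) *ᵥ W e (e x)).re := by
  obtain ⟨c1, c2⟩ := (mTR n M).1 x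
  rw [hb.cmp _ c1 e he x c2 hx, Bun.pn, Bun.pp, Mf.ev, Mf.ev, h, ← Matrix.mulVec_mulVec,
    ← Matrix.mulVec_mulVec, Matrix.dotProduct_mulVec (star (W e (e x))), ← Matrix.star_mulVec]

/-- The components are bounded by the norm. -/
theorem cmp_le {σ : Type} [Fintype σ] [DecidableEq σ] {b : Bun M σ} (hb : b.Ok) {e : M.Ch}
    (he : e ∈ M.C) {z : E n} (hz : z ∈ e.target) : ∃ C : ℝ, 0 ≤ C ∧ ∀ᶠ w in 𝓝 z,
      ∀ (v : σ → ℂ) (i : σ), ‖v i‖ ^ 2 ≤ C * (star v ⬝ᵥ b.G e w *ᵥ v).re := by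
  obtain ⟨C, C0, hC⟩ := P56.quad (T := fun _ : E n => (1 : Mx σ)) (G := b.G e) (p := z)
    (fun i j => continuousAt_const) (fun i j => (hb.gsm e he z hz i j).continuousAt)
    (hb.pos e he z hz)
  refine ⟨C, C0, hC.mono fun w hw v i => le_trans ?_ (hw v)⟩
  rw [Matrix.one_mulVec]
  refine le_trans ?_ (Complex.re_le_norm _)
  rw [GB.self_re]
  exact Finset.single_le_sum (f := fun i => ‖v i‖ ^ 2) (fun _ _ => sq_nonneg _) (Finset.mem_univ i)

theorem bdd {Y : Type} [TopologicalSpace Y] {F : Y → ℝ} {y : Y} (h : ContinuousAt F y) :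
    ∃ C : ℝ, 0 ≤ C ∧ ∀ᶠ w in 𝓝 y, F w ≤ C :=
  ⟨max (F y + 1) 0, le_max_right _ _,
    (h.eventually (gt_mem_nhds (lt_add_one _))).mono fun w hw => hw.le.trans (le_max_left _ _)⟩

variable (S : Sd M I) {m : ℕ} {T W : M.Fam (Fs n → ℂ)} {e : M.Ch} {z : E n}

theorem ka_nn (m : ℕ) (k : I) : 0 ≤ ka S.toDk m k :=
  div_nonneg (Nat.cast_nonneg _) (Nat.cast_nonneg _)

theorem fl_ka (hm : 1 ≤ m) (k : I) :
    ((m : ℝ) - 1) * al S.toDk k = fl S.toDk m k + ka S.toDk m k := by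
  have c0 : (S.c : ℝ) ≠ 0 := Nat.cast_ne_zero.2 S.c0.ne'
  have h : (((m - 1) * S.a k : ℕ) : ℝ) =
      S.c * (((m - 1) * S.a k / S.c : ℕ) : ℝ) + (((m - 1) * S.a k % S.c : ℕ) : ℝ) := by
    exact_mod_cast (Nat.div_add_mod ((m - 1) * S.a k) S.c).symm
  rw [Nat.cast_mul, Nat.cast_sub hm, Nat.cast_one] at h
  simp only [al, fl, ka]
  field_simp
  linarith

/-- The continuous factor of the weight. -/
def cf (m : ℕ) (e : M.Ch) (w : E n) : ℝ :=
  ∏ k, sg S.toDk k (e.symm w) ^ ka S.toDk m k * Real.exp (-S.φ k e w) ^ fl S.toDk m k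

theorem cf_cont (m : ℕ) (he : e ∈ M.C) (hz : z ∈ e.target) : ContinuousAt (cf S m e) z :=
  tendsto_finsetProd _ fun k _ => ((((sg_cont S.toDk k).continuousAt.comp
    (e.continuousAt_symm hz)).rpow_const (Or.inr (ka_nn S m k))).mul
      ((Real.continuous_exp.continuousAt.comp
        ((S.wt k).sm e he z hz).continuousAt.neg).pow _))

theorem pw_eq (hm : 1 ≤ m) (he : e ∈ M.C) (hz : z ∈ e.target) (h : e.symm z ∈ Of S.toDk) :
    pw S.toDk ((m : ℝ) - 1) (e.symm z) = ‖∏ k, S.f k e z ^ fl S.toDk m k‖ ^ 2 * cf S m e z := by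
  rw [pw, cf, norm_prod, ← Finset.prod_pow, ← Finset.prod_mul_distrib]
  refine Finset.prod_congr rfl fun k _ => ?_
  rw [fl_ka S hm, Real.rpow_add ((sg_nn S.toDk k _).lt_of_ne' (h k)), Real.rpow_natCast,
    norm_pow, ← pow_mul, mul_comm (fl S.toDk m k) 2, pow_mul, ← Complex.normSq_eq_norm_sq]
  nth_rewrite 1 [sg_rep S.toDk k he hz]
  ring

theorem pw_pos (t : ℝ) {x : M.X} (h : x ∈ Of S.toDk) : 0 < pw S.toDk t x :=
  Finset.prod_pos fun k _ => Real.rpow_pos_of_pos ((sg_nn S.toDk k _).lt_of_ne' (h k)) _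

theorem lk_ok (m : ℕ) : (lk S.H m).Ok :=
  (aLAM n M S.H _ _ S.kae.toMet (K3E.bKAN n M S.H m S.kae.toMet).1).1

theorem tr_eq (m : ℕ) (e e' : M.Ch) (x : M.X) (Y : Fs n → ℂ) : (lk S.H m).T e e' x *ᵥ Y =
    (jd M e e' x ^ m)⁻¹ • La (M.J e e' x) *ᵥ Y := by
  show ((jd M e e' x ^ m * 1)⁻¹ • La (M.J e e' x)) *ᵥ Y = _
  rw [mul_one, Matrix.smul_mulVec]

theorem lb_tr (m : ℕ) (e e' : M.Ch) (x : M.X) (Y : Fs n → ℂ) : (lb S m).T e e' x *ᵥ Y =
    (∏ k, (S.L k).c e e' x ^ fl S.toDk m k) • (lk S.H m).T e e' x *ᵥ Y := by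
  show (((kan M m).c e e' x * (∏ k, (S.L k).c e e' x ^ fl S.toDk m k)⁻¹)⁻¹ •
    La (M.J e e' x)) *ᵥ Y = _ • (((kan M m).c e e' x)⁻¹ • La (M.J e e' x)) *ᵥ Y
  rw [mul_inv, inv_inv, Matrix.smul_mulVec, Matrix.smul_mulVec, smul_smul, mul_comm]

/-- A family that transforms as a section off the divisors. -/
def Cm (m : ℕ) (T : M.Fam (Fs n → ℂ)) : Prop := M.Ov fun e e' x => x ∈ Of S.toDk →
  T e (e x) = (jd M e e' x ^ m)⁻¹ • La (M.J e e' x) *ᵥ T e' (e' x)

theorem pn_ch (hT : Cm S m T) (he : e ∈ M.C) (hz : z ∈ e.target) (h : e.symm z ∈ Of S.toDk) :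
    (lk S.H m).pn T (e.symm z) = (star (T e z) ⬝ᵥ (lk S.H m).G e z *ᵥ T e z).re := by
  obtain ⟨c1, c2⟩ := (mTR n M).1 (e.symm z)
  have := pn_at (lk_ok S m) (W := T) he (e.map_target hz)
    ((hT _ c1 e he _ c2 (e.map_target hz) h).trans (tr_eq S m _ _ _ _).symm)
  rwa [e.right_inv hz] at this

theorem pn_nn (m : ℕ) (T : M.Fam (Fs n → ℂ)) (x : M.X) : 0 ≤ (lk S.H m).pn T x :=
  (Complex.le_def.1 (((lk_ok S m).pos.ch x).posSemidef.dotProduct_mulVec_nonneg _)).1

/-- The bound of the components of the quotient. -/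
theorem quo_le (hm : 1 ≤ m) (hT : Cm S m T) (he : e ∈ M.C) (hz : z ∈ e.target) :
    ∃ C : ℝ, 0 ≤ C ∧ ∀ᶠ w in 𝓝 z, e.symm w ∈ Of S.toDk → ∀ A,
      ‖T e w A / ∏ k, S.f k e w ^ fl S.toDk m k‖ ^ 2 ≤ C * (cf S m e w *
        ((lk S.H m).pn T (e.symm w) / pw S.toDk ((m : ℝ) - 1) (e.symm w))) := by
  obtain ⟨C, C0, hC⟩ := cmp_le (lk_ok S m) he hz
  refine ⟨C, C0, ?_⟩
  filter_upwards [hC, e.open_target.mem_nhds hz] with w h1 h2 h3 A
  have p := pw_pos S ((m : ℝ) - 1) h3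
  rw [pw_eq S hm he h2 h3] at p ⊢
  have p1 : 0 < ‖∏ k, S.f k e w ^ fl S.toDk m k‖ ^ 2 :=
    (sq_nonneg _).lt_of_ne' (left_ne_zero_of_mul p.ne')
  have p2 := right_ne_zero_of_mul p.ne'
  rw [norm_div, div_pow, div_le_iff₀ p1, pn_ch S hT he h2 h3]
  refine (h1 _ A).trans (le_of_eq ?_)
  generalize ‖∏ k, S.f k e w ^ fl S.toDk m k‖ ^ 2 = r at p1
  field_simp

/-- A finite weighted norm gives a holomorphic section of the bundle of the level. -/
theorem rem [M.Cpt] (hm : 1 ≤ m) (hT : HO S m T)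
    (hi : ∫⁻ x in Of S.toDk, ENNReal.ofReal ((lk S.H m).pn T x / pw S.toDk ((m : ℝ) - 1) x)
      ∂M.mu S.H ≠ ⊤) :
    ∃ W, (lb S m).Sec W ∧ Hol W ∧
      M.All fun e z => e.symm z ∈ Of S.toDk → T e z = up S m W e z := by
  have nz : ∀ e ∈ M.C, ∀ z ∈ e.target, e.symm z ∈ Of S.toDk →
      ∏ k, S.f k e z ^ fl S.toDk m k ≠ 0 := fun e he z hz h =>
    Finset.prod_ne_zero_iff.2 fun k _ => pow_ne_zero _ ((mem_of S.toDk he hz).1 h k)
  have key : ∀ e ∈ M.C, ∀ A : Fs n, ∃ h, DifferentiableOn ℂ h e.target ∧ ∀ w ∈ e.target,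
      e.symm w ∈ Of S.toDk → h w = T e w A / ∏ k, S.f k e w ^ fl S.toDk m k := fun e he A => by
    refine ext S.toDk hi he (fun z hz h => ?_) fun z hz => ?_
    · have d := ((diff_prod (fun k w => S.f k e w ^ fl S.toDk m k) Finset.univ fun k _ =>
        (f_on S.toDk k he).pow _).differentiableAt (e.open_target.mem_nhds hz)).fun_inv
          (nz e he z hz h)
      simpa only [div_eq_mul_inv] using ((hT.hol e he z hz h A).self_of_nhds).fun_mul d
    · obtain ⟨C, C0, hC⟩ := quo_le S hm hT.cmp he hz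
      obtain ⟨B, B0, hB⟩ := bdd (cf_cont S m he hz)
      refine ⟨C * B, mul_nonneg C0 B0, ?_⟩
      filter_upwards [hC, hB] with w h1 h2 h3
      have g0 := div_nonneg (pn_nn S m T (e.symm w)) (pw_pos S ((m : ℝ) - 1) h3).le
      refine ⟨g0, (h1 h3 A).trans ?_⟩
      rw [mul_assoc]
      exact mul_le_mul_of_nonneg_left (mul_le_mul_of_nonneg_right h2 g0) C0
  choose! h h1 h2 using key
  have hol : Hol (M := M) fun e w A => h e A w := fun e he z hz A =>
    EX.K68.holN_of e.open_target (h1 e he A) hz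
  have sm : M.All fun e z => ContDiffAt ℝ ∞ (fun w A => h e A w) z := fun e he z hz =>
    contDiffAt_pi.2 fun A => ((mHOL n _ _).2.2 (hol e he z hz A)).1
  have eq : M.All fun e z => e.symm z ∈ Of S.toDk → T e z = up S m (fun e w A => h e A w) e z :=
    fun e he z hz hO => funext fun A => by
      show _ = _ * h e A z
      rw [h2 e he A z hz hO, mul_div_cancel₀ _ (nz e he z hz hO)]
  refine ⟨_, ⟨sm, fun e he e' he' x hx hx' => ?_⟩, hol, eq⟩
  obtain ⟨t1, -, -, t2, -⟩ := (mTR n M).2.1 e he e' he' x hx hx'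
  have ex := e'.left_inv hx'
  have := eq_ch S.toDk (e := e') (s := fun w A => h e A (e (e'.symm w)))
    (t := fun w => (∏ k, (S.L k).c e e' (e'.symm w) ^ fl S.toDk m k) •
      (lk S.H m).T e e' (e'.symm w) *ᵥ fun A => h e' A w) (e'.map_source hx') ?_ ?_ ?_
  · rw [ex] at this
    exact this.trans (lb_tr S m e e' x _).symm
  · exact ContinuousAt.comp (g := fun w A => h e A w) (f := e ∘ e'.symm)
      (by simpa only [Function.comp, ex] using (sm e he _ (e.map_source hx)).continuousAt)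
      t1.self_of_nhds.continuousAt
  · refine ContinuousAt.smul (tendsto_finsetProd _ fun k _ =>
      (((S.L k).hol e he e' he' x hx hx').self_of_nhds.continuousAt.pow _)) ?_
    refine continuousAt_pi.2 fun A => ?_
    simp only [Matrix.mulVec, dotProduct]
    refine tendsto_finsetSum _ fun B _ => ?_
    exact ((lk_ok S m).tsm e he e' he' x hx hx' A B).continuousAt.mul
      (hol e' he' _ (e'.map_source hx') B).self_of_nhds.continuousAt
  · filter_upwards [t2] with w c _ hO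
    obtain ⟨c1, c2, c3, c4, c5, c6, -⟩ := c
    have a1 := eq e he _ c4 (c5.symm ▸ hO)
    have a2 := eq e' he' w c1 hO
    have a3 := (hT.cmp e he e' he' _ c2 c3 hO).trans (tr_eq S m _ _ _ _).symm
    have a4 : ∀ k, S.f k e' w = S.f k e (e (e'.symm w)) * (S.L k).c e e' (e'.symm w) := fun k => by
      have := (S.hol k).cmp e he e' he' _ c2 c3
      beta_reduce at this
      rwa [c6] at this
    rw [a1, c6, a2] at a3
    simp only [up, a4, mul_pow, Finset.prod_mul_distrib, mul_smul, Matrix.mulVec_smul] at a3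
    exact smul_right_injective _ (nz e he _ c4 (c5.symm ▸ hO)) a3

/-- The equality holds everywhere for a holomorphic section. -/
theorem up_all (hT : HM M m T) (hW : Hol W)
    (h : M.All fun e z => e.symm z ∈ Of S.toDk → T e z = up S m W e z) :
    M.All fun e z => T e z = up S m W e z := fun e he z hz =>
  eq_ch S.toDk hz (continuousAt_pi.2 fun A => (hT.hol e he z hz A).self_of_nhds.continuousAt)
    (ContinuousAt.smul (tendsto_finsetProd _ fun k _ =>
      ((f_hol S.toDk k he hz).self_of_nhds.continuousAt.pow _))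
      (continuousAt_pi.2 fun A => (hW e he z hz A).self_of_nhds.continuousAt))
    (Eventually.of_forall fun w hw => h e he w hw)

/-- The points on one divisor only are dense in it. -/
theorem gen {k : I} {x : M.X} (hk : sg S.toDk k x = 0) :
    ∃ᶠ y in 𝓝 x, sg S.toDk k y = 0 ∧ ∀ j, j ≠ k → sg S.toDk j y ≠ 0 := by
  obtain ⟨e, he, hx, hs⟩ := S.snc x
  have hz := e.map_source hx
  have k0 : S.f k e (e x) = 0 := not_not.1 fun h => (sg_ne S.toDk k he hz).2 h
    (by rw [e.left_inv hx]; exact hk)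
  choose! v hv using hs
  have d : HasStrictFDerivAt (fun w (j : {j // S.f j e (e x) = 0}) => S.f j e w)
      (ContinuousLinearMap.pi fun j => fderiv ℂ (S.f j.1 e) (e x)) (e x) :=
    hasStrictFDerivAt_pi.2 fun j => by
      obtain ⟨U, ho, hz', hU⟩ := BHOL.smoothC (f_hol S.toDk j he hz)
      exact (hU.contDiffAt (ho.mem_nhds hz')).hasStrictFDerivAt (by simp)
  have mp := d.map_nhds_eq_of_surj (LinearMap.range_eq_top.2 fun y => ⟨∑ j, y j • v j, by
    funext i
    simp only [ContinuousLinearMap.coe_coe, ContinuousLinearMap.pi_apply, map_sum, map_smul,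
      Finset.sum_apply, Pi.smul_apply, fun j : {j // S.f j e (e x) = 0} => hv j j.2 i i.2, smul_eq_mul, mul_ite, mul_one, mul_zero,
      Subtype.coe_inj, Finset.sum_ite_eq, Finset.mem_univ, if_true]⟩)
  have t : Tendsto (fun (t : ℂ) (j : {j // S.f j e (e x) = 0}) => if j.1 = k then 0 else t)
      (𝓝[≠] 0) (𝓝 fun j => S.f j e (e x)) := by
    refine Tendsto.mono_left (tendsto_pi_nhds.2 fun j => ?_) nhdsWithin_le_nhds
    rw [j.2]
    split_ifs
    · exact tendsto_const_nhds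
    · exact tendsto_id
  have fr : ∃ᶠ y : {j // S.f j e (e x) = 0} → ℂ in 𝓝 fun j => S.f j e (e x),
      y ⟨k, k0⟩ = 0 ∧ ∀ j, j.1 ≠ k → y j ≠ 0 :=
    t.frequently (Eventually.frequently (by
      filter_upwards [self_mem_nhdsWithin] with t ht
      exact ⟨if_pos rfl, fun j hj => by rw [if_neg hj]; exact ht⟩))
  rw [← mp, frequently_map] at fr
  have ev : ∀ᶠ w in 𝓝 (e x), ∀ j, S.f j e (e x) ≠ 0 → S.f j e w ≠ 0 := eventually_all.2 fun j => by
    by_cases h : S.f j e (e x) = 0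
    · exact Eventually.of_forall fun w h1 => (h1 h).elim
    · exact ((f_hol S.toDk j he hz).self_of_nhds.continuousAt.eventually_ne h).mono fun w h1 _ => h1
  refine freq_mf hx ((fr.and_eventually (ev.and (e.open_target.mem_nhds hz))).mono ?_)
  rintro w ⟨⟨a, b⟩, c, hw⟩
  refine ⟨not_not.1 fun h => (sg_ne S.toDk k he hw).1 h a, fun j hj => (sg_ne S.toDk j he hw).2 ?_⟩
  by_cases h : S.f j e (e x) = 0
  · exact b ⟨j, h⟩ hj
  · exact c j h

/-- From the compact sets to the complement of the divisors. -/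
theorem exh [M.Cpt] {F : M.X → ℝ} {B : ℝ} {p : M.X → Prop} (F0 : ∀ x ∈ Of S.toDk, 0 ≤ F x)
    (hp : ∀ K, IsClosed K → K ⊆ Of S.toDk → IsClosed {x | x ∈ K ∧ p x})
    (h : ∀ K, Cp S K → (∀ x ∈ K, p x) →
      IntegrableOn F K (M.mu S.H) ∧ ∫ x in K, F x ∂M.mu S.H ≤ B) :
    ∫⁻ x in {x | x ∈ Of S.toDk ∧ p x}, ENNReal.ofReal (F x) ∂M.mu S.H ≤ ENNReal.ofReal B := by
  let K : ℕ → Set M.X := fun i => {x | ∀ k, 1 / ((i : ℝ) + 1) ≤ sg S.toDk k x}
  have c : ∀ i, IsClosed (K i) := fun i => by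
    have : K i = ⋂ k, {x | 1 / ((i : ℝ) + 1) ≤ sg S.toDk k x} := by ext x; simp [K]
    rw [this]
    exact isClosed_iInter fun k => isClosed_le continuous_const (sg_cont S.toDk k)
  have o : ∀ i, K i ⊆ Of S.toDk := fun i x hx k => (Nat.one_div_pos_of_nat.trans_le (hx k)).ne'
  have u : {x | x ∈ Of S.toDk ∧ p x} = ⋃ i, {x | x ∈ K i ∧ p x} := by
    refine Subset.antisymm (fun x hx => ?_) (iUnion_subset fun i x hx => ⟨o i hx.1, hx.2⟩)
    obtain ⟨i, hi⟩ := (eventually_all.2 fun k => (tendsto_one_div_add_atTop_nhds_zero_nat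
      (𝕜 := ℝ)).eventually (ge_mem_nhds ((sg_nn S.toDk k x).lt_of_ne' (hx.1 k)))).exists
    exact mem_iUnion.2 ⟨i, hi, hx.2⟩
  have mo : Monotone fun i => {x | x ∈ K i ∧ p x} := fun i j hij x hx =>
    ⟨fun k => (Nat.one_div_le_one_div hij).trans (hx.1 k), hx.2⟩
  rw [u, setLIntegral_iUnion_of_directed _ mo.directed_le]
  refine iSup_le fun i => ?_
  have cl := hp _ (c i) (o i)
  obtain ⟨a, b⟩ := h _ ⟨cl.isCompact, fun x hx => o i hx.1⟩ fun x hx => hx.2
  rw [← ofReal_integral_eq_lintegral_ofReal a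
    ((ae_restrict_mem cl.measurableSet).mono fun x hx => F0 x (o i hx.1))]
  exact ENNReal.ofReal_le_ofReal b

/-- The sum over the shells. -/
theorem shell {X : Type} [MeasurableSpace X] {μ : Measure X} {O : Set X} {F l : X → ℝ} {L δ : ℝ}
    {B : ℝ≥0∞} (hO : MeasurableSet O) (hl : Measurable l) (hL : ∀ x ∈ O, l x ≤ L) (hδ : 0 < δ)
    (F0 : ∀ x ∈ O, 0 ≤ F x) (hB : B ≠ ⊤)
    (h : ∀ R : ℝ, ∫⁻ x in {x | x ∈ O ∧ |l x + R| ≤ 1 / 4}, ENNReal.ofReal (F x) ∂μ ≤ B) :
    ∫⁻ x in O, ENNReal.ofReal (Real.exp (δ * l x) * F x) ∂μ ≠ ⊤ := by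
  have u : O ⊆ ⋃ i : ℕ, {x | x ∈ O ∧ |l x + (-L + i / 2 + 1 / 4)| ≤ 1 / 4} := fun x hx => by
    have a := Nat.floor_le (a := 2 * (L - l x)) (by linarith [hL x hx])
    have b := Nat.lt_floor_add_one (2 * (L - l x))
    exact mem_iUnion.2 ⟨⌊2 * (L - l x)⌋₊, hx, abs_le.2 ⟨by linarith, by linarith⟩⟩
  have r1 : Real.exp (-(δ / 2)) < 1 := Real.exp_lt_one_iff.2 (by linarith)
  have sm : Summable fun i : ℕ => Real.exp (δ * L) * Real.exp (-(δ / 2)) ^ i :=
    (summable_geometric_of_lt_one (Real.exp_pos _).le r1).mul_left _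
  refine ne_top_of_le_ne_top ?_ ((lintegral_mono_set u).trans ((lintegral_iUnion_le _ _).trans
    (ENNReal.tsum_le_tsum (g := fun i : ℕ => ENNReal.ofReal
      (Real.exp (δ * L) * Real.exp (-(δ / 2)) ^ i) * B) fun i => ?_)))
  · rw [ENNReal.tsum_mul_right, ← ENNReal.ofReal_tsum_of_nonneg (fun i => by positivity) sm]
    exact ENNReal.mul_ne_top ENNReal.ofReal_ne_top hB
  · refine le_trans ?_ (mul_le_mul_right (h (-L + i / 2 + 1 / 4)) _)
    rw [← lintegral_const_mul' _ _ ENNReal.ofReal_ne_top]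
    refine setLIntegral_mono' (hO.inter (measurableSet_le
      (continuous_abs.measurable.comp (hl.add_const _)) measurable_const)) fun x hx => ?_
    rw [← ENNReal.ofReal_mul (by positivity), ← Real.exp_nat_mul, ← Real.exp_add]
    refine ENNReal.ofReal_le_ofReal (mul_le_mul_of_nonneg_right (Real.exp_le_exp.2 ?_) (F0 x hx.1))
    have := (abs_le.1 hx.2).2
    nlinarith

theorem gd_at {v : M.X → ℝ} {e' : M.Ch} (he : e ∈ M.C) (he' : e' ∈ M.C) {x : M.X}
    (hx : x ∈ e.source) (hx' : x ∈ e'.source) (hv : DifferentiableAt ℝ (M.lc v e) (e x)) :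
    gd (M.lc v e) (e x) ᵥ* M.J e e' x = gd (M.lc v e') (e' x) := by
  obtain ⟨t1, -, -, t2, -⟩ := (mTR n M).2.1 e he e' he' x hx hx'
  have ex : (e ∘ e'.symm) (e' x) = e x := congrArg e (e'.left_inv hx')
  have a : M.lc v e' =ᶠ[𝓝 (e' x)] M.lc v e ∘ e ∘ e'.symm := t2.mono fun w c => by
    simp only [Mf.lc, Function.comp, c.2.2.2.2.1]
  funext j
  have b := ((mCHN n _ _ t1).2.2.2.2.2.2.2.2.2.1 (M.lc v e) (ex.symm ▸ hv) j).1
  rw [ex] at b
  exact ((dz_congr a).trans b).symm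

variable {w : I → ℕ} {g : M.X → ℝ}

theorem cm_iot (hg : M.Sm g) (hT : Cm S m T) : Cm S m (iot M (A23.lg S.toDk w g) T) :=
  fun e he e' he' x hx hx' hO => by
    have d := cd_diff (cd_ofReal (A23.lg_off (w := w) hg 0 e he _ (e.map_source hx)
      (by rw [e.left_inv hx]; exact hO)).1)
    have h2 := (st_FK n 0 0 (gd (M.lc (A23.lg S.toDk w g) e) (e x)) (M.J e e' x) 0 0).2.2.2.2.1
    rw [gd_at he he' hx hx' d] at h2
    simp only [iot]
    rw [hT e he e' he' x hx hx' hO, Matrix.mulVec_smul, Matrix.mulVec_mulVec, Matrix.mulVec_mulVec,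
      h2]

theorem anv_cont {a : E n → E n} {Y : E n → Fs n → ℂ} (ha : ∀ j, ContinuousAt (fun y => a y j) z)
    (hY : ∀ A, ContinuousAt (fun y => Y y A) z) (A : Fs n) :
    ContinuousAt (fun y => (anv (a y) *ᵥ Y y) A) z := by
  simp only [I20.anv_mv, Finset.sum_apply, Pi.smul_apply, smul_eq_mul]
  simp only [Matrix.mulVec, dotProduct]
  exact tendsto_finsetSum _ fun j _ => (ha j).mul
    (tendsto_finsetSum _ fun B _ => continuousAt_const.mul (hY B))

/-- Tangency at the points that are on one divisor only. -/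
theorem tan1 [M.Cpt] (hm : 1 ≤ m) (hT : Cm S m T) (hW : Hol W)
    (eq : M.All fun e z => e.symm z ∈ Of S.toDk → T e z = up S m W e z) (hw : ∀ k, 0 < w k)
    (hg : M.Sm g) {k : I}
    (hi : ∫⁻ x in Of S.toDk, ENNReal.ofReal (Real.exp (ka S.toDk m k / w k * A23.lg S.toDk w g x) *
      ((lk S.H m).pn (iot M (A23.lg S.toDk w g) T) x / pw S.toDk ((m : ℝ) - 1) x)) ∂M.mu S.H ≠ ⊤)
    (he : e ∈ M.C) (hz : z ∈ e.target) (hj : ∀ j, j ≠ k → S.f j e z ≠ 0) (h0 : S.f k e z = 0) :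
    anv (gd (S.f k e) z) *ᵥ W e z = 0 := by
  have := (mMU n M S.H S.kae.toMet).2.1
  set δ : ℝ := ka S.toDk m k / w k with hδ
  set l := A23.lg S.toDk w g with hl
  set F := fun x => Real.exp (δ * l x) *
    ((lk S.H m).pn (iot M l T) x / pw S.toDk ((m : ℝ) - 1) x) with hF
  have w1 : (1 : ℝ) ≤ w k := Nat.one_le_cast.2 (hw k)
  have w0 : (w k : ℂ) ≠ 0 := Nat.cast_ne_zero.2 (hw k).ne'
  have hi' : ∫⁻ x in Of S.toDk, ENNReal.ofReal (F x + 1) ∂M.mu S.H ≠ ⊤ := by
    refine ne_top_of_le_ne_top ?_ (lintegral_mono fun x => ENNReal.ofReal_add_le)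
    rw [lintegral_add_right _ measurable_const, lintegral_const]
    exact ENNReal.add_ne_top.2 ⟨hi, ENNReal.mul_ne_top ENNReal.ofReal_ne_top (measure_ne_top _ _)⟩
  have fc : ∀ j, ∀ y ∈ e.target, ContinuousAt (S.f j e) y := fun j y hy =>
    (f_hol S.toDk j he hy).self_of_nhds.continuousAt
  have ev : ∀ y ∈ e.target, (∀ j, j ≠ k → S.f j e y ≠ 0) →
      ∀ᶠ u in 𝓝 y, u ∈ e.target ∧ ∀ j, j ≠ k → S.f j e u ≠ 0 := fun y hy h =>
    (e.open_target.eventually_mem hy).and (eventually_all.2 fun j => eventually_all.2 fun c =>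
      (fc j y hy).eventually_ne (h j c))
  have hU : IsOpen {y | y ∈ e.target ∧ ∀ j, j ≠ k → S.f j e y ≠ 0} :=
    isOpen_iff_mem_nhds.2 fun y hy => ev y hy.1 hy.2
  funext A
  refine zero_of hU (g := fun y => (anv (gd (S.f k e) y) *ᵥ W e y) A) (fun y hy => ?_)
    ((f_on S.toDk k he).mono fun y hy => hy.1) (fun y hy => (freq_ch hy.1
      (freq_sg S.toDk k _)).mono fun u hu => (sg_ne S.toDk k he hu.1).1 hu.2) (fun y hy => ?_)
    z ⟨hz, hj⟩ h0
  · simp only [I20.anv_mv, Finset.sum_apply, Pi.smul_apply, smul_eq_mul]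
    simp only [Matrix.mulVec, dotProduct]
    refine DifferentiableAt.differentiableWithinAt (DifferentiableAt.fun_sum fun j _ => ?_)
    exact (((mHOL n _ _).2.2 (f_hol S.toDk k he hy.1)).2.1 j).self_of_nhds.fun_mul
      (DifferentiableAt.fun_sum fun B _ => (hW e he y hy.1 B).self_of_nhds.const_mul _)
  let ρ : E n → E n := fun u j => ∑ i ∈ Finset.univ.erase k, (w i : ℂ) *
    (dz j (S.f i e) u / S.f i e u - dz j (fun y => (S.φ i e y : ℂ)) u) -
      w k * dz j (fun y => (S.φ k e y : ℂ)) u - dz j (M.lc g e) u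
  have φc : ∀ i j, ContinuousAt (dz j fun y => (S.φ i e y : ℂ)) y := fun i j =>
    (cd_dz (cd_ofReal ((S.wt i).sm e he y hy.1)) j).continuousAt
  have ρc : ∀ j, ContinuousAt (fun u => ρ u j) y := fun j =>
    ((tendsto_finsetSum _ fun i hi => continuousAt_const.mul
      (((((mHOL n _ _).2.2 (f_hol S.toDk i he hy.1)).2.1 j).self_of_nhds.continuousAt.div
        (fc i y hy.1) (hy.2 i (Finset.ne_of_mem_erase hi))).sub (φc i j)) :
      ContinuousAt _ y).sub (continuousAt_const.mul (φc k j))).sub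
      (cd_dz (hg.lc e he y hy.1) j).continuousAt
  let c : E n → ℝ := fun u => (∏ i, sg S.toDk i (e.symm u) ^ (ka S.toDk m i - δ * w i) *
    Real.exp (-S.φ i e u) ^ fl S.toDk m i) * Real.exp (δ * g (e.symm u))
  have cc : ContinuousAt c y := ContinuousAt.mul (tendsto_finsetProd _ fun i _ =>
    ((((sg_cont S.toDk i).continuousAt.comp (e.continuousAt_symm hy.1)).rpow_const (by
      by_cases h : i = k
      · refine Or.inr (le_of_eq ?_)
        rw [h, hδ, div_mul_cancel₀ _ (zero_lt_one.trans_le w1).ne', sub_self]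
      · exact Or.inl ((sg_ne S.toDk i he hy.1).2 (hy.2 i h)))).mul
      ((Real.continuous_exp.continuousAt.comp ((S.wt i).sm e he y hy.1).continuousAt.neg).pow _)))
    (Real.continuous_exp.continuousAt.comp (continuousAt_const.mul
      (hg.continuous.continuousAt.comp (e.continuousAt_symm hy.1))))
  obtain ⟨C, C0, hC⟩ := quo_le S hm (cm_iot S (w := w) hg hT) he hy.1
  obtain ⟨B, B0, hB⟩ := bdd cc
  obtain ⟨B', B0', hB'⟩ := bdd ((anv_cont ρc (fun A =>
    (hW e he y hy.1 A).self_of_nhds.continuousAt) A).norm.pow 2)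
  refine fin_ch S.toDk hi' he hy.1 ((f_on S.toDk k he).continuousOn.isOpen_inter_preimage
    e.open_target isOpen_ne) (C := 2 * (C * B + B')) (by positivity) ?_
  filter_upwards [hC, hB, hB', ev y hy.1 hy.2] with u h1 h2 h3 h4 h5
  have fn : ∀ j, S.f j e u ≠ 0 := fun j => by
    by_cases h : j = k
    · rw [h]; exact h5
    · exact h4.2 j h
  have hO := (mem_of S.toDk he h4.1).2 fn
  have q0 := div_nonneg (pn_nn S m (iot M l T) (e.symm u)) (pw_pos S ((m : ℝ) - 1) hO).le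
  have F0 : 0 ≤ F (e.symm u) := mul_nonneg (Real.exp_pos _).le q0
  refine ⟨hO, by linarith, ?_⟩
  have e1 : cf S m e u = c u * Real.exp (δ * l (e.symm u)) := by
    have : δ * g (e.symm u) + δ * l (e.symm u) =
        ∑ i, Real.log (sg S.toDk i (e.symm u)) * (δ * w i) := by
      rw [hl, A23.lg, mul_sub, Finset.mul_sum, add_sub_cancel]
      exact Finset.sum_congr rfl fun i _ => by ring
    rw [mul_assoc, ← Real.exp_add, this, Real.exp_sum, ← Finset.prod_mul_distrib, cf]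
    refine Finset.prod_congr rfl fun i _ => ?_
    have p := (sg_nn S.toDk i _).lt_of_ne' (hO i)
    rw [← Real.rpow_def_of_pos p, mul_right_comm, ← Real.rpow_add p, sub_add_cancel]
  have e2 : gd (M.lc l e) u = ((w k : ℂ) / S.f k e u) • gd (S.f k e) u + ρ u := funext fun j => by
    show dz j _ _ = _ * dz j _ _ + ρ u j
    rw [(A23.lg_off (w := w) hg 0 e he u h4.1 hO).2.2 j,
      ← Finset.add_sum_erase _ _ (Finset.mem_univ k)]
    simp only [ρ]
    ring
  have e3 : iot M l T e u A / ∏ k, S.f k e u ^ fl S.toDk m k =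
      w k * ((anv (gd (S.f k e) u) *ᵥ W e u) A / S.f k e u) + (anv (ρ u) *ᵥ W e u) A := by
    have s1 := fun (a : E n) (c : ℂ) => (st_FK n a 0 0 0 c 0).2.2.2.2.2.2.2.2.2.2.1
    have s2 := fun a b : E n => (st_FK n a b 0 0 0 0).2.2.2.2.2.2.2.2.1
    rw [iot, eq e he u h4.1 hO, up, Matrix.mulVec_smul, Pi.smul_apply, smul_eq_mul,
      mul_div_cancel_left₀ _ (Finset.prod_ne_zero_iff.2 fun j _ => pow_ne_zero _ (fn j)), e2, s2,
      s1, Matrix.add_mulVec, Matrix.smul_mulVec, Pi.add_apply, Pi.smul_apply, smul_eq_mul]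
    ring
  have h6 := h1 hO A
  rw [e3, e1, mul_assoc] at h6
  rw [← div_pow, ← norm_div]
  set a := (anv (gd (S.f k e) u) *ᵥ W e u) A / S.f k e u
  set b := (anv (ρ u) *ᵥ W e u) A
  have h7 : ‖a‖ ≤ ‖w k * a + b‖ + ‖b‖ := by
    have := norm_sub_le (w k * a + b) b
    rw [add_sub_cancel_right, norm_mul, Complex.norm_natCast] at this
    nlinarith [norm_nonneg a]
  have h8 : C * (c u * F (e.symm u)) ≤ C * (B * F (e.symm u)) :=
    mul_le_mul_of_nonneg_left (mul_le_mul_of_nonneg_right h2 F0) C0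
  have h9 : ‖b‖ ^ 2 ≤ B' := h3
  have h10 := pow_le_pow_left₀ (norm_nonneg _) h7 2
  have h11 : ‖w k * a + b‖ ^ 2 ≤ C * (B * F (e.symm u)) := h6.trans h8
  nlinarith [sq_nonneg (‖w k * a + b‖ - ‖b‖), mul_nonneg C0 B0, mul_nonneg B0' F0]

/-- Tangency. -/
theorem tan [M.Cpt] (hm : 1 ≤ m) (hT : Cm S m T) (hW : Hol W)
    (eq : M.All fun e z => e.symm z ∈ Of S.toDk → T e z = up S m W e z) (hw : ∀ k, 0 < w k)
    (hg : M.Sm g) {B : ℝ≥0∞} (hB : B ≠ ⊤)
    (h : ∀ R : ℝ, ∫⁻ x in {x | x ∈ Of S.toDk ∧ |A23.lg S.toDk w g x + R| ≤ 1 / 4}, ENNReal.ofReal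
      ((lk S.H m).pn (iot M (A23.lg S.toDk w g) T) x / pw S.toDk ((m : ℝ) - 1) x) ∂M.mu S.H ≤ B)
    {k : I} (hk : 0 < ka S.toDk m k) : Tk S k W := fun e he z hz h0 => by
  obtain ⟨L, -, hL⟩ := hg.exists_bound
  have s1 : ∀ k x, sg S.toDk k x ≤ 1 := fun k x => (S.sml k x).trans (by norm_num)
  have hi := shell (L := L) (of_open S.toDk).measurableSet (l := A23.lg S.toDk w g)
    ((Finset.measurable_fun_sum _ fun i _ => (sg_cont S.toDk i).measurable.log.const_mul _).sub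
      hg.continuous.measurable)
    (fun x _ => (A23.lg_le s1 hw hL k x).trans
      (by linarith [Real.log_nonpos (sg_nn S.toDk k x) (s1 k x)]))
    (div_pos hk (Nat.cast_pos.2 (hw k)))
    (fun x hx => div_nonneg (pn_nn S m _ x) (pw_pos S _ hx).le) hB h
  funext A
  refine tendsto_nhds_unique_of_frequently_eq (g := fun _ => (0 : ℂ)) (anv_cont (Y := W e)
    (fun j => (((mHOL n _ _).2.2 (f_hol S.toDk k he hz)).2.1 j).self_of_nhds.continuousAt)
    (fun A => (hW e he z hz A).self_of_nhds.continuousAt) A) continuousAt_const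
    ((freq_ch hz (gen S (not_not.1 fun c => (sg_ne S.toDk k he hz).1 c h0))).mono fun u hu => ?_)
  exact congrFun (tan1 S hm hT hW eq hw hg hi he hu.1
    (fun j c => (sg_ne S.toDk j he hu.1).1 (hu.2.2 j c))
    (not_not.1 fun c => (sg_ne S.toDk k he hu.1).2 c hu.2.1)) A

/-- From the bounds on compact sets to a tangent section of the bundle of the level. -/
theorem nt61 [M.Cpt] (hm : 1 ≤ m) (hT : HO S m T) (hw : ∀ k, 0 < w k) (hg : M.Sm g) {B : ℝ}
    (c1 : ∀ K, Cp S K →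
      IntegrableOn (fun x => (lk S.H m).pn T x / pw S.toDk ((m : ℝ) - 1) x) K (M.mu S.H) ∧
      ∫ x in K, (lk S.H m).pn T x / pw S.toDk ((m : ℝ) - 1) x ∂M.mu S.H ≤ B)
    (c2 : ∀ (R : ℝ) K, Cp S K → (∀ x ∈ K, |A23.lg S.toDk w g x + R| ≤ 1 / 4) →
      IntegrableOn (fun x => (lk S.H m).pn (iot M (A23.lg S.toDk w g) T) x /
        pw S.toDk ((m : ℝ) - 1) x) K (M.mu S.H) ∧
      ∫ x in K, (lk S.H m).pn (iot M (A23.lg S.toDk w g) T) x / pw S.toDk ((m : ℝ) - 1) x
        ∂M.mu S.H ≤ B) :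
    ∃ W, Nt S m W ∧ M.All fun e z => e.symm z ∈ Of S.toDk → T e z = up S m W e z := by
  have p : ∀ U, ∀ x ∈ Of S.toDk, 0 ≤ (lk S.H m).pn U x / pw S.toDk ((m : ℝ) - 1) x :=
    fun U x hx => div_nonneg (pn_nn S m U x) (pw_pos S _ hx).le
  have a := exh S (p := fun _ => True) (p T) (fun K c _ => by simpa using c) fun K c _ => c1 K c
  obtain ⟨W, h1, h2, h3⟩ := rem S hm hT (by
    simpa using ne_top_of_le_ne_top ENNReal.ofReal_ne_top a)
  refine ⟨W, ⟨h1, h2, fun k hk => tan S hm hT.cmp h2 h3 hw hg ENNReal.ofReal_ne_top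
    (fun R => exh S (p _) (fun K c o => ?_) (c2 R)) hk⟩, h3⟩
  have lc : ContinuousOn (fun x => |A23.lg S.toDk w g x + R|) K :=
    (((continuousOn_finsetSum _ fun i _ => continuousOn_const.mul
      ((sg_cont S.toDk i).continuousOn.log fun x hx => o hx i)).sub
        hg.continuous.continuousOn).add continuousOn_const).abs
  exact lc.preimage_isClosed_of_isClosed c isClosed_Iic

end Pool.Agent.Lib.N4S.R61
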