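import Pool.Agent.Lib.N4S.Kit78
import Pool.Agent.Lib.NU4.Flip71e
import Pool.Agent.Lib.NU4.B_EXC
import Pool.Agent.Lib.NU4.B_FK
import Pool.Agent.Lib.NU4.B_KIT
import Pool.Agent.Lib.K3S.B_SG

/-! Project n4s: the complement of the divisors is dense; consequences. -/

open scoped Classical Topology ContDiff ComplexOrder Matrix
open Set Filter MeasureTheory

set_option linter.unusedVariables false

noncomputable section

namespace Pool.Agent.Lib.N4S.U71

open Pool.Agent.Lib.SV (E)
open Pool.Agent.Lib.HS32 Pool.Agent.Lib.HLK Pool.Agent.Lib.F4 Pool.Agent.Lib.NU4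
open Pool.Agent.Lib.K3E (kan wk lk)
open Pool.Agent.Lib.K3S (Dk)

variable {n : ℕ} {M : Mf n} {I : Type} [Fintype I]

/-- The complement of the divisors is dense. -/
theorem dense_Of [M.Cpt] (D : Dk M I) : Dense (Of D) := by
  have h : ∀ k, Dense {x | sg D k x ≠ 0} := fun k =>
    (K3S.bSG n M D.H (D.L k) (D.f k) (D.φ k) D.kae.toMet (D.hol k) (D.wt k) fun x =>
      (D.deg k x).imp fun e h => ⟨h.1, h.2.1, fun c => (h.2.2 c).1⟩).2.1
  have key : ∀ T : Finset I, Dense {x | ∀ k ∈ T, sg D k x ≠ 0} := fun T => by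
    induction T using Finset.induction_on with
    | empty => simp
    | insert j T _ ih =>
      refine ((h j).inter_of_isOpen_left ih
        (isOpen_ne_fun (K78.sg_sm D j).continuous continuous_const)).mono fun x hx k hk => ?_
      rcases Finset.mem_insert.1 hk with r | r
      · rw [r]; exact hx.1
      · exact hx.2 k r
  exact (key Finset.univ).mono fun x (hx : ∀ k ∈ Finset.univ, _) k => hx k (Finset.mem_univ k)

theorem fr_Of [M.Cpt] (D : Dk M I) : M.All fun e z => ∃ᶠ w in 𝓝 z, e.symm w ∈ Of D :=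
  fun e he z hz => by
    have h : ∃ᶠ x in 𝓝 (e.symm z), x ∈ Of D := mem_closure_iff_frequently.1 (dense_Of D _)
    rwa [← e.symm.map_nhds_eq hz, frequently_map] at h

/-- Continuous families that agree off the divisors agree. -/
theorem ext_Of [M.Cpt] (D : Dk M I) {F : Type} [TopologicalSpace F] [T2Space F] {A B : M.Fam F}
    (hA : M.All fun e z => ContinuousAt (A e) z) (hB : M.All fun e z => ContinuousAt (B e) z)
    (h : M.All fun e z => e.symm z ∈ Of D → A e z = B e z) : M.All fun e z => A e z = B e z :=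
  fun e he z hz => tendsto_nhds_unique_of_frequently_eq (hA e he z hz) (hB e he z hz)
    (((fr_Of D e he z hz).and_eventually (e.open_target.eventually_mem hz)).mono fun w k =>
      h e he w k.2 k.1)

variable {S : Sd M I} {a : ℝ → M.X → ℝ} {q : Sq} {m : ℕ} {T R W U : M.Fam (Fs n → ℂ)}

theorem sec_con {σ : Type} [Fintype σ] [DecidableEq σ] {b : Bun M σ} {W : M.Fam (σ → ℂ)}
    (h : b.Sec W) : M.All fun e z => ContinuousAt (W e) z :=
  fun e he z hz => (h.sm e he z hz).continuousAt

theorem up_inj [M.Cpt] (hW : (lb S m).Sec W) (hU : (lb S m).Sec U)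
    (h : M.All fun e z => e.symm z ∈ Of S.toDk → up S m W e z = up S m U e z) :
    M.All fun e z => W e z = U e z :=
  ext_Of S.toDk (sec_con hW) (sec_con hU) fun e he z hz c =>
    smul_right_injective _ (K78.pf_ne S m he hz c) (h e he z hz c)

theorem dg_of [M.Cpt] {d : ℕ} (hW : (lb S m).Sec W)
    (h : M.All fun e z => e.symm z ∈ Of S.toDk → T e z = up S m W e z)
    (hd : M.All fun e z => e.symm z ∈ Of S.toDk → Dg d (T e z)) : DgM M d W :=
  fun e he z hz A hA => ext_Of S.toDk (A := fun e z => W e z A) (B := fun _ _ => 0)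
    (fun e he z hz => (continuous_apply A).continuousAt.comp (sec_con hW e he z hz))
    (fun _ _ _ _ => continuousAt_const) (fun e he z hz c => by
      have k := hd e he z hz c A hA
      rw [h e he z hz c, K78.up_eq, Pi.smul_apply, smul_eq_mul] at k
      exact (mul_eq_zero.1 k).resolve_left (K78.pf_ne S m he hz c)) e he z hz

theorem nz_of (h : M.All fun e z => e.symm z ∈ Of S.toDk → T e z = up S m W e z)
    (hn : ¬M.All fun e z => e.symm z ∈ Of S.toDk → T e z = 0) : Nz W :=
  X29.nz_iff.2 fun c => hn fun e he z hz k => by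
    rw [h e he z hz k, K78.up_eq, c e he z hz, smul_zero]

/-- A continuous family that is not zero is not zero off the divisors. -/
theorem nz_Of [M.Cpt] (hT : M.All fun e z => ContinuousAt (T e) z) (h : Nz T) :
    ¬M.All fun e z => e.symm z ∈ Of S.toDk → T e z = 0 := fun c =>
  X29.nz_iff.1 h (ext_Of S.toDk (B := fun _ _ => 0) hT (fun _ _ _ _ => continuousAt_const) c)

theorem nz_up [M.Cpt] (hW : (lb S m).Sec W) (h : Nz W) : Nz (up S m W) :=
  X29.nz_iff.2 fun c => nz_Of (S := S) (sec_con hW) h fun e he z hz k =>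
    (smul_eq_zero.1 (c e he z hz)).resolve_left (K78.pf_ne S m he hz k)

theorem hm_con (h : HM M m T) : M.All fun e z => ContinuousAt (T e) z := fun e he z hz =>
  continuousAt_pi.2 fun i => (h.hol e he z hz i).self_of_nhds.continuousAt

theorem pr1_congr (h : M.All fun e z => T e z = U e z) (p : Pr1 S a q m T) : Pr1 S a q m U :=
  fun c => (p c).congr fun j => integral_congr_ae (Eventually.of_forall fun x => by
    simp only [Bun.pn, Bun.pp, Mf.ev_congr (Fl.ap_congr (oP S.H (wt M S.H m (pj S a q j))) h)])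

theorem wp_congr [M.Cpt] (h : M.All fun e z => e.symm z ∈ Of S.toDk → T e z = U e z)
    (p : Wp S a q m T) : Wp S a q m U := by
  rintro y hy ⟨K, hK, h0⟩
  refine (p y hy ⟨K, hK, h0⟩).congr fun j => integral_congr_ae (Eventually.of_forall fun x => ?_)
  by_cases c : x ∈ K
  · have k : M.ev T x = M.ev U x := h.ch x (by rw [Mf.ch_symm]; exact hK.2 c)
    simp only [Bun.pp, k]
  · have z : ∀ᶠ w in 𝓝 (M.ch x x), y (M.ch x) w = 0 := by
      filter_upwards [(M.ch x).open_target.mem_nhds (Mf.ch_tgt x),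
        ((M.ch x).continuousAt_symm (Mf.ch_tgt x)).eventually
          (hK.1.isClosed.isOpen_compl.mem_nhds (by rwa [Mf.ch_symm]))] with w h1 h2
      have k := hy.cmp _ (Mf.ch_mem x) _ (Mf.ch_mem _) _ ((M.ch x).map_target h1) (Mf.mem_ch _)
      have k0 := h0 _ h2
      rw [Mf.ev] at k0
      beta_reduce at k
      rwa [k0, (M.ch x).right_inv h1, Matrix.mulVec_zero] at k
    have g : ∀ l, dzbv l (y (M.ch x)) (M.ch x x) = 0 := fun l => funext fun i =>
      (dzb_congr (g := fun _ => 0) (z.mono fun w hw => by simp only [hw, Pi.zero_apply])).trans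
        (dzb_const 0)
    have k : M.ev ((oQ S.H).ap y) x = 0 := by simp [Mf.ev, Op.ap, oQ, g]
    simp only [Bun.pp, k, star_zero, zero_dotProduct]

/-- An element of degree one is a field. -/
theorem fld [M.Cpt] (h : Nw S m W) (d : DgM M 1 W) (nz : Nz W) :
    ∃ Z, HT M m Z ∧ ¬Zr M Z ∧ M.All fun e z => vec M Z e z = up S m W e z := by
  have hT := K78.up_hm S h.sec h.hol
  have e1 : M.All fun e z => vec M (fun e z k => up S m W e z {k}) e z = up S m W e z :=
    fun e he z hz => ((st_FK n 0 0 0 0 0 (up S m W e z)).2.2.2.2.2.2.2.2.2.2.2.2.2.2.2.2.2.1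
      (K78.up_dg S d e he z hz)).symm
  have ht := ((st_KIT n M S.H m _ S.kae.toMet).2.2.2.2.1 hT).2.1
  refine ⟨_, ht, ((st_KIT n M S.H m 0 S.kae.toMet).2.1 _ ht).2.2.2 ?_, e1⟩
  obtain ⟨e, he, z, hz, p⟩ := nz_up h.sec nz
  exact ⟨e, he, z, hz, by rwa [e1 e he z hz]⟩

end Pool.Agent.Lib.N4S.U71
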