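import Pool.Agent.Lib.N4S.Blue
import Pool.Agent.Lib.N4S.Up71
import Pool.Agent.Lib.N4S.Rem61
import Pool.Agent.Lib.N4S.B_LB1

/-! Project n4s, row LB: weakly parallel multivectors are in the class. -/

open scoped Classical Topology ContDiff ComplexOrder Matrix
open Set Filter MeasureTheory

set_option linter.unusedVariables false

noncomputable section

namespace Pool.Agent.Lib.N4S

open Pool.Agent.Lib.HS32 Pool.Agent.Lib.HLK Pool.Agent.Lib.F4 Pool.Agent.Lib.NU4

theorem st_LB (h3 : St_LB3) : St_LB := by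
  intro n M _ I _ S a q m r T hZ hm hT dT hP
  obtain ⟨w, g, B, hw, hg, c1, c2⟩ := L5.lb1 (by omega) hZ hT hP
  obtain ⟨W, w1, w2⟩ := R61.nt61 S (by omega) hT hw hg c1 c2
  exact ⟨W, ⟨w1, h3 n M I S a q m W hZ hm w1 (U71.wp_congr w2 hP)⟩,
    U71.dg_of w1.sec w2 fun e he z hz _ => dT e he z hz, w2⟩

end Pool.Agent.Lib.N4S
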