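import Pool.Agent.Lib.N4S.Gen9
import Pool.Agent.Lib.NU4.B_PPI

/-! Project n4s: the limit of the weighted divergences, from limits in the charts. -/

open scoped Classical Topology ContDiff ComplexOrder Matrix
open Set Filter MeasureTheory

set_option linter.unusedVariables false

noncomputable section

namespace Pool.Agent.Lib.N4S.G9

open Pool.Agent.Lib.SV (E)
open Pool.Agent.Lib.HS32 Pool.Agent.Lib.HLK Pool.Agent.Lib.F4 Pool.Agent.Lib.NU4
open Pool.Agent.Lib.K3E (kan wk lk)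

section dm

variable {X : Type} [MeasurableSpace X] {μ : Measure X} {g g' k : ℕ → X → ℝ} {s s' t : Set X}

/-- Domination on `s` by functions with small integrals. -/
def Dm (μ : Measure X) (g : ℕ → X → ℝ) (s : Set X) : Prop := ∀ η : ℝ, 0 < η → ∀ᶠ j in atTop,
  ∃ f : X → ℝ, (∀ x, 0 ≤ f x) ∧ Integrable f μ ∧ ∫ x, f x ∂μ ≤ η ∧ ∀ x ∈ s, g j x ≤ f x

theorem Dm.two (h : Dm μ g s) (h' : Dm μ g' s') {C : ℝ} (hC : 0 < C)
    (hk : ∀ j, ∀ x ∈ t, ∀ a b : ℝ, 0 ≤ a → 0 ≤ b → (x ∈ s → g j x ≤ a) → (x ∈ s' → g' j x ≤ b) →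
      k j x ≤ C * (a + b)) : Dm μ k t := fun η hη => by
  have p : 0 < η / C / 2 := by positivity
  filter_upwards [h _ p, h' _ p] with j ⟨f, f0, f1, f2, f3⟩ ⟨f', g0, g1, g2, g3⟩
  refine ⟨fun x => C * (f x + f' x), fun x => mul_nonneg hC.le (add_nonneg (f0 x) (g0 x)),
    (f1.add g1).const_mul C, ?_, fun x hx => hk j x hx _ _ (f0 x) (g0 x) (f3 x) (g3 x)⟩
  rw [integral_const_mul, integral_add f1 g1, ← le_div_iff₀' hC]
  linarith

theorem Dm.lim (h : Dm μ g s) (hs : MeasurableSet s) (h0 : ∀ j x, 0 ≤ g j x) :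
    Tendsto (fun j => ∫ x in s, g j x ∂μ) atTop (𝓝 0) := by
  refine tendsto_order.2 ⟨fun η hη => Eventually.of_forall fun j =>
    hη.trans_le (integral_nonneg (h0 j)), fun η hη => ?_⟩
  filter_upwards [h _ (half_pos hη)] with j ⟨f, f0, f1, f2, f3⟩
  refine ((integral_mono_of_nonneg (Eventually.of_forall (h0 j)) f1.integrableOn
    ((ae_restrict_iff' hs).2 (Eventually.of_forall f3))).trans ((setIntegral_le_integral f1
      (Eventually.of_forall f0)).trans f2)).trans_lt (half_lt_self hη)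

theorem dm_of (hs : MeasurableSet s) (h0 : ∀ j x, 0 ≤ g j x) (hi : ∀ j, IntegrableOn (g j) s μ)
    (h : Tendsto (fun j => ∫ x in s, g j x ∂μ) atTop (𝓝 0)) : Dm μ g s := fun η hη => by
  filter_upwards [h.eventually_le_const hη] with j hj
  exact ⟨s.indicator (g j), indicator_nonneg fun x _ => h0 j x, (hi j).integrable_indicator hs,
    (integral_indicator hs).trans_le hj, fun x hx => (indicator_of_mem hx _).ge⟩

variable [TopologicalSpace X]

theorem dm_cov (hs : IsCompact s) (h : ∀ x ∈ s, ∃ t ∈ 𝓝 x, Dm μ g t) : Dm μ g s := by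
  refine hs.induction_on (p := Dm μ g) (fun η hη => Eventually.of_forall fun j =>
    ⟨0, fun _ => le_rfl, integrable_zero _ _ _, by simpa using hη.le, fun _ h => h.elim⟩)
    (fun s t st h η hη => (h η hη).mono fun j ⟨f, a, b, c, d⟩ => ⟨f, a, b, c, fun x hx => d x (st hx)⟩)
    (fun s t h h' => h.two h' one_pos fun j x hx a b a0 b0 h1 h2 => ?_) fun x hx => ?_
  · rcases hx with hx | hx
    · linarith [h1 hx]
    · linarith [h2 hx]
  · obtain ⟨t, t1, t2⟩ := h x hx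
    exact ⟨t, mem_nhdsWithin_of_mem_nhds t1, t2⟩

theorem Dm.zero [IsFiniteMeasure μ] [μ.IsOpenPosMeasure] {x : X} {δ : ℝ} (hδ : 0 < δ)
    (hs : s ∈ 𝓝 x) (h : Dm μ (fun _ _ => δ) s) : False := by
  have p : 0 < μ.real s :=
    ENNReal.toReal_pos (Measure.measure_pos_of_mem_nhds _ hs).ne' (measure_ne_top _ _)
  obtain ⟨j, f, f0, f1, f2, f3⟩ := (h _ (half_pos (mul_pos hδ p))).exists
  have := (mul_le_mul_of_nonneg_left (measureReal_mono (s₂ := {x | δ ≤ f x}) f3
    (measure_ne_top μ _)) hδ.le).trans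
    (mul_meas_ge_le_integral_of_nonneg (Eventually.of_forall f0) f1 δ)
  linarith [mul_pos hδ p]

end dm

section mx

variable {σ : Type} [Fintype σ]

theorem mv_le (A : Mx σ) (v : σ → ℂ) : ‖A *ᵥ v‖ ≤ (∑ i, ∑ j, ‖A i j‖) * ‖v‖ :=
  (pi_norm_le_iff_of_nonneg (by positivity)).2 fun i => (P79.mv_le A v i).trans
    (mul_le_mul_of_nonneg_right (Finset.single_le_sum (f := fun i => ∑ j, ‖A i j‖)
      (fun _ _ => by positivity) (Finset.mem_univ i)) (norm_nonneg _))

theorem q_le (A : Mx σ) (v : σ → ℂ) : √(star v ⬝ᵥ A *ᵥ v).re ≤ √(∑ i, ∑ j, ‖A i j‖) * ‖v‖ := by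
  rw [← Real.sqrt_sq (norm_nonneg v), ← Real.sqrt_mul (by positivity)]
  refine Real.sqrt_le_sqrt ((Complex.re_le_norm _).trans ((norm_sum_le _ _).trans ?_))
  rw [Finset.sum_mul]
  refine Finset.sum_le_sum fun i _ => ?_
  rw [norm_mul, Pi.star_apply, norm_star, sq, mul_left_comm]
  exact mul_le_mul (norm_le_pi_norm v i) (P79.mv_le A v i) (norm_nonneg _) (norm_nonneg _)

theorem nb_le {X : Type} [TopologicalSpace X] {A : X → Mx σ} {x : X}
    (h : ∀ i j, ContinuousAt (fun y => A y i j) x) :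
    ∃ C : ℝ, 1 ≤ C ∧ ∀ᶠ y in 𝓝 x, ∑ i, ∑ j, ‖A y i j‖ ≤ C :=
  ⟨∑ i, ∑ j, ‖A x i j‖ + 1, le_add_of_nonneg_left (by positivity),
    (tendsto_finsetSum _ fun i _ => tendsto_finsetSum _ fun j _ => (h i j).norm).eventually_le_const
      (lt_add_one _)⟩

end mx

variable {n : ℕ} {M : Mf n} {I : Type} [Fintype I] {S : Sd M I} {a : ℝ → M.X → ℝ} {q : Sq}

theorem pn_at {σ : Type} [Fintype σ] [DecidableEq σ] {b : Bun M σ} (hb : b.Ok)
    {Z : M.Fam (σ → ℂ)} {e : M.Ch} (he : e ∈ M.C) {y : M.X} (hy : y ∈ e.source)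
    (h : Z e (e y) = b.T e (M.ch y) y *ᵥ M.ev Z y) :
    b.pn Z y = (star (Z e (e y)) ⬝ᵥ b.G e (e y) *ᵥ Z e (e y)).re := by
  rw [Bun.pn, Bun.pp, h, Mf.ev.eq_1 M b.G, hb.cmp e he _ (Mf.ch_mem y) y hy (Mf.mem_ch y),
    ← Matrix.mulVec_mulVec, ← Matrix.mulVec_mulVec, Matrix.dotProduct_mulVec,
    ← Matrix.star_mulVec]

/-- The contractions with the weights converge in the charts. -/
theorem genc [M.Cpt] (h : Zs S a) {m : ℕ} {T A : M.Fam (Fs n → ℂ)} (hT : HO S m T)
    (hol : M.All fun e z => e.symm z ∈ Of S.toDk → HolV (A e) z)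
    (lim : ∀ e ∈ M.C, ∀ x ∈ e.source, x ∈ Of S.toDk → ∃ s ∈ 𝓝 x, ∀ c : ℝ,
      Dm (M.mu S.H) (fun j y => Real.exp (-(c * tp a q j y)) *
        ‖anv (gd (ph S (tp a q j) (q.d j) e) (e y)) *ᵥ T e (e y) - A e (e y)‖) s) :
    HO S m (fun e z => pf0 (T e) z - ((m : ℂ) - 1) • A e z) ∧
      Lq S a q m T fun e z => pf0 (T e) z - ((m : ℂ) - 1) • A e z := by
  have hH := S.kae.toMet
  obtain ⟨-, i1, i2, -⟩ := mMU n M S.H hH
  have ok := (aLAM n M S.H _ _ hH (K3E.bKAN n M S.H m hH).1).1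
  set B : M.Fam (Fs n → ℂ) := fun e z => A e z - anv (gd (ld (S.H e)) z) *ᵥ T e z with hB
  set Z : ℕ → M.Fam (Fs n → ℂ) := fun j e z =>
    anv (gd (ph S (tp a q j) (q.d j) e) z) *ᵥ T e z - A e z with hZ
  have l1 : ∀ j, M.Ov fun e e' x => x ∈ Of S.toDk → iot M (pj S a q j) T e (e x) =
      (lk S.H m).T e e' x *ᵥ iot M (pj S a q j) T e' (e' x) := fun j e he e' he' x hx hx' k => by
    have h2 := (st_FK n 0 0 (gd (M.lc (pj S a q j) e) (e x)) (M.J e e' x) 0 0).2.2.2.2.1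
    rw [I20.gd_cmp (sm_pj h j) e he e' he' x hx hx'] at h2
    rw [K92.tr_eq, iot, iot, hT.cmp e he e' he' x hx hx' k, Matrix.mulVec_smul,
      Matrix.mulVec_mulVec, Matrix.mulVec_mulVec, h2]
  have l2 : ∀ j, M.All fun e z => Z j e z = iot M (pj S a q j) T e z - B e z :=
    fun j e he z hz => by
      have g : gd (ph S (tp a q j) (q.d j) e) z =
          gd (ld (S.H e)) z + gd (M.lc (pj S a q j) e) z := funext fun k =>
        dz_add (cd_diff (ld_sm hH e he z hz)) (cd_diff ((sm_pj h j).lc e he z hz))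
      simp only [hZ, hB, iot, g, (st_FK n _ _ 0 1 0 0).2.2.2.2.2.2.2.2.1, Matrix.add_mulVec]
      abel
  have cB : ∀ e ∈ M.C, ∀ x ∈ e.source, x ∈ Of S.toDk → ContinuousAt (fun y => B e (e y)) x :=
    fun e he x hx k => by
      have k' : e.symm (e x) ∈ Of S.toDk := by rwa [e.left_inv hx]
      refine ContinuousAt.comp (g := B e) ?_ (e.continuousAt hx)
      simp only [hB, I20.anv_mv]
      refine (continuousAt_pi.2 fun i => (hol.at he hx k' i).self_of_nhds.continuousAt).sub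
        (tendsto_finsetSum _ fun i _ => (cd_dz ((ld_sm hH).at he hx) i).continuousAt.smul ?_)
      exact (Matrix.mulVecLin (an i)).continuous_of_finiteDimensional.continuousAt.comp
        (continuousAt_pi.2 fun i => (hT.hol.at he hx k' i).self_of_nhds.continuousAt)
  have l3 : M.Ov fun e e' x => x ∈ Of S.toDk →
      B e (e x) = (lk S.H m).T e e' x *ᵥ B e' (e' x) := fun e he e' he' x hx hx' k => by
    have cT : ∀ i j, ContinuousAt (fun y => (lk S.H m).T e e' y i j) x := fun i j =>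
      ((ok.tsm e he e' he' x hx hx' i j).continuousAt.comp (e'.continuousAt hx')).congr
        ((e'.open_source.eventually_mem hx').mono fun y hy => by
          simp only [Function.comp_apply, e'.left_inv hy])
    have cD : ContinuousAt (fun y => ‖B e (e y) - (lk S.H m).T e e' y *ᵥ B e' (e' y)‖) x := by
      refine ((cB e he x hx k).sub (continuousAt_pi.2 fun i => ?_)).norm
      simp only [Matrix.mulVec, dotProduct]
      exact tendsto_finsetSum _ fun j _ => (cT i j).mul (continuousAt_pi.1 (cB e' he' x hx' k) j)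
    obtain ⟨C, C1, hC⟩ := nb_le cT
    obtain ⟨s, s1, s2⟩ := lim e he x hx k
    obtain ⟨t, t1, t2⟩ := lim e' he' x hx' k
    by_contra c
    have p := norm_pos_iff.2 (sub_ne_zero.2 c)
    have st : ∀ᶠ y in 𝓝 x, y ∈ s ∩ t := inter_mem s1 t1
    have nb := ((cD.eventually (lt_mem_nhds (half_lt_self p))).and hC).and
      (st.and ((e.open_source.eventually_mem hx).and
        ((e'.open_source.eventually_mem hx').and (of_open.eventually_mem k))))
    refine Dm.zero (half_pos p) nb ((s2 0).two (t2 0) (one_pos.trans_le C1) ?_)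
    rintro j y ⟨⟨y1, y2⟩, y3, y4, y5, y6⟩ u v u0 v0 h1 h2
    refine y1.le.trans ?_
    have h3 := h1 y3.1
    have h4 := h2 y3.2
    simp only [zero_mul, neg_zero, Real.exp_zero, one_mul] at h3 h4
    have d : B e (e y) - (lk S.H m).T e e' y *ᵥ B e' (e' y) =
        (lk S.H m).T e e' y *ᵥ Z j e' (e' y) - Z j e (e y) := by
      rw [(l2 j).at he y4, (l2 j).at he' y5, l1 j e he e' he' y y4 y5 y6,
        Matrix.mulVec_sub _ (iot M _ T e' _)]
      abel
    rw [d]
    refine (norm_sub_le _ _).trans ((add_le_add ((mv_le _ _).trans (mul_le_mul y2 h4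
      (norm_nonneg _) (by linarith))) h3).trans ?_)
    nlinarith
  refine gen h hT hol (fun e he e' he' x hx hx' k =>
    (l3 e he e' he' x hx hx' k).trans (K92.tr_eq _ _ _ _)) fun K hK c => ?_
  refine Dm.lim (dm_cov hK.1 fun x hx => ?_) hK.1.measurableSet fun j x => by positivity
  have he := Mf.ch_mem x
  have hs := Mf.mem_ch x
  obtain ⟨s, s1, s2⟩ := lim _ he x hs (hK.2 hx)
  obtain ⟨C, C1, hC⟩ := nb_le (A := fun y => (lk S.H m).G (M.ch x) (M.ch x y)) fun i j =>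
    (ok.gsm.ch x i j).continuousAt.comp ((M.ch x).continuousAt hs)
  refine ⟨_, (hC.and ((M.ch x).open_source.eventually_mem hs)).and
    ((show ∀ᶠ y in 𝓝 x, y ∈ s from s1).and (of_open.eventually_mem (hK.2 hx))),
    (s2 c).two (s2 c) (Real.sqrt_pos.2 (one_pos.trans_le C1))
      fun j y ⟨⟨y1, y2⟩, y3, y4⟩ u v u0 v0 h1 _ => ?_⟩
  have r := pn_at ok (Z := Z j) he y2 (by
    rw [Mf.ev, (l2 j).at he y2, (l2 j).ch y, Matrix.mulVec_sub,
      l1 j _ he _ (Mf.ch_mem y) y y2 (Mf.mem_ch y) y4, l3 _ he _ (Mf.ch_mem y) y y2 (Mf.mem_ch y) y4])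
  have w := (q_le ((lk S.H m).G (M.ch x) (M.ch x y)) (Z j (M.ch x) (M.ch x y))).trans
    (mul_le_mul_of_nonneg_right (Real.sqrt_le_sqrt y1) (norm_nonneg _))
  rw [← r] at w
  refine (mul_le_mul_of_nonneg_left w (Real.exp_pos _).le).trans ?_
  rw [mul_left_comm]
  exact mul_le_mul_of_nonneg_left ((h1 y3).trans (le_add_of_nonneg_right v0)) (Real.sqrt_nonneg _)

theorem vec_hol {Y : M.Fam (E n)} (hY : Hol Y) : Hol (vec M Y) := fun e he z hz =>
  (st_LIE st_FK n _ _ (fun _ => vac n) _ z (hY e he z hz) (hY e he z hz)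
    (fun _ => Eventually.of_forall fun _ => differentiableAt_const _) (Nab5.hol0 z)).2.2.2.2.2.2.1

/-- The product of a field and of a family of fields that is given in the charts. -/
theorem prc [M.Cpt] (h : Zs S a) {k m : ℕ} {Y U : M.Fam (E n)} {γ : M.Fam ℂ}
    (hT : HM M k (wd M Y (vec M U))) (hY : Hol Y) (hU : Fd S a q m U γ)
    (loc : ∀ e ∈ M.C, ∃ t : E n → ℂ, DifferentiableOn ℂ t (e.target ∩ e.symm ⁻¹' Of S.toDk) ∧
      ∀ K, IsCompact K → K ⊆ e.target ∩ e.symm ⁻¹' Of S.toDk → ∀ c η : ℝ, 0 < η → ∀ᶠ j in atTop,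
        ∃ f : M.X → ℝ, (∀ x, 0 ≤ f x) ∧ Integrable f (M.mu S.H) ∧ ∫ x, f x ∂M.mu S.H ≤ η ∧
          ∀ z ∈ K, Real.exp (-(c * tp a q j (e.symm z))) *
            ‖dir (Y e) (ph S (tp a q j) (q.d j) e) z - t z‖ ≤ f (e.symm z)) :
    ∃ R, HO S k R ∧ DgM M 1 R ∧ Lq S a q k (wd M Y (vec M U)) R := by
  have hH := S.kae.toMet
  obtain ⟨-, i1, -⟩ := mMU n M S.H hH
  choose! δ d1 d2 using loc
  have op : ∀ e : M.Ch, IsOpen (e.target ∩ e.symm ⁻¹' Of S.toDk) := fun e =>
    e.symm.isOpen_inter_preimage of_open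
  have vY := vec_hol hY
  have vU := vec_hol hU.ht.hol
  refine (genc (q := q) h (ho_of hT)
    (A := fun e z => δ e z • vec M U e z - γ e z • vec M Y e z) (fun e he z hz k i => ?_)
    fun e he x hx k => ?_).elim fun r1 r2 => ⟨_, r1, prd_dg _ _ _ _ _, r2⟩
  · filter_upwards [(d1 e he).eventually_differentiableAt ((op e).mem_nhds ⟨hz, k⟩),
      hU.hol e he z hz k, vY e he z hz i, vU e he z hz i] with w h1 h2 h3 h4
    exact (h1.mul h4).sub (h2.mul h3)
  have hz := e.map_source hx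
  obtain ⟨K, K1, K2, K3⟩ := exists_compact_subset (op e)
    (show e x ∈ _ from ⟨hz, by rwa [mem_preimage, e.left_inv hx]⟩)
  have cp : Cp S (e.symm '' K) :=
    ⟨K1.image_of_continuousOn (e.continuousOn_symm.mono fun z hz => (K3 hz).1),
      fun y ⟨z, hz, hy⟩ => hy ▸ (K3 hz).2⟩
  have nb : ∀ᶠ y in 𝓝 x, y ∈ e.symm '' K := by
    have := e.symm.image_mem_nhds hz (mem_interior_iff_mem_nhds.1 K2)
    rwa [e.left_inv hx] at this
  have c1 : ContinuousAt (fun y => ‖vec M U e (e y)‖ +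
      √((S.H e (e y)).det.re ^ m) * ‖vec M Y e (e y)‖) x :=
    ContinuousAt.comp (g := fun z => ‖vec M U e z‖ + √((S.H e z).det.re ^ m) * ‖vec M Y e z‖)
      ((continuousAt_pi.2 fun i => (vU e he _ hz i).self_of_nhds.continuousAt).norm.add
        (((cd_re (hH.sm e he _ hz).det).continuousAt.pow m).sqrt.mul
          (continuousAt_pi.2 fun i => (vY e he _ hz i).self_of_nhds.continuousAt).norm))
      (e.continuousAt hx)
  have n2 := ((c1.eventually_le_const (lt_add_one _)).and nb).and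
    (e.open_source.eventually_mem hx)
  refine ⟨_, n2, fun c => ?_⟩
  have D1 : Dm (M.mu S.H) (fun j y => Real.exp (-(c * tp a q j y)) *
      ‖dir (Y e) (ph S (tp a q j) (q.d j) e) (e y) - δ e (e y)‖) (e.symm '' K) := fun η hη =>
    (d2 e he K K1 K3 c η hη).mono fun j ⟨f, f0, f1, f2, f3⟩ => ⟨f, f0, f1, f2, by
      rintro _ ⟨z, hz, rfl⟩
      beta_reduce
      rw [e.right_inv (K3 hz).1]
      exact f3 z hz⟩
  have D2 := dm_of cp.1.measurableSet (fun j x => mul_nonneg (Real.exp_pos _).le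
    (div_nonneg (norm_nonneg _) (Real.sqrt_nonneg _))) (fun j =>
      (((sm_tp (q := q) h j).const_mul c).neg.exp.continuous.continuousOn.mul
        ((fd_con h hU j).mono cp.2)).integrableOn_compact cp.1) (hU.lim _ cp c)
  refine D1.two D2 (C := ‖vec M U e (e x)‖ + √((S.H e (e x)).det.re ^ m) * ‖vec M Y e (e x)‖ + 1)
    (by positivity) ?_
  rintro j y ⟨⟨y1, y2⟩, y3⟩ u v u0 v0 h1 h2
  have h3 := h1 y2
  have h4 := h2 y2
  have p : 0 < √((S.H e (e y)).det.re ^ m) :=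
    Real.sqrt_pos.2 (pow_pos (Mf.pd_det_re (hH.pos.at he y3)) m)
  beta_reduce at h4
  rw [fd_inv h hU j e he _ (Mf.ch_mem y) y y3 (Mf.mem_ch y) (cp.2 y2), ← mul_div_assoc,
    div_le_iff₀ p] at h4
  have d : anv (gd (ph S (tp a q j) (q.d j) e) (e y)) *ᵥ wd M Y (vec M U) e (e y) -
      (δ e (e y) • vec M U e (e y) - γ e (e y) • vec M Y e (e y)) =
      (dir (Y e) (ph S (tp a q j) (q.d j) e) (e y) - δ e (e y)) • vec M U e (e y) -
      (dir (U e) (ph S (tp a q j) (q.d j) e) (e y) - γ e (e y)) • vec M Y e (e y) := by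
    rw [an_wd]
    module
  beta_reduce at h3 ⊢
  rw [d]
  refine (mul_le_mul_of_nonneg_left (norm_sub_le _ _) (Real.exp_pos _).le).trans ?_
  rw [norm_smul, norm_smul, mul_add, ← mul_assoc, ← mul_assoc]
  have n1 := norm_nonneg (vec M U e (e y))
  have n3 := mul_nonneg p.le (norm_nonneg (vec M Y e (e y)))
  refine (add_le_add (mul_le_mul_of_nonneg_right h3 n1)
    (mul_le_mul_of_nonneg_right h4 (norm_nonneg _))).trans ?_
  rw [mul_assoc]
  refine le_trans ?_ (mul_le_mul_of_nonneg_right y1 (add_nonneg u0 v0))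
  nlinarith [mul_nonneg u0 n3, mul_nonneg v0 n1]

end Pool.Agent.Lib.N4S.G9
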