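import Pool.Agent.Lib.N4S.Blue
import Pool.Agent.Lib.N4S.Gen9b

/-! Project n4s, row LQY: the product of a parallel field and of local fields that are tangent to
a parallel multivector. -/

open scoped Classical Topology ContDiff ComplexOrder Matrix
open Set Filter MeasureTheory

noncomputable section

namespace Pool.Agent.Lib.N4S

open Pool.Agent.Lib.SV (E)
open Pool.Agent.Lib.HS32 Pool.Agent.Lib.HLK Pool.Agent.Lib.F4 Pool.Agent.Lib.NU4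

/-- Local fields that are tangent to a parallel multivector. -/
def St_N4L : Prop := ∀ (n : ℕ) (M : Mf n) [M.Cpt] (I : Type) [Fintype I] (S : Sd M I)
  (a : ℝ → M.X → ℝ) (q : Sq) (l : ℕ) (π : M.Fam (Fs n → ℂ)), Zs S a → 2 ≤ l → HM M l π → Nz π →
  Sm0 S l π → Pr1 S a q l π → ∀ e ∈ M.C, ∀ (U : Set (E n)) (y : E n → E n), IsOpen U →
  U ⊆ e.target → (∀ z ∈ U, e.symm z ∈ Of S.toDk) → (∀ z ∈ U, HolV y z) →
  (∀ z ∈ U, crv (y z) *ᵥ π e z = 0) → ∃ h : E n → ℂ, DifferentiableOn ℂ h U ∧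
    (∀ z ∈ U, (((l : ℂ) - 1) * h z) • π e z = crv (y z) *ᵥ pf0 (π e) z) ∧
    ∀ K, IsCompact K → K ⊆ U → ∀ c η : ℝ, 0 < η → ∀ᶠ j in atTop, ∃ f : M.X → ℝ,
      (∀ x, 0 ≤ f x) ∧ Integrable f (M.mu S.H) ∧ ∫ x, f x ∂M.mu S.H ≤ η ∧
      ∀ z ∈ K, Real.exp (-(c * tp a q j (e.symm z))) *
        ‖dir y (ph S (tp a q j) (q.d j) e) z - h z‖ ≤ f (e.symm z)

/-- The divergences of the product converge. -/
def St_LQY : Prop := ∀ (n : ℕ) (M : Mf n) [M.Cpt] (I : Type) [Fintype I] (S : Sd M I)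
  (a : ℝ → M.X → ℝ) (q : Sq) (l m k : ℕ) (π : M.Fam (Fs n → ℂ)) (U Y : M.Fam (E n)), Zs S a →
  2 ≤ l → 2 ≤ m → HM M l π → Nz π → Sm0 S l π → Pr1 S a q l π → HT M m U →
  Pr1 S a q m (vec M U) → Hol Y → Zr M (wd M Y π) → HM M k (wd M Y (vec M U)) →
  ∃ R, HO S k R ∧ DgM M 1 R ∧ Lq S a q k (wd M Y (vec M U)) R

theorem st_LQY (h : St_N4L) : St_LQY := by
  intro n M _ I _ S a q l m k π U Y hZ hl hm h1 h2 h3 h4 hU hP hY z hT
  refine G9.prc hZ hT hY (G9.fdp hZ hm hU hP) fun e he => ?_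
  obtain ⟨t, t1, -, t2⟩ := h n M I S a q l π hZ hl h1 h2 h3 h4 e he _ (Y e)
    (e.symm.isOpen_inter_preimage G9.of_open) inter_subset_left (fun _ hw => hw.2)
    (fun w hw => hY e he w hw.1) fun w hw => z e he w hw.1
  exact ⟨t, t1, t2⟩

end Pool.Agent.Lib.N4S
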