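import Pool.Agent.Lib.NU4.B_FK
import Pool.Agent.Lib.NU4.B_ALG
import Pool.Agent.Lib.NU4.B_MAIN

/-! Project n4s: a projective structure and a second field bound the curvature of the canonical
bundle along the first field. -/

open scoped Classical Topology Matrix
open Set Filter MeasureTheory

noncomputable section

namespace Pool.Agent.Lib.N4S.G35

open Pool.Agent.Lib.SV (E)
open Pool.Agent.Lib.HS32 Pool.Agent.Lib.HLK Pool.Agent.Lib.F4 Pool.Agent.Lib.NU4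

/-- Fields of level one have no divergence. -/
theorem v1 {M : Mf 4} [M.Cpt] (no : NoS M) {U : M.Fam (E 4)} (hU : HT M 1 U) : V1 M U :=
  ⟨hU, no 1 one_pos _ (z0_sec (m := 1) ((st_DVC 4 M).1 U hU))⟩

theorem nzw (hFK : St_FK) {M : Mf 4} {V W : M.Fam (E 4)}
    (h : ¬Zr M fun e z => wg (V e z) (W e z)) :
    ¬Zr M (wd M V (vec M W)) ∧ ¬Zr M (wd M W (vec M V)) :=
  have k : ¬Zr M (wd M V (vec M W)) := fun c => h fun e he z hz =>
    (hFK 4 (V e z) (W e z) 0 0 0 0).2.2.2.2.2.2.2.2.2.2.2.2.2.2.2.1.1 (c e he z hz)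
  ⟨k, fun c => k (R1.swp hFK c)⟩

theorem nz1 {M : Mf 4} {U U' : M.Fam (E 4)} (k : ¬Zr M (wd M U (vec M U'))) : ¬Zr M U :=
  fun c => k fun e he z hz => by simp [wd, c e he z hz, crv]

theorem kle (hB2 : St_B2) (hRC : St_RC) (hT3 : St_T3) (hWR : St_WR) {M : Mf 4} [M.Cpt]
    {H : M.Fam (Mat 4)} {U U' : M.Fam (E 4)} {q : M.Fam ℂ} (hH : M.Kae H) (no : NoS M)
    (h : HT M 1 U) (h' : HT M 1 U') (k : ¬Zr M (wd M U (vec M U'))) (hq : Pq M H U q)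
    (fin : {N | ∃ s, HM2 M N s ∧ Nz s}.Finite) :
    ∫ x, qV M H (-M.ric H) U x ∂M.mu H ≤ 0 := by
  obtain ⟨m, g, g1, g2, g3, g4, g5⟩ := hWR M H U U' hH.toMet no (v1 no h) (v1 no h') (R1.nz k)
  obtain ⟨N, s, β, κ, s1, s2, s3, s4, s5⟩ :=
    hRC 4 M H U m g q hH.toMet (v1 no h) g1 g2 g3 g4 g5 hq fin
  obtain ⟨b1, b3, b4⟩ := hB2 4 M H N hH.toMet
  exact hT3 4 M H U _ _ s β q κ hH (v1 no h) b1 b3 ((b4 s).1 s1).1 ((b4 s).1 s1).2 s2 hq s3 s4 s5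

end Pool.Agent.Lib.N4S.G35
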