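import Pool.Agent.Lib.N4S.Kit78
import Pool.Agent.Lib.N4S.Glue35
import Pool.Agent.Lib.K3S.B_SG
import Pool.Agent.Lib.K3S.B_MS

/-! Project n4s: the last two assemblies. -/

open scoped Classical Topology ContDiff ComplexOrder Matrix
open Set Filter MeasureTheory

set_option linter.unusedVariables false

noncomputable section

namespace Pool.Agent.Lib.N4S.M43

open Pool.Agent.Lib.SV (E)
open Pool.Agent.Lib.HS32 Pool.Agent.Lib.HLK Pool.Agent.Lib.F4 Pool.Agent.Lib.NU4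
open Pool.Agent.Lib.K3E (kan wk lk)

variable {n : ℕ} {M : Mf n} {I : Type} [Fintype I]

/-- The complement of the divisors is dense. -/
theorem den [M.Cpt] (D : K3S.Dk M I) : Dense (Of D) := by
  have e : Of D = ⋂₀ range fun k => {x | sg D k x ≠ 0} := by ext x; simp [Of]
  rw [e]
  exact (finite_range _).dense_sInter (forall_mem_range.2 fun k =>
    isOpen_ne_fun (K78.sg_sm D k).continuous continuous_const)
    (forall_mem_range.2 fun k => (K3S.MS.sg K3S.bSG D k).2.1)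

theorem frq [M.Cpt] (D : K3S.Dk M I) :
    M.All fun e z => ∃ᶠ w in 𝓝 z, w ∈ e.target ∧ e.symm w ∈ Of D := fun e he z hz => by
  have h : ∃ᶠ x in map e.symm (𝓝 z), x ∈ Of D := by
    rw [e.symm.map_nhds_eq hz]
    exact mem_closure_iff_frequently.1 (den D _)
  exact (e.open_target.eventually_mem hz).and_frequently h

variable (S : Sd M I)

/-- The product with the equations is injective. -/
theorem up_zr [M.Cpt] {m : ℕ} {W : M.Fam (Fs n → ℂ)} (h : (lb S m).Sec W)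
    (k : Zr M (up S m W)) : Zr M W := fun e he z hz =>
  tendsto_nhds_unique_of_frequently_eq (h.sm e he z hz).continuousAt tendsto_const_nhds
    ((frq S.toDk e he z hz).mono fun w b =>
      (smul_eq_zero.1 (k e he w b.1)).resolve_left (K78.pf_ne S m he b.1 b.2))

variable (a : ℝ → M.X → ℝ) (q : Sq)

/-- The field given by the part of degree one. -/
theorem fld [M.Cpt] (hFK : St_FK) (hKIT : St_KIT) {m : ℕ} {U x : M.Fam (Fs n → ℂ)} {l : Filter ℕ}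
    (hU : Nw S m (prt M 1 U)) (hx : DgM M 1 x)
    (h : ¬Tendsto (fun j => (lj S a q m j).ip S.H U x) l (𝓝 0)) :
    ∃ W, HT M m W ∧ ¬Zr M W ∧ up S m (prt M 1 U) = vec M W ∧
      ¬Tendsto (fun j => (lj S a q m j).ip S.H (prt M 1 U) x) l (𝓝 0) := by
  obtain ⟨-, k2, -, -, k5, -⟩ := hKIT n M S.H m (up S m (prt M 1 U)) S.kae.toMet
  have w1 := (k5 (K78.up_hm S hU.sec hU.hol)).2.1
  have e2 : ∀ j, (lj S a q m j).ip S.H U x = (lj S a q m j).ip S.H (prt M 1 U) x := fun j => by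
    simp only [Bun.ip, lj, (hKIT n M S.H m U S.kae.toMet).2.2.2.2.2.2.2 _ _ 1 _ hx]
  have e1 : up S m (prt M 1 U) = vec M fun e z k => up S m (prt M 1 U) e z {k} := by
    funext e z
    refine (hFK n 0 0 0 0 0 _).2.2.2.2.2.2.2.2.2.2.2.2.2.2.2.2.2.1 fun A hA => ?_
    simp only [up, prt, Pi.smul_apply, if_neg hA, smul_zero]
  simp only [e2] at h
  refine ⟨_, w1, fun hz => h ?_, e1, h⟩
  have z : Zr M (prt M 1 U) := up_zr S hU.sec (e1 ▸ by_contra fun c =>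
    ((k2 _ w1).2.2.2 (R1.nz c)) hz)
  have z' : ∀ y, M.ev (prt M 1 U) y = 0 := fun y => z _ (Mf.ch_mem y) _ (Mf.ch_tgt y)
  simp only [Bun.ip, Bun.pp, z', star_zero, zero_dotProduct, integral_zero]
  exact tendsto_const_nhds

/-- A projective structure exists, or the curvature vanishes on the field. -/
theorem pq [M.Cpt] (hFK : St_FK) (hKIT : St_KIT) {V : M.Fam (E n)} {l : Filter ℕ} {A : Prop}
    (ob : ∃ b x, B0 S V b ∧ Ob S V b x)
    (hlx : ∀ x, (lb S 2).Sec x → Zr M ((oQ S.H).ap x) →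
      (∀ η : ℝ, 0 < η → ∃ y, (lb S 2).Sec y ∧ (lb S 2).nr S.H (x - (oQ S.H).ap y) ≤ η) ∨
      ∃ U, Nw S 2 U ∧ ¬Tendsto (fun j => (lj S a q 2 j).ip S.H U x) l (𝓝 0))
    (qex : ∀ b x, B0 S V b → Ob S V b x →
      (∀ η : ℝ, 0 < η → ∃ y, (lb S 2).Sec y ∧ (lb S 2).nr S.H (x - (oQ S.H).ap y) ≤ η) →
      ∃ r, Pq M S.H V r)
    (par : ∀ U, Nw S 2 U → Nw S 2 (prt M 1 U))
    (r1 : ∀ W, HT M 2 W → ¬Zr M W → Nn S 2 (vec M W) →
      A ∨ (Nz (wd M W (vec M V)) ∧ Zr M (wd M W (vec M (yy M 2 W V)))))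
    (pair : ∀ U W b x, Nw S 2 U → up S 2 U = vec M W → HT M 2 W → ¬Zr M W → B0 S V b →
      Ob S V b x → Nz (wd M W (vec M V)) → Zr M (wd M W (vec M (yy M 2 W V))) →
      Tendsto (fun j => (lj S a q 2 j).ip S.H U x) l (𝓝 0)) :
    A ∨ ∃ r, Pq M S.H V r := by
  obtain ⟨b, x, hb, hx⟩ := ob
  rcases hlx x hx.sec hx.cl with h | ⟨U, u1, u2⟩
  · exact Or.inr (qex b x hb hx h)
  obtain ⟨W, w1, w2, w3, w4⟩ := fld S a q hFK hKIT (par U u1) hx.deg u2
  exact (r1 W w1 w2 ⟨_, par U u1, fun e he z hz => by rw [w3]⟩).imp_right fun ⟨k1, k2⟩ =>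
    (w4 (pair _ W b x (par U u1) w3 w1 w2 hb hx k1 k2)).elim

/-- The theorem on the manifold layer. -/
theorem main {M : Mf 4} [M.Cpt] (S : Sd M I) (hFK : St_FK) (hB2 : St_B2) (hRC : St_RC)
    (hT3 : St_T3) (hWR : St_WR) {V W : M.Fam (E 4)} (no : NoS M)
    (fin : {N | ∃ s, HM2 M N s ∧ Nz s}.Finite) (hV : HT M 1 V) (hW : HT M 1 W) (tV : Tg S V)
    (tW : Tg S W) (h : ¬Zr M fun e z => wg (V e z) (W e z))
    (pq : ∀ U, V1 M U → Tg S U → Sm0 S 1 (vec M U) ∨ ∃ r, Pq M S.H U r)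
    (smv : ∀ U, V1 M U → ∫ x, qV M S.H (-M.ric S.H) U x ∂M.mu S.H ≤ 0 → Sm0 S 1 (vec M U))
    (r2 : ∀ U U', V1 M U → V1 M U' → ¬Zr M U → ¬Zr M U' → Tg S U → Tg S U' →
      Sm0 S 1 (vec M U) → Sm0 S 1 (vec M U') → Zr M (wd M U (vec M U'))) : False := by
  have key : ∀ U U', HT M 1 U → HT M 1 U' → Tg S U → ¬Zr M (wd M U (vec M U')) →
      Sm0 S 1 (vec M U) := fun U U' u u' t k => (pq U (G35.v1 no u) t).elim id fun ⟨r, hr⟩ =>
    smv U (G35.v1 no u) (G35.kle hB2 hRC hT3 hWR S.kae no u u' k hr fin)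
  obtain ⟨k1, k2⟩ := G35.nzw hFK h
  exact k1 (r2 V W (G35.v1 no hV) (G35.v1 no hW) (G35.nz1 k1) (G35.nz1 k2) tV tW
    (key V W hV hW tV k1) (key W V hW hV tW k2))

end Pool.Agent.Lib.N4S.M43
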