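import Pool.Agent.Lib.N4S.Blue
import Pool.Agent.Lib.N4S.Main43
import Pool.Agent.Lib.NU4.B_B2
import Pool.Agent.Lib.NU4.B_RC
import Pool.Agent.Lib.NU4.B_T3
import Pool.Agent.Lib.NU4.B_WR
import Pool.Agent.Lib.NU4.B_XS
import Pool.Agent.Lib.NU4.B_VB
import Pool.Agent.Lib.NU4.B_EIG
import Pool.Agent.Lib.NU4.B_LIE
import Pool.Agent.Lib.NU4.B_KIT

/-! Project n4s: the theorem on the manifold layer. -/

open scoped Classical Topology Matrix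
open Set Filter

noncomputable section

namespace Pool.Agent.Lib.N4S

open Pool.Agent.Lib.HS32 Pool.Agent.Lib.HLK Pool.Agent.Lib.F4

theorem st_MAIN (hSEQ : St_SEQ) (hZW : St_ZW) (hINF : St_INF) (hPQ : St_PQ) (hSMV : St_SMV)
    (hAFX : St_AFX) (hR2 : St_R2) : St_MAIN := by
  intro M _ I _ S V W no hV hW tV tW h
  obtain ⟨q⟩ := hSEQ
  obtain ⟨a, hZ⟩ := hZW 4 M I S
  have hF := NU4.st_FK
  have hL := NU4.st_LIE hF
  refine by_contra fun nu => M43.main S hF NU4.st_B2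
    (NU4.st_RC (NU4.st_EIG hL hF NU4.st_KIT) hL) (NU4.st_T3 NU4.st_XS NU4.st_VB)
    (NU4.st_WR hF (NU4.st_ALG hF) hL NU4.st_KIT) no (hINF 4 M I S no).2 hV hW tV tW h
    (fun U => hPQ M I S a q U ⟨hZ, no, nu⟩) (fun U u k => hSMV 4 M I S a U hZ u (Or.inr k))
    fun U U' u u' _ _ t t' s s' => ?_
  obtain ⟨δ, d⟩ := hAFX 4 M I S a q U hZ no u t s
  obtain ⟨δ', d'⟩ := hAFX 4 M I S a q U' hZ no u' t' s'
  exact hR2 M I S a q 1 1 U U' δ δ' ⟨hZ, no, nu⟩ one_pos one_pos d d'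

end Pool.Agent.Lib.N4S
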