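import Pool.Agent.Lib.NU4.B_REC

/-! Project n4s: the recurrence argument for potentials that are only bounded in the mean. -/

open scoped Classical Topology ContDiff ComplexOrder Matrix
open Set Filter MeasureTheory

set_option linter.unusedVariables false
set_option linter.unusedSectionVars false

noncomputable section

namespace Pool.Agent.Lib.N4S.Rc93

open Pool.Agent.Lib.SV (E)
open Pool.Agent.Lib.HS32 Pool.Agent.Lib.HLK Pool.Agent.Lib.F4 Pool.Agent.Lib.NU4
open Pool.Agent.Lib.K3E (kan wk lk)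
open Pool.Agent.Lib.NU4.R93 hiding core

variable {n : ℕ} {M : Mf n}

/-- The recurrence argument. -/
theorem core [M.Cpt] {H : M.Fam (Mat n)} (hH : M.Met H) {W : M.Fam (E n)} (hW : HT M 2 W)
    {ν : M.X → ℝ} (hν : M.Sm ν) (ν0 : ∀ x, 0 ≤ ν x) (x0 : ∃ x, ν x ≠ 0) {C : ℝ}
    (hC : M.All fun e z => ‖vd (W e) (M.lc ν e) z‖ ≤ C * ν (e.symm z) * (H e z).det.re)
    {f : M.Fam ℂ} (fh : M.All fun e z => ν (e.symm z) ≠ 0 →
      HolN (f e) z ∧ vd (W e) (f e) z + 2 * dv (W e) z * f e z = 1)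
    (fc : M.Ov fun e e' x => ν x ≠ 0 → jd M e e' x ^ 2 * f e' (e' x) = f e (e x)) {A : ℝ}
    (hP : ∀ η : ℝ, 0 < η → ∃ u B : M.X → ℝ, M.Sm u ∧ (∀ x, u x ≤ 0) ∧
      ∫ x, -u x ∂M.mu H ≤ A ∧ Continuous B ∧ ∫ x, B x ∂M.mu H ≤ η ∧
      M.All fun e z => ‖vd (W e) (fun w => ((ph M H e w + u (e.symm w) : ℝ) : ℂ)) z -
        dv (W e) z‖ ≤ B (e.symm z) * (H e z).det.re) : False := by
  obtain ⟨x0, h0⟩ := x0
  have p0 : 0 < ν x0 := (ν0 x0).lt_of_ne' h0
  obtain ⟨-, fin, op, -, I, -⟩ := mMU n M H hH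
  have pos : ∀ (s : ℂ) (d : ℝ), 0 < (1 + Complex.normSq s * d ^ 2) ^ 2 := fun s d => by
    have := Complex.normSq_nonneg s
    positivity
  have hb : 0 < 2 / ν x0 := by positivity
  have wt := (mINV n M H hH).2.2.2.2.2.2.1
  have sm := cd_cut hν (2 / ν x0)
    (g := fun e z => ((((1 + Complex.normSq (f e z) * (H e z).det.re ^ 2) ^ 2)⁻¹ : ℝ) : ℂ))
    fun e he z hz h => by
      have s := ((mHOL n _ z).2.2 (fh e he z hz h).1).1
      have s1 : ContDiffAt ℝ ∞ (fun w => Complex.normSq (f e w)) z :=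
        (cd_re (s.mul (cd_star s))).congr_of_eventuallyEq (Eventually.of_forall fun w => by
          simp only [Complex.star_def, Complex.mul_conj, Complex.ofReal_re])
      exact cd_ofReal (((contDiffAt_const.add
        (s1.mul ((cd_re (hH.sm e he z hz).det).pow 2))).pow 2).inv (pos _ _).ne')
  have inv : M.Inv fun e z => ch (2 / ν x0 * ν (e.symm z)) /
      (1 + Complex.normSq (f e z) * (H e z).det.re ^ 2) ^ 2 := fun e he e' he' x hx hx' => by
    beta_reduce
    rw [e.left_inv hx, e'.left_inv hx']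
    by_cases h : ν x = 0
    · rw [h, mul_zero, ch_zero zero_le_one, zero_div, zero_div]
    · rw [det_cmp hH e he e' he' x hx hx', ← fc e he e' he' x hx hx' h, map_mul, map_pow]
      congr 3
      ring
  have cψ := (inv.sm fun e he z hz => (cd_re (sm e he z hz)).congr_of_eventuallyEq
    (Eventually.of_forall fun w => by
      simp only [← Complex.ofReal_mul, Complex.ofReal_re, div_eq_mul_inv])).continuous
  have rep := inv.rep
  set ψ := M.ev fun e z => ch (2 / ν x0 * ν (e.symm z)) /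
      (1 + Complex.normSq (f e z) * (H e z).det.re ^ 2) ^ 2 with hψ
  have ψ0 : ∀ x, 0 ≤ ψ x := fun x => div_nonneg (ch_nn _) (pos _ _).le
  have ψ1 : ∀ x, ψ x ≤ 1 := fun x => by
    refine (div_le_one (pos _ _)).2 ((ch_le _).trans (one_le_pow₀ ?_))
    exact le_add_of_nonneg_right (mul_nonneg (Complex.normSq_nonneg _) (sq_nonneg _))
  have ψp : ψ x0 ≠ 0 := by
    refine (div_pos ?_ (pos _ _)).ne'
    rw [Mf.ch_symm, div_mul_cancel₀ _ h0, ch_one le_rfl]
    exact one_pos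
  have ip : 0 < ∫ x, ψ x ∂M.mu H :=
    cψ.integral_pos_of_hasCompactSupport_nonneg_nonzero (HasCompactSupport.of_compactSpace _) ψ0 ψp
  set P := ∫ x, ψ x ∂M.mu H with hPd
  clear_value P ψ
  have et := Real.exp_pos (-(|A| / P))
  obtain ⟨u, B, su, u0, hA, cB, hη, hB⟩ := hP (Real.exp (-(|A| / P)) * P / 2) (by positivity)
  have s1 : ∫ x, ψ x * Real.exp (u x) ∂M.mu H ≤ Real.exp (-(|A| / P)) * P / 2 := by
    have t := ((ka_lim (M.mu H) hν.continuous ν0 hb).const_mul C).const_add (∫ x, B x ∂M.mu H)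
    rw [mul_zero, add_zero] at t
    refine (ge_of_tendsto' t fun k => ?_).trans hη
    have ak : 0 < ((k : ℝ) + 1) * (2 / ν x0) := mul_pos (Nat.cast_add_one_pos k) hb
    refine step hH hW hν ν0 hC fh fc su u0 cB cψ hB ak fun e he z hz => ?_
    beta_reduce
    rw [rep e he z hz]
    refine div_le_div_of_nonneg_right (ch_mono (mul_le_mul_of_nonneg_right ?_ (ν0 _)))
      (pos _ _).le
    exact le_mul_of_one_le_left hb.le (by simp)
  have i1 := (I _ _ cψ).const_mul (Real.exp (-(|A| / P)) * (1 + |A| / P))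
  have i2 := (I _ _ su.neg.continuous).const_mul (Real.exp (-(|A| / P)))
  have m := integral_mono (i1.sub i2) (I _ _ (cψ.mul su.exp.continuous)) fun x => by
    have a := ψ0 x
    have b := ψ1 x
    have c := u0 x
    have d := Real.add_one_le_exp (u x + |A| / P)
    have g : Real.exp (u x) = Real.exp (-(|A| / P)) * Real.exp (u x + |A| / P) := by
      rw [← Real.exp_add]; congr 1; ring
    show Real.exp (-(|A| / P)) * (1 + |A| / P) * ψ x - Real.exp (-(|A| / P)) * -u x ≤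
      ψ x * Real.exp (u x)
    rw [g, mul_left_comm, mul_assoc, ← mul_sub]
    refine mul_le_mul_of_nonneg_left ?_ et.le
    nlinarith [mul_le_mul_of_nonneg_left d a, mul_nonneg (sub_nonneg.2 b) (neg_nonneg.2 c)]
  rw [integral_sub' i1 i2, integral_const_mul, integral_const_mul, ← hPd] at m
  have k1 : (1 + |A| / P) * P = P + |A| := by field_simp
  have k2 := mul_le_mul_of_nonneg_left (hA.trans (le_abs_self A)) et.le
  simp only [Pi.mul_apply] at m
  rw [mul_assoc, k1, mul_add] at m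
  have k3 := mul_pos et ip
  linarith

/-- Recurrence, for an arbitrary family of smooth potentials with bounded mean. -/
theorem rec93 (hFK : St_FK) (hLIE : St_LIE) (hKIT : St_KIT) (n : ℕ) (M : Mf n) [M.Cpt]
    (H : M.Fam (Mat n)) (l : ℕ) (W : M.Fam (E n)) (ρ τ : M.Fam (Fs n → ℂ)) (hH : M.Met H)
    (hW : HT M 2 W) (hP : ∃ A : ℝ, ∀ η : ℝ, 0 < η → ∃ u, M.Sm u ∧ (∀ x, u x ≤ 0) ∧
      ∫ x, -u x ∂M.mu H ≤ A ∧
      ∫ x, √((lk H 2).pn ((oP H (wt M H 2 u)).ap (vec M W)) x) ∂M.mu H ≤ η)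
    (hρ : HM M l ρ) (hτ : HM M (2 + l) τ) (zρ : Zr M (wd M W ρ)) (zτ : Zr M (wd M W τ))
    (h1 : M.All fun e z => nab M 2 l W ρ e z = τ e z ∧ Pr (ρ e z) (τ e z))
    (h2 : Zr M (nab M 2 (2 + l) W τ)) : Zr M τ := by
  by_contra nz
  have ok : ∀ m, (lk H m).Ok := fun m => (aLAM n M H _ _ hH (K3E.bKAN n M H m hH).1).1
  have sτ := ((hKIT n M H _ τ hH).1.1 hτ).1
  have r := pn_rep (ok _) sτ
  have lie := fun (Y : M.Fam (Fs n → ℂ)) (hY : Hol Y) (e : M.Ch) (he : e ∈ M.C) (z : E n)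
    (hz : z ∈ e.target) (f : E n → ℂ) (hf : HolN f z) =>
    hLIE n (W e) (W e) (Y e) f z (hW.hol e he z hz) (hW.hol e he z hz) (hY e he z hz) hf
  have one : ∀ z : E n, HolN (fun _ : E n => (1 : ℂ)) z := fun z =>
    Eventually.of_forall fun _ => differentiableAt_const _
  have lτ : M.All fun e z => lder (W e) (τ e) z = ((l : ℂ) * dv (W e) z) • τ e z :=
    fun e he z hz => by
      have a1 := (lie τ hτ.hol e he z hz _ (one z)).2.2.2.2.2.2.2.1 (zτ.ev he hz)
      have a2 : NU4.lie (W e) (τ e) z - _ = 0 := h2 e he z hz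
      rw [a1, sub_eq_zero, ← eq_sub_iff_add_eq, ← sub_smul] at a2
      beta_reduce
      rw [a2]
      congr 1
      push_cast
      ring
  obtain ⟨C, hCν⟩ := logd hH hW (ok _) sτ hτ.hol
    (fun e z => dL (dj (W e) z) + ((l : ℂ) * dv (W e) z) • (1 : Mx (Fs n))) fun e he z hz => by
      have c := fun i => ((mHOL n _ z).2.2 (hW.hol e he z hz i)).1
      have c1 : ContinuousAt (fun w => dL (dj (W e) w)) z :=
        tendsto_finsetSum _ fun i _ => tendsto_finsetSum _ fun j _ =>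
          Tendsto.smul_const (cd_dz (c i) j).continuousAt _
      have c2 : ContinuousAt (fun w => (l : ℂ) * dv (W e) w) z := continuousAt_const.mul
          (ContDiffAt.sum (s := Finset.univ) fun k _ => cd_dz (c k) k).continuousAt
      refine ⟨Tendsto.add c1 (Tendsto.smul_const c2 _), ?_⟩
      · rw [Matrix.add_mulVec, Matrix.smul_mulVec, Matrix.one_mulVec, ← lτ e he z hz, lder]
        abel
  obtain ⟨A, hA⟩ := hP
  refine core hH hW ((ok _).pp_rep sτ sτ).2.re (pn_nn (ok _) τ) ?_ hCν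
    (f := fun e z => qt (ρ e z) (τ e z)) (fun e he z hz h => ?_)
    (fun e he e' he' x hx hx' h => ?_) (A := A) fun η hη => ?_
  · by_contra hn
    exact nz fun e he z hz => by_contra fun h => hn ⟨_, (r e he z hz).2.2.2.2 h⟩
  · have t0 := (r e he z hz).2.2.2.1 h
    obtain ⟨I, hI⟩ := Function.ne_iff.1 t0
    have ev : ∀ᶠ w in 𝓝 z, τ e w I ≠ 0 :=
      (hτ.hol e he z hz I).self_of_nhds.continuousAt.eventually_ne hI
    have eq : (fun w => qt (ρ e w) (τ e w)) =ᶠ[𝓝 z] fun w => ρ e w I / τ e w I :=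
      (ev.and (h1.ev he hz)).mono fun w hw => qt_div hw.2.2 hw.1
    have hf : HolN (fun w => qt (ρ e w) (τ e w)) z := by
      filter_upwards [eq.eventuallyEq_nhds, ev, hρ.hol e he z hz I, hτ.hol e he z hz I]
        with w e1 e2 e3 e4
      simp only [div_eq_mul_inv] at e1
      exact (e3.mul (e4.inv e2)).congr_of_eventuallyEq e1
    refine ⟨hf, ?_⟩
    have eρ : ρ e =ᶠ[𝓝 z] fun w => qt (ρ e w) (τ e w) • τ e w :=
      (ev.and (h1.ev he hz)).mono fun w hw => qt_eq hw.2.2 fun h0 => hw.1 (congrFun h0 I)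
    have a1 := (lie ρ hρ.hol e he z hz _ (one z)).2.2.2.2.2.2.2.1 (zρ.ev he hz)
    have a2 := (lie τ hτ.hol e he z hz _ hf).2.2.2.2.2.2.2.2.2.2.1
    have a3 : lder (W e) (ρ e) z = lder (W e) (fun w => qt (ρ e w) (τ e w) • τ e w) z := by
      rw [lder, lder, ← eρ.eq_of_nhds]
      congr 1
      exact funext fun i => vd_congr (eρ.mono fun w hw => congrFun hw i)
    have a4 : NU4.lie (W e) (ρ e) z - _ = _ := (h1 e he z hz).1
    rw [a1, a3, a2, lτ e he z hz] at a4
    have a5 := congrFun a4 I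
    have a6 := congrFun eρ.eq_of_nhds I
    simp only [Pi.add_apply, Pi.sub_apply, Pi.smul_apply, smul_eq_mul] at a5 a6
    rw [a6] at a5
    refine mul_right_cancel₀ hI ?_
    push_cast at a5
    change (dir (W e) (fun w => qt (ρ e w) (τ e w)) z + _) * _ = _
    linear_combination a5
  · have j0 := ((mTR n M).2.1 e he e' he' x hx hx').2.1
    have t := (r.at he hx).2.2.2.1
    have t' := (r.at he' hx').2.2.2.1
    rw [e.left_inv hx] at t
    rw [e'.left_inv hx'] at t'
    have c1 := hρ.cmp e he e' he' x hx hx'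
    have c2 := hτ.cmp e he e' he' x hx hx'
    beta_reduce at c1 c2 ⊢
    have c3 : ρ e (e x) = (jd M e e' x ^ 2 * qt (ρ e' (e' x)) (τ e' (e' x))) • τ e (e x) := by
      rw [c1, c2, smul_smul]
      conv_lhs => rw [qt_eq (h1.at he' hx').2 (t' h), Matrix.mulVec_smul, smul_smul]
      congr 1
      field_simp
      ring
    rw [c3, qt_smul _ (t h)]
  · have v := ((hKIT n M H 2 0 hH).2.1 W hW).1
    have sv := ((hKIT n M H 2 _ hH).1.1 v).1
    obtain ⟨u, su, u0, uA, e3⟩ := hA η hη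
    have wc : M.WtC (kan M 2) (wt M H 2 u) :=
      (((aLAM n M H _ _ hH (K3E.bKAN n M H 2 hH).1).2.2 _).1 (su.const_mul _)).1
    have s0 := aSP n M H _ _ _ hH wc ⟨sv.sm, sv.cmp⟩
    have s1 : (lk H 2).Sec ((oP H (wt M H 2 u)).ap (vec M W)) := ⟨s0.sm, s0.cmp⟩
    obtain ⟨rp, sp⟩ := (hKIT n M H 2 _ hH).2.2.2.2.2.2.1 s1
    refine ⟨u, fun x => √((lk H 2).pn ((oP H (wt M H 2 u)).ap (vec M W)) x), su, u0, uA,
      sp.continuous.sqrt, e3, fun e he z hz => ?_⟩
    have D := Mf.pd_det_re (hH.pos e he z hz)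
    have fk := hFK n (W e z) 0 (gd (fun w => ((ph M H e w + u (e.symm w) : ℝ) : ℂ)) z) (H e z) 0 0
    have p : (oP H (wt M H 2 u)).ap (vec M W) e z = (dv (W e) z -
        vd (W e) (fun w => ((ph M H e w + u (e.symm w) : ℝ) : ℂ)) z) • vac n := by
      have w1 : (fun w => ((wt M H 2 u e w - Real.log (H e w).det.re : ℝ) : ℂ)) =
          fun w => ((ph M H e w + u (e.symm w) : ℝ) : ℂ) := funext fun w => by
        congr 1
        simp only [wt, EXH.aw, wk, ph, Pi.add_apply]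
        push_cast
        ring
      have w2 := congrArg (· *ᵥ vac n) fk.2.2.1
      simp only [Matrix.add_mulVec, ← Matrix.mulVec_mulVec, fk.2.2.2.2.2.2.2.2.2.2.2.1,
        Matrix.mulVec_zero, add_zero, Matrix.smul_mulVec, Matrix.one_mulVec] at w2
      rw [ap_oP, w1, sub_smul]
      refine congrArg₂ _ (lie ρ hρ.hol e he z hz _ (one z)).2.2.2.2.2.2.2.2.2.2.2.1
        (w2.trans ?_)
      rw [dotProduct_comm]
      rfl
    beta_reduce
    rw [rp e he z hz]
    beta_reduce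
    rw [p, ng, Matrix.mulVec_smul, fk.2.2.2.2.2.2.2.2.2.2.2.2.1, star_smul,
      smul_dotProduct, dotProduct_smul, norm_sub_rev]
    have v1 : star (vac n) ⬝ᵥ vac n = 1 := by simp [vac]
    rw [v1, smul_eq_mul, smul_eq_mul, mul_one, Complex.star_def, Complex.conj_mul',
      ← Complex.ofReal_pow, Complex.ofReal_re, ← div_pow, Real.sqrt_sq (by positivity),
      div_mul_cancel₀ _ D.ne']

end Pool.Agent.Lib.N4S.Rc93
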