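import Pool.Agent.Lib.N4S.Defs
import Pool.Agent.Lib.N4S.Rec93
import Pool.Agent.Lib.K3S.B_MS
import Pool.Agent.Lib.K3S.B_SG

/-! Project n4s: the potentials are bounded in the mean, and the recurrence argument. -/

open scoped Classical Topology ContDiff ComplexOrder Matrix
open Set Filter MeasureTheory

set_option linter.unusedVariables false

noncomputable section

namespace Pool.Agent.Lib.N4S.Rc93

open Pool.Agent.Lib.SV (E)
open Pool.Agent.Lib.HS32 Pool.Agent.Lib.HLK Pool.Agent.Lib.F4 Pool.Agent.Lib.NU4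
open Pool.Agent.Lib.K3E (kan wk lk)

variable {n : ℕ} {M : Mf n} {I : Type} [Fintype I] {S : Sd M I} {a : ℝ → M.X → ℝ}

theorem al_nn (k : I) : 0 ≤ al S.toDk k := div_nonneg (Nat.cast_nonneg _) (Nat.cast_nonneg _)

theorem sm_pot [M.Cpt] {v : M.X → ℝ} (hv : M.Sm v) {d : ℝ} (hd : 0 < d) : M.Sm (pot S v d) :=
  (S.su.add hv).add (Mf.Sm.sum fun k _ => Mf.Sm.const_mul _ (Mf.Sm.log
    (fun e he z hz => ((K3S.MS.sg K3S.bSG S.toDk k).1.sm e he z hz).add contDiffAt_const)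
    fun x => (add_pos_of_nonneg_of_pos ((K3S.MS.sg K3S.bSG S.toDk k).1.nn x) hd).ne'))

theorem pot_le [M.Cpt] {v : M.X → ℝ} (hv : ∀ x, v x ≤ 0) {d : ℝ} (hd : d ∈ Ioc (0 : ℝ) (1 / 2))
    (x : M.X) : pot S v d x ≤ 0 :=
  add_nonpos (add_nonpos (S.u0 x) (hv x)) (Finset.sum_nonpos fun k _ =>
    mul_nonpos_of_nonneg_of_nonpos (al_nn k) (Real.log_nonpos
      (add_nonneg ((K3S.MS.sg K3S.bSG S.toDk k).1.nn x) hd.1.le) (by linarith [S.sml k x, hd.2])))

/-- The regularised potentials are bounded in the mean. -/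
theorem pot_int [M.Cpt] : ∃ A : ℝ, ∀ v, M.Sm v → ∀ d : ℝ, 0 < d →
    ∫ x, -pot S v d x ∂M.mu S.H ≤ A + ∫ x, Real.exp (-v x) ∂M.mu S.H := by
  have I := (mMU n M S.H S.kae.toMet).2.2.2.2.1 ℝ
  choose C hC using fun k => (K3S.MS.sg K3S.bSG S.toDk k).2.2
  refine ⟨∫ x, -S.u x ∂M.mu S.H + ∑ k, al S.toDk k * (2 * C k), fun v hv d hd => ?_⟩
  have p : ∀ k x, 0 < sg S.toDk k x + d := fun k x =>
    add_pos_of_nonneg_of_pos ((K3S.MS.sg K3S.bSG S.toDk k).1.nn x) hd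
  have c : ∀ k, Integrable (fun x => al S.toDk k * (2 * (sg S.toDk k x + d) ^ (-(1 / 2 : ℝ))))
      (M.mu S.H) := fun k => ((I _ ((((K3S.MS.sg K3S.bSG S.toDk k).1.sm.continuous).add
        continuous_const).rpow_const fun x => Or.inl (p k x).ne')).const_mul 2).const_mul _
  have i1 := I _ S.su.neg.continuous
  have i2 := I _ hv.neg.exp.continuous
  have i3 := integrable_finsetSum Finset.univ fun k _ => c k
  refine (integral_mono (I _ (sm_pot hv hd).neg.continuous) ((i1.add i3).add i2) fun x => ?_).trans ?_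
  · have h1 := Real.add_one_le_exp (-v x)
    have h2 : -∑ k, al S.toDk k * Real.log (sg S.toDk k x + d) ≤
        ∑ k, al S.toDk k * (2 * (sg S.toDk k x + d) ^ (-(1 / 2 : ℝ))) := by
      rw [← Finset.sum_neg_distrib]
      refine Finset.sum_le_sum fun k _ => ?_
      rw [← mul_neg]
      refine mul_le_mul_of_nonneg_left ?_ (al_nn k)
      have h3 := Real.log_le_sub_one_of_pos (Real.rpow_pos_of_pos (p k x) (-(1 / 2 : ℝ)))
      rw [Real.log_rpow (p k x)] at h3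
      linarith
    simp only [pot, Pi.add_apply]
    linarith
  · rw [integral_add' (i1.add i3) i2, integral_add' i1 i3, integral_finsetSum _ fun k _ => c k]
    refine add_le_add (add_le_add le_rfl (Finset.sum_le_sum fun k _ => ?_)) le_rfl
    rw [integral_const_mul, integral_const_mul]
    exact mul_le_mul_of_nonneg_left (mul_le_mul_of_nonneg_left (hC k d hd) zero_le_two) (al_nn k)

theorem sm_tp (h : Zs S a) (q : Sq) (j : ℕ) : M.Sm (tp a q j) :=
  Mf.Sm.comp (φ := q.χ j) (fun _ => (q.sm j).contDiffAt) (h.out.sm _ (q.e0 j))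

theorem tp_le (h : Zs S a) (q : Sq) (j : ℕ) (x : M.X) : tp a q j x ≤ 0 :=
  (q.lo j _).2.2.trans (max_le (h.out.le _ (q.e0 j) x) (by linarith [q.N1 j]))

/-- The potentials of the sequence. -/
theorem pj_ok [M.Cpt] (h : Zs S a) (q : Sq) : ∃ A : ℝ, ∀ j, M.Sm (pj S a q j) ∧
    (∀ x, pj S a q j x ≤ 0) ∧ ∫ x, -pj S a q j x ∂M.mu S.H ≤ A := by
  have I := (mMU n M S.H S.kae.toMet).2.2.2.2.1 ℝ
  obtain ⟨A, hA⟩ := pot_int (S := S)
  obtain ⟨C, hC⟩ := h.itg 1 one_pos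
  refine ⟨A + C, fun j => ⟨sm_pot (sm_tp h q j) (q.d0 j).1, pot_le (tp_le h q j) (q.d0 j),
    (hA _ (sm_tp h q j) _ (q.d0 j).1).trans (add_le_add le_rfl (le_trans (integral_mono
      (I _ (sm_tp h q j).neg.exp.continuous)
      (I _ ((h.out.sm _ (q.e0 j)).const_mul 1).neg.exp.continuous) fun x => ?_) (hC _ (q.e0 j))))⟩⟩
  exact Real.exp_le_exp.2 (neg_le_neg (by rw [one_mul]; exact (q.lo j _).2.1))

/-- Recurrence. -/
theorem recS (hFK : St_FK) (hLIE : St_LIE) (hKIT : St_KIT) [M.Cpt] (h : Zs S a) (q : Sq) (l : ℕ)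
    (W : M.Fam (E n)) (ρ τ : M.Fam (Fs n → ℂ)) (hW : HT M 2 W) (hP : Pr1 S a q 2 (vec M W))
    (hρ : HM M l ρ) (hτ : HM M (2 + l) τ) (zρ : Zr M (wd M W ρ)) (zτ : Zr M (wd M W τ))
    (h1 : M.All fun e z => nab M 2 l W ρ e z = τ e z ∧ Pr (ρ e z) (τ e z))
    (h2 : Zr M (nab M 2 (2 + l) W τ)) : Zr M τ := by
  obtain ⟨A, hA⟩ := pj_ok h q
  refine rec93 hFK hLIE hKIT n M S.H l W ρ τ S.kae.toMet hW ⟨A, fun η hη => ?_⟩ hρ hτ zρ zτ h1 h2
  obtain ⟨j, hj⟩ := ((hP 0).eventually_le_const hη).exists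
  exact ⟨_, (hA j).1, (hA j).2.1, (hA j).2.2,
    by simpa only [zero_mul, neg_zero, Real.exp_zero, one_mul] using hj⟩

end Pool.Agent.Lib.N4S.Rc93
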