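import Pool.Agent.Lib.N4S.Loc93
import Pool.Agent.Lib.N4S.Pj93
import Pool.Agent.Lib.NU4.B_FK
import Pool.Agent.Lib.NU4.B_LIE
import Pool.Agent.Lib.NU4.B_KIT
import Pool.Agent.Lib.NU4.B_IBP
import Pool.Agent.Lib.F4H.Qth69
import Pool.Agent.Lib.K3E.B_KAN
import Pool.Agent.Lib.KP.Kit

/-! Project n4s: the derivatives of the weights along a local field that is tangent to a parallel
multivector have a holomorphic limit off the divisors. -/

open scoped Classical Topology ContDiff ComplexOrder Matrix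
open Set Filter MeasureTheory Metric

set_option linter.unusedVariables false

noncomputable section

namespace Pool.Agent.Lib.N4S.Lc93

open Pool.Agent.Lib.SV (E)
open Pool.Agent.Lib.HS32 Pool.Agent.Lib.HLK Pool.Agent.Lib.F4 Pool.Agent.Lib.NU4
open Pool.Agent.Lib.NU4.Hx39
open Pool.Agent.Lib.K3E (kan wk lk)
open Pool.Agent.Lib.F4G.Sz44 (nq0)

variable {n : ℕ} {M : Mf n} {I : Type} [Fintype I] {S : Sd M I} {a : ℝ → M.X → ℝ} {q : Sq}
  {e : M.Ch} {z : E n} {y : E n → E n}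

theorem dir_add {f g : E n → ℂ} (hf : ContDiffAt ℝ ∞ f z) (hg : ContDiffAt ℝ ∞ g z) :
    dir y (fun w => f w + g w) z = dir y f z + dir y g z := by
  simp only [dir, dz_add (cd_diff hf) (cd_diff hg), mul_add, Finset.sum_add_distrib]

theorem dir_comp {u : E n → ℝ} {φ : ℝ → ℝ} {c : ℝ} (hφ : HasDerivAt φ c (u z))
    (hu : ContDiffAt ℝ ∞ u z) :
    dir y (fun w => (φ (u w) : ℂ)) z = c * dir y (fun w => (u w : ℂ)) z := by
  simp only [dir, dz_comp_real hφ (hu.differentiableAt (by simp)), Finset.mul_sum]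
  exact Finset.sum_congr rfl fun j _ => by ring

theorem dir_sum {f : I → E n → ℂ} (c : I → ℂ) (hf : ∀ k, ContDiffAt ℝ ∞ (f k) z) :
    dir y (fun w => ∑ k, c k * f k w) z = ∑ k, c k * dir y (f k) z := by
  simp only [dir, Finset.mul_sum]
  rw [Finset.sum_comm]
  refine Finset.sum_congr rfl fun j _ => ?_
  rw [dz_sum (f := fun k w => c k * f k w) fun k _ => cd_diff (contDiffAt_const.mul (hf k)),
    Finset.mul_sum]
  exact Finset.sum_congr rfl fun k _ => by rw [dz_const_mul _ (cd_diff (hf k))]; ring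

omit [Fintype I] in
theorem hess_sum {f : I → E n → ℂ} (c : I → ℝ) (hf : ∀ k, ContDiffAt ℝ ∞ (f k) z) (s : Finset I) :
    hess (fun w => ∑ k ∈ s, c k * f k w) z = ∑ k ∈ s, c k • hess (f k) z := by
  induction s using Finset.induction_on with
  | empty => simp
  | insert k s hk ih =>
    simp only [Finset.sum_insert hk]
    rw [hess_add (contDiffAt_const.mul (hf k))
      (ContDiffAt.sum fun k _ => contDiffAt_const.mul (hf k)), ih, hess_const_mul _ (hf k)]
    rfl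

theorem sg_sm (k : I) : M.Sm (sg S.toDk k) := (S.wt k).nr_sm (S.hol k).toSecC

theorem sg_pos {x : M.X} (hx : x ∈ Of S.toDk) (k : I) : 0 < sg S.toDk k x :=
  (Mf.nrC_nonneg _ _ x).lt_of_ne' (hx k)

theorem ph_add (v : M.X → ℝ) (d : ℝ) : ph S v d e = fun w => ph S 0 d e w + M.lc v e w := by
  funext w
  simp only [ph, pot, Mf.lc, Pi.zero_apply]
  push_cast
  ring

theorem ph_zero (d : ℝ) : ph S 0 d e = fun w => ld (S.H e) w + M.lc S.u e w +
    ∑ k, (al S.toDk k : ℂ) * (Real.log (sg S.toDk k (e.symm w) + d) : ℝ) := by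
  funext w
  simp only [ph, pot, Mf.lc, Pi.zero_apply]
  push_cast
  ring

theorem cd_ld (he : e ∈ M.C) (hz : z ∈ e.target) : ContDiffAt ℝ ∞ (ld (S.H e)) z :=
  cd_ofReal ((mINV n M S.H S.kae.toMet).2.2.2.2.2.2.1.sm e he z hz)

theorem cd_lg (he : e ∈ M.C) (hz : z ∈ e.target) (ho : e.symm z ∈ Of S.toDk) {d : ℝ} (hd : 0 ≤ d)
    (k : I) : ContDiffAt ℝ ∞ (fun w => ((Real.log (sg S.toDk k (e.symm w) + d) : ℝ) : ℂ)) z :=
  cd_ofReal (((sg_sm k e he z hz).add contDiffAt_const).log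
    (add_pos_of_pos_of_nonneg (sg_pos ho k) hd).ne')

theorem cd_ph (he : e ∈ M.C) (hz : z ∈ e.target) (ho : e.symm z ∈ Of S.toDk) {d : ℝ}
    (hd : 0 ≤ d) : ContDiffAt ℝ ∞ (ph S 0 d e) z := by
  rw [ph_zero]
  exact ((cd_ld he hz).add (S.su.lc e he z hz)).add
    (ContDiffAt.sum fun k _ => contDiffAt_const.mul (cd_lg he hz ho hd k))

theorem hess_ph (he : e ∈ M.C) (hz : z ∈ e.target) (ho : e.symm z ∈ Of S.toDk) :
    hess (ph S 0 0 e) z = (bf S - M.ric S.H) e z := by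
  have h : ∀ k, hess (fun w => ((Real.log (sg S.toDk k (e.symm w) + 0) : ℝ) : ℂ)) z =
      -M.hw (S.φ k) e z := fun k => by
    simp only [add_zero]
    rw [F4H.H69.hess_loc (s := fun w => sg S.toDk k (e.symm w)) (g := fun w => -S.φ k e w)
      ((e.open_target.eventually_mem hz).mono fun w hw => (S.hol k).hol e he w hw) ((S.wt k).sm e he z hz).neg ((e.open_target.eventually_mem hz).mono fun w hw =>
        (S.wt k).nr_rep (S.hol k).toSecC e he w hw) (ho k)]
    simp only [Complex.ofReal_neg, hess_neg, Mf.hw]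
  rw [ph_zero, hess_add ((cd_ld he hz).add (S.su.lc e he z hz))
    (ContDiffAt.sum fun k _ => contDiffAt_const.mul (cd_lg he hz ho le_rfl k)),
    hess_add (cd_ld he hz) (S.su.lc e he z hz), hess_sum _ (cd_lg he hz ho le_rfl)]
  simp only [h, bf, Mf.ric, Mf.hs, Pi.sub_apply, Finset.sum_apply, Pi.smul_apply, smul_neg,
    Finset.sum_neg_distrib]
  abel

theorem dir_ph (he : e ∈ M.C) (hz : z ∈ e.target) (ho : e.symm z ∈ Of S.toDk) {d : ℝ}
    (hd : 0 ≤ d) : ‖dir y (ph S 0 d e) z - dir y (ph S 0 0 e) z‖ ≤ d * ∑ k, al S.toDk k *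
      ((sg S.toDk k (e.symm z))⁻¹ ^ 2 * ‖dir y (M.lc (sg S.toDk k) e) z‖) := by
  have h : ∀ d : ℝ, 0 ≤ d → dir y (ph S 0 d e) z =
      dir y (fun w => ld (S.H e) w + M.lc S.u e w) z + ∑ k, (al S.toDk k : ℂ) *
        (((sg S.toDk k (e.symm z) + d)⁻¹ : ℝ) * dir y (M.lc (sg S.toDk k) e) z) := fun d hd => by
    rw [ph_zero, dir_add ((cd_ld he hz).add (S.su.lc e he z hz))
      (ContDiffAt.sum fun k _ => contDiffAt_const.mul (cd_lg he hz ho hd k)),
      dir_sum _ (cd_lg he hz ho hd)]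
    congr 1
    refine Finset.sum_congr rfl fun k _ => ?_
    have := (Real.hasDerivAt_log (add_pos_of_pos_of_nonneg (sg_pos ho k) hd).ne').comp_add_const
      (sg S.toDk k (e.symm z)) d
    rw [dir_comp (φ := fun t => Real.log (t + d)) (u := fun w => sg S.toDk k (e.symm w)) this
      (sg_sm k e he z hz)]
    rfl
  rw [h d hd, h 0 le_rfl, add_sub_add_left_eq_sub, ← Finset.sum_sub_distrib, Finset.mul_sum]
  refine (norm_sum_le _ _).trans (Finset.sum_le_sum fun k _ => ?_)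
  have p := sg_pos ho k
  have p1 : |(sg S.toDk k (e.symm z) + d)⁻¹ - (sg S.toDk k (e.symm z) + 0)⁻¹| ≤
      d * (sg S.toDk k (e.symm z))⁻¹ ^ 2 := by
    generalize sg S.toDk k (e.symm z) = s at p
    rw [add_zero, abs_sub_comm, abs_of_nonneg (sub_nonneg.2 (inv_anti₀ p (by linarith))),
      inv_sub_inv p.ne' (by positivity), add_sub_cancel_left, inv_pow, ← div_eq_mul_inv]
    exact div_le_div_of_nonneg_left hd (by positivity) (by nlinarith)
  rw [← mul_sub, ← sub_mul, ← Complex.ofReal_sub, norm_mul, norm_mul, Complex.norm_real,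
    Complex.norm_real, Real.norm_of_nonneg (Rc93.al_nn k), mul_left_comm d, ← mul_assoc d]
  exact mul_le_mul_of_nonneg_left (mul_le_mul_of_nonneg_right p1 (norm_nonneg _)) (Rc93.al_nn k)

/-- The bounds on a compact set. -/
theorem bds (h : Zs S a) (q : Sq) (he : e ∈ M.C) {K : Set (E n)} (hK : IsCompact K)
    (hs : ∀ z ∈ K, z ∈ e.target ∧ e.symm z ∈ Of S.toDk ∧ HolV y z) : ∃ B : ℝ, 0 < B ∧
      ∀ j, ∀ z ∈ K, nq (S.H e z) (y z) ≤ B ∧ ‖dir y (ph S (tp a q j) (q.d j) e) z‖ ≤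
        B * gw S.H 0 (a (q.e j)) (e.symm z) ∧
      ‖dir y (fun w => ph S 0 0 e w + M.lc (a (q.e j)) e w) z -
        dir y (ph S (tp a q j) (q.d j) e) z‖ ≤ B * (q.d j +
          {x | a (q.e j) x < -q.N j}.indicator (gw S.H 0 (a (q.e j))) (e.symm z)) := by
  have hM := S.kae.toMet
  obtain ⟨b₁, hb₁, h1⟩ := bd hK (f := fun (_ : Unit) z => nq (S.H e z) (y z)) fun _ => cnq
    (fun i j z hz => (hM.sm e he z (hs z hz).1 i j).continuousAt.continuousWithinAt)
    fun i z hz => ((hs z hz).2.2 i).self_of_nhds.continuousAt.continuousWithinAt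
  obtain ⟨b₂, hb₂, h2⟩ := bd hK (f := fun (_ : Unit) => dir y (ph S 0 0 e)) fun _ z hz => (cd_dir
    (hs z hz).2.2 (cd_ph he (hs z hz).1 (hs z hz).2.1 le_rfl)).continuousAt.continuousWithinAt
  obtain ⟨b₃, hb₃, h3⟩ := bd hK (f := fun (_ : Unit) z => ∑ k, al S.toDk k *
    ((sg S.toDk k (e.symm z))⁻¹ ^ 2 * ‖dir y (M.lc (sg S.toDk k) e) z‖)) fun _ z hz =>
    ContinuousAt.continuousWithinAt (tendsto_finsetSum _ fun k _ => Tendsto.const_mul _
      (((Tendsto.inv₀ (sg_sm (S := S) k e he z (hs z hz).1).continuousAt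
        ((hs z hz).2.1 k)).pow 2).mul
        (cd_dir (hs z hz).2.2 ((sg_sm (S := S) k).lc e he z (hs z hz).1)).continuousAt.norm))
  refine ⟨b₁ + b₂ + b₃ + √b₁, by positivity, fun j z hz => ?_⟩
  obtain ⟨t, o, hy⟩ := hs z hz
  have sa := h.out.sm _ (q.e0 j)
  have d0 := (q.d0 j).1.le
  have d1 := (q.d0 j).2
  have a1 := (le_abs_self _).trans (h1 () z hz)
  have a2 := h2 () z hz
  have a3 := (dir_ph (y := y) he t o d0).trans
    (mul_le_mul_of_nonneg_left ((le_abs_self _).trans (h3 () z hz)) d0)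
  have a4 := (dz_sq hM sa he t y).trans
    (mul_le_mul_of_nonneg_right (Real.sqrt_le_sqrt a1) (Real.sqrt_nonneg _))
  have e1 : dir y (ph S (tp a q j) (q.d j) e) z = dir y (ph S 0 (q.d j) e) z +
      (deriv (q.χ j) (a (q.e j) (e.symm z)) : ℝ) * dir y (M.lc (a (q.e j)) e) z := by
    rw [ph_add, dir_add (cd_ph he t o d0) ((Rc93.sm_tp h q j).lc e he z t)]
    congr 1
    exact dir_comp (φ := q.χ j) (u := fun w => a (q.e j) (e.symm w))
      (((q.sm j).differentiable (by simp)) _).hasDerivAt (sa e he z t)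
  obtain ⟨c0, c1⟩ := q.d1 j (a (q.e j) (e.symm z))
  have g : gw S.H 0 (a (q.e j)) (e.symm z) =
      1 + √(M.gr S.H (a (q.e j)) (a (q.e j)) (e.symm z)) := by simp [gw]
  have s0 := Real.sqrt_nonneg (M.gr S.H (a (q.e j)) (a (q.e j)) (e.symm z))
  have s1 := Real.sqrt_nonneg b₁
  have n0 := norm_nonneg (dir y (M.lc (a (q.e j)) e) z)
  refine ⟨by linarith, ?_, ?_⟩
  · rw [e1, g]
    refine (norm_add_le _ _).trans ?_
    rw [norm_mul, Complex.norm_real, Real.norm_of_nonneg c0]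
    have := norm_le_insert' (dir y (ph S 0 (q.d j) e) z) (dir y (ph S 0 0 e) z)
    nlinarith [mul_le_of_le_one_left n0 c1, mul_nonneg s0 (show 0 ≤ b₁ + b₂ + b₃ by positivity)]
  · rw [e1, dir_add (cd_ph he t o le_rfl) (sa.lc e he z t), show ∀ A B C D : ℂ,
      A + B - (C + D * B) = (1 - D) * B - (C - A) from fun A B C D => by ring]
    refine (norm_sub_le _ _).trans ?_
    rw [norm_mul, ← Complex.ofReal_one, ← Complex.ofReal_sub, Complex.norm_real,
      Real.norm_of_nonneg (sub_nonneg.2 c1)]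
    have r : 0 ≤ (b₁ + b₂ + √b₁) * q.d j := by positivity
    by_cases c : a (q.e j) (e.symm z) < -q.N j
    · rw [indicator_of_mem (show e.symm z ∈ {x | a (q.e j) x < -q.N j} from c), g]
      nlinarith [mul_nonneg c0 n0, mul_nonneg s0 (show 0 ≤ b₁ + b₂ + b₃ by positivity)]
    · rw [indicator_of_notMem (show e.symm z ∉ {x | a (q.e j) x < -q.N j} from c),
        (q.id j _ (not_lt.1 c)).2.1]
      nlinarith

theorem th_ten : M.Ten (bf S - M.ric S.H) := by
  have : ∀ s : Finset I, M.Clo (∑ k ∈ s, al S.toDk k • M.hw (S.φ k)) := fun s => by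
    induction s using Finset.induction_on with
    | empty => rw [Finset.sum_empty]; exact Mf.clo_zero
    | insert a s ha ih => rw [Finset.sum_insert ha]; exact ((S.wt a).clo.smul _).add ih
  exact ((((mHES n M).1 _ S.su).sub (this _)).sub
    ((mHES n M).2.2.2.2.2.2.2.2.1 _ S.kae.toMet)).toTen

theorem uiS [M.Cpt] (h : Zs S a) {p η : ℝ} (hp : 0 ≤ p) (hη : 0 < η) : ∃ κ : ℝ, 0 < κ ∧
    ∀ ε ∈ Ioc (0 : ℝ) 1, ∀ A : Set M.X, MeasurableSet A → (M.mu S.H).real A ≤ κ →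
      ∫ x, A.indicator (gw S.H p (a ε)) x ∂M.mu S.H ≤ η := by
  obtain ⟨C, hC⟩ := h.itg (4 * p + 2) (by positivity)
  obtain ⟨κ, k0, hκ⟩ := ui S.kae (th_ten (S := S)) (C := C) hp hη
  exact ⟨κ, k0, fun ε hε A => hκ ε _ A hε.2 (h.out.sm ε hε) (h.out.le ε hε)
    (h.out.kae ε hε).toMet.nonneg (hC ε hε)⟩

theorem low [M.Cpt] (h : Zs S a) (q : Sq) {p : ℝ} (hp : 0 ≤ p) : Tendsto (fun j => ∫ x,
    {x | a (q.e j) x < -q.N j}.indicator (gw S.H p (a (q.e j))) x ∂M.mu S.H) atTop (𝓝 0) := by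
  have := (mMU n M S.H S.kae.toMet).2.1
  have J := (mMU n M S.H S.kae.toMet).2.2.2.2.1 ℝ
  refine tendsto_order.2 ⟨fun b hb => Eventually.of_forall fun j => hb.trans_le
    (integral_nonneg (indicator_nonneg fun x _ => gw_nn _ _ _ x)), fun η hη => ?_⟩
  obtain ⟨κ, k0, hκ⟩ := uiS h hp (half_pos hη)
  obtain ⟨C, hC⟩ := h.itg 1 one_pos
  have t := (Real.tendsto_exp_neg_atTop_nhds_zero.comp q.Nt).mul_const C
  rw [zero_mul] at t
  filter_upwards [t.eventually_le_const k0] with j hj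
  have sa := h.out.sm _ (q.e0 j)
  have ms : MeasurableSet {x | a (q.e j) x < -q.N j} :=
    (isOpen_lt sa.continuous continuous_const).measurableSet
  refine (hκ _ (q.e0 j) _ ms (le_trans ?_ hj)).trans_lt (half_lt_self hη)
  refine le_trans ?_ (mul_le_mul_of_nonneg_left (hC _ (q.e0 j)) (Real.exp_pos _).le)
  rw [← integral_indicator_one ms, ← integral_const_mul]
  refine integral_mono ((integrable_const _).indicator ms)
    ((J _ (sa.const_mul 1).neg.exp.continuous).const_mul _) fun x => ?_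
  by_cases c : a (q.e j) x < -q.N j
  · rw [indicator_of_mem (show x ∈ {x | a (q.e j) x < -q.N j} from c)]
    show (1 : ℝ) ≤ Real.exp (-q.N j) * _
    rw [← Real.exp_add]
    exact Real.one_le_exp (by linarith)
  · rw [indicator_of_notMem (show x ∉ {x | a (q.e j) x < -q.N j} from c)]
    show (0 : ℝ) ≤ Real.exp (-q.N j) * _
    positivity

/-- The product of the field and of the weighted divergence. -/
theorem idn [M.Cpt] (h : Zs S a) {l : ℕ} {π : M.Fam (Fs n → ℂ)} (sπ : (lk S.H l).Sec π) (j : ℕ)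
    (he : e ∈ M.C) (hz : z ∈ e.target) (h0 : crv (y z) *ᵥ π e z = 0) :
    crv (y z) *ᵥ Pd S a q l j π e z = crv (y z) *ᵥ pf0 (π e) z -
      (((l : ℂ) - 1) * dir y (ph S (tp a q j) (q.d j) e) z) • π e z := by
  have sp := Rc93.sm_pot (S := S) (Rc93.sm_tp h q j) (q.d0 j).1
  have ib := (st_IBP st_KIT st_FK NU4.st_PW n M S.H l π _ _ S.kae sp sp sπ).2.2.2.1 e he z hz
  have w : ∀ t, crv (y z) *ᵥ anv t *ᵥ π e z = (t ⬝ᵥ y z) • π e z := fun t => by
    have := congrArg (· *ᵥ π e z) (st_FK n (y z) 0 t 1 0 0).2.2.1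
    simpa only [Matrix.add_mulVec, ← Matrix.mulVec_mulVec, h0, Matrix.mulVec_zero, zero_add,
      Matrix.smul_mulVec, Matrix.one_mulVec] using this
  rw [Pd, ib.2.1, ib.2.2, iot, Matrix.mulVec_sub, Matrix.mulVec_sub, Matrix.mulVec_smul,
    Matrix.mulVec_smul, w, w, smul_smul, smul_smul, sub_sub, ← add_smul, ← mul_add,
    show ph S (tp a q j) (q.d j) e = fun w => ld (S.H e) w + M.lc (pj S a q j) e w from rfl,
    dir_add (cd_ld he hz) (sp.lc e he z hz)]
  simp only [dir, dotProduct, gd, mul_comm (y z _)]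

theorem ng_smul (H : Mat n) (c : ℂ) (W : Fs n → ℂ) : ng H (c • W) = ‖c‖ ^ 2 * ng H W := by
  rw [ng, ng, star_smul, smul_dotProduct, Matrix.mulVec_smul, dotProduct_smul, smul_smul,
    smul_eq_mul, ← Complex.re_ofReal_mul, ← Complex.normSq_eq_norm_sq,
    Complex.normSq_eq_conj_mul_self]
  rfl

theorem pd_rep (h : Zs S a) [M.Cpt] {l : ℕ} {π : M.Fam (Fs n → ℂ)} (sπ : (lk S.H l).Sec π) (j : ℕ) :
    M.Rep ((lk S.H l).pn (Pd S a q l j π))
      (fun e z => ng (S.H e z) (Pd S a q l j π e z) / (S.H e z).det.re ^ l) ∧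
    M.Sm ((lk S.H l).pn (Pd S a q l j π)) :=
  have hM := S.kae.toMet
  have s0 := aSP n M S.H _ _ _ hM (((aLAM n M S.H _ _ hM (K3E.bKAN n M S.H l hM).1).2.2 _).1
    ((Rc93.sm_pot (S := S) (Rc93.sm_tp h q j) (q.d0 j).1).const_mul ((l : ℝ) - 1))).1
    ⟨sπ.sm, sπ.cmp⟩
  (st_KIT n M S.H l _ hM).2.2.2.2.2.2.1 ⟨s0.sm, s0.cmp⟩

/-- The holomorphic limit. -/
theorem hol [M.Cpt] (h : Zs S a) (q : Sq) {l : ℕ} (hl : 2 ≤ l) {π : M.Fam (Fs n → ℂ)}
    (hπ : HM M l π) (nz : Nz π) (hS : Sm0 S l π) (hP : Pr1 S a q l π) (he : e ∈ M.C)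
    {U : Set (E n)} (hU : IsOpen U)
    (hs : ∀ z ∈ U, z ∈ e.target ∧ e.symm z ∈ Of S.toDk ∧ HolV y z)
    (h0 : ∀ z ∈ U, crv (y z) *ᵥ π e z = 0) : ∃ F : E n → ℂ, DifferentiableOn ℂ F U ∧
      ∀ z ∈ U, F z • ((l : ℂ) - 1) • π e z = crv (y z) *ᵥ pf0 (π e) z := by
  have hM := S.kae.toMet
  have := (mMU n M S.H hM).2.1
  have J := (mMU n M S.H hM).2.2.2.2.1 ℝ
  obtain ⟨K1, -, -, -, K5, -, K7, -⟩ := st_KIT n M S.H l π hM
  obtain ⟨sπ, hh⟩ := K1.1 hπ
  have l0 : (l : ℂ) - 1 ≠ 0 := sub_ne_zero.2 (by exact_mod_cast (by omega : l ≠ 1))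
  have wc := (K3E.bKAN n M S.H l hM).1
  have su := fun j => h.out.sm _ (q.e0 j)
  have hT := fun j => (h.out.kae _ (q.e0 j)).toMet.nonneg
  have cu1 := fun j => aCU n M S.H _ _ _ _ hM (h.out.kae _ (q.e0 j)).toTen wc sπ
  have q0 : ∀ j x, 0 ≤ cu (oms S (q.e j) (a (q.e j))) (lk S.H l) π x := fun j x => by
    simpa [oms, lk] using (cu1 j).2.2 0 le_rfl (by simpa using hT j) x
  have e3 : Tendsto q.e atTop (𝓝 0) := by simpa using q.et 0
  have d3 : Tendsto q.d atTop (𝓝 0) := by simpa using q.dt 0 1 one_pos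
  have cW : ∀ z ∈ U, ContinuousAt (fun w => ((l : ℂ) - 1) • π e w) z := fun z hz =>
    Tendsto.const_smul (continuousAt_pi.2 fun i =>
      (hh e he z (hs z hz).1 i).self_of_nhds.continuousAt) _
  have cZ : ∀ z ∈ U, ContinuousAt (fun w => crv (y w) *ᵥ pf0 (π e) w) z := fun z hz =>
    continuousAt_pi.2 fun i => ((st_LIE st_FK n y y (π e) (fun _ => 0) z (hs z hz).2.2
      (hs z hz).2.2 (hh e he z (hs z hz).1) (Eventually.of_forall fun _ =>
        differentiableAt_const _)).2.2.2.2.1 i).self_of_nhds.continuousAt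
  refine glue hU (fun z hz => ((K5 hπ).2.2.2.2 inferInstance nz e he z (hs z hz).1).mono
    fun w hw => smul_ne_zero l0 hw) cW cZ fun c hc => ?_
  obtain ⟨r₀, hr₀, hb⟩ := nhds_basis_closedBall.mem_iff.1 (hU.mem_nhds hc)
  have hb' : closedBall c (4 * (r₀ / 4)) ⊆ U := by rwa [mul_div_cancel₀ _ four_ne_zero]
  have hr : 0 < r₀ / 4 := by positivity
  generalize r₀ / 4 = r at hb' hr
  have hK := isCompact_closedBall c (4 * r)
  have ht : closedBall c (4 * r) ⊆ e.target := fun z hz => (hs z (hb' hz)).1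
  obtain ⟨B, B0, hB⟩ := bds h q he hK fun z hz => hs z (hb' hz)
  obtain ⟨C, hC⟩ := h.itg 1 one_pos
  obtain ⟨F, hF, hm⟩ := loc2 S.kae (th_ten (S := S)) atTop q.e (fun j => a (q.e j)) C B
    (fun j => ⟨(q.e0 j).1.le, (q.e0 j).2⟩) e3 su (fun j => h.out.le _ (q.e0 j)) hT
    (fun j => by simpa using hC _ (q.e0 j)) he hr ht (fun z hz => (hs z (hb' hz)).2.2)
    (fun z hz => ⟨cd_ph he (ht hz) (hs z (hb' hz)).2.1 le_rfl,
      hess_ph he (ht hz) (hs z (hb' hz)).2.1⟩) (K7 sπ).2.continuous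
    (fun j => ⟨(cu1 j).2.1, q0 j⟩) (by
      obtain ⟨A, A0, hA⟩ := hS
      have := e3.const_mul A
      rw [mul_zero] at this
      exact squeeze_zero (fun j => integral_nonneg (q0 j))
        (fun j => hA _ _ (q.e0 j).1.le (su j) (hT j)) this) B0 (fun z hz j => by
      have P := hM.pos e he z (ht hz)
      have D := pow_pos (Mf.pd_det_re P) l
      have pw := (NU4.st_PW n (S.H e z) (oms S (q.e j) (a (q.e j)) e z) (y z) 0 (π e z)
        P).2.2.2.2.2.2.2.2 (by simpa [oms] using hT j e he z (ht hz))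
      have r1 : cu (oms S (q.e j) (a (q.e j))) (lk S.H l) π (e.symm z) =
          cg (S.H e z) (oms S (q.e j) (a (q.e j)) e z) (π e z) / (S.H e z).det.re ^ l := by
        refine ((cu1 j).1 e he z (ht hz)).trans ?_
        have r2 : Real.exp (-wk S.H l e z) = ((S.H e z).det.re ^ l)⁻¹ := by
          rw [wk, ← Real.log_pow, Real.exp_neg, Real.exp_log D]
        simp only [cg, oms, lam, Matrix.smul_mulVec, dotProduct_smul, smul_eq_mul, r2,
          mul_left_comm _ (((((S.H e z).det.re ^ l)⁻¹ : ℝ)) : ℂ), ← Finset.mul_sum,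
          Complex.re_ofReal_mul, div_eq_inv_mul]
      refine le_of_eq_of_le ?_ ((div_le_div_of_nonneg_right ((pw.2.2.2.1 (h0 z (hb' hz))).trans
        (mul_le_mul_of_nonneg_right (hB j z hz).1 pw.1)) D.le).trans_eq ?_)
      · rw [(K7 sπ).1 e he z (ht hz), mul_div_right_comm]
        rfl
      · rw [mul_div_assoc, ← r1]
        rfl) fun η hη => by
      obtain ⟨p, p0, hp⟩ := Nm43.nm_sec S.kae (th_ten (S := S)) (aLAM n M S.H _ _ hM wc).1 sπ hh
        nz η hη
      obtain ⟨Cp, hCp⟩ := h.itg p (by exact_mod_cast p0)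
      obtain ⟨s, s0, k⟩ := hp Cp
      exact ⟨s, s0, Eventually.of_forall fun j => k _ _ (q.e0 j).2 (su j) (h.out.le _ (q.e0 j))
        (hT j) (hCp _ (q.e0 j))⟩
  have ca : ∀ j, ContinuousOn (dir y fun w => ph S 0 0 e w + M.lc (a (q.e j)) e w)
      (closedBall c (4 * r)) := fun j z hz => (cd_dir (hs z (hb' hz)).2.2
    ((cd_ph he (ht hz) (hs z (hb' hz)).2.1 le_rfl).add
      ((su j).lc e he z (ht hz)))).continuousAt.continuousWithinAt
  have cW' : ContinuousOn (fun w => ((l : ℂ) - 1) • π e w) (closedBall c (4 * r)) :=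
    fun z hz => (cW z (hb' hz)).continuousWithinAt
  have cZ' : ContinuousOn (fun w => crv (y w) *ᵥ pf0 (π e) w) (closedBall c (4 * r)) :=
    fun z hz => (cZ z (hb' hz)).continuousWithinAt
  refine ⟨r, hr, F, hF, fun w hw h1 => ident hr hm ca cW' cZ' ?_ hw h1⟩
  obtain ⟨C₀, hC₀, hch⟩ := chart_le hM he hK ht
  obtain ⟨b, hb0, h1⟩ := bd hK (ι := Unit) fun _ => cW'
  obtain ⟨b', b0', h2⟩ := sup_le hK fun z hz => ⟨hM.sm e he z (ht hz), hM.pos e he z (ht hz)⟩
  obtain ⟨G, G1, hG⟩ := (mBD n M S.H hM).2.2.1 e he _ hK ht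
  have t := ((((d3.const_mul ((M.mu S.H).real univ)).add (low h q le_rfl)).const_mul (b * B)).add
    ((hP 0).const_mul √(b' * B * G ^ l))).const_mul C₀
  simp only [mul_zero, add_zero, zero_mul, neg_zero, Real.exp_zero, one_mul] at t
  refine squeeze_zero (fun j => integral_nonneg fun _ => norm_nonneg _) (fun j => ?_) t
  have i1 := (J _ (gw_cont hM 0 (su j))).indicator
    (isOpen_lt (su j).continuous (continuous_const (y := -q.N j))).measurableSet
  have i2 := ((integrable_const (q.d j)).add i1).const_mul (b * B)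
  obtain ⟨R1, R2⟩ := pd_rep (q := q) h sπ j
  have i3 := (J _ R2.continuous.sqrt).const_mul √(b' * B * G ^ l)
  have n1 := fun x => add_nonneg (q.d0 j).1.le (indicator_nonneg
    (s := {x | a (q.e j) x < -q.N j}) (fun x _ => gw_nn S.H 0 (a (q.e j)) x) x)
  refine (hch _ _ _ hK Subset.rfl (i2.add i3) (fun x => add_nonneg
    (mul_nonneg (by positivity) (n1 x)) (by positivity)) (((ca j).smul cW').sub cZ').norm
    fun z hz => ⟨norm_nonneg _, ?_⟩).trans_eq ?_
  · have P := hM.pos e he z (ht hz)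
    have D := pow_pos (Mf.pd_det_re P) l
    have pw := fun W => NU4.st_PW n (S.H e z) 0 (y z) 0 W P
    have k := idn (q := q) h sπ j he (ht hz) (h0 z (hb' hz))
    rw [mul_comm, ← smul_smul] at k
    have k1 : ‖crv (y z) *ᵥ Pd S a q l j π e z‖ ≤
        √(b' * B * G ^ l) * √((lk S.H l).pn (Pd S a q l j π) (e.symm z)) := by
      rw [← Real.sqrt_mul (by positivity), R1 e he z (ht hz)]
      refine Real.le_sqrt_of_sq_le ((h2 z hz _).trans ?_)
      have g1 : (S.H e z).det.re ^ l ≤ G ^ l :=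
        pow_le_pow_left₀ (Mf.pd_det_re P).le (hG z hz).2.2.2 l
      have g2 := (pw (Pd S a q l j π e z)).1
      beta_reduce
      rw [mul_assoc, mul_assoc]
      refine mul_le_mul_of_nonneg_left ((pw _).2.2.1.trans
        (mul_le_mul (hB j z hz).1 ?_ g2 B0.le)) b0'
      rw [← mul_div_assoc, le_div_iff₀ D, mul_comm]
      exact mul_le_mul_of_nonneg_right g1 g2
    have k2 := mul_le_mul (h1 () z hz) (hB j z hz).2.2 (norm_nonneg _) hb0.le
    refine le_trans (le_of_eq ?_) ((norm_sub_le _ _).trans (add_le_add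
      (((norm_smul _ _).trans (mul_comm _ _)).trans_le (k2.trans_eq (mul_assoc _ _ _).symm)) k1))
    rw [k, sub_smul, show ∀ A B Z : Fs n → ℂ, A - B - (Z - B) = A - Z from fun A B Z => by abel]
    rfl
  · rw [integral_add' i2 i3, integral_const_mul, integral_const_mul,
      integral_add' (integrable_const _) i1, integral_const, smul_eq_mul]

/-- The weighted convergence in the mean. -/
theorem lim [M.Cpt] (h : Zs S a) (q : Sq) {l : ℕ} (hl : 2 ≤ l) {π : M.Fam (Fs n → ℂ)}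
    (hπ : HM M l π) (nz : Nz π) (hP : Pr1 S a q l π) (he : e ∈ M.C) {K : Set (E n)}
    (hK : IsCompact K) (hs : ∀ z ∈ K, z ∈ e.target ∧ e.symm z ∈ Of S.toDk ∧ HolV y z)
    (h0 : ∀ z ∈ K, crv (y z) *ᵥ π e z = 0) {F : E n → ℂ} (hF : ContinuousOn F K)
    (eq : ∀ z ∈ K, (((l : ℂ) - 1) * F z) • π e z = crv (y z) *ᵥ pf0 (π e) z) (c : ℝ) {η : ℝ}
    (hη : 0 < η) : ∀ᶠ j in atTop, ∃ f : M.X → ℝ, (∀ x, 0 ≤ f x) ∧ Integrable f (M.mu S.H) ∧
      ∫ x, f x ∂M.mu S.H ≤ η ∧ ∀ z ∈ K, Real.exp (-(c * tp a q j (e.symm z))) *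
        ‖dir y (ph S (tp a q j) (q.d j) e) z - F z‖ ≤ f (e.symm z) := by
  have hM := S.kae.toMet
  have := (mMU n M S.H hM).2.1
  have J := (mMU n M S.H hM).2.2.2.2.1 ℝ
  obtain ⟨K1, -, -, -, -, -, K7, -⟩ := st_KIT n M S.H l π hM
  obtain ⟨sπ, hh⟩ := K1.1 hπ
  have ok := (aLAM n M S.H _ _ hM (K3E.bKAN n M S.H l hM).1).1
  obtain ⟨B, B0, hB⟩ := bds h q he hK hs
  obtain ⟨b, b0, hb⟩ := bd hK (ι := Unit) fun _ => hF
  obtain ⟨κ, k0, hκ⟩ := uiS h (abs_nonneg c) (show 0 < η / 2 / (B + b) by positivity)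
  obtain ⟨s, s0, hs0⟩ := sub (M.mu S.H) (K7 sπ).2.continuous.measurable (Nm43.pn_rep ok sπ).2.2.1
    (Nm43.null hM ok sπ hh nz) k0
  have ms : MeasurableSet {x | (lk S.H l).pn π x ≤ s} :=
    (isClosed_le (K7 sπ).2.continuous continuous_const).measurableSet
  have t := (hP c).const_mul √(B / s)
  rw [mul_zero] at t
  filter_upwards [t.eventually_le_const (half_pos hη)] with j hj
  have su := h.out.sm _ (q.e0 j)
  obtain ⟨R1, R2⟩ := pd_rep (q := q) h sπ j
  have i1 := ((J _ (gw_cont hM |c| su)).indicator ms).const_mul (B + b)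
  have i2 := (J _ (((Rc93.sm_tp h q j).const_mul c).neg.exp.continuous.mul
    R2.continuous.sqrt)).const_mul √(B / s)
  have n1 := fun x => mul_nonneg (show 0 ≤ B + b by positivity) (indicator_nonneg
    (s := {x | (lk S.H l).pn π x ≤ s}) (fun x _ => gw_nn S.H |c| (a (q.e j)) x) x)
  refine ⟨_, fun x => ?_, i1.add i2, ?_, fun z hz => ?_⟩
  · exact add_nonneg (n1 x) (by simp only [Pi.mul_apply]; positivity)
  · rw [integral_add' i1 i2, integral_const_mul, integral_const_mul]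
    have := (le_div_iff₀' (by positivity)).1 (hκ _ (q.e0 j) _ ms hs0)
    simp only [Pi.mul_apply]
    linarith
  · simp only [Pi.add_apply, Pi.mul_apply]
    by_cases k : (lk S.H l).pn π (e.symm z) ≤ s
    · rw [indicator_of_mem (show e.symm z ∈ {x | (lk S.H l).pn π x ≤ s} from k)]
      refine le_add_of_le_of_nonneg ?_ (by positivity)
      have a1 : Real.exp (-(c * tp a q j (e.symm z))) ≤ Real.exp (-(|c| * a (q.e j) (e.symm z))) := by
        refine Real.exp_le_exp.2 ?_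
        have := Rc93.tp_le h q j (e.symm z)
        have : a (q.e j) (e.symm z) ≤ tp a q j (e.symm z) := (q.lo j _).2.1
        nlinarith [le_abs_self c, abs_nonneg c]
      have a2 := (norm_sub_le _ _).trans (add_le_add (hB j z hz).2.1 (hb () z hz))
      simp only [gw, zero_mul, neg_zero, Real.exp_zero, one_mul] at a2
      rw [gw, mul_left_comm]
      refine mul_le_mul a1 (a2.trans ?_) (norm_nonneg _) (Real.exp_pos _).le
      nlinarith [Real.sqrt_nonneg (M.gr S.H (a (q.e j)) (a (q.e j)) (e.symm z))]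
    · refine le_add_of_nonneg_of_le (n1 _) ?_
      rw [mul_left_comm]
      refine mul_le_mul_of_nonneg_left ?_ (Real.exp_pos _).le
      obtain ⟨t, -, -⟩ := hs z hz
      have P := hM.pos e he z t
      have D := pow_pos (Mf.pd_det_re P) l
      have pw := NU4.st_PW n (S.H e z) 0 (y z) 0 (Pd S a q l j π e z) P
      have k1 := pw.2.2.1.trans (mul_le_mul_of_nonneg_right (hB j z hz).1 pw.1)
      rw [idn h sπ j he t (h0 z hz), ← eq z hz, ← sub_smul, ← mul_sub, ng_smul, norm_mul,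
        norm_sub_rev (F z)] at k1
      have l1 : 1 ≤ ‖(l : ℂ) - 1‖ := by
        have : (2 : ℝ) ≤ l := by exact_mod_cast hl
        have := norm_sub_norm_le (l : ℂ) 1
        rw [Complex.norm_natCast, norm_one] at this
        linarith
      rw [(K7 sπ).1 e he z t, not_le, lt_div_iff₀ D] at k
      rw [← Real.sqrt_mul (by positivity), R1 e he z t]
      refine Real.le_sqrt_of_sq_le ?_
      beta_reduce
      rw [div_mul_div_comm, le_div_iff₀ (by positivity)]
      refine le_trans (mul_le_mul ?_ k.le (by positivity) (by positivity)) k1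
      exact pow_le_pow_left₀ (norm_nonneg _) (le_mul_of_one_le_left (norm_nonneg _) l1) 2

/-- The chart-local theorem. -/
theorem n4l [M.Cpt] (h : Zs S a) (q : Sq) {l : ℕ} (hl : 2 ≤ l) {π : M.Fam (Fs n → ℂ)}
    (hπ : HM M l π) (nz : Nz π) (hS : Sm0 S l π) (hP : Pr1 S a q l π) (he : e ∈ M.C)
    {U : Set (E n)} (hU : IsOpen U)
    (hs : ∀ z ∈ U, z ∈ e.target ∧ e.symm z ∈ Of S.toDk ∧ HolV y z)
    (h0 : ∀ z ∈ U, crv (y z) *ᵥ π e z = 0) : ∃ F : E n → ℂ, DifferentiableOn ℂ F U ∧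
      (∀ z ∈ U, (((l : ℂ) - 1) * F z) • π e z = crv (y z) *ᵥ pf0 (π e) z) ∧
      ∀ K, IsCompact K → K ⊆ U → ∀ c η : ℝ, 0 < η → ∀ᶠ j in atTop, ∃ f : M.X → ℝ,
        (∀ x, 0 ≤ f x) ∧ Integrable f (M.mu S.H) ∧ ∫ x, f x ∂M.mu S.H ≤ η ∧
        ∀ z ∈ K, Real.exp (-(c * tp a q j (e.symm z))) *
          ‖dir y (ph S (tp a q j) (q.d j) e) z - F z‖ ≤ f (e.symm z) := by
  obtain ⟨F, hF, eq⟩ := hol h q hl hπ nz hS hP he hU hs h0
  have eq' := fun z hz => ((smul_smul _ _ _).trans (congrArg (· • π e z)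
    (mul_comm _ _))).symm.trans (eq z hz)
  exact ⟨F, hF, eq', fun K hK hKU c η hη => lim h q hl hπ nz hP he hK (fun z hz => hs z (hKU hz))
    (fun z hz => h0 z (hKU hz)) (hF.continuousOn.mono hKU) (fun z hz => eq' z (hKU hz)) c hη⟩

end Pool.Agent.Lib.N4S.Lc93
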