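import Pool.Agent.Lib.N4S.B_PQ
import Pool.Agent.Lib.N4S.N4h93

/-! Project n4s, row N4H: the divergence passes to the multiples of a parallel field. -/

open scoped Classical Topology Matrix
open Set Filter

namespace Pool.Agent.Lib.N4S

open Pool.Agent.Lib.HS32 Pool.Agent.Lib.HLK Pool.Agent.Lib.F4 Pool.Agent.Lib.NU4

theorem st_HQ : St_HQ := by
  intro n M _ I _ S a q W hZ w1 w2 w3 w4 w5 e he U Y u1 u2 u3 hY k
  obtain ⟨F, hF, eq, -⟩ := Lc93.n4l (y := Y) hZ q le_rfl w2 w3 w4 w5 he u1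
    (fun z hz => ⟨u2 hz, u3 z hz, fun i => (u1.eventually_mem hz).mono fun w hw =>
      differentiableAt_pi.1 (hY.differentiableAt (u1.mem_nhds hw)) i⟩) fun z hz => by
      have f := fun v w => NU4.st_FK n v w 0 1 0 0
      rw [vec, Matrix.mulVec_mulVec, (f _ _).1, Matrix.neg_mulVec, ← Matrix.mulVec_mulVec,
        (f _ _).2.2.2.2.2.2.2.2.2.2.2.2.2.2.2.1.2 (k z hz), neg_zero]
  refine ⟨F, hF, fun z hz => funext fun j => ?_⟩
  have := congrFun (eq z hz) {j}
  rw [P43.pfv w1 he (u2 hz), Matrix.mulVec_smul, Pi.smul_apply, Pi.smul_apply, vec, P43.cvk,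
    P43.cvk] at this
  simpa [show (2 : ℂ) - 1 = 1 by norm_num] using this

end Pool.Agent.Lib.N4S
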