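import Pool.Agent.Lib.N4S.B_LQY
import Pool.Agent.Lib.N4S.N4h93

/-! Project n4s, row N4L: the chart form. -/

namespace Pool.Agent.Lib.N4S

theorem st_N4L : St_N4L := fun _ _ _ _ _ _ _ q _ _ h hl hπ nz hS hP _ he _ _ hU u1 u2 u3 h0 =>
  Lc93.n4l h q hl hπ nz hS hP he hU (fun z hz => ⟨u1 hz, u2 z hz, u3 z hz⟩) h0

end Pool.Agent.Lib.N4S
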