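import Pool.Agent.Lib.N4S.Defs
import Pool.Agent.Lib.NU4.B_NM
import Pool.Agent.Lib.NU4.B_KIT
import Pool.Agent.Lib.NU4.B_PW

/-! Project n4s: no mass near the zero set, and the operations that keep the smallness. -/

open scoped Classical Topology ContDiff ComplexOrder Matrix
open Set Filter MeasureTheory

noncomputable section

namespace Pool.Agent.Lib.N4S

open Pool.Agent.Lib.SV (E)
open Pool.Agent.Lib.HS32 Pool.Agent.Lib.HLK Pool.Agent.Lib.F4 Pool.Agent.Lib.NU4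
open Pool.Agent.Lib.K3E (kan wk lk)

namespace N56

variable {n : ℕ} {M : Mf n} {H θ : M.Fam (Mat n)}

/-- The forms close to the class of `θ` are small on `W`. -/
def Sg (H θ : M.Fam (Mat n)) (m : ℕ) (W : M.Fam (Fs n → ℂ)) : Prop :=
  ∃ C : ℝ, 0 ≤ C ∧ ∀ (ε : ℝ) (v : M.X → ℝ), 0 ≤ ε → M.Sm v → M.Le 0 (θ + ε • H + M.hs v) →
    ∫ x, cu (θ + ε • H + M.hs v) (lk H m) W x ∂M.mu H ≤ C * ε

theorem ten (hH : M.Met H) (hθ : M.Ten θ) (ε : ℝ) {u : M.X → ℝ} (hu : M.Sm u) :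
    M.Ten (θ + ε • H + M.hs u) :=
  (hθ.add (hH.toTen.smul _)).add ((mHES n M).1 _ hu).toTen

theorem cuc (hH : M.Met H) (hθ : M.Ten θ) {m : ℕ} {W : M.Fam (Fs n → ℂ)} (hW : (lk H m).Sec W)
    (ε : ℝ) {u : M.X → ℝ} (hu : M.Sm u) : Continuous (cu (θ + ε • H + M.hs u) (lk H m) W) :=
  (aCU n M H _ _ _ W hH (ten hH hθ ε hu) (K3E.bKAN n M H m hH).1 hW).2.1

theorem out_hyp [M.Cpt] {B : M.Fam (Mat n)} {a : ℝ → M.X → ℝ} (ha : ZK47.Out M H B a) :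
    (∀ᶠ t in 𝓝[>] (0 : ℝ), t ≤ 1 ∧ M.Sm (a t) ∧ (∀ x, a t x ≤ 0) ∧
      M.Le 0 (B - M.ric H + t • H + M.hs (a t))) ∧
    ∀ p : ℕ, 0 < p → ∃ Cp : ℝ, ∀ᶠ t in 𝓝[>] (0 : ℝ),
      ∫ x, Real.exp (-(p * a t x)) ∂M.mu H ≤ Cp := by
  have e : ∀ᶠ t in 𝓝[>] (0 : ℝ), t ∈ Ioc (0 : ℝ) 1 := Ioc_mem_nhdsGT one_pos
  refine ⟨e.mono fun j hj => ⟨hj.2, ha.sm _ hj, ha.le _ hj, (ha.kae _ hj).toMet.nonneg⟩,
    fun p hp => ?_⟩
  obtain ⟨ε₀, C, e0, h⟩ := ha.itg p (by exact_mod_cast hp)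
  exact ⟨C, (e.and (show ∀ᶠ t in 𝓝[>] (0 : ℝ), t ∈ Ioc (0 : ℝ) ε₀ from
    Ioc_mem_nhdsGT e0)).mono fun j hj => h _ hj.1 hj.2.2⟩

/-- A pointwise comparison with a small multivector gives a limit equal to zero. -/
theorem lim_of [M.Cpt] {B : M.Fam (Mat n)} {a : ℝ → M.X → ℝ} {m l : ℕ}
    {W U : M.Fam (Fs n → ℂ)} (hK : M.Kae H) (hθ : M.Ten (B - M.ric H)) (ha : ZK47.Out M H B a)
    (hW : HM M m W) (hS : Sg H (B - M.ric H) m W) (nz : Nz W)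
    (hU : (lk H l).Sec U) (h : ∀ x (T : Mat n), T.PosSemidef → ng (M.ev H x) (M.ev W x) *
      cg (M.ev H x) T (M.ev U x) ≤ ng (M.ev H x) (M.ev U x) * cg (M.ev H x) T (M.ev W x)) :
    Tendsto (fun t => ∫ x, cu (B - M.ric H + t • H + M.hs (a t)) (lk H l) U x ∂M.mu H) (𝓝[>] 0)
      (𝓝 0) := by
  have hH := hK.toMet
  obtain ⟨sW, hol⟩ := (st_KIT n M H m W hH).1.1 hW
  obtain ⟨A, A0, hA⟩ := NM.bnd hH hU
  obtain ⟨C, C0, hC⟩ := hS
  obtain ⟨o1, o2⟩ := out_hyp ha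
  have e0 : ∀ᶠ t in 𝓝[>] (0 : ℝ), t ∈ Ioc (0 : ℝ) 1 := Ioc_mem_nhdsGT one_pos
  have kW := (st_KIT n M H m W hH).2.2.2.2.2.1
  have kU := (st_KIT n M H l U hH).2.2.2.2.2.1
  have pw := fun x T W => st_PW n (M.ev H x) T 0 0 W (hH.ev_pos x)
  have dp := fun x => Mf.pd_det_re (hH.ev_pos x)
  refine Nm43.sm_nm hK hθ (NM.ok hH m) sW hol nz (C := A)
    (g := fun t => cu (B - M.ric H + t • H + M.hs (a t)) (lk H l) U)
    (h := fun t x => A * cu (B - M.ric H + t • H + M.hs (a t)) (lk H m) W x) o1 o2 ?_ ?_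
  · filter_upwards [o1] with t ⟨_, u2, _, u4⟩
    refine ⟨cuc hH hθ hU t u2, continuous_const.mul (cuc hH hθ sW t u2), fun x => ?_⟩
    have p := NM.psd u4 x
    obtain ⟨a1, a2, -⟩ := (pw x _ (M.ev U x)).2.2.2.2.2.2.2.2 p
    have a3 := ((pw x _ (M.ev W x)).2.2.2.2.2.2.2.2 p).1
    have b := hA x
    have dl := pow_pos (dp x) l
    have dm := pow_pos (dp x) m
    have t0 : 0 ≤ M.tr H (B - M.ric H + t • H + M.hs (a t)) x := hH.tr_nonneg u4 x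
    rw [(kU x).1] at b
    rw [(kU x).2, (kW x).1, (kW x).2]
    refine ⟨div_nonneg a1 dl.le, ?_, ?_⟩
    · refine (div_le_div_of_nonneg_right a2 dl.le).trans ?_
      rw [mul_div_assoc, mul_comm A]
      exact mul_le_mul_of_nonneg_left b t0
    · refine le_trans ?_ (mul_le_mul_of_nonneg_right b (div_nonneg a3 dm.le))
      rw [div_mul_div_comm, div_mul_div_comm, mul_comm (_ ^ m)]
      exact div_le_div_of_nonneg_right (h x _ p) (mul_pos dl dm).le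
  · have t1 : Tendsto (fun t : ℝ => A * (C * t)) (𝓝[>] 0) (𝓝 0) := by
      have : Tendsto (fun t : ℝ => A * (C * t)) (𝓝 0) (𝓝 (A * (C * 0))) :=
        (continuous_const.mul (continuous_const.mul continuous_id)).tendsto 0
      rw [mul_zero, mul_zero] at this
      exact this.mono_left nhdsWithin_le_nhds
    refine squeeze_zero' ?_ ?_ t1
    · filter_upwards [o1] with t ⟨_, _, _, u4⟩
      exact integral_nonneg fun x => mul_nonneg A0.le (W98.cu_nonneg hH u4 _ _ W x)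
    · filter_upwards [o1, e0] with t ⟨_, u2, _, u4⟩ ht
      rw [integral_const_mul]
      exact mul_le_mul_of_nonneg_left (hC t _ ht.1.le u2 u4) A0.le

theorem sg_prt [M.Cpt] (hH : M.Met H) (hθ : M.Ten θ) {m : ℕ} {W : M.Fam (Fs n → ℂ)}
    (sW : (lk H m).Sec W) (hS : Sg H θ m W) (q : ℕ) : Sg H θ m (prt M q W) := by
  have I := (mMU n M H hH).2.2.2.2.1 ℝ
  have K := st_KIT n M H m W hH
  obtain ⟨C, C0, hC⟩ := hS
  refine ⟨C, C0, fun ε u e0 hu h => le_trans (integral_mono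
    (I _ (cuc hH hθ ((K.2.2.2.1 q).2.2 sW) ε hu)) (I _ (cuc hH hθ sW ε hu)) fun x => ?_)
    (hC ε u e0 hu h)⟩
  rw [((st_KIT n M H m _ hH).2.2.2.2.2.1 x).2, (K.2.2.2.2.2.1 x).2]
  exact div_le_div_of_nonneg_right
    (((st_PW n (M.ev H x) _ 0 0 (M.ev W x) (hH.ev_pos x)).2.2.2.2.2.2.2.2
      (NM.psd h x)).2.2.2.2 q) (pow_pos (Mf.pd_det_re (hH.ev_pos x)) m).le

theorem sg_wd [M.Cpt] (hH : M.Met H) (hθ : M.Ten θ) {m l : ℕ} {W : M.Fam (Fs n → ℂ)}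
    {V : M.Fam (E n)} (sW : (lk H m).Sec W) (hS : Sg H θ m W) (hV : HT M l V)
    (hV' : Sg H θ l (vec M V)) : Sg H θ (l + m) (wd M V W) := by
  have I := (mMU n M H hH).2.2.2.2.1 ℝ
  have K := st_KIT n M H m W hH
  have pw := fun x T v W => st_PW n (M.ev H x) T v 0 W (hH.ev_pos x)
  have dp := fun x => Mf.pd_det_re (hH.ev_pos x)
  have sv : (lk H l).Sec (vec M V) :=
    ((st_KIT n M H l _ hH).1.1 ((st_KIT n M H l W hH).2.1 V hV).1).1
  obtain ⟨C, C0, hC⟩ := hS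
  obtain ⟨D, D0, hD⟩ := hV'
  obtain ⟨B, B0, hB⟩ := NM.bnd hH sW
  obtain ⟨A, A0, hA⟩ := NM.bnd hH sv
  refine ⟨2 * (B * D + A * C), by positivity, fun ε u e0 hu h => ?_⟩
  have c1 := cuc hH hθ sv ε hu
  have c2 := cuc hH hθ sW ε hu
  have i1 : Integrable (fun x => B * cu (θ + ε • H + M.hs u) (lk H l) (vec M V) x) (M.mu H) :=
    (I _ c1).const_mul _
  have i2 : Integrable (fun x => A * cu (θ + ε • H + M.hs u) (lk H m) W x) (M.mu H) :=
    (I _ c2).const_mul _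
  have k : ∫ x, cu (θ + ε • H + M.hs u) (lk H (l + m)) (wd M V W) x ∂M.mu H ≤ ∫ x, 2 *
      (B * cu (θ + ε • H + M.hs u) (lk H l) (vec M V) x +
        A * cu (θ + ε • H + M.hs u) (lk H m) W x) ∂M.mu H := by
    refine integral_mono (I _ (cuc hH hθ ((K.2.2.1 l V hV).2 sW) ε hu))
      ((i1.add i2).const_mul _) fun x => ?_
    have p := NM.psd h x
    have P := pw x (M.ev (θ + ε • H + M.hs u) x) (M.ev V x) (M.ev W x)
    obtain ⟨a1, -, a3, -⟩ := P.2.2.2.2.2.2.2.2 p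
    have b1 := hB x
    have b2 := hA x
    have kv := (st_KIT n M H l (vec M V) hH).2.2.2.2.2.1 x
    have e1 : ng (M.ev H x) (M.ev (vec M V) x) = nq (M.ev H x) (M.ev V x) := P.2.2.2.2.1
    have e2 : cg (M.ev H x) (M.ev (θ + ε • H + M.hs u) x) (M.ev (vec M V) x) =
      nq (M.ev (θ + ε • H + M.hs u) x) (M.ev V x) := P.2.2.2.2.2.1
    have n0 : 0 ≤ nq (M.ev (θ + ε • H + M.hs u) x) (M.ev V x) := p.re_dotProduct_nonneg _
    have dl := pow_pos (dp x) l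
    have dm := pow_pos (dp x) m
    rw [(K.2.2.2.2.2.1 x).1] at b1
    rw [kv.1, e1] at b2
    beta_reduce
    rw [((st_KIT n M H (l + m) _ hH).2.2.2.2.2.1 x).2, kv.2, e2, (K.2.2.2.2.2.1 x).2, pow_add]
    refine (div_le_div_of_nonneg_right a3 (mul_pos dl dm).le).trans ?_
    have f1 := mul_le_mul_of_nonneg_right b1 (div_nonneg n0 dl.le)
    have f2 := mul_le_mul_of_nonneg_right b2 (div_nonneg a1 dm.le)
    refine le_trans (le_of_eq ?_) (mul_le_mul_of_nonneg_left (add_le_add f1 f2) zero_le_two)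
    field_simp
  rw [integral_const_mul, integral_add i1 i2, integral_const_mul, integral_const_mul] at k
  have := mul_le_mul_of_nonneg_left (hC ε u e0 hu h) A0.le
  have := mul_le_mul_of_nonneg_left (hD ε u e0 hu h) B0.le
  linarith

/-! ### The data of the project -/

variable {I : Type} [Fintype I] (S : Sd M I)

theorem bf_clo : M.Clo (bf S) := by
  have : ∀ s : Finset I, M.Clo (∑ k ∈ s, al S.toDk k • M.hw (S.φ k)) := fun s => by
    induction s using Finset.induction_on with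
    | empty => rw [Finset.sum_empty]; exact Mf.clo_zero
    | insert a s ha ih => rw [Finset.sum_insert ha]; exact ((S.wt a).clo.smul _).add ih
  exact ((mHES n M).1 _ S.su).sub (this _)

theorem th_clo : M.Clo (bf S - M.ric S.H) :=
  (bf_clo S).sub ((mHES n M).2.2.2.2.2.2.2.2.1 _ S.kae.toMet)

theorem oms_ten (ε : ℝ) {v : M.X → ℝ} (hv : M.Sm v) : M.Ten (oms S ε v) :=
  ten S.kae.toMet (th_clo S).toTen ε hv

theorem n0s_of {a : ℝ → M.X → ℝ} {l : ℕ} {U : M.Fam (Fs n → ℂ)}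
    (t : Tendsto (fun t => ∫ x, cu (oms S t (a t)) (lk S.H l) U x ∂M.mu S.H) (𝓝[>] 0) (𝓝 0)) :
    N0s S a l U := fun η hη => by
  obtain ⟨ε, h1, h2, h3⟩ := ((show ∀ᶠ t in 𝓝[>] (0 : ℝ), t ∈ Ioc (0 : ℝ) 1 from
    Ioc_mem_nhdsGT one_pos).and ((show ∀ᶠ t in 𝓝[>] (0 : ℝ), t ∈ Ioc (0 : ℝ) η from
      Ioc_mem_nhdsGT hη).and (t.eventually (gt_mem_nhds hη)))).exists
  exact ⟨ε, h1, h2.2, h3.le⟩

/-- No mass near the zero set. -/
theorem nm [M.Cpt] {a : ℝ → M.X → ℝ} (hz : Zs S a) {m : ℕ} {W : M.Fam (Fs n → ℂ)}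
    (hW : HM M m W) (nz : Nz W) {η : ℝ} (hη : 0 < η) : ∃ d : ℝ, 0 < d ∧ ∀ ε ∈ Ioc (0 : ℝ) 1,
      ∫ x in {x | (lk S.H m).pn W x ≤ d}, M.tr S.H (oms S ε (a ε)) x ∂M.mu S.H ≤ η := by
  have hH := S.kae.toMet
  obtain ⟨sW, hol⟩ := (st_KIT n M S.H m W hH).1.1 hW
  obtain ⟨p, hp, k⟩ := Nm43.nm_sec S.kae (th_clo S).toTen (NM.ok hH m) sW hol nz η hη
  obtain ⟨C, h⟩ := hz.itg p (by exact_mod_cast hp)
  obtain ⟨s, s0, k⟩ := k C
  exact ⟨s, s0, fun ε hε => k ε _ hε.2 (hz.out.sm ε hε) (hz.out.le ε hε)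
    (hz.out.kae ε hε).toMet.nonneg (h ε hε)⟩

theorem sm0_prt [M.Cpt] {m : ℕ} {W : M.Fam (Fs n → ℂ)} (sW : (lk S.H m).Sec W) (h : Sm0 S m W)
    (q : ℕ) : Sm0 S m (prt M q W) :=
  sg_prt S.kae.toMet (th_clo S).toTen sW h q

theorem sm0_wd [M.Cpt] {m l : ℕ} {W : M.Fam (Fs n → ℂ)} {V : M.Fam (E n)}
    (sW : (lk S.H m).Sec W) (h : Sm0 S m W) (hV : HT M l V) (hV' : Sm0 S l (vec M V)) :
    Sm0 S (l + m) (wd M V W) :=
  sg_wd S.kae.toMet (th_clo S).toTen sW h hV hV'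

theorem lim_wd [M.Cpt] {a : ℝ → M.X → ℝ} (hz : Zs S a) {m l : ℕ} {W : M.Fam (Fs n → ℂ)}
    {V : M.Fam (E n)} (hW : HM M m W) (h : Sm0 S m W) (nz : Nz W) (hV : HT M l V)
    (h0 : Zr M (wd M V W)) : Tendsto
      (fun t => ∫ x, cu (oms S t (a t)) (lk S.H l) (vec M V) x ∂M.mu S.H) (𝓝[>] 0) (𝓝 0) := by
  have hH := S.kae.toMet
  refine lim_of S.kae (th_clo S).toTen hz.out hW h nz
    ((st_KIT n M S.H l _ hH).1.1 ((st_KIT n M S.H l W hH).2.1 V hV).1).1 fun x T p => ?_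
  have P := st_PW n (M.ev S.H x) T (M.ev V x) 0 (M.ev W x) (hH.ev_pos x)
  have e1 : ng (M.ev S.H x) (M.ev (vec M V) x) = nq (M.ev S.H x) (M.ev V x) := P.2.2.2.2.1
  have e2 : cg (M.ev S.H x) T (M.ev (vec M V) x) = nq T (M.ev V x) := P.2.2.2.2.2.1
  rw [e1, e2]
  exact (P.2.2.2.2.2.2.2.2 p).2.2.2.1 (Mf.AllOn.ch h0 x)

theorem lim_pr [M.Cpt] {a : ℝ → M.X → ℝ} (hz : Zs S a) {m l : ℕ} {W U : M.Fam (Fs n → ℂ)}
    (hW : HM M m W) (h : Sm0 S m W) (nz : Nz W) (hU : (lk S.H l).Sec U)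
    (hp : M.All fun e z => Pr (U e z) (W e z)) : Tendsto
      (fun t => ∫ x, cu (oms S t (a t)) (lk S.H l) U x ∂M.mu S.H) (𝓝[>] 0) (𝓝 0) :=
  lim_of S.kae (th_clo S).toTen hz.out hW h nz hU fun x T _ =>
    ((st_PW n (M.ev S.H x) T 0 0 (M.ev U x) (S.kae.toMet.ev_pos x)).2.2.2.2.2.2.1 _
      (Mf.AllOn.ch hp x)).le

/-- The text of the row on products, parts and divisors. -/
theorem nmu [M.Cpt] {a : ℝ → M.X → ℝ} (hz : Zs S a) (m l : ℕ) {W : M.Fam (Fs n → ℂ)}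
    (hW : HM M m W) (h : Sm0 S m W) : (∀ q, Sm0 S m (prt M q W)) ∧
    (∀ V, HT M l V → Sm0 S l (vec M V) → Sm0 S (l + m) (wd M V W)) ∧
    (Nz W → (∀ V, HT M l V → Zr M (wd M V W) → N0s S a l (vec M V)) ∧
      ∀ U, HM M l U → (M.All fun e z => Pr (U e z) (W e z)) → N0s S a l U) := by
  have hH := S.kae.toMet
  have sW := ((st_KIT n M S.H m W hH).1.1 hW).1
  exact ⟨sm0_prt S sW h, fun V hV hV' => sm0_wd S sW h hV hV', fun nz =>
    ⟨fun V hV h0 => n0s_of S (lim_wd S hz hW h nz hV h0), fun U hU hp =>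
      n0s_of S (lim_pr S hz hW h nz ((st_KIT n M S.H l U hH).1.1 hU).1 hp)⟩⟩

/-! ### The classes of the levels -/

theorem sg0 (k : I) (x : M.X) : 0 ≤ sg S.toDk k x := Mf.nrC_nonneg _ _ _

theorem sg_sm (k : I) : M.Sm (sg S.toDk k) := (S.wt k).nr_sm (S.hol k).toSecC

theorem ka0 (m : ℕ) (k : I) : 0 ≤ ka S.toDk m k :=
  div_nonneg (Nat.cast_nonneg _) (Nat.cast_nonneg _)

theorem lf_le (m : ℕ) {d : ℝ} (hd : d ∈ Ioc (0 : ℝ) (1 / 2)) (x : M.X) : lf S m d x ≤ 0 :=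
  Finset.sum_nonpos fun k _ => mul_nonpos_of_nonneg_of_nonpos (ka0 S m k)
    (Real.log_nonpos (by linarith [sg0 S k x, hd.1]) (by linarith [S.sml k x, hd.2]))

theorem lf_cont (m : ℕ) {d : ℝ} (hd : 0 < d) : Continuous (lf S m d) :=
  continuous_finsetSum _ fun k _ => continuous_const.mul
    (((sg_sm S k).continuous.add continuous_const).log fun x =>
      (add_pos_of_nonneg_of_pos (sg0 S k x) hd).ne')

/-- The curvature term of the product with the equations. -/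
theorem cu_up (θ : M.Fam (Mat n)) (m : ℕ) (W : M.Fam (Fs n → ℂ)) (x : M.X) :
    cu θ (lk S.H m) (up S m W) x = (∏ k, sg S.toDk k x ^ fl S.toDk m k) *
      Real.exp (((m : ℝ) - 1) * S.u x) * cu θ (lb S m) W x := by
  have e : M.ev (up S m W) x = (∏ k, M.ev (S.f k) x ^ fl S.toDk m k) • M.ev W x := rfl
  have e2 : M.ev (pm S m) x = M.ev (wk S.H m) x - ∑ k, fl S.toDk m k * M.ev (S.φ k) x +
      ((m : ℝ) - 1) * S.u x := by
    simp only [Mf.ev, pm, Mf.ch_symm]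
  have e3 : ∏ k, sg S.toDk k x ^ fl S.toDk m k = ‖∏ k, M.ev (S.f k) x ^ fl S.toDk m k‖ ^ 2 *
      Real.exp (-∑ k, fl S.toDk m k * M.ev (S.φ k) x) := by
    rw [← Finset.sum_neg_distrib, Real.exp_sum, norm_prod, ← Finset.prod_pow,
      ← Finset.prod_mul_distrib]
    refine Finset.prod_congr rfl fun k _ => ?_
    rw [sg, Mf.nrC, mul_pow, Complex.normSq_eq_norm_sq, norm_pow, ← pow_mul, ← pow_mul, mul_comm 2,
      ← Real.exp_nat_mul, mul_neg]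
  rw [W98.cu_eq, W98.cu_eq, e, W98.qn_smul, e2, e3]
  have : Real.exp (-M.ev (wk S.H m) x) = Real.exp (-∑ k, fl S.toDk m k * M.ev (S.φ k) x) *
      Real.exp (((m : ℝ) - 1) * S.u x) * Real.exp (-(M.ev (wk S.H m) x -
        ∑ k, fl S.toDk m k * M.ev (S.φ k) x + ((m : ℝ) - 1) * S.u x)) := by
    rw [← Real.exp_add, ← Real.exp_add]
    exact congrArg _ (by ring)
  rw [this]
  ring

theorem cu_up_le {θ : M.Fam (Mat n)} (hθ : M.Le 0 θ) {m : ℕ} (hm : 1 ≤ m) (W : M.Fam (Fs n → ℂ))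
    (x : M.X) : cu θ (lk S.H m) (up S m W) x ≤ cu θ (lb S m) W x := by
  rw [cu_up]
  refine mul_le_of_le_one_left (W98.cu_nonneg S.kae.toMet hθ _ _ W x) (mul_le_one₀
    (Finset.prod_le_one (fun k _ => pow_nonneg (sg0 S k x) _) fun k _ =>
      pow_le_one₀ (sg0 S k x) (by linarith [S.sml k x])) (Real.exp_pos _).le ?_)
  exact Real.exp_le_one_iff.2 (mul_nonpos_of_nonneg_of_nonpos
    (sub_nonneg.2 (by exact_mod_cast hm)) (S.u0 x))

theorem cu_congr {θ : M.Fam (Mat n)} {b : Bun M (Fs n)} {T U : M.Fam (Fs n → ℂ)}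
    (h : M.All fun e z => T e z = U e z) : cu θ b T = cu θ b U := funext fun x => by
  have := Mf.AllOn.ch h x
  simp only [cu, Mf.ev, this]

/-- The classes of the levels are small. -/
theorem sm0_up [M.Cpt] {m : ℕ} (hm : 1 ≤ m) (wt : M.WtC (Lb S m) (pm S m))
    {W : M.Fam (Fs n → ℂ)} (sW : (lb S m).Sec W) (h : Smw S m W) : Sm0 S m (up S m W) := by
  have hH := S.kae.toMet
  obtain ⟨C, C0, hC⟩ := h
  have hd : (1 / 2 : ℝ) ∈ Ioc (0 : ℝ) (1 / 2) := ⟨by norm_num, le_rfl⟩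
  refine ⟨C, C0, fun ε v e0 hv p => le_trans (integral_mono_of_nonneg
    (Eventually.of_forall fun x => W98.cu_nonneg hH p _ _ _ x) ((mMU n M _ hH).2.2.2.2.1 ℝ _
      ((lf_cont S m hd.1).neg.rexp.mul (aCU n M _ _ _ _ W hH (oms_ten S ε hv) wt sW).2.1))
    (Eventually.of_forall fun x => (cu_up_le S p hm W x).trans ?_)) (hC ε v e0 hv p _ hd)⟩
  exact le_mul_of_one_le_left (W98.cu_nonneg hH p _ _ W x)
    (Real.one_le_exp (neg_nonneg.2 (lf_le S m hd x)))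

theorem sm0_nn [M.Cpt] {m : ℕ} (hm : 1 ≤ m) (wt : M.WtC (Lb S m) (pm S m))
    {T : M.Fam (Fs n → ℂ)} (h : Nn S m T) : Sm0 S m T := by
  obtain ⟨W, hW, e⟩ := h
  obtain ⟨C, C0, hC⟩ := sm0_up S hm wt hW.sec hW.sml
  exact ⟨C, C0, fun ε v e0 hv p => by rw [cu_congr e]; exact hC ε v e0 hv p⟩

theorem prt_sec {L : M.Co} {φ : M.Fam ℝ} {W : M.Fam (Fs n → ℂ)} (q : ℕ)
    (h : (lam H L φ).Sec W) : (lam H L φ).Sec (prt M q W) := by
  refine ⟨fun e he z hz => contDiffAt_pi.2 fun A => ?_, fun e he e' he' x hx hx' => ?_⟩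
  · by_cases c : A.card = q
    · simpa only [prt, if_pos c] using contDiffAt_pi.1 (h.sm e he z hz) A
    · simpa only [prt, if_neg c] using contDiffAt_const
  · have a : W e (e x) = ((L.c e e' x)⁻¹ • La (M.J e e' x)) *ᵥ W e' (e' x) :=
      h.cmp e he e' he' x hx hx'
    show _ = ((L.c e e' x)⁻¹ • La (M.J e e' x)) *ᵥ fun A => if A.card = q then W e' (e' x) A else 0
    rw [Matrix.smul_mulVec] at a ⊢
    rw [K92.la_prt]
    funext A
    simp only [prt, a, Pi.smul_apply, smul_ite, smul_zero]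

theorem anv_prt {a : E n} {Y : Fs n → ℂ} (h : anv a *ᵥ Y = 0) (q : ℕ) :
    anv a *ᵥ (fun A => if A.card = q then Y A else 0) = 0 := by
  rcases q with _ | q
  · rw [FK98.dg0 (W := fun A => if A.card = 0 then Y A else 0) fun A hA => if_neg hA,
      Matrix.mulVec_smul, show anv a *ᵥ vac n = 0 from W98.av_vac _, smul_zero]
  · refine (PW98.av_prt a q Y).trans (funext fun A => ?_)
    rw [show W98.av a *ᵥ Y = 0 from h]
    exact ite_self _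

theorem cu_prt {L : M.Co} {φ : M.Fam ℝ} (hH : M.Met H) (hθ : M.Le 0 θ) (W : M.Fam (Fs n → ℂ))
    (q : ℕ) (x : M.X) : cu θ (lam H L φ) (prt M q W) x ≤ cu θ (lam H L φ) W x := by
  have e : ∀ U : M.Fam (Fs n → ℂ), W98.qn (M.ev θ x) (M.ev H x) (M.ev U x) =
      cg (M.ev H x) (M.ev θ x) (M.ev U x) := fun U => by
    rw [W98.qn, ← CU.qm_eq]
    rfl
  rw [W98.cu_eq, W98.cu_eq, e, e]
  exact mul_le_mul_of_nonneg_left (((st_PW n (M.ev H x) _ 0 0 (M.ev W x)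
    (hH.ev_pos x)).2.2.2.2.2.2.2.2 (NM.psd hθ x)).2.2.2.2 q) (Real.exp_pos _).le

theorem nt_prt {m : ℕ} {W : M.Fam (Fs n → ℂ)} (h : Nt S m W) (q : ℕ) : Nt S m (prt M q W) :=
  ⟨prt_sec q h.sec, K92.prt_hol q h.hol, fun k hk e he z hz h0 =>
    anv_prt (h.tan k hk e he z hz h0) q⟩

theorem nw_prt [M.Cpt] {m : ℕ} (wt : M.WtC (Lb S m) (pm S m)) {W : M.Fam (Fs n → ℂ)}
    (h : Nw S m W) (q : ℕ) : Nw S m (prt M q W) := by
  have hH := S.kae.toMet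
  obtain ⟨C, C0, hC⟩ := h.sml
  refine ⟨nt_prt S h.toNt q, C, C0, fun ε v e0 hv p d hd => le_trans (integral_mono_of_nonneg
    (Eventually.of_forall fun x => mul_nonneg (Real.exp_pos _).le (W98.cu_nonneg hH p _ _ _ x))
    ((mMU n M _ hH).2.2.2.2.1 ℝ _
      ((lf_cont S m hd.1).neg.rexp.mul (aCU n M _ _ _ _ W hH (oms_ten S ε hv) wt h.sec).2.1))
    (Eventually.of_forall fun x => mul_le_mul_of_nonneg_left (cu_prt hH p W q x)
      (Real.exp_pos _).le)) (hC ε v e0 hv p d hd)⟩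

theorem nn_prt [M.Cpt] {m : ℕ} (wt : M.WtC (Lb S m) (pm S m)) {T : M.Fam (Fs n → ℂ)}
    (h : Nn S m T) (q : ℕ) : Nn S m (prt M q T) := by
  obtain ⟨W, hW, e⟩ := h
  refine ⟨_, nw_prt S wt hW q, fun c hc z hz => funext fun A => ?_⟩
  have := e c hc z hz
  beta_reduce at this
  simp only [prt, up, this, Pi.smul_apply, smul_ite, smul_zero]

end N56

end Pool.Agent.Lib.N4S
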