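import Pool.Agent.Lib.N4S.Blue
import Pool.Agent.Lib.N4S.Nm56

/-! Project n4s, row NM. -/

namespace Pool.Agent.Lib.N4S

theorem st_NM : St_NM := fun _ _ _ _ _ S _ m l _ hz hW =>
  ⟨fun nz _ hη => N56.nm S hz hW nz hη, fun h =>
    ⟨(N56.nmu S hz m l hW h).1, (N56.nmu S hz m l hW h).2.1,
      fun nz => ((N56.nmu S hz m l hW h).2.2 nz).1⟩⟩

end Pool.Agent.Lib.N4S
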