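import Pool.Agent.Lib.N4S.Defs
import Pool.Agent.Lib.NU4.B_XS
import Pool.Agent.Lib.NU4.B_QQL
import Pool.Agent.Lib.NU4.Wdg98

/-! Project n4s: an almost exact obstruction at the level two gives a projective structure. -/

open scoped Classical Topology ContDiff ComplexOrder Matrix
open Set Filter MeasureTheory

noncomputable section

namespace Pool.Agent.Lib.N4S

open Pool.Agent.Lib.SV (E)
open Pool.Agent.Lib.HS32 Pool.Agent.Lib.HLK Pool.Agent.Lib.F4 Pool.Agent.Lib.NU4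
open Pool.Agent.Lib.K3E (kan wk lk triv)

namespace Q80

variable {n : ℕ} {M : Mf n}

section gen

variable {H : M.Fam (Mat n)} {L L' : M.Co} {φ φ' : M.Fam ℝ} {p : M.Fam ℂ}
  {W : M.Fam (Fs n → ℂ)} {V : M.Fam (E n)} {b : M.Fam ℂ}

/-- The product of a section with a holomorphic section of the quotient. -/
theorem mul_sec (hp : M.All fun e z => HolN (p e) z)
    (hc : M.Ov fun e e' x => p e' (e' x) * L'.c e e' x = p e (e x) * L.c e e' x)
    (hW : (lam H L' φ').Sec W) : (lam H L φ).Sec fun e z => p e z • W e z := by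
  refine ⟨fun e he z hz => ((mHOL n _ _).2.2 (hp e he z hz)).1.smul (hW.sm e he z hz),
    fun e he e' he' x hx hx' => ?_⟩
  have h1 := L.ne e he e' he' x hx hx'
  have h2 := L'.ne e he e' he' x hx hx'
  have h3 : p e (e x) * (L'.c e e' x)⁻¹ = (L.c e e' x)⁻¹ * p e' (e' x) := by
    have := hc e he e' he' x hx hx'
    field_simp
    linear_combination -this
  beta_reduce
  rw [hW.cmp e he e' he' x hx hx']
  simp only [lam, Matrix.smul_mulVec, Matrix.mulVec_smul, smul_smul]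
  rw [h3, mul_comm]

/-- The operator `Q` commutes with holomorphic factors. -/
theorem q_mul {e : M.Ch} {z : E n} (hp : HolN (p e) z) (hW : ContDiffAt ℝ ∞ (W e) z) :
    (oQ H).ap (fun e z => p e z • W e z) e z = p e z • (oQ H).ap W e z := by
  have d : ∀ l, dzbv l (fun w => p e w • W e w) z = p e z • dzbv l (W e) z := fun l =>
    funext fun A => by
      simp only [dzbv, Pi.smul_apply, smul_eq_mul]
      rw [dzb_mul (hp.self_of_nhds.restrictScalars ℝ) (cd_diff (contDiffAt_pi.1 hW A)),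
        HS.SIUK.dzb_hol hp.self_of_nhds, zero_mul, zero_add]
  rw [SQ.ap_eq, SQ.ap_eq]
  simp only [d, Matrix.mulVec_smul, Finset.smul_sum, smul_comm (p e z)]

/-- The law of the expression of Riccati for a smooth affine structure. -/
theorem qq_cmp (hH : M.Met H) (hV : HT M 1 V) (sb : M.All fun e z => ContDiffAt ℝ ∞ (b e) z)
    (hb : M.Sec 1 (b - a0 M H V)) : M.Ov fun e e' x =>
    qq (V e') (b e') (e' x) - qq (V e') (a0 M H V e') (e' x) =
      jd M e e' x ^ 2 * (qq (V e) (b e) (e x) - qq (V e) (a0 M H V e) (e x)) := by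
  intro e he e' he' x hx hx'
  obtain ⟨t1, t2, -, t4, -⟩ := (mTR n M).2.1 e he e' he' x hx hx'
  have c5 := ((mHOL n _ _).2.2 (mCHN n _ _ t1).2.2.2.2.1).1
  have ex : (e ∘ e'.symm) (e' x) = e x := congrArg e (e'.left_inv hx')
  have hz := e.map_source hx
  have hz' := e'.map_source hx'
  have hv : jm (e ∘ e'.symm) (e' x) *ᵥ V e' (e' x) =
      (jm (e ∘ e'.symm) (e' x)).det • V e ((e ∘ e'.symm) (e' x)) := by
    rw [ex]; simpa only [zpow_one, jd, Mf.J] using hV.cmp e he e' he' x hx hx'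
  have hu := cd_diff ((Q76.cd_dir (Q76.cd_v hV he' hz') c5).mul (c5.inv t2))
  have ju : dir (V e') (fun w => (jm (e ∘ e'.symm) w).det) (e' x) =
      (jm (e ∘ e'.symm) (e' x)).det * (dir (V e') (fun w => (jm (e ∘ e'.symm) w).det) (e' x) *
        ((jm (e ∘ e'.symm) (e' x)).det)⁻¹) := by
    have : (jm (e ∘ e'.symm) (e' x)).det ≠ 0 := t2
    field_simp
  have ea : ∀ᶠ w in 𝓝 (e' x), a0 M H V e' w = (jm (e ∘ e'.symm) w).det *
      (a0 M H V e ∘ e ∘ e'.symm) w + dir (V e') (fun w => (jm (e ∘ e'.symm) w).det) w *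
        ((jm (e ∘ e'.symm) w).det)⁻¹ := by
    filter_upwards [t4] with w k
    have := Q76.a0_law hH hV he he' k.2.1 k.2.2.1
    simpa only [jd, k.2.2.2.2.2.1, k.2.2.2.2.2.2, div_eq_mul_inv, Function.comp] using this
  have eb : ∀ᶠ w in 𝓝 (e' x), b e' w = (jm (e ∘ e'.symm) w).det *
      (b e ∘ e ∘ e'.symm) w + dir (V e') (fun w => (jm (e ∘ e'.symm) w).det) w *
        ((jm (e ∘ e'.symm) w).det)⁻¹ := by
    filter_upwards [t4, ea] with w k k1
    have := hb.cmp e he e' he' _ k.2.1 k.2.2.1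
    simp only [k.2.2.2.2.2.1, k.2.2.2.2.2.2, Function.comp, Pi.sub_apply, pow_one] at this k1 ⊢
    linear_combination this + k1
  rw [Q76.qq_law t1 hv (cd_diff c5) hu ju (ex ▸ cd_diff (sb e he _ hz)) eb,
    Q76.qq_law t1 hv (cd_diff c5) hu ju (ex ▸ cd_diff (Q76.cd_a0 hH hV he hz)) ea, ex]
  show _ = (jm (e ∘ e'.symm) (e' x)).det ^ 2 * _
  ring

theorem qq_af (hH : M.Met H) (hV : HT M 1 V) (sb : M.All fun e z => ContDiffAt ℝ ∞ (b e) z)
    (hb : M.Sec 1 (b - a0 M H V)) : X91.Aff (kan M 2) fun e => qq (V e) (b e) := by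
  refine ⟨fun e he z hz => (X91.cd_dir (hV.hol e he z hz) (sb e he z hz)).sub
    (((sb e he z hz).pow 2).div_const 2), fun e he e' he' x hx hx' => ?_⟩
  filter_upwards [(X91.qq_aff hH hV).hol e he e' he' x hx hx',
    ((mTR n M).2.1 e he e' he' x hx hx').2.2.2.1.eventually_nhds] with w a t
  refine a.congr_of_eventuallyEq (t.mono fun y hy => ?_)
  have := qq_cmp hH hV sb hb e he e' he' _ hy.2.1 hy.2.2.1
  simp only [kan, triv, Mf.Co.tw, hy.2.2.2.2.2.1, mul_one, jd] at this ⊢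
  linear_combination this

/-- A smooth affine structure with an almost exact obstruction gives a projective structure. -/
theorem pq_of [M.Cpt] (hn : 0 < n) (hH : M.Met H) (hN : NoS M) (hV : HT M 1 V)
    (sb : M.All fun e z => ContDiffAt ℝ ∞ (b e) z) (hb : M.Sec 1 (b - a0 M H V))
    (ha : ∀ η : ℝ, 0 < η → ∃ y, (lk H 2).Sec y ∧
      (lk H 2).nr H ((oQ H).ap (fun e z => qq (V e) (b e) z • vac n) - (oQ H).ap y) ≤ η) :
    ∃ q, Pq M H V q := by
  obtain ⟨q, q1, q2⟩ := X91.ext hn hH (K3E.bKAN n M H 2 hH).1 (qq_af hH hV sb hb)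
    (fun t ht => hN 2 two_pos t ⟨⟨ht.sm, fun e he e' he' x hx hx' => by
      simpa [kan, triv, Mf.Co.tw] using ht.cmp e he e' he' x hx hx'⟩, ht.hol⟩) ha
  refine ⟨q, q1, fun e he e' he' x hx hx' => ?_⟩
  have h1 := q2.cmp e he e' he' x hx hx'
  have h2 := qq_cmp hH hV sb hb e he e' he' x hx hx'
  simp only [kan, triv, Mf.Co.tw, mul_one, Pi.sub_apply, jd] at h1 h2 ⊢
  linear_combination h1 - h2

end gen

variable {I : Type} [Fintype I] (S : Sd M I)

theorem wt_pm (m : ℕ) : M.WtC (Lb S m) (pm S m) := by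
  have k := (K3E.bKAN n M S.H m S.kae.toMet).1
  refine ⟨fun e he z hz => ((k.sm e he z hz).sub (ContDiffAt.sum fun i _ =>
    contDiffAt_const.mul ((S.wt i).sm e he z hz))).add (contDiffAt_const.mul (S.su e he z hz)),
    fun e he e' he' x hx hx' => ?_⟩
  have c : ∀ i, Complex.normSq ((S.L i).c e e' x) ≠ 0 := fun i =>
    (map_ne_zero _).2 ((S.L i).ne e he e' he' x hx hx')
  simp only [pm, Lb, k.cmp e he e' he' x hx hx', fun i => (S.wt i).cmp e he e' he' x hx hx',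
    e.left_inv hx, e'.left_inv hx', map_mul, map_inv₀, map_prod, map_pow]
  rw [Real.log_mul ((map_ne_zero _).2 ((kan M m).ne e he e' he' x hx hx'))
    (inv_ne_zero (Finset.prod_ne_zero_iff.2 fun i _ => pow_ne_zero _ (c i))), Real.log_inv,
    Real.log_prod fun i _ => pow_ne_zero _ (c i)]
  simp only [Real.log_pow, mul_add, Finset.sum_add_distrib]
  ring

theorem hol_pf (m : ℕ) :
    M.All fun e z => HolN (fun w => ∏ k, S.f k e w ^ fl S.toDk m k) z := fun e he z hz => by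
  filter_upwards [e.open_target.mem_nhds hz] with w hw
  exact (HasFDerivAt.finsetProd fun k _ =>
    (((S.hol k).hol e he w hw).fun_pow _).hasFDerivAt).differentiableAt

theorem up_sec {m : ℕ} {W : M.Fam (Fs n → ℂ)} (hW : (lb S m).Sec W) :
    (lk S.H m).Sec (up S m W) := by
  refine mul_sec (p := fun e w => ∏ k, S.f k e w ^ fl S.toDk m k) (hol_pf S m)
    (fun e he e' he' x hx hx' => ?_) hW
  have c : ∏ k, (S.L k).c e e' x ^ fl S.toDk m k ≠ 0 :=
    Finset.prod_ne_zero_iff.2 fun k _ => pow_ne_zero _ ((S.L k).ne e he e' he' x hx hx')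
  simp only [Lb, fun k => (S.hol k).cmp e he e' he' x hx hx', mul_pow, Finset.prod_mul_distrib]
  field_simp

theorem up_pn (m : ℕ) (W : M.Fam (Fs n → ℂ)) (x : M.X) : (lk S.H m).pn (up S m W) x =
    (∏ k, sg S.toDk k x ^ fl S.toDk m k) * Real.exp (((m : ℝ) - 1) * S.u x) *
      (lb S m).pn W x := by
  have e1 : M.ev (up S m W) x = (∏ k, M.ev (S.f k) x ^ fl S.toDk m k) • M.ev W x := rfl
  have e2 : M.ev (pm S m) x = M.ev (wk S.H m) x - ∑ k, fl S.toDk m k * M.ev (S.φ k) x +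
      ((m : ℝ) - 1) * S.u x := by
    simp only [Mf.ev, pm, (M.ch x).left_inv ((mTR n M).1 x).2]
  have e3 : ∏ k, sg S.toDk k x ^ fl S.toDk m k = ‖∏ k, M.ev (S.f k) x ^ fl S.toDk m k‖ ^ 2 *
      Real.exp (-∑ k, fl S.toDk m k * M.ev (S.φ k) x) := by
    rw [← Finset.sum_neg_distrib, Real.exp_sum, norm_prod, ← Finset.prod_pow,
      ← Finset.prod_mul_distrib]
    refine Finset.prod_congr rfl fun k _ => ?_
    rw [sg, Mf.nrC, mul_pow, ← Real.exp_nat_mul, Complex.normSq_eq_norm_sq, norm_pow, mul_neg,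
      ← pow_mul, ← pow_mul, mul_comm 2]
  rw [W98.pn_eq, W98.pn_eq, e1, W98.nn_smul, e2, e3]
  have e4 : Real.exp (-M.ev (wk S.H m) x) = Real.exp (-∑ k, fl S.toDk m k * M.ev (S.φ k) x) *
      Real.exp (((m : ℝ) - 1) * S.u x) * Real.exp (-(M.ev (wk S.H m) x -
        ∑ k, fl S.toDk m k * M.ev (S.φ k) x + ((m : ℝ) - 1) * S.u x)) := by
    rw [← Real.exp_add, ← Real.exp_add]
    exact congrArg _ (by ring)
  rw [e4]
  ring

theorem up_le {m : ℕ} (hm : 0 < m) (W : M.Fam (Fs n → ℂ)) (x : M.X) :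
    (lk S.H m).pn (up S m W) x ≤ (lb S m).pn W x := by
  rw [up_pn]
  refine mul_le_of_le_one_left (W98.pn_nonneg S.kae.toMet _ _ _ _) (mul_le_one₀
    (Finset.prod_le_one (fun k _ => pow_nonneg (Mf.nrC_nonneg _ _ _) _) fun k _ =>
      pow_le_one₀ (Mf.nrC_nonneg _ _ _) ((S.sml k x).trans (by norm_num)))
    (Real.exp_pos _).le (Real.exp_le_one_iff.2 (mul_nonpos_of_nonneg_of_nonpos ?_ (S.u0 x))))
  exact sub_nonneg.2 (by exact_mod_cast hm)

theorem up_nr [M.Cpt] {m : ℕ} (hm : 0 < m) {W : M.Fam (Fs n → ℂ)} (hW : (lb S m).Sec W) :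
    (lk S.H m).nr S.H (up S m W) ≤ (lb S m).nr S.H W :=
  integral_mono_of_nonneg (Eventually.of_forall (W98.pn_nonneg S.kae.toMet _ _ _))
    ((mMU n M S.H S.kae.toMet).2.2.2.2.1 ℝ _
      ((aLAM n M S.H _ _ S.kae.toMet (wt_pm S m)).1.pp_rep hW hW).2.re.continuous)
    (Eventually.of_forall (up_le S hm W))

theorem up_q {m : ℕ} {W : M.Fam (Fs n → ℂ)} (hW : (lb S m).Sec W) :
    M.All fun e z => (oQ S.H).ap (up S m W) e z = up S m ((oQ S.H).ap W) e z := fun e he z hz =>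
  q_mul (p := fun e w => ∏ k, S.f k e w ^ fl S.toDk m k) (hol_pf S m e he z hz) (hW.sm e he z hz)

/-- An almost exact obstruction gives a projective structure. -/
theorem qex [M.Cpt] {V : M.Fam (E n)} {b : M.Fam ℂ} {x : M.Fam (Fs n → ℂ)} (hN : NoS M)
    (hV : HT M 1 V) (hb : B0 S V b) (hx : Ob S V b x)
    (ha : ∀ η : ℝ, 0 < η → ∃ y, (lb S 2).Sec y ∧ (lb S 2).nr S.H (x - (oQ S.H).ap y) ≤ η) :
    ∃ q, Pq M S.H V q := by
  refine pq_of S.pos S.kae.toMet hN hV hb.sm hb.sec fun η hη => ?_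
  obtain ⟨y, y1, y2⟩ := ha η hη
  have c : (lb S 2).Sec (x - (oQ S.H).ap y) :=
    (lb S 2).secs.sub_mem hx.sec (aSQ n M S.H _ _ y S.kae.toMet y1).1
  refine ⟨_, up_sec S y1, le_trans (le_of_eq ?_) ((up_nr S two_pos c).trans y2)⟩
  refine integral_congr_ae (Eventually.of_forall fun z => ?_)
  have h1 := Mf.AllOn.ch hx.eq z
  have h2 := Mf.AllOn.ch (up_q S y1) z
  rw [W98.pn_eq, W98.pn_eq]
  refine congrArg (fun Y => _ * W98.nn _ Y) ?_
  simp only [Mf.ev, Pi.sub_apply] at h1 h2 ⊢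
  rw [← h1, h2]
  simp only [up, Pi.sub_apply, smul_sub]

end Q80

end Pool.Agent.Lib.N4S
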