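import Pool.Agent.Lib.N4S.Kit78
import Pool.Agent.Lib.N4S.Qex80
import Pool.Agent.Lib.NU4.Hv39
import Pool.Agent.Lib.KF.Neg1

/-! Project n4s: the derivative of the model weight along a tangent field, and the obstruction at
level two. -/

open scoped Classical Topology ContDiff ComplexOrder Matrix
open Set Filter MeasureTheory

set_option linter.unusedVariables false

noncomputable section

namespace Pool.Agent.Lib.N4S.O24

open Pool.Agent.Lib.SV (E)
open Pool.Agent.Lib.HS32 Pool.Agent.Lib.HLK Pool.Agent.Lib.F4 Pool.Agent.Lib.NU4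
open Pool.Agent.Lib.K3E (kan wk lk)

/-! ### Calculus in coordinates -/

section euc

variable {n : ℕ} {v : E n → E n} {f g : E n → ℂ} {z : E n}

theorem dir_sub (hf : DifferentiableAt ℝ f z) (hg : DifferentiableAt ℝ g z) :
    dir v (fun w => f w - g w) z = dir v f z - dir v g z := by
  simp only [dir, dz_sub hf hg, mul_sub, Finset.sum_sub_distrib]

theorem dir_cmul (c : ℂ) (hf : DifferentiableAt ℝ f z) :
    dir v (fun w => c * f w) z = c * dir v f z := by
  simp only [dir, dz_const_mul c hf, Finset.mul_sum, mul_left_comm]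

theorem dir_sum {J : Type} {s : Finset J} {f : J → E n → ℂ}
    (hf : ∀ a ∈ s, DifferentiableAt ℝ (f a) z) :
    dir v (fun w => ∑ a ∈ s, f a w) z = ∑ a ∈ s, dir v (f a) z := by
  simp only [dir, dz_sum hf, Finset.mul_sum]
  exact Finset.sum_comm

theorem dif_div (hf : DifferentiableAt ℂ f z) (hg : DifferentiableAt ℂ g z) (h : g z ≠ 0) :
    DifferentiableAt ℂ (fun w => f w / g w) z := by
  simpa only [div_eq_mul_inv] using hf.fun_mul (hg.fun_inv h)

/-- The logarithm of the squared norm. -/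
def ln (f : E n → ℂ) (w : E n) : ℂ := (Real.log (Complex.normSq (f w)) : ℝ)

theorem cd_lg (hf : HolN f z) (h0 : f z ≠ 0) : ContDiffAt ℝ ∞ (ln f) z :=
  cd_ofReal (((mHOL n _ _).2.2 hf).2.2.2 h0).1

theorem dir_lg (hf : HolN f z) (h0 : f z ≠ 0) : dir v (ln f) z = dir v f z / f z := by
  have := (((mHOL n _ _).2.2 hf).2.2.2 h0).2.2
  simp only [dir, Finset.sum_div, mul_div_assoc, ← this]
  rfl

/-- The chain rule for a holomorphic map to another space. -/
theorem dir_chain {r : ℕ} {G : E n → E r} {F : E r → ℂ} (hG : ∀ a, HolN (fun w => G w a) z)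
    (hF : DifferentiableAt ℝ F (G z)) :
    dir v (fun w => F (G w)) z = ∑ a, dz a F (G z) * dir v (fun w => G w a) z := by
  have d : ∀ a, DifferentiableAt ℝ (fun w => G w a) z := fun a =>
    (hG a).self_of_nhds.restrictScalars ℝ
  have k : ∀ j (c : ℂ), fderiv ℝ (fun w => F (G w)) z (Pi.single j c) =
      ∑ a, (dz a F (G z) * (dz j (fun w => G w a) z * c) +
        dzb a F (G z) * star (dz j (fun w => G w a) z * c)) := fun j c => by
    rw [fderiv_fun_comp z hF (differentiableAt_pi.2 d), ContinuousLinearMap.comp_apply, fderiv_eq_sum]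
    refine Finset.sum_congr rfl fun a _ => ?_
    have : fderiv ℝ G z (Pi.single j c) a = dz j (fun w => G w a) z * c := by
      rw [fderiv_pi d, ContinuousLinearMap.pi_apply, fderiv_eq_sum]
      simp [HS.SIUK.dzb_hol (hG a).self_of_nhds, Pi.single_apply]
    rw [this]
  have q : ∀ j, dz j (fun w => F (G w)) z = ∑ a, dz a F (G z) * dz j (fun w => G w a) z :=
    fun j => by
      rw [dz, k, k, Finset.mul_sum, ← Finset.sum_sub_distrib, Finset.sum_div]
      refine Finset.sum_congr rfl fun a _ => ?_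
      rw [star_mul', star_mul', star_one, show star Complex.I = -Complex.I from Complex.conj_I]
      linear_combination (-(dz a F (G z) * dz j (fun w => G w a) z -
        dzb a F (G z) * star (dz j (fun w => G w a) z)) / 2) * Complex.I_mul_I
  simp only [dir, q, Finset.mul_sum]
  rw [Finset.sum_comm]
  exact Finset.sum_congr rfl fun a _ => Finset.sum_congr rfl fun j _ => mul_left_comm _ _ _

/-- The function divides its derivative along the field. -/
def Tf (v : E n → E n) (z : E n) (f : E n → ℂ) : Prop :=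
  HolN f z ∧ ∃ h, HolN h z ∧ ∀ᶠ w in 𝓝 z, dir v f w = h w * f w

theorem tf_one : Tf v z fun _ => 1 :=
  ⟨.of_forall fun _ => differentiableAt_const _, fun _ => 0,
    .of_forall fun _ => differentiableAt_const _, .of_forall fun w => by simp [dir]⟩

theorem Tf.mul (a : Tf v z f) (b : Tf v z g) : Tf v z fun w => f w * g w := by
  obtain ⟨a1, h, a2, a3⟩ := a
  obtain ⟨b1, k, b2, b3⟩ := b
  refine ⟨(a1.and b1).mono fun w t => t.1.fun_mul t.2, fun w => h w + k w,
    (a2.and b2).mono fun w t => t.1.fun_add t.2, ?_⟩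
  filter_upwards [a1, b1, a3, b3] with w t1 t2 t3 t4
  rw [Q76.dir_mul (t1.restrictScalars ℝ) (t2.restrictScalars ℝ), t3, t4]
  ring

theorem Tf.pow (a : Tf v z f) (m : ℕ) : Tf v z fun w => f w ^ m := by
  induction m with
  | zero => simpa only [pow_zero] using tf_one
  | succ m k => simpa only [pow_succ] using k.mul a

theorem tf_prod {J : Type} (s : Finset J) {f : J → E n → ℂ} (h : ∀ a, Tf v z (f a)) :
    Tf v z fun w => ∏ a ∈ s, f a w := by
  induction s using Finset.induction_on with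
  | empty => simpa only [Finset.prod_empty] using tf_one
  | insert a s ha k => simpa only [Finset.prod_insert ha] using (h a).mul k

/-- The expression of Riccati of a holomorphic function plus a multiple of `p`. -/
theorem qq_dvd {b η p σ : E n → ℂ} (hv : HolV v z) (hp : Tf v z p) (hη : HolN η z)
    (hσ : ContDiffAt ℝ ∞ σ z) (hb : ∀ᶠ w in 𝓝 z, b w = η w + p w * σ w) (l : Fin n) :
    ∃ s, ContDiffAt ℝ ∞ s z ∧ ∀ᶠ w in 𝓝 z, dzb l (NU4.qq v b) w = s w * p w := by
  obtain ⟨p1, h, h1, h2⟩ := hp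
  have c : ∀ {f : E n → ℂ}, HolN f z → ContDiffAt ℝ ∞ f z := fun t => ((mHOL n _ _).2.2 t).1
  have r : ContDiffAt ℝ ∞ (fun w => h w * σ w + dir v σ w - η w * σ w - p w * σ w ^ 2 / 2) z :=
    ((((c h1).mul hσ).add (X91.cd_dir hv hσ)).sub ((c hη).mul hσ)).sub
      (((c p1).mul (hσ.pow 2)).div_const 2)
  have k : ∀ᶠ w in 𝓝 z, NU4.qq v b w = (dir v η w - η w ^ 2 * 2⁻¹) +
      p w * (h w * σ w + dir v σ w - η w * σ w - p w * σ w ^ 2 / 2) := by
    filter_upwards [hb.eventually_nhds, p1, hη, h2, cd_ev_diff hσ] with w t1 t2 t3 t4 t5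
    rw [NU4.qq, Q76.dir_congr t1, t1.self_of_nhds, Q76.dir_add (t3.restrictScalars ℝ)
      ((t2.restrictScalars ℝ).fun_mul t5), Q76.dir_mul (t2.restrictScalars ℝ) t5, t4]
    ring
  refine ⟨_, cd_dzb r l, ?_⟩
  filter_upwards [k.eventually_nhds, p1, hη, X91.hol_dir hv hη, cd_ev_diff r] with w t1 t2 t3 t4 t5
  have t6 := t4.fun_sub ((t3.fun_pow 2).mul_const 2⁻¹)
  rw [dzb_congr t1, dzb_add (t6.restrictScalars ℝ) ((t2.restrictScalars ℝ).fun_mul t5),
    HS.SIUK.dzb_hol t6, dzb_mul (t2.restrictScalars ℝ) t5, HS.SIUK.dzb_hol t2]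
  ring

end euc

/-! ### The complement of the divisors -/

variable {n : ℕ} {M : Mf n} {I : Type} [Fintype I] (S : Sd M I)

theorem reg (k : I) : M.All fun e z => S.f k e z = 0 → fderiv ℂ (S.f k e) z ≠ 0 :=
  KS.NEG.reg (S.hol k) fun x => (S.deg k x).imp fun e h => ⟨h.1, h.2.1, fun t => (h.2.2 t).1⟩

theorem of_ev : M.All fun e z => e.symm z ∈ Of S.toDk → ∀ᶠ w in 𝓝 z, e.symm w ∈ Of S.toDk :=
  fun e he z hz h => (K78.ev_Of _ he hz h).mono fun w t => t.2

theorem of_frx (x : M.X) : ∃ᶠ y in 𝓝 x, y ∈ Of S.toDk := by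
  have d := (finite_range fun k => {x | sg S.toDk k x ≠ 0}).dense_sInter
    (forall_mem_range.2 fun k => isOpen_ne_fun (K78.sg_sm _ k).continuous continuous_const)
    (forall_mem_range.2 fun k => (KF.dns (S.hol k).toSecC (reg S k)).mono fun y => Mf.nrC_ne.2)
  exact (mem_closure_iff_frequently.1 (d x)).mono fun y t k => t _ (mem_range_self k)

theorem of_fr : M.All fun e z => ∃ᶠ w in 𝓝 z, e.symm w ∈ Of S.toDk := fun e he z hz => by
  have h := of_frx S (e.symm z)
  rwa [← e.symm.map_nhds_eq hz, frequently_map] at h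

/-- A closed condition that holds off the divisors. -/
theorem cl_ext {F : Type} [TopologicalSpace F] {A : Set F} (hA : IsClosed A) {q : E n → F}
    {e : M.Ch} (he : e ∈ M.C) {z : E n} (hz : z ∈ e.target) (hq : ∀ᶠ w in 𝓝 z, ContinuousAt q w)
    (h : ∀ᶠ w in 𝓝 z, e.symm w ∈ Of S.toDk → q w ∈ A) : ∀ᶠ w in 𝓝 z, q w ∈ A := by
  filter_upwards [(of_fr S).ev he hz, hq, h.eventually_nhds] with w a b c
  exact hA.mem_of_frequently_of_tendsto ((a.and_eventually c).mono fun y t => t.2 t.1) b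

theorem eq_ext {F : Type} [TopologicalSpace F] [T2Space F] {p q : M.Fam F}
    (hp : M.All fun e z => ContinuousAt (p e) z) (hq : M.All fun e z => ContinuousAt (q e) z)
    (h : M.All fun e z => e.symm z ∈ Of S.toDk → p e z = q e z) :
    M.All fun e z => p e z = q e z := fun e he z hz =>
  tendsto_nhds_unique_of_frequently_eq (hp e he z hz) (hq e he z hz)
    (((of_fr S e he z hz).and_eventually (h.ev he hz)).mono fun w t => t.2 t.1)

theorem ov_ext {F : Type} [TopologicalSpace F] [T2Space F] {p q : M.Ch → M.Ch → M.X → F}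
    (hp : M.Ov fun e e' x => ContinuousAt (p e e') x)
    (hq : M.Ov fun e e' x => ContinuousAt (q e e') x)
    (h : M.Ov fun e e' x => x ∈ Of S.toDk → p e e' x = q e e' x) :
    M.Ov fun e e' x => p e e' x = q e e' x := fun e he e' he' x hx hx' =>
  tendsto_nhds_unique_of_frequently_eq (hp e he e' he' x hx hx') (hq e he e' he' x hx hx')
    (((of_frx S x).and_eventually ((e.open_source.eventually_mem hx).and
      (e'.open_source.eventually_mem hx'))).mono fun y t => h e he e' he' y t.2.1 t.2.2 t.1)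

theorem cont_ch {F : Type} [NormedAddCommGroup F] [NormedSpace ℝ F] {s : M.Fam F}
    (hs : M.All fun e z => ContDiffAt ℝ ∞ (s e) z) {e : M.Ch} (he : e ∈ M.C) {x : M.X}
    (hx : x ∈ e.source) : ContinuousAt (fun y => s e (e y)) x :=
  ContinuousAt.comp (f := e) (hs.at he hx).continuousAt (e.continuousAt hx)

/-- Division by a function whose zero set is nowhere dense. -/
theorem glue {g p : M.Fam ℂ} (hp : M.All fun e z => ∃ᶠ w in 𝓝 z, p e w ≠ 0)
    (h : M.All fun e z => ∃ s, ContDiffAt ℝ ∞ s z ∧ ∀ᶠ w in 𝓝 z, g e w = s w * p e w) :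
    ∃ s : M.Fam ℂ, M.All fun e z => ContDiffAt ℝ ∞ (s e) z ∧ g e z = s e z * p e z := by
  choose! u u1 u2 using h
  refine ⟨fun e w => u e w w, fun e he z hz =>
    ⟨(u1 e he z hz).congr_of_eventuallyEq ?_, (u2 e he z hz).self_of_nhds⟩⟩
  filter_upwards [e.open_target.eventually_mem hz, cd_ev_diff (u1 e he z hz),
    (u2 e he z hz).eventually_nhds] with w h1 h2 h3
  exact KS.NEG.uq (u1 e he w h1).continuousAt h2.continuousAt
    (((u2 e he w h1).and h3).mono fun y k => k.1.symm.trans k.2) (hp e he w h1)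

/-! ### The model weight -/

variable {V : M.Fam (E n)} {b : M.Fam ℂ}

theorem dir_gl (hV : HT M 1 V) (g : M.X → ℂ) : M.Ov fun e e' x =>
    DifferentiableAt ℝ (fun w => g (e.symm w)) (e x) →
      dir (V e') (fun w => g (e'.symm w)) (e' x) =
        jd M e e' x * dir (V e) (fun w => g (e.symm w)) (e x) := fun e he e' he' x hx hx' h => by
  rw [← X91.dir_cmp hV e he e' he' x hx hx' _ h]
  refine Q76.dir_congr (((mTR n M).2.1 e he e' he' x hx hx').2.2.2.1.mono fun w t => ?_)
  simp only [Function.comp, t.2.2.2.2.1]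

/-- The smooth part of the model weight. -/
def sw : M.Fam ℂ := fun e z =>
  (Real.log (S.H e z).det.re - ∑ k, al S.toDk k * S.φ k e z + S.u (e.symm z) : ℝ)

theorem cd_sw : M.All fun e z => ContDiffAt ℝ ∞ (sw S e) z := fun e he z hz =>
  cd_ofReal ((((mINV n M S.H S.kae.toMet).2.2.2.2.2.2.1.sm e he z hz).sub
    (ContDiffAt.sum fun k _ => contDiffAt_const.mul ((S.wt k).sm e he z hz))).add (S.su e he z hz))

theorem ph_eq : M.All fun e z => e.symm z ∈ Of S.toDk →
    ph S 0 0 e z = sw S e z + ∑ k, (al S.toDk k : ℂ) * ln (S.f k e) z := fun e he z hz h => by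
  have k : ∀ k, Real.log (sg S.toDk k (e.symm z)) =
      Real.log (Complex.normSq (S.f k e z)) - S.φ k e z := fun k => by
    rw [K78.sg_rep _ k e he z hz, Real.log_mul (mt Complex.normSq_eq_zero.1
      ((K78.mem_Of _ he hz).1 h k)) (Real.exp_ne_zero _), Real.log_exp, sub_eq_add_neg]
  simp only [ph, sw, ln, ld, Mf.lc, pot, Pi.zero_apply, add_zero, k, mul_sub,
    Finset.sum_sub_distrib]
  push_cast
  ring

theorem dir_ph : M.All fun e z => e.symm z ∈ Of S.toDk → ContDiffAt ℝ ∞ (ph S 0 0 e) z ∧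
    dir (V e) (ph S 0 0 e) z = dir (V e) (sw S e) z +
      ∑ k, (al S.toDk k : ℂ) * (dir (V e) (S.f k e) z / S.f k e z) := fun e he z hz h => by
  have k : ph S 0 0 e =ᶠ[𝓝 z] fun w => sw S e w + ∑ k, (al S.toDk k : ℂ) * ln (S.f k e) w :=
    (((ph_eq S).ev he hz).and (of_ev S e he z hz h)).mono fun w t => t.1 t.2
  have f0 := (K78.mem_Of _ he hz).1 h
  have c := fun k => cd_lg ((S.hol k).holN e he z hz) (f0 k)
  have d : ContDiffAt ℝ ∞ (fun w => ∑ k, (al S.toDk k : ℂ) * ln (S.f k e) w) z :=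
    ContDiffAt.sum fun k _ => contDiffAt_const.mul (c k)
  refine ⟨((cd_sw S e he z hz).add d).congr_of_eventuallyEq k, ?_⟩
  rw [Q76.dir_congr k, Q76.dir_add (cd_diff (cd_sw S e he z hz)) (cd_diff d),
    dir_sum fun k _ => (cd_diff (c k)).const_mul _]
  simp only [fun k => dir_cmul (v := V e) (al S.toDk k : ℂ) (cd_diff (c k)),
    fun k => dir_lg (v := V e) ((S.hol k).holN e he z hz) (f0 k)]

theorem tg_div (hV : HT M 1 V) (hT : Tg S V) : ∃ h : I → M.Fam ℂ, ∀ k, M.All fun e z =>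
    HolN (h k e) z ∧ dir (V e) (S.f k e) z = h k e z * S.f k e z := by
  choose h hh using fun k => KF.divF (g := fun e => dir (V e) (S.f k e)) (S.hol k).holN (reg S k)
    (fun e he z hz => X91.hol_dir (hV.hol e he z hz) ((S.hol k).holN e he z hz)) (hT k)
  exact ⟨h, hh⟩

theorem dir_ph' {h : I → M.Fam ℂ} (hh : ∀ k, M.All fun e z =>
      HolN (h k e) z ∧ dir (V e) (S.f k e) z = h k e z * S.f k e z) :
    M.All fun e z => e.symm z ∈ Of S.toDk → dir (V e) (ph S 0 0 e) z =
      dir (V e) (sw S e) z + ∑ k, (al S.toDk k : ℂ) * h k e z := fun e he z hz t => by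
  simp only [(dir_ph S e he z hz t).2, fun k => (hh k e he z hz).2,
    fun k => mul_div_cancel_right₀ (h k e z) ((K78.mem_Of _ he hz).1 t k)]

theorem cd_b (hV : HT M 1 V) {h : I → M.Fam ℂ} (hh : ∀ k, M.All fun e z =>
      HolN (h k e) z ∧ dir (V e) (S.f k e) z = h k e z * S.f k e z) : M.All fun e z =>
    ContDiffAt ℝ ∞ (fun w => dir (V e) (sw S e) w + ∑ k, (al S.toDk k : ℂ) * h k e w) z :=
  fun e he z hz => (X91.cd_dir (hV.hol e he z hz) (cd_sw S e he z hz)).add
    (ContDiffAt.sum fun k _ => contDiffAt_const.mul ((mHOL n _ _).2.2 (hh k e he z hz).1).1)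

/-- The derivative of the model weight along a tangent field is smooth. -/
theorem b0ex (hV : HT M 1 V) (hT : Tg S V) : ∃ b, B0 S V b := by
  obtain ⟨h, hh⟩ := tg_div S hV hT
  have c := cd_b S hV hh
  have s : M.All fun e z => ContDiffAt ℝ ∞ (((fun e w => dir (V e) (sw S e) w +
      ∑ k, (al S.toDk k : ℂ) * h k e w) - a0 M S.H V : M.Fam ℂ) e) z := fun e he z hz =>
    (c e he z hz).sub (X91.qq_sm S.kae.toMet hV e he z hz).1
  have q : M.All fun e z => e.symm z ∈ Of S.toDk →
      DifferentiableAt ℝ (M.lc (pot S 0 0) e) z ∧ ((fun e w => dir (V e) (sw S e) w +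
      ∑ k, (al S.toDk k : ℂ) * h k e w) - a0 M S.H V : M.Fam ℂ) e z =
        dir (V e) (M.lc (pot S 0 0) e) z := fun e he z hz t => by
    have d1 := cd_diff (dir_ph (V := V) S e he z hz t).1
    have d2 := cd_diff (X91.cd_ld S.kae.toMet e he z hz)
    have k : M.lc (pot S 0 0) e = fun w => ph S 0 0 e w - ld (S.H e) w :=
      funext fun w => (add_sub_cancel_left _ _).symm
    rw [k, dir_sub d1 d2, dir_ph' S hh e he z hz t]
    exact ⟨d1.sub d2, rfl⟩
  refine ⟨_, c, fun e he z hz t => (dir_ph' S hh e he z hz t).symm, s, ov_ext S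
    (fun e he e' he' x hx hx' => cont_ch s he' hx') (fun e he e' he' x hx hx' =>
      (cont_ch s he hx).mul ((continuous_id.matrix_det.continuousAt.comp
        (SIE.cont_J e he e' he' x hx hx')).pow 1)) fun e he e' he' x hx hx' t => ?_⟩
  have a := q.at he hx (by rwa [e.left_inv hx])
  have a' := q.at he' hx' (by rwa [e'.left_inv hx'])
  rw [a.2, a'.2, pow_one, mul_comm]
  exact dir_gl hV (fun y => (pot S 0 0 y : ℂ)) e he e' he' x hx hx' a.1

theorem b_eq (hV : HT M 1 V) (hb : B0 S V b) {h : I → M.Fam ℂ} (hh : ∀ k, M.All fun e z =>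
      HolN (h k e) z ∧ dir (V e) (S.f k e) z = h k e z * S.f k e z) : M.All fun e z =>
    b e z = dir (V e) (sw S e) z + ∑ k, (al S.toDk k : ℂ) * h k e z :=
  eq_ext S (q := fun e w => dir (V e) (sw S e) w + ∑ k, (al S.toDk k : ℂ) * h k e w)
    (fun e he z hz => (hb.sm e he z hz).continuousAt)
    (fun e he z hz => (cd_b S hV hh e he z hz).continuousAt)
    fun e he z hz t => (hb.eq e he z hz t).trans (dir_ph' S hh e he z hz t)

theorem b_aff (hV : HT M 1 V) (hb : B0 S V b) : X91.Aff (kan M 1) b := by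
  refine ⟨hb.sm, fun e he e' he' x hx hx' => ?_⟩
  obtain ⟨hN, hJ, -, t, -⟩ := (mTR n M).2.1 e he e' he' x hx hx'
  have c := (mCHN n _ _ hN).2.2.2.2.1
  filter_upwards [c, X91.hol_dir (hV.hol.at he' hx') c,
    c.self_of_nhds.continuousAt.eventually_ne hJ, t.eventually_nhds] with w h1 h2 h3 h4
  refine (h2.mul (h1.inv h3)).congr_of_eventuallyEq (h4.mono fun y hy => ?_)
  have k1 := hb.sec.cmp e he e' he' _ hy.2.1 hy.2.2.1
  have k2 := X91.a0_cmp S.kae.toMet hV e he e' he' _ hy.2.1 hy.2.2.1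
  simp only [kan, K3E.triv, Mf.Co.tw, hy.2.2.2.2.2.1, mul_one, jd, hy.2.2.2.2.2.2, Pi.sub_apply,
    Pi.mul_apply, Pi.inv_apply, pow_one, div_eq_mul_inv] at k1 k2 ⊢
  linear_combination k1 + k2

theorem hess_sw : M.All fun e z => hess (sw S e) z = (bf S - M.ric S.H) e z := fun e he z hz => by
  have s1 := X91.cd_ld S.kae.toMet e he z hz
  have s2 := cd_ofReal (u := fun w => ∑ k, al S.toDk k * S.φ k e w)
    (ContDiffAt.sum fun j _ => contDiffAt_const.mul ((S.wt j).sm e he z hz))
  have k : sw S e = fun w => ld (S.H e) w - ((∑ k, al S.toDk k * S.φ k e w : ℝ) : ℂ) +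
      M.lc S.u e w := funext fun w => by
    simp only [sw, ld, Mf.lc, Complex.ofReal_add, Complex.ofReal_sub]
  beta_reduce
  rw [k, hess_add (s1.sub s2) (S.su.lc e he z hz), hess_sub s1 s2, K78.hw_lin S _ _ e he z hz]
  simp only [bf, Mf.ric, Mf.hs, Pi.sub_apply, Finset.sum_apply, Pi.smul_apply]
  abel

theorem b_dzb (hV : HT M 1 V) (hb : B0 S V b) (l : Fin n) :
    M.All fun e z => dzb l (b e) z = ((bf S - M.ric S.H) e z *ᵥ V e z) l := by
  have k : M.All fun e z => dzb l (b e) z = dzb l (dir (V e) (sw S e)) z :=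
    eq_ext S (p := fun e => dzb l (b e)) (q := fun e => dzb l (dir (V e) (sw S e)))
      (fun e he z hz => (cd_dzb (hb.sm e he z hz) l).continuousAt)
      (fun e he z hz => (cd_dzb (X91.cd_dir (hV.hol e he z hz) (cd_sw S e he z hz)) l).continuousAt)
      fun e he z hz t => by
        have d : DifferentiableAt ℂ (fun w => ∑ k, (al S.toDk k : ℂ) *
            (dir (V e) (S.f k e) w / S.f k e w)) z := DifferentiableAt.fun_sum fun k _ =>
          (dif_div (X91.hol_dir (hV.hol e he z hz) ((S.hol k).holN e he z hz)).self_of_nhds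
            ((S.hol k).hol e he z hz) ((K78.mem_Of _ he hz).1 t k)).const_mul _
        rw [dzb_congr ((K78.ev_Of _ he hz t).mono fun w u => (hb.eq e he w u.1 u.2).trans
          (dir_ph S e he w u.1 u.2).2), dzb_add (cd_diff (X91.cd_dir (hV.hol e he z hz)
            (cd_sw S e he z hz))) (d.restrictScalars ℝ), HS.SIUK.dzb_hol d, add_zero]
  intro e he z hz
  rw [k e he z hz, Hx39.dzb_dir (hV.hol e he z hz) (cd_sw S e he z hz), hess_sw S e he z hz]

/-! ### The obstruction -/

/-- The equation of the integral part at level two. -/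
def pp : M.Fam ℂ := fun e w => ∏ k, S.f k e w ^ fl S.toDk 2 k

theorem pp_ne : M.All fun e z => e.symm z ∈ Of S.toDk → pp S e z ≠ 0 := fun e he z hz h =>
  Finset.prod_ne_zero_iff.2 fun k _ => pow_ne_zero _ ((K78.mem_Of _ he hz).1 h k)

theorem pp_fr : M.All fun e z => ∃ᶠ w in 𝓝 z, pp S e w ≠ 0 := fun e he z hz =>
  ((of_fr S e he z hz).and_eventually ((pp_ne S).ev he hz)).mono fun w t => t.2 t.1

theorem pw_le : M.All fun e z => e.symm z ∈ Of S.toDk → pw S.toDk (1 : ℕ) (e.symm z) ≤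
    (∏ k, Real.exp (-S.φ k e z) ^ fl S.toDk 2 k) * ‖pp S e z‖ ^ 2 := fun e he z hz h => by
  rw [pp, norm_prod, ← Finset.prod_pow, ← Finset.prod_mul_distrib]
  refine Finset.prod_le_prod (fun k _ => Real.rpow_nonneg (K78.sg_nn _ k _) _) fun k _ => ?_
  have a := K78.fl_ka S.toDk one_le_two k
  have c := K78.ka_nn S.toDk 2 k
  refine (Real.rpow_le_rpow_of_exponent_ge (z := fl S.toDk 2 k) (K78.sg_pos _ h k)
    ((S.sml k _).trans (by norm_num)) (by push_cast at a ⊢; linarith)).trans_eq ?_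
  rw [Real.rpow_natCast, K78.sg_rep _ k e he z hz]
  simp only [Complex.normSq_eq_norm_sq, norm_pow]
  ring

/-- A bounded local section is a multiple of the equation. -/
theorem bd_dvd {t : M.Fam ℂ} {e : M.Ch} (he : e ∈ M.C) {z : E n} (hz : z ∈ e.target)
    (ht : HolN (t e) z) (hB : Bd S (e.symm z) univ 1 t) :
    ∃ τ, HolN τ z ∧ ∀ᶠ w in 𝓝 z, t e w = τ w * pp S e w := by
  obtain ⟨C, hC⟩ := hB
  have hp := Q80.hol_pf S 2 e he z hz
  have c : ContinuousAt (fun w => |C| * (S.H e w).det.re *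
      ∏ k, Real.exp (-S.φ k e w) ^ fl S.toDk 2 k) z :=
    (continuousAt_const.mul (cd_re (S.kae.sm e he z hz).det).continuousAt).mul
      (tendsto_finsetProd _ fun k _ => ((S.wt k).sm e he z hz).continuousAt.neg.rexp.pow _)
  obtain ⟨B, hB⟩ := c.isBoundedUnder_le
  refine KP.st_REX n _ _ z √B ht hp ((cl_ext S (isClosed_Ici (a := (0 : ℝ)))
    (q := fun w => √B * ‖pp S e w‖ - ‖t e w‖) he hz ((ht.and hp).mono fun w u =>
      (continuousAt_const.mul u.2.continuousAt.norm).sub u.1.continuousAt.norm) ?_).mono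
        fun w u => sub_nonneg.1 u) (pp_fr S e he z hz)
  filter_upwards [(e.continuousAt_symm hz).eventually hC, eventually_map.1 hB,
    e.open_target.eventually_mem hz] with w h1 h2 h3 h4
  have k := h1 h4 trivial e he (e.map_target h3)
  rw [e.right_inv h3, pow_one] at k
  have d := (Mf.pd_det_re (S.kae.pos e he w h3)).le
  refine sub_nonneg.2 (Real.le_sqrt_of_sq_le ((k.trans ?_).trans
    (mul_le_mul_of_nonneg_right h2 (sq_nonneg ‖pp S e w‖))) |>.trans_eq ?_)
  · rw [mul_assoc (|C| * _)]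
    exact mul_le_mul (mul_le_mul_of_nonneg_right (le_abs_self C) d) (pw_le S e he w h3 h4)
      (K78.pw_nn _ _ _) (mul_nonneg (abs_nonneg C) d)
  · rw [Real.sqrt_mul' _ (sq_nonneg _), Real.sqrt_sq (norm_nonneg _)]

theorem loc (hN : ∀ x (P : Lm S.toDk S.u x) t, Hs (P.W ∩ Of S.toDk) 1 t → Bd S x univ 1 t)
    (hV : HT M 1 V) (hT : Tg S V) (hb : B0 S V b) (l : Fin n) : M.All fun e z =>
    ∃ s, ContDiffAt ℝ ∞ s z ∧ ∀ᶠ w in 𝓝 z, dzb l (NU4.qq (V e) (b e)) w = s w * pp S e w := by
  intro e he z hz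
  have hv : HolV (V e) z := hV.hol e he z hz
  have c : ∀ {f : E n → ℂ} {w : E n}, HolN f w → ContDiffAt ℝ ∞ f w := fun t =>
    ((mHOL n _ _).2.2 t).1
  by_cases h : e.symm z ∈ Of S.toDk
  · have p := c (Q80.hol_pf S 2 e he z hz)
    have p0 := pp_ne S e he z hz h
    exact ⟨fun w => dzb l (NU4.qq (V e) (b e)) w * (pp S e w)⁻¹,
      (cd_dzb ((Q80.qq_af S.kae.toMet hV hb.sm hb.sec).sm e he z hz) l).mul (p.inv p0),
      (p.continuousAt.eventually_ne p0).mono fun w t => (inv_mul_cancel_right₀ t _).symm⟩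
  obtain ⟨P⟩ := S.mod _ h
  obtain ⟨η, hη⟩ := tg_div S hV hT
  have g := fun i => (P.hg i).hol e he
  choose τ τ1 τ2 using fun i => bd_dvd S (t := fun e => dir (V e) fun w => P.g i (e.symm w)) he hz
    (X91.hol_dir hv (g i z hz P.mem)) (hN _ P _ ⟨fun e he z hz t =>
      X91.hol_dir (hV.hol e he z hz) ((P.hg i).hol e he z hz t.1), fun e he e' he' x hx hx' t => by
        rw [pow_one]
        exact dir_gl hV (P.g i) e he e' he' x hx hx' (((P.hg i).hol.at he hx
          (by rw [e.left_inv hx]; exact t.1)).self_of_nhds.restrictScalars ℝ)⟩)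
  have ev : ∀ᶠ w in 𝓝 z, w ∈ e.target ∧ e.symm w ∈ P.W := (e.open_target.eventually_mem hz).and
    ((e.continuousAt_symm hz).eventually (P.opn.eventually_mem P.mem))
  have cF := fun w (t : e.symm w ∈ P.W) => cd_ofReal (P.sF _ t)
  have cG : ∀ w ∈ e.target, e.symm w ∈ P.W →
      ContDiffAt ℝ ∞ (fun w i => P.g i (e.symm w)) w := fun w t u =>
    contDiffAt_pi.2 fun i => c (g i w t u)
  have o := P.ho e he z hz P.mem
  have c0 : (S.c : ℂ) ≠ 0 := Nat.cast_ne_zero.2 S.c0.ne'
  refine qq_dvd (η := fun w => (S.c : ℂ)⁻¹ * (dir (V e) (P.o e) w / P.o e w) +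
      ∑ k, (al S.toDk k : ℂ) * η k e w) (σ := fun w => (S.c : ℂ)⁻¹ *
      ∑ i, dz i (fun y => (P.F y : ℂ)) (fun i => P.g i (e.symm w)) * τ i w) hv
    (tf_prod _ fun k => Tf.pow ⟨(S.hol k).holN e he z hz, η k e, (hη k e he z hz).1,
      ((hη k).ev he hz).mono fun w t => t.2⟩ _) ?_ (contDiffAt_const.mul (ContDiffAt.sum
        fun i _ => (ContDiffAt.comp (g := dz i fun y => (P.F y : ℂ)) z (cd_dz (cF z P.mem) i)
          (cG z hz P.mem)).mul (c (τ1 i)))) ?_ l
  · filter_upwards [o.1, X91.hol_dir hv o.1, o.1.self_of_nhds.continuousAt.eventually_ne o.2,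
      eventually_all.2 fun k => (hη k e he z hz).1] with w t1 t2 t3 t4
    exact ((dif_div t2 t1 t3).const_mul _).fun_add
      (DifferentiableAt.fun_sum fun k _ => (t4 k).const_mul _)
  have k : ∀ᶠ w in 𝓝 z, sw S e w = (S.c : ℂ)⁻¹ *
      (ln (P.o e) w + (P.F fun i => P.g i (e.symm w) : ℝ)) := ev.mono fun w t => by
    rw [eq_inv_mul_iff_mul_eq₀ c0, sw, ln]
    exact_mod_cast P.wt e he w t.1 t.2
  filter_upwards [ev, k.eventually_nhds, eventually_all.2 τ2] with w t1 t2 t3
  have o1 := P.ho e he w t1.1 t1.2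
  have d1 := cd_diff (cd_lg o1.1 o1.2)
  have d2 : DifferentiableAt ℝ (fun w => (P.F fun i => P.g i (e.symm w) : ℂ)) w :=
    cd_diff (ContDiffAt.comp (g := fun y => (P.F y : ℂ)) w (cF w t1.2) (cG w t1.1 t1.2))
  rw [b_eq S hV hb hη e he w t1.1, Q76.dir_congr t2, dir_cmul _ (d1.fun_add d2),
    Q76.dir_add d1 d2, dir_lg o1.1 o1.2, dir_chain (F := fun y => (P.F y : ℂ))
      (fun i => g i w t1.1 t1.2) (cd_diff (cF w t1.2))]
  simp only [t3, ← mul_assoc, ← Finset.sum_mul, pp]
  ring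

/-- A smooth family that obeys the law off the divisors. -/
theorem sec_ext {σ : Type} [Fintype σ] [DecidableEq σ] {B : Bun M σ} (hB : B.Ok)
    {W : M.Fam (σ → ℂ)} (hW : M.All fun e z => ContDiffAt ℝ ∞ (W e) z)
    (h : M.Ov fun e e' x => x ∈ Of S.toDk → W e (e x) = B.T e e' x *ᵥ W e' (e' x)) : B.Sec W := by
  refine ⟨hW, ov_ext S (fun e he e' he' x hx hx' => cont_ch hW he hx)
    (fun e he e' he' x hx hx' => continuousAt_pi.2 fun i => tendsto_finsetSum _ fun j _ => ?_) h⟩
  exact ((ContinuousAt.comp (f := e') (hB.tsm e he e' he' x hx hx' i j).continuousAt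
    (e'.continuousAt hx')).congr ((e'.open_source.eventually_mem hx').mono fun y t => by
      simp only [Function.comp, e'.left_inv t])).mul (continuousAt_pi.1 (cont_ch hW he' hx') j)

/-- The obstruction is a section of the level two. -/
theorem obex (hN : ∀ x (P : Lm S.toDk S.u x) t, Hs (P.W ∩ Of S.toDk) 1 t → Bd S x univ 1 t)
    (hV : HT M 1 V) (hT : Tg S V) (hb : B0 S V b) : ∃ x, Ob S V b x := by
  choose s hs using fun l => glue (g := fun e => dzb l (NU4.qq (V e) (b e))) (pp_fr S)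
    (loc S hN hV hT hb l)
  have hH := S.kae.toMet
  have af := Q80.qq_af hH hV hb.sm hb.sec
  obtain ⟨x, hx⟩ : ∃ x : M.Fam (Fs n → ℂ), x = fun e z => Clo.U1 n *ᵥ (S.H e z)⁻¹ *ᵥ fun l => s l e z :=
    ⟨_, rfl⟩
  have sm : M.All fun e z => ContDiffAt ℝ ∞ (x e) z := fun e he z hz => by
    have := ((hH.sm e he z hz).inv (hH.det_ne e he z hz)).mulVec
      (contDiffAt_pi.2 fun l => (hs l e he z hz).1)
    simp only [hx, Clo.u1_eq]
    exact ContDiffAt.sum fun k _ => (contDiffAt_pi.1 this k).smul contDiffAt_const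
  have eq : M.All fun e z => up S 2 x e z =
      (oQ S.H).ap (fun e z => NU4.qq (V e) (b e) z • vac n) e z := fun e he z hz => by
    refine Eq.trans ?_ (X91.q_vac (fun e => NU4.qq (V e) (b e)) e z).symm
    simp only [up, hx, ← Matrix.mulVec_smul, fun l => (hs l e he z hz).2]
    exact congrArg _ (congrArg _ (funext fun l => mul_comm _ _))
  have sx := X91.aff_sec (φ := wk S.H 2) hH af
  have sc : (lb S 2).Sec x := sec_ext S (K78.lb_ok S 2) sm fun e he e' he' y hy hy' t => by
    have k := sx.cmp e he e' he' y hy hy'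
    have p0 := pp_ne S e he _ (e.map_source hy) (by rwa [e.left_inv hy])
    have c : ∏ k, (S.L k).c e e' y ^ fl S.toDk 2 k ≠ 0 :=
      Finset.prod_ne_zero_iff.2 fun k _ => pow_ne_zero _ ((S.L k).ne e he e' he' y hy hy')
    have k' := ((eq.at he hy).trans k).trans (congrArg _ (eq.at he' hy').symm)
    simp only [up, lam, Matrix.smul_mulVec, Matrix.mulVec_smul, smul_smul,
      fun k => (S.hol k).cmp e he e' he' y hy hy', mul_pow, Finset.prod_mul_distrib] at k'
    refine smul_right_injective _ p0 (k'.trans ?_)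
    simp only [lam, Lb, Matrix.smul_mulVec, smul_smul, mul_inv, inv_inv, pp]
    refine congrArg (· • _) ?_
    ring
  refine ⟨x, sc, fun e he z hz A hA => ?_, eq_ext S (q := fun _ _ => 0) (fun e he z hz =>
    ((aSQ n M S.H _ _ x hH sc).1.sm e he z hz).continuousAt)
      (fun e he z hz => continuousAt_const) fun e he z hz t => ?_, eq⟩
  · rw [hx]
    beta_reduce
    rw [Matrix.mulVec, dotProduct]
    refine Finset.sum_eq_zero fun k _ => ?_
    have : A ≠ {k} := fun h => hA (by simp [h])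
    simp [Clo.U1, cr, this]
  · refine (smul_eq_zero.1 ((Q80.up_q S sc e he z hz).symm.trans ?_)).resolve_left
      (pp_ne S e he z hz t)
    rw [← X91.sq S.kae (W := fun e z => NU4.qq (V e) (b e) z • vac n) he hz
      ((af.sm e he z hz).smul contDiffAt_const), SQ.ap_eq, SQ.ap_eq]
    refine Finset.sum_congr rfl fun l _ => Finset.sum_congr rfl fun k _ => ?_
    exact congrArg (fun v => _ • cr k *ᵥ v) (funext fun A =>
      dzb_congr ((eq.ev he hz).mono fun w u => congrFun u A))

end Pool.Agent.Lib.N4S.O24
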