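import Pool.Agent.Lib.N4S.Blue
import Pool.Agent.Lib.N4S.Ob24

/-! Project n4s, row OB1: the derivative of the model weight. -/

namespace Pool.Agent.Lib.N4S

open Pool.Agent.Lib.NU4

theorem st_OB1 : St_OB1 := by
  intro n M _ I _ S V hV
  refine ⟨fun hT => ⟨O24.b0ex S hV hT, fun k e he z hz => ?_⟩, fun b hb =>
    ⟨⟨fun e he z hz => ((Q80.qq_af S.kae.toMet hV hb.sm hb.sec).sm e he z hz).sub
      (X91.qq_sm S.kae.toMet hV e he z hz).2, fun e he e' he' x hx hx' =>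
        (Q80.qq_cmp S.kae.toMet hV hb.sm hb.sec e he e' he' x hx hx').trans (mul_comm _ _)⟩,
      O24.b_aff S hV hb, fun e he z hz l => O24.b_dzb S hV hb l e he z hz⟩⟩
  obtain ⟨h, hh⟩ := O24.tg_div S hV hT
  exact ⟨h k e, (hh k e he z hz).1,
    ((hh k).ev he hz).mono fun w t => t.2.trans (mul_comm _ _)⟩

end Pool.Agent.Lib.N4S
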