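import Pool.Agent.Lib.N4S.Defs
import Pool.Agent.Lib.NU4.B_KIT
import Pool.Agent.Lib.NU4.B_LIE
import Pool.Agent.Lib.NU4.B_VB
import Pool.Agent.Lib.NU4.Pb56a
import Pool.Agent.Lib.N4S.Alg81

/-! Project n4s: sections that are holomorphic off the divisors are bounded for the model
metric. -/

open scoped Classical Topology ContDiff ComplexOrder Matrix
open Set Filter

noncomputable section

namespace Pool.Agent.Lib.N4S

open Pool.Agent.Lib.SV (E)
open Pool.Agent.Lib.HS32 Pool.Agent.Lib.HLK Pool.Agent.Lib.F4 Pool.Agent.Lib.NU4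
open Pool.Agent.Lib.K3S (Dk)

namespace Nb51

variable {n : ℕ} {M : Mf n} {I : Type} [Fintype I] {D : Dk M I} {O O' : Set M.X} {i j : ℕ}
  {s t : M.Fam ℂ} {e : M.Ch} {x y : M.X} {z : E n}

theorem sg_eq (k : I) (he : e ∈ M.C) (hy : y ∈ e.source) :
    sg D k y = Complex.normSq (D.f k e (e y)) * Real.exp (-D.φ k e (e y)) := by
  have h := (D.wt k).nr_rep (D.hol k).toSecC e he _ (e.map_source hy)
  beta_reduce at h
  rwa [e.left_inv hy] at h

theorem sg_nn (k : I) (y : M.X) : 0 ≤ sg D k y := Mf.nrC_nonneg _ _ _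

theorem sg_ct (k : I) : Continuous (sg D k) := ((D.wt k).nr_sm (D.hol k).toSecC).continuous

theorem of_iff (he : e ∈ M.C) (hy : y ∈ e.source) : y ∈ Of D ↔ ∀ k, D.f k e (e y) ≠ 0 :=
  forall_congr' fun k => by
    rw [sg_eq k he hy, mul_ne_zero_iff_right (Real.exp_pos _).ne', ne_eq, map_eq_zero]

theorem of_open : IsOpen (Of D) := by
  have : Of D = ⋂ k, {x | sg D k x ≠ 0} := by ext; simp [Of]
  rw [this]
  exact isOpen_iInter_of_finite fun k => isOpen_ne_fun (sg_ct k) continuous_const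

theorem sg_pos (hy : y ∈ Of D) (k : I) : 0 < sg D k y := (sg_nn k y).lt_of_ne' (hy k)

theorem pw_nn (r : ℝ) (y : M.X) : 0 ≤ pw D r y :=
  Finset.prod_nonneg fun k _ => Real.rpow_nonneg (sg_nn k y) _

theorem pw_pos (hy : y ∈ Of D) (r : ℝ) : 0 < pw D r y :=
  Finset.prod_pos fun k _ => Real.rpow_pos_of_pos (sg_pos hy k) _

theorem pw_eq (hy : y ∈ Of D) (r : ℝ) :
    pw D r y = Real.exp (r * ∑ k, al D k * Real.log (sg D k y)) := by
  rw [pw, Finset.mul_sum, Real.exp_sum]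
  exact Finset.prod_congr rfl fun k _ => by
    rw [Real.rpow_def_of_pos (sg_pos hy k)]
    ring_nf

theorem f_hol (k : I) (he : e ∈ M.C) (hz : z ∈ e.target) : HolN (D.f k e) z :=
  (D.hol k).hol.ev he hz

theorem det_pos (he : e ∈ M.C) (hz : z ∈ e.target) : 0 < (D.H e z).det.re :=
  (Complex.pos_iff.1 (D.kae.pos e he z hz).det_pos).1

theorem hs_mono (h : Hs O j t) (k : O' ⊆ O) : Hs O' j t :=
  ⟨fun e he z hz a => h.hol e he z hz (k a),
    fun e he e' he' x hx hx' a => h.cmp e he e' he' x hx hx' (k a)⟩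

theorem hs_mul (h : Hs O i s) (k : Hs O j t) : Hs O (i + j) fun e z => s e z * t e z :=
  ⟨fun e he z hz a => Lie87.h_mul (h.hol e he z hz a) (k.hol e he z hz a),
    fun e he e' he' x hx hx' a => by
      rw [h.cmp e he e' he' x hx hx' a, k.cmp e he e' he' x hx hx' a]
      ring⟩

/-- A holomorphic function on `O` is continuous. -/
theorem hs_ct {g : M.X → ℂ} (h : Hs O 0 fun e z => g (e.symm z)) (hx : x ∈ O) :
    ContinuousAt g x := by
  obtain ⟨c1, c2⟩ := (mTR n M).1 x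
  have a := (h.hol _ c1 _ ((M.ch x).map_source c2)
    (by rwa [(M.ch x).left_inv c2])).self_of_nhds.continuousAt.comp ((M.ch x).continuousAt c2)
  refine a.congr ?_
  filter_upwards [(M.ch x).open_source.mem_nhds c2] with y hy
  simp only [Function.comp_apply, (M.ch x).left_inv hy]

variable {u : M.X → ℝ} (P : Lm D u x)

/-- The section of the local model. -/
def om : M.Fam ℂ := fun e z => P.o e z * ∏ k, D.f k e z ^ D.a k

theorem om_hs : Hs P.W D.c (om P) where
  hol e he z hz a := by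
    filter_upwards [(P.ho e he z hz a).1, eventually_all.2 fun k => f_hol (D := D) k he hz]
      with w h1 h2
    exact h1.mul (HasFDerivAt.finsetProd fun k _ =>
      ((h2 k).fun_pow _).hasFDerivAt).differentiableAt
  cmp e he e' he' y hy hy' a := by
    have l := P.law e he e' he' y hy hy' a
    simp only [om, fun k => (D.hol k).cmp e he e' he' y hy hy', mul_pow, Finset.prod_mul_distrib]
    linear_combination (∏ k, D.f k e (e y) ^ D.a k) * l

theorem om_ne (he : e ∈ M.C) (hy : y ∈ e.source) (h : y ∈ P.W ∩ Of D) : om P e (e y) ≠ 0 :=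
  mul_ne_zero (P.ho e he _ (e.map_source hy) (by rw [e.left_inv hy]; exact h.1)).2
    (Finset.prod_ne_zero_iff.2 fun k _ => pow_ne_zero _ ((of_iff he hy).1 h.2 k))

/-- The norm of the section of the local model. -/
theorem om_nrm (he : e ∈ M.C) (hy : y ∈ e.source) (h : y ∈ P.W ∩ Of D) :
    ‖om P e (e y)‖ ^ 2 = ((D.H e (e y)).det.re * pw D 1 y) ^ D.c *
      Real.exp (D.c * u y - P.F fun l => P.g l y) := by
  have hz := e.map_source hy
  have w := P.wt e he _ hz (by rw [e.left_inv hy]; exact h.1)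
  have o := (P.ho e he _ hz (by rw [e.left_inv hy]; exact h.1)).2
  have f := (of_iff he hy).1 h.2
  have c : (D.c : ℝ) ≠ 0 := Nat.cast_ne_zero.2 D.c0.ne'
  have p := mul_pos (det_pos (D := D) he hz) (pw_pos h.2 1)
  simp only [e.left_inv hy] at w
  refine Real.log_injOn_pos (mem_Ioi.2 (pow_pos (norm_pos_iff.2 (om_ne P he hy h)) 2))
    (mem_Ioi.2 (mul_pos (pow_pos p _) (Real.exp_pos _))) ?_
  have q : ∀ k, Real.log (sg D k y) =
      Real.log (Complex.normSq (D.f k e (e y))) - D.φ k e (e y) := fun k => by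
    rw [sg_eq k he hy, Real.log_mul ((map_ne_zero _).2 (f k)) (Real.exp_pos _).ne', Real.log_exp,
      sub_eq_add_neg]
  have r : ∀ k, D.c * al D k = D.a k := fun k => mul_div_cancel₀ _ c
  rw [← Complex.normSq_eq_norm_sq, om, map_mul, map_prod, Real.log_mul ((map_ne_zero _).2 o)
    (Finset.prod_ne_zero_iff.2 fun k _ => (map_ne_zero _).2 (pow_ne_zero _ (f k))),
    Real.log_prod fun k _ => (map_ne_zero _).2 (pow_ne_zero _ (f k)),
    Real.log_mul (pow_pos p _).ne' (Real.exp_pos _).ne', Real.log_exp, Real.log_pow,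
    Real.log_mul (det_pos he hz).ne' (pw_pos h.2 1).ne', pw_eq h.2, Real.log_exp]
  simp only [map_pow, Real.log_pow, q, mul_sub, mul_add, Finset.sum_sub_distrib, Finset.mul_sum,
    one_mul, ← mul_assoc, r] at w ⊢
  linarith

theorem pw_pow (hy : y ∈ Of D) (j : ℕ) : pw D j y = pw D 1 y ^ j := by
  rw [pw_eq hy, pw_eq hy, one_mul, Real.exp_nat_mul]

theorem g_ct : ContinuousAt (fun y l => P.g l y) x :=
  continuousAt_pi.2 fun l => hs_ct (P.hg l) P.mem

theorem bdd {F : Type} [NormedAddCommGroup F] {h : M.X → F} (c : ContinuousAt h x) :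
    ∃ C : ℝ, 0 ≤ C ∧ ∀ᶠ y in 𝓝 x, ‖h y‖ ≤ C :=
  ⟨‖h x‖ + 1, by positivity,
    (c.norm.eventually_lt continuousAt_const (lt_add_one _)).mono fun _ k => k.le⟩

/-- The bound near a point of the divisors. -/
theorem nb (hu : ContinuousAt u x) (h : Hs (P.W ∩ Of D) j t) : ∃ C : ℝ, 0 ≤ C ∧ ∀ᶠ y in 𝓝 x,
    y ∈ Of D → ∀ e ∈ M.C, y ∈ e.source →
      ‖t e (e y)‖ ^ 2 ≤ C * (D.H e (e y)).det.re ^ j * pw D j y := by
  obtain ⟨s, hs, k⟩ := P.har (fun e z => t e z ^ D.c / om P e z ^ j)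
    ⟨fun e he z hz a => by
      have b := om_ne P he (e.map_target hz) a
      have o := (om_hs P).hol e he z hz a.1
      rw [e.right_inv hz] at b
      filter_upwards [h.hol e he z hz a, o, o.self_of_nhds.continuousAt.eventually_ne b]
        with w h1 h2 h3
      exact (h1.fun_pow D.c).fun_mul ((h2.fun_pow j).fun_inv (pow_ne_zero _ h3)),
    fun e he e' he' y hy hy' a => by
      have b := ((mTR n M).2.1 e he e' he' y hy hy').2.1
      rw [h.cmp e he e' he' y hy hy' a, (om_hs P).cmp e he e' he' y hy hy' a.1, mul_pow, mul_pow,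
        ← pow_mul, ← pow_mul, mul_comm D.c j, mul_div_mul_left _ _ (pow_ne_zero _ b), pow_zero,
        one_mul]⟩
  obtain ⟨c1, c2⟩ := (mTR n M).1 x
  obtain ⟨A, A0, hA⟩ := bdd ((hs.hol _ c1 _ ((M.ch x).map_source c2) (by
    rw [(M.ch x).left_inv c2]; exact P.mem)).self_of_nhds.continuousAt.comp
      ((M.ch x).continuousAt c2))
  obtain ⟨B, B0, hB⟩ := bdd (((hu.const_mul (D.c : ℝ)).sub
    ((P.sF x P.mem).continuousAt.comp (g_ct P))).rexp)
  refine ⟨1 + A ^ 2 * B ^ j, by positivity, ?_⟩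
  filter_upwards [hA, hB, P.opn.mem_nhds P.mem, (M.ch x).open_source.mem_nhds c2]
    with y h1 h2 h3 h4 h5 e he hy
  have a := k e he _ (e.map_source hy) (by rw [e.left_inv hy]; exact ⟨h3, h5⟩)
  have b := hs.cmp _ c1 e he y h4 hy h3
  have o := om_ne P he hy ⟨h3, h5⟩
  have p := mul_pos (det_pos (D := D) he (e.map_source hy)) (pw_pos h5 1)
  rw [pow_zero, one_mul] at b
  rw [eq_div_iff (pow_ne_zero _ o), b] at a
  have q : (‖t e (e y)‖ ^ 2) ^ D.c = ‖s (M.ch x) (M.ch x y)‖ ^ 2 * (‖om P e (e y)‖ ^ 2) ^ j := by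
    rw [← pow_mul, mul_comm 2, pow_mul, ← norm_pow, ← a, norm_mul, norm_pow]
    ring
  rw [om_nrm P he hy ⟨h3, h5⟩] at q
  rw [pw_pow h5, mul_assoc, ← mul_pow]
  refine le_of_pow_le_pow_left₀ D.c0.ne' (by positivity) ?_
  have r : A ^ 2 * B ^ j ≤ (1 + A ^ 2 * B ^ j) ^ D.c :=
    (le_add_of_nonneg_left zero_le_one).trans
      (le_self_pow₀ (le_add_of_nonneg_right (by positivity)) D.c0.ne')
  have v := (le_abs_self _).trans h2
  rw [q, mul_pow, mul_pow _ (_ ^ j), ← pow_mul, ← pow_mul, mul_comm D.c j, mul_left_comm, mul_comm]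
  refine mul_le_mul_of_nonneg_right (le_trans ?_ r) (by positivity)
  exact mul_le_mul (pow_le_pow_left₀ (norm_nonneg _) h1 2)
    (pow_le_pow_left₀ (Real.exp_pos _).le v j) (by positivity) (by positivity)

/-! ### Bounds by the model metric -/

variable (D) in
/-- The family `p` is bounded near `x` by the power `j` of the model volume. -/
def Bl (x : M.X) (j : ℕ) (p : M.Fam ℝ) : Prop := ∃ C : ℝ, 0 ≤ C ∧ ∀ᶠ y in 𝓝 x,
  y ∈ Of D → ∀ e ∈ M.C, y ∈ e.source → p e (e y) ≤ C * (D.H e (e y)).det.re ^ j * pw D j y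

variable {p p' : M.Fam ℝ}

theorem bl_add (h : Bl D x j p) (k : Bl D x j p') : Bl D x j fun e z => p e z + p' e z := by
  obtain ⟨A, A0, hA⟩ := h
  obtain ⟨B, B0, hB⟩ := k
  refine ⟨A + B, add_nonneg A0 B0, ?_⟩
  filter_upwards [hA, hB] with y h1 h2 a e he hy
  linarith [h1 a e he hy, h2 a e he hy]

theorem bl_mono (h : Bl D x j p') (k : ∀ᶠ y in 𝓝 x, y ∈ Of D → ∀ e ∈ M.C, y ∈ e.source →
    p e (e y) ≤ p' e (e y)) : Bl D x j p := by
  obtain ⟨A, A0, hA⟩ := h
  refine ⟨A, A0, ?_⟩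
  filter_upwards [hA, k] with y h1 h2 a e he hy using (h2 a e he hy).trans (h1 a e he hy)

theorem bl_sum {κ : Type} (A : Finset κ) {q : κ → M.Fam ℝ} (h : ∀ a ∈ A, Bl D x j (q a)) :
    Bl D x j fun e z => ∑ a ∈ A, q a e z := by
  induction A using Finset.induction_on with
  | empty => exact ⟨0, le_rfl, Eventually.of_forall fun y _ e _ _ => by simp⟩
  | insert a A ha ih =>
    simp only [Finset.sum_insert ha]
    exact bl_add (h a (Finset.mem_insert_self _ _))
      (ih fun b hb => h b (Finset.mem_insert_of_mem hb))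

theorem bl_mul {f : M.X → ℝ} (hf : ContinuousAt f x) (h : Bl D x j p)
    (k : ∀ e z, 0 ≤ p e z) : Bl D x j fun e z => f (e.symm z) * p e z := by
  obtain ⟨A, A0, hA⟩ := h
  obtain ⟨B, B0, hB⟩ := bdd hf
  refine ⟨B * A, mul_nonneg B0 A0, ?_⟩
  filter_upwards [hA, hB] with y h1 h2 a e he hy
  rw [e.left_inv hy, mul_assoc, mul_assoc, ← mul_assoc A]
  exact mul_le_mul ((le_abs_self _).trans h2) (h1 a e he hy) (k _ _) B0

theorem nbl (hu : ContinuousAt u x) (h : Hs (P.W ∩ Of D) j t) :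
    Bl D x j fun e z => ‖t e z‖ ^ 2 := nb P hu h

/-- The bound near a point off the divisors. -/
theorem bl_of (hx : x ∈ Of D) (c : ContinuousAt (p (M.ch x)) (M.ch x x))
    (k : ∀ᶠ y in 𝓝 x, ∀ e ∈ M.C, ∀ e' ∈ M.C, y ∈ e.source → y ∈ e'.source →
      p e' (e' y) = Complex.normSq (jd M e e' y) ^ j * p e (e y)) : Bl D x j p := by
  obtain ⟨c1, c2⟩ := (mTR n M).1 x
  have hz := (M.ch x).map_source c2
  have d : ContinuousAt (fun z => (D.H (M.ch x) z).det.re) (M.ch x x) :=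
    Complex.continuous_re.continuousAt.comp
      (mCOF n _ _ (D.kae.sm _ c1 _ hz)).1.continuousAt
  have w : ContinuousAt (pw D j) x := tendsto_finsetProd _ fun k _ =>
    (sg_ct k).continuousAt.rpow_const (Or.inl (hx k))
  obtain ⟨A, A0, hA⟩ := bdd ((c.comp ((M.ch x).continuousAt c2)).div
    (((d.comp ((M.ch x).continuousAt c2)).pow j).mul w)
      (mul_pos (pow_pos (det_pos c1 hz) j) (pw_pos hx j)).ne')
  refine ⟨A, A0, ?_⟩
  filter_upwards [hA, k, (M.ch x).open_source.mem_nhds c2] with y h1 h2 h3 a e he hy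
  have q := (div_le_iff₀ (mul_pos (pow_pos (det_pos (D := D) c1 ((M.ch x).map_source h3)) j)
    (pw_pos a j))).1 ((le_abs_self _).trans h1)
  rw [h2 _ c1 e he h3 hy, Vb85.det_cmp D.kae.toMet _ c1 e he y h3 hy, mul_pow,
    ← Complex.normSq_eq_norm_sq]
  have := mul_le_mul_of_nonneg_left q (pow_nonneg (Complex.normSq_nonneg (jd M (M.ch x) e y)) j)
  simp only [Function.comp_apply] at this
  linarith

/-- A global constant. -/
theorem bl_glob [M.Cpt] (h : ∀ x, Bl D x j p) : ∃ C : ℝ, 0 ≤ C ∧ ∀ y ∈ Of D, ∀ e ∈ M.C,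
    y ∈ e.source → p e (e y) ≤ C * (D.H e (e y)).det.re ^ j * pw D j y := by
  obtain ⟨C, hC⟩ := P56.glob (fun C y => y ∈ Of D → ∀ e ∈ M.C, y ∈ e.source →
      p e (e y) ≤ max C 0 * (D.H e (e y)).det.re ^ j * pw D j y)
    (fun C C' y l a b e he hy => (a b e he hy).trans (mul_le_mul_of_nonneg_right
      (mul_le_mul_of_nonneg_right (max_le_max_right 0 l)
        (pow_pos (det_pos he (e.map_source hy)) j).le) (pw_nn _ _)))
    fun x => (h x).imp fun C a => by simpa only [max_eq_left a.1] using a.2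
  exact ⟨_, le_max_right C 0, hC⟩

theorem hs_of (hx : x ∈ Of D) (hO : O ∈ 𝓝 x) (h : Hs O j t) :
    Bl D x j fun e z => ‖t e z‖ ^ 2 := by
  obtain ⟨c1, c2⟩ := (mTR n M).1 x
  refine bl_of hx ((h.hol _ c1 _ ((M.ch x).map_source c2) (by
    rw [(M.ch x).left_inv c2]; exact mem_of_mem_nhds hO)).self_of_nhds.continuousAt.norm.pow 2) ?_
  filter_upwards [hO] with y a e he e' he' hy hy'
  rw [h.cmp e he e' he' y hy hy' a, norm_mul, norm_pow, Complex.normSq_eq_norm_sq]
  ring

/-- Sums of products of a function on the model and of a holomorphic section. -/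
theorem nbs (hu : ContinuousAt u x) {N : ℕ} {ψ : Fin N → (Fin P.r → ℂ) → ℂ}
    {τ : Fin N → M.Fam ℂ} (h1 : ∀ i, ContinuousAt (ψ i) fun l => P.g l x)
    (h2 : ∀ i, Hs (P.W ∩ Of D) j (τ i)) :
    Bl D x j fun e z => ‖∑ i, ψ i (fun l => P.g l (e.symm z)) * τ i e z‖ ^ 2 := by
  refine bl_mono (bl_sum Finset.univ fun i _ => bl_mul
    (f := fun y => N * ‖ψ i fun l => P.g l y‖ ^ 2)
    ((((h1 i).comp (g_ct P)).norm.pow 2).const_mul _)
    (nbl P hu (h2 i)) fun _ _ => sq_nonneg _) (Eventually.of_forall fun y _ e _ _ => ?_)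
  refine (pow_le_pow_left₀ (norm_nonneg _) (norm_sum_le _ _) 2).trans
    (sq_sum_le_card_mul_sum_sq.trans (le_of_eq ?_))
  simp only [Finset.card_univ, Fintype.card_fin, Finset.mul_sum, norm_mul, mul_pow, mul_assoc]

/-! ### Multivectors -/

/-- Multivectors with values in `m K`, holomorphic over `O`. -/
structure Hv (O : Set M.X) (m : ℕ) (T : M.Fam (Fs n → ℂ)) : Prop where
  hol : M.All fun e z => e.symm z ∈ O → HolV (T e) z
  cmp : M.Ov fun e e' x => x ∈ O →
    T e (e x) = (jd M e e' x ^ m)⁻¹ • La (M.J e e' x) *ᵥ T e' (e' x)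

variable {m : ℕ} {T : M.Fam (Fs n → ℂ)} {g : M.X → ℂ}

theorem hv_mono (h : Hv O m T) (k : O' ⊆ O) : Hv O' m T :=
  ⟨fun e he z hz a => h.hol e he z hz (k a),
    fun e he e' he' x hx hx' a => h.cmp e he e' he' x hx hx' (k a)⟩

theorem hv_hm (h : HM M m T) : Hv O m T :=
  ⟨fun e he z hz _ => h.hol e he z hz, fun e he e' he' x hx hx' _ => h.cmp e he e' he' x hx hx'⟩

theorem hv_emp (h : Hv O m T) : Hs O m fun e z => T e z ∅ :=
  ⟨fun e he z hz a => h.hol e he z hz a ∅, fun e he e' he' x hx hx' a => by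
    rw [h.cmp e he e' he' x hx hx' a, Pi.smul_apply, XP.vac, smul_eq_mul,
      mul_inv_cancel_left₀ (pow_ne_zero _ ((mTR n M).2.1 e he e' he' x hx hx').2.1)]⟩

theorem gd_cmp (h : Hs O 0 fun e z => g (e.symm z)) : M.Ov fun e e' x => x ∈ O →
    gd (fun w => g (e.symm w)) (e x) ᵥ* M.J e e' x = gd (fun w => g (e'.symm w)) (e' x) := by
  intro e he e' he' x hx hx' a
  obtain ⟨t1, -, -, t3, -⟩ := (mTR n M).2.1 e he e' he' x hx hx'
  have b : (e ∘ e'.symm) (e' x) = e x := by rw [Function.comp_apply, e'.left_inv hx']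
  have c := Lie87.h_d (h.hol e he _ (e.map_source hx) (by rwa [e.left_inv hx]))
  funext l
  have d := ((mCHN n _ _ t1).2.2.2.2.2.2.2.2.2.1 _ (b ▸ c) l).1
  rw [b] at d
  exact d.symm.trans (dz_congr (t3.mono fun w k => congrArg g k.2.2.2.2.1))

theorem hv_anv (h : Hv O m T) (k : Hs O 0 fun e z => g (e.symm z)) :
    Hv O m fun e z => anv (gd (fun w => g (e.symm w)) z) *ᵥ T e z where
  hol e he z hz a := by
    refine Lie87.v_mv (fun A B => ?_) (h.hol e he z hz a)
    simp only [anv, Matrix.sum_apply, Matrix.smul_apply, smul_eq_mul]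
    exact Lie87.h_sum fun l => Lie87.h_mul (Lie87.h_dz (k.hol e he z hz a) l) (Lie87.h_c _)
  cmp e he e' he' x hx hx' a := by
    have h2 := (st_FK n 0 0 (gd (fun w => g (e.symm w)) (e x)) (M.J e e' x) 0 0).2.2.2.2.1
    rw [gd_cmp k e he e' he' x hx hx' a] at h2
    rw [h.cmp e he e' he' x hx hx' a, Matrix.mulVec_smul, Matrix.mulVec_mulVec,
      Matrix.mulVec_mulVec, h2]

theorem ng_zero (W : Fs n → ℂ) : ng 0 W = ‖W ∅‖ ^ 2 := by
  have e : La (0 : Mat n) *ᵥ W = W ∅ • vac n := by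
    funext A
    rw [Matrix.mulVec, dotProduct, Finset.sum_eq_single ∅ (fun B _ hB => ?_) (by simp),
      ((aFK2 n).2 0).2.1]
    · simp [vac, Pi.single_apply, mul_comm]
    · rw [La, Matrix.of_apply]
      split_ifs with c
      · have : Nonempty (Fin A.card) :=
          ⟨⟨0, c ▸ Finset.card_pos.2 (Finset.nonempty_iff_ne_empty.2 hB)⟩⟩
        simp
      · simp
  rw [ng, e, dotProduct_smul, vac, dotProduct_single, mul_one, Pi.star_apply, smul_eq_mul,
    RCLike.star_def, Complex.mul_conj, Complex.ofReal_re, Complex.normSq_eq_norm_sq]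

theorem ng_loc (hu : ContinuousAt u x) (A : Finset (Fin P.r)) (h : Hv (P.W ∩ Of D) m T) :
    Bl D x m fun e z => ng (∑ i ∈ A, Matrix.vecMulVec (star (gd (fun w => P.g i (e.symm w)) z))
      (gd (fun w => P.g i (e.symm w)) z)) (T e z) := by
  induction A using Finset.induction_on generalizing T with
  | empty => simpa only [Finset.sum_empty, ng_zero] using nbl P hu (hv_emp h)
  | insert a A ha ih =>
    simp only [Finset.sum_insert ha, add_comm (Matrix.vecMulVec _ _), R81.ng_r1]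
    exact bl_add (ih h) (ih (hv_anv h (hs_mono (P.hg a) inter_subset_left)))

theorem be_psd (he : e ∈ M.C) (hz : z ∈ e.target) : (D.β e z).PosSemidef := by
  simpa only [Pi.zero_apply, sub_zero] using D.nβ e he z hz

/-- The norm given by the contracted form, near a point of the divisors. -/
theorem ng_nb (hu : ContinuousAt u x) (h : Hv (P.W ∩ Of D) m T) :
    Bl D x m fun e z => ng (D.β e z) (T e z) := by
  refine bl_mono (ng_loc P hu Finset.univ h) ?_
  filter_upwards [P.opn.mem_nhds P.mem] with y a _ e he hy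
  have b := be_psd (D := D) he (e.map_source hy)
  refine R81.ng_mono b (Matrix.PosSemidef.of_dotProduct_mulVec_nonneg
    ((Matrix.posSemidef_sum _ fun i _ => Matrix.posSemidef_vecMulVec_star_self _).1.sub b.1)
      fun v => ?_) _
  have c := P.bt e he _ (e.map_source hy) (by rwa [e.left_inv hy]) v
  have d := (Complex.nonneg_iff.1 (b.dotProduct_mulVec_nonneg v)).2
  have f : ∀ w : E n, star v ⬝ᵥ Matrix.vecMulVec (star w) w *ᵥ v = Complex.normSq (w ⬝ᵥ v) :=
    fun w => by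
      rw [Matrix.vecMulVec_mulVec, op_smul_eq_smul, dotProduct_smul, smul_eq_mul,
        Matrix.star_dotProduct_star, Complex.star_def, Complex.mul_conj]
  rw [Matrix.sub_mulVec, dotProduct_sub, Matrix.sum_mulVec, dotProduct_sum]
  simp only [f]
  rw [← Complex.ofReal_sum]
  exact Complex.nonneg_iff.2 ⟨by simpa [nq] using c, by simpa using d.symm⟩

theorem ng_cmp {B : M.Fam (Mat n)} (hB : M.Ten B) (h : Hv O m T) : M.Ov fun e e' x => x ∈ O →
    ng (B e' (e' x)) (T e' (e' x)) =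
      Complex.normSq (jd M e e' x) ^ m * ng (B e (e x)) (T e (e x)) := by
  intro e he e' he' x hx hx' a
  have b := ((mTR n M).2.1 e he e' he' x hx hx').2.1
  have c := W98.nn_mv (B e (e x)) (La (M.J e e' x)) (T e' (e' x))
  rw [← ((aFK2 n).2 _).1, ← ((aFK2 n).2 _).2.2.1, ← ((aFK2 n).2 _).2.2.1,
    ← hB.cmp e he e' he' x hx hx'] at c
  have d := W98.nn_smul (B e (e x)) (jd M e e' x ^ m)⁻¹ (La (M.J e e' x) *ᵥ T e' (e' x))
  rw [← h.cmp e he e' he' x hx hx' a, c] at d
  rw [show ng (B e (e x)) (T e (e x)) = _ from d, norm_inv, norm_pow, Complex.normSq_eq_norm_sq,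
    ← pow_mul, inv_pow, ← pow_mul, mul_comm m 2, mul_inv_cancel_left₀
      (pow_ne_zero _ (norm_ne_zero_iff.2 b)), ng]

theorem ng_of {B : M.Fam (Mat n)} (hB : M.Ten B) (hx : x ∈ Of D) (hO : O ∈ 𝓝 x) (h : Hv O m T) :
    Bl D x m fun e z => ng (B e z) (T e z) := by
  obtain ⟨c1, c2⟩ := (mTR n M).1 x
  have hz := (M.ch x).map_source c2
  have a := fun A => (h.hol _ c1 _ hz (by
    rw [(M.ch x).left_inv c2]; exact mem_of_mem_nhds hO) A).self_of_nhds.continuousAt
  have b := fun A A' => (((aFK3 n _ _).2 (hB.sm _ c1 _ hz)).1 A A').continuousAt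
  refine bl_of hx ?_ ?_
  · simp only [ng, dotProduct, Matrix.mulVec, Pi.star_apply]
    exact Complex.continuous_re.continuousAt.comp (tendsto_finsetSum _ fun A _ =>
      (a A).star.mul (tendsto_finsetSum _ fun A' _ => (b A A').mul (a A')))
  · filter_upwards [hO] with y k e he e' he' hy hy' using ng_cmp hB h e he e' he' y hy hy' k

/-! ### The data -/

variable {S : Sd M I}

theorem bd_bl (h : Bl S.toDk x j fun e z => ‖t e z‖ ^ 2) : Bd S x O j t :=
  h.imp fun _ a => a.2.mono fun _ b c _ => b c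

theorem nb0 (P : Lm S.toDk S.u x) (h : Hs (P.W ∩ Of S.toDk) j t) : Bd S x O j t :=
  bd_bl (nb P S.su.continuous.continuousAt h)

theorem nbG (P : Lm S.toDk S.u x) (h : Gc S P O j t) : Bd S x O j t := by
  obtain ⟨N, ψ, τ, h1, h2⟩ := h
  obtain ⟨C, -, hC⟩ := nbs P S.su.continuous.continuousAt
    (fun i => ((h1 i).1 x P.mem).continuousAt) fun i => (h1 i).2
  refine ⟨C, ?_⟩
  filter_upwards [hC, P.opn.mem_nhds P.mem] with y a b c d e he hy
  rw [h2 e he _ (e.map_source hy) (by rw [e.left_inv hy]; exact ⟨b, c⟩) (by rwa [e.left_inv hy])]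
  exact a c e he hy

/-- Sections that are holomorphic near `x`, off the divisors. -/
theorem hs_bl (hO : O ∈ 𝓝 x) (h : Hs (O ∩ Of S.toDk) j t)
    (k : x ∉ Of S.toDk → ∃ P : Lm S.toDk S.u x, P.W ⊆ O) :
    Bl S.toDk x j fun e z => ‖t e z‖ ^ 2 := by
  by_cases c : x ∈ Of S.toDk
  · exact hs_of c (inter_mem hO (of_open.mem_nhds c)) h
  · obtain ⟨P, hP⟩ := k c
    exact nb P S.su.continuous.continuousAt (hs_mono h (inter_subset_inter_left _ hP))

theorem hs_glob [M.Cpt] (h : Hs (Of S.toDk) j t) : ∃ C : ℝ, 0 ≤ C ∧ ∀ y ∈ Of S.toDk, ∀ e ∈ M.C,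
    y ∈ e.source → ‖t e (e y)‖ ^ 2 ≤ C * (S.H e (e y)).det.re ^ j * pw S.toDk j y :=
  bl_glob (p := fun e z => ‖t e z‖ ^ 2) fun x =>
    hs_bl univ_mem (hs_mono h inter_subset_right) fun c => ⟨(S.mod x c).some, subset_univ _⟩

theorem hv_ho (h : HO S m T) : Hv (Of S.toDk) m T := ⟨h.hol, h.cmp⟩

/-- The norm given by the contracted form is bounded for the model metric. -/
theorem ng_glob [M.Cpt] (h : HO S m T) : ∃ C : ℝ, 0 ≤ C ∧ ∀ y ∈ Of S.toDk, ∀ e ∈ M.C,
    y ∈ e.source →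
      ng (S.β e (e y)) (T e (e y)) ≤ C * (S.H e (e y)).det.re ^ m * pw S.toDk m y :=
  bl_glob (p := fun e z => ng (S.β e z) (T e z)) fun x => by
    by_cases c : x ∈ Of S.toDk
    · exact ng_of S.cβ.toTen c (of_open.mem_nhds c) (hv_ho h)
    · exact ng_nb (S.mod x c).some S.su.continuous.continuousAt
        (hv_mono (hv_ho h) inter_subset_right)

end Nb51

end Pool.Agent.Lib.N4S
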