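import Pool.Agent.Lib.N4S.Blue
import Pool.Agent.Lib.N4S.Ob24
import Pool.Agent.Lib.N4S.Nb51

/-! Project n4s, row OB2: the obstruction. -/

namespace Pool.Agent.Lib.N4S

theorem st_OB2 : St_OB2 := fun _ _ _ _ _ S _ _ hV hT hb =>
  O24.obex S (fun _ P _ h => Nb51.nb0 P h) hV hT hb

end Pool.Agent.Lib.N4S
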