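import Pool.Agent.Lib.N4S.Nc4c
import Pool.Agent.Lib.N4S.Adm51

/-! The truncated weights are admissible; uniform bounds for the densities. -/

open scoped Classical Topology ContDiff ComplexOrder Matrix
open Set MeasureTheory Filter

set_option linter.unusedVariables false
set_option linter.unusedSectionVars false

noncomputable section

namespace Pool.Agent.Lib.N4S.Nc4

open Pool.Agent.Lib.SV (E)
open Pool.Agent.Lib.HS32 Pool.Agent.Lib.HLK Pool.Agent.Lib.N4S.K78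
open Pool.Agent.Lib.F4.LD.PW26 (tb tb_ok tb_hl)

variable {n : ℕ} {M : Mf n} {I : Type} [Fintype I] [M.Cpt] {S : Sd M I} {a : ℝ → M.X → ℝ}

/-- A uniform bound for the total mass. -/
theorem mass (S : Sd M I) (hn : 0 < n) {κ : I → ℝ} (hκ : ∀ k, 0 ≤ κ k ∧ κ k < 1) {J : Type}
    {y : J → M.X → ℝ} (yc : ∀ j, Continuous (y j)) (y0 : ∀ j x, 0 ≤ y j x)
    (hy : ∀ p : ℝ, 0 < p → ∃ C : ℝ, ∀ j, ∫ x, Real.exp (p * y j x) ∂M.mu S.H ≤ C) :
    ∃ C : ℝ, ∀ j, ∀ d ∈ Ioc (0 : ℝ) (1 / 2),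
      ∫ x, Real.exp (y j x) * vp S κ d x ∂M.mu S.H ≤ C := by
  obtain ⟨K, K0, hK⟩ := master S hn (tb_ok (M := M)) tb_hl hκ yc y0 hy one_half_pos
  refine ⟨2 * (K * (M.mu S.H).real univ), fun j d hd => ?_⟩
  have h := hK j d hd (fun _ _ _ => 1) ⟨fun _ _ _ _ => contDiffAt_const,
    fun _ _ _ _ _ _ _ => by simp [tb]⟩ (fun _ => 1) measurable_const fun _ => ⟨zero_le_one, le_rfl⟩
  have e1 : ∀ x, (tb M).pn (fun _ _ _ => 1) x = 1 := fun x => by
    rw [F4.LD.PW26.pn_eq]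
    simp [Mf.ev]
  have e2 : ∀ x, gb S.H (tb M) (fun _ _ _ => 1) x = 0 := fun x => by
    simp [gb, Mf.ev, dzbv, dzb_const, dotProduct]
  simp only [e1, e2, one_mul, zero_add, integral_const, smul_eq_mul, mul_one] at h
  linarith

theorem zb (hZ : Zs S a) {J : Type} {e : J → ℝ} (he : ∀ j, e j ∈ Ioc (0 : ℝ) 1)
    {y : J → M.X → ℝ} (yc : ∀ j, Continuous (y j)) {c : ℝ} (hc : 0 ≤ c)
    (h : ∀ j x, y j x ≤ -(c * a (e j) x)) (p : ℝ) (hp : 0 < p) :
    ∃ C : ℝ, ∀ j, ∫ x, Real.exp (p * y j x) ∂M.mu S.H ≤ C := by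
  obtain ⟨C, hC⟩ := hZ.itg (p * (c + 1)) (by positivity)
  refine ⟨C, fun j => (integral_mono (itg (met S) (Real.continuous_exp.comp
    (continuous_const.mul (yc j)))) (itg (met S) (Real.continuous_exp.comp
      (continuous_const.mul (hZ.out.sm _ (he j)).continuous).neg)) fun x =>
        Real.exp_le_exp.2 ?_).trans (hC _ (he j))⟩
  have h1 := mul_le_mul_of_nonneg_left (h j x) hp.le
  have h2 := mul_nonpos_of_nonneg_of_nonpos hp.le (hZ.out.le _ (he j) x)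
  show p * y j x ≤ -(p * (c + 1) * a (e j) x)
  linarith

/-- The densities are integrable, uniformly in the parameters. -/
theorem klt (hn : 0 < n) (hZ : Zs S a) {t : I → ℝ} (ht : ∀ k, 0 ≤ t k ∧ t k < 1) {p : ℝ}
    (hp : 0 ≤ p) : ∃ C : ℝ, ∀ ε ∈ Ioc (0 : ℝ) 1, ∀ d ∈ Ioc (0 : ℝ) (1 / 2),
      ∫ x, Real.exp (-(p * a ε x)) * ∏ k, (sg S.toDk k x + d) ^ (-t k) ∂M.mu S.H ≤ C := by
  have yc : ∀ ε : Ioc (0 : ℝ) 1, Continuous fun x => -(p * a ε x) := fun ε =>
    (continuous_const.mul (hZ.out.sm _ ε.2).continuous).neg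
  obtain ⟨C, hC⟩ := mass S hn ht yc
    (fun ε x => neg_nonneg.2 (mul_nonpos_of_nonneg_of_nonpos hp (hZ.out.le _ ε.2 x)))
    (zb hZ (fun ε => ε.2) yc hp fun _ _ => le_rfl)
  refine ⟨C, fun ε hε d hd => ?_⟩
  simp only [← vp_eq S t hd.1]
  exact hC ⟨ε, hε⟩ d hd

/-- The same without potential. -/
theorem klt0 (S : Sd M I) (hn : 0 < n) {t : I → ℝ} (ht : ∀ k, 0 ≤ t k ∧ t k < 1) :
    ∃ C : ℝ, ∀ d ∈ Ioc (0 : ℝ) (1 / 2), ∫ x, ∏ k, (sg S.toDk k x + d) ^ (-t k) ∂M.mu S.H ≤ C := by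
  obtain ⟨C, hC⟩ := mass S hn ht (J := Unit) (y := fun _ _ => 0) (fun _ => continuous_const)
    (fun _ _ => le_rfl) fun p _ => ⟨_, fun _ => le_rfl⟩
  refine ⟨C, fun d hd => ?_⟩
  simpa only [← vp_eq S t hd.1, Real.exp_zero, one_mul] using hC () d hd

variable (q : Sq)

/-- The truncated part of the weight. -/
def yw (a : ℝ → M.X → ℝ) (c : ℝ) (j : ℕ) (x : M.X) : ℝ := -(c * tp a q j x)

theorem yw_c (hZ : Zs S a) (c : ℝ) (j : ℕ) : Continuous (yw q a c j) :=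
  (continuous_const.mul (tp_sm hZ q j).continuous).neg

theorem yw_0 (hZ : Zs S a) {c : ℝ} (hc : 0 ≤ c) (j : ℕ) (x : M.X) : 0 ≤ yw q a c j x :=
  neg_nonneg.2 (mul_nonpos_of_nonneg_of_nonpos hc (tp_le hZ q j x))

theorem yw_z (hZ : Zs S a) {c : ℝ} (hc : 0 ≤ c) (p : ℝ) (hp : 0 < p) :
    ∃ C : ℝ, ∀ j, ∫ x, Real.exp (p * yw q a c j x) ∂M.mu S.H ≤ C :=
  zb hZ q.e0 (yw_c q hZ c) hc
    (fun j x => neg_le_neg (mul_le_mul_of_nonneg_left (tp_ge q j x).2 hc)) p hp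

theorem ww_exp (m j : ℕ) (x : M.X) : Real.exp (-ww S a q m j x) =
    Real.exp (yw q a ((m : ℝ) - 1) j x) * vp S (ka S.toDk m) (q.d j) x := by
  rw [vp, ← Real.exp_add]
  simp only [ww, yw, lf, lg, mul_neg, Finset.sum_neg_distrib, neg_add]

omit [M.Cpt] in
theorem ka01 (S : Sd M I) (m : ℕ) (k : I) : 0 ≤ ka S.toDk m k ∧ ka S.toDk m k < 1 := ⟨ka_nn _ m k, ka_lt _ m k⟩

omit [M.Cpt] in
theorem m0 {m : ℕ} (hm : 1 ≤ m) : (0 : ℝ) ≤ (m : ℝ) - 1 := sub_nonneg.2 (by exact_mod_cast hm)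

theorem bd (hn : 0 < n) (hZ : Zs S a) {m : ℕ} (hm : 1 ≤ m) :
    ∃ C : ℝ, ∀ j, ∫ x, Real.exp (-ww S a q m j x) ∂M.mu S.H ≤ C := by
  obtain ⟨C, hC⟩ := mass S hn (ka01 S m) (yw_c q hZ _) (yw_0 q hZ (m0 hm)) (yw_z q hZ (m0 hm))
  refine ⟨C, fun j => ?_⟩
  simp only [ww_exp]
  exact hC j _ (q.d0 j)

theorem ww_c (hZ : Zs S a) (m j : ℕ) : Continuous fun x => Real.exp (-ww S a q m j x) :=
  Real.continuous_exp.comp (ww_sm hZ q m j).continuous.neg

theorem en_eq (hZ : Zs S a) (m j : ℕ) {W : M.Fam (Fs n → ℂ)} (hW : (lb S m).Sec W) :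
    ∫ x, gb S.H (lj S a q m j) W x ∂M.mu S.H + (lj S a q m j).nr S.H W =
      ∫ x, (gb S.H (lb S m) W x + (lb S m).pn W x) * Real.exp (-ww S a q m j x) ∂M.mu S.H := by
  have e : ∀ x, gb S.H (lj S a q m j) W x = gb S.H (lb S m) W x * Real.exp (-ww S a q m j x) :=
    fun x => (((aLAM n M _ _ _ (met S) (pm_wt S m)).2.2 _).2 W W x).2.2
  have i1 : Integrable (fun x => gb S.H (lb S m) W x * Real.exp (-ww S a q m j x)) (M.mu S.H) :=
    itg (met S) ((gb_c (met S) (lb_ok S m) (lb_hl S m) hW).1.mul (ww_c q hZ m j))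
  have i2 : Integrable (fun x => (lb S m).pn W x * Real.exp (-ww S a q m j x)) (M.mu S.H) :=
    itg (met S) ((pn_c (lb_ok S m) hW).mul (ww_c q hZ m j))
  simp only [Bun.nr, e, pn_lj, add_mul]
  rw [integral_add i1 i2]

/-- No concentration on the bundle of the level `m`. -/
theorem ncs (hn : 0 < n) (hZ : Zs S a) {m : ℕ} (hm : 1 ≤ m) {η : ℝ} (hη : 0 < η) :
    ∃ K : ℝ, 0 ≤ K ∧ ∀ j W, (lb S m).Sec W → ∀ θ : M.X → ℝ, Measurable θ →
      (∀ x, 0 ≤ θ x ∧ θ x ≤ 1) → ∫ x, θ x * (lj S a q m j).pn W x ∂M.mu S.H ≤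
        η * (∫ x, gb S.H (lj S a q m j) W x ∂M.mu S.H + (lj S a q m j).nr S.H W) +
          K * ∫ x, θ x * (lb S m).pn W x ∂M.mu S.H := by
  obtain ⟨K, K0, hK⟩ := master S hn (lb_ok S m) (lb_hl S m) (ka01 S m) (yw_c q hZ _)
    (yw_0 q hZ (m0 hm)) (yw_z q hZ (m0 hm)) hη
  refine ⟨K, K0, fun j W hW θ θm θ1 => ?_⟩
  rw [en_eq q hZ m j hW]
  simp only [pn_lj, ww_exp]
  exact hK j _ (q.d0 j) W hW θ θm θ1

theorem nc1 (hn : 0 < n) (hZ : Zs S a) {m : ℕ} (hm : 1 ≤ m) (η : ℝ) (hη : 0 < η) :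
    ∃ C : ℝ, 0 ≤ C ∧ ∀ j W, (lb S m).Sec W → (lj S a q m j).nr S.H W ≤
      η * (∫ x, gb S.H (lj S a q m j) W x ∂M.mu S.H + (lj S a q m j).nr S.H W) +
        C * (lb S m).nr S.H W := by
  obtain ⟨K, K0, hK⟩ := ncs q hn hZ hm hη
  refine ⟨K, K0, fun j W hW => ?_⟩
  have := hK j W hW (fun _ => 1) measurable_const fun _ => ⟨zero_le_one, le_rfl⟩
  simp only [one_mul] at this
  exact this

theorem nc2 (hn : 0 < n) (hZ : Zs S a) {m : ℕ} (hm : 1 ≤ m) (η : ℝ) (hη : 0 < η) :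
    ∀ᶠ j in atTop, ∀ W, (lb S m).Sec W →
      ∫ x, Adm51.la S a q j x * (lj S a q m j).pn W x ∂M.mu S.H ≤
        η * (∫ x, gb S.H (lj S a q m j) W x ∂M.mu S.H + (lj S a q m j).nr S.H W) := by
  have hH := met S
  have hb := lb_ok S m
  have hl := lb_hl S m
  have η4 : 0 < η / 4 := by positivity
  obtain ⟨K, K0, hK⟩ := ncs q hn hZ hm η4
  obtain ⟨ε, ε0, hε⟩ := sob hn hH hb hl (η := η / 4 / (K + 1)) (by positivity)
  obtain ⟨δ, C, δ0, δ1, C0, hC⟩ := har2 S hb hl (ka01 S m)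
  obtain ⟨Z, hZ1⟩ := hZ.itg 1 one_pos
  have t1 : ∀ᶠ j in atTop, q.e j ≤ η / 4 := by
    have := (q.et 0).eventually (ge_mem_nhds η4)
    simpa only [zero_mul, Real.exp_zero, one_mul] using this
  have t2 : ∀ᶠ j in atTop, Real.exp (-q.N j) * Z ≤ ε := by
    have := (Real.tendsto_exp_neg_atTop_nhds_zero.comp q.Nt).mul_const Z
    rw [zero_mul] at this
    exact this.eventually (ge_mem_nhds ε0)
  have t3 : ∀ᶠ j in atTop, Real.exp (((m : ℝ) - 1) * q.N j) * q.d j ^ δ *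
      (Real.exp ((m : ℝ) - 1) * (Fintype.card I * C)) ≤ η / 4 := by
    have := (q.dt ((m : ℝ) - 1) δ δ0).mul_const (Real.exp ((m : ℝ) - 1) * (Fintype.card I * C))
    rw [zero_mul] at this
    exact this.eventually (ge_mem_nhds η4)
  filter_upwards [t1, t2, t3] with j h1 h2 h3 W hW
  obtain ⟨gc, g0⟩ := gb_c hH hb hl hW
  have p0 := pn_0 hH hb W
  have pc := pn_c hb hW
  have hd := q.d0 j
  have vc := vp_c S (ka S.toDk m) hd.1
  have v1 := vp_1 S (ka_nn S.toDk m) hd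
  have wc := ww_c q hZ m j
  have w1 : ∀ x, 1 ≤ Real.exp (-ww S a q m j x) := fun x =>
    Real.one_le_exp (neg_nonneg.2 (ww_le hZ q hm j x))
  set θ : M.X → ℝ := fun x => if a (q.e j) x < -q.N j then 1 else 0 with hθ
  have θm : Measurable θ := Measurable.ite
    (measurableSet_lt (a_sm hZ q j).continuous.measurable measurable_const)
    measurable_const measurable_const
  have θ1 : ∀ x, 0 ≤ θ x ∧ θ x ≤ 1 := fun x => by
    simp only [hθ]
    split_ifs <;> norm_num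
  have k1 := hK j W hW θ θm θ1
  have k2 := hε W θ _ 1 hW θm θ1 (by
    refine le_trans ?_ h2
    refine (integral_mono_of_nonneg (g := fun x => Real.exp (-q.N j) * Real.exp (-(1 * a (q.e j) x)))
      (Eventually.of_forall fun x => pow_nonneg (θ1 x).1 _) ((itg hH (Real.continuous_exp.comp
        (continuous_const.mul (a_sm hZ q j).continuous).neg)).const_mul _)
      (Eventually.of_forall fun x => ?_)).trans ?_
    · simp only [hθ]
      split_ifs with h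
      · rw [one_pow, ← Real.exp_add]
        exact Real.one_le_exp (by linarith)
      · rw [zero_pow (by omega)]
        positivity
    · rw [integral_const_mul]
      exact mul_le_mul_of_nonneg_left (hZ1 _ (q.e0 j)) (Real.exp_pos _).le) wc w1
  rw [en_eq q hZ m j hW] at k1 ⊢
  simp only [pn_lj] at k1 ⊢
  set Q := ∫ x, (gb S.H (lb S m) W x + (lb S m).pn W x) * Real.exp (-ww S a q m j x) ∂M.mu S.H
    with hQ
  have gp : ∀ x, 0 ≤ gb S.H (lb S m) W x + (lb S m).pn W x := fun x => add_nonneg (g0 x) (p0 x)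
  have iQ := itg hH ((gc.add pc).mul wc)
  have i0 : Integrable (fun x => (lb S m).pn W x * Real.exp (-ww S a q m j x)) (M.mu S.H) :=
    itg hH (pc.mul wc)
  have Q1 : ∫ x, (gb S.H (lb S m) W x + (lb S m).pn W x) * vp S (ka S.toDk m) (q.d j) x ∂M.mu S.H
      ≤ Q := integral_mono (itg hH ((gc.add pc).mul vc)) iQ fun x =>
    mul_le_mul_of_nonneg_left (by
      rw [ww_exp]
      exact le_mul_of_one_le_left (zero_le_one.trans (v1 x))
        (Real.one_le_exp (yw_0 q hZ (m0 hm) j x))) (gp x)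
  have Q2 : ∫ x, (lb S m).pn W x * Real.exp (-ww S a q m j x) ∂M.mu S.H ≤ Q :=
    integral_mono i0 iQ fun x =>
      mul_le_mul_of_nonneg_right (le_add_of_nonneg_left (g0 x)) (Real.exp_pos _).le
  have Q0 : 0 ≤ Q := integral_nonneg fun x => mul_nonneg (gp x) (Real.exp_pos _).le
  have i1 : ∀ k, Integrable (fun x => (lb S m).pn W x *
      (vp S (ka S.toDk m) (q.d j) x * Real.exp (δ * lg S (q.d j) k x))) (M.mu S.H) := fun k =>
    itg hH (pc.mul (vc.mul (Real.continuous_exp.comp (continuous_const.mul (lg_c S hd.1 k)))))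
  have i2 : Integrable (fun x => θ x * ((lb S m).pn W x * Real.exp (-ww S a q m j x)))
      (M.mu S.H) := i0.bdd_mul (c := 1) θm.aestronglyMeasurable (Eventually.of_forall fun x => by
      rw [Real.norm_of_nonneg (θ1 x).1]
      exact (θ1 x).2)
  set s : ℝ := Real.exp (((m : ℝ) - 1) * q.N j) * q.d j ^ δ * Real.exp ((m : ℝ) - 1) with hs
  have s0 : 0 ≤ s := by
    have := hd.1
    positivity
  have i3 : Integrable (fun x => s * ∑ k, (lb S m).pn W x *
      (vp S (ka S.toDk m) (q.d j) x * Real.exp (δ * lg S (q.d j) k x))) (M.mu S.H) :=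
    (integrable_finsetSum _ fun k _ => i1 k).const_mul s
  have i4 : Integrable (fun x => q.e j * ((lb S m).pn W x * Real.exp (-ww S a q m j x)) +
      θ x * ((lb S m).pn W x * Real.exp (-ww S a q m j x))) (M.mu S.H) := (i0.const_mul _).add i2
  refine (integral_mono_of_nonneg (g := fun x =>
    q.e j * ((lb S m).pn W x * Real.exp (-ww S a q m j x)) +
      θ x * ((lb S m).pn W x * Real.exp (-ww S a q m j x)) + s * ∑ k, (lb S m).pn W x *
      (vp S (ka S.toDk m) (q.d j) x * Real.exp (δ * lg S (q.d j) k x)))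
    (Eventually.of_forall fun x => mul_nonneg (Adm51.la_nn S a q j x)
      (mul_nonneg (p0 x) (Real.exp_pos _).le)) (i4.add i3)
    (Eventually.of_forall fun x => ?_)).trans ?_
  · beta_reduce
    rw [Adm51.la, add_mul, add_mul, Finset.sum_mul, Finset.mul_sum]
    refine add_le_add_right (Finset.sum_le_sum fun k _ => ?_) _
    have sp := add_pos_of_nonneg_of_pos (sg_nn S.toDk k x) hd.1
    have a1 : q.d j / (sg S.toDk k x + q.d j) ≤ q.d j ^ δ * Real.exp (δ * lg S (q.d j) k x) := by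
      rw [lg_exp S hd.1, Real.rpow_neg sp.le, ← div_eq_mul_inv, ← Real.div_rpow hd.1.le sp.le]
      exact Real.self_le_rpow_of_le_one (Adm51.fr_nn S q j k x) (Adm51.fr_le S q j k x) δ1
    have a2 : Real.exp (yw q a ((m : ℝ) - 1) j x) ≤
        Real.exp (((m : ℝ) - 1) * q.N j) * Real.exp ((m : ℝ) - 1) := by
      rw [← Real.exp_add, Real.exp_le_exp, yw]
      have := mul_le_mul_of_nonneg_left (tp_ge (a := a) q j x).1 (m0 hm)
      linarith
    have a3 := mul_le_mul a1 a2 (Real.exp_pos _).le ((Adm51.fr_nn S q j k x).trans a1)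
    have a4 := mul_le_mul_of_nonneg_right a3 (mul_nonneg (p0 x) (zero_le_one.trans (v1 x)))
    rw [ww_exp, hs]
    linarith
  · rw [integral_add i4 i3, integral_add (i0.const_mul _) i2, integral_const_mul,
      integral_const_mul, integral_finsetSum _ fun k _ => i1 k]
    have a1 := Finset.sum_le_card_nsmul Finset.univ _ _ fun k _ =>
      (hC _ hd W hW k).trans (mul_le_mul_of_nonneg_left Q1 C0)
    rw [nsmul_eq_mul, Finset.card_univ] at a1
    have a2 : s * (Fintype.card I * C) ≤ η / 4 := le_trans (le_of_eq (by rw [hs]; ring)) h3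
    have a3 := mul_le_mul_of_nonneg_left a1 s0
    have a4 := mul_le_mul_of_nonneg_right a2 Q0
    have a5 := mul_le_mul h1 Q2 (integral_nonneg fun x => mul_nonneg (p0 x) (Real.exp_pos _).le)
      η4.le
    have a6 := mul_le_mul_of_nonneg_left k2 K0
    have a7 : K * (η / 4 / (K + 1)) ≤ η / 4 := by
      rw [← mul_div_assoc, div_le_iff₀ (by positivity)]
      linarith
    have a8 := mul_le_mul_of_nonneg_right a7 Q0
    linarith

/-- The weights are admissible. -/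
theorem adm (hn : 0 < n) (hZ : Zs S a) {m : ℕ} (hm : 1 ≤ m) :
    Adm M S.H (Lb S m) (pm S m) (ww S a q m) :=
  Adm51.adm q hZ hm (bd q hn hZ hm) (nc1 q hn hZ hm) (nc2 q hn hZ hm)

end Pool.Agent.Lib.N4S.Nc4
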