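import Pool.Agent.Lib.NU4.Nm43b

/-! Project n4s: the gradient of the logarithm of an almost plurisubharmonic norm lies in `L^p`
for `p < 2`, and uniform integrability of products. -/

open scoped Classical Topology ContDiff ComplexOrder Matrix ENNReal
open Set Filter MeasureTheory

noncomputable section

namespace Pool.Agent.Lib.N4S.Lp75

open Pool.Agent.Lib.HS32 Pool.Agent.Lib.HLK
open Pool.Agent.Lib.KH (Pol)

theorem young {h r p ε : ℝ} (h0 : 0 ≤ h) (hr : 0 < r) (hp : 0 < p) (h2 : p < 2) :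
    h ^ p ≤ r ^ (ε * (2 - p) / p) * h ^ 2 + r ^ (-ε) := by
  have a := Real.rpow_pos_of_pos hr (ε * (2 - p) / p)
  have b := Real.rpow_pos_of_pos hr (-ε)
  rcases le_total h (r ^ (-ε / p)) with k | k
  · have := Real.rpow_le_rpow h0 k hp.le
    rw [← Real.rpow_mul hr.le, div_mul_cancel₀ _ hp.ne'] at this
    have : 0 ≤ r ^ (ε * (2 - p) / p) * h ^ 2 := by positivity
    linarith
  · have hh : 0 < h := (Real.rpow_pos_of_pos hr _).trans_le k
    have k1 := Real.rpow_le_rpow (Real.rpow_pos_of_pos hr _).le k (sub_pos.2 h2).le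
    rw [← Real.rpow_mul hr.le] at k1
    have e1 : r ^ (ε * (2 - p) / p) * r ^ (-ε / p * (2 - p)) = 1 := by
      rw [← Real.rpow_add hr, show ε * (2 - p) / p + -ε / p * (2 - p) = 0 by ring, Real.rpow_zero]
    have e2 : h ^ 2 = h ^ (2 - p) * h ^ p := by
      rw [← Real.rpow_add hh, sub_add_cancel, Real.rpow_two]
    have c := Real.rpow_pos_of_pos hh p
    have := mul_le_mul_of_nonneg_left (mul_le_mul_of_nonneg_right k1 c.le) a.le
    rw [← mul_assoc, e1, one_mul, ← e2] at this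
    linarith

theorem amg {f w t : ℝ} (f0 : 0 ≤ f) (w0 : 0 ≤ w) (ht : 0 < t) :
    f * w ≤ t * f ^ (3 / 2 : ℝ) + t * w ^ 6 + 1 / t ^ 5 := by
  obtain ⟨s, s0, rfl⟩ : ∃ s : ℝ, 0 ≤ s ∧ f = s ^ 2 := ⟨√f, Real.sqrt_nonneg _, (Real.sq_sqrt f0).symm⟩
  have e : (s ^ 2) ^ (3 / 2 : ℝ) = s ^ 3 := by
    rw [← Real.rpow_natCast, ← Real.rpow_mul s0, ← Real.rpow_natCast]
    norm_num
  rw [e]
  have q : w ^ 3 / t ^ 2 ≤ t * w ^ 6 + 1 / t ^ 5 := by
    have : 0 ≤ t * (w ^ 3 - 1 / t ^ 3) ^ 2 := by positivity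
    have e1 : t * (w ^ 3 - 1 / t ^ 3) ^ 2 = t * w ^ 6 + 1 / t ^ 5 - 2 * (w ^ 3 / t ^ 2) := by
      field_simp
      ring
    have : 0 ≤ w ^ 3 / t ^ 2 := by positivity
    linarith
  rcases le_total w (t * s) with k | k
  · have : s ^ 2 * w ≤ s ^ 2 * (t * s) := mul_le_mul_of_nonneg_left k (by positivity)
    have : 0 ≤ t * w ^ 6 + 1 / t ^ 5 := by positivity
    nlinarith
  · have k1 : (t * s) ^ 2 * w ≤ w ^ 2 * w :=
      mul_le_mul_of_nonneg_right (pow_le_pow_left₀ (by positivity) k 2) w0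
    have k2 : s ^ 2 * w ≤ w ^ 3 / t ^ 2 := by
      rw [le_div_iff₀ (by positivity)]
      nlinarith
    have : 0 ≤ t * s ^ 3 := by positivity
    linarith

section meas

variable {X : Type} [MeasurableSpace X] {μ : Measure X} [IsFiniteMeasure μ] {f : X → ℝ}

/-- The product of a function in `L^(3/2)` and of a function in `L^6` is integrable. -/
theorem int_mul (f0 : ∀ x, 0 ≤ f x) (fm : AEStronglyMeasurable f μ)
    (hf : Integrable (fun x => f x ^ (3 / 2 : ℝ)) μ) {w : X → ℝ} (w0 : ∀ x, 0 ≤ w x)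
    (wm : AEStronglyMeasurable w μ) (hw : Integrable (fun x => w x ^ 6) μ) :
    Integrable (fun x => f x * w x) μ := by
  refine Integrable.mono' ((hf.add hw).add (integrable_const (1 : ℝ))) (fm.mul wm)
    (Eventually.of_forall fun x => ?_)
  rw [Real.norm_of_nonneg (mul_nonneg (f0 x) (w0 x))]
  simpa using amg (f0 x) (w0 x) one_pos

/-- Uniform integrability, with a density. -/
theorem uic (f0 : ∀ x, 0 ≤ f x) (fm : AEStronglyMeasurable f μ)
    (hf : Integrable (fun x => f x ^ (3 / 2 : ℝ)) μ) {η : ℝ} (hη : 0 < η) (A : ℝ) :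
    ∃ δ : ℝ, 0 < δ ∧ ∀ c w : X → ℝ, (∀ x, 0 ≤ c x ∧ c x ≤ 1) → AEStronglyMeasurable c μ →
      ∫ x, c x ∂μ ≤ δ → (∀ x, 0 ≤ w x) → AEStronglyMeasurable w μ →
      Integrable (fun x => w x ^ 6) μ → ∫ x, w x ^ 6 ∂μ ≤ A →
      Integrable (fun x => c x * (f x * w x)) μ ∧ ∫ x, c x * (f x * w x) ∂μ ≤ η := by
  set B := |∫ x, f x ^ (3 / 2 : ℝ) ∂μ| + |A| + 1 with hB
  have B0 : 0 < B := by positivity
  set t := η / 2 / B with ht
  have t0 : 0 < t := by positivity
  refine ⟨η / 2 * t ^ 5, by positivity, fun c w c0 cm hc w0 wm hw hA => ?_⟩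
  have ci : Integrable c μ := Integrable.mono' (integrable_const (1 : ℝ)) cm
    (Eventually.of_forall fun x => by rw [Real.norm_of_nonneg (c0 x).1]; exact (c0 x).2)
  have i0 := int_mul f0 fm hf w0 wm hw
  have i1 : Integrable (fun x => c x * (f x * w x)) μ := by
    refine Integrable.mono' i0 (cm.mul (fm.mul wm)) (Eventually.of_forall fun x => ?_)
    have := mul_nonneg (f0 x) (w0 x)
    rw [Real.norm_of_nonneg (mul_nonneg (c0 x).1 this)]
    exact mul_le_of_le_one_left this (c0 x).2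
  have i2 : Integrable (fun x => t * f x ^ (3 / 2 : ℝ) + t * w x ^ 6) μ :=
    (hf.const_mul t).add (hw.const_mul t)
  have i3 := ci.const_mul (1 / t ^ 5)
  refine ⟨i1, (integral_mono i1 (i2.add i3) fun x => ?_).trans ?_⟩
  · have a := mul_le_mul_of_nonneg_left (amg (f0 x) (w0 x) t0) (c0 x).1
    have b : 0 ≤ t * f x ^ (3 / 2 : ℝ) + t * w x ^ 6 := by
      have := f0 x
      positivity
    have := mul_le_of_le_one_left b (c0 x).2
    simp only [Pi.add_apply]
    nlinarith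
  · simp only [Pi.add_apply]
    rw [integral_add i2 i3, integral_add (hf.const_mul t) (hw.const_mul t), integral_const_mul,
      integral_const_mul, integral_const_mul]
    have a1 : 1 / t ^ 5 * ∫ x, c x ∂μ ≤ η / 2 := by
      refine (mul_le_mul_of_nonneg_left hc (by positivity)).trans (le_of_eq ?_)
      field_simp
    have a2 : t * B = η / 2 := by rw [ht]; field_simp
    have a3 := le_abs_self (∫ x, f x ^ (3 / 2 : ℝ) ∂μ)
    have a4 := hA.trans (le_abs_self A)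
    nlinarith

/-- Uniform integrability, on sets. -/
theorem uis (f0 : ∀ x, 0 ≤ f x) (fm : AEStronglyMeasurable f μ)
    (hf : Integrable (fun x => f x ^ (3 / 2 : ℝ)) μ) {η : ℝ} (hη : 0 < η) (A : ℝ) :
    ∃ δ : ℝ, 0 < δ ∧ ∀ (S : Set X) (w : X → ℝ), MeasurableSet S → μ.real S ≤ δ →
      (∀ x, 0 ≤ w x) → AEStronglyMeasurable w μ →
      Integrable (fun x => w x ^ 6) μ → ∫ x, w x ^ 6 ∂μ ≤ A → ∫ x in S, f x * w x ∂μ ≤ η := by
  obtain ⟨δ, d0, h⟩ := uic f0 fm hf hη A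
  refine ⟨δ, d0, fun S w hS hd w0 wm hw hA => ?_⟩
  have k := (h (S.indicator 1) w (fun x => by by_cases hx : x ∈ S <;> simp [hx])
    (aestronglyMeasurable_const.indicator hS) (by simpa [integral_indicator hS] using hd)
    w0 wm hw hA).2
  rw [← integral_indicator hS]
  refine le_of_eq_of_le (integral_congr_ae (Eventually.of_forall fun x => ?_)) k
  by_cases hx : x ∈ S <;> simp [hx]

/-- Adding a constant. -/
theorem one_add (f0 : ∀ x, 0 ≤ f x) (fm : AEStronglyMeasurable f μ)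
    (hf : Integrable (fun x => f x ^ (3 / 2 : ℝ)) μ) :
    Integrable (fun x => (1 + f x) ^ (3 / 2 : ℝ)) μ := by
  refine Integrable.mono' (((integrable_const (1 : ℝ)).add hf).const_mul (2 ^ (3 / 2 : ℝ)))
    ((Real.continuous_rpow_const (by norm_num)).comp_aestronglyMeasurable
      (aestronglyMeasurable_const.add fm)) (Eventually.of_forall fun x => ?_)
  have a := f0 x
  have b : 0 ≤ f x ^ (3 / 2 : ℝ) := by positivity
  have c : (0 : ℝ) < 2 ^ (3 / 2 : ℝ) := by positivity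
  rw [Real.norm_of_nonneg (by positivity)]
  simp only [Pi.add_apply]
  rcases le_total (f x) 1 with k | k
  · have := Real.rpow_le_rpow (by positivity) (show 1 + f x ≤ 2 by linarith)
      (show (0 : ℝ) ≤ 3 / 2 by norm_num)
    nlinarith
  · have := Real.rpow_le_rpow (by positivity) (show 1 + f x ≤ 2 * f x by linarith)
      (show (0 : ℝ) ≤ 3 / 2 by norm_num)
    rw [Real.mul_rpow (by norm_num) a] at this
    nlinarith

end meas

variable {n : ℕ} {M : Mf n} [M.Cpt] {H : M.Fam (Mat n)} {ρ : M.X → ℝ}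

omit [M.Cpt] in
theorem gr_nn (hH : M.Met H) (hρ : M.Sm ρ) (x : M.X) : 0 ≤ M.gr H ρ ρ x :=
  (((mLAP n M ρ ρ hρ hρ).2.2 H hH).2.2.1 x 0).2.2.2.2.2.2.1

omit [M.Cpt] in
theorem gr_cont (hH : M.Met H) (hρ : M.Sm ρ) : Continuous (M.gr H ρ ρ) :=
  ((mLAP n M ρ ρ hρ hρ).2.2 H hH).2.1.continuous

/-- The energy with a power of the norm. -/
theorem energy (hH : M.Kae H) (h : Pol M H ρ) {δ : ℝ} (hδ : 0 < δ) : ∃ K : ℝ,
    ∀ d ∈ Ioc (0 : ℝ) 1, ∫ x, (ρ x + d) ^ (δ - 2) * M.gr H ρ ρ x ∂M.mu H ≤ K := by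
  have := (mMU n M H hH.toMet).2.1
  have I := (mMU n M H hH.toMet).2.2.2.2.1 ℝ
  obtain ⟨hρ, h0, C, hC⟩ := h
  obtain ⟨B, B0, hB⟩ := hρ.exists_bound
  refine ⟨|C * n| * (B + 1) ^ δ * (M.mu H).real univ / δ, fun d hd => ?_⟩
  have p : ∀ x, 0 < ρ x + d := fun x => by have := h0 x; have := hd.1; positivity
  have l : ∀ x, -|C * n| ≤ M.lap H (fun y => Real.log (ρ y + d)) x := fun x => by
    have := hH.toMet.tr_nonneg (hC d hd) x
    rw [Mf.tr_add, Mf.tr_smul, hH.toMet.tr_self] at this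
    exact (neg_le_neg (le_abs_self _)).trans (neg_le_iff_add_nonneg'.2 this)
  have c1 : ∀ y, ContDiffAt ℝ ∞ (fun t : ℝ => Real.log (t + d)) (ρ y) := fun y =>
    (contDiffAt_id.add contDiffAt_const).log (p y).ne'
  have c2 : ∀ y, ContDiffAt ℝ ∞ (fun t : ℝ => (t + d) ^ δ) (ρ y) := fun y =>
    (contDiffAt_id.add contDiffAt_const).rpow_const_of_ne (p y).ne'
  have e1 : ∀ x, deriv (fun t : ℝ => Real.log (t + d)) (ρ x) = (ρ x + d)⁻¹ := fun x => by
    rw [deriv_comp_add_const, Real.deriv_log]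
  have e2 : ∀ x, deriv (fun t : ℝ => (t + d) ^ δ) (ρ x) = δ * (ρ x + d) ^ (δ - 1) := fun x => by
    rw [deriv_comp_add_const (fun t : ℝ => t ^ δ), Real.deriv_rpow_const]
  have s1 := NU4.Nm43.sm_log hρ h0 hd.1
  have s2 : M.Sm fun x => (ρ x + d) ^ δ := ((mLAP n M ρ ρ hρ hρ).2.1 _ c2).1
  have g : ∀ x, M.gr H (fun y => Real.log (ρ y + d)) (fun y => (ρ y + d) ^ δ) x =
      δ * ((ρ x + d) ^ (δ - 2) * M.gr H ρ ρ x) := fun x => by
    rw [(((mLAP n M ρ _ hρ s2).2.2 H hH.toMet).2.2.2.1 _ c1 x).2,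
      (((mLAP n M ρ _ hρ s2).2.2 H hH.toMet).2.2.1 x 0).2.2.2.2.2.1,
      (((mLAP n M ρ ρ hρ hρ).2.2 H hH.toMet).2.2.2.1 _ c2 x).2, e1, e2,
      show δ - 2 = δ - 1 - 1 by ring, Real.rpow_sub_one (p x).ne' (δ - 1)]
    have := (p x).ne'
    field_simp
  have sl := ((mLAP n M _ _ s1 s2).2.2 H hH.toMet).1.continuous
  have G := ((mGRN n M).2 H _ _ hH s1 s2).2.1
  simp only [g, integral_const_mul] at G
  have b : ∫ _, -(|C * n| * (B + 1) ^ δ) ∂M.mu H ≤ ∫ x, (ρ x + d) ^ δ *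
      M.lap H (fun y => Real.log (ρ y + d)) x ∂M.mu H := by
    refine integral_mono (integrable_const _) (I _ (s2.continuous.mul sl)) fun x => ?_
    have q0 := Real.rpow_pos_of_pos (p x) δ
    have q1 : (ρ x + d) ^ δ ≤ (B + 1) ^ δ := Real.rpow_le_rpow (p x).le
      (add_le_add ((le_abs_self _).trans (hB x)) hd.2) hδ.le
    have q2 := mul_le_mul_of_nonneg_left (l x) q0.le
    have q3 := mul_le_mul_of_nonneg_left q1 (abs_nonneg (C * n))
    beta_reduce
    linarith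
  rw [integral_const, smul_eq_mul] at b
  rw [le_div_iff₀ hδ]
  linarith

/-- The limit of the energies. -/
theorem fatou (hH : M.Kae H) (h : Pol M H ρ) {δ : ℝ} (hδ : 0 < δ) (h2 : δ ≠ 2) :
    ∫⁻ x, ENNReal.ofReal (ρ x ^ (δ - 2) * M.gr H ρ ρ x) ∂M.mu H ≠ ⊤ := by
  have I := (mMU n M H hH.toMet).2.2.2.2.1 ℝ
  obtain ⟨K, hK⟩ := energy hH h hδ
  have g0 := gr_nn hH.toMet h.sm
  have dk : ∀ k : ℕ, 1 / ((k : ℝ) + 1) ∈ Ioc (0 : ℝ) 1 := fun k =>
    ⟨by positivity, by rw [div_le_one (by positivity)]; linarith [k.cast_nonneg (α := ℝ)]⟩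
  have p : ∀ (k : ℕ) x, 0 < ρ x + 1 / ((k : ℝ) + 1) := fun k x =>
    add_pos_of_nonneg_of_pos (h.nn x) (dk k).1
  have c : ∀ k : ℕ, Continuous fun x => (ρ x + 1 / ((k : ℝ) + 1)) ^ (δ - 2) * M.gr H ρ ρ x :=
    fun k => ((h.sm.continuous.add continuous_const).rpow_const fun x => Or.inl (p k x).ne').mul
      (gr_cont hH.toMet h.sm)
  refine ne_top_of_le_ne_top (ENNReal.ofReal_ne_top (r := K)) ?_
  refine (lintegral_mono fun x => ?_).trans ((lintegral_liminf_le (u := atTop)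
    fun k => (c k).measurable.ennreal_ofReal).trans
      (liminf_le_of_frequently_le' (Frequently.of_forall fun k => ?_)))
  · rcases (h.nn x).eq_or_lt with k | k
    · rw [← k, Real.zero_rpow (sub_ne_zero.2 h2), zero_mul, ENNReal.ofReal_zero]
      exact zero_le
    · refine (Tendsto.liminf_eq (ENNReal.tendsto_ofReal (Tendsto.mul_const _ ?_))).ge
      have := (tendsto_one_div_add_atTop_nhds_zero_nat (𝕜 := ℝ)).const_add (ρ x)
      rw [add_zero] at this
      exact this.rpow_const (Or.inl k.ne')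
  · rw [← ofReal_integral_eq_lintegral_ofReal (I _ (c k)) (Eventually.of_forall fun x =>
      mul_nonneg (Real.rpow_pos_of_pos (p k x) _).le (g0 x))]
    exact ENNReal.ofReal_le_ofReal (hK _ (dk k))

omit [M.Cpt] in
theorem dl_nn (h0 : ∀ x, 0 ≤ ρ x) (x : M.X) : 0 ≤ √(M.gr H ρ ρ x) / ρ x :=
  div_nonneg (Real.sqrt_nonneg _) (h0 x)

omit [M.Cpt] in
theorem dl_meas (hH : M.Met H) (hρ : M.Sm ρ) : Measurable fun x => √(M.gr H ρ ρ x) / ρ x :=
  (gr_cont hH hρ).sqrt.measurable.div hρ.continuous.measurable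

/-- The gradient of the logarithm lies in `L^p` for `p < 2`. -/
theorem lp (hH : M.Kae H) (h : Pol M H ρ) {x₀ : M.X} (hx : ρ x₀ ≠ 0) {p : ℝ} (hp : 0 < p)
    (h2 : p < 2) : Integrable (fun x => (√(M.gr H ρ ρ x) / ρ x) ^ p) (M.mu H) := by
  obtain ⟨ε₀, e0, hε⟩ := KT.NEG.pol hH.toMet h hx
  have := (mMU n M H hH.toMet).2.1
  have g0 := gr_nn hH.toMet h.sm
  set ε := min ε₀ (p / (2 - p)) with he
  have q : 0 < 2 - p := sub_pos.2 h2
  have e1 : 0 < ε := lt_min e0 (by positivity)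
  have d0 : 0 < ε * (2 - p) / p := by positivity
  have d1 : ε * (2 - p) / p ≤ 1 := by
    rw [div_le_one hp, ← le_div_iff₀ q]
    exact min_le_right _ _
  have F := fatou hH h d0 (by linarith)
  refine ⟨((dl_meas hH.toMet h.sm).pow_const p).aestronglyMeasurable, ?_⟩
  have m1 : Measurable fun y => ENNReal.ofReal (ρ y) ^ (-ε₀) :=
    h.sm.continuous.measurable.ennreal_ofReal.pow_const _
  refine lt_of_le_of_lt (lintegral_mono (g := fun x => ENNReal.ofReal
    (ρ x ^ (ε * (2 - p) / p - 2) * M.gr H ρ ρ x) + (ENNReal.ofReal (ρ x) ^ (-ε₀) + 1))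
      fun x => ?_) ?_
  · beta_reduce
    rw [Real.enorm_eq_ofReal (Real.rpow_nonneg (dl_nn h.nn x) p)]
    rcases (h.nn x).eq_or_lt with k | k
    · rw [← k, div_zero, Real.zero_rpow hp.ne', ENNReal.ofReal_zero]
      exact zero_le
    · have y := young (ε := ε) (dl_nn (H := H) h.nn x) k hp h2
      have a1 : ρ x ^ (ε * (2 - p) / p) * (√(M.gr H ρ ρ x) / ρ x) ^ 2 =
          ρ x ^ (ε * (2 - p) / p - 2) * M.gr H ρ ρ x := by
        rw [div_pow, Real.sq_sqrt (g0 x), Real.rpow_sub k, Real.rpow_two]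
        ring
      have a2 : ρ x ^ (-ε) ≤ ρ x ^ (-ε₀) + 1 := by
        have b := Real.rpow_pos_of_pos k (-ε₀)
        rcases le_total (ρ x) 1 with l | l
        · have := Real.rpow_le_rpow_of_exponent_ge k l (neg_le_neg (min_le_left ε₀ (p / (2 - p))))
          linarith
        · have := Real.rpow_le_one_of_one_le_of_nonpos l (neg_nonpos.2 e1.le)
          linarith
      rw [ENNReal.ofReal_rpow_of_pos k, ← ENNReal.ofReal_one,
        ← ENNReal.ofReal_add (Real.rpow_pos_of_pos k _).le zero_le_one,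
        ← ENNReal.ofReal_add (mul_nonneg (Real.rpow_pos_of_pos k _).le (g0 x))
          (by have := Real.rpow_pos_of_pos k (-ε₀); positivity)]
      exact ENNReal.ofReal_le_ofReal (by linarith)
  · have m2 : Measurable fun y => ENNReal.ofReal (ρ y) ^ (-ε₀) + 1 := m1.add measurable_const
    rw [lintegral_add_right _ m2, lintegral_add_right _ measurable_const, lintegral_one]
    exact ENNReal.add_lt_top.2 ⟨F.lt_top, ENNReal.add_lt_top.2 ⟨hε.lt_top, measure_lt_top _ _⟩⟩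

/-- Uniform integrability of the gradient of the logarithm against functions in `L^6`. -/
theorem ui (hH : M.Kae H) (h : Pol M H ρ) {x₀ : M.X} (hx : ρ x₀ ≠ 0) {η : ℝ} (hη : 0 < η)
    (A : ℝ) : ∃ δ : ℝ, 0 < δ ∧ ∀ (S : Set M.X) (w : M.X → ℝ), MeasurableSet S →
      (M.mu H).real S ≤ δ → (∀ x, 0 ≤ w x) → Continuous w → ∫ x, w x ^ 6 ∂M.mu H ≤ A →
      Integrable (fun x => (1 + √(M.gr H ρ ρ x) / ρ x) * w x) (M.mu H) ∧
        ∫ x in S, (1 + √(M.gr H ρ ρ x) / ρ x) * w x ∂M.mu H ≤ η := by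
  have := (mMU n M H hH.toMet).2.1
  have I := (mMU n M H hH.toMet).2.2.2.2.1 ℝ
  have m := (dl_meas hH.toMet h.sm).aestronglyMeasurable (μ := M.mu H)
  have a := one_add (dl_nn h.nn) m (lp hH h hx (by norm_num) (by norm_num))
  have b : ∀ x, 0 ≤ 1 + √(M.gr H ρ ρ x) / ρ x := fun x => add_nonneg zero_le_one (dl_nn h.nn x)
  obtain ⟨δ, d0, k⟩ := uis b (aestronglyMeasurable_const.add m) a hη A
  exact ⟨δ, d0, fun S w hS hd w0 wc hA => ⟨int_mul b (aestronglyMeasurable_const.add m) a w0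
    wc.aestronglyMeasurable (I _ (wc.pow 6)),
    k S w hS hd w0 wc.aestronglyMeasurable (I _ (wc.pow 6)) hA⟩⟩

/-- The norm of a holomorphic section that is not zero. -/
theorem sec {σ : Type} [Fintype σ] [DecidableEq σ] (hH : M.Met H) {b : Bun M σ} (hb : b.Ok)
    {s : M.Fam (σ → ℂ)} (hs : b.Sec s) (hol : Hol s) (nz : Nz s) :
    Pol M H (b.pn s) ∧ ∃ x₀, b.pn s x₀ ≠ 0 := by
  obtain ⟨e, he, z, hz, h0⟩ := nz
  exact ⟨NU4.Nm43.pol' hH hb hs hol, _, fun h => h0 (((NU4.Nm43.pn_rep hb hs).2.2.2 e he z hz).1 h)⟩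

end Pool.Agent.Lib.N4S.Lp75
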