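import Pool.Agent.Lib.NU4.B_QQL
import Pool.Agent.Lib.NU4.Dv37

/-! Project n4s: the pairing of an almost parallel vector field with a form that is exact outside
the zero set of a smooth function, by truncation of the primitive. -/

open scoped Classical Topology ContDiff ComplexOrder Matrix
open Set Filter MeasureTheory

set_option linter.unusedVariables false

noncomputable section

namespace Pool.Agent.Lib.N4S.P44

open Pool.Agent.Lib.SV (E)
open Pool.Agent.Lib.HS32 Pool.Agent.Lib.HLK Pool.Agent.Lib.F4 Pool.Agent.Lib.NU4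

variable {n : ℕ}

theorem dmul {V : E n → E n} {f g : E n → ℂ} {z : E n} (hf : DifferentiableAt ℝ f z)
    (hg : DifferentiableAt ℝ g z) :
    dir V (fun w => f w * g w) z = dir V f z * g z + f z * dir V g z := by
  simp only [dir, dz_mul hf hg, Finset.sum_mul, Finset.mul_sum, ← Finset.sum_add_distrib]
  exact Finset.sum_congr rfl fun k _ => by ring

theorem dcomp {V : E n → E n} {u : E n → ℝ} {φ : ℝ → ℝ} {c : ℝ} {z : E n}
    (h : HasDerivAt φ c (u z)) (hu : DifferentiableAt ℝ u z) :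
    dir V (fun w => (φ (u w) : ℂ)) z = c * dir V (fun w => (u w : ℂ)) z := by
  simp only [dir, dz_comp_real h hu, Finset.mul_sum]
  exact Finset.sum_congr rfl fun k _ => by ring

theorem dre {u : E n → ℝ} {z : E n} (hu : DifferentiableAt ℝ u z) :
    DifferentiableAt ℝ (fun w => (u w : ℂ)) z :=
  Complex.ofRealCLM.differentiableAt.comp z hu

/-- The divergence of the test field. -/
theorem loc {W : E n → E n} {s : E n → ℂ} {ν Φ : E n → ℝ} {z : E n} {χ : ℝ → ℝ} (d R : ℝ)
    (c : Differentiable ℝ χ) (hW : ∀ i, DifferentiableAt ℝ (fun w => W w i) z)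
    (hs : DifferentiableAt ℝ s z) (hν : DifferentiableAt ℝ ν z) (hΦ : DifferentiableAt ℝ Φ z) :
    dv (fun w => ((χ (d * ν w) : ℂ) * ((1 - χ (R * (Complex.normSq (s w) * Real.exp (-Φ w) ^ 2)) : ℝ) *
      ((Real.exp (-Φ w) : ℝ) * star (s w)))) • W w) z =
    (χ (d * ν z) : ℂ) * (1 - χ (R * (Complex.normSq (s z) * Real.exp (-Φ z) ^ 2)) : ℝ) *
        (Real.exp (-Φ z) : ℝ) * (dir W (fun w => star (s w)) z -
          star (s z) * (dir W (fun w => (Φ w : ℂ)) z - dv W z)) +
      (deriv χ (d * ν z) * d : ℝ) * (1 - χ (R * (Complex.normSq (s z) * Real.exp (-Φ z) ^ 2)) : ℝ) *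
        (Real.exp (-Φ z) : ℝ) * star (s z) * dir W (fun w => (ν w : ℂ)) z -
      (χ (d * ν z) : ℂ) * (deriv χ (R * (Complex.normSq (s z) * Real.exp (-Φ z) ^ 2)) * R : ℝ) *
        (Real.exp (-Φ z) : ℝ) ^ 3 * star (s z) * (star (s z) * (dir W s z - 2 * dv W z * s z -
          2 * s z * (dir W (fun w => (Φ w : ℂ)) z - dv W z)) + s z * dir W (fun w => star (s w)) z) := by
  have hs' := diff_star hs
  have e1 : DifferentiableAt ℝ (fun w => Real.exp (-Φ w)) z := hΦ.neg.exp
  have ns : (fun w => Complex.normSq (s w)) = fun w => (s w * star (s w)).re := funext fun w => by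
    rw [RCLike.star_def, Complex.mul_conj, Complex.ofReal_re]
  have n1 : DifferentiableAt ℝ (fun w => Complex.normSq (s w)) z := by
    rw [ns]; exact Complex.reCLM.differentiableAt.comp z (hs.mul hs')
  have t1 : DifferentiableAt ℝ (fun w => Complex.normSq (s w) * Real.exp (-Φ w) ^ 2) z :=
    n1.mul (e1.pow 2)
  have a1 : HasDerivAt (fun t => χ (d * t)) (deriv χ (d * ν z) * d) (ν z) := by
    have := (c _).hasDerivAt.comp (ν z) ((hasDerivAt_id (ν z)).const_mul d)
    rwa [mul_one] at this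
  have a2 : ∀ t, HasDerivAt (fun t => 1 - χ (R * t)) (-(deriv χ (R * t) * R)) t := fun t => by
    have := (c _).hasDerivAt.comp t ((hasDerivAt_id t).const_mul R)
    rw [mul_one] at this
    exact this.const_sub 1
  have a3 : HasDerivAt (fun t => Real.exp (-t)) (-Real.exp (-Φ z)) (Φ z) := by
    have := (hasDerivAt_neg (Φ z)).exp
    rwa [mul_neg, mul_one] at this
  have d1 := dre (a1.differentiableAt.comp z hν)
  have d2 := dre ((a2 _).differentiableAt.comp z t1)
  have d3 := dre e1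
  simp only [Function.comp_def] at d1 d2
  have dE := dcomp (V := W) a3 hΦ
  have dτ : dir W (fun w => ((Complex.normSq (s w) * Real.exp (-Φ w) ^ 2 : ℝ) : ℂ)) z =
      (dir W s z * star (s z) + s z * dir W (fun w => star (s w)) z) * (Real.exp (-Φ z) : ℝ) ^ 2 +
        s z * star (s z) * (-2 * (Real.exp (-Φ z) : ℝ) ^ 2 * dir W (fun w => (Φ w : ℂ)) z) := by
    have : (fun w => ((Complex.normSq (s w) * Real.exp (-Φ w) ^ 2 : ℝ) : ℂ)) = fun w =>
        s w * star (s w) * ((Real.exp (-Φ w) : ℝ) * (Real.exp (-Φ w) : ℝ)) := funext fun w => by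
      rw [RCLike.star_def, Complex.mul_conj, Complex.ofReal_mul, Complex.ofReal_pow, sq]
    rw [this, dmul (hs.fun_mul hs') (d3.fun_mul d3), dmul hs hs', dmul d3 d3, dE, Complex.ofReal_neg]
    ring
  have g : dv (fun w => ((χ (d * ν w) : ℂ) *
      ((1 - χ (R * (Complex.normSq (s w) * Real.exp (-Φ w) ^ 2)) : ℝ) *
      ((Real.exp (-Φ w) : ℝ) * star (s w)))) • W w) z = _ := Finset.sum_congr rfl fun j _ =>
    dz_mul (j := j) (d1.fun_mul (d2.fun_mul (d3.fun_mul hs'))) (hW j)
  rw [g, Finset.sum_add_distrib, ← Finset.mul_sum,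
    Finset.sum_congr rfl fun j _ => mul_comm _ (W z j)]
  change dir W _ z + _ * dv W z = _
  rw [dmul d1 (d2.fun_mul (d3.fun_mul hs')), dmul d2 (d3.fun_mul hs'), dmul d3 hs', dcomp a1 hν,
    dcomp (a2 _) t1, dτ, dE]
  simp only [Complex.ofReal_neg]
  ring

/-- The pointwise estimate. -/
theorem est {a a' b b' e D K ρ p B r : ℝ} {s X P N V : ℂ} (e0 : 0 < e) (D0 : 0 < D) (ρ0 : 0 ≤ ρ)
    (K0 : 0 ≤ K) (ha : |a| ≤ 1) (hb : |b| ≤ 2) (hb' : |b' * (Complex.normSq s * (e / D) ^ 2)| ≤ K)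
    (h1 : b ≠ 0 ∨ b' ≠ 0 → ‖s‖ * (e / D) ≤ ρ) (hp : ‖P‖ / D ≤ p) (hX : e * ‖X‖ / D ^ 2 ≤ B)
    (hN : e * ‖N‖ / D ^ 2 ≤ B) (hV : |a'| * ‖V‖ / D ≤ r) :
    ‖((a : ℂ) * b * (e / D : ℝ) * (X - star s * P) + (a' : ℂ) * b * (e / D : ℝ) * star s * V -
      (a : ℂ) * b' * (e / D : ℝ) ^ 3 * star s * (star s * (N - 2 * s * P) + s * X)) / D -
        (e * X / D ^ 2)‖ ≤ |a * b - 1| * B + 2 * |b' * (Complex.normSq s * (e / D) ^ 2)| * B +
          (2 + 2 * K) * ρ * p + 2 * ρ * r := by
  have hD : (D : ℂ) ≠ 0 := by exact_mod_cast D0.ne'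
  have p0 : 0 ≤ p := (by positivity : 0 ≤ ‖P‖ / D).trans hp
  have r0 : 0 ≤ r := (by positivity : 0 ≤ |a'| * ‖V‖ / D).trans hV
  set t : ℝ := b' * (Complex.normSq s * (e / D) ^ 2) with ht
  have q : ((a : ℂ) * b * (e / D : ℝ) * (X - star s * P) + (a' : ℂ) * b * (e / D : ℝ) * star s * V -
      (a : ℂ) * b' * (e / D : ℝ) ^ 3 * star s * (star s * (N - 2 * s * P) + s * X)) / D -
        (e * X / D ^ 2) = ((a * b - 1 : ℝ) : ℂ) * (e * X / D ^ 2) -
        a * (b * ((e / D : ℝ) * star s)) * (P / D) + (b * ((e / D : ℝ) * star s)) * (a' * V / D) -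
        a * (b' * (star s * (e / D : ℝ)) ^ 2) * (e * N / D ^ 2) +
        2 * a * (t * ((e / D : ℝ) * star s)) * (P / D) - a * t * (e * X / D ^ 2) := by
    rw [ht]
    push_cast
    rw [← Complex.mul_conj, ← RCLike.star_def]
    field_simp
    ring
  have nX : ‖(e * X / D ^ 2 : ℂ)‖ ≤ B := by
    rwa [norm_div, norm_mul, norm_pow, Complex.norm_real, Complex.norm_real,
      Real.norm_of_nonneg e0.le, Real.norm_of_nonneg D0.le]
  have nN : ‖(e * N / D ^ 2 : ℂ)‖ ≤ B := by
    rwa [norm_div, norm_mul, norm_pow, Complex.norm_real, Complex.norm_real,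
      Real.norm_of_nonneg e0.le, Real.norm_of_nonneg D0.le]
  have nP : ‖(P / D : ℂ)‖ ≤ p := by
    rwa [norm_div, Complex.norm_real, Real.norm_of_nonneg D0.le]
  have nV : ‖(a' * V / D : ℂ)‖ ≤ r := by
    rwa [norm_div, norm_mul, Complex.norm_real, Complex.norm_real, Real.norm_of_nonneg D0.le]
  have ns : ‖((e / D : ℝ) * star s : ℂ)‖ = ‖s‖ * (e / D) := by
    rw [norm_mul, norm_star, Complex.norm_real, Real.norm_of_nonneg (by positivity), mul_comm]
  have n1 : ‖(b * ((e / D : ℝ) * star s) : ℂ)‖ ≤ 2 * ρ := by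
    by_cases h : b = 0
    · rw [h, Complex.ofReal_zero, zero_mul, norm_zero]; positivity
    · rw [norm_mul, ns, Complex.norm_real]
      exact mul_le_mul hb (h1 (Or.inl h)) (by positivity) two_pos.le
  have n2 : ‖(t * ((e / D : ℝ) * star s) : ℂ)‖ ≤ K * ρ := by
    by_cases h : b' = 0
    · rw [ht, h, zero_mul, Complex.ofReal_zero, zero_mul, norm_zero]; positivity
    · rw [norm_mul, ns, Complex.norm_real]
      exact mul_le_mul hb' (h1 (Or.inr h)) (by positivity) K0
  have n3 : ‖(b' * (star s * (e / D : ℝ)) ^ 2 : ℂ)‖ = |t| := by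
    rw [norm_mul, norm_pow, mul_comm (star s), ns, Complex.norm_real, ht, abs_mul, mul_pow,
      Complex.normSq_eq_norm_sq, abs_of_nonneg (a := ‖s‖ ^ 2 * _) (by positivity)]
    rfl
  have na : ‖(a : ℂ)‖ ≤ 1 := by rwa [Complex.norm_real]
  have nt : ‖(t : ℂ)‖ = |t| := Complex.norm_real t
  have m : ∀ {x y : ℂ} {u v : ℝ}, ‖x‖ ≤ u → ‖y‖ ≤ v → ‖x * y‖ ≤ u * v := fun h h' =>
    (norm_mul_le _ _).trans (mul_le_mul h h' (norm_nonneg _) ((norm_nonneg _).trans h))
  have c1 := m (Complex.norm_real (a * b - 1)).le nX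
  have c2 := m (m na n1) nP
  have c3 := m n1 nV
  have c4 := m (m na n3.le) nN
  have c5 := m (m (m (Complex.norm_two).le na) n2) nP
  have c6 := m (m na nt.le) nX
  rw [q]
  refine (norm_sub_le _ _).trans ((add_le_add_left ((norm_add_le _ _).trans (add_le_add_left
    ((norm_sub_le _ _).trans (add_le_add_left ((norm_add_le _ _).trans (add_le_add_left
      (norm_sub_le _ _) _)) _)) _)) _).trans ?_)
  rw [Real.norm_eq_abs] at c1
  linarith

/-- Integrals over small sublevel sets. -/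
theorem shr {Y : Type} [TopologicalSpace Y] [MeasurableSpace Y] [OpensMeasurableSpace Y]
    (μ : Measure Y) {ν : Y → ℝ} (cν : Continuous ν) (h0 : ∀ x, 0 ≤ ν x)
    (hz : μ {x | ν x = 0} = 0) {f : Y → ℝ} (hf : Integrable f μ) {η : ℝ} (hη : 0 < η) :
    ∀ᶠ k : ℕ in atTop, ∫ x in {x | ν x ≤ 2 * (1 / ((k : ℝ) + 1))}, f x ∂μ < η := by
  have t := tendsto_setIntegral_of_antitone (μ := μ) (f := f)
    (s := fun k : ℕ => {x | ν x ≤ 2 * (1 / ((k : ℝ) + 1))})
    (fun k => measurableSet_le cν.measurable measurable_const)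
    (fun a b hab x (hx : ν x ≤ _) => show ν x ≤ _ from le_trans hx (mul_le_mul_of_nonneg_left
      (Nat.one_div_le_one_div hab) zero_le_two)) ⟨0, hf.integrableOn⟩
  rw [setIntegral_measure_zero _ (measure_mono_null (fun x hx => by
    have l := (tendsto_one_div_add_atTop_nhds_zero_nat (𝕜 := ℝ)).const_mul 2
    rw [mul_zero] at l
    exact le_antisymm (ge_of_tendsto' l fun j => mem_iInter.1 hx j) (h0 x)) hz)] at t
  exact t.eventually (gt_mem_nhds hη)

variable {M : Mf n}

theorem cat {f : M.X → ℝ} {x : M.X} (h : ContinuousAt (f ∘ (M.ch x).symm) (M.ch x x)) :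
    ContinuousAt f x := by
  refine (h.comp ((M.ch x).continuousAt (Mf.mem_ch x))).congr ?_
  filter_upwards [(M.ch x).open_source.mem_nhds (Mf.mem_ch x)] with y hy
  simp only [Function.comp, (M.ch x).left_inv hy]

/-- The pairing tends to zero. -/
theorem pairS {ι : Type} (l : Filter ι) [hM : M.Cpt] {H : M.Fam (Mat n)} (hH : M.Met H)
    {W : M.Fam (E n)} (hW : HT M 2 W) (ν : M.X → ℝ) (sν : M.Sm ν) (h0 : ∀ x, 0 ≤ ν x)
    (hz : M.mu H {x | ν x = 0} = 0) (r : M.X → ℝ) (ir : Integrable r (M.mu H))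
    (br : ∀ x, ν x ≠ 0 →
      M.ev (fun e z => ‖dir (W e) (M.lc ν e) z‖ / (H e z).det.re) x ≤ r x * ν x)
    (s : M.Fam ℂ) (sm : M.All fun e z => ν (e.symm z) ≠ 0 → ContDiffAt ℝ ∞ (s e) z)
    (cmp : M.Ov fun e e' x => ν x ≠ 0 → s e' (e' x) = jd M e e' x ^ 2 * s e (e x))
    (u p B : ι → M.X → ℝ) (X : ι → M.X → ℂ)
    (hj : ∀ᶠ j in l, (M.All fun e z => ν (e.symm z) ≠ 0 → ContDiffAt ℝ ∞ (u j ∘ e.symm) z) ∧
      AEStronglyMeasurable (X j) (M.mu H) ∧ Integrable (B j) (M.mu H) ∧ ∀ x, ν x ≠ 0 →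
        M.ev (fun e z => ‖dir (W e) (fun w => ld (H e) w + M.lc (u j) e w) z - dv (W e) z‖ /
          (H e z).det.re) x ≤ p j x ∧
        X j x = Real.exp (-u j x) *
          M.ev (fun e z => dir (W e) (fun w => star (s e w)) z / (H e z).det ^ 2) x ∧
        ‖X j x‖ ≤ B j x ∧ Real.exp (-u j x) * M.ev (fun e z =>
          ‖dir (W e) (s e) z - 2 * dv (W e) z * s e z‖ / (H e z).det.re ^ 2) x ≤ B j x)
    (tp : ∀ d > (0 : ℝ), (∀ᶠ j in l, IntegrableOn (p j) {x | d ≤ ν x} (M.mu H)) ∧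
      Tendsto (fun j => ∫ x in {x | d ≤ ν x}, p j x ∂M.mu H) l (𝓝 0))
    (tg : ∀ δ > (0 : ℝ), ∃ R : ℝ, ∀ᶠ j in l, (M.mu H).real {x | u j x ≤ -R} ≤ δ)
    (ui : ∀ η > (0 : ℝ), ∃ δ > (0 : ℝ), ∀ᶠ j in l, ∀ A, MeasurableSet A →
      (M.mu H).real A ≤ δ → ∫ x in A, B j x ∂M.mu H ≤ η) :
    Tendsto (fun j => ∫ x, X j x ∂M.mu H) l (𝓝 0) := by
  obtain ⟨χ, K, c, K0, b1, z1, o2, bK⟩ := D37.cut
  have z2 : ∀ t < (1 : ℝ), deriv χ t = 0 := fun t ht => by
    have : χ =ᶠ[𝓝 t] fun _ => 0 := (gt_mem_nhds ht).mono fun y hy => z1 y hy.le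
    rw [this.deriv_eq, deriv_const]
  have := (mMU n M H hH).2.1
  have itg := (mMU n M H hH).2.2.2.2.1
  have cν := sν.continuous
  have wt1 : M.Wt 1 (F4.ph M H) := (mINV n M H hH).2.2.2.2.2.2.1
  have sW : M.All fun e z => ∀ i, ContDiffAt ℝ ∞ (fun w => W e w i) z := fun e he z hz i =>
    ((mHOL n _ z).2.2 (hW.hol e he z hz i)).1
  have nj : M.Ov fun e e' x => 0 < Complex.normSq (jd M e e' x) := fun e he e' he' x hx hx' =>
    Complex.normSq_pos.2 ((mTR n M).2.1 e he e' he' x hx hx').2.1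
  have lw : M.Ov fun e e' x => Real.exp (-F4.ph M H e' (e' x)) =
      Real.exp (-F4.ph M H e (e x)) / Complex.normSq (jd M e e' x) :=
    fun e he e' he' x hx hx' => by
      beta_reduce
      rw [wt1.cmp e he e' he' x hx hx', one_mul, neg_add, Real.exp_add, Real.exp_neg (Real.log _),
        Real.exp_log (nj e he e' he' x hx hx'), div_eq_mul_inv]
  set σ : M.X → ℝ := M.ev fun e z => Complex.normSq (s e z) * Real.exp (-F4.ph M H e z) ^ 2
    with hσ
  have sl : M.Ov fun e e' x => ν x ≠ 0 → Complex.normSq (s e' (e' x)) *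
      Real.exp (-F4.ph M H e' (e' x)) ^ 2 =
      Complex.normSq (s e (e x)) * Real.exp (-F4.ph M H e (e x)) ^ 2 :=
    fun e he e' he' x hx hx' h => by
      have := (nj e he e' he' x hx hx').ne'
      rw [cmp e he e' he' x hx hx' h, lw e he e' he' x hx hx', map_mul, map_pow]
      field_simp
  have sn : ∀ {f : E n → ℂ} {z}, ContDiffAt ℝ ∞ f z →
      ContDiffAt ℝ ∞ (fun w => Complex.normSq (f w)) z := fun {f z} h =>
    (cd_re (h.mul (cd_star h))).congr_of_eventuallyEq (Eventually.of_forall fun w => by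
      simp only [RCLike.star_def, Complex.mul_conj, Complex.ofReal_re])
  have cσ : ∀ x, ν x ≠ 0 → ContinuousAt σ x := fun x h => cat (by
    have h' : ν ((M.ch x).symm (M.ch x x)) ≠ 0 := by rwa [Mf.ch_symm]
    refine ((sn (sm.ch x h')).mul ((wt1.sm.ch x).neg.exp.pow 2)).continuousAt.congr ?_
    filter_upwards [(sν.ch x).continuousAt.eventually_ne h',
      (M.ch x).open_target.mem_nhds ((M.ch x).map_source (Mf.mem_ch x))] with w h1 h2
    have := sl _ (Mf.ch_mem x) _ (Mf.ch_mem ((M.ch x).symm w)) _ ((M.ch x).map_target h2)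
      (Mf.mem_ch _) h1
    rw [(M.ch x).right_inv h2] at this
    exact this.symm)
  have cl : ∀ d : ℝ, IsClosed {x | d ≤ ν x} := fun d => isClosed_le continuous_const cν
  have ms : ∀ d : ℝ, MeasurableSet {x | ν x ≤ d} := fun d =>
    measurableSet_le cν.measurable measurable_const
  rw [NormedAddGroup.tendsto_nhds_zero]
  intro ε hε
  obtain ⟨δ, δ0, hδ⟩ := ui (ε / (4 * (3 + 2 * K))) (by positivity)
  obtain ⟨k0, hk0⟩ := (shr (M.mu H) cν h0 hz (integrable_const (1 : ℝ))
    (half_pos δ0)).exists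
  rw [setIntegral_const, smul_eq_mul, mul_one] at hk0
  have d0 : (0 : ℝ) < 1 / ((k0 : ℝ) + 1) := by positivity
  obtain ⟨T, hT⟩ := (cl (1 / ((k0 : ℝ) + 1))).isCompact.exists_bound_of_continuousOn
    (f := σ) fun x hx => (cσ x (d0.trans_le hx).ne').continuousWithinAt
  obtain ⟨R0, hR0⟩ := tg (δ / 2) (half_pos δ0)
  set R : ℝ := (|T| + 1) * Real.exp R0 ^ 2 with hR
  have Rp : 0 < R := by positivity
  set ρ : ℝ := √(2 * R) with hρ
  have ρ0 : 0 ≤ ρ := Real.sqrt_nonneg _
  obtain ⟨k, hk, kk⟩ := ((shr (M.mu H) cν h0 hz ir (η := ε / (4 * (2 * ρ * K + 1)))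
    (by positivity)).and (eventually_ge_atTop k0)).exists
  have dd : 1 / ((k : ℝ) + 1) ≤ 1 / ((k0 : ℝ) + 1) := Nat.one_div_le_one_div kk
  have dp : (0 : ℝ) < 1 / ((k : ℝ) + 1) := by positivity
  generalize 1 / ((k : ℝ) + 1) = d at hk dd dp
  generalize 1 / ((k0 : ℝ) + 1) = d' at hk0 dd d0 hT
  filter_upwards [hj, hδ, hR0, (tp d dp).1, (tp d dp).2.eventually
    (gt_mem_nhds (show (0 : ℝ) < ε / (4 * ((2 + 2 * K) * ρ + 1)) by positivity))]
    with j ⟨su, mX, iB, hx⟩ hA hu ip bp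
  set Φ : M.Fam ℝ := fun e z => F4.ph M H e z + u j (e.symm z) with hΦ
  have sΦ : M.All fun e z => ν (e.symm z) ≠ 0 → ContDiffAt ℝ ∞ (Φ e) z := fun e he z hz h =>
    (wt1.sm e he z hz).add (su e he z hz h)
  have eΦ : ∀ e z, Real.exp (-Φ e z) = Real.exp (-F4.ph M H e z) * Real.exp (-u j (e.symm z)) :=
    fun e z => by rw [← Real.exp_add, ← neg_add]
  set Z : M.Fam (E n) := fun e w => ((χ (d⁻¹ * ν (e.symm w)) : ℂ) *
    ((1 - χ (R⁻¹ * (Complex.normSq (s e w) * Real.exp (-Φ e w) ^ 2)) : ℝ) *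
      ((Real.exp (-Φ e w) : ℝ) * star (s e w)))) • W e w with hZ
  have zk : M.All fun e z => ν (e.symm z) < d → Z e =ᶠ[𝓝 z] fun _ => 0 := fun e he z hz h => by
    have ca : ContinuousAt (fun w => ν (e.symm w)) z := (sν e he z hz).continuousAt
    refine (ca.eventually_lt continuousAt_const h).mono fun w hw => ?_
    have : d⁻¹ * ν (e.symm w) ≤ 1 := by rw [inv_mul_le_iff₀ dp]; linarith only [hw]
    simp only [hZ, z1 _ this, Complex.ofReal_zero, zero_mul, zero_smul]
  have vd : M.VDen Z := ⟨fun e he z hz => by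
      rcases lt_or_ge (ν (e.symm z)) d with h | h
      · exact contDiffAt_const.congr_of_eventuallyEq (zk e he z hz h)
      · have h' := (dp.trans_le h).ne'
        have s1 := (sΦ e he z hz h').neg.exp
        have s2 := sm e he z hz h'
        exact ((cd_ofReal (c.contDiffAt.comp z (contDiffAt_const.mul (sν e he z hz)))).mul
          ((cd_ofReal (contDiffAt_const.sub (c.contDiffAt.comp z (contDiffAt_const.mul
            ((sn s2).mul (s1.pow 2)))))).mul ((cd_ofReal s1).mul (cd_star s2)))).smul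
          (contDiffAt_pi.2 (sW e he z hz)),
    fun e he e' he' x hx hx' => by
      simp only [hZ, eΦ, e.left_inv hx, e'.left_inv hx', mul_pow, ← mul_assoc]
      by_cases h : ν x = 0
      · simp only [h, mul_zero, z1 0 zero_le_one, Complex.ofReal_zero, zero_mul, zero_smul,
          Matrix.mulVec_zero, smul_zero]
      · have q := sl e he e' he' x hx hx' h
        have q0 : ((Complex.normSq (jd M e e' x) : ℝ) : ℂ) ≠ 0 := by
          exact_mod_cast (nj e he e' he' x hx hx').ne'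
        rw [mul_assoc R⁻¹ (Complex.normSq _), q, ← mul_assoc R⁻¹, Matrix.mulVec_smul,
          hW.cmp e he e' he' x hx hx', cmp e he e' he' x hx hx' h, lw e he e' he' x hx hx',
          smul_smul, smul_smul]
        congr 1
        simp only [zpow_ofNat, star_mul', star_pow, Complex.ofReal_mul, Complex.ofReal_div]
        have q1 : star (jd M e e' x) * jd M e e' x = Complex.normSq (jd M e e' x) :=
          Complex.normSq_eq_conj_mul_self.symm
        field_simp
        rw [← q1]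
        ring⟩
  set D : M.X → ℂ := M.ev fun e z => dv (Z e) z / (H e z).det with hD
  have sD : M.Sm D := ((mDIV n M H hH).2.1 _ vd).2.1
  have iD : ∫ x, D x ∂M.mu H = 0 := ((mDIV n M H hH).2.1 _ vd).2.2 hM
  set A : Set M.X := {x | ν x ≤ 2 * d'} ∪ ({x | d' ≤ ν x} ∩
    (fun x => σ x * Real.exp (-u j x) ^ 2) ⁻¹' Ici R) with hA'
  have mA : MeasurableSet A := (ms _).union (ContinuousOn.preimage_isClosed_of_isClosed
    (fun x hx => by
      have h := (d0.trans_le hx).ne'
      exact ((cσ x h).mul ((cat (su.ch x (by rwa [Mf.ch_symm])).continuousAt).neg.rexp.pow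
        2)).continuousWithinAt) (cl d') isClosed_Ici).measurableSet
  have bA : (M.mu H).real A ≤ δ := by
    refine (measureReal_union_le _ _).trans ?_
    refine (add_le_add hk0.le ((measureReal_mono fun x hx => ?_).trans hu)).trans_eq (add_halves δ)
    have h1 : R ≤ σ x * Real.exp (-u j x) ^ 2 := hx.2
    have h2 : σ x ≤ |T| + 1 := by
      linarith only [le_abs_self T, (le_abs_self _).trans (hT x hx.1)]
    have h3 := le_of_mul_le_mul_left (h1.trans (mul_le_mul_of_nonneg_right h2 (sq_nonneg _)))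
      (by positivity : 0 < |T| + 1)
    have h4 := Real.exp_le_exp.1 (le_of_sq_le_sq h3 (Real.exp_pos _).le)
    exact le_neg.1 h4
  have pt : ∀ x, ν x ≠ 0 → ‖D x - X j x‖ ≤ A.indicator (fun x => (3 + 2 * K) * B j x) x +
      {x | d ≤ ν x}.indicator (fun x => (2 + 2 * K) * ρ * p j x) x +
      {x | ν x ≤ 2 * d}.indicator (fun x => 2 * ρ * K * r x) x := fun x h => by
    obtain ⟨x1, x2, x3, x4⟩ := hx x h
    have x5 := br x h
    have np : 0 < ν x := lt_of_le_of_ne (h0 x) (Ne.symm h)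
    have Dp := Mf.pd_det_re (hH.pos.ch x)
    have De := Mf.herm_det (hH.herm.ch x)
    have B0 : 0 ≤ B j x := (norm_nonneg _).trans x3
    simp only [Mf.ev] at x1 x2 x4 x5
    have r0 : 0 ≤ r x := nonneg_of_mul_nonneg_left (le_trans (by positivity) x5) np
    rcases lt_or_ge (ν x) d with h1 | h1
    · have := zk.ch x (by rwa [Mf.ch_symm])
      have e : dv (Z (M.ch x)) (M.ch x x) = 0 := Finset.sum_eq_zero fun i _ => by
        rw [dz_congr (g := fun _ => 0) (this.mono fun w hw => by simp only [hw, Pi.zero_apply]),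
          dz_const]
      rw [indicator_of_mem (show x ∈ A from Or.inl (show ν x ≤ _ by linarith only [h1, dd, dp])),
        indicator_of_notMem (show x ∉ {x | d ≤ ν x} from not_le.2 h1),
        indicator_of_mem (show x ∈ {x | ν x ≤ 2 * d} from show ν x ≤ _ by linarith only [h1, dp])]
      simp only [hD, Mf.ev, e, zero_div, zero_sub, norm_neg]
      linarith only [x3, B0, mul_nonneg K0 B0, mul_nonneg (mul_nonneg ρ0 K0) r0]
    have h' : ν ((M.ch x).symm (M.ch x x)) ≠ 0 := by rwa [Mf.ch_symm]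
    have L := loc (W := W (M.ch x)) (s := s (M.ch x)) (ν := fun w => ν ((M.ch x).symm w))
      (Φ := Φ (M.ch x)) (z := M.ch x x) d⁻¹ R⁻¹ (c.differentiable (by simp))
      (fun i => cd_diff (sW.ch x i)) (cd_diff (sm.ch x h')) (cd_diff (sν.ch x))
      ((sΦ.ch x h').differentiableAt (by simp))
    have eE : Real.exp (-Φ (M.ch x) (M.ch x x)) =
        Real.exp (-u j x) / (H (M.ch x) (M.ch x x)).det.re := by
      rw [eΦ, Mf.ch_symm, F4.ph, Real.exp_neg (Real.log _), Real.exp_log Dp, mul_comm,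
        div_eq_mul_inv]
    have eτ : σ x * Real.exp (-u j x) ^ 2 = Complex.normSq (s (M.ch x) (M.ch x x)) *
        (Real.exp (-u j x) / (H (M.ch x) (M.ch x x)).det.re) ^ 2 := by
      rw [← eE, eΦ, Mf.ch_symm, mul_pow, ← mul_assoc]
      rfl
    have eP : (fun w => ((Φ (M.ch x) w : ℝ) : ℂ)) =
        fun w => ld (H (M.ch x)) w + M.lc (u j) (M.ch x) w :=
      funext fun w => Complex.ofReal_add _ _
    rw [Mf.ch_symm, eE, eP] at L
    set τ := Complex.normSq (s (M.ch x) (M.ch x x)) *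
      (Real.exp (-u j x) / (H (M.ch x) (M.ch x x)).det.re) ^ 2 with hτ
    have τ0 : 0 ≤ R⁻¹ * τ := mul_nonneg (by positivity)
      (mul_nonneg (Complex.normSq_nonneg _) (sq_nonneg _))
    have k1 : |deriv χ (R⁻¹ * τ) * R⁻¹ * τ| ≤ K := by rw [mul_assoc]; exact bK _ τ0
    have k2 : |1 - χ (R⁻¹ * τ)| ≤ 2 :=
      (abs_sub _ _).trans (by linarith only [b1 (R⁻¹ * τ), abs_one (α := ℝ)])
    have E := est (a := χ (d⁻¹ * ν x)) (a' := deriv χ (d⁻¹ * ν x) * d⁻¹)
      (r := {x | ν x ≤ 2 * d}.indicator (fun x => K * r x) x) (B := B j x)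
      (X := dir (W (M.ch x)) (fun w => star (s (M.ch x) w)) (M.ch x x))
      (V := dir (W (M.ch x)) (M.lc ν (M.ch x)) (M.ch x x))
      (Real.exp_pos (-u j x)) Dp ρ0 K0 (b1 _) k2 k1 (fun q => by
        have : R⁻¹ * τ ≤ 2 := not_lt.1 fun q' => q.elim
          (fun q => q (by rw [(o2 _ q').1, sub_self])) fun q => q (by rw [(o2 _ q').2, zero_mul])
        rw [inv_mul_le_iff₀ Rp] at this
        refine Real.le_sqrt_of_sq_le ?_
        rw [mul_pow, ← Complex.normSq_eq_norm_sq]
        linarith only [this]) x1 (by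
        rw [x2, norm_mul, norm_div, norm_pow, ← De, Complex.norm_real, Complex.norm_real,
          Real.norm_of_nonneg Dp.le, Real.norm_of_nonneg (Real.exp_pos _).le,
          ← mul_div_assoc] at x3
        exact x3) (by rw [mul_div_assoc]; exact x4) (by
        by_cases q : ν x ≤ 2 * d
        · rw [indicator_of_mem (show x ∈ {x | ν x ≤ 2 * d} from q), mul_div_assoc]
          refine (mul_le_mul_of_nonneg_left x5 (abs_nonneg _)).trans ?_
          have := bK _ (mul_nonneg (inv_nonneg.2 dp.le) np.le)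
          rw [← mul_assoc, abs_mul _ (ν x), abs_of_pos np] at this
          linarith only [mul_le_mul_of_nonneg_right this r0]
        · rw [indicator_of_notMem (show x ∉ {x | ν x ≤ 2 * d} from q),
            (o2 _ (by rw [lt_inv_mul_iff₀ dp]; linarith only [not_le.1 q])).2]
          simp)
    have e1 : D x - X j x = _ := congrArg₂ (fun a b => a - b)
      (congrArg₂ (fun a b => a / b) L De.symm) (x2.trans (by rw [← De, ← mul_div_assoc]))
    rw [e1, indicator_of_mem (show x ∈ {x | d ≤ ν x} from h1)]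
    refine E.trans (add_le_add (add_le_add_left ?_ _) (le_of_eq ?_))
    · by_cases q : x ∈ A
      · rw [indicator_of_mem q]
        have : |χ (d⁻¹ * ν x) * (1 - χ (R⁻¹ * τ)) - 1| ≤ 3 := by
          refine (abs_sub _ _).trans ?_
          rw [abs_mul, abs_one]
          linarith only [mul_le_mul (b1 (d⁻¹ * ν x)) k2 (abs_nonneg _) zero_le_one]
        linarith only [mul_le_mul_of_nonneg_right this B0, mul_le_mul_of_nonneg_right k1 B0]
      · have q1 : 2 * d' < ν x := not_le.1 fun c => q (Or.inl c)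
        have q2 : R⁻¹ * τ < 1 := by
          rw [inv_mul_lt_iff₀ Rp, mul_one, ← eτ]
          exact not_le.1 fun c => q (Or.inr ⟨show d' ≤ ν x by linarith only [q1, d0], c⟩)
        rw [indicator_of_notMem q, z1 _ q2.le, z2 _ q2,
          (o2 (d⁻¹ * ν x) (by rw [lt_inv_mul_iff₀ dp]; linarith only [q1, dd])).1]
        simp
    · by_cases q : x ∈ {x | ν x ≤ 2 * d}
      · rw [indicator_of_mem q, indicator_of_mem q]; ring
      · rw [indicator_of_notMem q, indicator_of_notMem q, mul_zero]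
  have ae : ∀ᵐ x ∂M.mu H, ν x ≠ 0 := by
    rw [ae_iff]; simpa only [ne_eq, not_not] using hz
  have iX : Integrable (X j) (M.mu H) := iB.mono' mX (ae.mono fun x h => (hx x h).2.2.1)
  have i1 := (integrable_indicator_iff mA).2 (iB.const_mul (3 + 2 * K)).integrableOn
  have i2 := (integrable_indicator_iff (cl d).measurableSet).2 (ip.const_mul ((2 + 2 * K) * ρ))
  have i3 := (integrable_indicator_iff (ms (2 * d))).2 (ir.const_mul (2 * ρ * K)).integrableOn
  have f := norm_integral_le_of_norm_le ((i1.add i2).add i3) (ae.mono pt)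
  rw [integral_sub (itg _ _ sD.continuous) iX, iD, zero_sub, norm_neg, integral_add' (i1.add i2) i3,
    integral_add' i1 i2, integral_indicator mA, integral_indicator (cl d).measurableSet,
    integral_indicator (ms _), integral_const_mul, integral_const_mul, integral_const_mul] at f
  have g : ∀ {a b y : ℝ}, 0 ≤ a → a ≤ b → 0 < b → y ≤ ε / (4 * b) → a * y ≤ ε / 4 :=
    fun {a b y} a0 ab b0 hy => (mul_le_mul_of_nonneg_left hy a0).trans
      ((mul_le_mul_of_nonneg_right ab (by positivity)).trans_eq (by field_simp))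
  have g1 := g (by positivity) le_rfl (by positivity) (hA A mA bA)
  have g2 := g (a := (2 + 2 * K) * ρ) (by positivity) (le_add_of_nonneg_right zero_le_one)
    (by positivity) bp.le
  have g3 := g (a := 2 * ρ * K) (by positivity) (le_add_of_nonneg_right zero_le_one)
    (by positivity) hk.le
  linarith only [f, g1, g2, g3, hε]

end Pool.Agent.Lib.N4S.P44
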