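import Pool.Agent.Lib.N4S.Kit78
import Pool.Agent.Lib.N4S.Pair44
import Pool.Agent.Lib.N4S.Lp75
import Pool.Agent.Lib.NU4.Pa37
import Pool.Agent.Lib.NU4.B_IBP
import Pool.Agent.Lib.NU4.B_KIT
import Pool.Agent.Lib.NU4.B_PW

/-! Project n4s: functions whose logarithmic derivative along a field is integrable, and three
facts on measures. -/

open scoped Classical Topology ContDiff ComplexOrder Matrix
open Set Filter MeasureTheory

set_option linter.unusedVariables false

noncomputable section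

namespace Pool.Agent.Lib.N4S.Pa17

open Pool.Agent.Lib.SV (E)
open Pool.Agent.Lib.HS32 Pool.Agent.Lib.HLK Pool.Agent.Lib.F4 Pool.Agent.Lib.NU4
open Pool.Agent.Lib.K3E (kan wk lk)

section meas

variable {X : Type} [MeasurableSpace X] {μ : Measure X} [IsFiniteMeasure μ]

theorem tight {f : X → ℝ} (hf : Measurable f) {δ : ℝ} (hδ : 0 < δ) :
    ∀ᶠ k : ℕ in atTop, μ.real {x | f x ≤ -(k : ℝ)} ≤ δ := by
  have t := tendsto_measure_iInter_atTop (μ := μ) (s := fun k : ℕ => {x | f x ≤ -(k : ℝ)})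
    (fun k => (measurableSet_le hf measurable_const).nullMeasurableSet)
    (fun i j hij x (hx : f x ≤ _) => show f x ≤ _ from le_trans hx
      (neg_le_neg (Nat.cast_le.2 hij))) ⟨0, measure_ne_top _ _⟩
  have e : (⋂ k : ℕ, {x | f x ≤ -(k : ℝ)}) = ∅ := eq_empty_of_forall_notMem fun x hx => by
    obtain ⟨k, hk⟩ := exists_nat_gt (-f x)
    have : f x ≤ -(k : ℝ) := mem_iInter.1 hx k
    linarith
  rw [e, measure_empty] at t
  exact (((ENNReal.tendsto_toReal ENNReal.zero_ne_top).comp t).eventually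
    (gt_mem_nhds hδ)).mono fun k hk => hk.le

omit [IsFiniteMeasure μ] in
theorem markov {w : X → ℝ} (hw : Integrable (fun x => Real.exp (-w x)) μ) (R : ℝ) :
    μ.real {x | w x ≤ -R} ≤ Real.exp (-R) * ∫ x, Real.exp (-w x) ∂μ := by
  have h := mul_meas_ge_le_integral_of_nonneg
    (Eventually.of_forall fun x => (Real.exp_pos (-w x)).le) hw (Real.exp R)
  have e : {x | Real.exp R ≤ Real.exp (-w x)} = {x | w x ≤ -R} := by
    ext x
    simp only [mem_ofPred_eq, Real.exp_le_exp, le_neg]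
  rw [e] at h
  rw [Real.exp_neg R, ← div_eq_inv_mul, le_div_iff₀ (Real.exp_pos R), mul_comm]
  exact h

theorem uiw {r : ℝ} (r1 : 1 < r) (A : ℝ) {η : ℝ} (hη : 0 < η) : ∃ δ : ℝ, 0 < δ ∧
    ∀ (w : X → ℝ) (S : Set X), Integrable (fun x => Real.exp (-w x)) μ →
      Integrable (fun x => Real.exp (-(r * w x))) μ → ∫ x, Real.exp (-(r * w x)) ∂μ ≤ A →
      μ.real S ≤ δ → ∫ x in S, Real.exp (-w x) ∂μ ≤ η := by
  have c0 : 0 < r - 1 := sub_pos.2 r1
  obtain ⟨t, ht⟩ : ∃ t : ℝ, Real.exp (-((r - 1) * t)) = η / 2 / (|A| + 1) :=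
    ⟨-Real.log (η / 2 / (|A| + 1)) / (r - 1), by
      rw [mul_div_cancel₀ _ c0.ne', neg_neg, Real.exp_log (by positivity)]⟩
  have t0 := Real.exp_pos t
  refine ⟨η / 2 / Real.exp t, by positivity, fun w S i1 i2 hA hS => ?_⟩
  have i3 := i2.const_mul (η / 2 / (|A| + 1))
  have pt : ∀ x, Real.exp (-w x) ≤ Real.exp t + η / 2 / (|A| + 1) * Real.exp (-(r * w x)) :=
    fun x => by
      rw [← ht, ← Real.exp_add]
      rcases le_total (-w x) t with h | h
      · exact le_add_of_le_of_nonneg (Real.exp_le_exp.2 h) (Real.exp_pos _).le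
      · exact le_add_of_nonneg_of_le t0.le (Real.exp_le_exp.2 (by nlinarith))
  refine (integral_mono i1.integrableOn ((integrable_const _).add i3.integrableOn) pt).trans ?_
  simp only [Pi.add_apply]
  rw [integral_add (integrable_const _) i3.integrableOn, setIntegral_const, smul_eq_mul,
    integral_const_mul]
  have a1 : μ.real S * Real.exp t ≤ η / 2 := (le_div_iff₀ t0).1 hS
  have a2 := ((setIntegral_le_integral (s := S) i2 (Eventually.of_forall fun x =>
    (Real.exp_pos _).le)).trans hA).trans ((le_abs_self A).trans (le_add_of_nonneg_right zero_le_one))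
  have a3 := mul_le_mul_of_nonneg_left a2 (show 0 ≤ η / 2 / (|A| + 1) by positivity)
  rw [div_mul_cancel₀ _ (by positivity)] at a3
  linarith

end meas

variable {n : ℕ} {M : Mf n} {H : M.Fam (Mat n)} {W : M.Fam (E n)}

theorem la_vac (G : Mat n) : La G *ᵥ vac n = vac n :=
  (st_FK n 0 0 0 G 0 0).2.2.2.2.2.2.2.2.2.2.2.2.1

theorem pn_vac {L : M.Co} {φ : M.Fam ℝ} {T : M.Fam (Fs n → ℂ)} {x : M.X} {y : ℂ}
    (h : M.ev T x = y • vac n) :
    (lam H L φ).pn T x = Complex.normSq y * Real.exp (-M.ev φ x) := by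
  simp only [Bun.pn, Bun.pp, h]
  simp only [Mf.ev, lam, Matrix.smul_mulVec, Matrix.mulVec_smul, la_vac, star_smul,
    smul_dotProduct, dotProduct_smul, P37.vac_vac, smul_eq_mul, mul_one]
  rw [mul_left_comm, Complex.star_def, Complex.mul_conj, ← Complex.ofReal_mul,
    Complex.ofReal_re, mul_comm]

theorem vec_sec (hH : M.Met H) (hW : HT M 2 W) : (lk H 2).Sec (vec M W) :=
  ((st_KIT n M H 2 _ hH).1.1 ((st_KIT n M H 2 0 hH).2.1 W hW).1).1

/-- The derivative of a function along a field. -/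
theorem dirb [M.Cpt] (hH : M.Kae H) (hW : HT M 2 W) {v : M.X → ℝ} (hv : M.Sm v) (x : M.X) :
    M.ev (fun e z => ‖dir (W e) (M.lc v e) z‖ / (H e z).det.re) x ≤
      √(M.gr H v v x) * √((lk H 2).pn (vec M W) x) := by
  have h := (st_IBP st_KIT st_FK st_PW n M H 2 _ v v hH hv hv (vec_sec hH.toMet hW)).2.2.2.2.1 x
  have e : M.ev (iot M v (vec M W)) x =
      M.ev (fun e z => dir (W e) (M.lc v e) z) x • vac n := by
    simp only [Mf.ev, iot, vec, P37.an_cr, dir, dotProduct, gd, mul_comm]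
  have p := Mf.pd_det_re (hH.toMet.pos.ch x)
  rw [pn_vac e] at h
  rw [← Real.sqrt_mul (Lp75.gr_nn hH.toMet hv x)]
  refine Real.le_sqrt_of_sq_le (le_of_eq_of_le ?_ h)
  simp only [Mf.ev, wk]
  rw [Real.exp_neg, Real.exp_nat_mul, Real.exp_log p, Complex.normSq_eq_norm_sq, div_pow,
    div_eq_mul_inv]

variable (H W) in
/-- The logarithmic derivative along `W` is integrable. -/
structure Lg (ν : M.X → ℝ) : Prop where
  sm : M.Sm ν
  nn : ∀ x, 0 ≤ ν x
  nul : M.mu H {x | ν x = 0} = 0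
  br : ∃ r, Integrable r (M.mu H) ∧ ∀ x, ν x ≠ 0 →
    M.ev (fun e z => ‖dir (W e) (M.lc ν e) z‖ / (H e z).det.re) x ≤ r x * ν x

theorem Lg.mul (hH : M.Met H) {f g : M.X → ℝ} (hf : Lg H W f) (hg : Lg H W g) :
    Lg H W fun x => f x * g x := by
  obtain ⟨r, ir, hr⟩ := hf.br
  obtain ⟨s, is, hs⟩ := hg.br
  refine ⟨hf.sm.mul hg.sm, fun x => mul_nonneg (hf.nn x) (hg.nn x), measure_mono_null
    (fun x hx => mul_eq_zero.1 hx) (measure_union_null hf.nul hg.nul), r + s, ir.add is,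
    fun x hx => ?_⟩
  have a := mul_le_mul_of_nonneg_right (hr x (left_ne_zero_of_mul hx)) (hg.nn x)
  have b := mul_le_mul_of_nonneg_left (hs x (right_ne_zero_of_mul hx)) (hf.nn x)
  have p := Mf.pd_det_re (hH.pos.ch x)
  have d := P44.dmul (V := W (M.ch x)) (cd_diff (hf.sm.lc.ch x)) (cd_diff (hg.sm.lc.ch x))
  have e : M.lc (fun x => f x * g x) (M.ch x) =
      fun w => M.lc f (M.ch x) w * M.lc g (M.ch x) w := funext fun w => Complex.ofReal_mul _ _
  simp only [Mf.ev] at a b ⊢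
  rw [e, d]
  refine (div_le_div_of_nonneg_right (norm_add_le _ _) p.le).trans ?_
  simp only [norm_mul, Mf.lc, Mf.ch_symm, Complex.norm_real, Real.norm_of_nonneg (hf.nn x),
    Real.norm_of_nonneg (hg.nn x), Pi.add_apply] at a b ⊢
  rw [add_div, mul_div_right_comm, mul_div_assoc]
  linarith

theorem Lg.prod (hH : M.Met H) {J : Type} {f : M.X → ℝ} {g : J → M.X → ℝ} (hf : Lg H W f)
    (hg : ∀ k, Lg H W (g k)) (s : Finset J) : Lg H W fun x => f x * ∏ k ∈ s, g k x := by
  induction s using Finset.induction_on with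
  | empty => simpa only [Finset.prod_empty, mul_one] using hf
  | insert k s hk ih =>
    simpa only [Finset.prod_insert hk, mul_left_comm] using (hg k).mul hH ih

theorem lg_sec [M.Cpt] {σ : Type} [Fintype σ] [DecidableEq σ] (hH : M.Kae H) (hW : HT M 2 W)
    {b : Bun M σ} (hb : b.Ok) {s : M.Fam (σ → ℂ)} (hs : b.Sec s) (hol : Hol s) (nz : Nz s) :
    Lg H W (b.pn s) := by
  obtain ⟨h, x₀, hx⟩ := Lp75.sec hH.toMet hb hs hol nz
  have sW := vec_sec hH.toMet hW
  obtain ⟨B, B0, hB⟩ := (Nm43.pn_rep (aLAM n M H _ _ hH.toMet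
    (K3E.bKAN n M H 2 hH.toMet).1).1 sW).2.1.exists_bound
  have i := (Lp75.lp hH h hx one_pos one_lt_two).congr
    (Eventually.of_forall fun x => Real.rpow_one _)
  refine ⟨h.sm, h.nn, Nm43.null hH.toMet hb hs hol nz, _, i.mul_const √B, fun x h0 =>
    (dirb hH hW h.sm x).trans ?_⟩
  rw [mul_right_comm, div_mul_cancel₀ _ h0]
  exact mul_le_mul_of_nonneg_left (Real.sqrt_le_sqrt ((le_abs_self _).trans (hB x)))
    (Real.sqrt_nonneg _)

variable {I : Type} [Fintype I]

theorem lg_sg [M.Cpt] (S : Sd M I) (hW : HT M 2 W) (k : I) : Lg S.H W (sg S.toDk k) := by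
  have e : sg S.toDk k = (lam S.H (S.L k) (S.φ k)).pn fun e z => S.f k e z • vac n :=
    funext fun x => (pn_vac rfl).symm
  rw [e]
  refine lg_sec S.kae hW (aLAM n M _ _ _ (K78.met S) (S.wt k)).1
    ⟨fun e he z hz => ((S.hol k).sm e he z hz).smul contDiffAt_const,
      fun e he e' he' x hx hx' => ?_⟩
    (fun e he z hz i => ((S.hol k).holN e he z hz).mono fun w h => h.mul_const _) ?_
  · simp only [lam, Matrix.smul_mulVec, Matrix.mulVec_smul, la_vac, smul_smul]
    rw [(S.hol k).cmp e he e' he' x hx hx',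
      mul_inv_cancel_right₀ ((S.L k).ne e he e' he' x hx hx')]
  · obtain ⟨x, -⟩ : (univ : Set M.X).Nonempty := univ_nonempty
    obtain ⟨e, he, hx, h⟩ := S.deg k x
    by_contra c
    have z0 : ∀ z ∈ e.target, S.f k e z = 0 := fun z hz => by_contra fun h0 =>
      c ⟨e, he, z, hz, fun h1 => h0 (by simpa [vac] using congrFun h1 ∅)⟩
    have ev : S.f k e =ᶠ[𝓝 (e x)] fun _ => 0 :=
      (e.open_target.eventually_mem (e.map_source hx)).mono z0
    exact (h (z0 _ (e.map_source hx))).1 (by rw [ev.fderiv_eq]; exact fderiv_const_apply _)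

end Pool.Agent.Lib.N4S.Pa17
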