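import Pool.Agent.Lib.N4S.Blue
import Pool.Agent.Lib.N4S.Paw17
import Pool.Agent.Lib.N4S.Nc4d
import Pool.Agent.Lib.N4S.Qex80

/-! Project n4s: the pairing with the obstruction tends to zero. -/

open scoped Classical Topology ContDiff ComplexOrder Matrix
open Set Filter MeasureTheory

set_option linter.unusedVariables false

noncomputable section

namespace Pool.Agent.Lib.N4S

open Pool.Agent.Lib.SV (E)
open Pool.Agent.Lib.HS32 Pool.Agent.Lib.HLK Pool.Agent.Lib.F4 Pool.Agent.Lib.NU4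
open Pool.Agent.Lib.K3E (kan wk lk)
open K78

namespace Pa17

variable {n : ℕ} {M : Mf n} {I : Type} [Fintype I]

theorem dir_split {V : E n → E n} {z : E n} {F A : E n → ℂ} {c : I → ℂ} {g : I → E n → ℂ}
    (ev : F =ᶠ[𝓝 z] fun w => A w + ∑ k, c k * g k w) (hA : DifferentiableAt ℝ A z)
    (hg : ∀ k, DifferentiableAt ℝ (g k) z) :
    dir V F z = dir V A z + ∑ k, c k * dir V (g k) z := by
  have h : ∀ i, dz i F z = dz i A z + ∑ k, c k * dz i (g k) z := fun i => by
    rw [dz_congr ev, dz_add hA (DifferentiableAt.fun_sum fun k _ => (hg k).const_mul _),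
      dz_sum fun k _ => (hg k).const_mul (c k)]
    simp only [dz_const_mul _ (hg _)]
  simp only [dir, h, mul_add, Finset.sum_add_distrib, Finset.mul_sum]
  rw [Finset.sum_comm (s := Finset.univ (α := I))]
  simp only [mul_left_comm]

theorem room {t : I → ℝ} (t1 : ∀ k, t k < 1) : ∃ r : ℝ, 1 < r ∧ ∀ k, t k * r < 1 := by
  have h : ∀ᶠ r in 𝓝 (1 : ℝ), ∀ k, t k * r < 1 := eventually_all.2 fun k =>
    (continuousAt_const.mul continuousAt_id).eventually_lt continuousAt_const
      (by simpa using t1 k)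
  obtain ⟨r, h1, h2⟩ := ((h.filter_mono nhdsWithin_le_nhds).and
    (self_mem_nhdsWithin (s := Ioi 1))).exists
  exact ⟨r, h2, h1⟩

variable (S : Sd M I) (a : ℝ → M.X → ℝ) (q : Sq)

/-- The weight on `2 K` off the divisors. -/
def uj (j : ℕ) (x : M.X) : ℝ := ww S a q 2 j x + Real.log (fa S 2 x)

theorem al_eq (k : I) : al S.toDk k = fl S.toDk 2 k + ka S.toDk 2 k := by
  have := fl_ka S.toDk (m := 2) one_le_two k
  push_cast at this
  linarith

theorem uj_eq (j : ℕ) {x : M.X} (hx : x ∈ Of S.toDk) : uj S a q j x = pj S a q j x +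
    ∑ k, fl S.toDk 2 k * (Real.log (sg S.toDk k x) - Real.log (sg S.toDk k x + q.d j)) := by
  rw [uj, fa, Real.log_mul (Finset.prod_ne_zero_iff.2 fun k _ => pow_ne_zero _ (hx k))
    (Real.exp_pos _).ne', Real.log_exp, Real.log_prod fun k _ => pow_ne_zero _ (hx k)]
  simp only [Real.log_pow, ww, lf, pot, al_eq, mul_sub, add_mul, Finset.sum_add_distrib,
    Finset.sum_sub_distrib]
  push_cast
  ring

theorem uj_ge (j : ℕ) {x : M.X} (hx : x ∈ Of S.toDk) :
    Real.exp (-uj S a q j x) * pw S.toDk 1 x ≤ Real.exp (-S.u x) * Real.exp (-tp a q j x) := by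
  rw [pw_exp _ hx, ← Real.exp_add, ← Real.exp_add, uj_eq S a q j hx, Real.exp_le_exp]
  have := Finset.sum_le_sum (s := Finset.univ) fun k _ => mul_le_mul_of_nonneg_left
    (Real.log_le_log (sg_pos _ hx k) (le_add_of_nonneg_right (q.d0 j).1.le)) (ka_nn S.toDk 2 k)
  simp only [pot, al_eq, mul_sub, add_mul, Finset.sum_add_distrib, Finset.sum_sub_distrib]
  linarith

variable {S a}

theorem p_le [M.Cpt] (hZ : Zs S a) {W : M.Fam (E n)} (hW : HT M 2 W) (j : ℕ) {x : M.X}
    (hx : x ∈ Of S.toDk) :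
    M.ev (fun e z => ‖dir (W e) (fun w => ld (S.H e) w + M.lc (uj S a q j) e w) z - dv (W e) z‖ /
      (S.H e z).det.re) x ≤ √((lk S.H 2).pn (Pd S a q 2 j (vec M W)) x) + q.d j *
        ∑ k, fl S.toDk 2 k * (√(M.gr S.H (sg S.toDk k) (sg S.toDk k) x) *
          √((lk S.H 2).pn (vec M W) x) / sg S.toDk k x ^ 2) := by
  have hm := met S
  have d0 := (q.d0 j).1
  have p := Mf.pd_det_re (hm.pos.ch x)
  have s0 := sg_pos _ hx
  have w1 : M.Wt 1 (F4.ph M S.H) := (mINV n M _ hm).2.2.2.2.2.2.1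
  have dr : ∀ k, HasDerivAt (fun t => Real.log t - Real.log (t + q.d j))
      ((sg S.toDk k x)⁻¹ - (sg S.toDk k x + q.d j)⁻¹) (sg S.toDk k ((M.ch x).symm (M.ch x x))) :=
    fun k => by
      have := (Real.hasDerivAt_log (add_pos (s0 k) d0).ne').comp (sg S.toDk k x)
        ((hasDerivAt_id _).add_const (q.d j))
      rw [mul_one] at this
      rw [Mf.ch_symm]
      exact (Real.hasDerivAt_log (s0 k).ne').sub this
  have ds : ∀ k, DifferentiableAt ℝ (fun w => sg S.toDk k ((M.ch x).symm w)) (M.ch x x) :=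
    fun k => cd_diff ((sg_sm S.toDk k).ch x)
  have h := dir_split (V := W (M.ch x)) (z := M.ch x x) (c := fun k => (fl S.toDk 2 k : ℂ))
    (F := fun w => ld (S.H (M.ch x)) w + M.lc (uj S a q j) (M.ch x) w)
    (A := fun w => ((F4.ph M S.H (M.ch x) w + pj S a q j ((M.ch x).symm w) : ℝ) : ℂ))
    (g := fun k w => ((Real.log (sg S.toDk k ((M.ch x).symm w)) -
      Real.log (sg S.toDk k ((M.ch x).symm w) + q.d j) : ℝ) : ℂ)) (by
      filter_upwards [ev_Of _ (Mf.ch_mem x) (Mf.ch_tgt x) (by rwa [Mf.ch_symm])] with w hw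
      simp only [ld, Mf.lc, F4.ph, uj_eq S a q j hw.2]
      push_cast
      ring)
    (cd_diff (cd_ofReal ((w1.sm.ch x).add ((pj_sm hZ q j).ch x))))
    fun k => by
      have := (dr k).differentiableAt.comp (M.ch x x) (ds k)
      exact P44.dre this
  simp only [fun k => P44.dcomp (V := W (M.ch x)) (dr k) (ds k)] at h
  rw [P37.sq_pn hm (pj_sm hZ q j) hW]
  simp only [Mf.ev]
  rw [h, add_sub_right_comm]
  refine (div_le_div_of_nonneg_right (norm_add_le _ _) p.le).trans ?_
  rw [add_div, norm_sub_rev, Finset.mul_sum]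
  refine add_le_add le_rfl ((div_le_div_of_nonneg_right (norm_sum_le _ _) p.le).trans ?_)
  rw [Finset.sum_div]
  refine Finset.sum_le_sum fun k _ => ?_
  have b := dirb S.kae hW (sg_sm S.toDk k) x
  have c : |(sg S.toDk k x)⁻¹ - (sg S.toDk k x + q.d j)⁻¹| ≤ q.d j / sg S.toDk k x ^ 2 := by
    have := s0 k
    rw [show (sg S.toDk k x)⁻¹ - (sg S.toDk k x + q.d j)⁻¹ =
      q.d j / (sg S.toDk k x * (sg S.toDk k x + q.d j)) by field_simp; ring,
      abs_of_nonneg (by positivity)]
    exact div_le_div_of_nonneg_left d0.le (by positivity) (by nlinarith)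
  have := mul_le_mul_of_nonneg_left (mul_le_mul c b (div_nonneg (norm_nonneg _) p.le)
    (by have := s0 k; positivity)) (Nat.cast_nonneg (α := ℝ) (fl S.toDk 2 k))
  rw [norm_mul, norm_mul, Complex.norm_natCast, Complex.norm_real, Real.norm_eq_abs]
  exact le_of_eq_of_le (by rw [mul_div_assoc, mul_div_assoc]; rfl) (this.trans_eq (by ring))

end Pa17

open Pa17 in
/-- The pairing tends to zero. -/
theorem st_PA (hPR1 : St_PR1) : St_PA := by
  intro n M _ I _ S a q W V U x g b₀ b hZ hW hV hU hWU hB hO hg nz hA ⟨C, hC⟩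
  have hm := met S
  obtain ⟨-, fin, -, -, it, -⟩ := mMU n M _ hm
  have o2 := lk_ok S 2
  have o3 := lk_ok S 3
  have s3 : (lk S.H 3).Sec g := ((st_KIT n M _ 3 _ hm).1.1 hg).1
  have sW := vec_sec hm hW
  obtain ⟨pol, x₀, hx₀⟩ := Lp75.sec hm o3 s3 hg.hol nz
  have zr := (Nm43.pn_rep o3 s3).2.2.2
  have L := (lg_sec S.kae hW o3 s3 hg.hol nz).prod hm (lg_sg S hW) Finset.univ
  have hQ := st_QQL n M S.H V _ _ g b hm hV o3 s3 hA
  generalize (lk S.H 3).pn g = ρ at hC pol hx₀ zr L
  set ν : M.X → ℝ := fun y => ρ y * ∏ k, sg S.toDk k y with hν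
  have nO : ∀ y, ν y ≠ 0 → y ∈ Of S.toDk := fun y h k =>
    Finset.prod_ne_zero_iff.1 (right_ne_zero_of_mul h) k (Finset.mem_univ k)
  have nG : M.All fun e z => ν (e.symm z) ≠ 0 → g e z ≠ 0 := fun e he z hz h c =>
    left_ne_zero_of_mul h ((zr e he z hz).2 c)
  clear_value ν
  have qb : M.All fun e z => ν (e.symm z) ≠ 0 → HolN (NU4.qq (V e) (b e)) z := fun e he z hz h => by
    have hb := hA.hol e he z hz (nG e he z hz h)
    have d : ∀ k, HolN (dz k (b e)) z := ((mHOL n _ z).2.2 hb).2.1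
    filter_upwards [hb, eventually_all.2 d, eventually_all.2 (hV.hol e he z hz)] with w h1 h2 h3
    exact (DifferentiableAt.fun_sum fun k _ => (h3 k).mul (h2 k)).sub ((h1.pow 2).mul_const (2⁻¹ : ℂ))
  have q0 := (Q80.qq_af hm hV hB.sm hB.sec).1
  obtain ⟨r, ir, hr⟩ := L.br
  have sp := ((lb_ok S 2).pp_rep hU.sec hO.sec).2
  obtain ⟨K, K0, hK⟩ := sp.exists_bound
  obtain ⟨B, B0, hBu⟩ := S.su.exists_bound
  have hP := ((hPR1 n M I S a q 2 hZ le_rfl).1 _ ⟨U, hU, hWU⟩).2.2 0
  simp only [zero_mul, neg_zero, Real.exp_zero, one_mul] at hP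
  have cw := Nc4.ww_c q hZ 2
  have ct : ∀ j, Continuous fun y => Real.exp (-tp a q j y) := fun j =>
    (tp_sm hZ q j).continuous.neg.rexp
  obtain ⟨A₁, hA₁⟩ := Nc4.bd q S.pos hZ one_le_two
  obtain ⟨A₂, hA₂⟩ := Nc4.yw_z q hZ zero_le_one 6 (by norm_num)
  have h6 : ∀ j, ∫ y, Real.exp (-tp a q j y) ^ 6 ∂M.mu S.H ≤ A₂ := fun j => by
    simpa only [← Real.exp_nat_mul, Nc4.yw, one_mul, Nat.cast_ofNat] using hA₂ j
  have i2 : ∀ j, Integrable (fun y => (1 + √(M.gr S.H ρ ρ y) / ρ y) * Real.exp (-tp a q j y))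
      (M.mu S.H) := fun j => by
    obtain ⟨δ, δ0, h⟩ := Lp75.ui S.kae pol hx₀ one_pos A₂
    exact (h ∅ _ MeasurableSet.empty (by simpa using δ0.le) (fun _ => (Real.exp_pos _).le) (ct j)
      (h6 j)).1
  have cP : ∀ j, Continuous fun y => √((lk S.H 2).pn (Pd S a q 2 j (vec M W)) y) := fun j => by
    have sP := aSP n M S.H _ _ (vec M W) hm ((lk_wt S 2).addF ((pj_sm hZ q j).const_mul
      (((2 : ℕ) : ℝ) - 1))).1 ⟨sW.sm, sW.cmp⟩
    exact (Nc4.pn_c o2 ⟨sP.sm, sP.cmp⟩).sqrt
  have key := P44.pairS atTop hm hW ν L.sm L.nn L.nul r ir hr (dq V b₀ b)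
    (fun e he z hz h => (q0 e he z hz).sub ((mHOL n _ z).2.2 (qb e he z hz h)).1)
    (fun e he e' he' y hy hy' h => by
      have h1 := hQ e he e' he' y hy hy' (nG e he _ (e.map_source hy) (by rwa [e.left_inv hy]))
      have h2 := Q80.qq_cmp hm hV hB.sm hB.sec e he e' he' y hy hy'
      simp only [dq]
      linear_combination h2 - h1)
    (uj S a q) (fun j y => √((lk S.H 2).pn (Pd S a q 2 j (vec M W)) y) + q.d j *
      ∑ k, fl S.toDk 2 k * (√(M.gr S.H (sg S.toDk k) (sg S.toDk k) y) *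
        √((lk S.H 2).pn (vec M W) y) / sg S.toDk k y ^ 2))
    (fun j y => K * Real.exp (-ww S a q 2 j y) + |C| * Real.exp B *
      ((1 + √(M.gr S.H ρ ρ y) / ρ y) * Real.exp (-tp a q j y)))
    (fun j y => star ((lb S 2).pp U x y * (Real.exp (-ww S a q 2 j y) : ℝ)))
    (Eventually.of_forall fun j => ⟨fun e he z hz h => (ww_sm hZ q 2 j e he z hz).add
      ((fa_sm S 2 e he z hz).log (fa_pos S 2 (nO _ h)).ne'), (sp.continuous.mul
        (Complex.continuous_ofReal.comp (cw j))).star.aestronglyMeasurable,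
      ((it ℝ _ (cw j)).const_mul K).add ((i2 j).const_mul _), fun y hy => ?_⟩)
    (fun d hd => ?_) (fun δ hδ => ?_) fun η hη => ?_
  · have := key.star
    rw [star_zero] at this
    refine this.congr fun j => ?_
    simp only [Bun.ip, pp_lj, Complex.star_def, integral_conj, Complex.conj_conj]
  · have hy' := nO y hy
    have f0 := fa_pos S 2 hy'
    have D := Mf.pd_det_re (hm.pos.ch y)
    have l0 : 0 ≤ 1 + √(M.gr S.H ρ ρ y) / ρ y := add_nonneg zero_le_one (Lp75.dl_nn pol.nn y)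
    refine ⟨p_le q hZ hW j hy', ?_, le_add_of_le_of_nonneg ?_ (by positivity),
      le_add_of_nonneg_of_le (by positivity) ?_⟩
    · have e1 := P37.ppq hm 2 (fun _ => 0) W _ q0 y
      have e2 := pp_up S 2 U x y
      have hb := qb.ch y (by rwa [Mf.ch_symm])
      have d1 := cd_diff (q0.ch y)
      have d2 : DifferentiableAt ℝ _ _ := hb.self_of_nhds.restrictScalars ℝ
      have e3 : ∀ k, dz k (fun w => star (dq V b₀ b (M.ch y) w)) (M.ch y y) =
          dz k (fun w => star (NU4.qq (V (M.ch y)) (b₀ (M.ch y)) w)) (M.ch y y) := fun k => by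
        simp only [dq]
        rw [dz_star (d1.fun_sub d2), dzb_sub d1 d2, HS.SIUK.dzb_hol hb.self_of_nhds, sub_zero,
          dz_star d1]
      rw [show (lw M S.H 2 fun _ => 0).pp (vec M W) _ y = _ from
        (((aLAM n M _ _ _ hm (lk_wt S 2)).2.2 _).2 _ _ y).1] at e1
      simp only [mul_zero, neg_zero, Real.exp_zero, Complex.ofReal_one, mul_one] at e1
      have e4 : (fa S 2 y : ℂ) * (lb S 2).pp U x y = _ := e2.symm.trans (Eq.trans (by
        simp only [Bun.pp, Mf.ev, hWU.ch y, hO.eq.ch y]) e1)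
      have f1 : (fa S 2 y : ℂ) ≠ 0 := Complex.ofReal_ne_zero.2 f0.ne'
      rw [eq_inv_mul_iff_mul_eq₀ f1 |>.2 e4, uj, neg_add, Real.exp_add, Real.exp_neg (Real.log _),
        Real.exp_log f0]
      simp only [Mf.ev, dir, e3]
      simp only [star_mul', star_inv₀, Complex.star_def, Complex.conj_ofReal, Complex.conj_conj]
      push_cast
      ring
    · rw [norm_star, norm_mul, Complex.norm_real, Real.norm_of_nonneg (Real.exp_pos _).le]
      exact mul_le_mul_of_nonneg_right (hK y) (Real.exp_pos _).le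
    · have h1 := hC.ch y (by rwa [Mf.ch_symm]) (nG.ch y (by rwa [Mf.ch_symm]))
      have h2 := (uj_ge S a q j hy').trans (mul_le_mul_of_nonneg_right (Real.exp_le_exp.2
        ((neg_le_abs _).trans (hBu y))) (Real.exp_pos _).le)
      have p0 := pw_nn S.toDk 1 y
      rw [Mf.ch_symm] at h1
      have h3 : M.ev (fun e z => ‖dir (W e) (dq V b₀ b e) z - 2 * dv (W e) z * dq V b₀ b e z‖ /
          (S.H e z).det.re ^ 2) y ≤ |C| * (1 + √(M.gr S.H ρ ρ y) / ρ y) * pw S.toDk 1 y := by
        refine (div_le_iff₀ (by positivity)).2 (h1.trans ?_)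
        have := mul_le_mul_of_nonneg_right (le_abs_self C) (show 0 ≤ (S.H (M.ch y) (M.ch y y)).det.re ^ 2 *
          pw S.toDk 1 y * (1 + √(M.gr S.H ρ ρ y) / ρ y) by positivity)
        linarith
      have h4 := mul_le_mul_of_nonneg_left h2 (mul_nonneg (abs_nonneg C) l0)
      have h5 := mul_le_mul_of_nonneg_left h3 (Real.exp_pos (-uj S a q j y)).le
      linarith
  · have cl : IsClosed {y | d ≤ ν y} := isClosed_le continuous_const L.sm.continuous
    have iG : IntegrableOn (fun y => ∑ k, (fl S.toDk 2 k : ℝ) *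
        (√(M.gr S.H (sg S.toDk k) (sg S.toDk k) y) * √((lk S.H 2).pn (vec M W) y) /
          sg S.toDk k y ^ 2)) {y | d ≤ ν y} (M.mu S.H) :=
      (continuousOn_finsetSum _ fun k _ => continuousOn_const.mul
        (((Lp75.gr_cont hm (sg_sm _ k)).sqrt.mul (Nc4.pn_c o2 sW).sqrt).continuousOn.div
          ((sg_sm _ k).continuous.pow 2).continuousOn fun y hy =>
            pow_ne_zero _ (nO y (hd.trans_le hy).ne' k))).integrableOn_compact cl.isCompact
    have iP := fun j => it ℝ _ (cP j)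
    refine ⟨Eventually.of_forall fun j => (iP j).integrableOn.add (iG.const_mul _), ?_⟩
    have t1 := squeeze_zero (fun j => integral_nonneg fun y => Real.sqrt_nonneg _)
      (fun j => setIntegral_le_integral (s := {y | d ≤ ν y}) (iP j)
        (Eventually.of_forall fun y => Real.sqrt_nonneg _)) hP
    have t2 := q.dt 0 1 one_pos
    simp only [zero_mul, Real.exp_zero, one_mul, Real.rpow_one] at t2
    simp only [fun j => integral_add (iP j).integrableOn (iG.const_mul (q.d j)), integral_const_mul]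
    simpa only [zero_mul, add_zero] using t1.add (t2.mul_const _)
  · have t1 := (Real.tendsto_exp_neg_atTop_nhds_zero.comp
      tendsto_natCast_atTop_atTop).mul_const A₁
    rw [zero_mul] at t1
    obtain ⟨k, k1, k2⟩ := ((tight (μ := M.mu S.H) (fa_sm S 2).continuous.measurable.log
      (half_pos hδ)).and (t1.eventually (gt_mem_nhds (half_pos hδ)))).exists
    refine ⟨2 * k, Eventually.of_forall fun j => ?_⟩
    have m1 := (markov (it ℝ _ (cw j)) k).trans
      (mul_le_mul_of_nonneg_left (hA₁ j) (Real.exp_pos _).le)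
    have sb : {y | uj S a q j y ≤ -(2 * k)} ⊆ {y | ww S a q 2 j y ≤ -k} ∪
        {y | Real.log (fa S 2 y) ≤ -k} := fun y hy => by
      by_contra c
      simp only [mem_union, mem_ofPred_eq, not_or, not_le, uj] at c hy
      linarith [c.1, c.2]
    have m2 := (measureReal_mono sb (measure_ne_top (M.mu S.H) _)).trans (measureReal_union_le _ _)
    simp only [Function.comp] at k2
    linarith
  · obtain ⟨t, t1, ht⟩ := room (ka_lt S.toDk 2)
    have t0 := zero_le_one.trans t1.le
    obtain ⟨A, hA⟩ := Nc4.mass S S.pos (fun k => ⟨mul_nonneg (ka_nn _ 2 k) t0, ht k⟩)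
      (Nc4.yw_c q hZ t) (Nc4.yw_0 q hZ t0) (Nc4.yw_z q hZ t0)
    have c0 : 0 < |C| * Real.exp B + 1 := by positivity
    obtain ⟨δ₁, d1, h1⟩ := uiw (μ := M.mu S.H) t1 A (div_pos (half_pos hη) K0)
    obtain ⟨δ₂, d2, h2⟩ := Lp75.ui S.kae pol hx₀ (div_pos (half_pos hη) c0) A₂
    refine ⟨min δ₁ δ₂, lt_min d1 d2, Eventually.of_forall fun j T hT hδ => ?_⟩
    have a1 := h1 _ T (it ℝ _ (cw j)) (it ℝ _ ((ww_sm hZ q 2 j).continuous.const_mul t).neg.rexp)
      (le_of_eq_of_le (integral_congr_ae (Eventually.of_forall fun y => by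
        simp only [Nc4.vp, Nc4.yw, Nc4.lg, ← Real.exp_add, ww, lf, mul_add, Finset.mul_sum,
          mul_neg, Finset.sum_neg_distrib]
        refine congrArg Real.exp ?_
        rw [Finset.sum_congr rfl fun k _ => show t * (ka S.toDk 2 k * Real.log (sg S.toDk k y +
          q.d j)) = ka S.toDk 2 k * t * Real.log (sg S.toDk k y + q.d j) by ring]
        push_cast
        ring)) (hA j _ (q.d0 j))) (hδ.trans (min_le_left _ _))
    have a2 := (h2 T _ hT (hδ.trans (min_le_right _ _)) (fun _ => (Real.exp_pos _).le) (ct j)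
      (h6 j)).2
    rw [integral_add ((it ℝ _ (cw j)).const_mul K).integrableOn ((i2 j).const_mul _).integrableOn,
      integral_const_mul, integral_const_mul]
    have a3 := (le_div_iff₀ K0).1 a1
    have a4 := (mul_le_mul_of_nonneg_left a2 (show 0 ≤ |C| * Real.exp B by positivity)).trans
      (mul_le_mul_of_nonneg_right (le_add_of_nonneg_right zero_le_one)
        (div_pos (half_pos hη) c0).le)
    rw [mul_div_cancel₀ _ c0.ne'] at a4
    linarith

end Pool.Agent.Lib.N4S
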