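import Pool.Agent.Lib.NU4.B_LIE
import Pool.Agent.Lib.NU4.B_FK
import Pool.Agent.Lib.NU4.Pb56b

/-! Project n4s: the identities for the pairing, in coordinates. -/

open scoped Classical Topology ContDiff ComplexOrder Matrix
open Set Filter

noncomputable section

namespace Pool.Agent.Lib.N4S.Pid17

open Pool.Agent.Lib.SV (E)
open Pool.Agent.Lib.HS32 Pool.Agent.Lib.HLK Pool.Agent.Lib.F4 Pool.Agent.Lib.NU4

variable {n : ℕ} {z : E n} {f g b Φ : E n → ℂ} {v w : E n → E n}

/-- Smooth near the point. -/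
abbrev Sm (f : E n → ℂ) (z : E n) : Prop := ContDiffAt ℝ ∞ f z

theorem sdir (hv : HolV v z) (hf : Sm f z) : Sm (dir v f) z :=
  ContDiffAt.sum (s := Finset.univ) (f := fun k y => v y k * dz k f y) fun k _ =>
    (P56.hsm (hv k)).mul (cd_dz hf k)

theorem d_add (hf : Sm f z) (hg : Sm g z) :
    dir v (fun y => f y + g y) z = dir v f z + dir v g z := by
  simp only [dir, dz_add (cd_diff hf) (cd_diff hg), mul_add, Finset.sum_add_distrib]

theorem d_sub (hf : Sm f z) (hg : Sm g z) :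
    dir v (fun y => f y - g y) z = dir v f z - dir v g z := by
  simp only [dir, dz_sub (cd_diff hf) (cd_diff hg), mul_sub, Finset.sum_sub_distrib]

theorem d_mul (hf : Sm f z) (hg : Sm g z) :
    dir v (fun y => f y * g y) z = dir v f z * g z + f z * dir v g z := by
  simp only [dir, dz_mul (cd_diff hf) (cd_diff hg), Finset.sum_mul, Finset.mul_sum,
    ← Finset.sum_add_distrib]
  exact Finset.sum_congr rfl fun _ _ => by ring

theorem d_c (c : ℂ) : dir v (fun _ => c) z = 0 := by simp [dir]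

theorem d_cmul (c : ℂ) (hf : Sm f z) : dir v (fun y => c * f y) z = c * dir v f z := by
  rw [d_mul contDiffAt_const hf, d_c, zero_mul, zero_add]

theorem d_lin (p q : ℂ) (x y : E n) {u : E n → E n} (h : u z = p • x - q • y) :
    dir u f z = p * dir (fun _ => x) f z - q * dir (fun _ => y) f z := by
  simp only [dir, h, Pi.sub_apply, Pi.smul_apply, smul_eq_mul, Finset.mul_sum,
    ← Finset.sum_sub_distrib]
  exact Finset.sum_congr rfl fun _ _ => by ring

/-- The bracket acts as the commutator on smooth functions. -/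
theorem d_br (hv : HolV v z) (hw : HolV w z) (hf : Sm f z) :
    dir (br v w) f z = dir v (dir w f) z - dir w (dir v f) z := by
  have e : ∀ u : E n → E n, HolV u z → ∀ j, dz j (dir u f) z =
      ∑ k, (dz j (fun y => u y k) z * dz k f z + u z k * dz j (dz k f) z) := fun u hu j => by
    show dz j (fun y => ∑ k, u y k * dz k f y) z = _
    rw [dz_sum fun k _ => (Lie87.h_d (hu k)).fun_mul (cd_diff (cd_dz hf k))]
    exact Finset.sum_congr rfl fun k _ => dz_mul (Lie87.h_d (hu k)) (cd_diff (cd_dz hf k))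
  have s : ∑ j, ∑ k, v z j * (w z k * dz j (dz k f) z) =
      ∑ j, ∑ k, w z j * (v z k * dz j (dz k f) z) := by
    rw [Finset.sum_comm]
    refine Finset.sum_congr rfl fun j _ => Finset.sum_congr rfl fun k _ => ?_
    rw [dz_dz hf k j]
    ring
  have t : ∀ u u' : E n → E n, ∑ k, dirv u u' z k * dz k f z =
      ∑ j, ∑ k, u z j * (dz j (fun y => u' y k) z * dz k f z) := fun u u' => by
    rw [Finset.sum_comm]
    refine Finset.sum_congr rfl fun k _ => ?_
    simp only [dirv, dir, Finset.sum_mul, mul_assoc]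
  rw [dir, dir, dir]
  simp only [e w hw, e v hv, br, Pi.sub_apply, sub_mul, Finset.sum_sub_distrib, t, Finset.mul_sum,
    mul_add, Finset.sum_add_distrib, s]
  ring

/-- The difference of the two affine structures. -/
def ff (v : E n → E n) (b Φ : E n → ℂ) (y : E n) : ℂ := b y - dir v Φ y

/-- The defect of the divergence. -/
def ep (w : E n → E n) (Φ : E n → ℂ) (y : E n) : ℂ := dv w y - dir w Φ y

/-- The covariant derivative along `v` for the weight `Φ`, at the level `j`. -/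
def cv (v : E n → E n) (Φ : E n → ℂ) (j : ℂ) (t : E n → ℂ) (y : E n) : ℂ :=
  dir v t y - j * dir v Φ y * t y

/-- The derivative of `ff` along `w`. -/
def aa (v w : E n → E n) (b Φ : E n → ℂ) (y : E n) : ℂ :=
  cv v Φ 2 (ep w Φ) y - 2 * (ff v b Φ y * ep w Φ y)

/-- The difference of the two projective structures. -/
def ss (v : E n → E n) (b Φ : E n → ℂ) (y : E n) : ℂ := qq v (dir v Φ) y - qq v b y

/-- The local situation. -/
structure Loc (v w : E n → E n) (b Φ : E n → ℂ) (z : E n) : Prop where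
  hv : HolV v z
  hw : HolV w z
  hb : HolN b z
  sm : ∀ᶠ y in 𝓝 z, Sm Φ y
  dv0 : ∀ᶠ y in 𝓝 z, dv v y = 0
  eb : ∀ᶠ y in 𝓝 z, br v w y = (2 * b y) • w y - dv w y • v y

theorem Loc.ev (h : Loc v w b Φ z) : ∀ᶠ y in 𝓝 z, Loc v w b Φ y := by
  filter_upwards [eventually_all.2 fun i => (h.hv i).eventually_nhds,
    eventually_all.2 fun i => (h.hw i).eventually_nhds, h.hb.eventually_nhds, h.sm.eventually_nhds,
    h.dv0.eventually_nhds, h.eb.eventually_nhds] with y a b c d e f
  exact ⟨a, b, c, d, e, f⟩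

theorem Loc.s0 (h : Loc v w b Φ z) : Sm Φ z := h.sm.self_of_nhds

theorem Loc.sb (h : Loc v w b Φ z) : Sm b z := P56.hsm h.hb

theorem Loc.sd (h : Loc v w b Φ z) : Sm (dv w) z := P56.hsm (Lie87.h_dv h.hw)

theorem Loc.sf (h : Loc v w b Φ z) : Sm (ff v b Φ) z := h.sb.sub (sdir h.hv h.s0)

theorem Loc.se (h : Loc v w b Φ z) : Sm (ep w Φ) z := h.sd.sub (sdir h.hw h.s0)

theorem s_cv (hv : HolV v z) (hΦ : Sm Φ z) (j : ℂ) (hf : Sm f z) : Sm (cv v Φ j f) z :=
  (sdir hv hf).sub ((contDiffAt_const.mul (sdir hv hΦ)).mul hf)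

theorem Loc.sa (h : Loc v w b Φ z) : Sm (aa v w b Φ) z :=
  (s_cv h.hv h.s0 2 h.se).sub (contDiffAt_const.mul (h.sf.mul h.se))

theorem s_qq (hv : HolV v z) (hf : Sm f z) : Sm (qq v f) z :=
  (sdir hv hf).sub ((hf.pow 2).div_const 2)

theorem Loc.ss (h : Loc v w b Φ z) : Sm (ss v b Φ) z :=
  (s_qq h.hv (sdir h.hv h.s0)).sub (s_qq h.hv h.sb)

/-- The commutator in the local situation. -/
theorem Loc.com (h : Loc v w b Φ z) (hf : Sm f z) :
    dir w (dir v f) z = dir v (dir w f) z - 2 * b z * dir w f z + dv w z * dir v f z := by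
  have k := d_br h.hv h.hw hf
  rw [d_lin _ _ _ _ h.eb.self_of_nhds] at k
  have e1 : dir (fun _ => w z) f z = dir w f z := rfl
  have e2 : dir (fun _ => v z) f z = dir v f z := rfl
  rw [e1, e2] at k
  linear_combination k

/-- The divergence of the bracket. -/
theorem Loc.id0 (h : Loc v w b Φ z) : dir v (dv w) z - dir w b z = b z * dv w z := by
  have hL := st_LIE st_FK n
  have k := (hL v w _ _ z h.hv h.hw P56.hvac h.hb).2.2.2.2.2.2.2.2.2.2.2.2.2.1
  have b2 : HolN (fun y => 2 * b y) z := P56.hmul (P56.hc 2) h.hb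
  have k1 := (hL w w _ _ z h.hw h.hw P56.hvac b2).2.2.2.2.2.2.2.2.2.2.2.2.2.2.1
  have k2 := (hL v v _ _ z h.hv h.hv P56.hvac (Lie87.h_dv h.hw)).2.2.2.2.2.2.2.2.2.2.2.2.2.2.1
  have e : dv (fun y => (2 * b y) • w y - dv w y • v y) z =
      dv (fun y => (2 * b y) • w y) z - dv (fun y => dv w y • v y) z := by
    simp only [dv, ← Finset.sum_sub_distrib]
    exact Finset.sum_congr rfl fun j _ => dz_sub (Lie87.h_d (Lie87.v_smul b2 h.hw j))
      (Lie87.h_d (Lie87.v_smul (Lie87.h_dv h.hw) h.hv j))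
  rw [P56.dv_congr (U' := fun y => (2 * b y) • w y - dv w y • v y) h.eb, e, k1, k2,
    P56.dir_congr (g := fun _ => 0) h.dv0, d_c, h.dv0.self_of_nhds, d_cmul 2 h.sb] at k
  linear_combination (-1 / 2 : ℂ) * k

theorem Loc.id1 (h : Loc v w b Φ z) :
    Pid17.ss v b Φ z = -(cv v Φ 1 (ff v b Φ) z - ff v b Φ z ^ 2 / 2) := by
  have e : dir v (ff v b Φ) z = dir v b z - dir v (dir v Φ) z := d_sub h.sb (sdir h.hv h.s0)
  rw [Pid17.ss, cv, e, NU4.qq, NU4.qq, ff]
  ring

/-- The derivative of the difference of the affine structures. -/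
theorem Loc.id2 (h : Loc v w b Φ z) :
    dir w (ff v b Φ) z - dv w z * ff v b Φ z = aa v w b Φ z := by
  have e : dir w (ff v b Φ) z = dir w b z - dir w (dir v Φ) z := d_sub h.sb (sdir h.hv h.s0)
  have e' : dir v (ep w Φ) z = dir v (dv w) z - dir v (dir w Φ) z := d_sub h.sd (sdir h.hw h.s0)
  rw [aa, cv, e, e', h.com h.s0, ff, ep]
  linear_combination -h.id0

/-- The derivative of the difference of the projective structures. -/
theorem Loc.id3 (h : Loc v w b Φ z) :
    dir w (Pid17.ss v b Φ) z - 2 * dv w z * Pid17.ss v b Φ z =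
      -cv v Φ 3 (aa v w b Φ) z + 2 * (ff v b Φ z * aa v w b Φ z) := by
  have s0 := sdir h.hv h.s0
  have e1 : Pid17.ss v b Φ =ᶠ[𝓝 z] fun y => dir v Φ y * ff v b Φ y +
      2⁻¹ * (ff v b Φ y * ff v b Φ y) - dir v (ff v b Φ) y := h.ev.mono fun y k => by
    rw [k.id1, cv]
    ring
  have e2 : dir w (ff v b Φ) =ᶠ[𝓝 z] fun y => aa v w b Φ y + dv w y * ff v b Φ y :=
    h.ev.mono fun y k => (sub_eq_iff_eq_add.1 k.id2)
  have e3 : dir w (ff v b Φ) z = dir w b z - dir w (dir v Φ) z := d_sub h.sb s0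
  have i0 := h.id0
  have i2 := e2.self_of_nhds
  have eb : b z = ff v b Φ z + dir v Φ z := (sub_add_cancel _ _).symm
  rw [P56.dir_congr e1, d_sub ((s0.mul h.sf).add (contDiffAt_const.mul (h.sf.mul h.sf)))
    (sdir h.hv h.sf), d_add (s0.mul h.sf) (contDiffAt_const.mul (h.sf.mul h.sf)), d_mul s0 h.sf,
    d_cmul _ (h.sf.mul h.sf), d_mul h.sf h.sf, h.com h.sf, P56.dir_congr e2,
    d_add h.sa (h.sd.mul h.sf), d_mul h.sd h.sf, e1.self_of_nhds, cv]
  have e4 : dir w (dir v Φ) z = dir v (dv w) z - b z * dv w z - dir w (ff v b Φ) z := by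
    linear_combination e3 - i0
  beta_reduce at i2 ⊢
  rw [e4, i2, eb]
  ring

end Pool.Agent.Lib.N4S.Pid17
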