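import Pool.Agent.Lib.N4S.Blue
import Pool.Agent.Lib.N4S.Nb51
import Pool.Agent.Lib.N4S.Pid17
import Pool.Agent.Lib.NU4.B_PB
import Pool.Agent.Lib.NU4.B_EIG
import Pool.Agent.Lib.NU4.B_QQL
import Pool.Agent.Lib.NU4.Ibp20

/-! Project n4s: the pointwise bound for the pairing, from the local bounds. -/

open scoped Classical Topology ContDiff ComplexOrder Matrix
open Set Filter

noncomputable section

namespace Pool.Agent.Lib.N4S.Pb14

open Pool.Agent.Lib.SV (E)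
open Pool.Agent.Lib.HS32 Pool.Agent.Lib.HLK Pool.Agent.Lib.F4 Pool.Agent.Lib.NU4
open Pool.Agent.Lib.K3E (kan wk lk)
open Nb51

theorem rt {x C y : ℝ} (h : x ^ 2 ≤ C * y ^ 2) (y0 : 0 ≤ y) : x ≤ √C * y := by
  have := Real.le_sqrt_of_sq_le h
  rwa [Real.sqrt_mul' C (sq_nonneg y), Real.sqrt_sq y0] at this

theorem num {A B a b b₀ x : ℂ} {D p ρ G C₃ C₄ K₁ K₂ K₃ : ℝ} (D0 : 0 < D) (p0 : 0 ≤ p) (p1 : p ≤ 1)
    (ρ0 : 0 < ρ) (G0 : 0 ≤ G) (c₃ : 0 ≤ C₃) (c₄ : 0 ≤ C₄) (hA : ‖A‖ ^ 2 ≤ C₃ * D ^ 3 * p ^ 3)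
    (hB : ‖B‖ ^ 2 ≤ C₄ * D ^ 4 * p ^ 4) (h₁ : ‖b₀ - a‖ ^ 2 ≤ K₁ * D)
    (h₂ : ‖x - 2 * (b - a) * ρ‖ ^ 2 ≤ K₂ * D * ρ ^ 2) (h₃ : ‖x‖ ^ 2 ≤ K₃ * D * G) :
    ‖-B + 2 * ((b - b₀) * A)‖ ≤
      (√C₄ + √C₃ * (2 * √K₁ + √K₂ + √K₃)) * D ^ 2 * p * (1 + √G / ρ) := by
  obtain ⟨s, s0, rfl⟩ : ∃ s : ℝ, 0 < s ∧ D = s ^ 2 :=
    ⟨√D, Real.sqrt_pos.2 D0, (Real.sq_sqrt D0.le).symm⟩
  have q3 : p ^ 3 ≤ p ^ 2 := pow_le_pow_of_le_one p0 p1 (by norm_num)
  have q4 : p ^ 4 ≤ p ^ 2 := pow_le_pow_of_le_one p0 p1 (by norm_num)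
  have a1 : ‖A‖ ≤ √C₃ * (s ^ 3 * p) := rt (hA.trans ((mul_le_mul_of_nonneg_left q3
    (by positivity)).trans (le_of_eq (by ring)))) (by positivity)
  have a2 : ‖B‖ ≤ √C₄ * (s ^ 4 * p) := rt (hB.trans ((mul_le_mul_of_nonneg_left q4
    (by positivity)).trans (le_of_eq (by ring)))) (by positivity)
  have a3 : ‖b₀ - a‖ ≤ √K₁ * s := rt h₁ s0.le
  have a4 : ‖x - 2 * (b - a) * ρ‖ ≤ √K₂ * (s * ρ) := rt (h₂.trans (le_of_eq (by ring)))
    (by positivity)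
  have a5 : ‖x‖ ≤ √K₃ * (s * √G) := rt (h₃.trans (le_of_eq (by
    rw [mul_pow, Real.sq_sqrt G0]; ring))) (by positivity)
  have a6 : 2 * ‖b - a‖ ≤ √K₂ * s + √K₃ * s * (√G / ρ) := by
    have k := norm_sub_le x (x - 2 * (b - a) * ρ)
    rw [sub_sub_cancel, norm_mul, norm_mul, Complex.norm_real, Real.norm_of_nonneg ρ0.le,
      Complex.norm_two] at k
    refine le_of_mul_le_mul_right (k.trans ((add_le_add a5 a4).trans (le_of_eq ?_))) ρ0
    field_simp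
    ring
  have a7 : 2 * ‖b - b₀‖ ≤ (2 * √K₁ + √K₂ + √K₃) * s * (1 + √G / ρ) := by
    have k := norm_sub_le (b - a) (b₀ - a)
    rw [sub_sub_sub_cancel_right] at k
    have : 0 ≤ √K₁ * s * (√G / ρ) := by positivity
    have : 0 ≤ √K₂ * s * (√G / ρ) := by positivity
    have : 0 ≤ √K₃ * s := by positivity
    nlinarith
  have a8 := mul_le_mul a7 a1 (norm_nonneg _) (by positivity)
  have : 0 ≤ √C₄ * (s ^ 4 * p) * (√G / ρ) := by positivity
  refine (norm_add_le _ _).trans ?_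
  rw [norm_neg, norm_mul, norm_mul, Complex.norm_two]
  nlinarith

variable {n : ℕ} {M : Mf n} {I : Type} [Fintype I] {H : M.Fam (Mat n)}

theorem top [M.Cpt] {f : M.X → ℝ} (h : M.Sm f) : ∃ C : ℝ, ∀ x, f x ≤ C := by
  obtain ⟨C, hC⟩ := isCompact_univ.exists_bound_of_continuousOn h.continuous.continuousOn
  exact ⟨C, fun x => (le_abs_self _).trans (hC x trivial)⟩

/-- Smooth sections of `K` are bounded. -/
theorem sec_bd [M.Cpt] (hH : M.Met H) {s : M.Fam ℂ} (h : M.Sec 1 s) :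
    ∃ C : ℝ, M.All fun e z => ‖s e z‖ ^ 2 ≤ C * (H e z).det.re := by
  have w := (K3E.bKAN n M H 1 hH).1
  have c : M.SecC (kan M 1) s := ⟨h.sm, fun e he e' he' x hx hx' =>
    (h.cmp e he e' he' x hx hx').trans (congrArg _ (mul_one _).symm)⟩
  obtain ⟨C, hC⟩ := top (w.nr_sm c)
  refine ⟨C, fun e he z hz => ?_⟩
  have k := hC (e.symm z)
  have d := Mf.pd_det_re (hH.pos e he z hz)
  rw [w.nr_rep c e he z hz] at k
  beta_reduce at k
  rw [wk, Nat.cast_one, one_mul, Real.exp_neg, Real.exp_log d,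
    Complex.normSq_eq_norm_sq, ← div_eq_mul_inv] at k
  exact (div_le_iff₀ d).1 k

/-- The derivative along a field of level one is bounded by the gradient. -/
theorem dir_bd [M.Cpt] (hK : M.Kae H) {V : M.Fam (E n)} (hV : HT M 1 V) {ρ : M.X → ℝ}
    (hρ : M.Sm ρ) : ∃ C : ℝ, M.All fun e z =>
      ‖dir (V e) (M.lc ρ e) z‖ ^ 2 ≤ C * (H e z).det.re * M.gr H ρ ρ (e.symm z) := by
  have hH := hK.toMet
  have s := ((st_KIT n M H 1 _ hH).1.1 ((st_KIT n M H 1 0 hH).2.1 V hV).1).1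
  obtain ⟨i1, -, -, -, i2⟩ := ibp20 st_KIT st_FK st_PW n M H 1 _ ρ ρ hK hρ hρ s
  obtain ⟨C, hC⟩ := top ((st_KIT n M H 1 _ hH).2.2.2.2.2.2.1 s).2
  refine ⟨C, fun e he z hz => ?_⟩
  have g0 : 0 ≤ M.gr H ρ ρ (e.symm z) := hH.tr_nonneg ((mHES n M).2.2.1 ρ hρ).2 _
  have k := (i2 (e.symm z)).trans (mul_le_mul_of_nonneg_left (hC _) g0)
  have d := Mf.pd_det_re (hH.pos e he z hz)
  have f := st_FK n (V e z) (V e z) (gd (M.lc ρ e) z) (H e z) 0 0
  have v : iot M ρ (vec M V) e z = dir (V e) (M.lc ρ e) z • vac n := by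
    have := congrArg (· *ᵥ vac n) f.2.2.1
    simp only [Matrix.add_mulVec, ← Matrix.mulVec_mulVec, f.2.2.2.2.2.2.2.2.2.2.2.1,
      Matrix.mulVec_zero, add_zero, Matrix.smul_mulVec, Matrix.one_mulVec] at this
    rw [iot, vec, this, dotProduct_comm]
    rfl
  rw [((st_KIT n M H 1 _ hH).2.2.2.2.2.2.1 i1).1 e he z hz] at k
  beta_reduce at k ⊢
  rw [v, ng, Matrix.mulVec_smul,
    f.2.2.2.2.2.2.2.2.2.2.2.2.1, pow_one, div_le_iff₀ d] at k
  refine le_trans (le_of_eq ?_) (k.trans (le_of_eq (by ring)))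
  rw [← Complex.normSq_eq_norm_sq]
  simp [vac, dotProduct, Pi.single_apply, Complex.normSq_apply]

variable (S : Sd M I)

theorem pw_le (y : M.X) : pw S.toDk 1 y ≤ 1 :=
  Finset.prod_le_one (fun k _ => Real.rpow_nonneg (sg_nn k y) _) fun k _ =>
    Real.rpow_le_one (sg_nn k y) ((S.sml k y).trans (by norm_num))
      (mul_nonneg zero_le_one (div_nonneg (Nat.cast_nonneg _) (Nat.cast_nonneg _)))

theorem ph_sm {e : M.Ch} {z : E n} (he : e ∈ M.C) (hz : z ∈ e.target)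
    (h : e.symm z ∈ Of S.toDk) : ContDiffAt ℝ ∞ (ph S 0 0 e) z :=
  (Q76.cd_ld S.kae.toMet he hz).add (cd_ofReal (((S.su e he z hz).add contDiffAt_const).add
    (ContDiffAt.sum fun k _ => contDiffAt_const.mul
      ((((S.wt k).nr_sm (S.hol k).toSecC e he z hz).add contDiffAt_const).log
        ((add_zero _).trans_ne (h k))))))

theorem bd_glob [M.Cpt] {O : Set M.X} {j : ℕ} {t : M.Fam ℂ} (h : ∀ x, Bd S x O j t) :
    ∃ C : ℝ, 0 ≤ C ∧ M.All fun e z => e.symm z ∈ Of S.toDk → e.symm z ∈ O →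
      ‖t e z‖ ^ 2 ≤ C * (S.H e z).det.re ^ j * pw S.toDk 1 (e.symm z) ^ j := by
  obtain ⟨C, hC⟩ := P56.glob (fun C y => y ∈ Of S.toDk → y ∈ O → ∀ e ∈ M.C, y ∈ e.source →
      ‖t e (e y)‖ ^ 2 ≤ C * (S.H e (e y)).det.re ^ j * pw S.toDk j y)
    (fun C C' y l a b c e he hy => (a b c e he hy).trans (mul_le_mul_of_nonneg_right
      (mul_le_mul_of_nonneg_right l (pow_pos (det_pos he (e.map_source hy)) j).le) (pw_nn _ _))) h
  refine ⟨max C 0, le_max_right _ _, fun e he z hz a b => ?_⟩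
  have k := hC _ a b e he (e.map_target hz)
  rw [e.right_inv hz, pw_pow a] at k
  exact k.trans (mul_le_mul_of_nonneg_right (mul_le_mul_of_nonneg_right (le_max_left _ _)
    (pow_pos (det_pos he hz) j).le) (pow_nonneg (pw_nn _ _) _))

open P56 in
/-- The pointwise bound. -/
theorem pb (h2 : St_PB2) : St_PB := by
  intro n M hM I _ S W V b₀ hW hV hB hN nz hY
  have hH := S.kae.toMet
  have hL := st_LIE st_FK
  have ok : (lk S.H 3).Ok := (st_LAM (st_FK2 st_FK1) (st_FK3 st_FK1 (st_FK2 st_FK1)) n M S.H _ _ hH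
    (K3E.bKAN n M S.H 3 hH).1).1
  have g1 : HM M 1 (vec M V) := ((st_KIT n M S.H 1 0 hH).2.1 V hV.ht).1
  have g3 : HM M 3 (wd M W (vec M V)) := ((st_KIT n M S.H 1 _ hH).2.2.1 2 W hW).1 g1
  have sec := ((st_KIT n M S.H 3 _ hH).1.1 g3).1
  have h0 : M.All fun e z => wg (W e z) (yc (W e) (V e) z) = 0 := fun e he z hz => by
    have := (cw st_FK _ _).1 (hY e he z hz)
    rw [yy] at this
    norm_num at this
    exact this
  have el : M.All fun e z => lie (V e) (wd M W (vec M V) e) z =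
      lder (V e) (bv (W e) (V e)) z := fun e he z hz => by
    have := (hL n (V e) (V e) _ _ z (hV.ht.hol e he z hz) (hV.ht.hol e he z hz)
      (hbv hL (hW.hol e he z hz) (hV.ht.hol e he z hz)) (hc 0)).2.2.2.2.2.2.2.1
      (Eventually.of_forall fun y => vg st_FK)
    rw [show dv (V e) z = 0 from hV.dv0 e he z hz, zero_smul, add_zero] at this
    exact this
  obtain ⟨b, af, eb, ev⟩ := st_EIG hL st_FK st_KIT n M S.H V 3 _ hH hV.ht (by norm_num) g3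
    (fun e he z hz => vg st_FK) fun e he z hz => by
      beta_reduce
      rw [el e he z hz]
      exact pr st_FK hL (hW.hol e he z hz) (hV.ht.hol e he z hz) (h0 e he z hz)
  have ye : M.All fun e z => wd M W (vec M V) e z ≠ 0 →
      -yc (W e) (V e) z = (2 * b e z) • W e z := fun e he z hz h =>
    yeq st_FK hL (hW.hol e he z hz) (hV.ht.hol e he z hz) (h0 e he z hz) h (by
      rw [← el e he z hz, eb e he z hz h]
      norm_num
      rfl)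
  have lo := fun x => h2 n M I S W V b₀ b x hW hV.ht hB hN nz af fun e he z hz h => by
    rw [neg_smul, ← ye e he z hz h, neg_neg, yy, yc]
    norm_num
  obtain ⟨C₃, c₃, h₃⟩ := bd_glob S fun x => (lo x).1
  obtain ⟨C₄, c₄, h₄⟩ := bd_glob S fun x => (lo x).2
  obtain ⟨K₁, k₁⟩ := sec_bd hH hB.sec
  obtain ⟨K₂, k₂⟩ := st_VB n M S.H V _ _ _ b _ hH hV.ht ok sec g3.hol af ev
  obtain ⟨rp, sρ⟩ := (st_KIT n M S.H 3 _ hH).2.2.2.2.2.2.1 sec
  obtain ⟨K₃, k₃⟩ := dir_bd S.kae hV.ht sρ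
  refine ⟨b, af, √C₄ + √C₃ * (2 * √K₁ + √K₂ + √K₃), fun e he z hz a h => ?_⟩
  have d := det_pos (D := S.toDk) he hz
  have w := st_PW n (S.H e z) 0 0 0 (wd M W (vec M V) e z) (hH.pos e he z hz)
  have ρ0 : 0 < (lk S.H 3).pn (wd M W (vec M V)) (e.symm z) := by
    rw [rp e he z hz]
    exact div_pos (w.1.lt_of_ne' fun k => h (w.2.1 k)) (pow_pos d 3)
  have e1 : ∀ᶠ y in 𝓝 z, y ∈ e.target ∧ e.symm y ∈ Of S.toDk :=
    (e.open_target.eventually_mem hz).and ((e.continuousAt_symm hz).eventually (of_open.mem_nhds a))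
  have e2 : b₀ e =ᶠ[𝓝 z] dir (V e) (ph S 0 0 e) := e1.mono fun y k => hB.eq e he y k.1 k.2
  have L : Pid17.Loc (V e) (W e) (b e) (ph S 0 0 e) z := by
    refine ⟨hV.ht.hol e he z hz, hW.hol e he z hz, af.hol e he z hz h,
      e1.mono fun y k => ph_sm S he k.1 k.2, hV.dv0.ev he hz, ?_⟩
    filter_upwards [e1, (sec.sm e he z hz).continuousAt.eventually_ne h] with y k1 k2
    rw [← ye e he y k1.1 k2, br_neg, yc]
    abel
  have e3 : dq V b₀ b e =ᶠ[𝓝 z] Pid17.ss (V e) (b e) (ph S 0 0 e) :=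
    e2.eventually_nhds.mono fun y k => by
      simp only [dq, Pid17.ss, NU4.qq, dir_congr k, k.self_of_nhds]
  have e4 : aq S W V b₀ b e =ᶠ[𝓝 z] Pid17.aa (V e) (W e) (b e) (ph S 0 0 e) :=
    e2.mono fun y k => by
      simp only [aq, dc, Pid17.aa, Pid17.cv, Pid17.ff, k, mul_assoc, Nat.cast_ofNat]
      rfl
  have e5 : dir (W e) (dq V b₀ b e) z - 2 * dv (W e) z * dq V b₀ b e z =
      -dc 3 V b₀ (aq S W V b₀ b) e z + 2 * ((b e z - b₀ e z) * aq S W V b₀ b e z) := by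
    rw [dir_congr e3, e3.self_of_nhds, L.id3, dc, dir_congr e4, e4.self_of_nhds, e2.self_of_nhds,
      Pid17.cv, Pid17.ff, Nat.cast_ofNat]
  have k2 := k₂ e he z hz h
  rw [show ((3 : ℕ) : ℂ) - 1 = 2 by norm_num] at k2
  rw [e5]
  exact num d (pw_nn _ _) (pw_le S _) ρ0 (hH.tr_nonneg ((mHES n M).2.2.1 _ sρ).2 _) c₃ c₄
    (h₃ e he z hz a ρ0.ne') (h₄ e he z hz a ρ0.ne') (k₁ e he z hz) k2 (k₃ e he z hz)

end Pool.Agent.Lib.N4S.Pb14
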