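import Pool.Agent.Lib.N4S.B_PB2
import Pool.Agent.Lib.N4S.Pb14

/-! Project n4s, row PB. -/

namespace Pool.Agent.Lib.N4S

theorem st_PB : St_PB := Pb14.pb st_PB2

end Pool.Agent.Lib.N4S
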