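import Pool.Agent.Lib.N4S.Defs
import Pool.Agent.Lib.HLK.All0
import Pool.Agent.Lib.K3E.B_KAN
import Pool.Agent.Lib.KP.Kit

/-! Project n4s: elementary facts on the weights and on the bundles of the levels. -/

open scoped Classical Topology ContDiff ComplexOrder Matrix
open Set Filter MeasureTheory

set_option linter.unusedVariables false

noncomputable section

namespace Pool.Agent.Lib.N4S.K78

open Pool.Agent.Lib.SV (E)
open Pool.Agent.Lib.HS32 Pool.Agent.Lib.HLK Pool.Agent.Lib.F4 Pool.Agent.Lib.NU4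
open Pool.Agent.Lib.K3E (kan wk lk)
open Pool.Agent.Lib.K3S (Dk)
open Pool.Agent.Lib.EXH (aw)

variable {n : ℕ} {M : Mf n} {I : Type} [Fintype I]

/-! ### The divisors -/

section dk

variable (D : Dk M I)

theorem sg_sm (k : I) : M.Sm (sg D k) := (D.wt k).nr_sm (D.hol k).toSecC

theorem sg_nn (k : I) (x : M.X) : 0 ≤ sg D k x := Mf.nrC_nonneg _ _ x

theorem sg_rep (k : I) :
    M.Rep (sg D k) fun e z => Complex.normSq (D.f k e z) * Real.exp (-D.φ k e z) :=
  (D.wt k).nr_rep (D.hol k).toSecC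

theorem sg_ne {k : I} {e : M.Ch} (he : e ∈ M.C) {z : E n} (hz : z ∈ e.target) :
    sg D k (e.symm z) ≠ 0 ↔ D.f k e z ≠ 0 := by
  rw [sg_rep D k e he z hz, mul_ne_zero_iff_right (Real.exp_pos _).ne', ne_eq,
    Complex.normSq_eq_zero]

theorem mem_Of {e : M.Ch} (he : e ∈ M.C) {z : E n} (hz : z ∈ e.target) :
    e.symm z ∈ Of D ↔ ∀ k, D.f k e z ≠ 0 := forall_congr' fun k => sg_ne D he hz

theorem sg_pos {x : M.X} (hx : x ∈ Of D) (k : I) : 0 < sg D k x :=
  (sg_nn D k x).lt_of_ne' (hx k)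

theorem isOpen_Of : IsOpen (Of D) := by
  have : Of D = ⋂ k, {x | sg D k x ≠ 0} := by ext x; simp [Of]
  rw [this]
  exact isOpen_iInter_of_finite fun k => isOpen_ne_fun (sg_sm D k).continuous continuous_const

theorem ev_Of {e : M.Ch} (he : e ∈ M.C) {z : E n} (hz : z ∈ e.target) (h : e.symm z ∈ Of D) :
    ∀ᶠ w in 𝓝 z, w ∈ e.target ∧ e.symm w ∈ Of D :=
  (e.open_target.eventually_mem hz).and
    ((e.continuousAt_symm hz).eventually_mem ((isOpen_Of D).mem_nhds h))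

theorem c_pos : (0 : ℝ) < D.c := Nat.cast_pos.2 D.c0

theorem al_nn (k : I) : 0 ≤ al D k := div_nonneg (Nat.cast_nonneg _) (Nat.cast_nonneg _)

theorem ka_nn (m : ℕ) (k : I) : 0 ≤ ka D m k := div_nonneg (Nat.cast_nonneg _) (Nat.cast_nonneg _)

theorem ka_lt (m : ℕ) (k : I) : ka D m k < 1 :=
  (div_lt_one (c_pos D)).2 (Nat.cast_lt.2 (Nat.mod_lt _ D.c0))

theorem fl_ka {m : ℕ} (hm : 1 ≤ m) (k : I) :
    (fl D m k : ℝ) + ka D m k = ((m : ℝ) - 1) * al D k := by
  have h := congrArg (Nat.cast : ℕ → ℝ) (Nat.div_add_mod ((m - 1) * D.a k) D.c)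
  have c := (c_pos D).ne'
  rw [Nat.cast_add, Nat.cast_mul, Nat.cast_mul, Nat.cast_sub hm, Nat.cast_one] at h
  rw [fl, ka, al, ← mul_div_assoc, ← h]
  field_simp

theorem lsg_sm {d : ℝ} (hd : 0 < d) (k : I) : M.Sm fun x => Real.log (sg D k x + d) :=
  ((sg_sm D k).add (Mf.sm_const d)).log fun x => (add_pos_of_nonneg_of_pos (sg_nn D k x) hd).ne'

theorem pw_nn (t : ℝ) (x : M.X) : 0 ≤ pw D t x :=
  Finset.prod_nonneg fun k _ => Real.rpow_nonneg (sg_nn D k x) _

theorem pw_exp {x : M.X} (hx : x ∈ Of D) (t : ℝ) :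
    pw D t x = Real.exp (t * ∑ k, al D k * Real.log (sg D k x)) := by
  rw [pw, Finset.mul_sum, Real.exp_sum]
  exact Finset.prod_congr rfl fun k _ => by
    rw [Real.rpow_def_of_pos (sg_pos D hx k)]
    exact congrArg Real.exp (by ring)

end dk

variable (S : Sd M I)

theorem met : M.Met S.H := S.kae.toMet

theorem al_pos (k : I) : 0 < al S.toDk k := div_pos (Nat.cast_pos.2 (S.ap k)) (c_pos _)

theorem fl_or {m : ℕ} (hm : 2 ≤ m) (k : I) : 0 < fl S.toDk m k ∨ 0 < ka S.toDk m k := by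
  have h := fl_ka S.toDk (by omega : 1 ≤ m) k
  have h1 : (0 : ℝ) < ((m : ℝ) - 1) * al S.toDk k :=
    mul_pos (by have : (2 : ℝ) ≤ m := by exact_mod_cast hm
                linarith) (al_pos S k)
  by_contra c
  push Not at c
  have : (fl S.toDk m k : ℝ) = 0 := by exact_mod_cast Nat.le_zero.1 c.1
  linarith [c.2]

theorem lsg_le {d : ℝ} (hd : d ∈ Ioc (0 : ℝ) (1 / 2)) (k : I) (x : M.X) :
    Real.log (sg S.toDk k x + d) ≤ 0 :=
  Real.log_nonpos (add_nonneg (sg_nn _ k x) hd.1.le) (by linarith [S.sml k x, hd.2])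

theorem pot_sm {v : M.X → ℝ} (hv : M.Sm v) {d : ℝ} (hd : 0 < d) : M.Sm (pot S v d) :=
  (S.su.add hv).add (Mf.Sm.sum fun k _ => (lsg_sm _ hd k).const_mul _)

theorem pot_le {v : M.X → ℝ} {x : M.X} (hv : v x ≤ 0) {d : ℝ} (hd : d ∈ Ioc (0 : ℝ) (1 / 2)) :
    pot S v d x ≤ 0 :=
  add_nonpos (add_nonpos (S.u0 x) hv) (Finset.sum_nonpos fun k _ =>
    mul_nonpos_of_nonneg_of_nonpos (al_nn _ k) (lsg_le S hd k x))

theorem lf_sm (m : ℕ) {d : ℝ} (hd : 0 < d) : M.Sm (lf S m d) :=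
  Mf.Sm.sum fun k _ => (lsg_sm _ hd k).const_mul _

theorem lf_le (m : ℕ) {d : ℝ} (hd : d ∈ Ioc (0 : ℝ) (1 / 2)) (x : M.X) : lf S m d x ≤ 0 :=
  Finset.sum_nonpos fun k _ => mul_nonpos_of_nonneg_of_nonpos (ka_nn _ m k) (lsg_le S hd k x)

theorem exp_lf (m : ℕ) {d : ℝ} (hd : 0 < d) (x : M.X) :
    Real.exp (-lf S m d x) = ∏ k, (sg S.toDk k x + d) ^ (-ka S.toDk m k) := by
  rw [lf, ← Finset.sum_neg_distrib, Real.exp_sum]
  exact Finset.prod_congr rfl fun k _ => by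
    rw [Real.rpow_def_of_pos (add_pos_of_nonneg_of_pos (sg_nn _ k x) hd)]
    exact congrArg Real.exp (by ring)

theorem hs_lin {ι : Type} (s : Finset ι) (b : ι → ℝ) (g : ι → M.X → ℝ) (hg : ∀ k, M.Sm (g k)) :
    M.All fun e z => M.hs (fun x => ∑ k ∈ s, b k * g k x) e z = ∑ k ∈ s, b k • M.hs (g k) e z := by
  induction s using Finset.induction_on with
  | empty =>
    intro e he z hz
    simpa using ((mLAP n M _ _ (Mf.sm_const 0) (Mf.sm_const 0)).1 0 e he z hz).1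
  | insert k s hk ih =>
    intro e he z hz
    simp only [Finset.sum_insert hk]
    rw [((mLAP n M _ _ ((hg k).const_mul (b k))
      (Mf.Sm.sum fun j _ => (hg j).const_mul (b j))).1 0 e he z hz).2.1, ih e he z hz,
      ((mLAP n M _ _ (hg k) (hg k)).1 (b k) e he z hz).2.2.2.1]

theorem bf_clo : M.Clo (bf S) := by
  refine ((mHES n M).1 _ S.su).sub ?_
  induction (Finset.univ : Finset I) using Finset.induction_on with
  | empty => simpa using Mf.clo_zero
  | insert k s hk ih => rw [Finset.sum_insert hk]; exact ((S.wt k).clo.smul _).add ih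

theorem oms_clo (ε : ℝ) {v : M.X → ℝ} (hv : M.Sm v) : M.Clo (oms S ε v) :=
  (((bf_clo S).sub ((mHES n M).2.2.2.2.2.2.2.2.1 _ (met S))).add (S.kae.toClo.smul ε)).add
    ((mHES n M).1 _ hv)

theorem oms_T (ε : ℝ) (v : M.X → ℝ) : oms S ε v = S.toDk.T + M.hs S.u + ε • S.H + M.hs v := by
  simp only [oms, bf, Dk.T, al]
  abel

theorem pot_hs {v : M.X → ℝ} (hv : M.Sm v) {d : ℝ} (hd : 0 < d) : M.All fun e z =>
    M.hs (pot S v d) e z = M.hs S.u e z + M.hs v e z +
      ∑ k, al S.toDk k • M.hs (fun x => Real.log (sg S.toDk k x + d)) e z := fun e he z hz => by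
  have h1 := ((mLAP n M _ _ (S.su.add hv)
    (Mf.Sm.sum (s := Finset.univ) fun k _ => (lsg_sm S.toDk hd k).const_mul (al S.toDk k))).1
      0 e he z hz).2.1
  rw [((mLAP n M _ _ S.su hv).1 0 e he z hz).2.1,
    hs_lin _ _ _ (fun k => lsg_sm S.toDk hd k) e he z hz] at h1
  exact h1

/-! ### The bundles -/

theorem pm_wt (m : ℕ) : M.WtC (Lb S m) (pm S m) := by
  have k := (K3E.bKAN n M S.H m (met S)).1
  refine ⟨fun e he z hz => ((k.sm e he z hz).sub (ContDiffAt.sum fun j _ =>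
    contDiffAt_const.mul ((S.wt j).sm e he z hz))).add (contDiffAt_const.mul (S.su e he z hz)),
    fun e he e' he' x hx hx' => ?_⟩
  have a := k.cmp e he e' he' x hx hx'
  have b := fun j => (S.wt j).cmp e he e' he' x hx hx'
  have c := fun j => (Complex.normSq_pos.2 ((S.L j).ne e he e' he' x hx hx')).ne'
  have d := (Complex.normSq_pos.2 ((kan M m).ne e he e' he' x hx hx')).ne'
  beta_reduce at a b
  simp only [pm, Lb, e.left_inv hx, e'.left_inv hx', a, b, map_mul, map_inv₀, map_prod, map_pow]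
  rw [Real.log_mul d (inv_ne_zero (Finset.prod_ne_zero_iff.2 fun j _ => pow_ne_zero _ (c j))),
    Real.log_inv, Real.log_prod fun j _ => pow_ne_zero _ (c j)]
  simp only [Real.log_pow, mul_add, Finset.sum_add_distrib]
  ring

theorem lb_ok (m : ℕ) : (lb S m).Ok := (aLAM n M _ _ _ (met S) (pm_wt S m)).1

theorem lb_hl (m : ℕ) : (lb S m).Hl := (aLAM n M _ _ _ (met S) (pm_wt S m)).2.1

theorem lk_wt (m : ℕ) : M.WtC (kan M m) (wk S.H m) := (K3E.bKAN n M S.H m (met S)).1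

theorem lk_ok (m : ℕ) : (lk S.H m).Ok := (aLAM n M _ _ _ (met S) (lk_wt S m)).1

theorem lk_hl (m : ℕ) : (lk S.H m).Hl := (aLAM n M _ _ _ (met S) (lk_wt S m)).2.1

theorem hw_lin (s : Finset I) (b : I → ℝ) : M.All fun e z =>
    hess (fun w => ((∑ k ∈ s, b k * S.φ k e w : ℝ) : ℂ)) z = ∑ k ∈ s, b k • M.hw (S.φ k) e z := by
  induction s using Finset.induction_on with
  | empty => intro e he z hz; simp
  | insert k s hk ih =>
    intro e he z hz
    have s1 := (S.wt k).sm e he z hz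
    simp only [Finset.sum_insert hk, Complex.ofReal_add]
    rw [hess_add (cd_ofReal (contDiffAt_const.mul s1)) (cd_ofReal (ContDiffAt.sum fun j _ =>
      contDiffAt_const.mul ((S.wt j).sm e he z hz))), ih e he z hz, ← Mf.hw_smul _ s1]
    rfl

theorem pm_hw {m : ℕ} (hm : 1 ≤ m) : M.All fun e z => M.hw (pm S m) e z + M.ric S.H e z =
    ((m : ℝ) - 1) • (bf S e z - M.ric S.H e z) + ∑ k, ka S.toDk m k • M.hw (S.φ k) e z :=
  fun e he z hz => by
    obtain ⟨k1, k2⟩ := K3E.bKAN n M S.H m (met S)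
    have s1 := k1.sm e he z hz
    have s2 : ContDiffAt ℝ ∞ (fun w => ∑ k, (fl S.toDk m k : ℝ) * S.φ k e w) z :=
      ContDiffAt.sum fun j _ => contDiffAt_const.mul ((S.wt j).sm e he z hz)
    have s3 : ContDiffAt ℝ ∞ (fun w => S.u (e.symm w)) z := S.su e he z hz
    have h : M.hw (pm S m) e z = M.hw (wk S.H m) e z - ∑ k, (fl S.toDk m k : ℝ) • M.hw (S.φ k) e z +
        ((m : ℝ) - 1) • M.hs S.u e z := by
      rw [← hw_lin S _ _ e he z hz]
      simp only [Mf.hw, pm, Complex.ofReal_add, Complex.ofReal_sub (wk _ _ _ _),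
        Complex.ofReal_mul (_ - _)]
      rw [hess_add ((cd_ofReal s1).sub (cd_ofReal s2)) (contDiffAt_const.mul (cd_ofReal s3)),
        hess_sub (cd_ofReal s1) (cd_ofReal s2), hess_const_mul _ (cd_ofReal s3)]
      rfl
    have g : ∀ k, (fl S.toDk m k : ℝ) = ((m : ℝ) - 1) * al S.toDk k - ka S.toDk m k := fun k => by
      rw [← fl_ka S.toDk hm k]; ring
    rw [h, k2 e he z hz]
    simp only [g, bf, Pi.sub_apply, Finset.sum_apply, Pi.smul_apply, sub_smul, smul_sub,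
      Finset.sum_sub_distrib, Finset.smul_sum, smul_smul, one_smul, sub_mul, one_mul]
    abel

/-! ### The truncated weights -/

variable {S} {a : ℝ → M.X → ℝ} (hZ : Zs S a) (q : Sq)
include hZ

theorem a_sm (j : ℕ) : M.Sm (a (q.e j)) := hZ.out.sm _ (q.e0 j)

theorem tp_sm (j : ℕ) : M.Sm (tp a q j) :=
  Mf.Sm.comp (φ := q.χ j) (fun x => (q.sm j).contDiffAt) (a_sm hZ q j)

theorem tp_le (j : ℕ) (x : M.X) : tp a q j x ≤ 0 :=
  (q.lo j _).2.2.trans (max_le (hZ.out.le _ (q.e0 j) x) (by linarith [q.N1 j]))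

omit hZ in
theorem tp_ge (j : ℕ) (x : M.X) : -q.N j - 1 ≤ tp a q j x ∧ a (q.e j) x ≤ tp a q j x :=
  ⟨(q.lo j _).1, (q.lo j _).2.1⟩

theorem tp_hs (j : ℕ) : M.All fun e z => M.hs (tp a q j) e z =
    deriv (q.χ j) (a (q.e j) (e.symm z)) • M.hs (a (q.e j)) e z +
      deriv (deriv (q.χ j)) (a (q.e j) (e.symm z)) • M.ds (a (q.e j)) (a (q.e j)) e z :=
  fun e he z hz => (((mLAP n M _ _ (a_sm hZ q j) (a_sm hZ q j)).2.1 (q.χ j)
    fun x => (q.sm j).contDiffAt).2 e he z hz).1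

theorem ww_sm (m j : ℕ) : M.Sm (ww S a q m j) :=
  ((tp_sm hZ q j).const_mul _).add (lf_sm S m (q.d0 j).1)

theorem ww_le {m : ℕ} (hm : 1 ≤ m) (j : ℕ) (x : M.X) : ww S a q m j x ≤ 0 :=
  add_nonpos (mul_nonpos_of_nonneg_of_nonpos (sub_nonneg.2 (by exact_mod_cast hm)) (tp_le hZ q j x))
    (lf_le S m (q.d0 j) x)

theorem pj_sm (j : ℕ) : M.Sm (pj S a q j) := pot_sm S (tp_sm hZ q j) (q.d0 j).1

theorem pj_le (j : ℕ) (x : M.X) : pj S a q j x ≤ 0 := pot_le S (tp_le hZ q j x) (q.d0 j)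

theorem lj_wt (m j : ℕ) : M.WtC (Lb S m) (aw M (pm S m) (ww S a q m j)) :=
  ((pm_wt S m).addF (ww_sm hZ q m j)).1

theorem lj_ok (m j : ℕ) : (lj S a q m j).Ok := (aLAM n M _ _ _ (met S) (lj_wt hZ q m j)).1

theorem ww_hs (m j : ℕ) : M.All fun e z => M.hs (ww S a q m j) e z =
    ((m : ℝ) - 1) • M.hs (tp a q j) e z +
      ∑ k, ka S.toDk m k • M.hs (fun x => Real.log (sg S.toDk k x + q.d j)) e z :=
  fun e he z hz => by
    have h1 := ((mLAP n M _ _ ((tp_sm hZ q j).const_mul ((m : ℝ) - 1))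
      (lf_sm S m (q.d0 j).1)).1 0 e he z hz).2.1
    rw [((mLAP n M _ _ (tp_sm hZ q j) (tp_sm hZ q j)).1 _ e he z hz).2.2.2.1] at h1
    beta_reduce
    rw [← hs_lin _ _ _ (fun k => lsg_sm S.toDk (q.d0 j).1 k) e he z hz]
    exact h1

/-- The curvature of the weight number `j`. -/
theorem lj_cv {m : ℕ} (hm : 1 ≤ m) (j : ℕ) : M.All fun e z =>
    (M.hw (pm S m) + M.ric S.H + M.hs (ww S a q m j)) e z =
      ((m : ℝ) - 1) • oms S 0 (tp a q j) e z + ∑ k, ka S.toDk m k •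
        (M.hw (S.φ k) e z + M.hs (fun x => Real.log (sg S.toDk k x + q.d j)) e z) ∧
    (M.hw (aw M (pm S m) (ww S a q m j)) + M.ric S.H) e z =
      (M.hw (pm S m) + M.ric S.H + M.hs (ww S a q m j)) e z ∧
    oms S 0 (tp a q j) e z =
      deriv (q.χ j) (a (q.e j) (e.symm z)) • oms S (q.e j) (a (q.e j)) e z +
      (1 - deriv (q.χ j) (a (q.e j) (e.symm z))) • (bf S e z - M.ric S.H e z) -
      (deriv (q.χ j) (a (q.e j) (e.symm z)) * q.e j) • S.H e z +
      deriv (deriv (q.χ j)) (a (q.e j) (e.symm z)) • M.ds (a (q.e j)) (a (q.e j)) e z :=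
  fun e he z hz => by
    refine ⟨?_, ?_, ?_⟩
    · simp only [Pi.add_apply, pm_hw S hm e he z hz, ww_hs hZ q m j e he z hz, oms, Pi.sub_apply,
        zero_smul, add_zero, smul_add, Finset.sum_add_distrib]
      abel
    · have := ((pm_wt S m).addF (ww_sm hZ q m j)).2 e he z hz
      simp only [Pi.add_apply]
      rw [aw, this]
      abel
    · simp only [Pi.add_apply, oms, Pi.sub_apply, Pi.smul_apply, zero_smul, add_zero,
        tp_hs hZ q j e he z hz, smul_add, smul_smul, sub_smul, one_smul]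
      abel

omit hZ

/-! ### The product with the equations -/

variable (S)

/-- The factor between the two metrics. -/
def fa (m : ℕ) (x : M.X) : ℝ :=
  (∏ k, sg S.toDk k x ^ fl S.toDk m k) * Real.exp (((m : ℝ) - 1) * S.u x)

theorem fa_nn (m : ℕ) (x : M.X) : 0 ≤ fa S m x :=
  mul_nonneg (Finset.prod_nonneg fun k _ => pow_nonneg (sg_nn _ k x) _) (Real.exp_pos _).le

theorem fa_pos (m : ℕ) {x : M.X} (hx : x ∈ Of S.toDk) : 0 < fa S m x :=
  mul_pos (Finset.prod_pos fun k _ => pow_pos (sg_pos _ hx k) _) (Real.exp_pos _)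

theorem fa_le {m : ℕ} (hm : 1 ≤ m) (x : M.X) : fa S m x ≤ 1 :=
  mul_le_one₀ (Finset.prod_le_one (fun k _ => pow_nonneg (sg_nn _ k x) _) fun k _ =>
    pow_le_one₀ (sg_nn _ k x) (by linarith [S.sml k x])) (Real.exp_pos _).le
    (Real.exp_le_one_iff.2 (mul_nonpos_of_nonneg_of_nonpos
      (sub_nonneg.2 (by exact_mod_cast hm)) (S.u0 x)))

theorem fa_sm (m : ℕ) : M.Sm (fa S m) := fun e he z hz =>
  (contDiffAt_prod fun k _ => (sg_sm S.toDk k e he z hz).pow _).mul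
    ((S.su.const_mul _).exp e he z hz)

/-- The product of the equations. -/
def pf (m : ℕ) : M.Fam ℂ := fun e z => ∏ k, S.f k e z ^ fl S.toDk m k

theorem up_eq (m : ℕ) (W : M.Fam (Fs n → ℂ)) (e : M.Ch) (z : E n) :
    up S m W e z = pf S m e z • W e z := rfl

theorem pf_hol (m : ℕ) : M.All fun e z => HolN (pf S m e) z := fun e he z hz => by
  filter_upwards [eventually_all.2 fun k => (S.hol k).holN e he z hz] with w b
  exact (HasFDerivAt.finsetProd fun k _ => ((b k).fun_pow _).hasFDerivAt).differentiableAt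

theorem pf_sm (m : ℕ) : M.All fun e z => ContDiffAt ℝ ∞ (pf S m e) z := fun e he z hz =>
  contDiffAt_prod fun k _ => ((S.hol k).sm e he z hz).pow _

theorem pf_ne (m : ℕ) {e : M.Ch} (he : e ∈ M.C) {z : E n} (hz : z ∈ e.target)
    (h : e.symm z ∈ Of S.toDk) : pf S m e z ≠ 0 :=
  Finset.prod_ne_zero_iff.2 fun k _ => pow_ne_zero _ ((mem_Of _ he hz).1 h k)

theorem pf_cmp (m : ℕ) : M.Ov fun e e' x =>
    pf S m e' (e' x) = pf S m e (e x) * ∏ k, (S.L k).c e e' x ^ fl S.toDk m k :=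
  fun e he e' he' x hx hx' => by
    simp only [pf, ← Finset.prod_mul_distrib, ← mul_pow]
    exact Finset.prod_congr rfl fun k _ => by rw [(S.hol k).cmp e he e' he' x hx hx']

theorem lb_T (m : ℕ) (e e' : M.Ch) (x : M.X) : (lb S m).T e e' x =
    (∏ k, (S.L k).c e e' x ^ fl S.toDk m k) • (lk S.H m).T e e' x := by
  simp only [lam, Lb, mul_inv, inv_inv, smul_smul, mul_comm]

theorem lk_T (m : ℕ) (e e' : M.Ch) (x : M.X) :
    (lk S.H m).T e e' x = (jd M e e' x ^ m)⁻¹ • La (M.J e e' x) := by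
  simp only [lam, kan, K3E.triv, Mf.Co.tw, mul_one]

theorem up_sec {m : ℕ} {W : M.Fam (Fs n → ℂ)} (h : (lb S m).Sec W) :
    (lk S.H m).Sec (up S m W) :=
  ⟨fun e he z hz => (pf_sm S m e he z hz).smul (h.sm e he z hz), fun e he e' he' x hx hx' => by
    beta_reduce
    rw [up_eq, up_eq, h.cmp e he e' he' x hx hx', pf_cmp S m e he e' he' x hx hx', lb_T,
      Matrix.smul_mulVec, Matrix.mulVec_smul, smul_smul]⟩

theorem up_hol {m : ℕ} {W : M.Fam (Fs n → ℂ)} (h : Hol W) : Hol (up S m W) :=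
  fun e he z hz i => ((pf_hol S m e he z hz).and (h e he z hz i)).mono fun w b => b.1.mul b.2

theorem up_hm {m : ℕ} {W : M.Fam (Fs n → ℂ)} (h : (lb S m).Sec W) (h' : Hol W) :
    HM M m (up S m W) :=
  ⟨up_hol S h', fun e he e' he' x hx hx' => by
    have := (up_sec S h).cmp e he e' he' x hx hx'
    beta_reduce at this ⊢
    rw [this, lk_T, Matrix.smul_mulVec]⟩

theorem up_dg {m d : ℕ} {W : M.Fam (Fs n → ℂ)} (h : DgM M d W) : DgM M d (up S m W) :=
  fun e he z hz A hA => by rw [up_eq, Pi.smul_apply, h e he z hz A hA, smul_zero]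

theorem g_up (m : ℕ) : M.All fun e z =>
    (star (pf S m e z) * pf S m e z) • (lk S.H m).G e z =
      (fa S m (e.symm z) : ℂ) • (lb S m).G e z := fun e he z hz => by
  have h : Complex.normSq (pf S m e z) * Real.exp (-wk S.H m e z) =
      fa S m (e.symm z) * Real.exp (-pm S m e z) := by
    simp only [fa, pf, pm, map_prod, map_pow, fun k => sg_rep S.toDk k e he z hz, mul_pow,
      Finset.prod_mul_distrib, ← Real.exp_nat_mul, ← Real.exp_sum, mul_assoc, ← Real.exp_add]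
    congr 2
    simp only [mul_neg, Finset.sum_neg_distrib]
    ring
  simp only [lam, smul_smul]
  rw [← Complex.ofReal_mul, ← h, Complex.ofReal_mul, Complex.normSq_eq_conj_mul_self]
  rfl

theorem dot_up (m : ℕ) {e : M.Ch} (he : e ∈ M.C) {z : E n} (hz : z ∈ e.target)
    (A B : Fs n → ℂ) : star (pf S m e z • A) ⬝ᵥ (lk S.H m).G e z *ᵥ (pf S m e z • B) =
      (fa S m (e.symm z) : ℂ) * (star A ⬝ᵥ (lb S m).G e z *ᵥ B) := by
  have := congrArg (fun G => star A ⬝ᵥ G *ᵥ B) (g_up S m e he z hz)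
  simp only [Matrix.smul_mulVec, dotProduct_smul, smul_eq_mul] at this
  rw [← this, star_smul, Matrix.mulVec_smul, smul_dotProduct, dotProduct_smul, smul_eq_mul,
    smul_eq_mul, mul_assoc]

theorem pp_up (m : ℕ) (W U : M.Fam (Fs n → ℂ)) (x : M.X) :
    (lk S.H m).pp (up S m W) (up S m U) x = (fa S m x : ℂ) * (lb S m).pp W U x := by
  have := dot_up S m (Mf.ch_mem x) (Mf.ch_tgt x) (M.ev W x) (M.ev U x)
  rwa [Mf.ch_symm] at this

theorem pn_up (m : ℕ) (W : M.Fam (Fs n → ℂ)) (x : M.X) :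
    (lk S.H m).pn (up S m W) x = fa S m x * (lb S m).pn W x := by
  rw [Bun.pn, pp_up, Complex.re_ofReal_mul, Bun.pn]

theorem cu_up (m : ℕ) (θ : M.Fam (Mat n)) (W : M.Fam (Fs n → ℂ)) (x : M.X) :
    cu θ (lk S.H m) (up S m W) x = fa S m x * cu θ (lb S m) W x := by
  have := fun A B => dot_up S m (Mf.ch_mem x) (Mf.ch_tgt x) A B
  rw [Mf.ch_symm] at this
  simp only [cu, Mf.ev, up_eq, Matrix.mulVec_smul]
  rw [← Complex.re_ofReal_mul, Finset.mul_sum]
  refine congrArg Complex.re (Finset.sum_congr rfl fun k _ => ?_)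
  rw [Finset.mul_sum]
  refine Finset.sum_congr rfl fun l _ => ?_
  have h := this (an l *ᵥ W (M.ch x) (M.ch x x)) (an k *ᵥ W (M.ch x) (M.ch x x))
  rw [Matrix.mulVec_smul] at h
  rw [h]
  ring

theorem cu_aw (H θ : M.Fam (Mat n)) (L : M.Co) (φ : M.Fam ℝ) (w : M.X → ℝ)
    (W : M.Fam (Fs n → ℂ)) (x : M.X) :
    cu θ (lam H L (aw M φ w)) W x = Real.exp (-w x) * cu θ (lam H L φ) W x := by
  simp only [cu, Mf.ev, LAM.g_aw, Matrix.smul_mulVec, dotProduct_smul, smul_eq_mul]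
  rw [← Complex.re_ofReal_mul, Finset.mul_sum]
  refine congrArg Complex.re (Finset.sum_congr rfl fun k _ => ?_)
  rw [Finset.mul_sum]
  exact Finset.sum_congr rfl fun l _ => by ring

theorem pp_lj (m j : ℕ) (W U : M.Fam (Fs n → ℂ)) (x : M.X) :
    (lj S a q m j).pp W U x = (lb S m).pp W U x * (Real.exp (-ww S a q m j x) : ℝ) :=
  (((aLAM n M _ _ _ (met S) (pm_wt S m)).2.2 _).2 W U x).1

theorem pn_lj (m j : ℕ) (W : M.Fam (Fs n → ℂ)) (x : M.X) :
    (lj S a q m j).pn W x = (lb S m).pn W x * Real.exp (-ww S a q m j x) :=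
  (((aLAM n M _ _ _ (met S) (pm_wt S m)).2.2 _).2 W W x).2.1

/-- The comparison of the total weights. -/
theorem fa_pj {m : ℕ} (hm : 1 ≤ m) (j : ℕ) (x : M.X) :
    Real.exp (-(((m : ℝ) - 1) * pj S a q j x)) * fa S m x = Real.exp (-ww S a q m j x) *
      ∏ k, (sg S.toDk k x / (sg S.toDk k x + q.d j)) ^ fl S.toDk m k := by
  have p := fun k => add_pos_of_nonneg_of_pos (sg_nn S.toDk k x) (q.d0 j).1
  have h : ∏ k, ((sg S.toDk k x + q.d j) ^ fl S.toDk m k)⁻¹ =
      Real.exp (-∑ k, fl S.toDk m k * Real.log (sg S.toDk k x + q.d j)) := by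
    rw [← Finset.sum_neg_distrib, Real.exp_sum]
    exact Finset.prod_congr rfl fun k _ => by
      rw [Real.exp_neg, Real.exp_nat_mul, Real.exp_log (p k)]
  simp only [div_eq_mul_inv, mul_pow, inv_pow, Finset.prod_mul_distrib, h, fa]
  rw [mul_left_comm, mul_left_comm (Real.exp _), ← Real.exp_add, ← Real.exp_add]
  congr 2
  simp only [pot, ww, lf, mul_add, Finset.mul_sum, ← mul_assoc, ← fl_ka S.toDk hm, add_mul,
    Finset.sum_add_distrib]
  ring

theorem fa_pj_le {m : ℕ} (hm : 1 ≤ m) (j : ℕ) (x : M.X) :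
    Real.exp (-(((m : ℝ) - 1) * pj S a q j x)) * fa S m x ≤ Real.exp (-ww S a q m j x) := by
  have p := fun k => add_pos_of_nonneg_of_pos (sg_nn S.toDk k x) (q.d0 j).1
  rw [fa_pj S q hm]
  exact mul_le_of_le_one_right (Real.exp_pos _).le (Finset.prod_le_one
    (fun k _ => pow_nonneg (div_nonneg (sg_nn _ k x) (p k).le) _) fun k _ => pow_le_one₀
      (div_nonneg (sg_nn _ k x) (p k).le) ((div_le_one (p k)).2 (by linarith [(q.d0 j).1])))

/-- The operator `Q` commutes with the product. -/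
theorem q_up {m : ℕ} {W : M.Fam (Fs n → ℂ)} (h : M.All fun e z => ContDiffAt ℝ ∞ (W e) z) :
    M.All fun e z => (oQ S.H).ap (up S m W) e z = up S m ((oQ S.H).ap W) e z := fun e he z hz => by
  have d : ∀ l, dzbv l (up S m W e) z = pf S m e z • dzbv l (W e) z := fun l => funext fun i => by
    have := dzb_mul (j := l) (cd_diff (pf_sm S m e he z hz))
      (cd_diff (contDiffAt_pi.1 (h e he z hz) i))
    rw [((mHOL n _ _).1 (cd_diff (pf_sm S m e he z hz))).1 (pf_hol S m e he z hz).self_of_nhds l,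
      zero_mul, zero_add] at this
    exact this
  simp only [Op.ap, oQ, up_eq, d, Matrix.zero_mulVec, zero_add, add_zero, Matrix.mulVec_smul,
    Finset.smul_sum, smul_zero]

/-- The derivative of the norm of an equation. -/
theorem dz_sg (k : I) {e : M.Ch} (he : e ∈ M.C) {z : E n} (hz : z ∈ e.target)
    (h : S.f k e z ≠ 0) (i : Fin n) : dz i (M.lc (sg S.toDk k) e) z = (sg S.toDk k (e.symm z) : ℂ) *
      (dz i (S.f k e) z / S.f k e z - dz i (fun w => (S.φ k e w : ℂ)) z) := by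
  obtain ⟨l1, -, l3⟩ := ((mHOL n _ _).2.2 ((S.hol k).holN e he z hz)).2.2.2 h
  have s1 := (S.wt k).sm e he z hz
  have ev : M.lc (sg S.toDk k) e =ᶠ[𝓝 z] fun w =>
      ((Real.exp (Real.log (Complex.normSq (S.f k e w)) - S.φ k e w) : ℝ) : ℂ) := by
    filter_upwards [e.open_target.mem_nhds hz,
      ((S.hol k).hol e he z hz).continuousAt.eventually_ne h] with w hw h0
    rw [Mf.lc, sg_rep S.toDk k e he w hw, sub_eq_add_neg, Real.exp_add,
      Real.exp_log (Complex.normSq_pos.2 h0)]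
  have e0 := ev.self_of_nhds
  rw [dz_congr ev, dz_comp_real (Real.hasDerivAt_exp _) (cd_diff (l1.sub s1)), ← l3 i,
    ← dz_sub (cd_diff (cd_ofReal l1)) (cd_diff (cd_ofReal s1))]
  simp only [Mf.lc] at e0
  simp only [e0, Complex.ofReal_sub]

theorem dz_pf (m : ℕ) {e : M.Ch} (he : e ∈ M.C) {z : E n} (hz : z ∈ e.target)
    (h : e.symm z ∈ Of S.toDk) (i : Fin n) : dz i (pf S m e) z =
      pf S m e z * ∑ k, (fl S.toDk m k : ℂ) * (dz i (S.f k e) z / S.f k e z) := by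
  have h0 := (mem_Of _ he hz).1 h
  have l := fun k => ((mHOL n _ _).2.2 ((S.hol k).holN e he z hz)).2.2.2 (h0 k)
  have l3 := (((mHOL n _ _).2.2 (pf_hol S m e he z hz)).2.2.2 (pf_ne S m he hz h)).2.2 i
  have ev : (fun w => ((Real.log (Complex.normSq (pf S m e w)) : ℝ) : ℂ)) =ᶠ[𝓝 z] fun w =>
      ∑ k, (fl S.toDk m k : ℂ) * ((Real.log (Complex.normSq (S.f k e w)) : ℝ) : ℂ) := by
    filter_upwards [ev_Of _ he hz h] with w hw
    have := fun k => (Complex.normSq_pos.2 ((mem_Of _ he hw.1).1 hw.2 k)).ne'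
    simp only [pf, map_prod, map_pow]
    rw [Real.log_prod fun k _ => pow_ne_zero _ (this k)]
    simp only [Real.log_pow, Complex.ofReal_sum, Complex.ofReal_mul, Complex.ofReal_natCast]
  rw [dz_congr ev, dz_sum fun k _ => cd_diff (contDiffAt_const.mul (cd_ofReal (l k).1))] at l3
  simp only [fun k => dz_const_mul (j := i) (fl S.toDk m k : ℂ) (cd_diff (cd_ofReal (l k).1)),
    fun k => (l k).2.2 i] at l3
  rw [l3, mul_div_cancel₀ _ (pf_ne S m he hz h)]

theorem dz_lsg (k : I) {d : ℝ} (hd : 0 < d) {e : M.Ch} (he : e ∈ M.C) {z : E n}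
    (hz : z ∈ e.target) (i : Fin n) :
    dz i (fun w => ((Real.log (sg S.toDk k (e.symm w) + d) : ℝ) : ℂ)) z =
      ((sg S.toDk k (e.symm z) + d)⁻¹ : ℝ) * dz i (M.lc (sg S.toDk k) e) z := by
  have p := (add_pos_of_nonneg_of_pos (sg_nn S.toDk k (e.symm z)) hd).ne'
  have h := (Real.hasDerivAt_log p).comp (sg S.toDk k (e.symm z))
    ((hasDerivAt_id _).add_const d)
  rw [mul_one] at h
  exact dz_comp_real (u := fun w => sg S.toDk k (e.symm w)) h (cd_diff (sg_sm _ k e he z hz))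

/-- Change of the frame and of the weight in the operator `P`. -/
theorem p_frame {H : M.Fam (Mat n)} {ψ ψ' : M.Fam ℝ} {g : M.Fam ℂ} {W : M.Fam (Fs n → ℂ)}
    {e : M.Ch} {z : E n} (hg : DifferentiableAt ℝ (g e) z) (hW : DifferentiableAt ℝ (W e) z) :
    (oP H ψ).ap (fun e z => g e z • W e z) e z = g e z • (oP H ψ').ap W e z +
      anv (fun i => dz i (g e) z - g e z * (dz i (fun w => (KP.T60.phC M H ψ e w : ℂ)) z -
        dz i (fun w => (KP.T60.phC M H ψ' e w : ℂ)) z)) *ᵥ W e z := by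
  have d : ∀ l, dzv l (fun z => g e z • W e z) z = dz l (g e) z • W e z + g e z • dzv l (W e) z :=
    fun l => funext fun i => dz_mul hg (differentiableAt_pi.1 hW i)
  simp only [Op.ap, oP, d, Matrix.zero_mulVec, add_zero, Matrix.mulVec_add, Matrix.mulVec_smul,
    anv, Matrix.sum_mulVec, Matrix.smul_mulVec, Matrix.neg_mulVec, smul_add, smul_neg,
    Finset.smul_sum, smul_smul, sub_smul, mul_sub, Finset.sum_add_distrib, Finset.sum_sub_distrib,
    Matrix.sub_mulVec]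
  abel

variable {S}
include hZ

theorem ph_dif {m : ℕ} (hm : 1 ≤ m) (j : ℕ) {e : M.Ch} (he : e ∈ M.C) {z : E n}
    (hz : z ∈ e.target) (i : Fin n) :
    dz i (fun w => (KP.T60.phC M S.H (wt M S.H m (pj S a q j)) e w : ℂ)) z -
      dz i (fun w => (KP.T60.phC M S.H (aw M (pm S m) (ww S a q m j)) e w : ℂ)) z =
    ∑ k, (fl S.toDk m k : ℂ) * (dz i (fun w => (S.φ k e w : ℂ)) z +
      ((sg S.toDk k (e.symm z) + q.d j)⁻¹ : ℝ) * dz i (M.lc (sg S.toDk k) e) z) := by
  have s1 := KP.T60.phC_sm (met S) ((lk_wt S m).addF ((pj_sm hZ q j).const_mul ((m : ℝ) - 1))).1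
    he hz
  have s2 := KP.T60.phC_sm (met S) (lj_wt hZ q m j) he hz
  have s3 := fun k => cd_diff ((S.wt k).smC e he z hz)
  have s4 : ∀ k, DifferentiableAt ℝ
      (fun w => ((Real.log (sg S.toDk k (e.symm w) + q.d j) : ℝ) : ℂ)) z :=
    fun k => cd_diff ((lsg_sm S.toDk (q.d0 j).1 k).lc e he z hz)
  have ev : ∀ w, ((KP.T60.phC M S.H (wt M S.H m (pj S a q j)) e w : ℝ) : ℂ) -
      (KP.T60.phC M S.H (aw M (pm S m) (ww S a q m j)) e w : ℝ) = ∑ k, (fl S.toDk m k : ℂ) *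
        ((S.φ k e w : ℂ) + (Real.log (sg S.toDk k (e.symm w) + q.d j) : ℝ)) := fun w => by
    have : KP.T60.phC M S.H (wt M S.H m (pj S a q j)) e w -
        KP.T60.phC M S.H (aw M (pm S m) (ww S a q m j)) e w = ∑ k, (fl S.toDk m k : ℝ) *
          (S.φ k e w + Real.log (sg S.toDk k (e.symm w) + q.d j)) := by
      simp only [KP.T60.phC, wt, aw, Pi.add_apply, pm, pot, ww, lf, mul_add, Finset.mul_sum,
        ← mul_assoc, ← fl_ka S.toDk hm, add_mul, Finset.sum_add_distrib]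
      ring
    exact_mod_cast this
  refine (dz_sub (cd_diff (cd_ofReal s1)) (cd_diff (cd_ofReal s2))).symm.trans
    ((dz_congr (Eventually.of_forall ev)).trans ?_)
  rw [dz_sum fun k _ => ((s3 k).fun_add (s4 k)).const_mul _]
  exact Finset.sum_congr rfl fun k _ => by
    rw [dz_const_mul _ ((s3 k).fun_add (s4 k)), dz_add (s3 k) (s4 k), dz_lsg S k (q.d0 j).1 he hz]

/-- The weighted divergence of the product. -/
theorem p_up {m : ℕ} (hm : 1 ≤ m) (j : ℕ) {W : M.Fam (Fs n → ℂ)}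
    (h : M.All fun e z => ContDiffAt ℝ ∞ (W e) z) : M.All fun e z => e.symm z ∈ Of S.toDk →
    Pd S a q m j (up S m W) e z =
      up S m ((oP S.H (aw M (pm S m) (ww S a q m j))).ap W) e z +
        ∑ k, ((fl S.toDk m k * q.d j / ((sg S.toDk k (e.symm z) + q.d j) *
          sg S.toDk k (e.symm z)) : ℝ) : ℂ) • iot M (sg S.toDk k) (up S m W) e z := by
  intro e he z hz hx
  have h0 := (mem_Of _ he hz).1 hx
  refine (p_frame (ψ' := aw M (pm S m) (ww S a q m j)) (g := pf S m)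
    (cd_diff (pf_sm S m e he z hz)) (cd_diff (h e he z hz))).trans ?_
  rw [up_eq]
  congr 1
  simp only [iot, up_eq, anv, gd, Matrix.sum_mulVec, Matrix.smul_mulVec, Matrix.mulVec_smul,
    Finset.smul_sum, smul_smul]
  rw [Finset.sum_comm]
  refine Finset.sum_congr rfl fun i _ => ?_
  rw [← Finset.sum_smul, ph_dif hZ q hm j he hz, dz_pf S m he hz hx, ← mul_sub,
    ← Finset.sum_sub_distrib, Finset.mul_sum]
  refine congrArg (· • _) (Finset.sum_congr rfl fun k _ => ?_)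
  have p1 : ((sg S.toDk k (e.symm z) : ℝ) : ℂ) ≠ 0 := by exact_mod_cast hx k
  have p2 : ((sg S.toDk k (e.symm z) : ℝ) : ℂ) + (q.d j : ℝ) ≠ 0 := by
    exact_mod_cast (add_pos_of_nonneg_of_pos (sg_nn S.toDk k (e.symm z)) (q.d0 j).1).ne'
  rw [dz_sg S k he hz (h0 k)]
  push_cast
  field_simp
  ring

end Pool.Agent.Lib.N4S.K78
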