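import Pool.Agent.Lib.NU4.B_PPI
import Pool.Agent.Lib.NU4.B_NIL
import Pool.Agent.Lib.NU4.B_FK
import Pool.Agent.Lib.NU4.B_ALG
import Pool.Agent.Lib.NU4.B_PW
import Pool.Agent.Lib.NU4.B_LIE
import Pool.Agent.Lib.NU4.B_KIT
import Pool.Agent.Lib.NU4.B_IBP
import Pool.Agent.Lib.NU4.B_NAB

/-! Project n4s: two parallel objects and the tangent bracket, for any family of potentials. -/

open scoped Classical Topology ContDiff ComplexOrder Matrix
open Set Filter MeasureTheory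

set_option linter.unusedVariables false

noncomputable section

namespace Pool.Agent.Lib.N4S.P55

open Pool.Agent.Lib.SV (E)
open Pool.Agent.Lib.HS32 Pool.Agent.Lib.HLK Pool.Agent.Lib.F4 Pool.Agent.Lib.NU4
open Pool.Agent.Lib.K3E (kan wk lk)

/-- `W` is parallel in the mean along the potentials `a j`. -/
abbrev Pl {n : ℕ} (M : Mf n) (H : M.Fam (Mat n)) {ι : Type} (F : Filter ι) (a : ι → M.X → ℝ)
    (m : ℕ) (W : M.Fam (Fs n → ℂ)) : Prop :=
  Tendsto (fun j => ∫ x, √((lk H m).pn ((oP H (wt M H m (a j))).ap W) x) ∂M.mu H) F (𝓝 0)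

section

variable {n : ℕ} {M : Mf n} {H : M.Fam (Mat n)} {ι : Type} {F : Filter ι}

open P79 in
theorem one [M.Cpt] [F.NeBot] {a : ι → M.X → ℝ} {m l : ℕ} {W : M.Fam (E n)} (hc : M.Kae H)
    (ha : ∀ᶠ j in F, M.Sm (a j)) (hm : 2 ≤ m) (hW : HT M m W) (t1 : Pl M H F a m (vec M W))
    {π : M.Fam (Fs n → ℂ)} (hπ : HM M l π) (t2 : Pl M H F a l π) (h0 : Zr M (wd M W π)) :
    Zr M (nab M m l W π) := by
  have hFK := st_FK
  have hKIT := st_KIT
  have hIBP := st_IBP st_KIT st_FK st_PW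
  intro e he z hz
  funext A
  have hH := hc.toMet
  have m0 : (m : ℂ) - 1 ≠ 0 := sub_ne_zero.2 (by exact_mod_cast (by omega : m ≠ 1))
  have s1 : (lk H m).Sec (vec M W) :=
    ((hKIT n M H m _ hH).1.1 ((hKIT n M H m 0 hH).2.1 W hW).1).1
  have s2 : (lk H l).Sec π := ((hKIT n M H l _ hH).1.1 hπ).1
  have sW : M.All fun e z => ∀ k, ContDiffAt ℝ ∞ (fun w => W e w k) z := fun e he z hz k =>
    ((mHOL n _ z).2.2 (hW.hol e he z hz k)).1
  have sπ := contDiffAt_pi.1 (s2.sm e he z hz)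
  have o := fun k => aLAM n M H _ _ hH (K3E.bKAN n M H k hH).1
  have sp : ∀ k Y u, (lk H k).Sec Y → M.Sm u → (lk H k).Sec ((oP H (wt M H k u)).ap Y) :=
    fun k Y u s su =>
      have t := aSP n M H _ _ Y hH (((o k).2.2 _).1 (su.const_mul ((k : ℝ) - 1))).1 ⟨s.sm, s.cmp⟩
      ⟨t.sm, t.cmp⟩
  refine two hH (o m).1 (o m).2.1 (o l).1 (o l).2.1 t1 t2 he hz (f := fun y => nab M m l W π e y A)
    (K := fun y => ∑ B, ‖crv (W e y) A B‖ + ‖((l : ℂ) - 1) / ((m : ℂ) - 1) * π e y A‖) ?_ ?_ ?_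
  · exact ((cd_mv (cd_crv (sW e he z hz)) (cd_pf0 sπ) A).sub ((contDiffAt_const.mul
      (ContDiffAt.sum fun k _ => cd_dz (sW e he z hz k) k)).mul (sπ A))).continuousAt
  · exact (tendsto_finsetSum _ fun B _ => (cd_crv (sW e he z hz) A B).continuousAt.norm).add
      (continuousAt_const.mul (sπ A).continuousAt).norm
  filter_upwards [ha] with ε su
  refine ⟨sp m _ _ s1 su, sp l _ _ s2 su, fun y hy => ?_⟩
  obtain ⟨-, e1, e2⟩ := (hIBP n M H m _ _ _ hc su su s1).2.2.2.1 e he y hy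
  obtain ⟨-, e3, e4⟩ := (hIBP n M H l _ _ _ hc su su s2).2.2.2.1 e he y hy
  set p := gd (ld (H e)) y + gd (M.lc (a ε) e) y with hp
  obtain ⟨-, -, f1, -, -, -, -, -, -, -, -, f2, -⟩ := hFK n (W e y) 0 p 0 0 0
  have f3 : anv p = _ := (hFK n _ _ 0 0 0 0).2.2.2.2.2.2.2.2.1
  have g1 : (oP H (wt M H m (a ε))).ap (vec M W) e y ∅ =
      dv (W e) y - ((m : ℂ) - 1) * (p ⬝ᵥ W e y) := by
    have : (oP H (wt M H m (a ε))).ap (vec M W) e y =
        dv (W e) y • vac n - ((m : ℂ) - 1) • anv p *ᵥ crv (W e y) *ᵥ vac n := by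
      rw [e1, e2, f3, Matrix.add_mulVec, smul_add, ← pf0_vec hFK (sW e he y hy), sub_sub]
      rfl
    rw [this, Matrix.mulVec_mulVec, eq_sub_of_add_eq f1, Matrix.sub_mulVec, ← Matrix.mulVec_mulVec,
      f2, Matrix.mulVec_zero, sub_zero, Matrix.smul_mulVec, Matrix.one_mulVec]
    simp [vac]
  have g2 : pf0 (π e) y = (oP H (wt M H l (a ε))).ap π e y + ((l : ℂ) - 1) • anv p *ᵥ π e y := by
    rw [e3, e4, f3, Matrix.add_mulVec, smul_add, sub_sub]
    exact (sub_add_cancel _ _).symm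
  have g3 : crv (W e y) *ᵥ anv p *ᵥ π e y = (p ⬝ᵥ W e y) • π e y := by
    have z0 : crv (W e y) *ᵥ π e y = 0 := h0 e he y hy
    rw [Matrix.mulVec_mulVec, eq_sub_of_add_eq' f1, Matrix.sub_mulVec, ← Matrix.mulVec_mulVec, z0,
      Matrix.mulVec_zero, sub_zero, Matrix.smul_mulVec, Matrix.one_mulVec]
  have g4 : nab M m l W π e y A = (crv (W e y) *ᵥ (oP H (wt M H l (a ε))).ap π e y) A -
      ((l : ℂ) - 1) / ((m : ℂ) - 1) * π e y A * (oP H (wt M H m (a ε))).ap (vec M W) e y ∅ := by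
    rw [g1, nab, lie, g2, Matrix.mulVec_add, Matrix.mulVec_smul, g3]
    simp only [Pi.sub_apply, Pi.add_apply, Pi.smul_apply, smul_eq_mul]
    field_simp
    ring
  rw [g4]
  refine (norm_sub_le _ _).trans ?_
  rw [norm_mul]
  have b1 := norm_le_pi_norm ((oP H (wt M H m (a ε))).ap (vec M W) e y) ∅
  have b2 := mv_le (crv (W e y)) ((oP H (wt M H l (a ε))).ap π e y) A
  have b3 := norm_nonneg (((l : ℂ) - 1) / ((m : ℂ) - 1) * π e y A)
  have b4 : 0 ≤ ∑ B, ‖crv (W e y) A B‖ := Finset.sum_nonneg fun _ _ => norm_nonneg _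
  nlinarith [mul_le_mul_of_nonneg_left b1 b3,
    mul_nonneg b4 (norm_nonneg ((oP H (wt M H m (a ε))).ap (vec M W) e y)),
    mul_nonneg b3 (norm_nonneg ((oP H (wt M H l (a ε))).ap π e y))]

/-- Two parallel objects. -/
theorem ppi55 [M.Cpt] [F.NeBot] {a : ι → M.X → ℝ} {m l : ℕ} {W : M.Fam (E n)} (hc : M.Kae H)
    (ha : ∀ᶠ j in F, M.Sm (a j)) (hm : 2 ≤ m) (hl : 2 ≤ l) (hW : HT M m W)
    (pW : Pl M H F a m (vec M W)) :
    (∀ π, HM M l π → Pl M H F a l π → Zr M (wd M W π) → Zr M (nab M m l W π)) ∧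
    ∀ U, HT M l U → Pl M H F a l (vec M U) → Zr M (wd M W (vec M U)) → M.All fun e z =>
      (dv (U e) z / ((l : ℂ) - 1)) • W e z = (dv (W e) z / ((m : ℂ) - 1)) • U e z := by
  have hFK := st_FK
  have hKIT := st_KIT
  refine ⟨fun π hπ pπ h0 => one hc ha hm hW pW hπ pπ h0,
    fun U hU pU h0 e he z hz => funext fun k => ?_⟩
  have h := congrFun (one hc ha hm hW pW
    ((hKIT n M H l 0 hc.toMet).2.1 U hU).1 pU h0 e he z hz) {k}
  have l0 : (l : ℂ) - 1 ≠ 0 := sub_ne_zero.2 (by exact_mod_cast (by omega : l ≠ 1))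
  have v : ∀ u : E n, (crv u *ᵥ vac n) {k} = u k := fun u =>
    (hFK n u 0 0 0 0 0).2.2.2.2.2.2.2.2.2.2.2.2.2.2.1 k
  have p : pf0 (vec M U e) z = dv (U e) z • vac n :=
    P79.pf0_vec hFK fun i => ((mHOL n _ z).2.2 (hU.hol e he z hz i)).1
  simp only [nab, lie, p, vec, Matrix.mulVec_smul, Pi.sub_apply, Pi.smul_apply, v, smul_eq_mul,
    Pi.zero_apply] at h
  simp only [Pi.smul_apply, smul_eq_mul]
  rw [div_mul_eq_mul_div, div_eq_iff l0, sub_eq_zero.1 h]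
  ring

end

open NIL in
/-- The bracket is tangent to the plane; the recurrence for `W` is a hypothesis. -/
theorem nil55 {M : Mf 4} [M.Cpt] {H : M.Fam (Mat 4)} {W V : M.Fam (E 4)} {π : M.Fam (Fs 4 → ℂ)}
    (hH : M.Met H) (no : NoS M) (hI : {m | ∃ U, HM M m U ∧ Nz U}.Finite)
    (hR : ∀ (l : ℕ) (ρ τ : M.Fam (Fs 4 → ℂ)), HM M l ρ → HM M (2 + l) τ → Zr M (wd M W ρ) →
      Zr M (wd M W τ) → (M.All fun e z => nab M 2 l W ρ e z = τ e z ∧ Pr (ρ e z) (τ e z)) →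
      Zr M (nab M 2 (2 + l) W τ) → Zr M τ)
    (hW : HT M 2 W) (nW : ¬Zr M W) (hV : HT M 1 V) (hπ : HM M 2 π) (dπ : DgM M 2 π)
    (h0 : Zr M (wd M W π)) (h1 : Zr M (nab M 2 2 W π)) (nV : Nz (wd M V π)) :
    Zr M (wd M (yy M 2 W V) π) := by
  have hF := st_FK
  have hA := st_ALG st_FK
  have hL := st_LIE st_FK
  have hK := st_KIT
  have hN := st_NAB st_FK hL st_KIT
  have r0 : HM M (lv 0) (wd M V π) := ((hK 4 M H 2 π hH).2.2.1 1 V hV).1 hπ
  have lc := loc hF hL hW.hol hV.hol hπ.hol h0 h1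
  have wz : ∀ j, Zr M (wd M W (rho M W (wd M V π) j)) := fun j e he z hz => by
    show crv (W e z) *ᵥ rho M W (wd M V π) j e z = 0
    rw [lc j e he z hz]
    exact swap hF (h0 e he z hz)
  have hm : ∀ j, HM M (lv j) (rho M W (wd M V π) j) := fun j => by
    induction j with
    | zero => exact r0
    | succ j ih => exact (hN 4 M H 2 (lv j) W _ hH le_rfl hW ih (wz j)).1
  have vz : ∀ j, Zr M (wd M V (rho M W (wd M V π) j)) := fun j e he z hz => by
    have u : HM M (1 + lv j) (wd M V (rho M W (wd M V π) j)) :=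
      ((hK 4 M H (lv j) _ hH).2.2.1 1 V hV).1 (hm j)
    have t := no _ (by have := lv_pos j; omega) _
      (((hK 4 M H (1 + lv j) _ hH).2.2.2.2.1 u).2.2.2.1 (by omega)) e he z hz
    have d : Dg 4 (wd M V (rho M W (wd M V π) j) e z) := by
      show Dg 4 (crv (V e z) *ᵥ rho M W (wd M V π) j e z)
      rw [lc j e he z hz]
      exact ((hF 4 (V e z) 0 0 0 0 _).2.2.2.2.2.2.2.2.2.2.2.2.2.2.2.2.2.2.2.2 3
        ((hF 4 _ 0 0 0 0 _).2.2.2.2.2.2.2.2.2.2.2.2.2.2.2.2.2.2.2.2 2 (dπ e he z hz)).1).1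
    funext A
    by_cases c : A.card = 4
    · rw [Finset.eq_univ_of_card A (by simpa using c)]
      exact t
    · exact d A c
  obtain ⟨k1, -, k2⟩ := (hK 4 M H 2 π hH).2.1 W hW
  have dn := den2 r0.hol (((hK 4 M H (lv 0) _ hH).2.2.2.2.1 r0).2.2.2.2 ‹_› nV)
    (((hK 4 M H 2 _ hH).2.2.2.2.1 k1).2.2.2.2 ‹_› (k2.1 nW))
  have mu : ∀ j, M.All fun e z => wd M V π e z ≠ 0 → vec M W e z ≠ 0 →
      ∃ c : ℂ, rho M W (wd M V π) j e z = c • wd M V π e z := fun j e he z hz p q => by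
    have t : crv (V e z) *ᵥ rho M W (wd M V π) j e z = 0 := vz j e he z hz
    rw [lc j e he z hz] at t ⊢
    exact hA.2 (W e z) _ (V e z) (π e z) (dπ e he z hz) (fun w0 => q (by simp [vec, crv, w0]))
      (h0 e he z hz) p t
  have pr : ∀ j, M.All fun e z =>
      Pr (rho M W (wd M V π) j e z) (rho M W (wd M V π) (j + 1) e z) := fun j e he z hz I J => by
    have c := fun i => cont (hm i).hol e he z hz
    refine tendsto_nhds_unique_of_frequently_eq ((c j I).mul (c (j + 1) J))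
      ((c j J).mul (c (j + 1) I)) ((dn e he z hz).mono fun x hx => ?_)
    obtain ⟨s, hs⟩ := mu j e he x hx.1 hx.2.1 hx.2.2
    obtain ⟨t, ht⟩ := mu (j + 1) e he x hx.1 hx.2.1 hx.2.2
    simp only [Pi.mul_apply]
    rw [hs, ht]
    simp only [Pi.smul_apply, smul_eq_mul]
    ring
  have dw : ∀ j, Zr M (rho M W (wd M V π) (j + 1)) → Zr M (rho M W (wd M V π) 1) := fun j => by
    induction j with
    | zero => exact id
    | succ j ih =>
      exact fun h => ih (hR (lv j) _ _ (hm j) (hm (j + 1)) (wz j) (wz (j + 1))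
        (fun e he z hz => ⟨rfl, pr j e he z hz⟩) h)
  have ex : ∃ j, Zr M (rho M W (wd M V π) (j + 1)) := by
    by_contra! c
    refine (infinite_of_injective_forall_mem (f := fun j => lv (j + 1))
      (s := {m | ∃ U, HM M m U ∧ Nz U})
      (fun i j h => by simpa using lv_mono.injective h) fun j => ⟨_, hm (j + 1), ?_⟩)
      hI
    by_contra k
    exact c j fun e he z hz => by_contra fun p => k ⟨e, he, z, hz, p⟩
  obtain ⟨j, hj⟩ := ex
  intro e he z hz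
  have t : rho M W (wd M V π) 1 e z = 0 := dw j hj e he z hz
  rw [lc 1 e he z hz] at t
  have u : ys (W e) (V e) 1 z = yy M 2 W V e z := by
    simp only [ys, yy, lv]
    congr 2
    norm_num
  show crv (yy M 2 W V e z) *ᵥ π e z = 0
  rwa [← u]

end Pool.Agent.Lib.N4S.P55
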