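import Pool.Agent.Lib.N4S.Blue
import Pool.Agent.Lib.N4S.Kit78
import Pool.Agent.Lib.N4S.Ppi55

/-! Project n4s: two parallel objects. -/

open Set Filter MeasureTheory

set_option linter.unusedVariables false

namespace Pool.Agent.Lib.N4S

open Pool.Agent.Lib.HS32 Pool.Agent.Lib.HLK Pool.Agent.Lib.F4 Pool.Agent.Lib.NU4

theorem P55.pl {n : ℕ} {M : Mf n} {I : Type} [Fintype I] {S : Sd M I} {a : ℝ → M.X → ℝ} {q : Sq}
    {m : ℕ} {T : M.Fam (Fs n → ℂ)} (h : Pr1 S a q m T) : P55.Pl M S.H atTop (pj S a q) m T := by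
  simpa only [zero_mul, neg_zero, Real.exp_zero, one_mul] using h 0

theorem st_PPI : St_PPI := fun n M _ I _ S a q m l W hZ hm hl hW pW =>
  have h := P55.ppi55 S.kae (Eventually.of_forall (K78.pj_sm hZ q)) hm hl hW (P55.pl pW)
  ⟨fun π h1 h2 => h.1 π h1 (P55.pl h2), fun U h1 h2 => h.2 U h1 (P55.pl h2)⟩

end Pool.Agent.Lib.N4S
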