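import Pool.Agent.Lib.N4S.Blue
import Pool.Agent.Lib.N4S.Main43
import Pool.Agent.Lib.N4S.Qex80
import Pool.Agent.Lib.N4S.Nm56
import Pool.Agent.Lib.NU4.B_LIE
import Pool.Agent.Lib.NU4.B_KIT

/-! Project n4s: a projective structure exists, or the curvature vanishes on the field. -/

open scoped Classical Topology ContDiff ComplexOrder Matrix
open Set Filter MeasureTheory

set_option linter.unusedVariables false

noncomputable section

namespace Pool.Agent.Lib.N4S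

open Pool.Agent.Lib.SV (E)
open Pool.Agent.Lib.HS32 Pool.Agent.Lib.HLK Pool.Agent.Lib.F4
open Pool.Agent.Lib.NU4 (HM Pr DgM vec prt wd vac crv pf0 HolV)

/-- The divergence passes to the multiples of a parallel field of level two. -/
def St_HQ : Prop := ∀ (n : ℕ) (M : Mf n) [M.Cpt] (I : Type) [Fintype I] (S : Sd M I)
  (a : ℝ → M.X → ℝ) (q : Sq) (W : M.Fam (E n)), Zs S a → HT M 2 W → HM M 2 (vec M W) →
  Nz (vec M W) → Sm0 S 2 (vec M W) → Pr1 S a q 2 (vec M W) → Hq S W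

namespace P43

variable {n : ℕ} {M : Mf n} {I : Type} [Fintype I]

theorem pfv {W : M.Fam (E n)} {m : ℕ} (hW : HT M m W) {e : M.Ch} (he : e ∈ M.C) {z : E n}
    (hz : z ∈ e.target) : pf0 (vec M W e) z = dv (W e) z • vac n :=
  have h : HolV (W e) z := fun i => hW.hol e he z hz i
  (NU4.st_LIE NU4.st_FK n (W e) (W e) (fun _ => 0) (fun _ => 0) z h h
    (fun _ => Eventually.of_forall fun _ => differentiableAt_const _)
    (Eventually.of_forall fun _ => differentiableAt_const _)).2.2.2.2.2.2.2.2.2.2.2.1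

theorem cvk (v : E n) (k : Fin n) : (crv v *ᵥ vac n) {k} = v k :=
  (NU4.st_FK n v 0 0 0 0 0).2.2.2.2.2.2.2.2.2.2.2.2.2.2.1 k

theorem cv0 (v : E n) {A : Fs n} (h : A.card ≠ 1) : (crv v *ᵥ vac n) A = 0 :=
  have k := NU4.st_FK n v 0 0 0 0 (vac n)
  (k.2.2.2.2.2.2.2.2.2.2.2.2.2.2.2.2.2.2.2.2 0 k.2.2.2.2.2.2.2.2.2.2.2.2.2.1).1 A h

theorem prv {v w : E n} (h : wg w v = 0) : Pr (crv v *ᵥ vac n) (crv w *ᵥ vac n) := fun A B => by
  by_cases a : A.card = 1
  · by_cases b : B.card = 1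
    · obtain ⟨i, rfl⟩ := Finset.card_eq_one.1 a
      obtain ⟨j, rfl⟩ := Finset.card_eq_one.1 b
      have := congrFun (congrFun h i) j
      simp only [wg, Matrix.of_apply, Matrix.zero_apply] at this
      simp only [cvk]
      linear_combination -this
    · simp only [cv0 _ b, mul_zero, zero_mul]
  · simp only [cv0 _ a, mul_zero, zero_mul]

theorem dfv {U : Set (E n)} {Y : E n → E n} (h : DifferentiableOn ℂ Y U) :
    DifferentiableOn ℂ (fun z => crv (Y z) *ᵥ vac n) U := differentiableOn_pi.2 fun A => by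
  by_cases a : A.card = 1
  · obtain ⟨i, rfl⟩ := Finset.card_eq_one.1 a
    simpa only [cvk] using differentiableOn_pi.1 h i
  · simpa only [cv0 _ a] using differentiableOn_const _

/-- The class passes to a weakly parallel homogeneous section. -/
theorem nw [M.Cpt] (hLB : St_LB) (S : Sd M I) {a : ℝ → M.X → ℝ} {q : Sq} {m r : ℕ}
    {U : M.Fam (Fs n → ℂ)} (hZ : Zs S a) (hm : 2 ≤ m) (h1 : (lb S m).Sec U) (h2 : Hol U)
    (h3 : DgM M r U) (h4 : Wp S a q m (up S m U)) : Nw S m U := by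
  have k := K78.up_hm S h1 h2
  obtain ⟨W, w1, -, w3⟩ := hLB n M I S a q m r _ hZ hm
    ⟨fun e he z hz _ => k.hol e he z hz, fun e he e' he' x hx hx' _ => k.cmp e he e' he' x hx hx'⟩
    (K78.up_dg S h3) h4
  have e : M.All fun e z => U e z = W e z := fun e he z hz =>
    tendsto_nhds_unique_of_frequently_eq (h1.sm e he z hz).continuousAt
      (w1.sec.sm e he z hz).continuousAt ((M43.frq S.toDk e he z hz).mono fun w b =>
        smul_right_injective _ (K78.pf_ne S m he b.1 b.2) (w3 e he w b.1 b.2))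
  refine ⟨⟨h1, h2, fun j hj e' he z hz b => ?_⟩, ?_⟩
  · rw [e e' he z hz]
    exact w1.tan j hj e' he z hz b
  · obtain ⟨C, c0, c1⟩ := w1.sml
    refine ⟨C, c0, fun ε v h5 h6 h7 d hd => le_trans (le_of_eq ?_) (c1 ε v h5 h6 h7 d hd)⟩
    refine integral_congr_ae (Eventually.of_forall fun x => ?_)
    have := Mf.AllOn.ch e x
    simp only [cu, Mf.ev, this]

end P43

theorem hq_of (h : St_N4H) : St_HQ := by
  intro n M _ I _ S a q W hZ w1 w2 w3 w4 w5 e he U Y u1 u2 u3 hY k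
  obtain ⟨A, a1, a2⟩ := h n M I S a q 2 _ hZ le_rfl w2 w3 w4 w5 e he U
    (fun z => crv (Y z) *ᵥ vac n) u1 u2 u3 (P43.dfv hY) fun z hz => P43.prv (k z hz)
  refine ⟨fun z => A z ∅, differentiableOn_pi.1 a1 ∅, fun z hz => funext fun j => ?_⟩
  have := a2 z hz ∅ {j}
  rw [P43.pfv w1 he (u2 hz), P43.cvk, vec, P43.cvk] at this
  simpa [vac, show (2 : ℂ) - 1 = 1 by norm_num] using this

theorem st_PQ (hOB1 : St_OB1) (hOB2 : St_OB2) (hADM : St_ADM) (hHLX : St_HLX) (hWPT : St_WPT)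
    (hLB : St_LB) (hR1 : St_R1) (hHQ : St_HQ) (hPB : St_PB) (hPA : St_PA) (hPR1 : St_PR1) :
    St_PQ := by
  intro M _ I _ S a q V hB hV tV
  obtain ⟨⟨b, hb⟩, -⟩ := (hOB1 4 M I S V hV.ht).1 tV
  obtain ⟨x, hx⟩ := hOB2 4 M I S V b hV.ht tV hb
  have hA := hADM 4 M I S a q 2 hB.zs le_rfl
  have hK := NU4.st_KIT
  rcases hHLX 4 M S.H _ _ _ x four_pos S.kae hA hx.sec hx.cl with h | ⟨U, u1, u2, u3, u4⟩
  · exact Or.inr (Q80.qex S hB.no hV.ht hb hx h)
  have p : Nw S 2 (prt M 1 U) := P43.nw hLB S hB.zs le_rfl (N56.prt_sec 1 u1)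
    (NU4.K92.prt_hol 1 u2)
    ((hK 4 M S.H 2 U S.kae.toMet).2.2.2.1 1).1 ((hWPT 4 M I S a q 2 hB.zs le_rfl).1 U u1 u3 1)
  obtain ⟨W, w1, w2, w3, w4⟩ := M43.fld S a q NU4.st_FK hK p hx.deg u4
  have w5 : M.All fun e z => vec M W e z = up S 2 (prt M 1 U) e z := fun e he z hz => by rw [w3]
  refine (hR1 M I S a q W V hB ⟨w1, w2, _, p, w5⟩ hV).imp_right fun ⟨k1, k2⟩ => (w4 ?_).elim
  obtain ⟨s1, s2, s3⟩ := (hPR1 4 M I S a q 2 hB.zs le_rfl).1 _ ⟨_, p, w5⟩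
  obtain ⟨-, l2, l3, -⟩ := hK 4 M S.H 1 (vec M V) S.kae.toMet
  obtain ⟨c, c1, c2⟩ := hPB 4 M I S W V b w1 hV hb (hHQ 4 M I S a q W hB.zs w1 s1
    (((hK 4 M S.H 2 U S.kae.toMet).2.1 W w1).2.2.1 w2) s2 s3) k1 k2
  exact (hPA 4 M I S a q W V _ x _ b c hB.zs w1 hV.ht p w5 hb hx
    ((l3 2 W w1).1 (l2 V hV.ht).1) k1 c1 c2).mono_left Nat.hyperfilter_le_atTop

end Pool.Agent.Lib.N4S
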