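import Pool.Agent.Lib.N4S.Defs
import Pool.Agent.Lib.NU4.B_NAB
import Pool.Agent.Lib.NU4.B_EV
import Pool.Agent.Lib.NU4.B_PB
import Pool.Agent.Lib.NU4.B_FK
import Pool.Agent.Lib.NU4.B_LIE
import Pool.Agent.Lib.NU4.B_KIT
import Pool.Agent.Lib.NU4.B_QQL
import Pool.Agent.Lib.NU4.Ibp20

/-! Project n4s: the limit of the weighted divergences of a product of two fields. -/

open scoped Classical Topology ContDiff ComplexOrder Matrix
open Set Filter MeasureTheory

set_option linter.unusedVariables false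

noncomputable section

namespace Pool.Agent.Lib.N4S.G9

open Pool.Agent.Lib.SV (E)
open Pool.Agent.Lib.HS32 Pool.Agent.Lib.HLK Pool.Agent.Lib.F4 Pool.Agent.Lib.NU4
open Pool.Agent.Lib.K3E (kan wk lk)
open Pool.Agent.Lib.KP.T60 (phC)

variable {n : ℕ} {M : Mf n} {H : M.Fam (Mat n)} {O : Set M.X}

theorem ld_sm (hH : M.Met H) : M.All fun e z => ContDiffAt ℝ ∞ (ld (H e)) z := fun e he z hz =>
  cd_ofReal ((mINV n M H hH).2.2.2.2.2.2.1.sm e he z hz)

/-- The weighted divergence in a chart. -/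
theorem pd_eq (hH : M.Met H) {v : M.X → ℝ} (hv : M.Sm v) (m : ℕ)
    (T : M.Fam (Fs n → ℂ)) : M.All fun e z => (oP H (wt M H m v)).ap T e z = pf0 (T e) z -
      ((m : ℂ) - 1) • anv (gd (fun w => ld (H e) w + M.lc v e w) z) *ᵥ T e z := by
  intro e he z hz
  have a2 : (fun w => (phC M H (wt M H m v) e w : ℂ)) =
      fun w => ((m : ℂ) - 1) * (ld (H e) w + M.lc v e w) :=
    funext fun w => by
      simp only [phC, wt, EXH.aw, wk, ld, Mf.lc, Pi.add_apply]; push_cast; ring
  have g2 : gd (fun w => (phC M H (wt M H m v) e w : ℂ)) z =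
      ((m : ℂ) - 1) • gd (fun w => ld (H e) w + M.lc v e w) z :=
    funext fun k => by
      rw [a2]
      exact dz_const_mul _ ((cd_diff (ld_sm hH e he z hz)).add (cd_diff (hv.lc e he z hz)))
  rw [I20.op_ap, g2, (st_FK n _ 0 0 0 _ 0).2.2.2.2.2.2.2.2.2.2.1, Matrix.smul_mulVec]

/-- The law of the divergence on an open set. -/
theorem p0_loc [M.Cpt] (hH : M.Met H) (hO : IsOpen O) {m : ℕ} {T : M.Fam (Fs n → ℂ)}
    (hs : M.All fun e z => e.symm z ∈ O → ContDiffAt ℝ ∞ (T e) z)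
    (hc : M.Ov fun e e' x => x ∈ O →
      T e (e x) = (jd M e e' x ^ m)⁻¹ • La (M.J e e' x) *ᵥ T e' (e' x)) :
    M.Ov fun e e' x => x ∈ O → P0 M H m T e (e x) =
      (jd M e e' x ^ m)⁻¹ • La (M.J e e' x) *ᵥ P0 M H m T e' (e' x) := by
  intro e he e' he' x hx hx' h0
  obtain ⟨χ, sχ, -, h1, h2⟩ := (mCOV n M).2.2.2.2.2 {x} O isClosed_singleton hO
    (singleton_subset_iff.2 h0)
  rw [nhdsSet_singleton] at h1
  have sec : (lk H m).Sec (sm M χ T) := by
    refine ⟨fun c hc z hz => ?_, fun c hc' c' hc'' y hy hy' => ?_⟩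
    · by_cases k : c.symm z ∈ O
      · exact (sχ.lc c hc z hz).smul (hs c hc z hz k)
      · have : ∀ᶠ y in 𝓝 (c.symm z), χ y = 0 := notMem_tsupport_iff_eventuallyEq.1 fun t => k (h2 t)
        refine (contDiffAt_const (c := 0)).congr_of_eventuallyEq
          (((c.continuousAt_symm hz).eventually this).mono fun w hw => ?_)
        simp only [sm, hw, Complex.ofReal_zero, zero_smul]
    · beta_reduce
      rw [K92.tr_eq]
      simp only [sm, c.left_inv hy, c'.left_inv hy', Matrix.mulVec_smul]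
      by_cases k : y ∈ O
      · rw [hc c hc' c' hc'' y hy hy' k, smul_comm]
      · simp only [image_eq_zero_of_notMem_tsupport fun t => k (h2 t), Complex.ofReal_zero,
          zero_smul, smul_zero]
  have g : ∀ c : M.Ch, x ∈ c.source → P0 M H m (sm M χ T) c (c x) = P0 M H m T c (c x) :=
    fun c hc => by
      have t : Tendsto c.symm (𝓝 (c x)) (𝓝 x) := c.tendsto_symm hc
      have u : sm M χ T c =ᶠ[𝓝 (c x)] T c := (t.eventually h1).mono fun w hw => by
        simp only [sm, hw, Complex.ofReal_one, one_smul]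
      have d : ∀ k, dzv k (sm M χ T c) (c x) = dzv k (T c) (c x) := fun k => funext fun i =>
        dz_congr (u.mono fun w hw => congrFun hw i)
      rw [P0, P0, I20.op_ap, I20.op_ap, u.eq_of_nhds]
      simp only [pf0, d]
  rw [← g e hx, ← g e' hx']
  exact Nab5.p0_cmp hH sec e he e' he' x hx hx'

/-- Continuity on an open set. -/
theorem con {Φ : M.Fam ℝ} (hO : IsOpen O)
    (hi : M.Ov fun e e' x => x ∈ O → Φ e' (e' x) = Φ e (e x))
    (hc : M.All fun e z => e.symm z ∈ O → ContinuousAt (Φ e) z) : ContinuousOn (M.ev Φ) O := by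
  intro x hx
  have c : ContinuousAt (fun y => Φ (M.ch x) (M.ch x y)) x :=
    (hc.ch x (by rwa [Mf.ch_symm])).comp ((M.ch x).continuousAt (Mf.mem_ch x))
  refine (c.congr ?_).continuousWithinAt
  filter_upwards [(M.ch x).open_source.mem_nhds (Mf.mem_ch x), hO.mem_nhds hx] with y h1 h2
  exact (hi _ (Mf.ch_mem x) _ (Mf.ch_mem y) y h1 (Mf.mem_ch y) h2).symm

section norm

variable {σ : Type} [Fintype σ] (b : Bun M σ) {U V W : M.Fam (σ → ℂ)} {x : M.X}

theorem sq_smul {c : ℂ} (h : M.ev U x = c • M.ev W x) : √(b.pn U x) = ‖c‖ * √(b.pn W x) := by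
  have : b.pn U x = ‖c‖ ^ 2 * b.pn W x := by
    rw [Bun.pn, Bun.pn, Bun.pp, Bun.pp, h, star_smul, smul_dotProduct, Matrix.mulVec_smul,
      dotProduct_smul, smul_smul, smul_eq_mul, ← Complex.re_ofReal_mul, ← Complex.normSq_eq_norm_sq,
      Complex.normSq_eq_conj_mul_self]
    rfl
  rw [this, Real.sqrt_mul (sq_nonneg _), Real.sqrt_sq (norm_nonneg _)]

theorem sq_tri [DecidableEq σ] (hH : M.Met H) (hb : b.Ok) (h : M.ev U x = M.ev V x - M.ev W x) :
    √(b.pn U x) ≤ √(b.pn V x) + √(b.pn W x) := by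
  let g : Geo M σ := ⟨H, b, hH, hb⟩
  have p := EV.pcs g V W x
  have s := congrArg Complex.re (Pre.pp_star (g := g) V W x)
  have r := (Complex.abs_re_le_norm (b.pp V W x))
  have e : b.pn U x = b.pn V x - (b.pp V W x).re - (b.pp W V x).re + b.pn W x := by
    simp only [Bun.pn, Bun.pp, h, star_sub, sub_dotProduct, Matrix.mulVec_sub, dotProduct_sub,
      Complex.sub_re]
    ring
  have s' : (b.pp W V x).re = (b.pp V W x).re := (Complex.conj_re _).symm.trans s
  refine Real.sqrt_le_iff.2 ⟨by positivity, ?_⟩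
  rw [add_sq, Real.sq_sqrt (Pre.pn_nonneg (g := g) V x), Real.sq_sqrt (Pre.pn_nonneg (g := g) W x),
    e, s']
  have := neg_abs_le (b.pp V W x).re
  change ‖b.pp V W x‖ ≤ √(b.pn V x) * √(b.pn W x) at p
  linarith

end norm

theorem car (v a : E n) (Y : Fs n → ℂ) :
    anv a *ᵥ crv v *ᵥ Y = (a ⬝ᵥ v) • Y - crv v *ᵥ anv a *ᵥ Y := by
  rw [eq_sub_iff_add_eq, Matrix.mulVec_mulVec, Matrix.mulVec_mulVec, ← Matrix.add_mulVec,
    (st_FK n v v a 1 0 Y).2.2.1, Matrix.smul_mulVec, Matrix.one_mulVec]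

theorem an_vec (V : M.Fam (E n)) (f : E n → ℂ) (e : M.Ch) (z : E n) :
    anv (gd f z) *ᵥ vec M V e z = dir (V e) f z • vac n := by
  rw [vec, car, (st_FK n 0 0 _ 1 0 0).2.2.2.2.2.2.2.2.2.2.2.1, Matrix.mulVec_zero, sub_zero,
    dotProduct_comm]
  rfl

theorem an_wd (W U : M.Fam (E n)) (f : E n → ℂ) (e : M.Ch) (z : E n) :
    anv (gd f z) *ᵥ wd M W (vec M U) e z =
      dir (W e) f z • vec M U e z - dir (U e) f z • vec M W e z := by
  rw [wd, car, an_vec, Matrix.mulVec_smul, dotProduct_comm]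
  rfl

/-- The product of a section of `m K` and of a multivector. -/
theorem sq_lev (hH : M.Met H) {m l k : ℕ} (hk : k = m + l) {U W : M.Fam (Fs n → ℂ)} {x : M.X}
    {c : ℂ} (h : M.ev U x = c • M.ev W x) :
    √((lk H k).pn U x) = ‖c‖ / √((M.ev H x).det.re ^ m) * √((lk H l).pn W x) := by
  have d : 0 ≤ (M.ev H x).det.re ^ m := (pow_pos (Mf.pd_det_re (hH.ev_pos x)) m).le
  rw [sq_smul _ h, ((st_KIT n M H k W hH).2.2.2.2.2.1 x).1,
    ((st_KIT n M H l W hH).2.2.2.2.2.1 x).1, hk, pow_add, mul_comm (_ ^ m), ← div_div,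
    Real.sqrt_div' _ d]
  ring

variable {I : Type} [Fintype I] {S : Sd M I} {a : ℝ → M.X → ℝ} {q : Sq}

theorem sm_sg (k : I) : M.Sm (sg S.toDk k) := (S.wt k).nr_sm (S.hol k).toSecC

theorem of_open : IsOpen (Of S.toDk) := by
  rw [Of, ofPred_forall]
  exact isOpen_iInter_of_finite fun k => isOpen_ne_fun (sm_sg k).continuous continuous_const

theorem sm_tp (h : Zs S a) (j : ℕ) : M.Sm (tp a q j) :=
  Mf.Sm.comp (φ := q.χ j) (fun _ => (q.sm j).contDiffAt) (h.out.sm _ (q.e0 j))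

theorem sm_pj (h : Zs S a) (j : ℕ) : M.Sm (pj S a q j) :=
  (S.su.add (sm_tp h j)).add (Mf.Sm.sum fun k _ => Mf.Sm.const_mul _ (Mf.Sm.log
    ((sm_sg k).add (Mf.sm_const _)) fun x => (add_pos_of_nonneg_of_pos (mul_nonneg
      (Complex.normSq_nonneg _) (Real.exp_pos _).le) (q.d0 j).1).ne'))

theorem pd (h : Zs S a) (m j : ℕ) (T : M.Fam (Fs n → ℂ)) : M.All fun e z =>
    Pd S a q m j T e z = pf0 (T e) z -
      ((m : ℂ) - 1) • anv (gd (ph S (tp a q j) (q.d j) e) z) *ᵥ T e z :=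
  pd_eq S.kae.toMet (sm_pj h j) m T

theorem ho_of {m : ℕ} {T : M.Fam (Fs n → ℂ)} (h : HM M m T) : HO S m T :=
  ⟨fun e he z hz _ => h.hol e he z hz, fun e he e' he' x hx hx' _ => h.cmp e he e' he' x hx hx'⟩

/-- The contractions with the weights converge: so do the weighted divergences. -/
theorem gen [M.Cpt] (h : Zs S a) {m : ℕ} {T A : M.Fam (Fs n → ℂ)} (hT : HO S m T)
    (hol : M.All fun e z => e.symm z ∈ Of S.toDk → HolV (A e) z)
    (cmp : M.Ov fun e e' x => x ∈ Of S.toDk →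
      A e (e x) - anv (gd (ld (S.H e)) (e x)) *ᵥ T e (e x) = (jd M e e' x ^ m)⁻¹ •
        La (M.J e e' x) *ᵥ (A e' (e' x) - anv (gd (ld (S.H e')) (e' x)) *ᵥ T e' (e' x)))
    (lim : ∀ K, Cp S K → ∀ c : ℝ, Tendsto (fun j => ∫ x in K, Real.exp (-(c * tp a q j x)) *
      √((lk S.H m).pn (fun e z => anv (gd (ph S (tp a q j) (q.d j) e) z) *ᵥ T e z - A e z) x)
        ∂M.mu S.H) atTop (𝓝 0)) :
    HO S m (fun e z => pf0 (T e) z - ((m : ℂ) - 1) • A e z) ∧
      Lq S a q m T fun e z => pf0 (T e) z - ((m : ℂ) - 1) • A e z := by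
  have hH := S.kae.toMet
  refine ⟨⟨fun e he z hz k i => ?_, fun e he e' he' x hx hx' k => ?_⟩, fun K hK c => ?_⟩
  · have h0 : HolV (fun _ : E n => (0 : E n)) z := fun _ => Nab5.hol0 z
    filter_upwards [(st_LIE st_FK n _ _ (T e) _ z h0 h0 (hT.hol e he z hz k)
      (Nab5.hol0 z)).2.2.2.1 i, hol e he z hz k i] with w h1 h2
    exact h1.sub ((differentiableAt_const _).mul h2)
  · have p := p0_loc hH of_open (fun e he z hz k => contDiffAt_pi.2 fun i =>
      ((mHOL n _ _).2.2 (hT.hol e he z hz k i)).1) hT.cmp e he e' he' x hx hx' k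
    rw [Nab5.p0_eq hH m T e he _ (e.map_source hx),
      Nab5.p0_eq hH m T e' he' _ (e'.map_source hx')] at p
    have t := cmp e he e' he' x hx hx' k
    rw [sub_eq_iff_eq_add] at p t
    rw [p, t]
    simp only [Matrix.mulVec_sub, Matrix.mulVec_smul]
    module
  · have t := (lim K hK c).const_mul ‖-((m : ℂ) - 1)‖
    rw [mul_zero] at t
    refine t.congr fun j => ?_
    rw [← integral_const_mul]
    refine integral_congr_ae (Eventually.of_forall fun x => ?_)
    beta_reduce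
    rw [mul_left_comm, ← sq_smul]
    simp only [Mf.ev, Pi.sub_apply, (pd h m j T).ch x]
    module

theorem fd_inv (h : Zs S a) {m : ℕ} {W : M.Fam (E n)} {δ : M.Fam ℂ} (hW : Fd S a q m W δ)
    (j : ℕ) : M.Ov fun e e' x => x ∈ Of S.toDk →
      ‖dir (W e') (ph S (tp a q j) (q.d j) e') (e' x) - δ e' (e' x)‖ /
        √((S.H e' (e' x)).det.re ^ m) =
      ‖dir (W e) (ph S (tp a q j) (q.d j) e) (e x) - δ e (e x)‖ / √((S.H e (e x)).det.re ^ m) := by
  intro e he e' he' x hx hx' k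
  have hH := S.kae.toMet
  have s := (sm_pj (q := q) h j).lc
  have d : ‖jd M e e' x‖ ^ m ≠ 0 :=
    pow_ne_zero _ (norm_ne_zero_iff.2 ((mTR n M).2.1 e he e' he' x hx hx').2.1)
  have t : M.All fun e z => dir (W e) (ph S (tp a q j) (q.d j) e) z - δ e z =
      dir (W e) (M.lc (pj S a q j) e) z - (δ e z - a0 M S.H W e z) := fun e he z hz => by
    have := Q76.dir_add (V := W e) (cd_diff (ld_sm hH e he z hz)) (cd_diff (s e he z hz))
    exact (congrArg (· - δ e z) this).trans (by rw [a0]; ring)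
  rw [t.at he hx, t.at he' hx', hW.cmp e he e' he' x hx hx' k,
    P56.dir_cmp hW.ht (sm_pj h j) e he e' he' x hx hx', zpow_natCast, ← mul_sub, norm_mul,
    norm_pow, P56.det_cmp hH e he e' he' x hx hx', mul_pow, ← pow_mul, mul_comm 2, pow_mul,
    Real.sqrt_mul (sq_nonneg _), Real.sqrt_sq (by positivity), mul_div_mul_left _ _ d]

theorem fd_con (h : Zs S a) {m : ℕ} {W : M.Fam (E n)} {δ : M.Fam ℂ} (hW : Fd S a q m W δ)
    (j : ℕ) : ContinuousOn (M.ev fun e z => ‖dir (W e) (ph S (tp a q j) (q.d j) e) z - δ e z‖ /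
      √((S.H e z).det.re ^ m)) (Of S.toDk) := by
  have hH := S.kae.toMet
  refine con of_open (fd_inv h hW j) fun e he z hz k => ?_
  exact ((P56.dir_cont (fun i => (hW.ht.hol e he z hz i).self_of_nhds.continuousAt)
    ((ld_sm hH e he z hz).add ((sm_pj (q := q) h j).lc e he z hz))).sub
      (hW.hol e he z hz k).self_of_nhds.continuousAt).norm.div
    ((cd_re (hH.sm e he z hz).det).continuousAt.pow m).sqrt
    (Real.sqrt_pos.2 (pow_pos (Mf.pd_det_re (hH.pos e he z hz)) m)).ne'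

/-- The product of two fields. -/
theorem prd [M.Cpt] (h : Zs S a) {m l : ℕ} {W U : M.Fam (E n)} {δ γ : M.Fam ℂ}
    (hW : Fd S a q m W δ) (hU : Fd S a q l U γ) :
    HO S (m + l) (fun e z => pf0 (wd M W (vec M U) e) z - (((m + l : ℕ) : ℂ) - 1) •
      (δ e z • vec M U e z - γ e z • vec M W e z)) ∧
    Lq S a q (m + l) (wd M W (vec M U)) fun e z => pf0 (wd M W (vec M U) e) z -
      (((m + l : ℕ) : ℂ) - 1) • (δ e z • vec M U e z - γ e z • vec M W e z) := by
  have hH := S.kae.toMet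
  have vW := ((st_KIT n M S.H m 0 hH).2.1 W hW.ht).1
  have vU := ((st_KIT n M S.H l 0 hH).2.1 U hU.ht).1
  refine gen h (ho_of (((st_KIT n M S.H l _ hH).2.2.1 m W hW.ht).1 vU))
    (fun e he z hz k i => ?_) (fun e he e' he' x hx hx' k => ?_) fun K hK c => ?_
  · filter_upwards [hW.hol e he z hz k, hU.hol e he z hz k, vW.hol e he z hz i,
      vU.hol e he z hz i] with w h1 h2 h3 h4
    exact (h1.mul h4).sub (h2.mul h3)
  · have d : jd M e e' x ≠ 0 := ((mTR n M).2.1 e he e' he' x hx hx').2.1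
    have t : ∀ e z, δ e z • vec M U e z - γ e z • vec M W e z -
        anv (gd (ld (S.H e)) z) *ᵥ wd M W (vec M U) e z =
        (δ e z - a0 M S.H W e z) • vec M U e z - (γ e z - a0 M S.H U e z) • vec M W e z :=
      fun e z => by
        rw [an_wd, a0, a0]
        module
    rw [t, t, hW.cmp e he e' he' x hx hx' k, hU.cmp e he e' he' x hx hx' k,
      vW.cmp e he e' he' x hx hx', vU.cmp e he e' he' x hx hx']
    simp only [Matrix.mulVec_sub, Matrix.mulVec_smul, smul_sub, smul_smul]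
    congr 2 <;> field_simp <;> ring
  · obtain ⟨-, i1, -⟩ := mMU n M S.H hH
    have bd : ∀ m W, HM M m W → ∃ C : ℝ, ∀ x, √((lk S.H m).pn W x) ≤ C := fun m W hW => by
      obtain ⟨C, -, hC⟩ := ((st_KIT n M S.H m W hH).2.2.2.2.2.2.1
        ((st_KIT n M S.H m W hH).1.1 hW).1).2.exists_bound
      exact ⟨√C, fun x => Real.sqrt_le_sqrt ((le_abs_self _).trans (hC x))⟩
    obtain ⟨B, hB⟩ := bd _ _ vW
    obtain ⟨C, hC⟩ := bd _ _ vU
    have ex := fun j => ((sm_tp (q := q) h j).const_mul c).neg.exp.continuous.continuousOn (s := K)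
    have j1 := fun j => ((ex j).mul ((fd_con h hW j).mono hK.2)).integrableOn_compact
      (μ := M.mu S.H) hK.1
    have j2 := fun j => ((ex j).mul ((fd_con h hU j).mono hK.2)).integrableOn_compact
      (μ := M.mu S.H) hK.1
    have t := ((hW.lim K hK c).mul_const C).add ((hU.lim K hK c).mul_const B)
    rw [zero_mul, zero_mul, add_zero] at t
    refine squeeze_zero (fun j => integral_nonneg fun x => by positivity) (fun j => ?_) t
    rw [← integral_mul_const, ← integral_mul_const]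
    refine le_trans ?_ (integral_add ((j1 j).mul_const C) ((j2 j).mul_const B)).le
    refine integral_mono_of_nonneg (Eventually.of_forall fun x => by positivity)
      (((j1 j).mul_const C).add ((j2 j).mul_const B)) (Eventually.of_forall fun x => ?_)
    simp only [Pi.mul_apply]
    rw [mul_assoc, mul_assoc, ← mul_add]
    refine mul_le_mul_of_nonneg_left ((sq_tri _
      (V := fun e z => (dir (W e) (ph S (tp a q j) (q.d j) e) z - δ e z) • vec M U e z)
      (W := fun e z => (dir (U e) (ph S (tp a q j) (q.d j) e) z - γ e z) • vec M W e z) hH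
      (aLAM n M S.H _ _ hH (K3E.bKAN n M S.H _ hH).1).1 ?_).trans (add_le_add ?_ ?_))
      (Real.exp_pos _).le
    · simp only [Mf.ev, an_wd]
      module
    · rw [sq_lev hH (m := m) (l := l) (W := vec M U) rfl rfl]
      exact mul_le_mul_of_nonneg_left (hC x) (by positivity)
    · rw [sq_lev hH (m := l) (l := m) (W := vec M W) (add_comm _ _) rfl]
      exact mul_le_mul_of_nonneg_left (hB x) (by positivity)

theorem sq_vac (hH : M.Met H) (m : ℕ) {U : M.Fam (Fs n → ℂ)} {x : M.X} {c : ℂ}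
    (h : M.ev U x = c • vac n) : √((lk H m).pn U x) = ‖c‖ / √((M.ev H x).det.re ^ m) := by
  rw [sq_lev hH (m := m) (l := 0) (k := m) (W := fun _ _ => vac n) rfl h,
    ((st_KIT n M H 0 _ hH).2.2.2.2.2.1 x).1, ng,
    show M.ev (fun _ _ => vac n) x = vac n from rfl,
    (st_FK n 0 0 0 _ 0 0).2.2.2.2.2.2.2.2.2.2.2.2.1]
  simp [vac]

/-- A parallel field. -/
theorem fdp [M.Cpt] (h : Zs S a) {m : ℕ} (hm : 2 ≤ m) {W : M.Fam (E n)} (hW : HT M m W)
    (hP : Pr1 S a q m (vec M W)) : Fd S a q m W fun e z => dv (W e) z / ((m : ℂ) - 1) := by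
  have hH := S.kae.toMet
  have m1 : (m : ℂ) - 1 ≠ 0 := sub_ne_zero.2 (by exact_mod_cast (by omega : m ≠ 1))
  have vW := ((st_KIT n M S.H m _ hH).1.1 ((st_KIT n M S.H m 0 hH).2.1 W hW).1).1
  have L := fun e he z hz => st_LIE st_FK n (W e) (W e) (fun _ => 0) _ z (hW.hol e he z hz)
    (hW.hol e he z hz) (fun _ => Nab5.hol0 z) (Nab5.hol0 z)
  have p : M.All fun e z => pf0 (vec M W e) z = dv (W e) z • vac n := fun e he z hz =>
    (L e he z hz).2.2.2.2.2.2.2.2.2.2.2.1
  refine ⟨hW, fun e he z hz _ => (L e he z hz).2.1.mono fun w k => k.mul_const _,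
    fun e he e' he' x hx hx' _ => ?_, fun K hK c => ?_⟩
  · have d : jd M e e' x ≠ 0 := ((mTR n M).2.1 e he e' he' x hx hx').2.1
    have t := Nab5.p0_cmp hH vW e he e' he' x hx hx'
    beta_reduce at t
    rw [Nab5.p0_eq hH m _ e he _ (e.map_source hx), Nab5.p0_eq hH m _ e' he' _ (e'.map_source hx'),
      p.at he hx, p.at he' hx', an_vec, an_vec, smul_smul, smul_smul, ← sub_smul, ← sub_smul,
      Matrix.mulVec_smul, (st_FK n 0 0 0 _ 0 0).2.2.2.2.2.2.2.2.2.2.2.2.1, smul_smul] at t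
    have u := congrFun t ∅
    simp only [Pi.smul_apply, vac, Pi.single_eq_same, smul_eq_mul, mul_one] at u
    rw [eq_inv_mul_iff_mul_eq₀ (pow_ne_zero m d)] at u
    simp only [a0]
    field_simp
    linear_combination -u
  · have t := (hP c).const_mul ‖(m : ℂ) - 1‖⁻¹
    rw [mul_zero] at t
    refine squeeze_zero (fun j => integral_nonneg fun x => mul_nonneg (Real.exp_pos _).le
      (div_nonneg (norm_nonneg _) (Real.sqrt_nonneg _))) (fun j => ?_) t
    have w := ((aLAM n M S.H _ _ hH (K3E.bKAN n M S.H m hH).1).2.2 _).1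
      ((sm_pj (q := q) h j).const_mul ((m : ℝ) - 1))
    have s := aSP n M S.H _ _ (vec M W) hH w.1 ⟨vW.sm, vW.cmp⟩
    have i := (mMU n M S.H hH).2.2.2.2.1 ℝ _
      (((sm_tp (q := q) h j).const_mul c).neg.exp.continuous.mul ((st_KIT n M S.H m
        (Pd S a q m j (vec M W)) hH).2.2.2.2.2.2.1 ⟨s.sm, s.cmp⟩).2.continuous.sqrt)
    refine le_trans (le_of_eq ?_) (mul_le_mul_of_nonneg_left (setIntegral_le_integral (s := K) i
      (Eventually.of_forall fun x => by positivity)) (by positivity))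
    rw [← integral_const_mul]
    refine integral_congr_ae (Eventually.of_forall fun x => ?_)
    have u : M.ev (Pd S a q m j (vec M W)) x = (-((m : ℂ) - 1) * M.ev (fun e z =>
        dir (W e) (ph S (tp a q j) (q.d j) e) z - dv (W e) z / ((m : ℂ) - 1)) x) • vac n := by
      simp only [Mf.ev]
      rw [(pd h m j _).ch x, p.ch x, an_vec, smul_smul, ← sub_smul]
      congr 1
      field_simp
      ring
    beta_reduce
    rw [sq_vac hH m u, norm_mul, norm_neg]
    have := norm_ne_zero_iff.2 m1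
    simp only [Mf.ev]
    field_simp

theorem dg_pf0 {d : ℕ} {T : M.Fam (Fs n → ℂ)} (h : DgM M d T) :
    DgM M (d - 1) fun e z => pf0 (T e) z := fun e he z hz A hA => by
  have g : ∀ k, Dg d (dzv k (T e) z) := fun k B hB => by
    have : (fun w => T e w B) =ᶠ[𝓝 z] fun _ => 0 :=
      (e.open_target.eventually_mem hz).mono fun w hw => h e he w hw B hB
    exact (dz_congr this).trans (dz_const 0)
  refine (Finset.sum_apply _ _ _).trans (Finset.sum_eq_zero fun k _ => ?_)
  rw [← Nab5.anv_single]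
  exact ((st_FK n 0 0 _ 1 0 _).2.2.2.2.2.2.2.2.2.2.2.2.2.2.2.2.2.2.2.2 d (g k)).2.2.1 A hA

theorem dg_vec (V : M.Fam (E n)) : DgM M 1 (vec M V) := fun e _ z _ =>
  ((st_FK n (V e z) 0 0 1 0 _).2.2.2.2.2.2.2.2.2.2.2.2.2.2.2.2.2.2.2.2 0
    (st_FK n 0 0 0 1 0 0).2.2.2.2.2.2.2.2.2.2.2.2.2.1).1

theorem dg_wd (W U : M.Fam (E n)) : DgM M 2 (wd M W (vec M U)) := fun e he z hz =>
  ((st_FK n (W e z) 0 0 1 0 _).2.2.2.2.2.2.2.2.2.2.2.2.2.2.2.2.2.2.2.2 1 (dg_vec U e he z hz)).1

/-- The limit for a product of two fields has degree one. -/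
theorem prd_dg (W U : M.Fam (E n)) (δ γ : M.Fam ℂ) (c : ℂ) : DgM M 1 fun e z =>
    pf0 (wd M W (vec M U) e) z - c • (δ e z • vec M U e z - γ e z • vec M W e z) :=
  fun e he z hz A hA => by
    simp only [Pi.sub_apply, Pi.smul_apply, dg_vec U e he z hz A hA, dg_vec W e he z hz A hA,
      show pf0 (wd M W (vec M U) e) z A = 0 from dg_pf0 (dg_wd W U) e he z hz A hA, smul_zero,
      sub_zero]

end Pool.Agent.Lib.N4S.G9
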