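import Pool.Agent.Lib.N4S.Kit78
import Pool.Agent.Lib.NU4.Ibp20
import Pool.Agent.Lib.NU4.B_KIT
import Pool.Agent.Lib.NU4.B_FK
import Pool.Agent.Lib.NU4.B_PW
import Pool.Agent.Lib.NU4.Wdg98
import Pool.Agent.Lib.K3S.B_MS
import Pool.Agent.Lib.K3S.B_SG
import Pool.Agent.Lib.RA.T_GLA

/-! Project n4s: small weighted divergence at the level `m` gives parallel in the mean. -/

open scoped Classical Topology ContDiff ComplexOrder Matrix
open Set Filter MeasureTheory

noncomputable section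

namespace Pool.Agent.Lib.N4S.P38

open Pool.Agent.Lib.SV (E)
open Pool.Agent.Lib.HS32 Pool.Agent.Lib.HLK Pool.Agent.Lib.F4 Pool.Agent.Lib.NU4
open Pool.Agent.Lib.K3E (kan wk lk)
open Pool.Agent.Lib.EXH (aw)

variable {n : ℕ} {M : Mf n} {I : Type} [Fintype I]

omit [Fintype I] in
theorem nn_sum {H : Mat n} (hH : H.PosDef) (v : Fs n → ℂ) (w : I → Fs n → ℂ) (s : Finset I) :
    W98.nn H (v + ∑ k ∈ s, w k) ≤ 2 ^ s.card * (W98.nn H v + ∑ k ∈ s, W98.nn H (w k)) := by
  induction s using Finset.induction_on with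
  | empty => simp
  | insert k s hk ih =>
    have h := W98.nn_sub hH (v + ∑ k ∈ s, w k) ((-1 : ℂ) • w k)
    have p : (1 : ℝ) ≤ 2 ^ s.card := one_le_pow₀ one_le_two
    rw [W98.nn_smul, neg_one_smul, sub_neg_eq_add] at h
    rw [Finset.sum_insert hk, Finset.sum_insert hk, Finset.card_insert_of_notMem hk, pow_succ,
      add_comm (w k), ← add_assoc]
    simp only [norm_neg, norm_one, one_pow, one_mul] at h
    nlinarith [W98.nn_nonneg hH (w k)]

theorem den [M.Cpt] (S : Sd M I) : Dense (Of S.toDk) := by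
  have : ∀ s : Finset I, Dense {x | ∀ k ∈ s, sg S.toDk k x ≠ 0} := fun s => by
    induction s using Finset.induction_on with
    | empty => simp
    | insert a s ha ih =>
      refine (((K3S.MS.sg K3S.bSG S.toDk a).2.1).inter_of_isOpen_left ih (isOpen_ne_fun
        (K78.sg_sm _ a).continuous continuous_const)).mono fun x hx k hk => ?_
      rcases Finset.mem_insert.1 hk with rfl | hk
      exacts [hx.1, hx.2 k hk]
  refine (this Finset.univ).mono fun x hx k => ?_
  exact hx k (Finset.mem_univ k)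

theorem rt_le {s d : ℝ} (hs : 0 ≤ s) (hd : 0 < d) :
    (d / (s + d)) ^ 2 ≤ d ^ (1 / 2 : ℝ) * (s + d) ^ (-(1 / 2 : ℝ)) := by
  have p : 0 < s + d := by linarith
  rw [Real.rpow_neg p.le, ← div_eq_mul_inv, ← Real.div_rpow hd.le p.le, ← Real.rpow_natCast]
  exact Real.rpow_le_rpow_of_exponent_ge (div_pos hd p) ((div_le_one p).2 (by linarith))
    (by norm_num)

theorem fa_sg (S : Sd M I) {m : ℕ} (hm : 1 ≤ m) {k : I} (hk : fl S.toDk m k ≠ 0) (x : M.X) :
    K78.fa S m x ≤ sg S.toDk k x := by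
  have h0 := fun k => K78.sg_nn S.toDk k x
  have h1 : ∀ k, sg S.toDk k x ≤ 1 := fun k => by linarith [S.sml k x]
  refine (mul_le_of_le_one_right (Finset.prod_nonneg fun k _ => pow_nonneg (h0 k) _)
    (Real.exp_le_one_iff.2 (mul_nonpos_of_nonneg_of_nonpos
      (sub_nonneg.2 (by exact_mod_cast hm)) (S.u0 x)))).trans ?_
  rw [← Finset.mul_prod_erase _ _ (Finset.mem_univ k)]
  exact (mul_le_of_le_one_right (pow_nonneg (h0 k) _) (Finset.prod_le_one
    (fun k _ => pow_nonneg (h0 k) _) fun k _ => pow_le_one₀ (h0 k) (h1 k))).trans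
      (pow_le_of_le_one (h0 k) (h1 k) hk)

/-- The mean of a root against a bounded family of weights. -/
theorem amgm {X : Type} [MeasurableSpace X] {μ : Measure X} {u A : ℕ → X → ℝ} {B : ℝ}
    (iu : ∀ j, Integrable (fun x => u j x ^ 2) μ) (iA : ∀ j, Integrable (A j) μ)
    (u0 : ∀ j x, 0 ≤ u j x) (A0 : ∀ j x, 0 ≤ A j x) (hB : ∀ j, ∫ x, u j x ^ 2 ∂μ ≤ B)
    (h : Tendsto (fun j => ∫ x, A j x ∂μ) atTop (𝓝 0)) :
    Tendsto (fun j => ∫ x, u j x * √(A j x) ∂μ) atTop (𝓝 0) := by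
  have B0 : 0 ≤ B := (integral_nonneg fun x => sq_nonneg _).trans (hB 0)
  have n0 := fun j x => mul_nonneg (u0 j x) (Real.sqrt_nonneg (A j x))
  refine tendsto_order.2 ⟨fun b hb => .of_forall fun j => hb.trans_le (integral_nonneg (n0 j)),
    fun b hb => ?_⟩
  obtain ⟨η, e0, e1⟩ : ∃ η : ℝ, 0 < η ∧ η * B < b :=
    ⟨b / (B + 1), by positivity, by rw [div_mul_eq_mul_div, div_lt_iff₀ (by linarith)]; nlinarith⟩
  filter_upwards [(tendsto_order.1 h).2 (η * (b - η * B)) (mul_pos e0 (by linarith))] with j hj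
  have k : ∫ x, u j x * √(A j x) ∂μ ≤ ∫ x, (η * u j x ^ 2 + η⁻¹ * A j x) ∂μ :=
    integral_mono_of_nonneg (.of_forall (n0 j)) (((iu j).const_mul _).add ((iA j).const_mul _))
      (.of_forall fun x => by
        have := two_mul_le_add_mul_sq (a := u j x) (b := √(A j x)) e0
        rw [Real.sq_sqrt (A0 j x)] at this
        have := n0 j x
        beta_reduce
        linarith)
  rw [integral_add ((iu j).const_mul _) ((iA j).const_mul _), integral_const_mul,
    integral_const_mul] at k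
  have := (inv_mul_lt_iff₀ e0).2 hj
  linarith [mul_le_mul_of_nonneg_left (hB j) e0.le]

variable [M.Cpt] {S : Sd M I} {a : ℝ → M.X → ℝ} (hZ : Zs S a) (q : Sq)
include hZ

theorem exp_bd (c : ℝ) :
    ∃ B : ℝ, ∀ j, ∫ x, Real.exp (-(c * tp a q j x)) ^ 2 ∂M.mu S.H ≤ B := by
  have J := (mMU n M S.H (K78.met S)).2.2.2.2.1 ℝ
  obtain ⟨B, hB⟩ := hZ.itg (2 * (|c| + 1)) (by positivity)
  refine ⟨B, fun j => le_trans (integral_mono_of_nonneg (.of_forall fun x => sq_nonneg _)
    (J _ ((K78.a_sm hZ q j).const_mul _).continuous.neg.rexp)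
      (.of_forall fun x => ?_)) (hB _ (q.e0 j))⟩
  have h1 := K78.tp_le hZ q j x
  have h2 := (K78.tp_ge (a := a) q j x).2
  beta_reduce
  rw [← Real.exp_nat_mul]
  refine Real.exp_le_exp.2 ?_
  simp only [Pi.neg_apply, Nat.cast_ofNat]
  nlinarith [le_abs_self c, abs_nonneg c]

omit [M.Cpt] in
theorem pd_sec {m : ℕ} (j : ℕ) {T : M.Fam (Fs n → ℂ)} (hT : (lk S.H m).Sec T) :
    (lk S.H m).Sec (Pd S a q m j T) :=
  let h := aSP n M S.H _ _ T (K78.met S)
    ((K78.lk_wt S m).addF ((K78.pj_sm hZ q j).const_mul ((m : ℝ) - 1))).1 ⟨hT.sm, hT.cmp⟩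
  ⟨h.sm, h.cmp⟩

theorem ptw {m : ℕ} (hm : 1 ≤ m) {W : M.Fam (Fs n → ℂ)} (hW : (lb S m).Sec W) :
    ∃ K : ℝ, ∀ j x, (lk S.H m).pn (Pd S a q m j (up S m W)) x ≤
      K * ((lj S a q m j).pn ((oP S.H (aw M (pm S m) (ww S a q m j))).ap W) x +
        ∑ k, q.d j ^ (1 / 2 : ℝ) * (sg S.toDk k x + q.d j) ^ (-(1 / 2 : ℝ))) := by
  have hH := K78.met S
  have sT := K78.up_sec S hW
  obtain ⟨B, B0, hB⟩ := ((K78.lb_ok S m).pp_rep hW hW).2.re.exists_bound
  choose C C0 hC using fun k => RA.st_GLA n M S.H _ hH (K78.sg_sm S.toDk k) (K78.sg_nn _ k)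
  have ib := fun k => (ibp20 st_KIT st_FK st_PW n M S.H m _ _ _ S.kae (K78.sg_sm S.toDk k)
    (K78.sg_sm S.toDk k) sT).2.2.2.2
  obtain ⟨G, G1, hG⟩ : ∃ G : ℝ, 1 ≤ G ∧ ∀ k, (fl S.toDk m k : ℝ) ^ 2 * C k * B ≤ G :=
    have p : ∀ k, 0 ≤ (fl S.toDk m k : ℝ) ^ 2 * C k * B := fun k => by have := C0 k; positivity
    ⟨1 + ∑ k, (fl S.toDk m k : ℝ) ^ 2 * C k * B,
      le_add_of_nonneg_right (Finset.sum_nonneg fun k _ => p k), fun k =>
        (Finset.single_le_sum (fun k _ => p k) (Finset.mem_univ k)).trans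
          (le_add_of_nonneg_left zero_le_one)⟩
  refine ⟨2 ^ (Finset.univ : Finset I).card * G, fun j x => ?_⟩
  have d0 := (q.d0 j).1
  have sU := aSP n M S.H _ _ W hH (K78.lj_wt hZ q m j) ⟨hW.sm, hW.cmp⟩
  have c1 := ((K78.lk_ok S m).pp_rep (pd_sec hZ q j sT) (pd_sec hZ q j sT)).2.re.continuous
  have c2 := ((K78.lj_ok hZ q m j).pp_rep sU sU).2.re.continuous
  refine (isClosed_le c1 (continuous_const.mul (c2.add (continuous_finsetSum _ fun k _ =>
      continuous_const.mul (((K78.sg_sm S.toDk k).continuous.add continuous_const).rpow_const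
        fun x => .inl (add_pos_of_nonneg_of_pos (K78.sg_nn _ k x) d0).ne'))))).closure_subset_iff.2
    (fun x hx => ?_) (den S x)
  have e := K78.p_up hZ q hm j hW.sm _ (Mf.ch_mem x) _ (Mf.ch_tgt x) (by rwa [Mf.ch_symm])
  rw [Mf.ch_symm] at e
  have k := mul_le_mul_of_nonneg_left (nn_sum (hH.ev_pos x)
    (M.ev (up S m ((oP S.H (aw M (pm S m) (ww S a q m j))).ap W)) x)
    (fun k => ((fl S.toDk m k * q.d j / ((sg S.toDk k x + q.d j) * sg S.toDk k x) : ℝ) : ℂ) •
      M.ev (iot M (sg S.toDk k) (up S m W)) x) Finset.univ) (Real.exp_pos (-M.ev (wk S.H m) x)).le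
  simp only [W98.nn_smul, Complex.norm_real, Real.norm_eq_abs, sq_abs] at k
  show (lk S.H m).pn _ x ≤ _ * ((lj S a q m j).pn _ x +
    ∑ k, q.d j ^ (1 / 2 : ℝ) * (sg S.toDk k x + q.d j) ^ (-(1 / 2 : ℝ)))
  rw [W98.pn_eq, Mf.ev, Mf.ev, Mf.ev, e, mul_assoc]
  refine k.trans ?_
  rw [mul_left_comm, mul_add, Finset.mul_sum, ← W98.pn_eq (kan M m), mul_add G, Finset.mul_sum]
  refine mul_le_mul_of_nonneg_left (add_le_add ?_ (Finset.sum_le_sum fun k _ => ?_))
    (pow_nonneg zero_le_two _)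
  · have p := W98.pn_nonneg hH (Lb S m) (pm S m) ((oP S.H (aw M (pm S m) (ww S a q m j))).ap W) x
    have r := Real.one_le_exp (neg_nonneg.2 (K78.ww_le hZ q hm j x))
    rw [K78.pn_up, K78.pn_lj S q]
    exact (mul_le_of_le_one_left p (K78.fa_le S hm x)).trans ((le_mul_of_one_le_right p r).trans
      (le_mul_of_one_le_left (mul_nonneg p (zero_le_one.trans r)) G1))
  · rw [mul_left_comm, ← W98.pn_eq (kan M m)]
    have s0 := K78.sg_pos _ hx k
    have r := rt_le s0.le d0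
    by_cases c : fl S.toDk m k = 0
    · simp only [c, Nat.cast_zero, zero_mul, zero_div, zero_pow two_ne_zero]
      exact mul_nonneg (zero_le_one.trans G1) ((sq_nonneg _).trans r)
    have b : (lk S.H m).pn (iot M (sg S.toDk k) (up S m W)) x ≤
        C k * sg S.toDk k x * (sg S.toDk k x * B) := by
      refine (ib k x).trans (mul_le_mul ((hC k).1 x) ?_ (W98.pn_nonneg hH _ _ _ x)
        (mul_pos (C0 k) s0).le)
      rw [K78.pn_up]
      exact mul_le_mul (fa_sg S hm c x) ((le_abs_self _).trans (hB x))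
        (W98.pn_nonneg hH _ _ _ x) s0.le
    refine (mul_le_mul_of_nonneg_left b (sq_nonneg _)).trans (le_of_eq_of_le ?_
      (mul_le_mul (hG k) r (sq_nonneg _) (zero_le_one.trans G1)))
    field_simp

/-- Small weighted divergence gives parallel in the mean. -/
theorem pr1 {m : ℕ} (hm : 1 ≤ m) {W : M.Fam (Fs n → ℂ)} (hW : (lb S m).Sec W)
    (h : Tendsto (fun j => (lj S a q m j).nr S.H
      ((oP S.H (aw M (pm S m) (ww S a q m j))).ap W)) atTop (𝓝 0)) :
    Pr1 S a q m (up S m W) := fun c => by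
  have hH := K78.met S
  have J := (mMU n M S.H hH).2.2.2.2.1 ℝ
  obtain ⟨B, hB⟩ := exp_bd hZ q c
  obtain ⟨K, hK⟩ := ptw hZ q hm hW
  choose C hC using fun k => (K3S.MS.sg K3S.bSG S.toDk k).2.2
  have sP := fun j => pd_sec hZ q j (K78.up_sec S hW)
  have p := fun j => W98.pn_nonneg hH (kan M m) (wk S.H m) (Pd S a q m j (up S m W))
  refine amgm (fun j => J _ (((K78.tp_sm hZ q j).const_mul c).continuous.neg.rexp.pow 2))
    (fun j => J _ ((K78.lk_ok S m).pp_rep (sP j) (sP j)).2.re.continuous)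
    (fun j x => (Real.exp_pos _).le) p hB ?_
  have t : Tendsto (fun j => q.d j ^ (1 / 2 : ℝ)) atTop (𝓝 0) := by
    simpa using q.dt 0 (1 / 2) (by norm_num)
  have t2 := (h.add (tendsto_finsetSum Finset.univ fun k _ => t.mul_const (C k))).const_mul |K|
  simp only [zero_mul, Finset.sum_const_zero, add_zero, mul_zero] at t2
  refine squeeze_zero (fun j => integral_nonneg (p j)) (fun j => ?_) t2
  have d0 := (q.d0 j).1
  have sU := aSP n M S.H _ _ W hH (K78.lj_wt hZ q m j) ⟨hW.sm, hW.cmp⟩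
  have i1 : Integrable ((lj S a q m j).pn ((oP S.H (aw M (pm S m) (ww S a q m j))).ap W))
    (M.mu S.H) := J _ ((K78.lj_ok hZ q m j).pp_rep sU sU).2.re.continuous
  have s := fun k x => add_pos_of_nonneg_of_pos (K78.sg_nn S.toDk k x) d0
  have i2 : ∀ k, Integrable (fun x => q.d j ^ (1 / 2 : ℝ) *
      (sg S.toDk k x + q.d j) ^ (-(1 / 2 : ℝ))) (M.mu S.H) := fun k =>
    (J _ (((K78.sg_sm S.toDk k).continuous.add continuous_const).rpow_const
      fun x => .inl (s k x).ne')).const_mul _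
  have i3 := integrable_finsetSum Finset.univ fun k _ => i2 k
  refine (integral_mono_of_nonneg (.of_forall (p j)) ((i1.add i3).const_mul |K|)
    (.of_forall fun x => (hK j x).trans (mul_le_mul_of_nonneg_right (le_abs_self K)
      (add_nonneg (W98.pn_nonneg hH _ _ _ x) (Finset.sum_nonneg fun k _ => mul_nonneg
        (Real.rpow_nonneg d0.le _) (Real.rpow_nonneg (s k x).le _)))))).trans ?_
  rw [integral_const_mul, integral_add' i1 i3, integral_finsetSum _ fun k _ => i2 k]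
  refine mul_le_mul_of_nonneg_left (add_le_add le_rfl (Finset.sum_le_sum fun k _ => ?_))
    (abs_nonneg K)
  rw [integral_const_mul]
  exact mul_le_mul_of_nonneg_left (hC k _ d0) (Real.rpow_nonneg d0.le _)

end Pool.Agent.Lib.N4S.P38
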