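import Pool.Agent.Lib.N4S.Blue
import Pool.Agent.Lib.N4S.Nm56
import Pool.Agent.Lib.N4S.Kit78
import Pool.Agent.Lib.N4S.Gen9
import Pool.Agent.Lib.N4S.Pr38
import Pool.Agent.Lib.NU4.Flip71e

/-! Project n4s, row PR1. -/

open scoped Classical Topology
open Set Filter MeasureTheory

noncomputable section

namespace Pool.Agent.Lib.N4S

open Pool.Agent.Lib.HS32 Pool.Agent.Lib.HLK Pool.Agent.Lib.F4 Pool.Agent.Lib.NU4
open Pool.Agent.Lib.EXH (aw)

namespace P56

variable {n : ℕ} {M : Mf n} {I : Type} [Fintype I] {S : Sd M I} {a : ℝ → M.X → ℝ} {q : Sq}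
  {m : ℕ} {T U : M.Fam (Fs n → ℂ)}

theorem hm_congr (h : M.All fun e z => T e z = U e z) (hU : HM M m U) : HM M m T :=
  ⟨fun e he z hz i => by
    filter_upwards [hU.hol e he z hz i, e.open_target.eventually_mem hz] with w hw hw'
    refine hw.congr_of_eventuallyEq ?_
    filter_upwards [e.open_target.eventually_mem hw'] with y hy using congrFun (h e he y hy) i,
  fun e he e' he' x hx hx' => by
    have := hU.cmp e he e' he' x hx hx'
    have a1 := h e he _ (e.map_source hx)
    have a2 := h e' he' _ (e'.map_source hx')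
    beta_reduce at this a1 a2 ⊢
    rw [a1, a2, this]⟩

theorem pr1_congr (h : M.All fun e z => T e z = U e z) (hU : Pr1 S a q m U) : Pr1 S a q m T :=
  fun c => (hU c).congr fun j => congrArg _ (funext fun x => by
    have := Mf.AllOn.ch (Fl.ap_congr (oP S.H (wt M S.H m (pj S a q j))) h) x
    simp only [Bun.pn, Bun.pp, Mf.ev, this])

end P56

open P56 in
theorem st_PR1 (hSG : St_SG) : St_PR1 := by
  intro n M _ I _ S a q m hz hm
  have m1 : 1 ≤ m := by omega
  refine ⟨fun T hT => ⟨?_, N56.sm0_nn S m1 (K78.pm_wt S m) hT, ?_⟩,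
    fun W hW hP => G9.fdp hz hm hW hP⟩
  · obtain ⟨W, hW, e⟩ := hT
    exact hm_congr e (K78.up_hm S hW.sec hW.hol)
  · obtain ⟨W, hW, e⟩ := hT
    exact pr1_congr e (P38.pr1 hz q m1 hW.sec (hSG n M I S a q m W hz hm hW))

end Pool.Agent.Lib.N4S
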