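import Pool.Agent.Lib.N4S.Blue
import Pool.Agent.Lib.N4S.Gen9

/-! Project n4s, row PRD: the product of two fields. -/

namespace Pool.Agent.Lib.N4S

theorem st_PRD : St_PRD := fun _ _ _ _ _ _ _ _ _ _ _ _ _ _ h _ _ hW hU =>
  ⟨_, (G9.prd h hW hU).1, G9.prd_dg _ _ _ _ _, (G9.prd h hW hU).2⟩

end Pool.Agent.Lib.N4S
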