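import Pool.Agent.Lib.NU4.B_CMP
import Pool.Agent.Lib.NU4.B_R2
import Pool.Agent.Lib.NU4.B_FK
import Pool.Agent.Lib.NU4.B_ALG
import Pool.Agent.Lib.NU4.B_LIE
import Pool.Agent.Lib.NU4.B_KIT
import Pool.Agent.Lib.NU4.B_NAB

/-! Project n4s: the bracket with a multiple of the field, with its witness; chains of levels. -/

open scoped Classical Topology ContDiff ComplexOrder Matrix
open Set Filter MeasureTheory

set_option linter.unusedVariables false

noncomputable section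

namespace Pool.Agent.Lib.N4S.P55

open Pool.Agent.Lib.SV (E)
open Pool.Agent.Lib.HS32 Pool.Agent.Lib.HLK Pool.Agent.Lib.F4 Pool.Agent.Lib.NU4
open Pool.Agent.Lib.K3E (kan wk lk)

variable {n : ℕ}

open C68 in
theorem loc2 {W U V : E n → E n} {z : E n} {c d : ℂ} (hW : HolV W z)
    (hU : HolV U z) (hV : HolV V z) (h0 : W z ≠ 0) (hw : ∀ᶠ w in 𝓝 z, wg (W w) (U w) = 0)
    (hc : c • W z = d • U z) : ∃ s t : ℂ, U z = s • W z ∧
      br U V z - c • V z = s • (br W V z - d • V z) - t • W z := by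
  have hL := st_LIE st_FK
  obtain ⟨k, hk⟩ := Function.ne_iff.1 h0
  have hk' : ∀ᶠ w in 𝓝 z, W w k ≠ 0 := (cont hW k).eventually_ne hk
  obtain ⟨f, hf⟩ : ∃ f : E n → ℂ, f = fun w => U w k / W w k := ⟨_, rfl⟩
  have f1 : HolN f z := by
    filter_upwards [hk', hW k, hU k] with w a b c
    simp only [hf, div_eq_mul_inv]
    exact c.mul (b.inv a)
  have f2 : U =ᶠ[𝓝 z] fun w => f w • W w := by
    filter_upwards [hk', hw] with w a b
    funext i
    have := congrFun (congrFun b i) k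
    simp only [wg, Matrix.of_apply, Matrix.zero_apply] at this
    rw [hf, Pi.smul_apply, smul_eq_mul, div_mul_eq_mul_div, eq_div_iff a]
    linear_combination -this
  have f3 : U z = f z • W z := f2.eq_of_nhds
  have f4 : c = f z * d := by
    have := congrFun hc k
    rw [f3] at this
    simp only [Pi.smul_apply, smul_eq_mul] at this
    exact mul_right_cancel₀ hk (by linear_combination this)
  have h0 : HolV (fun _ : E n => (0 : Fs n → ℂ)) z := fun i =>
    Eventually.of_forall fun _ => differentiableAt_const _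
  have l1 := (hL n U V _ f z hU hV h0 f1).2.2.2.2.2.2.2.2.2.2.2.2.1
  have l2 := (hL n V W _ f z hV hW h0 f1).2.2.2.2.2.2.2.2.2.2.2.2
  refine ⟨f z, dir V f z, f3, ?_⟩
  rw [l1, br_congr f2, l2.2.2.2.1, l2.1, f4]
  module

theorem hol_yy {M : Mf n} {m : ℕ} {U V : M.Fam (E n)} (hU : Hol U) (hV : Hol V) :
    Hol (yy M m U V) := fun e he z hz i => by
  obtain ⟨-, a, b, -⟩ := st_LIE st_FK n (U e) (V e) (fun _ _ => 0) (fun _ => 0) z (hU e he z hz)
    (hV e he z hz) (fun _ => Eventually.of_forall fun _ => differentiableAt_const _)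
    (Eventually.of_forall fun _ => differentiableAt_const _)
  filter_upwards [a, b i, hV e he z hz i] with x a b c
  simp only [yy, div_eq_mul_inv]
  exact b.sub ((a.mul_const _).mul c)

theorem den {M : Mf n} [hc : M.Cpt] {H : M.Fam (Mat n)} (hH : M.Met H) {l : ℕ} {Y : M.Fam (E n)}
    (hY : HT M l Y) (nY : ¬Zr M Y) : M.All fun e z => ∃ᶠ w in 𝓝 z, Y e w ≠ 0 := fun e he z hz => by
  obtain ⟨u1, -, u3⟩ := (st_KIT n M H l 0 hH).2.1 Y hY
  refine (((st_KIT n M H l _ hH).2.2.2.2.1 u1).2.2.2.2 hc (u3.1 nY) e he z hz).mono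
    fun w hw h0 => hw ?_
  simp [vec, h0, crv]

/-- A product with a holomorphic field that is zero where `W` is not zero. -/
theorem zr_of {M : Mf n} {W Y : M.Fam (E n)} {π : M.Fam (Fs n → ℂ)} (hY : Hol Y) (hπ : Hol π)
    (d : M.All fun e z => ∃ᶠ w in 𝓝 z, W e w ≠ 0)
    (h : M.All fun e z => W e z ≠ 0 → crv (Y e z) *ᵥ π e z = 0) : Zr M (wd M Y π) :=
  fun e he z hz => funext fun A => by
    have c := C68.cont (st_LIE st_FK n (Y e) (Y e) (π e) (fun _ => 0) z (hY e he z hz)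
      (hY e he z hz) (hπ e he z hz)
      (Eventually.of_forall fun _ => differentiableAt_const _)).2.2.2.2.2.2.1 A
    exact (isClosed_singleton (x := (0 : ℂ))).mem_of_frequently_of_tendsto
      (((d e he z hz).and_eventually (e.open_target.mem_nhds hz)).mono fun w hw =>
        congrFun (h e he w hw.2 hw.1) A) c

open C68 in
/-- The bracket with a multiple of the field, with the witness. -/
theorem cmp {M : Mf n} [hc : M.Cpt] {H : M.Fam (Mat n)} {m : ℕ} {W U V : M.Fam (E n)}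
    {π : M.Fam (Fs n → ℂ)} (hH : M.Met H) (hm : 2 ≤ m) (hW : HT M 2 W) (nW : ¬Zr M W)
    (hU : HT M m U) (nU : ¬Zr M U) (hV : HT M 1 V) (hπ : HM M 2 π)
    (zU : Zr M (wd M W (vec M U)))
    (hd : M.All fun e z =>
      (dv (U e) z / ((m : ℂ) - 1)) • W e z = (dv (W e) z / ((2 : ℕ) - 1)) • U e z)
    (zW : Zr M (wd M W π)) (zY : Zr M (wd M (yy M 2 W V) π))
    (nY : Nz (wd M W (vec M (yy M 2 W V)))) :
    HM M (2 * m + 1) (wd M (yy M m U V) (vec M U)) ∧ DgM M 2 (wd M (yy M m U V) (vec M U)) ∧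
      Nz (wd M (yy M m U V) (vec M U)) ∧ Hol (yy M m U V) ∧ Zr M (wd M (yy M m U V) π) ∧
      Zr M (wd M U π) := by
  have hF := st_FK
  have hL := st_LIE st_FK
  have hK := st_KIT
  have hN := st_NAB st_FK hL st_KIT
  obtain ⟨ϖ, p1, p2, p3⟩ := key hF hL hK hN hH hm hU hV
  obtain ⟨τ, t1, -, t3⟩ := key hF hL hK hN hH le_rfl hW hV
  have a := fun v w c => hF n v w 0 0 c 0
  have wu : M.All fun e z => ∀ᶠ w in 𝓝 z, wg (W e w) (U e w) = 0 := fun e he z hz =>
    (Mf.AllOn.ev zU he hz).mono fun w hw =>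
      (hF n _ _ 0 0 0 0).2.2.2.2.2.2.2.2.2.2.2.2.2.2.2.1.1 hw
  have lc : M.All fun e z => W e z ≠ 0 → ∃ s : ℂ, U e z = s • W e z ∧ ϖ e z = (s * s) • τ e z :=
    fun e he z hz h0 => by
      rw [p3 e he z hz, t3 e he z hz]
      exact loc hF hL (hW.hol e he z hz) (hU.hol e he z hz) (hV.hol e he z hz) h0 (wu e he z hz)
        (hd e he z hz)
  have l2 : M.All fun e z => W e z ≠ 0 → ∃ s t : ℂ, U e z = s • W e z ∧
      yy M m U V e z = s • yy M 2 W V e z - t • W e z := fun e he z hz h0 =>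
    loc2 (hW.hol e he z hz) (hU.hol e he z hz) (hV.hol e he z hz) h0 (wu e he z hz) (hd e he z hz)
  have hy : Hol (yy M m U V) := hol_yy hU.hol hV.hol
  have q1 : HM M (m + (1 + m)) (wd M (yy M m U V) (vec M U)) :=
    ⟨fun e he z hz i => (p1.hol e he z hz i).mp ((Mf.AllOn.ev p3 he hz).eventually_nhds.mono
      fun w hw h => h.congr_of_eventuallyEq (hw.mono fun y hy => (congrFun hy i).symm)),
      fun e he e' he' x hx hx' => by
        have := p1.cmp e he e' he' x hx hx'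
        beta_reduce at this
        rwa [p3 e he _ (e.map_source hx), p3 e' he' _ (e'.map_source hx')] at this⟩
  refine ⟨(by omega : m + (1 + m) = 2 * m + 1) ▸ q1, fun e he z hz => ?_, ?_, hy,
    zr_of hy hπ.hol (den hH hW nW) fun e he z hz h0 => ?_,
    zr_of hU.hol hπ.hol (den hH hW nW) fun e he z hz h0 => ?_⟩
  · have := p2 e he z hz
    beta_reduce at this
    rwa [p3 e he z hz] at this
  · obtain ⟨e, he, z, hz, h1⟩ := nY
    have h2 : τ e z ≠ 0 := by
      rw [t3 e he z hz, swap hF, neg_ne_zero]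
      exact h1
    obtain ⟨I, hI⟩ := Function.ne_iff.1 h2
    obtain ⟨w, a, b, c⟩ := ((den hH hU nU e he z hz).and_eventually
      (((cont (t1.hol e he z hz) I).eventually_ne hI).and (e.open_target.mem_nhds hz))).exists
    have h0 : W e w ≠ 0 := fun h0 => b (by simp [t3 e he w c, h0, crv])
    obtain ⟨s, s1, s2⟩ := lc e he w c h0
    have s0 : s ≠ 0 := fun h => a (by rw [s1, h, zero_smul])
    refine ⟨e, he, w, c, fun h => ?_⟩
    have := congrFun (s2.symm.trans ((p3 e he w c).trans h)) I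
    exact mul_ne_zero (mul_ne_zero s0 s0) b this
  · obtain ⟨s, t, -, s2⟩ := l2 e he z hz h0
    have b1 : crv (yy M 2 W V e z) *ᵥ π e z = 0 := zY e he z hz
    have b2 : crv (W e z) *ᵥ π e z = 0 := zW e he z hz
    rw [s2, (a _ _ 0).2.2.2.2.2.2.1, (a _ 0 _).2.2.2.2.2.2.2.1, (a _ 0 _).2.2.2.2.2.2.2.1,
      Matrix.sub_mulVec, Matrix.smul_mulVec, Matrix.smul_mulVec, b1, b2, smul_zero, smul_zero,
      sub_zero]
  · obtain ⟨s, t, s1, -⟩ := l2 e he z hz h0
    have b2 : crv (W e z) *ᵥ π e z = 0 := zW e he z hz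
    rw [s1, (a _ 0 _).2.2.2.2.2.2.2.1, Matrix.smul_mulVec, b2, smul_zero]

/-- Two directions give an infinite chain of levels, for any class `G` of fields. -/
theorem chain {M : Mf n} [i : M.Cpt] {H : M.Fam (Mat n)} (met : M.Met H)
    (fin : {m | ∃ U, HM M m U ∧ Nz U}.Finite) {G : ℕ → M.Fam (E n) → Prop}
    (hG : ∀ (k : ℕ) Y, G k Y → HT M k Y ∧ ¬Zr M Y)
    (up : ∀ (k j : ℕ) Y V, 0 < k → 0 < j → G k Y → G j V → Nz (wd M Y (vec M V)) →
      ∃ Z, G (k + j) Z)
    {m l : ℕ} {W U : M.Fam (E n)} (hm : 0 < m) (hl : 0 < l) (hW : G m W) (hU : G l U) :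
    Zr M (wd M W (vec M U)) := by
  have kv : ∀ (m : ℕ) U, HT M m U → HM M m (vec M U) ∧ DgM M 1 (vec M U) ∧
      (¬Zr M U ↔ Nz (vec M U)) := fun m => (st_KIT n M H m 0 met).2.1
  by_contra c
  have ch : ∀ j : ℕ, ∃ k, j < k ∧ ∃ Y, G k Y := fun j => by
    induction j with
    | zero => exact ⟨m, hm, W, hW⟩
    | succ j ih =>
      obtain ⟨k, k1, Y, y⟩ := ih
      by_cases p : Zr M (wd M Y (vec M W))
      · by_cases q : Zr M (wd M Y (vec M U))
        · exact (R2.one st_FK (st_ALG st_FK) (((st_KIT n M H l _ met).2.2.1 m W (hG _ _ hW).1).1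
            (kv l U (hG _ _ hU).1).1).hol (R2.nz c)
            (((st_KIT n M H k _ met).2.2.2.2.1 (kv k Y (hG _ _ y).1).1).2.2.2.2 i
              ((kv k Y (hG _ _ y).1).2.2.1 (hG _ _ y).2)) p q).elim
        · exact ⟨k + l, by omega, up k l Y U (by omega) hl y hU (R2.nz q)⟩
      · exact ⟨k + m, by omega, up k m Y W (by omega) hm y hW (R2.nz p)⟩
  refine infinite_of_forall_exists_gt (fun j => ?_) fin
  obtain ⟨k, k1, Y, y⟩ := ch j
  exact ⟨k, ⟨_, (kv k Y (hG _ _ y).1).1, (kv k Y (hG _ _ y).1).2.2.1 (hG _ _ y).2⟩, k1⟩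

end Pool.Agent.Lib.N4S.P55
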