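import Pool.Agent.Lib.N4S.B_LQY
import Pool.Agent.Lib.N4S.Cmp55
import Pool.Agent.Lib.NU4.B_R1

/-! Project n4s: one parallel direction. -/

open Set

set_option linter.unusedVariables false

namespace Pool.Agent.Lib.N4S

open Pool.Agent.Lib.HS32 Pool.Agent.Lib.HLK Pool.Agent.Lib.F4 Pool.Agent.Lib.NU4

open R1 in
theorem st_R1 (hPR1 : St_PR1) (hNM : St_NM) (hSMV : St_SMV) (hEXC : St_EXC) (hPPI : St_PPI)
    (hNIL : St_NIL) (hR2 : St_R2) (hUPS : St_UPS) (hINF : St_INF) (hLQY : St_LQY) : St_R1 := by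
  intro M i I _ S a q W V bad hW hV
  obtain ⟨w1, w2, w3⟩ := id hW
  have hZ := bad.zs
  have met := S.kae.toMet
  have kv : ∀ (m : ℕ) U, HT M m U → HM M m (vec M U) ∧ DgM M 1 (vec M U) ∧
      (¬Zr M U ↔ Nz (vec M U)) := fun m => (st_KIT 4 M S.H m 0 met).2.1
  have pr := fun m => hPR1 4 M I S a q m hZ
  refine or_iff_not_imp_left.2 fun ns => ?_
  have nv : ∀ π, Nn S 2 π → Nz π → Nz (wd M V π) := fun π p1 p3 => nz fun c =>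
    have p := (pr 2 le_rfl).1 π p1
    ns (hSMV 4 M I S a V hZ hV (Or.inl
      (((hNM 4 M I S a 2 1 π hZ p.1).2 p.2.1).2.2 p3 V hV.ht c)))
  obtain ⟨u1, -, u3⟩ := kv 2 W w1
  refine ⟨nz fun c => zn (nv _ w3 (u3.1 w2)) (swp st_FK c), by_contra fun c => ?_⟩
  obtain ⟨π, p4, p2, p3⟩ := (hEXC M I S a q 2 bad le_rfl).2.2 ⟨W, hW⟩
  obtain ⟨p1, p6, p5⟩ := (pr 2 le_rfl).1 π p4
  obtain ⟨-, sw, pw⟩ := (pr 2 le_rfl).1 _ w3
  have z1 : Zr M (wd M W π) := (hEXC M I S a q (2 + 2) bad (by omega)).1 _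
    (((st_KIT 4 M S.H 2 π met).2.2.1 2 W w1).1 p1) (fun e he z hz =>
      ((st_FK 4 (W e z) 0 0 0 0 (π e z)).2.2.2.2.2.2.2.2.2.2.2.2.2.2.2.2.2.2.2.2 2
        (p2 e he z hz)).1) (((hNM 4 M I S a 2 2 π hZ p1).2 p6).2.1 W w1 sw)
  have z2 := (hPPI 4 M I S a q 2 2 W hZ le_rfl le_rfl w1 pw).1 π p1 p5 z1
  have z3 := hNIL M I S a q W V π hZ bad.no w1 w2 pw hV.ht p1 p2 z1 z2 (nv π p4 p3)
  have ch : ∀ j : ℕ, ∃ m : ℕ, j < m ∧ 2 ≤ m ∧ ∃ U, Wf S m U := fun j => by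
    induction j with
    | zero => exact ⟨2, two_pos, le_rfl, W, hW⟩
    | succ j ih =>
      obtain ⟨m, m1, m2, U, v1, v2, v3⟩ := ih
      have pu := ((pr m m2).1 _ v3).2.2
      have z4 := hR2 M I S a q 2 m W U _ _ bad two_pos (by omega) ((pr 2 le_rfl).2 W w1 pw)
        ((pr m m2).2 U v1 pu)
      obtain ⟨q1, q2, q3, q4, q5, -⟩ := P55.cmp met m2 w1 w2 v1 v2 hV.ht p1 z4
        ((hPPI 4 M I S a q 2 m W hZ le_rfl m2 w1 pw).2 U v1 pu z4) z1 z3 (nz c)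
      obtain ⟨R, r1, r2, r3⟩ := hLQY 4 M I S a q 2 m _ π U _ hZ le_rfl m2 p1 p3 p6 p5 v1 pu q4 q5 q1
      exact ⟨2 * m + 1, by omega, by omega,
        hUPS M I S a q _ _ R bad (by omega) q1 q2 q3 r1 r2 r3⟩
  refine infinite_of_forall_exists_gt (fun j => ?_) (hINF 4 M I S bad.no).1
  obtain ⟨m, m1, -, U, v1, v2, -⟩ := ch j
  exact ⟨m, ⟨_, (kv m U v1).1, (kv m U v1).2.2.1 v2⟩, m1⟩

end Pool.Agent.Lib.N4S
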