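import Pool.Agent.Lib.N4S.Blue
import Pool.Agent.Lib.N4S.Cmp55

/-! Project n4s: two directions give an infinite chain of levels. -/

set_option linter.unusedVariables false

namespace Pool.Agent.Lib.N4S

open Pool.Agent.Lib.HS32 Pool.Agent.Lib.HLK Pool.Agent.Lib.F4 Pool.Agent.Lib.NU4

theorem st_R2 (hPRD : St_PRD) (hUPS : St_UPS) (hPR1 : St_PR1) (hINF : St_INF) : St_R2 := by
  intro M i I _ S a q m l W U δ δ' bad hm hl hW hU
  have met := S.kae.toMet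
  by_cases w0 : Zr M W
  · exact fun e he z hz => by simp [wd, w0 e he z hz, crv]
  by_cases u0 : Zr M U
  · exact fun e he z hz => by simp [wd, vec, u0 e he z hz, crv]
  refine P55.chain (G := fun k Y => ¬Zr M Y ∧ ∃ δ, Fd S a q k Y δ) met (hINF 4 M I S bad.no).1
    (fun k Y h => ⟨h.2.elim fun _ h => h.ht, h.1⟩) ?_ hm hl ⟨w0, δ, hW⟩ ⟨u0, δ', hU⟩
  rintro k j Y V hk hj ⟨-, γ, y⟩ ⟨-, γ', v⟩ c
  have h2 : 2 ≤ k + j := by omega
  obtain ⟨v1, v2, -⟩ := (st_KIT 4 M S.H j 0 met).2.1 V v.ht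
  obtain ⟨R, r1, r2, r3⟩ := hPRD 4 M I S a q k j Y V γ γ' bad.zs hk hj y v
  obtain ⟨Z, z1, z2, z3⟩ := hUPS M I S a q (k + j) _ R bad h2
    (((st_KIT 4 M S.H j _ met).2.2.1 k Y y.ht).1 v1) (fun e he z hz =>
      ((st_FK 4 (Y e z) 0 0 0 0 (vec M V e z)).2.2.2.2.2.2.2.2.2.2.2.2.2.2.2.2.2.2.2.2 1
        (v2 e he z hz)).1) c r1 r2 r3
  have p := hPR1 4 M I S a q (k + j) bad.zs h2
  exact ⟨Z, z2, _, p.2 Z z1 (p.1 _ z3).2.2⟩

end Pool.Agent.Lib.N4S
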