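import Pool.Agent.Lib.N4S.Blue
import Pool.Agent.Lib.N4S.Pj93
import Pool.Agent.Lib.NU4.B_FK
import Pool.Agent.Lib.NU4.B_LIE
import Pool.Agent.Lib.NU4.B_KIT

/-! Project n4s, row REC: recurrence. -/

namespace Pool.Agent.Lib.N4S

theorem st_REC : St_REC := fun _ _ _ _ _ _ _ q l W ρ τ h =>
  Rc93.recS NU4.st_FK (NU4.st_LIE NU4.st_FK) NU4.st_KIT h q l W ρ τ

end Pool.Agent.Lib.N4S
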