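import Pool.Agent.Lib.N4S.Defs

/-! Project n4s: the parameters of the truncation exist. -/

open scoped Classical Topology ContDiff
open Set Filter MeasureTheory Real

set_option linter.unusedVariables false

noncomputable section

namespace Pool.Agent.Lib.N4S.S33

/-- A convex function that is constant on the left and the identity on the right. -/
def c0 (t : ℝ) : ℝ := ∫ u in (0 : ℝ)..t, smoothTransition (u + 1)

theorem st_cont : Continuous fun u : ℝ => smoothTransition (u + 1) :=
  smoothTransition.continuous.comp (continuous_id.add continuous_const)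

theorem c0_der (t : ℝ) : HasDerivAt c0 (smoothTransition (t + 1)) t :=
  (st_cont.integral_hasStrictDerivAt 0 t).hasDerivAt

theorem c0_sm : ContDiff ℝ ∞ c0 := by
  rw [contDiff_infty_iff_deriv]
  refine ⟨fun t => (c0_der t).differentiableAt, ?_⟩
  rw [show deriv c0 = fun t => smoothTransition (t + 1) from funext fun t => (c0_der t).deriv]
  exact smoothTransition.contDiff.comp (contDiff_id.add contDiff_const)

theorem c0_id {t : ℝ} (ht : 0 ≤ t) : c0 t = t := by
  rw [c0, intervalIntegral.integral_congr (g := fun _ => (1 : ℝ))]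
  · simp
  · intro u hu
    rw [uIcc_of_le ht] at hu
    exact smoothTransition.one_of_one_le (by linarith [hu.1])

theorem c0_mono : Monotone c0 :=
  monotone_of_hasDerivAt_nonneg c0_der fun t => smoothTransition.nonneg _

theorem c0_anti : Antitone fun t => c0 t - t :=
  antitone_of_hasDerivAt_nonpos (fun t => (c0_der t).sub (hasDerivAt_id t))
    fun t => sub_nonpos.2 (smoothTransition.le_one _)

theorem c0_ge (t : ℝ) : t ≤ c0 t := by
  rcases le_total 0 t with h | h
  · exact (c0_id h).ge
  · have := c0_anti h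
    simp only [c0_id le_rfl] at this
    linarith

theorem c0_le (t : ℝ) : c0 t ≤ max t 0 := by
  rcases le_total 0 t with h | h
  · rw [c0_id h]; exact le_max_left _ _
  · have := c0_mono h
    rw [c0_id le_rfl] at this
    exact this.trans (le_max_right _ _)

theorem c0_lo (t : ℝ) : -1 ≤ c0 t := by
  rcases le_total (-1) t with h | h
  · exact h.trans (c0_ge t)
  · have e : c0 t = c0 (-1) + ∫ u in (-1 : ℝ)..t, smoothTransition (u + 1) :=
      (intervalIntegral.integral_add_adjacent_intervals (st_cont.intervalIntegrable _ _)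
        (st_cont.intervalIntegrable _ _)).symm
    rw [e, intervalIntegral.integral_congr (g := fun _ => (0 : ℝ))]
    · simpa using c0_ge (-1)
    · intro u hu
      rw [uIcc_of_ge h] at hu
      exact smoothTransition.zero_of_nonpos (by linarith [hu.2])

theorem ds_nonneg (t : ℝ) : 0 ≤ deriv smoothTransition t := smoothTransition.monotone.deriv_nonneg

theorem ds_hi {t : ℝ} (ht : 1 ≤ t) : deriv smoothTransition t = 0 :=
  IsLocalMax.deriv_eq_zero (Eventually.of_forall fun u => by
    rw [smoothTransition.one_of_one_le ht]; exact smoothTransition.le_one u)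

theorem ds_lo {t : ℝ} (ht : t ≤ 0) : deriv smoothTransition t = 0 :=
  IsLocalMin.deriv_eq_zero (Eventually.of_forall fun u => by
    rw [smoothTransition.zero_of_nonpos ht]; exact smoothTransition.nonneg u)

theorem ds_bd : ∃ K : ℝ, ∀ t, deriv smoothTransition t ≤ K := by
  have hc : Continuous (deriv smoothTransition) :=
    (smoothTransition.contDiff (n := 1)).continuous_deriv le_rfl
  obtain ⟨K, hK⟩ := (isCompact_Icc (a := (0 : ℝ)) (b := 1)).bddAbove_image hc.continuousOn
  refine ⟨max K 0, fun t => ?_⟩
  rcases le_total t 0 with h | h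
  · rw [ds_lo h]; exact le_max_right _ _
  rcases le_total 1 t with h' | h'
  · rw [ds_hi h']; exact le_max_right _ _
  · exact (hK ⟨t, ⟨h, h'⟩, rfl⟩).trans (le_max_left _ _)

theorem sh_d1 (N : ℝ) : deriv (fun t => c0 (t + N) - N) = fun t => smoothTransition (t + (N + 1)) :=
  funext fun t => by
    rw [← add_assoc]
    exact (((c0_der (t + N)).comp_add_const t N).sub_const N).deriv

theorem sh_d2 (N t : ℝ) :
    deriv (deriv fun t => c0 (t + N) - N) t = deriv smoothTransition (t + (N + 1)) := by
  rw [sh_d1, deriv_comp_add_const]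

theorem gauss (p δ : ℝ) (hδ : 0 < δ) :
    Tendsto (fun x : ℝ => exp (p * x - δ * x ^ 2)) atTop (𝓝 0) := by
  refine tendsto_exp_atBot.comp ?_
  have h : Tendsto (fun x : ℝ => x * (p - δ * x)) atTop atBot :=
    tendsto_id.atTop_mul_atBot₀ (tendsto_atBot_add_const_left _ p
      (tendsto_neg_atTop_atBot.comp (tendsto_id.const_mul_atTop hδ)))
  exact h.congr fun x => by ring

theorem sq_ex : Nonempty Sq := by
  obtain ⟨K, hK⟩ := ds_bd
  have hN : Tendsto (fun j : ℕ => (j : ℝ) + 1) atTop atTop :=
    tendsto_atTop_add_const_right _ _ tendsto_natCast_atTop_atTop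
  have h1 : ∀ j : ℕ, exp (-((j : ℝ) + 1) ^ 2) ≤ 1 := fun j =>
    exp_le_one_iff.2 (neg_nonpos.2 (sq_nonneg _))
  refine ⟨{
    e := fun j => exp (-((j : ℝ) + 1) ^ 2)
    d := fun j => exp (-((j : ℝ) + 1) ^ 2) / 2
    N := fun j => (j : ℝ) + 1
    χ := fun j t => c0 (t + ((j : ℝ) + 1)) - ((j : ℝ) + 1)
    K := K
    e0 := fun j => ⟨exp_pos _, h1 j⟩
    d0 := fun j => ⟨by positivity, by linarith [h1 j]⟩
    N1 := fun j => by linarith [(Nat.cast_nonneg j : (0 : ℝ) ≤ j)]
    Nt := hN
    et := fun p => ((gauss p 1 one_pos).comp hN).congr fun j => ?_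
    dt := fun p δ hδ => ?_
    sm := fun j => (c0_sm.comp (contDiff_id.add contDiff_const)).sub contDiff_const
    id := fun j t ht => ⟨?_, ?_, ?_⟩
    lo := fun j t => ⟨?_, ?_, ?_⟩
    d1 := fun j t => ?_
    d2 := fun j t => ?_
    cs := fun j t ht => ⟨?_, ?_⟩ }⟩
  · simp only [Function.comp, ← exp_add]
    ring_nf
  · have := ((gauss p δ hδ).comp hN).mul_const ((2 : ℝ) ^ δ)⁻¹
    rw [zero_mul] at this
    refine this.congr fun j => ?_
    simp only [Function.comp]
    rw [div_rpow (exp_pos _).le zero_le_two, ← exp_mul, div_eq_mul_inv, ← mul_assoc, ← exp_add]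
    ring_nf
  · rw [c0_id (by linarith)]; ring
  · rw [sh_d1]; exact smoothTransition.one_of_one_le (by linarith)
  · rw [sh_d2]; exact ds_hi (by linarith)
  · linarith [c0_lo (t + ((j : ℝ) + 1))]
  · linarith [c0_ge (t + ((j : ℝ) + 1))]
  · have := c0_le (t + ((j : ℝ) + 1))
    rcases le_total (t + ((j : ℝ) + 1)) 0 with h | h
    · rw [max_eq_right h] at this
      exact le_max_of_le_right (by linarith)
    · rw [max_eq_left h] at this
      exact le_max_of_le_left (by linarith)
  · rw [sh_d1]; exact ⟨smoothTransition.nonneg _, smoothTransition.le_one _⟩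
  · rw [sh_d2]; exact ⟨ds_nonneg _, hK _⟩
  · rw [sh_d1]; exact smoothTransition.zero_of_nonpos (by linarith)
  · rw [sh_d2]; exact ds_lo (by linarith)

end Pool.Agent.Lib.N4S.S33
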