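import Pool.Agent.Lib.N4S.Blue
import Pool.Agent.Lib.N4S.Sq33

/-! Project n4s, row SEQ. -/

namespace Pool.Agent.Lib.N4S

theorem st_SEQ : St_SEQ := S33.sq_ex

end Pool.Agent.Lib.N4S
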