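import Pool.Agent.Lib.N4S.Sg19c

/-! Project n4s: a multivector of the class of the level `m` is parallel in the quadratic mean. -/

open scoped Classical Topology ContDiff ComplexOrder Matrix
open Set Filter MeasureTheory

noncomputable section

namespace Pool.Agent.Lib.N4S.G19

open Pool.Agent.Lib.SV (E)
open Pool.Agent.Lib.HS32 Pool.Agent.Lib.HLK Pool.Agent.Lib.F4 Pool.Agent.Lib.NU4
  Pool.Agent.Lib.NU4.SG Pool.Agent.Lib.N4S.K78
open Pool.Agent.Lib.EXH (aw)

variable {n : ℕ} {M : Mf n} {I : Type} [Fintype I] {S : Sd M I} {m : ℕ} {W : M.Fam (Fs n → ℂ)}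
  {a : ℝ → M.X → ℝ}

theorem trc (q : Sq) (j : ℕ) {μ : ℝ} (h : 0 < μ) : ContDiff ℝ ∞ (fun y => μ * q.χ j (y / μ)) ∧
    ∀ y, y ≤ μ * q.χ j (y / μ) ∧ 0 ≤ deriv (fun y => μ * q.χ j (y / μ)) y ∧
      deriv (fun y => μ * q.χ j (y / μ)) y ≤ 1 ∧
      (deriv (fun y => μ * q.χ j (y / μ)) y ≠ 0 →
        Real.exp (-(μ * (q.N j + 1))) * Real.exp (-y) ≤ 1) ∧
      (deriv (fun y => μ * q.χ j (y / μ)) y ≠ 1 →
        1 ≤ Real.exp μ * (Real.exp (-(μ * (q.N j + 1))) * Real.exp (-y))) := by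
  refine ⟨contDiff_const.mul ((q.sm j).comp (contDiff_id.div_const μ)), fun y => ?_⟩
  have e : deriv (fun y => μ * q.χ j (y / μ)) y = deriv (q.χ j) (y / μ) := by
    refine (((((q.sm j).differentiable (by simp)) (y / μ)).hasDerivAt.comp y
      ((hasDerivAt_id y).div_const μ)).const_mul μ).deriv.trans ?_
    field_simp
  rw [e, ← Real.exp_add, ← Real.exp_add]
  refine ⟨(div_le_iff₀' h).1 (q.lo j _).2.1, (q.d1 j _).1, (q.d1 j _).2, fun k => ?_, fun k => ?_⟩
  · have := (lt_div_iff₀ h).1 (not_le.1 fun b => k (q.cs j _ b).1)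
    exact Real.exp_le_one_iff.2 (by linarith)
  · have := (div_lt_iff₀ h).1 (not_le.1 fun b => k (q.id j _ b).2.1)
    exact Real.one_le_exp (by linarith)

theorem one [M.Cpt] (hZ : Zs S a) (q : Sq) (hm : 2 ≤ m) (hW : Nw S m W) : ∃ K : ℝ, 0 ≤ K ∧ ∀ j,
    (lj S a q m j).nr S.H ((oP S.H (aw M (pm S m) (ww S a q m j))).ap W) ≤
      K * (Real.exp (-(((m : ℝ) - 1) * (q.N j + 1))) * ∫ x, Real.exp (-(2 * ((m : ℝ) - 1) *
          a (q.e j) x)) * Real.exp (-lf S m (q.d j) x) ∂M.mu S.H +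
        Real.exp (((m : ℝ) - 1) * (q.N j + 1)) * (q.e j + ∑ k, ∫ x, Real.exp (-lf S m (q.d j) x) *
          (q.d j / (sg S.toDk k x + q.d j)) ∂M.mu S.H)) := by
  obtain ⟨C, C0, hC⟩ := bnd hW.toNt
  obtain ⟨B, B0, hB⟩ := hW.sml
  obtain ⟨μ, hμ⟩ : ∃ μ : ℝ, μ = (m : ℝ) - 1 := ⟨_, rfl⟩
  have m0 : 0 < μ := by
    have : (2 : ℝ) ≤ m := by exact_mod_cast hm
    linarith
  have ig := (mMU n M _ (met S)).2.2.2.2.1 ℝ
  have a0 := (aLAM n M _ _ _ (met S) (pm_wt S m)).2.2
  obtain ⟨K, hK⟩ : ∃ K, K = (16 + 2 * Real.exp μ + 8 * Fintype.card I) * C + 8 * C + 8 * μ * B :=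
    ⟨_, rfl⟩
  refine ⟨K, by rw [hK]; positivity, fun j => ?_⟩
  have d0 := (q.d0 j).1
  have e0 := (q.e0 j).1
  have sa := a_sm hZ q j
  have sl := lf_sm S m d0
  have p := fun k x => add_pos_of_nonneg_of_pos (sg_nn S.toDk k x) d0
  have cρ : ∀ k, Continuous fun x => q.d j / (sg S.toDk k x + q.d j) := fun k =>
    continuous_const.div ((sg_sm S.toDk k).continuous.add continuous_const) fun x => (p k x).ne'
  have cl := sl.continuous
  have ca := sa.continuous
  have om : M.All fun e z => (μ • (bf S - M.ric S.H) + M.hs (fun x => μ * a (q.e j) x) +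
      (μ * q.e j) • S.H) e z = (μ • oms S (q.e j) (a (q.e j))) e z := fun e he z hz => by
    simp only [oms, Pi.add_apply, Pi.smul_apply, Pi.sub_apply,
      ((mLAP n M _ _ sa sa).1 μ e he z hz).2.2.2.1]
    module
  have o0 : M.Le 0 (oms S (q.e j) (a (q.e j))) := (hZ.out.kae _ (q.e0 j)).toMet.nonneg
  obtain ⟨g1, g2⟩ := trc q j m0
  have k := sgw (W := W) (G := fun x => C * Real.exp (-lf S m (q.d j) x))
    (r := fun x => (C * ∑ k, q.d j / (sg S.toDk k x + q.d j)) * Real.exp (-lf S m (q.d j) x))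
    S.kae ((a0 _).1 sl).1 ⟨hW.sec.sm, hW.sec.cmp⟩ hW.hol
    (((bf_clo S).toTen.sub ((mHES n M).2.2.2.2.2.2.2.2.1 _ (met S)).toTen).smul μ) (rd_ten d0)
    (hμ ▸ cv (by omega) d0) (mul_pos m0 e0).le (Real.exp_pos (-(μ * (q.N j + 1))))
    (Real.one_le_exp m0.le) (sa.const_mul μ)
    (fun x => mul_nonpos_of_nonneg_of_nonpos m0.le (hZ.out.le _ (q.e0 j) x))
    (fun e he z hz => by
      have := o0 e he z hz
      beta_reduce
      rw [om e he z hz]
      simp only [Pi.zero_apply, sub_zero, Pi.smul_apply] at this ⊢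
      exact this.smul m0.le)
    (by fun_prop) (by fun_prop)
    (fun x => mul_nonneg (mul_nonneg C0 (Finset.sum_nonneg fun k _ => (div_pos d0 (p k x)).le))
      (Real.exp_pos _).le)
    (fun x => ((a0 _).2 _ W x).2.1.trans_le
      (mul_le_mul_of_nonneg_right (hC _ d0 x).1 (Real.exp_pos _).le))
    (fun x => (SG.cu_aw _ _ _ x).trans_le
      (mul_le_mul_of_nonneg_right (hμ ▸ (hC _ d0 x).2.1) (Real.exp_pos _).le))
    (fun x => (SG.cu_aw _ _ _ x).trans_le
      (mul_le_mul_of_nonneg_right (hC _ d0 x).2.2 (Real.exp_pos _).le)) g1 g2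
  have e1 : (fun x => lf S m (q.d j) x + μ * q.χ j (μ * a (q.e j) x / μ)) = ww S a q m j :=
    funext fun x => by rw [mul_div_cancel_left₀ _ m0.ne', ww, tp, ← hμ, add_comm]
  have e2 : ∀ x, cu (μ • (bf S - M.ric S.H) + M.hs (fun x => μ * a (q.e j) x) + (μ * q.e j) • S.H)
      (lam S.H (Lb S m) (aw M (pm S m) (lf S m (q.d j)))) W x = μ *
        (Real.exp (-lf S m (q.d j) x) * cu (oms S (q.e j) (a (q.e j))) (lb S m) W x) := fun x => by
    rw [cu_congr _ _ (congrFun (Mf.ev_congr om) x), cu_smul, K78.cu_aw]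
  simp only [aw_aw, e1, e2, integral_const_mul] at k
  have b := hB _ _ e0.le sa o0 _ (q.d0 j)
  rw [← hμ]
  obtain ⟨δ, hδ⟩ : ∃ δ, δ = Real.exp (-(μ * (q.N j + 1))) := ⟨_, rfl⟩
  have δ0 : 0 < δ := hδ ▸ Real.exp_pos _
  rw [show Real.exp (μ * (q.N j + 1)) = δ⁻¹ by rw [hδ, Real.exp_neg, inv_inv], ← hδ]
  rw [← hδ] at k
  have i1 := ig (fun x => Real.exp (-(2 * μ * a (q.e j) x)) * Real.exp (-lf S m (q.d j) x))
    (by fun_prop)
  have i2 := fun k => ig (fun x => Real.exp (-lf S m (q.d j) x) *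
    (q.d j / (sg S.toDk k x + q.d j))) ((by fun_prop : Continuous _).mul (cρ k))
  have k1 := integral_mono (ig (fun x => (16 + 2 * Real.exp μ) * δ *
      (Real.exp (-(μ * a (q.e j) x)) ^ 2 * (C * Real.exp (-lf S m (q.d j) x))) +
      8 * (Real.exp (-(μ * a (q.e j) x)) * ((C * ∑ k, q.d j / (sg S.toDk k x + q.d j)) *
        Real.exp (-lf S m (q.d j) x)))) (by fun_prop))
    ((i1.const_mul ((16 + 2 * Real.exp μ + 8 * Fintype.card I) * C * δ)).add
      ((integrable_finsetSum Finset.univ fun k _ => i2 k).const_mul (8 * C * δ⁻¹))) fun x => by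
      have e : Real.exp (-(2 * μ * a (q.e j) x)) = Real.exp (-(μ * a (q.e j) x)) ^ 2 := by
        rw [sq, ← Real.exp_add]
        exact congrArg Real.exp (by ring)
      simp only [Pi.add_apply, e, ← Finset.mul_sum]
      generalize Real.exp (-(μ * a (q.e j) x)) = t
      have : t * ∑ k, q.d j / (sg S.toDk k x + q.d j) ≤
          Fintype.card I * (δ * t ^ 2) + δ⁻¹ * ∑ k, q.d j / (sg S.toDk k x + q.d j) := by
        rw [Finset.mul_sum, Finset.mul_sum, ← nsmul_eq_mul, ← Finset.card_univ,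
          ← Finset.sum_const, ← Finset.sum_add_distrib]
        refine Finset.sum_le_sum fun k _ => ?_
        have r0 := div_pos d0 (p k x)
        have r1 := (div_le_one (p k x)).2 (le_add_of_nonneg_left (sg_nn S.toDk k x))
        generalize q.d j / (sg S.toDk k x + q.d j) = ρ at r0 r1
        have y : δ * t ^ 2 + δ⁻¹ * ρ - t * ρ =
            δ⁻¹ * ((δ * t - ρ / 2) ^ 2 + ρ * (1 - ρ) + 3 / 4 * ρ ^ 2) := by
          field_simp
          ring
        have : 0 ≤ δ⁻¹ * ((δ * t - ρ / 2) ^ 2 + ρ * (1 - ρ) + 3 / 4 * ρ ^ 2) := by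
          have := sub_nonneg.2 r1
          positivity
        linarith
      have := mul_le_mul_of_nonneg_left this
        (show 0 ≤ 8 * C * Real.exp (-lf S m (q.d j) x) by positivity)
      linarith
  rw [integral_add' (i1.const_mul _) ((integrable_finsetSum _ fun k _ => i2 k).const_mul _),
    integral_const_mul, integral_const_mul, integral_finsetSum _ fun k _ => i2 k] at k1
  have n1 : 0 ≤ ∫ x, Real.exp (-(2 * μ * a (q.e j) x)) * Real.exp (-lf S m (q.d j) x) ∂M.mu S.H :=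
    integral_nonneg fun x => by positivity
  have n2 : 0 ≤ ∑ k, ∫ x, Real.exp (-lf S m (q.d j) x) * (q.d j / (sg S.toDk k x + q.d j))
      ∂M.mu S.H := Finset.sum_nonneg fun k _ => integral_nonneg fun x =>
    mul_nonneg (Real.exp_pos _).le (div_pos d0 (p k x)).le
  refine k.trans ((add_le_add k1 (mul_le_mul_of_nonneg_left (mul_le_mul_of_nonneg_left b m0.le)
    (by positivity))).trans ?_)
  generalize ∫ x, Real.exp (-(2 * μ * a (q.e j) x)) * Real.exp (-lf S m (q.d j) x) ∂M.mu S.H = X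
    at n1 ⊢
  generalize ∑ k, ∫ x, Real.exp (-lf S m (q.d j) x) * (q.d j / (sg S.toDk k x + q.d j))
    ∂M.mu S.H = Y at n2 ⊢
  obtain ⟨A, hA⟩ : ∃ A, A = (16 + 2 * Real.exp μ + 8 * Fintype.card I) * C := ⟨_, rfl⟩
  have A0 : 0 ≤ A := by rw [hA]; positivity
  rw [hK, ← hA, div_eq_mul_inv]
  have : 0 ≤ (8 * C + 8 * μ * B) * (δ * X) + (A + 8 * C) * (δ⁻¹ * q.e j) +
    (A + 8 * μ * B) * (δ⁻¹ * Y) := by positivity
  linarith

theorem sg19 [M.Cpt] (hZ : Zs S a) (q : Sq) (hm : 2 ≤ m) (hW : Nw S m W)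
    (hK : ∀ t : I → ℝ, (∀ k, 0 ≤ t k ∧ t k < 1) → ∀ p : ℝ, 0 ≤ p → ∃ C : ℝ, ∀ j,
      ∫ x, Real.exp (-(p * a (q.e j) x)) * ∏ k, (sg S.toDk k x + q.d j) ^ (-t k) ∂M.mu S.H ≤ C) :
    Tendsto (fun j => (lj S a q m j).nr S.H ((oP S.H (aw M (pm S m) (ww S a q m j))).ap W))
      atTop (𝓝 0) := by
  obtain ⟨K, K0, h⟩ := one hZ q hm hW
  obtain ⟨μ, hμ⟩ : ∃ μ : ℝ, μ = (m : ℝ) - 1 := ⟨_, rfl⟩
  have m0 : 0 < μ := by
    have : (2 : ℝ) ≤ m := by exact_mod_cast hm
    linarith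
  have ig := (mMU n M _ (met S)).2.2.2.2.1 ℝ
  have p := fun j k x => add_pos_of_nonneg_of_pos (sg_nn S.toDk k x) (q.d0 j).1
  obtain ⟨C, hC⟩ := hK _ (fun k => ⟨ka_nn S.toDk m k, ka_lt S.toDk m k⟩) (2 * μ) (by positivity)
  have t1 : Tendsto (fun j => Real.exp (-(μ * (q.N j + 1))) * C) atTop (𝓝 0) := by
    simpa using (Real.tendsto_exp_neg_atTop_nhds_zero.comp
      ((tendsto_atTop_add_const_right _ 1 q.Nt).const_mul_atTop m0)).mul_const C
  have ex : ∀ j, Real.exp (μ * (q.N j + 1)) = Real.exp μ * Real.exp (μ * q.N j) := fun j => by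
    rw [← Real.exp_add]
    exact congrArg Real.exp (by ring)
  have t3 : ∀ k, Tendsto (fun j => Real.exp (μ * q.N j) * ∫ x, Real.exp (-lf S m (q.d j) x) *
      (q.d j / (sg S.toDk k x + q.d j)) ∂M.mu S.H) atTop (𝓝 0) := fun k => by
    obtain ⟨τ, hτ⟩ : ∃ τ, τ = (1 - ka S.toDk m k) / 2 := ⟨_, rfl⟩
    have k0 := ka_nn S.toDk m k
    have k1 := ka_lt S.toDk m k
    have τ0 : 0 < τ := by linarith
    obtain ⟨B, hB⟩ := hK (fun i => ka S.toDk m i + if i = k then τ else 0) (fun i => by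
      have := ka_nn S.toDk m i
      have := ka_lt S.toDk m i
      split_ifs with c
      · subst c
        constructor <;> linarith
      · constructor <;> linarith) 0 le_rfl
    refine squeeze_zero (fun j => mul_nonneg (Real.exp_pos _).le (integral_nonneg fun x =>
      mul_nonneg (Real.exp_pos _).le (div_pos (q.d0 j).1 (p j k x)).le)) (fun j => ?_)
      (by simpa using (q.dt μ τ τ0).mul_const B)
    have d0 := (q.d0 j).1
    have e : ∀ x, ∏ i, (sg S.toDk i x + q.d j) ^ (-(ka S.toDk m i + if i = k then τ else 0)) =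
        Real.exp (-lf S m (q.d j) x) * (sg S.toDk k x + q.d j) ^ (-τ) := fun x => by
      simp only [neg_add, Real.rpow_add (p j _ x), Finset.prod_mul_distrib, ← exp_lf S m d0]
      rw [Finset.prod_eq_single k (fun i _ c => by simp [c]) (by simp), if_pos rfl]
    have b := hB j
    simp only [e, zero_mul, neg_zero, Real.exp_zero, one_mul] at b
    have cl := (lf_sm S m d0).continuous
    have cs : Continuous fun x => sg S.toDk k x + q.d j :=
      (sg_sm S.toDk k).continuous.add continuous_const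
    rw [mul_assoc]
    refine mul_le_mul_of_nonneg_left (le_trans ?_
      (mul_le_mul_of_nonneg_left b (Real.rpow_nonneg d0.le τ))) (Real.exp_pos _).le
    rw [← integral_const_mul]
    refine integral_mono (ig _ (cl.neg.rexp.mul (continuous_const.div cs fun x => (p j k x).ne')))
      ((ig _ (cl.neg.rexp.mul (cs.rpow_const fun x => Or.inl (p j k x).ne'))).const_mul _)
      fun x => ?_
    beta_reduce
    rw [mul_left_comm, Real.rpow_neg (p j k x).le, ← div_eq_mul_inv,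
      ← Real.div_rpow d0.le (p j k x).le]
    refine mul_le_mul_of_nonneg_left ?_ (Real.exp_pos _).le
    exact Real.self_le_rpow_of_le_one (div_pos d0 (p j k x)).le
      ((div_le_one (p j k x)).2 (le_add_of_nonneg_left (sg_nn S.toDk k x))) (by linarith)
  have t4 := (t1.add (((q.et μ).add (tendsto_finsetSum Finset.univ fun k _ => t3 k)).const_mul
    (Real.exp μ))).const_mul K
  simp only [Finset.sum_const_zero, add_zero, mul_zero] at t4
  refine squeeze_zero (fun j => integral_nonneg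
    (Pre.pn_nonneg (g := ⟨S.H, _, met S, lj_ok hZ q m j⟩) _)) (fun j => (h j).trans ?_) t4
  have b := hC j
  simp only [← exp_lf S m (q.d0 j).1] at b
  rw [← hμ, ex, ← Finset.mul_sum, ← mul_add, mul_assoc]
  exact mul_le_mul_of_nonneg_left (add_le_add_left
    (mul_le_mul_of_nonneg_left b (Real.exp_pos _).le) _) K0

end Pool.Agent.Lib.N4S.G19
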