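import Pool.Agent.Lib.N4S.Blue
import Pool.Agent.Lib.N4S.Sg19d
import Pool.Agent.Lib.N4S.Nc4d

/-! Project n4s: parallel in the quadratic mean. -/

namespace Pool.Agent.Lib.N4S

theorem st_SG : St_SG := fun _ _ _ _ _ S _ q _ _ hZ hm hW =>
  G19.sg19 hZ q hm hW fun _ ht _ hp => (Nc4.klt S.pos hZ ht hp).imp fun _ h j =>
    h _ (q.e0 j) _ (q.d0 j)

end Pool.Agent.Lib.N4S
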