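import Pool.Agent.Lib.N4S.Blue
import Pool.Agent.Lib.N4S.Up71

/-! Project n4s, row UPS: a bivector whose divergences converge gives a field. -/

open scoped Classical Topology ContDiff ComplexOrder Matrix
open Set Filter MeasureTheory

set_option linter.unusedVariables false

noncomputable section

namespace Pool.Agent.Lib.N4S

open Pool.Agent.Lib.HS32 Pool.Agent.Lib.HLK Pool.Agent.Lib.F4 Pool.Agent.Lib.NU4

theorem st_UPS (hG : St_GEN) (hL : St_LB) (hE : St_EXC) : St_UPS := by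
  intro M _ I _ S a q m T R B hm hT dT nT hR dR h
  obtain ⟨g1, g2⟩ := hG 4 M I S a q m T R B.zs hm hT hR h
  by_cases c : M.All fun e z => e.symm z ∈ Of S.toDk → R e z = 0
  · obtain ⟨W, w1, w2, w3⟩ := hL 4 M I S a q m 2 T B.zs hm ⟨fun e he z hz _ => hT.hol e he z hz,
      fun e he e' he' x hx hx' _ => hT.cmp e he e' he' x hx hx'⟩ dT (g2 c)
    exact (hE M I S a q m B hm).2.1 ⟨up S m W, ⟨W, w1, fun _ _ _ _ => rfl⟩, K78.up_dg S w2,
      U71.nz_up w1.sec (U71.nz_of w3 (U71.nz_Of (U71.hm_con hT) nT))⟩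
  · obtain ⟨W, w1, w2, w3⟩ := hL 4 M I S a q m 1 R B.zs hm hR dR g1
    obtain ⟨Z, z1, z2, z3⟩ := U71.fld w1 w2 (U71.nz_of w3 c)
    exact ⟨Z, z1, z2, W, w1, z3⟩

end Pool.Agent.Lib.N4S
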