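import Pool.Agent.Lib.N4S.Blue
import Pool.Agent.Lib.N4S.Spw84

/-! Project n4s: the transfer of the weak condition. -/

open scoped Classical Topology ContDiff ComplexOrder Matrix
open Set Filter MeasureTheory Complex

noncomputable section

namespace Pool.Agent.Lib.N4S

open Pool.Agent.Lib.SV (E)
open Pool.Agent.Lib.HS32 Pool.Agent.Lib.KP Pool.Agent.Lib.HLK Pool.Agent.Lib.F4 Pool.Agent.Lib.NU4
open Pool.Agent.Lib.K3E (kan wk lk)
open Pool.Agent.Lib.EXH (aw)
open Pool.Agent.Lib.N4S.Lim84 Pool.Agent.Lib.N4S.Spw84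

/-- The weak condition only sees the complement of the divisors. -/
theorem wp_congr {n : ℕ} {M : Mf n} [M.Cpt] {I : Type} [Fintype I] {S : Sd M I} {a : ℝ → M.X → ℝ}
    {q : Sq} {m : ℕ} {T T' : M.Fam (Fs n → ℂ)}
    (h : M.All fun e z => e.symm z ∈ Of S.toDk → T e z = T' e z) (w : Wp S a q m T) :
    Wp S a q m T' := fun y hy k => (w y hy k).congr fun j => by
  obtain ⟨K, ⟨hK, hO⟩, h0⟩ := k
  refine integral_congr_ae (Eventually.of_forall fun x => ?_)
  have s := q_dn hy hK.isClosed hO h0 _ (Mf.ch_mem x) _ (Mf.ch_tgt x)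
  by_cases c : x ∈ K
  · simp only [Bun.pp, Mf.ev, h _ (Mf.ch_mem x) _ (Mf.ch_tgt x) (by rw [Mf.ch_symm]; exact hO c)]
  · simp only [Bun.pp, Mf.ev, s.1, s.2 (by rwa [Mf.ch_symm]), smul_zero, star_zero,
      zero_dotProduct]

/-- The transfer for admissible weights. -/
theorem wp_up {n : ℕ} {M : Mf n} [M.Cpt] {I : Type} [Fintype I] {S : Sd M I} {a : ℝ → M.X → ℝ}
    {q : Sq} {m : ℕ} (hm : 1 ≤ m) (h : Adm M S.H (Lb S m) (pm S m) (ww S a q m))
    {U : M.Fam (Fs n → ℂ)} (hU : (lb S m).Sec U)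
    (w : Fl.WP S.H (Lb S m) (pm S m) (fun j x => Real.exp (-ww S a q m j x)) U) (p : ℕ → Prop) :
    Wp S a q m (up S m (IDX.DIM.pj p U)) :=
  spw hm h.wt h.sm h.bd (Fl.pj_sec p hU) fun y hy => (w.pj p y hy).congr fun j => by
    simp only [Bun.ip, fun x => (((aLAM n M S.H _ _ S.kae.toMet h.wt).2.2 (ww S a q m j)).2
      ((oQ S.H).ap y) (IDX.DIM.pj p U) x).1, mul_comm]

theorem st_WPT (hADM : St_ADM) : St_WPT := fun n M _ I _ S a q m hz hm =>
  ⟨fun U hU w r => by
    have e : prt M r U = IDX.DIM.pj (· = r) U := by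
      funext e z A
      by_cases c : A.card = r <;> simp only [prt, IDX.DIM.pj, c, if_true, if_false]
    rw [e]
    exact wp_up (by omega) (hADM n M I S a q m hz hm) hU w _, fun T T' => wp_congr⟩

end Pool.Agent.Lib.N4S
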