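import Pool.Agent.Lib.N4S.Defs
import Pool.Agent.Lib.K3S.All

/-! Project n4s: the potentials with zero Lelong numbers exist. -/

open scoped Classical Topology ContDiff
open Set Filter MeasureTheory

noncomputable section

namespace Pool.Agent.Lib.N4S.S33

open Pool.Agent.Lib.HS32 Pool.Agent.Lib.HS32.Mf

theorem zs_ex {n : ℕ} {M : Mf n} [M.Cpt] {I : Type} [Fintype I] (S : Sd M I) : ∃ a, Zs S a := by
  obtain ⟨D', d1, d2⟩ := K3S.aDT n M I S.toDk
  obtain ⟨a, a1, -, a3⟩ := ZE.ze2 n M I D'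
  rw [d1] at a3
  rw [d1, d2] at a1
  obtain ⟨B, B0, hB⟩ := S.su.exists_bound
  obtain ⟨-, fin, -, -, it, -⟩ := mMU n M _ S.kae.toMet
  have sm : ∀ ε ∈ Ioc (0 : ℝ) 1, M.Sm fun x => a ε x - (S.u x + B) := fun ε hε =>
    (a1 ε hε).sm.sub (S.su.add (sm_const B))
  have itg : ∀ p : ℝ, 0 < p → ∃ C : ℝ, ∀ ε ∈ Ioc (0 : ℝ) 1,
      ∫ x, Real.exp (-(p * (a ε x - (S.u x + B)))) ∂M.mu S.H ≤ C := fun p hp => by
    obtain ⟨C, hC⟩ := a3 p hp
    refine ⟨Real.exp (p * B) * C, fun ε hε => ?_⟩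
    refine le_trans ?_ (mul_le_mul_of_nonneg_left (hC ε hε) (Real.exp_pos _).le)
    rw [← integral_const_mul]
    have c1 := (a1 ε hε).sm.continuous
    have c2 := S.su.continuous
    refine integral_mono (it ℝ _ (by fun_prop)) (it ℝ _ (by fun_prop)) fun x => ?_
    simp only [← Real.exp_add]
    exact Real.exp_le_exp.2 (by nlinarith [S.u0 x])
  refine ⟨fun ε x => a ε x - (S.u x + B), ⟨sm, fun ε hε => (a1 ε hε).kae.congr fun e he z hz => ?_,
    fun ε hε x => ?_, fun p hp => ?_⟩, itg⟩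
  · have h1 := ((mLAP n M _ _ (a1 ε hε).sm (S.su.add (sm_const B))).1 0 e he z hz).2.2.1
    have h2 := (mLAP n M _ _ S.su (sm_const B)).1 B e he z hz
    simp only [bf, al, K3S.Dk.T, Pi.add_apply, Pi.sub_apply, Pi.neg_apply, h1, h2.2.1, h2.1]
    abel
  · linarith [(a1 ε hε).np x, (abs_le.1 (hB x)).1]
  · obtain ⟨C, hC⟩ := itg p hp
    exact ⟨1, C, one_pos, fun ε hε _ => hC ε hε⟩

end Pool.Agent.Lib.N4S.S33
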