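import Pool.Agent.Lib.N4S.Blue
import Pool.Agent.Lib.N4S.Zs33

/-! Project n4s, row ZW. -/

namespace Pool.Agent.Lib.N4S

theorem st_ZW : St_ZW := fun _ _ _ _ _ S => S33.zs_ex S

end Pool.Agent.Lib.N4S
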