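import Mathlib

/-! Project n4s: convex functions of one variable that vanish near minus infinity. -/

open scoped Topology ContDiff
open Set Filter MeasureTheory

namespace Pool.Agent.Lib.N4S.A23

theorem prim {b : ℝ → ℝ} (hb : ContDiff ℝ ∞ b) :
    ContDiff ℝ ∞ (fun t => ∫ s in (-1 : ℝ)..t, b s) ∧ deriv (fun t => ∫ s in (-1 : ℝ)..t, b s) = b := by
  have d : ∀ t, HasDerivAt (fun t => ∫ s in (-1 : ℝ)..t, b s) (b t) t := fun t =>
    (hb.continuous.integral_hasStrictDerivAt (-1) t).hasDerivAt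
  have e : deriv (fun t => ∫ s in (-1 : ℝ)..t, b s) = b := funext fun t => (d t).deriv
  exact ⟨contDiff_infty_iff_deriv.2 ⟨fun t => (d t).differentiableAt, by rwa [e]⟩, e⟩

theorem prim_zero {b : ℝ → ℝ} (h : ∀ t ≤ (-1 : ℝ), b t = 0) :
    ∀ t ≤ (-1 : ℝ), ∫ s in (-1 : ℝ)..t, b s = 0 := fun t ht => by
  rw [intervalIntegral.integral_congr (g := fun _ => 0) fun s hs => h s ?_]
  · simp
  · rw [uIcc_of_ge ht] at hs
    exact hs.2

/-- A convex function that vanishes near minus infinity. -/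
theorem chi0 : ∃ χ : ℝ → ℝ, ContDiff ℝ ∞ χ ∧ (∀ t ≤ (-1 : ℝ), χ t = 0) ∧
    (∀ t, 0 ≤ deriv χ t ∧ deriv χ t ≤ 1) ∧
    (∀ t, 0 ≤ deriv (deriv χ) t ∧ deriv (deriv χ) t ≤ 1) ∧
    (∀ t ≥ (1 / 4 : ℝ), 1 / 2 ≤ deriv χ t) ∧ (∀ t, |t| ≤ 1 / 4 → deriv (deriv χ) t = 1) ∧
    ∀ t, 1 / 2 ≤ |t| → deriv (deriv χ) t = 0 := by
  let b : ContDiffBump (0 : ℝ) := ⟨1 / 4, 1 / 2, by norm_num, by norm_num⟩
  have cb : ContDiff ℝ ∞ b := b.contDiff
  have z : ∀ t, 1 / 2 ≤ |t| → b t = 0 := fun t ht =>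
    b.zero_of_le_dist (by rw [Real.dist_eq, sub_zero]; exact ht)
  have o : ∀ t, |t| ≤ 1 / 4 → b t = 1 := fun t ht =>
    b.one_of_mem_closedBall (by rw [mem_closedBall_zero_iff]; exact ht)
  obtain ⟨c1, e1⟩ := prim cb
  obtain ⟨c2, e2⟩ := prim c1
  have z1 := prim_zero (b := b) fun t ht => z t (le_abs.2 (Or.inr (by linarith)))
  have mo : Monotone fun t => ∫ s in (-1 : ℝ)..t, b s :=
    monotone_of_deriv_nonneg (c1.differentiable (by simp)) fun t => by rw [e1]; exact b.nonneg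
  have ii : ∀ u v : ℝ, IntervalIntegrable b volume u v := fun u v =>
    cb.continuous.intervalIntegrable u v
  have up : ∀ t, ∫ s in (-1 : ℝ)..t, b s ≤ 1 := fun t => by
    have h1 : ∫ s in (-1 : ℝ)..(-1 / 2), b s = 0 := by
      rw [intervalIntegral.integral_congr (g := fun _ => 0) fun s hs => z s ?_]
      · simp
      · rw [uIcc_of_le (by norm_num)] at hs
        exact le_abs.2 (Or.inr (by linarith [hs.2]))
    have h2 : ∫ s in (1 / 2 : ℝ)..(max t (1 / 2)), b s = 0 := by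
      rw [intervalIntegral.integral_congr (g := fun _ => 0) fun s hs => z s ?_]
      · simp
      · rw [uIcc_of_le (le_max_right _ _)] at hs
        exact le_abs.2 (Or.inl hs.1)
    have h3 : ∫ s in (-1 / 2 : ℝ)..(1 / 2), b s ≤ ∫ s in (-1 / 2 : ℝ)..(1 / 2), (1 : ℝ) :=
      intervalIntegral.integral_mono_on (by norm_num) (ii _ _) (by simp) fun s _ => b.le_one
    have h4 := intervalIntegral.integral_add_adjacent_intervals (ii (-1) (-1 / 2))
      (ii (-1 / 2) (1 / 2))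
    have h5 := intervalIntegral.integral_add_adjacent_intervals (ii (-1) (1 / 2))
      (ii (1 / 2) (max t (1 / 2)))
    have h6 := mo (le_max_left t (1 / 2))
    simp only [intervalIntegral.integral_const, smul_eq_mul] at h3
    simp only at h6
    linarith
  refine ⟨_, c2, prim_zero z1, fun t => ?_, fun t => ?_, fun t ht => ?_, fun t ht => ?_,
    fun t ht => ?_⟩
  · rw [e2]
    refine ⟨?_, up t⟩
    have := mo (min_le_left t (-1))
    simp only [z1 _ (min_le_right t (-1))] at this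
    exact this
  · rw [e2, e1]
    exact ⟨b.nonneg, b.le_one⟩
  · rw [e2]
    have h1 : ∫ s in (-1 / 4 : ℝ)..(1 / 4), b s = 1 / 2 := by
      rw [intervalIntegral.integral_congr (g := fun _ => 1) fun s hs => o s ?_]
      · simp only [intervalIntegral.integral_const, smul_eq_mul]
        norm_num
      · rw [uIcc_of_le (by norm_num)] at hs
        exact abs_le.2 ⟨by linarith [hs.1], hs.2⟩
    have h2 := intervalIntegral.integral_add_adjacent_intervals (ii (-1) (-1 / 4))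
      (ii (-1 / 4) (1 / 4))
    have h3 := mo (show (-1 : ℝ) ≤ -1 / 4 by norm_num)
    have h4 := mo ht
    simp only [intervalIntegral.integral_same] at h3
    simp only at h4
    linarith
  · rw [e2, e1, o t ht]
  · rw [e2, e1, z t ht]

/-- The translated functions. -/
theorem chi (R : ℝ) : ∃ χ : ℝ → ℝ, ContDiff ℝ ∞ χ ∧ (∀ t ≤ -(R + 1), χ t = 0) ∧
    (∀ t, 0 ≤ deriv χ t ∧ deriv χ t ≤ 1) ∧
    (∀ t, 0 ≤ deriv (deriv χ) t ∧ deriv (deriv χ) t ≤ 1) ∧
    (∀ t ≥ -R + 1 / 4, 1 / 2 ≤ deriv χ t) ∧ (∀ t, |t + R| ≤ 1 / 4 → deriv (deriv χ) t = 1) ∧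
    ∀ t, 1 / 2 ≤ |t + R| → deriv (deriv χ) t = 0 := by
  obtain ⟨χ, c, h0, h1, h2, h3, h4, h5⟩ := chi0
  have e1 : deriv (fun t => χ (t + R)) = fun t => deriv χ (t + R) :=
    funext fun t => deriv_comp_add_const χ R t
  have e2 : deriv (deriv fun t => χ (t + R)) = fun t => deriv (deriv χ) (t + R) := by
    rw [e1]
    exact funext fun t => deriv_comp_add_const (deriv χ) R t
  refine ⟨fun t => χ (t + R), c.comp (contDiff_id.add contDiff_const),
    fun t ht => h0 _ (by linarith), ?_⟩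
  rw [e2, e1]
  exact ⟨fun t => h1 _, fun t => h2 _, fun t ht => h3 _ (by linarith), fun t => h4 _,
    fun t => h5 _⟩

end Pool.Agent.Lib.N4S.A23
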