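import Pool.Agent.Lib.NU4.Defs
import Pool.Agent.Lib.F4.K13a
import Pool.Agent.Lib.HS32.MAll

/-! Project n4s: a weighted inequality of Hardy in coordinates. -/

open scoped Classical Topology ContDiff ComplexOrder Matrix
open Set Filter MeasureTheory Complex Metric

set_option linter.unusedVariables false

noncomputable section

namespace Pool.Agent.Lib.N4S.Har13

open Pool.Agent.Lib.SV (E)
open Pool.Agent.Lib.HS32 Pool.Agent.Lib.NU4

variable {n : ℕ} {ξ : E n → E n} {z : E n} {f g : E n → ℂ} {K : Set (E n)}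

/-- The derivative along the conjugate of a field. -/
def dib (V : E n → E n) (f : E n → ℂ) (z : E n) : ℂ := ∑ k, star (V z k) * dzb k f z

theorem dir_mul (hf : DifferentiableAt ℝ f z) (hg : DifferentiableAt ℝ g z) :
    dir ξ (fun w => f w * g w) z = dir ξ f z * g z + f z * dir ξ g z := by
  simp only [dir, dz_mul hf hg, Finset.sum_mul, Finset.mul_sum, ← Finset.sum_add_distrib]
  exact Finset.sum_congr rfl fun k _ => by ring

theorem dib_mul (hf : DifferentiableAt ℝ f z) (hg : DifferentiableAt ℝ g z) :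
    dib ξ (fun w => f w * g w) z = dib ξ f z * g z + f z * dib ξ g z := by
  simp only [dib, dzb_mul hf hg, Finset.sum_mul, Finset.mul_sum, ← Finset.sum_add_distrib]
  exact Finset.sum_congr rfl fun k _ => by ring

theorem dir_add (hf : DifferentiableAt ℝ f z) (hg : DifferentiableAt ℝ g z) :
    dir ξ (fun w => f w + g w) z = dir ξ f z + dir ξ g z := by
  simp only [dir, dz_add hf hg, mul_add, Finset.sum_add_distrib]

theorem dib_add (hf : DifferentiableAt ℝ f z) (hg : DifferentiableAt ℝ g z) :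
    dib ξ (fun w => f w + g w) z = dib ξ f z + dib ξ g z := by
  simp only [dib, dzb_add hf hg, mul_add, Finset.sum_add_distrib]

theorem dir_star (hf : DifferentiableAt ℝ f z) :
    dir ξ (fun w => star (f w)) z = star (dib ξ f z) := by
  simp only [dir, dib, dz_star hf, star_sum, star_mul', star_star]

theorem dib_star (hf : DifferentiableAt ℝ f z) :
    dib ξ (fun w => star (f w)) z = star (dir ξ f z) := by
  simp only [dir, dib, dzb_star hf, star_sum, star_mul']

theorem dib_congr (h : f =ᶠ[𝓝 z] g) : dib ξ f z = dib ξ g z := by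
  simp only [dib, dzb_congr h]

theorem dir_congr (h : f =ᶠ[𝓝 z] g) : dir ξ f z = dir ξ g z := by
  simp only [dir, dz_congr h]

theorem hcd (h : HolN f z) : ContDiffAt ℝ ∞ f z := ((mHOL n f z).2.2 h).1

theorem hzb (h : HolN f z) (j : Fin n) : dzb j f z = 0 :=
  ((mHOL n f z).1 (cd_diff (hcd h))).1 h.self_of_nhds j

theorem dib_hol (h : HolN f z) : dib ξ f z = 0 := by simp [dib, hzb h]

theorem cd_dir (hξ : HolV ξ z) (hf : ContDiffAt ℝ ∞ f z) : ContDiffAt ℝ ∞ (dir ξ f) z :=
  ContDiffAt.sum fun k _ => (hcd (hξ k)).mul (cd_dz hf k)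

theorem cd_dib (hξ : HolV ξ z) (hf : ContDiffAt ℝ ∞ f z) : ContDiffAt ℝ ∞ (dib ξ f) z :=
  ContDiffAt.sum fun k _ => (cd_star (hcd (hξ k))).mul (cd_dzb hf k)

theorem cd_dv (hξ : HolV ξ z) : ContDiffAt ℝ ∞ (dv ξ) z :=
  ContDiffAt.sum fun k _ => cd_dz (hcd (hξ k)) k

theorem comm (hξ : HolV ξ z) (hf : ContDiffAt ℝ ∞ f z) :
    dir ξ (dib ξ f) z = dib ξ (dir ξ f) z := by
  have d := fun k => cd_diff (hcd (hξ k))
  have e1 : ∀ j, dz j (dib ξ f) z = ∑ k, star (ξ z k) * dz j (dzb k f) z := fun j => by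
    rw [show dib ξ f = fun w => ∑ k, star (ξ w k) * dzb k f w from rfl,
      dz_sum fun k _ => (diff_star (d k)).fun_mul (cd_diff (cd_dzb hf k))]
    refine Finset.sum_congr rfl fun k _ => ?_
    rw [dz_mul (diff_star (d k)) (cd_diff (cd_dzb hf k)), dz_star (d k), hzb (hξ k)]
    simp
  have e2 : ∀ j, dzb j (dir ξ f) z = ∑ k, ξ z k * dzb j (dz k f) z := fun j => by
    rw [show dir ξ f = fun w => ∑ k, ξ w k * dz k f w from rfl,
      dzb_sum fun k _ => (d k).fun_mul (cd_diff (cd_dz hf k))]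
    refine Finset.sum_congr rfl fun k _ => ?_
    rw [dzb_mul (d k) (cd_diff (cd_dz hf k)), hzb (hξ k)]
    simp
  rw [dir, dib]
  simp only [e1, e2, Finset.mul_sum]
  rw [Finset.sum_comm]
  refine Finset.sum_congr rfl fun k _ => Finset.sum_congr rfl fun j _ => ?_
  rw [dz_dzb hf]
  ring

theorem ev0 {F : Type} [Zero F] {G : E n → F} (hK : IsCompact K) (h0 : ∀ z ∉ K, G z = 0)
    (hz : z ∉ K) : G =ᶠ[𝓝 z] fun _ => 0 := by
  filter_upwards [hK.isClosed.isOpen_compl.mem_nhds hz] with w hw using h0 w hw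

theorem glob (hK : IsCompact K) (h : ∀ z ∈ K, ContDiffAt ℝ ∞ g z) (h0 : ∀ z ∉ K, g z = 0) :
    ContDiff ℝ 1 g ∧ HasCompactSupport g := by
  refine ⟨contDiff_iff_contDiffAt.2 fun z => ?_, HasCompactSupport.intro hK h0⟩
  by_cases hz : z ∈ K
  · exact cd_le (h z hz) 1
  · exact contDiffAt_const.congr_of_eventuallyEq (ev0 hK h0 hz)

theorem intg {G : E n → ℝ} (hK : IsCompact K) (h : ∀ z ∈ K, ContinuousAt G z)
    (h0 : ∀ z ∉ K, G z = 0) : Integrable G := by
  refine Continuous.integrable_of_hasCompactSupport (continuous_iff_continuousAt.2 fun z => ?_)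
    (HasCompactSupport.intro hK h0)
  by_cases hz : z ∈ K
  · exact h z hz
  · exact continuousAt_const.congr (ev0 hK h0 hz).symm

theorem int_dib (hK : IsCompact K) (hξ : ∀ z ∈ K, HolV ξ z) (h : ∀ z ∈ K, ContDiffAt ℝ ∞ g z)
    (h0 : ∀ z ∉ K, g z = 0) : Integrable (fun z => dib ξ g z + star (dv ξ z) * g z) ∧
      ∫ z, (dib ξ g z + star (dv ξ z) * g z) = 0 := by
  have G := fun k => glob (g := fun w => star (ξ w k) * g w) hK
    (fun z hz => (cd_star (hcd (hξ z hz k))).mul (h z hz)) fun z hz => by simp [h0 z hz]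
  have e : (fun z => dib ξ g z + star (dv ξ z) * g z) =
      fun z => ∑ k, dzb k (fun w => star (ξ w k) * g w) z := by
    funext z
    by_cases hz : z ∈ K
    · simp only [dib, dv, star_sum, Finset.sum_mul, ← Finset.sum_add_distrib]
      refine Finset.sum_congr rfl fun k _ => ?_
      have d := cd_diff (hcd (hξ z hz k))
      rw [dzb_mul (diff_star d) (cd_diff (h z hz)), dzb_star d]
      ring
    · have e0 := ev0 hK h0 hz
      have e1 : ∀ k, dzb k (fun w => star (ξ w k) * g w) z = 0 := fun k => by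
        rw [dzb_congr (g := fun _ => 0) (e0.mono fun w hw => by simp [hw]), dzb_const]
      simp only [e1]
      simp [dib, dzb_congr e0, h0 z hz]
  have I := fun k => (F4.K13.ct_dzb (G k).1 k).integrable_of_hasCompactSupport (μ := volume)
    (F4.K13.hc_dzb (G k).2 k)
  rw [e]
  refine ⟨integrable_finsetSum _ fun k _ => I k, ?_⟩
  rw [integral_finsetSum _ fun k _ => I k]
  exact Finset.sum_eq_zero fun k _ => F4.K13.int0 (G k).1 (G k).2 k

theorem int_dir (hK : IsCompact K) (hξ : ∀ z ∈ K, HolV ξ z) (h : ∀ z ∈ K, ContDiffAt ℝ ∞ g z)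
    (h0 : ∀ z ∉ K, g z = 0) : Integrable (fun z => (dir ξ g z + dv ξ z * g z).re) ∧
      ∫ z, (dir ξ g z + dv ξ z * g z).re = 0 := by
  obtain ⟨h1, h2⟩ := int_dib (g := fun w => star (g w)) hK hξ (fun z hz => cd_star (h z hz))
    fun z hz => by simp [h0 z hz]
  have e : (fun z => (dir ξ g z + dv ξ z * g z).re) =
      fun z => (dib ξ (fun w => star (g w)) z + star (dv ξ z) * star (g z)).re := by
    funext z
    have d : DifferentiableAt ℝ g z := (glob hK h h0).1.differentiable one_ne_zero z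
    rw [dib_star d, ← star_mul', ← star_add]
    simp
  rw [e]
  refine ⟨h1.re, ?_⟩
  have := integral_re h1
  simp only [RCLike.re_to_complex] at this
  rw [this, h2]
  rfl

/-- The identity of Bochner, Kodaira and Morrey along one field. -/
theorem core (hK : IsCompact K) (hξ : ∀ z ∈ K, HolV ξ z) {η : E n → ℝ} {a u : E n → ℂ} {B : ℝ}
    (hη : ∀ z ∈ K, ContDiffAt ℝ ∞ η z ∧ 0 ≤ η z) (ha : ∀ z ∈ K, ContDiffAt ℝ ∞ a z)
    (hX : ∀ z ∈ K, dir ξ (fun w => (η w : ℂ)) z = η z * a z) (hu : ∀ z ∈ K, ContDiffAt ℝ ∞ u z)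
    (h0 : ∀ z ∉ K, u z = 0) (hB : ∀ z ∈ K, ‖dv ξ z‖ ≤ B) :
    ∫ z, η z * (dib ξ a z).re * ‖u z‖ ^ 2 ≤
      ∫ z, η z * (2 * ‖dib ξ u z‖ ^ 2 + B ^ 2 / 2 * ‖u z‖ ^ 2) := by
  have c1 : ∀ z ∈ K, ContDiffAt ℝ ∞ (fun w => (η w : ℂ) * star (u w)) z := fun z hz =>
    (cd_ofReal (hη z hz).1).mul (cd_star (hu z hz))
  have c2 : ∀ z ∈ K, ContDiffAt ℝ ∞ (fun w => dir ξ u w + a w * u w) z := fun z hz =>
    (cd_dir (hξ z hz) (hu z hz)).add ((ha z hz).mul (hu z hz))
  obtain ⟨i1, j1⟩ := int_dir (g := fun w => (η w : ℂ) * star (u w) * dib ξ u w) hK hξ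
    (fun z hz => (c1 z hz).mul (cd_dib (hξ z hz) (hu z hz))) fun z hz => by simp [h0 z hz]
  obtain ⟨i2, j2⟩ := int_dib (g := fun w => (η w : ℂ) * star (u w) * (dir ξ u w + a w * u w)) hK hξ
    (fun z hz => (c1 z hz).mul (c2 z hz)) fun z hz => by simp [h0 z hz]
  have j3 := integral_re i2
  rw [j2] at j3
  have i3 := i2.re
  simp only [RCLike.re_to_complex, zero_re] at j3 i3
  have q0 : ∀ z ∉ K, dib ξ u z = 0 := fun z hz => by
    rw [dib_congr (ev0 hK h0 hz)]
    simp [dib]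
  have k1 : Integrable fun z => η z * (dib ξ a z).re * ‖u z‖ ^ 2 :=
    intg hK (fun z hz => ((hη z hz).1.continuousAt.mul
      (cd_re (cd_dib (hξ z hz) (ha z hz))).continuousAt).mul ((hu z hz).continuousAt.norm.pow 2))
      fun z hz => by simp [h0 z hz]
  have k2 : Integrable fun z => η z * (2 * ‖dib ξ u z‖ ^ 2 + B ^ 2 / 2 * ‖u z‖ ^ 2) :=
    intg hK (fun z hz => (hη z hz).1.continuousAt.mul
      ((continuousAt_const.mul ((cd_dib (hξ z hz) (hu z hz)).continuousAt.norm.pow 2)).add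
        (continuousAt_const.mul ((hu z hz).continuousAt.norm.pow 2))))
      fun z hz => by simp [h0 z hz, q0 z hz]
  have := integral_mono k1 ((k2.sub i1).add i3) fun z => ?_
  · rw [integral_add' (k2.sub i1) i3, integral_sub' k2 i1, j1, j3] at this
    simpa using this
  simp only [Pi.add_apply, Pi.sub_apply]
  by_cases hz : z ∈ K
  · have du := cd_diff (hu z hz)
    have de := cd_diff (cd_ofReal (hη z hz).1)
    have hY : dib ξ (fun w => (η w : ℂ)) z = η z * star (a z) := by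
      have := dib_star (ξ := ξ) de
      simp only [hX z hz] at this
      simpa using this
    rw [dir_mul (cd_diff (c1 z hz)) (cd_diff (cd_dib (hξ z hz) (hu z hz))),
      dir_mul de (diff_star du), dir_star du, hX z hz, comm (hξ z hz) (hu z hz),
      dib_mul (cd_diff (c1 z hz)) (cd_diff (c2 z hz)), dib_mul de (diff_star du), dib_star du, hY,
      dib_add (cd_diff (cd_dir (hξ z hz) (hu z hz))) ((cd_diff (ha z hz)).fun_mul du),
      dib_mul (cd_diff (ha z hz)) du]
    have hb := hB z hz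
    have he := (hη z hz).2
    generalize dib ξ u z = q at *
    generalize dib ξ (dir ξ u) z = s at *
    generalize dib ξ a z = y at *
    generalize dir ξ u z = p at *
    generalize dv ξ z = δ at *
    generalize u z = w at *
    generalize a z = c at *
    generalize η z = e at *
    have b1 : (δ * star w * q).re ≤ ‖q‖ ^ 2 + B ^ 2 / 4 * ‖w‖ ^ 2 := by
      refine (re_le_norm _).trans ?_
      rw [norm_mul, norm_mul, norm_star]
      have := mul_le_mul_of_nonneg_right hb (mul_nonneg (norm_nonneg w) (norm_nonneg q))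
      nlinarith [sq_nonneg (‖q‖ - B / 2 * ‖w‖)]
    have b2 : -(star δ * star w * (p + c * w)).re ≤ ‖p + c * w‖ ^ 2 + B ^ 2 / 4 * ‖w‖ ^ 2 := by
      refine ((neg_le_abs _).trans (abs_re_le_norm _)).trans ?_
      rw [norm_mul, norm_mul, norm_star, norm_star]
      have := mul_le_mul_of_nonneg_right hb (mul_nonneg (norm_nonneg w) (norm_nonneg (p + c * w)))
      nlinarith [sq_nonneg (‖p + c * w‖ - B / 2 * ‖w‖)]
    have b3 := mul_le_mul_of_nonneg_left (add_le_add b1 b2) he
    simp only [← normSq_eq_norm_sq, normSq_apply, star_def, add_re, mul_re, mul_im, add_im,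
      conj_re, conj_im, ofReal_re, ofReal_im] at b3 ⊢
    nlinarith [b3]
  · have e1 : ∀ G : E n → ℂ, (fun w => (η w : ℂ) * star (u w) * G w) =ᶠ[𝓝 z] fun _ => 0 :=
      fun G => (ev0 hK h0 hz).mono fun w hw => by simp [hw]
    rw [dib_congr (e1 _), dir_congr (e1 _), q0 z hz]
    simp [h0 z hz, dir, dib]

theorem ns_eq (f : E n → ℂ) (d : ℝ) :
    (fun w => ((normSq (f w) + d : ℝ) : ℂ)) = fun w => f w * star (f w) + d := by
  funext w
  simp [mul_conj]

theorem cd_ns (h : HolN f z) (d : ℝ) : ContDiffAt ℝ ∞ (fun w => normSq (f w) + d) z := by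
  have := cd_re (((hcd h).mul (cd_star (hcd h))).add (contDiffAt_const (c := (d : ℂ))))
  refine this.congr_of_eventuallyEq (Eventually.of_forall fun w => ?_)
  simp [mul_conj]

theorem ns_pos (f : E n → ℂ) {d : ℝ} (hd : 0 < d) (z : E n) : 0 < normSq (f z) + d :=
  add_pos_of_nonneg_of_pos (normSq_nonneg _) hd

theorem cd_pw (h : HolN f z) {d : ℝ} (hd : 0 < d) (s : ℝ) :
    ContDiffAt ℝ ∞ (fun w => (normSq (f w) + d) ^ s) z :=
  (cd_ns h d).rpow_const_of_ne (ns_pos f hd z).ne'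

theorem dir_real {u : E n → ℝ} {φ : ℝ → ℝ} {c : ℝ} (hφ : HasDerivAt φ c (u z))
    (hu : DifferentiableAt ℝ u z) :
    dir ξ (fun w => (φ (u w) : ℂ)) z = c * dir ξ (fun w => (u w : ℂ)) z := by
  simp only [dir, dz_comp_real hφ hu, Finset.mul_sum]
  exact Finset.sum_congr rfl fun k _ => by ring

theorem dir_ns (h : HolN f z) (d : ℝ) :
    dir ξ (fun w => ((normSq (f w) + d : ℝ) : ℂ)) z = dir ξ f z * star (f z) := by
  have d1 := cd_diff (hcd h)
  rw [ns_eq, dir_add (d1.fun_mul (diff_star d1)) (differentiableAt_const _),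
    dir_mul d1 (diff_star d1), dir_star d1, dib_hol h]
  simp [dir]

theorem dir_pw (h : HolN f z) {d : ℝ} (hd : 0 < d) (s : ℝ) :
    dir ξ (fun w => (((normSq (f w) + d) ^ s : ℝ) : ℂ)) z =
      ((s * (normSq (f z) + d) ^ (s - 1) : ℝ) : ℂ) * (dir ξ f z * star (f z)) := by
  rw [dir_real (φ := fun x => x ^ s) (u := fun w => normSq (f w) + d)
    (Real.hasDerivAt_rpow_const (Or.inl (ns_pos f hd z).ne'))
    ((cd_ns h d).differentiableAt (by simp)), dir_ns h]

theorem dib_pw (h : HolN f z) {d : ℝ} (hd : 0 < d) (s : ℝ) :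
    dib ξ (fun w => (((normSq (f w) + d) ^ s : ℝ) : ℂ)) z =
      ((s * (normSq (f z) + d) ^ (s - 1) : ℝ) : ℂ) * (star (dir ξ f z) * f z) := by
  have := dib_star (ξ := ξ) (cd_diff (cd_ofReal (cd_pw h hd s)))
  rw [dir_pw h hd] at this
  simpa only [star_def, conj_ofReal, map_mul, conj_conj] using this

/-- The inequality of Hardy along one field. -/
theorem hardy (hK : IsCompact K) (hξ : ∀ z ∈ K, HolV ξ z) {om : E n → ℝ} {u : E n → ℂ}
    {B R t d : ℝ} (hf : ∀ z ∈ K, HolN f z ∧ (∀ᶠ w in 𝓝 z, dir ξ f w = 1) ∧ normSq (f z) ≤ R)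
    (ho : ∀ z ∈ K, ContDiffAt ℝ ∞ om z ∧ 0 ≤ om z ∧ dir ξ (fun w => (om w : ℂ)) z = 0)
    (hu : ∀ z ∈ K, ContDiffAt ℝ ∞ u z) (h0 : ∀ z ∉ K, u z = 0) (hB : ∀ z ∈ K, ‖dv ξ z‖ ≤ B)
    (t0 : 0 ≤ t) (t1 : t < 1) (hd : d ∈ Ioc (0 : ℝ) 1) :
    (1 - t) ^ 2 * ∫ z, ‖u z‖ ^ 2 * (normSq (f z) + d) ^ (-t) * om z ≤
      Real.exp (R + 2) * ∫ z, (2 * ‖dib ξ u z‖ ^ 2 + B ^ 2 / 2 * ‖u z‖ ^ 2) * om z := by
  have c1 : ∀ z ∈ K, ContDiffAt ℝ ∞ (fun w => Real.exp ((normSq (f w) + d) ^ (1 - t))) z :=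
    fun z hz => (cd_pw (hf z hz).1 hd.1 _).exp
  have ca : ∀ z ∈ K, ContDiffAt ℝ ∞ (fun w => ((1 - t : ℝ) : ℂ) *
      ((((normSq (f w) + d) ^ (-t) : ℝ) : ℂ) * star (f w))) z := fun z hz =>
    contDiffAt_const.mul ((cd_ofReal (cd_pw (hf z hz).1 hd.1 _)).mul (cd_star (hcd (hf z hz).1)))
  have q0 : ∀ z ∉ K, dib ξ u z = 0 := fun z hz => by
    rw [dib_congr (ev0 hK h0 hz)]
    simp [dib]
  have cq := fun z hz => ((cd_dib (hξ z hz) (hu z hz)).continuousAt.norm.pow 2)
  have cu := fun z hz => ((hu z hz).continuousAt.norm.pow 2)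
  have H := core (η := fun w => om w * Real.exp ((normSq (f w) + d) ^ (1 - t))) hK hξ
    (fun z hz => ⟨(ho z hz).1.mul (c1 z hz), mul_nonneg (ho z hz).2.1 (Real.exp_pos _).le⟩) ca
    (fun z hz => ?_) hu h0 hB
  · rw [← integral_const_mul, ← integral_const_mul]
    refine le_trans (integral_mono ?_ ?_ fun z => ?_) (H.trans (integral_mono ?_ ?_ fun z => ?_))
    · exact intg hK (fun z hz => continuousAt_const.mul (((cu z hz).mul
        (cd_pw (hf z hz).1 hd.1 _).continuousAt).mul (ho z hz).1.continuousAt))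
        fun z hz => by simp [h0 z hz]
    · exact intg hK (fun z hz => ((((ho z hz).1.mul (c1 z hz)).continuousAt).mul
        (cd_re (cd_dib (hξ z hz) (ca z hz))).continuousAt).mul (cu z hz))
        fun z hz => by simp [h0 z hz]
    · by_cases hz : z ∈ K
      · have h1 := (hf z hz).1
        have d1 := cd_diff (hcd h1)
        have d2 := cd_diff (cd_ofReal (cd_pw h1 hd.1 (-t)))
        have p := ns_pos f hd.1 z
        have e : (dib ξ (fun w => ((1 - t : ℝ) : ℂ) *
            ((((normSq (f w) + d) ^ (-t) : ℝ) : ℂ) * star (f w))) z).re =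
            (1 - t) * ((normSq (f z) + d) ^ (-t) -
              t * (normSq (f z) + d) ^ (-t - 1) * normSq (f z)) := by
          rw [dib_mul (differentiableAt_const _) (d2.fun_mul (diff_star d1)),
            dib_mul d2 (diff_star d1), dib_star d1, dib_pw h1 hd.1, (hf z hz).2.1.self_of_nhds,
            show dib ξ (fun _ => ((1 - t : ℝ) : ℂ)) z = 0 by simp [dib], star_one, one_mul,
            mul_assoc _ (f z), star_def, mul_conj, zero_mul, zero_add, mul_one, ← ofReal_mul,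
            ← ofReal_add, ← ofReal_mul, ofReal_re]
          ring
        have e2 : (normSq (f z) + d) ^ (-t - 1) * normSq (f z) ≤ (normSq (f z) + d) ^ (-t) := by
          rw [Real.rpow_sub_one p.ne', div_mul_eq_mul_div, div_le_iff₀ p]
          exact mul_le_mul_of_nonneg_left (by linarith [hd.1]) (Real.rpow_nonneg p.le _)
        have e3 := Real.one_le_exp (Real.rpow_nonneg p.le (1 - t))
        have e4 := Real.rpow_nonneg p.le (-t)
        simp only [e]
        generalize (normSq (f z) + d) ^ (-t) = A at *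
        generalize (normSq (f z) + d) ^ (-t - 1) = A' at *
        generalize Real.exp ((normSq (f z) + d) ^ (1 - t)) = X at *
        have e5 : (1 - t) * A ≤ A - t * A' * normSq (f z) := by nlinarith
        have e6 : (1 - t) ^ 2 * A ≤ X * ((1 - t) * (A - t * A' * normSq (f z))) := by
          have : 0 ≤ (1 - t) * A := mul_nonneg (by linarith) e4
          have e7 := mul_le_mul_of_nonneg_left e5 (show 0 ≤ 1 - t by linarith)
          nlinarith [mul_nonneg (show 0 ≤ 1 - t by linarith) this]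
        nlinarith [mul_le_mul_of_nonneg_left e6 (mul_nonneg (ho z hz).2.1 (sq_nonneg ‖u z‖))]
      · simp [h0 z hz]
    · exact intg hK (fun z hz => ((ho z hz).1.mul (c1 z hz)).continuousAt.mul
        ((continuousAt_const.mul (cq z hz)).add (continuousAt_const.mul (cu z hz))))
        fun z hz => by simp [h0 z hz, q0 z hz]
    · exact intg hK (fun z hz => continuousAt_const.mul (((continuousAt_const.mul (cq z hz)).add
        (continuousAt_const.mul (cu z hz))).mul (ho z hz).1.continuousAt))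
        fun z hz => by simp [h0 z hz, q0 z hz]
    · by_cases hz : z ∈ K
      · have p := ns_pos f hd.1 z
        have e : (normSq (f z) + d) ^ (1 - t) ≤ R + 2 := by
          have r := (hf z hz).2.2
          have r0 := normSq_nonneg (f z)
          calc _ ≤ (R + 2) ^ (1 - t) := Real.rpow_le_rpow p.le (by linarith [hd.2]) (by linarith)
            _ ≤ (R + 2) ^ (1 : ℝ) := Real.rpow_le_rpow_of_exponent_le (by linarith) (by linarith)
            _ = _ := Real.rpow_one _
        have := mul_le_mul_of_nonneg_right (Real.exp_le_exp.2 e) (mul_nonneg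
          (show 0 ≤ 2 * ‖dib ξ u z‖ ^ 2 + B ^ 2 / 2 * ‖u z‖ ^ 2 by positivity) (ho z hz).2.1)
        simp only
        linarith
      · simp [h0 z hz, q0 z hz]
  · have h1 := (hf z hz).1
    simp only [ofReal_mul]
    rw [dir_mul (cd_diff (cd_ofReal (ho z hz).1)) (cd_diff (cd_ofReal (c1 z hz))), (ho z hz).2.2,
      dir_real (u := fun w => (normSq (f w) + d) ^ (1 - t)) (Real.hasDerivAt_exp _)
        ((cd_pw h1 hd.1 _).differentiableAt (by simp)), dir_pw h1 hd.1,
      (hf z hz).2.1.self_of_nhds, show 1 - t - 1 = -t by ring, ofReal_mul]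
    ring

theorem hdet {J : Type} [Fintype J] [DecidableEq J] {T : E n → Matrix J J ℂ}
    (h : ∀ i j, DifferentiableAt ℂ (fun w => T w i j) z) :
    DifferentiableAt ℂ (fun w => (T w).det) z := by
  simp only [Matrix.det_apply']
  exact DifferentiableAt.fun_sum fun σ _ =>
    (HasFDerivAt.finsetProd fun a _ => (h (σ a) a).hasFDerivAt).differentiableAt.const_mul _

/-- Dual fields near a point where the differentials are independent. -/
theorem dual {J : Type} [Fintype J] {f : J → E n → ℂ} {x : E n} (hf : ∀ j, HolN (f j) x)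
    {v : J → E n} (hv : ∀ j k, dir (fun _ => v k) (f j) x = if j = k then 1 else 0) :
    ∃ ξ : J → E n → E n, ∀ᶠ z in 𝓝 x, ∀ k, (∀ l, DifferentiableAt ℂ (fun w => ξ k w l) z) ∧
      ∀ j, dir (ξ k) (f j) z = if j = k then 1 else 0 := by
  let A : E n → Matrix J J ℂ := fun z => Matrix.of fun j k => dir (fun _ => v k) (f j) z
  have hA : ∀ᶠ z in 𝓝 x, ∀ j k, DifferentiableAt ℂ (fun w => A w j k) z := by
    have : ∀ᶠ z in 𝓝 x, ∀ j l, DifferentiableAt ℂ (dz l (f j)) z :=
      eventually_all.2 fun j => eventually_all.2 fun l => ((mHOL n _ x).2.2 (hf j)).2.1 l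
    filter_upwards [this] with z hz j k
    simp only [A, Matrix.of_apply, dir]
    exact DifferentiableAt.fun_sum fun l _ => (hz j l).const_mul _
  have h1 : (A x).det ≠ 0 := by
    rw [show A x = 1 from Matrix.ext fun j k => by rw [Matrix.one_apply]; exact hv j k]
    simp
  refine ⟨fun k z l => ∑ i, (A z)⁻¹ i k * v i l, ?_⟩
  filter_upwards [hA, (hdet hA.self_of_nhds).continuousAt.eventually_ne h1] with z hz h0 k
  refine ⟨fun l => DifferentiableAt.fun_sum fun i _ => DifferentiableAt.mul_const ?_ _, fun j => ?_⟩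
  · simp only [Matrix.inv_def, Ring.inverse_eq_inv', Matrix.smul_apply, smul_eq_mul,
      Matrix.adjugate_apply]
    refine ((hdet hz).inv h0).mul (hdet (T := fun w => (A w).updateRow k (Pi.single i 1))
      fun a b => ?_)
    simp only [Matrix.updateRow_apply]
    split_ifs
    · exact differentiableAt_const _
    · exact hz a b
  · rw [← Matrix.one_apply, ← Matrix.mul_nonsing_inv (A z) (isUnit_iff_ne_zero.2 h0),
      Matrix.mul_apply]
    simp only [dir, A, Matrix.of_apply, Finset.sum_mul]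
    rw [Finset.sum_comm]
    exact Finset.sum_congr rfl fun i _ => Finset.sum_congr rfl fun l _ => by ring

theorem om_ok {J : Type} {f : J → E n → ℂ} (ka : J → ℝ) {d : ℝ} (hd : 0 < d) (s : Finset J)
    (hf : ∀ j ∈ s, HolN (f j) z ∧ dir ξ (f j) z = 0) :
    ContDiffAt ℝ ∞ (fun w => ∏ j ∈ s, (normSq (f j w) + d) ^ (-ka j)) z ∧
    0 ≤ ∏ j ∈ s, (normSq (f j z) + d) ^ (-ka j) ∧
    dir ξ (fun w => ((∏ j ∈ s, (normSq (f j w) + d) ^ (-ka j) : ℝ) : ℂ)) z = 0 := by
  refine ⟨contDiffAt_prod fun j hj => cd_pw (hf j hj).1 hd _,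
    Finset.prod_nonneg fun j _ => Real.rpow_nonneg (ns_pos _ hd z).le _, ?_⟩
  induction s using Finset.induction_on with
  | empty => simp [dir]
  | insert j s hj ih =>
    have h1 := hf j (Finset.mem_insert_self _ _)
    have h2 := fun i hi => hf i (Finset.mem_insert_of_mem hi)
    simp only [Finset.prod_insert hj, ofReal_mul]
    rw [dir_mul (cd_diff (cd_ofReal (cd_pw h1.1 hd _))) (cd_diff (cd_ofReal
      (contDiffAt_prod fun i hi => cd_pw (h2 i hi).1 hd _))), ih h2, dir_pw h1.1 hd, h1.2]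
    simp

theorem dib_le {S : ℝ} (h : ∑ l, ‖ξ z l‖ ^ 2 ≤ S) :
    ‖dib ξ f z‖ ^ 2 ≤ S * ∑ l, ‖dzb l f z‖ ^ 2 := by
  have h1 : ‖dib ξ f z‖ ≤ ∑ l, ‖ξ z l‖ * ‖dzb l f z‖ :=
    (norm_sum_le _ _).trans (Finset.sum_le_sum fun l _ => by rw [norm_mul, norm_star])
  exact ((pow_le_pow_left₀ (norm_nonneg _) h1 2).trans (Finset.sum_mul_sq_le_sq_mul_sq _ _ _)).trans
    (mul_le_mul_of_nonneg_right h (by positivity))

/-- The inequality of Hardy at a normal crossing. -/
theorem har {J : Type} [Fintype J] {f : J → E n → ℂ} {x : E n} (hf : ∀ j, HolN (f j) x)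
    {v : J → E n} (hv : ∀ j k, dir (fun _ => v k) (f j) x = if j = k then 1 else 0) :
    ∃ r : ℝ, 0 < r ∧ ∃ C : ℝ, 0 ≤ C ∧ ∀ (k : J) (ka : J → ℝ) (t d : ℝ) (u : E n → ℂ), 0 ≤ t → t < 1 →
      d ∈ Ioc (0 : ℝ) 1 → (∀ z ∈ closedBall x r, ContDiffAt ℝ ∞ u z) →
      (∀ z ∉ closedBall x r, u z = 0) →
      (1 - t) ^ 2 * ∫ z, ‖u z‖ ^ 2 * (normSq (f k z) + d) ^ (-t) *
          ∏ j ∈ Finset.univ.erase k, (normSq (f j z) + d) ^ (-ka j) ≤
        C * ∫ z, (∑ l, ‖dzb l u z‖ ^ 2 + ‖u z‖ ^ 2) *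
          ∏ j ∈ Finset.univ.erase k, (normSq (f j z) + d) ^ (-ka j) := by
  obtain ⟨ξ, h⟩ := dual hf hv
  have h1 : ∀ᶠ z in 𝓝 x, ∀ j, HolN (f j) z := eventually_all.2 fun j => (hf j).eventually_nhds
  obtain ⟨r, r0, hr⟩ := nhds_basis_closedBall.eventually_iff.1 (h.eventually_nhds.and h1)
  have hK := isCompact_closedBall x r
  have hξ : ∀ k, ∀ z ∈ closedBall x r, HolV (ξ k) z := fun k z hz l =>
    (hr hz).1.mono fun w hw => (hw k).1 l
  obtain ⟨S, hS⟩ := hK.exists_bound_of_continuousOn (f := fun z =>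
    ∑ k, (‖dv (ξ k) z‖ + normSq (f k z) + ∑ l, ‖ξ k z l‖ ^ 2)) fun z hz =>
      ContinuousAt.continuousWithinAt (tendsto_finsetSum _ fun k _ =>
        ((cd_dv (hξ k z hz)).continuousAt.norm.add
        (continuous_normSq.continuousAt.comp (hcd ((hr hz).2 k)).continuousAt)).add
        (tendsto_finsetSum _ fun l _ => (hcd (hξ k z hz l)).continuousAt.tendsto.norm.pow 2))
  have S0 : 0 ≤ S := (norm_nonneg _).trans (hS x (mem_closedBall_self r0.le))
  have b : ∀ k, ∀ z ∈ closedBall x r,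
      ‖dv (ξ k) z‖ ≤ S ∧ normSq (f k z) ≤ S ∧ ∑ l, ‖ξ k z l‖ ^ 2 ≤ S := fun k z hz => by
    have := (Finset.single_le_sum (f := fun k => ‖dv (ξ k) z‖ + normSq (f k z) +
      ∑ l, ‖ξ k z l‖ ^ 2) (fun k _ => by have := normSq_nonneg (f k z); positivity)
      (Finset.mem_univ k)).trans ((le_abs_self _).trans (hS z hz))
    have p1 := norm_nonneg (dv (ξ k) z)
    have p2 := normSq_nonneg (f k z)
    have p3 : 0 ≤ ∑ l, ‖ξ k z l‖ ^ 2 := by positivity
    exact ⟨by linarith, by linarith, by linarith⟩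
  refine ⟨r, r0, Real.exp (S + 2) * (2 * S + S ^ 2 / 2), by positivity,
    fun k ka t d u t0 t1 hd hu h0 => ?_⟩
  have ho := fun z (hz : z ∈ closedBall x r) => om_ok (ξ := ξ k) (z := z) ka hd.1
    (Finset.univ.erase k) fun j hj => ⟨(hr hz).2 j, by
      rw [((hr hz).1.self_of_nhds k).2 j, if_neg (Finset.ne_of_mem_erase hj)]⟩
  refine (hardy hK (hξ k) (fun z hz => ⟨(hr hz).2 k, (hr hz).1.mono fun w hw => by
    rw [(hw k).2 k, if_pos rfl], (b k z hz).2.1⟩) ho hu h0 (fun z hz => (b k z hz).1)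
    t0 t1 hd).trans ?_
  rw [mul_assoc, ← integral_const_mul (2 * S + S ^ 2 / 2)]
  have q1 : ∀ z ∉ closedBall x r, ∀ l, dzb l u z = 0 := fun z hz l => by
    rw [dzb_congr (ev0 hK h0 hz), dzb_const]
  have cu := fun z hz => ((hu z hz).continuousAt.norm.pow 2)
  refine mul_le_mul_of_nonneg_left (integral_mono ?_ ?_ fun z => ?_) (Real.exp_pos _).le
  · exact intg hK (fun z hz => ((continuousAt_const.mul
      ((cd_dib (hξ k z hz) (hu z hz)).continuousAt.norm.pow 2)).add
      (continuousAt_const.mul (cu z hz))).mul (ho z hz).1.continuousAt)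
      fun z hz => by simp [h0 z hz, dib, q1 z hz]
  · exact intg hK (fun z hz => continuousAt_const.mul (((tendsto_finsetSum _ fun l _ =>
      (cd_dzb (hu z hz) l).continuousAt.norm.pow 2 : ContinuousAt _ z).add (cu z hz)).mul
      (ho z hz).1.continuousAt)) fun z hz => by simp [h0 z hz, q1 z hz]
  · by_cases hz : z ∈ closedBall x r
    · have e := dib_le (f := u) (b k z hz).2.2
      have p : 0 ≤ ∑ l, ‖dzb l u z‖ ^ 2 := by positivity
      simp only [← mul_assoc]
      refine mul_le_mul_of_nonneg_right ?_ (ho z hz).2.1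
      nlinarith [mul_nonneg S0 (sq_nonneg ‖u z‖), mul_nonneg (sq_nonneg S) p]
    · simp [h0 z hz, dib, q1 z hz]

end Pool.Agent.Lib.N4S.Har13
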