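import Pool.Agent.Lib.N4S.Nc4a
import Pool.Agent.Lib.N4S.Har13

/-! The inequality of Hardy for sections of a bundle, along divisors with normal crossings. -/

open scoped Classical Topology ContDiff ComplexOrder Matrix
open Set MeasureTheory Complex Filter Metric

set_option linter.unusedVariables false

noncomputable section

namespace Pool.Agent.Lib.N4S.Nc4

open Pool.Agent.Lib.SV (E)
open Pool.Agent.Lib.HS32 Pool.Agent.Lib.HLK Pool.Agent.Lib.NU4

variable {n : ℕ} {M : Mf n} {σ : Type} [Fintype σ] [DecidableEq σ] {I : Type} [Fintype I]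

theorem rp {a b K s : ℝ} (ha : 0 < a) (hb : 0 < b) (hK : 0 < K) (h : a ≤ K * b) (hs : 0 ≤ s) :
    b ^ (-s) ≤ K ^ s * a ^ (-s) := by
  have h1 := Real.rpow_le_rpow_of_nonpos ha h (neg_nonpos.2 hs)
  rw [Real.mul_rpow hK.le hb.le, Real.rpow_neg hK.le] at h1
  have h2 := Real.rpow_pos_of_pos hK s
  have := mul_le_mul_of_nonneg_left h1 h2.le
  rwa [← mul_assoc, mul_inv_cancel₀ h2.ne', one_mul] at this

theorem dir_const {f : E n → ℂ} {z : E n} (h : DifferentiableAt ℂ f z) (v : E n) :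
    dir (fun _ => v) f z = fderiv ℂ f z v := by
  conv_rhs => rw [pi_eq_sum_univ' v, map_sum]
  refine Finset.sum_congr rfl fun i _ => ?_
  rw [(mHOL n f z).2.1 h i, map_smul, smul_eq_mul]

theorem prod_sub (p : I → Prop) [i : DecidableEq {j // p j}] (F : I → ℝ) (k : {j // p j}) :
    ∏ j ∈ Finset.univ.erase k.1, (if p j then F j else 1) = ∏ j ∈ Finset.univ.erase k, F j.1 := by
  rw [← Finset.prod_filter]
  refine Eq.trans (Finset.prod_congr ?_ fun _ _ => rfl)
    (Finset.prod_map (Finset.univ.erase k) (Function.Embedding.subtype p) F)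
  ext j
  simp only [Finset.mem_filter, Finset.mem_erase, Finset.mem_univ, and_true, Finset.mem_map,
    Function.Embedding.coe_subtype, Subtype.exists, exists_and_right, exists_eq_right]
  exact ⟨fun h => ⟨h.2, fun e => h.1 (congrArg Subtype.val e)⟩,
    fun ⟨h, h'⟩ => ⟨fun e => h' (Subtype.ext e), h⟩⟩

theorem near {X : Type} [TopologicalSpace X] {g : I → X → ℝ} {x : X}
    (h : ∀ j, ContinuousAt (g j) x ∧ 0 < g j x) :
    ∃ K : ℝ, 1 ≤ K ∧ ∀ᶠ z in 𝓝 x, ∀ j, 0 < g j z ∧ g j z + 1 ≤ K ∧ 1 ≤ K * g j z := by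
  have h1 : ∀ j, ∀ᶠ K in atTop, ∀ᶠ z in 𝓝 x, 0 < g j z ∧ g j z + 1 ≤ K ∧ 1 ≤ K * g j z := fun j => by
    have c0 := (h j).2
    filter_upwards [eventually_ge_atTop (2 * g j x + 1), eventually_ge_atTop (2 / g j x)]
      with K k1 k2
    filter_upwards [(h j).1.eventually (Ioo_mem_nhds (by linarith : g j x / 2 < g j x)
      (by linarith : g j x < 2 * g j x))] with z hz
    rw [div_le_iff₀ c0] at k2
    exact ⟨by linarith [hz.1], by linarith [hz.2], by nlinarith [hz.1]⟩
  obtain ⟨K, h2, h3⟩ := ((eventually_all.2 h1).and (eventually_ge_atTop 1)).exists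
  exact ⟨K, h3, eventually_all.2 h2⟩

theorem loc {L : I → M.Co} {f : I → M.Fam ℂ} {φ : I → M.Fam ℝ} (hf : ∀ k, M.HSecC (L k) (f k))
    (hφ : ∀ k, M.WtC (L k) (φ k))
    (snc : ∀ x, ∃ e ∈ M.C, x ∈ e.source ∧ ∀ k, f k e (e x) = 0 → ∃ v : E n, ∀ j, f j e (e x) = 0 →
      fderiv ℂ (f j e) (e x) v = if j = k then 1 else 0)
    {κ : I → ℝ} (κ0 : ∀ k, 0 ≤ κ k) (k : I) {t : ℝ} (t0 : 0 ≤ t) (t1 : t < 1) :
    Loc M (fun (d : Ioc (0 : ℝ) 1) x => (M.nrC (φ k) (f k) x + d) ^ (-t) *
        ∏ j ∈ Finset.univ.erase k, (M.nrC (φ j) (f j) x + d) ^ (-κ j))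
      fun d x => ∏ j ∈ Finset.univ.erase k, (M.nrC (φ j) (f j) x + d) ^ (-κ j) := by
  intro x
  obtain ⟨e, he, hx, hv⟩ := snc x
  have hz0 := e.map_source hx
  have rep := fun j => (hφ j).nr_rep (hf j).toSecC e he
  have sc : ∀ j, Continuous (M.nrC (φ j) (f j)) := fun j => ((hφ j).nr_sm (hf j).toSecC).continuous
  obtain ⟨K, K1, hK⟩ := near (x := e x) (g := fun j z => if f j e (e x) = 0 then
      Real.exp (-φ j e z) else M.nrC (φ j) (f j) (e.symm z)) fun j => by
    by_cases c : f j e (e x) = 0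
    · simp only [if_pos c]
      exact ⟨((hφ j).sm e he _ hz0).neg.exp.continuousAt, Real.exp_pos _⟩
    · simp only [if_neg c]
      refine ⟨(sc j).continuousAt.comp (e.continuousAt_symm hz0), ?_⟩
      rw [rep j _ hz0]
      exact mul_pos (normSq_pos.2 c) (Real.exp_pos _)
  have K0 : 0 < K := by linarith
  choose v hv' using fun j : {j // f j e (e x) = 0} => hv j.1 j.2
  obtain ⟨r0, hr0, C, C0, hC⟩ := Har13.har (J := {j // f j e (e x) = 0}) (f := fun j => f j.1 e)
    (x := e x) (fun j => (e.open_target.eventually_mem hz0).mono fun w hw => (hf j.1).hol e he w hw)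
    (v := v) fun j l => by
      rw [dir_const ((hf j.1).hol e he _ hz0), hv' l j.1 j.2]
      simp only [Subtype.ext_iff]
  obtain ⟨r1, hr1, h1⟩ := nhds_basis_closedBall.eventually_iff.1
    (hK.and (e.open_target.eventually_mem hz0))
  set r := min r0 r1 with hr
  have r0' : 0 < r := lt_min hr0 hr1
  have s0 : closedBall (e x) r ⊆ closedBall (e x) r0 := closedBall_subset_closedBall (min_le_left _ _)
  have s1 : closedBall (e x) r ⊆ closedBall (e x) r1 :=
    closedBall_subset_closedBall (min_le_right _ _)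
  have kc := isCompact_closedBall (e x) r
  have kt : closedBall (e x) r ⊆ e.target := fun z hz => (h1 (s1 hz)).2
  set Q : ℝ := ∏ j ∈ Finset.univ.erase k, K ^ κ j with hQ
  have Q0 : 0 ≤ Q := Finset.prod_nonneg fun j _ => by positivity
  have t2 : 0 < (1 - t) ^ 2 := pow_pos (by linarith) 2
  refine ⟨e, he, hx, r, K ^ t + K ^ t * Q * (C / (1 - t) ^ 2 * Q), r0', by positivity,
    ball_subset_closedBall.trans kt, fun d u hu ht => ?_⟩
  have d0 : (0 : ℝ) < d := d.2.1
  have d1 : (d : ℝ) ≤ 1 := d.2.2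
  have sp : ∀ j y, 0 < M.nrC (φ j) (f j) y + d := fun j y =>
    add_pos_of_nonneg_of_pos (Mf.nrC_nonneg _ _ _) d0
  set h : I → E n → ℝ := fun j z => if f j e (e x) = 0 then normSq (f j e z) + d else 1 with hh
  have hp : ∀ j z, 0 < h j z := fun j z => by
    simp only [hh]
    split_ifs
    · exact add_pos_of_nonneg_of_pos (normSq_nonneg _) d0
    · exact one_pos
  have cmp : ∀ z ∈ closedBall (e x) r, ∀ j, M.nrC (φ j) (f j) (e.symm z) + d ≤ K * h j z ∧
      h j z ≤ K * (M.nrC (φ j) (f j) (e.symm z) + d) := fun z hz j => by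
    obtain ⟨a1, a2, a3⟩ := (h1 (s1 hz)).1 j
    by_cases c : f j e (e x) = 0
    · simp only [hh, if_pos c] at a1 a2 a3 ⊢
      rw [rep j z (kt hz)]
      have := normSq_nonneg (f j e z)
      constructor <;> nlinarith
    · simp only [hh, if_neg c] at a1 a2 a3 ⊢
      constructor <;> nlinarith
  have un : ∀ z ∉ closedBall (e x) r, z ∉ tsupport u := fun z hz h' =>
    hz (ball_subset_closedBall (ht h'))
  have u0 : ∀ z ∉ closedBall (e x) r, u z = 0 := fun z hz =>
    image_eq_zero_of_notMem_tsupport (un z hz)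
  set G : E n → ℝ := fun z => ∑ l, normSq (dzb l u z) + normSq (u z) with hG
  have G0 : ∀ z ∉ closedBall (e x) r, G z = 0 := fun z hz => by
    have : u =ᶠ[𝓝 z] fun _ => 0 := notMem_tsupport_iff_eventuallyEq.1 (un z hz)
    simp only [hG, u0 z hz, dzb_congr this, dzb_const, map_zero, Finset.sum_const_zero, add_zero]
  have G1 : ∀ z, normSq (u z) ≤ G z := fun z =>
    le_add_of_nonneg_left (Finset.sum_nonneg fun l _ => normSq_nonneg _)
  have G2 : ∀ z, 0 ≤ G z := fun z => (normSq_nonneg _).trans (G1 z)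
  have uc : Continuous fun z => normSq (u z) := continuous_normSq.comp hu.continuous
  have Gc : Continuous G := (continuous_finsetSum _ fun l _ => continuous_normSq.comp
    (continuous_iff_continuousAt.2 fun z => (cd_dzb hu.contDiffAt l).continuousAt)).add uc
  set B : E n → ℝ := fun z =>
    ∏ j ∈ Finset.univ.erase k, (M.nrC (φ j) (f j) (e.symm z) + d) ^ (-κ j) with hB
  have B0 : ∀ z, 0 ≤ B z := fun z => Finset.prod_nonneg fun j _ => (Real.rpow_pos_of_pos (sp _ _) _).le
  have Bc : ContinuousOn B (closedBall (e x) r) := continuousOn_finsetProd _ fun j _ =>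
    (((sc j).comp_continuousOn (e.continuousOn_symm.mono kt)).add continuousOn_const).rpow_const
      fun z _ => Or.inl (sp _ _).ne'
  have iB : Integrable fun z => G z * B z :=
    ((Gc.continuousOn.mul Bc).integrableOn_compact kc).integrable_of_forall_notMem_eq_zero
      fun z hz => by simp only [Pi.mul_apply, G0 z hz, zero_mul]
  have J0 : 0 ≤ ∫ z, G z * B z := integral_nonneg fun z => mul_nonneg (G2 z) (B0 z)
  have A0 : ∀ z, 0 ≤ normSq (u z) * ((M.nrC (φ k) (f k) (e.symm z) + d) ^ (-t) * B z) := fun z =>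
    mul_nonneg (normSq_nonneg _) (mul_nonneg (Real.rpow_pos_of_pos (sp _ _) _).le (B0 z))
  show ∫ z, normSq (u z) * ((M.nrC (φ k) (f k) (e.symm z) + d) ^ (-t) * B z) ≤ _ * ∫ z, G z * B z
  rw [add_mul]
  have ak : ∀ z ∈ closedBall (e x) r,
      (M.nrC (φ k) (f k) (e.symm z) + d) ^ (-t) ≤ K ^ t * h k z ^ (-t) := fun z hz =>
    rp (hp k z) (sp _ _) K0 (cmp z hz k).2 t0
  by_cases c : f k e (e x) = 0
  · refine le_add_of_nonneg_of_le (by positivity) ?_
    set B' : E n → ℝ := fun z => ∏ j ∈ Finset.univ.erase k, h j z ^ (-κ j) with hB'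
    have B'0 : ∀ z, 0 ≤ B' z := fun z =>
      Finset.prod_nonneg fun j _ => (Real.rpow_pos_of_pos (hp _ _) _).le
    have hc : ∀ j, ContinuousOn (h j) (closedBall (e x) r) := fun j => by
      simp only [hh]
      split_ifs
      · exact (continuous_normSq.comp_continuousOn fun z hz =>
          ((hf j).sm e he z (kt hz)).continuousAt.continuousWithinAt).add continuousOn_const
      · exact continuousOn_const
    have B'c : ContinuousOn B' (closedBall (e x) r) := continuousOn_finsetProd _ fun j _ =>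
      (hc j).rpow_const fun z _ => Or.inl (hp _ _).ne'
    have b1 : ∀ z ∈ closedBall (e x) r, B z ≤ Q * B' z ∧ B' z ≤ Q * B z := fun z hz => by
      simp only [hB, hB', hQ, ← Finset.prod_mul_distrib]
      exact ⟨Finset.prod_le_prod (fun j _ => (Real.rpow_pos_of_pos (sp _ _) _).le)
          fun j _ => rp (hp j z) (sp _ _) K0 (cmp z hz j).2 (κ0 j),
        Finset.prod_le_prod (fun j _ => (Real.rpow_pos_of_pos (hp _ _) _).le)
          fun j _ => rp (sp _ _) (hp j z) K0 (cmp z hz j).1 (κ0 j)⟩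
    have e1 : ∀ (i : DecidableEq {j // f j e (e x) = 0}) z, B' z = ∏ j ∈ @Finset.erase _ i
        Finset.univ (⟨k, c⟩ : {j // f j e (e x) = 0}),
        (normSq (f j.1 e z) + d) ^ (-κ j.1) := fun i z => by
      rw [← prod_sub (fun j => f j e (e x) = 0) (i := i)
        (fun j => (normSq (f j e z) + d) ^ (-κ j)) ⟨k, c⟩]
      refine Finset.prod_congr rfl fun j _ => ?_
      simp only [hh]
      split_ifs
      · rfl
      · exact Real.one_rpow _
    have e2 : ∀ z, h k z = normSq (f k e z) + d := fun z => if_pos c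
    have main := hC ⟨k, c⟩ (fun j => κ j.1) t d u t0 t1 d.2 (fun z _ => hu.contDiffAt)
      fun z hz => u0 z fun h' => hz (s0 h')
    simp only [← e1, ← e2, ← normSq_eq_norm_sq] at main
    have iA : Integrable fun z => normSq (u z) * h k z ^ (-t) * B' z :=
      (((uc.continuousOn.mul ((hc k).rpow_const fun z _ => Or.inl (hp _ _).ne')).mul
        B'c).integrableOn_compact kc).integrable_of_forall_notMem_eq_zero
          fun z hz => by simp only [Pi.mul_apply, u0 z hz, map_zero, zero_mul]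
    have a1 : ∫ z, normSq (u z) * ((M.nrC (φ k) (f k) (e.symm z) + d) ^ (-t) * B z) ≤
        K ^ t * Q * ∫ z, normSq (u z) * h k z ^ (-t) * B' z := by
      rw [← integral_const_mul]
      refine integral_mono_of_nonneg (Eventually.of_forall A0) (iA.const_mul _)
        (Eventually.of_forall fun z => ?_)
      by_cases hz : z ∈ closedBall (e x) r
      · have := mul_le_mul_of_nonneg_left (mul_le_mul (ak z hz) (b1 z hz).1 (B0 z)
          (mul_nonneg (by positivity) (Real.rpow_pos_of_pos (hp k z) _).le)) (normSq_nonneg (u z))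
        exact this.trans (le_of_eq (by ring))
      · simp only [u0 z hz, map_zero, zero_mul, mul_zero, le_refl]
    have a2 : ∫ z, G z * B' z ≤ Q * ∫ z, G z * B z := by
      rw [← integral_const_mul]
      refine integral_mono_of_nonneg (Eventually.of_forall fun z => mul_nonneg (G2 z) (B'0 z))
        (iB.const_mul _) (Eventually.of_forall fun z => ?_)
      by_cases hz : z ∈ closedBall (e x) r
      · exact (mul_le_mul_of_nonneg_left (b1 z hz).2 (G2 z)).trans (le_of_eq (by ring))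
      · simp only [G0 z hz, zero_mul, mul_zero, le_refl]
    refine a1.trans ?_
    rw [mul_assoc (K ^ t * Q)]
    refine mul_le_mul_of_nonneg_left ?_ (by positivity)
    rw [div_mul_eq_mul_div, div_mul_eq_mul_div, le_div_iff₀' t2, mul_assoc C]
    exact main.trans (mul_le_mul_of_nonneg_left a2 C0)
  · refine le_add_of_le_of_nonneg ?_ (by positivity)
    rw [← integral_const_mul]
    refine integral_mono_of_nonneg (Eventually.of_forall A0) (iB.const_mul _)
      (Eventually.of_forall fun z => ?_)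
    by_cases hz : z ∈ closedBall (e x) r
    · have a := ak z hz
      rw [show h k z = 1 from if_neg c, Real.one_rpow, mul_one] at a
      have := mul_le_mul (G1 z) (mul_le_mul_of_nonneg_right a (B0 z))
        (mul_nonneg (Real.rpow_pos_of_pos (sp _ _) _).le (B0 z)) (G2 z)
      exact this.trans (le_of_eq (by ring))
    · simp only [u0 z hz, G0 z hz, map_zero, zero_mul, mul_zero, le_refl]

/-- The inequality of Hardy on the manifold. -/
theorem ghar [M.Cpt] {H : M.Fam (Mat n)} {b : Bun M σ} (hH : M.Met H) (hb : b.Ok) (hl : b.Hl)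
    {L : I → M.Co} {f : I → M.Fam ℂ} {φ : I → M.Fam ℝ} (hf : ∀ k, M.HSecC (L k) (f k))
    (hφ : ∀ k, M.WtC (L k) (φ k))
    (snc : ∀ x, ∃ e ∈ M.C, x ∈ e.source ∧ ∀ k, f k e (e x) = 0 → ∃ v : E n, ∀ j, f j e (e x) = 0 →
      fderiv ℂ (f j e) (e x) v = if j = k then 1 else 0)
    {κ : I → ℝ} (κ0 : ∀ k, 0 ≤ κ k) (k : I) {t : ℝ} (t0 : 0 ≤ t) (t1 : t < 1) :
    ∃ C : ℝ, 0 ≤ C ∧ ∀ d ∈ Ioc (0 : ℝ) 1, ∀ W, b.Sec W →
      ∫ y, b.pn W y * ((M.nrC (φ k) (f k) y + d) ^ (-t) *
        ∏ j ∈ Finset.univ.erase k, (M.nrC (φ j) (f j) y + d) ^ (-κ j)) ∂M.mu H ≤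
      C * ∫ y, (gb H b W y + b.pn W y) *
        ∏ j ∈ Finset.univ.erase k, (M.nrC (φ j) (f j) y + d) ^ (-κ j) ∂M.mu H := by
  have sp : ∀ (d : Ioc (0 : ℝ) 1) j y, 0 < M.nrC (φ j) (f j) y + d := fun d j y =>
    add_pos_of_nonneg_of_pos (Mf.nrC_nonneg _ _ _) d.2.1
  have sc : ∀ (d : Ioc (0 : ℝ) 1) j (s : ℝ), Continuous fun y => (M.nrC (φ j) (f j) y + d) ^ s :=
    fun d j s => (((hφ j).nr_sm (hf j).toSecC).continuous.add continuous_const).rpow_const
      fun y => Or.inl (sp d j y).ne'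
  have p0 : ∀ (d : Ioc (0 : ℝ) 1) y,
      0 ≤ ∏ j ∈ Finset.univ.erase k, (M.nrC (φ j) (f j) y + d) ^ (-κ j) := fun d y =>
    Finset.prod_nonneg fun j _ => (Real.rpow_pos_of_pos (sp d j y) _).le
  obtain ⟨C, C0, hC⟩ := glob hH hb hl
    (fun d => (sc d k _).mul (continuous_finsetProd _ fun j _ => sc d j _))
    (fun d y => mul_nonneg (Real.rpow_pos_of_pos (sp d k y) _).le (p0 d y))
    (fun d => continuous_finsetProd _ fun j _ => sc d j _) p0 (loc hf hφ snc κ0 k t0 t1)
  exact ⟨C, C0, fun d hd W hW => hC ⟨d, hd⟩ W hW⟩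

end Pool.Agent.Lib.N4S.Nc4
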