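import Pool.Agent.Lib.N4S.Kit78
import Pool.Agent.Lib.N4S.Nc4b

/-! Project n4s: integrals of negative powers of the norms of the equations. -/

open scoped Classical Topology ContDiff ComplexOrder Matrix
open Set Filter MeasureTheory

noncomputable section

namespace Pool.Agent.Lib.N4S.Klt51

open Pool.Agent.Lib.SV (E)
open Pool.Agent.Lib.HS32 Pool.Agent.Lib.HLK Pool.Agent.Lib.F4 Pool.Agent.Lib.NU4
open Pool.Agent.Lib.N4S.K78

variable {n : ℕ} {M : Mf n} {I : Type} [Fintype I] (S : Sd M I)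

/-- The trivial bundle. -/
def tb (M : Mf n) : Bun M Unit := ⟨fun _ _ _ => 1, fun _ _ => 1⟩

theorem tb_ok : (tb M).Ok :=
  ⟨fun _ _ _ _ _ _ _ _ _ => contDiffAt_const, fun _ _ _ _ => rfl,
    fun _ _ _ _ _ _ _ _ _ _ => (Matrix.one_mul 1).symm, fun _ _ _ _ _ _ => contDiffAt_const,
    fun _ _ _ _ => Matrix.PosDef.one, fun _ _ _ _ _ _ _ => by simp [tb]⟩

theorem tb_hl : (tb M).Hl :=
  fun _ _ _ _ _ _ _ _ _ => Eventually.of_forall fun _ => differentiableAt_const _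

theorem pr_pos {d : ℝ} (hd : 0 < d) (t : I → ℝ) (A : Finset I) (x : M.X) :
    0 < ∏ k ∈ A, (sg S.toDk k x + d) ^ t k :=
  Finset.prod_pos fun k _ => Real.rpow_pos_of_pos (add_pos_of_nonneg_of_pos (sg_nn _ k x) hd) _

theorem pr_ct {d : ℝ} (hd : 0 < d) (t : I → ℝ) (A : Finset I) :
    Continuous fun x => ∏ k ∈ A, (sg S.toDk k x + d) ^ t k :=
  continuous_finsetProd _ fun k _ => ((sg_sm _ k).continuous.add continuous_const).rpow_const
    fun x => Or.inl (add_pos_of_nonneg_of_pos (sg_nn _ k x) hd).ne'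

theorem klt1 [M.Cpt] {t : I → ℝ} (t0 : ∀ k, 0 ≤ t k) (t1 : ∀ k, t k < 1) (A : Finset I) :
    ∃ C : ℝ, ∀ d ∈ Ioc (0 : ℝ) 1, ∫ x, ∏ k ∈ A, (sg S.toDk k x + d) ^ (-t k) ∂M.mu S.H ≤ C := by
  induction A using Finset.induction_on with
  | empty => exact ⟨∫ _, 1 ∂M.mu S.H, fun d _ => by simp only [Finset.prod_empty, le_refl]⟩
  | insert k A hk ih =>
    obtain ⟨B, hB⟩ := ih
    obtain ⟨C, C0, hC⟩ := Nc4.ghar (met S) tb_ok tb_hl S.hol S.wt S.snc
      (κ := fun j => if j ∈ A then t j else 0) (fun j => by split_ifs; exacts [t0 j, le_rfl]) k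
      (t0 k) (t1 k)
    refine ⟨C * B, fun d hd => ?_⟩
    have h := hC d hd (fun _ _ _ => 1) ⟨fun _ _ _ _ => contDiffAt_const,
      fun _ _ _ _ _ _ _ => (Matrix.one_mulVec _).symm⟩
    have e1 : ∀ y, ∏ j ∈ Finset.univ.erase k, (M.nrC (S.φ j) (S.f j) y + d) ^
        (-if j ∈ A then t j else 0) = ∏ j ∈ A, (sg S.toDk j y + d) ^ (-t j) := fun y => by
      refine (Finset.prod_subset (s₁ := A) (fun j hj => Finset.mem_erase.2
        ⟨fun c => hk (by rwa [c] at hj), Finset.mem_univ j⟩) fun j _ hj => ?_).symm.trans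
          (Finset.prod_congr rfl fun j hj => ?_)
      · rw [if_neg hj, neg_zero, Real.rpow_zero]
      · rw [if_pos hj, sg]
    have e2 : ∀ y, (tb M).pn (fun _ _ _ => 1) y = 1 := fun y => by
      simp [Bun.pn, Bun.pp, tb, Mf.ev, dotProduct]
    have e3 : ∀ y, gb S.H (tb M) (fun _ _ _ => 1) y = 0 := fun y => by
      simp [gb, Mf.ev, dzbv, dzb, dotProduct]
    simp only [e1, e2, e3, one_mul, zero_add] at h
    simp only [Finset.prod_insert hk]
    exact h.trans (mul_le_mul_of_nonneg_left (hB d hd) C0)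

/-- The integrals of the negative powers are bounded. -/
theorem klt0 [M.Cpt] {t : I → ℝ} (t0 : ∀ k, 0 ≤ t k) (t1 : ∀ k, t k < 1) :
    ∃ C : ℝ, ∀ d ∈ Ioc (0 : ℝ) 1, ∫ x, ∏ k, (sg S.toDk k x + d) ^ (-t k) ∂M.mu S.H ≤ C :=
  klt1 S t0 t1 _

theorem room {t : I → ℝ} (t1 : ∀ k, t k < 1) :
    ∃ r : ℝ, 1 < r ∧ ∀ k, t k * r < 1 := by
  have h : ∀ᶠ r in 𝓝 (1 : ℝ), ∀ k, t k * r < 1 := eventually_all.2 fun k =>
    (continuousAt_const.mul continuousAt_id).eventually_lt continuousAt_const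
      (by simpa using t1 k)
  obtain ⟨r, h1, h2⟩ := ((h.filter_mono nhdsWithin_le_nhds).and
    (self_mem_nhdsWithin (s := Ioi 1))).exists
  exact ⟨r, h2, h1⟩

variable {S} {a : ℝ → M.X → ℝ}

/-- The same with the exponential of the potential. -/
theorem klt [M.Cpt] (hZ : Zs S a) {t : I → ℝ} (t0 : ∀ k, 0 ≤ t k) (t1 : ∀ k, t k < 1) {p : ℝ}
    (hp : 0 ≤ p) : ∃ C : ℝ, ∀ d ∈ Ioc (0 : ℝ) 1, ∀ ε ∈ Ioc (0 : ℝ) 1,
      ∫ x, Real.exp (-(p * a ε x)) * ∏ k, (sg S.toDk k x + d) ^ (-t k) ∂M.mu S.H ≤ C := by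
  obtain ⟨r, r1, hr⟩ := room t1
  have c := Real.HolderConjugate.conjExponent r1
  obtain ⟨A, hA⟩ := klt0 S (fun k => mul_nonneg (t0 k) c.pos.le) hr
  obtain ⟨B, hB⟩ := hZ.itg ((p + 1) * r.conjExponent) (mul_pos (by positivity) c.symm.pos)
  refine ⟨A + B, fun d hd ε hε => ?_⟩
  have i := (mMU n M _ (met S)).2.2.2.2.1 ℝ
  have ca := (hZ.out.sm ε hε).continuous
  have i1 := i _ (pr_ct S hd.1 (fun k => -(t k * r)) Finset.univ)
  have i2 : Integrable (fun x => Real.exp (-((p + 1) * r.conjExponent * a ε x))) (M.mu S.H) :=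
    i _ (ca.const_mul ((p + 1) * r.conjExponent)).neg.rexp
  refine le_trans ?_ (add_le_add (hA d hd) (hB ε hε))
  rw [← integral_add i1 i2]
  refine integral_mono (i _ ((ca.const_mul p).neg.rexp.mul (pr_ct S hd.1 _ _))) (i1.add i2)
    fun x => ?_
  have p0 := pr_pos S hd.1 (fun k => -t k) Finset.univ x
  have y := Real.young_inequality_of_nonneg p0.le (Real.exp_pos (-(p * a ε x))).le c
  have e1 : (∏ k, (sg S.toDk k x + d) ^ (-t k)) ^ r = ∏ k, (sg S.toDk k x + d) ^ (-(t k * r)) := by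
    rw [← Real.finsetProd_rpow _ _ fun k _ => Real.rpow_nonneg
      (add_nonneg (sg_nn _ k x) hd.1.le) _]
    exact Finset.prod_congr rfl fun k _ => by
      rw [← Real.rpow_mul (add_nonneg (sg_nn _ k x) hd.1.le), neg_mul]
  have e2 : Real.exp (-(p * a ε x)) ^ r.conjExponent ≤
      Real.exp (-((p + 1) * r.conjExponent * a ε x)) := by
    rw [← Real.exp_mul]
    refine Real.exp_le_exp.2 ?_
    nlinarith [mul_nonneg c.symm.pos.le (neg_nonneg.2 (hZ.out.le ε hε x))]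
  rw [e1] at y
  have g1 := div_le_self (pr_pos S hd.1 (fun k => -(t k * r)) Finset.univ x).le r1.le
  have g2 := div_le_self (Real.rpow_nonneg (Real.exp_pos (-(p * a ε x))).le r.conjExponent)
    c.symm.lt.le
  beta_reduce
  linarith

/-- The total mass of the weights is bounded. -/
theorem bd [M.Cpt] (hZ : Zs S a) (q : Sq) {m : ℕ} (hm : 1 ≤ m) :
    ∃ C : ℝ, ∀ j, ∫ x, Real.exp (-ww S a q m j x) ∂M.mu S.H ≤ C := by
  have m0 : (0 : ℝ) ≤ (m : ℝ) - 1 := sub_nonneg.2 (by exact_mod_cast hm)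
  obtain ⟨C, hC⟩ := klt hZ (ka_nn S.toDk m) (ka_lt S.toDk m) m0
  have i := (mMU n M _ (met S)).2.2.2.2.1 ℝ
  refine ⟨C, fun j => le_trans ?_
    (hC _ ⟨(q.d0 j).1, (q.d0 j).2.trans (by norm_num)⟩ _ (q.e0 j))⟩
  refine integral_mono (i _ (ww_sm hZ q m j).continuous.neg.rexp)
    (i _ (((a_sm hZ q j).continuous.const_mul _).neg.rexp.mul (pr_ct S (q.d0 j).1 _ _)))
    fun x => ?_
  beta_reduce
  rw [ww, neg_add, Real.exp_add, exp_lf S m (q.d0 j).1]
  exact mul_le_mul_of_nonneg_right (Real.exp_le_exp.2 (neg_le_neg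
    (mul_le_mul_of_nonneg_left (tp_ge q j x).2 m0))) (pr_pos S (q.d0 j).1 _ _ x).le

end Pool.Agent.Lib.N4S.Klt51
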