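import Pool.Agent.Lib.N4S.Sg19c
import Pool.Agent.Lib.NU4.Flip71e
import Pool.Agent.Lib.NU4.Ibp20
import Pool.Agent.Lib.NU4.B_FK
import Pool.Agent.Lib.KP.B_PSI1

/-! Project n4s: integration by parts with a cut-off function, and pointwise bounds. -/

open scoped Classical Topology ContDiff ComplexOrder Matrix
open Set Filter MeasureTheory

noncomputable section

namespace Pool.Agent.Lib.N4S.W71

open Pool.Agent.Lib.SV (E)
open Pool.Agent.Lib.HS32 Pool.Agent.Lib.HLK Pool.Agent.Lib.F4 Pool.Agent.Lib.NU4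
  Pool.Agent.Lib.N4S.K78
open Pool.Agent.Lib.NU4.SG (ct oP_aw ct_comp cu_ds q_sub)
open Pool.Agent.Lib.NU4.Fl (mf pp_mf pol pcs)
open Pool.Agent.Lib.EXH (aw)

section gen

variable {n : ℕ} {M : Mf n} {H : M.Fam (Mat n)} {L : M.Co} {φ : M.Fam ℝ} {V : M.Fam (Fs n → ℂ)}

theorem leib {F : M.X → ℝ} (hF : M.Sm F) (hV : M.All fun e z => ContDiffAt ℝ ∞ (V e) z) :
    M.All fun e z => (oP H φ).ap (mf F V) e z = mf F ((oP H φ).ap V) e z + ct M F V e z :=
  fun e he z hz => by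
    have k := I20.pf0_smul (cd_diff (hF.lc e he z hz)) (hV e he z hz)
    beta_reduce
    rw [I20.op_ap, mf, mf, I20.op_ap, ct, show mf F V e = fun w => M.lc F e w • V e w from rfl, k,
      I20.anv_mv (gd (M.lc F e) z), Matrix.mulVec_smul, smul_sub]
    simp only [gd, Mf.lc]
    abel

theorem ct_sum {ι : Type} (s : Finset ι) {g : ι → M.X → ℝ} (hg : ∀ k, M.Sm (g k)) (x : M.X) :
    M.ev (ct M (fun y => ∑ k ∈ s, g k y) V) x = ∑ k ∈ s, M.ev (ct M (g k) V) x := by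
  simp only [Mf.ev, ct]
  rw [Finset.sum_comm]
  refine Finset.sum_congr rfl fun i _ => ?_
  rw [← Finset.sum_smul, ← dz_sum fun k _ => cd_diff ((hg k).lc _ (Mf.ch_mem x) _ (Mf.ch_tgt x))]
  congr 2
  funext w
  simp only [Mf.lc, Complex.ofReal_sum]

theorem ct_sec (hH : M.Met H) (hφ : M.WtC L φ) (hV : (lam H L φ).Sec V) {v : M.X → ℝ}
    (hv : M.Sm v) : (lam H L φ).Sec (ct M v V) := by
  have e : ct M v V = iot M v V := funext fun e => funext fun z => by
    simp only [ct, iot, I20.anv_mv, gd]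
  rw [e]
  exact I20.sec_iot st_FK H L φ hv hV

variable [M.Cpt]

theorem ibp (hH : M.Kae H) (hφ : M.WtC L φ) (hV : (lam H L φ).Sec V) (hh : Hol V)
    {v ρ G : M.X → ℝ} (hv : M.Sm v) (hρ : M.Sm ρ) (hG : M.Sm G) :
    ∫ x, ρ x * G x * cu (M.hw φ + M.ric H + M.hs v) (lam H L φ) V x ∂M.mu H =
      -(∫ x, (G x : ℂ) * (lam H L φ).pp ((oQ H).ap (mf ρ ((oP H (aw M φ v)).ap V))) V x
        ∂M.mu H).re +
      ∫ x, G x * ((lam H L φ).pp ((oP H (aw M φ v)).ap V) (ct M ρ V) x).re ∂M.mu H := by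
  have hm := hH.toMet
  have it := (mMU n M H hm).2.2.2.2.1
  obtain ⟨o, -, a0⟩ := aLAM n M H L φ hm hφ
  obtain ⟨hψ, e0⟩ := (a0 v).1 hv
  have V1 : (lam H L (aw M φ v)).Sec V := ⟨hV.sm, hV.cmp⟩
  have P1 := aSP n M H L _ V hm hψ V1
  have P2 : (lam H L φ).Sec ((oP H (aw M φ v)).ap V) := ⟨P1.sm, P1.cmp⟩
  have hF := hρ.mul hG
  have k := pol hH hψ V1 hh (hF.mul hv.exp)
  have e1 : ∀ x, ρ x * G x * Real.exp (v x) *
      cu (M.hw (aw M φ v) + M.ric H) (lam H L (aw M φ v)) V x =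
      ρ x * G x * cu (M.hw φ + M.ric H + M.hs v) (lam H L φ) V x := fun x => by
    rw [Fl.cu_aw, Fl.cu_congr (T := M.hw φ + M.ric H + M.hs v) fun e he z hz => by
      simp only [Pi.add_apply, e0 e he z hz, add_right_comm], mul_assoc, ← mul_assoc (Real.exp _),
      ← Real.exp_add, add_neg_cancel, Real.exp_zero, one_mul]
  have e2 : ∀ U x, ((ρ x * G x * Real.exp (v x) : ℝ) : ℂ) * (lam H L (aw M φ v)).pp U V x =
      (lam H L φ).pp U (mf ρ (mf G V)) x := fun U x => by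
    rw [((a0 v).2 U V x).1, mul_comm ((lam H L φ).pp U V x), ← mul_assoc, ← Complex.ofReal_mul,
      mul_assoc, ← Real.exp_add, add_neg_cancel, Real.exp_zero, mul_one, (pp_mf _ _ _ _).2,
      (pp_mf _ _ _ _).2, Complex.ofReal_mul, mul_assoc]
  have s0 : (lam H L φ).Sec (mf G V) := CUT.sec_mul hG hV
  have s1 : (lam H L φ).Sec (mf ρ (mf G V)) := CUT.sec_mul hρ s0
  have s2 := aSP n M H L φ _ hm hφ s0
  have s3 : (lam H L φ).Sec (mf ρ ((oP H (aw M φ v)).ap V)) := CUT.sec_mul hρ P2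
  have s4 := ct_sec hm hφ hV hρ
  have a := aADJ n M H L φ _ _ hH hφ P2 s1
  have b := aADJ n M H L φ _ _ hH hφ s3 s0
  have e3 : ∀ x, (lam H L φ).pp ((oP H (aw M φ v)).ap V) ((oP H φ).ap (mf ρ (mf G V))) x =
      (lam H L φ).pp (mf ρ ((oP H (aw M φ v)).ap V)) ((oP H φ).ap (mf G V)) x +
      (G x : ℂ) * (lam H L φ).pp ((oP H (aw M φ v)).ap V) (ct M ρ V) x := fun x => by
    have := (leib (H := H) (φ := φ) hρ s0.sm).ch x
    rw [(pp_mf _ _ _ _).1]
    simp only [Bun.pp, Mf.ev, this, mf, ct, Mf.ch_symm, Matrix.mulVec_add, dotProduct_add,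
      Matrix.mulVec_smul, dotProduct_smul, smul_eq_mul, Matrix.mulVec_sum, dotProduct_sum,
      Finset.mul_sum]
    congr 1
    exact Finset.sum_congr rfl fun i _ => by ring
  have c1 := (o.pp_rep s3 s2).2.continuous
  have c2 := (o.pp_rep P2 s4).2.continuous
  have i2 := it _ (fun x => (G x : ℂ) * (lam H L φ).pp ((oP H (aw M φ v)).ap V) (ct M ρ V) x)
    ((Complex.continuous_ofReal.comp hG.continuous).mul c2)
  simp only [e1, e2] at k
  simp only [Bun.ip, e3, (pp_mf _ _ _ _).2] at a b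
  rw [integral_add (it _ _ c1) i2] at a
  simp only [(pp_mf _ _ _ _).2] at k
  rw [k, a, b, Complex.neg_re, Complex.neg_re, neg_neg, neg_neg, Complex.add_re]
  congr 1
  rw [← RCLike.re_to_complex, ← integral_re i2]
  refine integral_congr_ae (Eventually.of_forall fun x => ?_)
  simp only [RCLike.re_to_complex, Complex.re_ofReal_mul]

end gen

variable {n : ℕ} {M : Mf n} [M.Cpt] {I : Type} [Fintype I] {S : Sd M I} {m : ℕ}
  {W : M.Fam (Fs n → ℂ)}

theorem lo1 (hW : (lb S m).Sec W) : ∃ C : ℝ, 0 ≤ C ∧ ∀ s : ℝ, 0 < s → ∀ x,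
    -(C * ∑ k, s / (sg S.toDk k x + s)) ≤ cu (G19.rd S m s) (lb S m) W x := by
  choose c c0 hc using fun k =>
    KP.st_PSI1 KP.st_NHS n M S.H (S.L k) (S.f k) (S.φ k) (met S) (S.hol k) (S.wt k)
  obtain ⟨B, hB⟩ := isCompact_univ.exists_bound_of_continuousOn
    (aCU n M _ _ _ _ W (met S) (met S).toTen (pm_wt S m) hW).2.1.continuousOn
  have s0 : 0 ≤ ∑ k, c k := Finset.sum_nonneg fun k _ => (c0 k).le
  refine ⟨(∑ k, c k) * |B|, by positivity, fun s hs x => ?_⟩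
  rw [G19.rd, G19.cu_sum, Finset.mul_sum, ← Finset.sum_neg_distrib]
  refine Finset.sum_le_sum fun k _ => ?_
  have p : ∀ y, 0 < sg S.toDk k y + s := fun y => add_pos_of_nonneg_of_pos (sg_nn _ k y) hs
  have sr : M.Sm fun y => c k * (s / (sg S.toDk k y + s)) :=
    ((Mf.sm_const s).div ((sg_sm _ k).add (Mf.sm_const s)) fun y => (p y).ne').const_mul _
  have t := (aCU n M _ _ _ _ W (met S) (((S.wt k).clo.toTen.add
    ((mHES n M).1 _ (lsg_sm S.toDk hs k)).toTen).add ((met S).toTen.fsmul sr)) (pm_wt S m)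
      hW).2.2 0 le_rfl (fun e he z hz => by
        simpa only [zero_smul, add_zero, Pi.zero_apply, sub_zero, Pi.add_apply, sg] using
          hc k s hs e he z hz) x
  have e : cu (fun e z => (c k * (s / (sg S.toDk k (e.symm z) + s))) • S.H e z) (lb S m) W x =
      cu ((c k * (s / (sg S.toDk k x + s))) • S.H) (lb S m) W x :=
    SG.cu_congr _ _ (by simp only [Mf.ev, Pi.smul_apply, Mf.ch_symm])
  rw [SG.cu_add, e, SG.cu_smul, zero_mul, zero_mul, neg_zero] at t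
  rw [SG.cu_smul]
  have b : cu S.H (lb S m) W x ≤ |B| := ((le_abs_self _).trans (hB x trivial)).trans (le_abs_self _)
  have r0 := (div_pos hs (p x)).le
  have k0 := ka_nn S.toDk m k
  have k1 := (ka_lt S.toDk m k).le
  have c1 := Finset.single_le_sum (fun k _ => (c0 k).le) (Finset.mem_univ k)
  have y1 := mul_le_mul_of_nonneg_left b (mul_nonneg (c0 k).le r0)
  have y2 := mul_le_mul_of_nonneg_right c1 (mul_nonneg (abs_nonneg B) r0)
  have y3 : 0 ≤ c k * (s / (sg S.toDk k x + s)) * |B| :=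
    mul_nonneg (mul_nonneg (c0 k).le r0) (abs_nonneg B)
  nlinarith

theorem ctb (hW : Nt S m W) (k : I) : ∃ C : ℝ, 0 ≤ C ∧ ∀ s ∈ Ioc (0 : ℝ) (1 / 2), ∀ x,
    √((lb S m).pn (ct M (fun y => Real.log (sg S.toDk k y + s)) W) x) ≤
      C * (sg S.toDk k x + s) ^ (-((1 - ka S.toDk m k) / 2)) := by
  have p : ∀ {s : ℝ}, 0 < s → ∀ y, 0 < sg S.toDk k y + s := fun hs y =>
    add_pos_of_nonneg_of_pos (sg_nn _ k y) hs
  rcases (ka_nn S.toDk m k).eq_or_lt with h | h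
  · have ss := sg_sm S.toDk k
    obtain ⟨B, hB⟩ := isCompact_univ.exists_bound_of_continuousOn (aCU n M _ _ _ _ W (met S)
      ((((mHES n M).1 _ ss).toTen).add ((S.wt k).clo.toTen.fsmul ss)) (pm_wt S m)
        hW.sec).2.1.continuousOn
    refine ⟨√|B|, Real.sqrt_nonneg _, fun s hs x => ?_⟩
    have q := p hs.1 x
    obtain ⟨u1, u2, -⟩ := (KP.st_NHS n M _ _ _ (S.hol k) (S.wt k)).ch x
    simp only [Mf.ch_symm] at u1 u2
    have e2 : cu (M.ds (sg S.toDk k) (sg S.toDk k)) (lb S m) W x = cu (sg S.toDk k x •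
        (M.hs (sg S.toDk k) + fun e z => sg S.toDk k (e.symm z) • M.hw (S.φ k) e z)) (lb S m) W x :=
      SG.cu_congr _ _ (by
        simp only [Mf.ev, Pi.add_apply, Pi.smul_apply, sg, u1, u2, sub_add_cancel, smul_smul,
          Mf.ch_symm])
    have e4 : (lb S m).pn (ct M (fun y => Real.log (sg S.toDk k y + s)) W) x =
        (sg S.toDk k x + s)⁻¹ ^ 2 * cu (M.ds (sg S.toDk k) (sg S.toDk k)) (lb S m) W x := by
      rw [cu_ds _ ss]
      simp only [Bun.pn, Bun.pp, ct_comp ss (G19.dl _ q).1 W, star_smul, Matrix.mulVec_smul,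
        smul_dotProduct, dotProduct_smul, smul_eq_mul, RCLike.star_def, Complex.conj_ofReal,
        Complex.re_ofReal_mul]
      ring
    have b := ((le_abs_self _).trans (hB x trivial)).trans (le_abs_self B)
    rw [← h, sub_zero, Real.rpow_neg q.le, ← Real.sqrt_eq_rpow, ← Real.sqrt_inv,
      ← Real.sqrt_mul (abs_nonneg B), e4, e2, SG.cu_smul]
    refine Real.sqrt_le_sqrt ?_
    have i0 := inv_pos.2 q
    have i1 : sg S.toDk k x * (sg S.toDk k x + s)⁻¹ ≤ 1 := by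
      rw [← div_eq_mul_inv]
      exact (div_le_one q).2 (le_add_of_nonneg_right hs.1.le)
    have y1 := mul_le_mul_of_nonneg_left b (mul_nonneg (sq_nonneg (sg S.toDk k x + s)⁻¹)
      (sg_nn S.toDk k x))
    have y2 := mul_le_mul_of_nonneg_right i1 (mul_nonneg (abs_nonneg B) i0.le)
    nlinarith
  · obtain ⟨C, C0, hC⟩ := G19.tan (met S) (pm_wt S m) hW.sec hW.hol (S.hol k) (S.wt k)
      (fun x => (S.deg k x).imp fun e a => ⟨a.1, a.2.1, fun b => (a.2.2 b).1⟩) (hW.tan k h)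
    refine ⟨√C, Real.sqrt_nonneg _, fun s hs x => (Real.sqrt_le_sqrt (hC s hs.1 x).2).trans
      (le_mul_of_one_le_right (Real.sqrt_nonneg _) ?_)⟩
    exact Real.one_le_rpow_of_pos_of_le_one_of_nonpos (p hs.1 x) (by linarith [S.sml k x, hs.2])
      (by linarith [ka_lt S.toDk m k])

theorem pbv (hW : Nt S m W) {v : M.X → ℝ} (hv : M.Sm v) : ∃ C : ℝ, 0 ≤ C ∧ ∀ s : ℝ, 0 < s → ∀ x,
    √((lb S m).pn ((oP S.H (aw M (pm S m) fun y => lf S m s y + v y)).ap W) x) ≤ C := by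
  obtain ⟨C, -, h⟩ := G19.bnd hW
  have sc := ct_sec (met S) (pm_wt S m) hW.sec hv
  obtain ⟨B, -, hB⟩ := ((lb_ok S m).pp_rep sc sc).2.re.exists_bound
  refine ⟨√(2 * C + 2 * B), Real.sqrt_nonneg _, fun s hs x => Real.sqrt_le_sqrt ?_⟩
  have hG := (lb_ok S m).pos.ch x
  have a := (h s hs x).1
  have b := (le_abs_self _).trans (hB x)
  rw [← G19.aw_aw]
  simp only [Bun.pn, Bun.pp] at a b ⊢
  rw [Mf.ev_congr (oP_aw (met S) (((aLAM n M _ _ _ (met S) (pm_wt S m)).2.2 _).1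
    (lf_sm S m hs)).1 hv W)]
  have q1 := q_sub hG.1 (M.ev ((oP S.H (aw M (pm S m) (lf S m s))).ap W) x) (M.ev (ct M v W) x)
  have q2 := (q1 (-1)) ▸ (Complex.le_def.1 (hG.posSemidef.dotProduct_mulVec_nonneg _)).1
  have q3 := q1 1
  simp only [Complex.ofReal_one, one_smul, Complex.zero_re] at q2 q3
  refine (le_of_eq q3).trans ?_
  simp only [Mf.ev] at a b q2 ⊢
  linarith

end Pool.Agent.Lib.N4S.W71
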