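import Pool.Agent.Lib.N4S.Blue
import Pool.Agent.Lib.N4S.Sw71a
import Pool.Agent.Lib.N4S.Klt51
import Pool.Agent.Lib.N4S.Chi23

/-! Project n4s: a tangent multivector that is weakly parallel off the divisors is small. -/

open scoped Classical Topology ContDiff ComplexOrder Matrix
open Set Filter MeasureTheory

noncomputable section

namespace Pool.Agent.Lib.N4S

open Pool.Agent.Lib.SV (E)
open Pool.Agent.Lib.HS32 Pool.Agent.Lib.HLK Pool.Agent.Lib.F4 Pool.Agent.Lib.NU4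
  Pool.Agent.Lib.N4S.K78
open Pool.Agent.Lib.NU4.SG (ct oP_aw ct_comp cu_ds q_sub)
open Pool.Agent.Lib.NU4.Fl (mf pp_mf pol pcs)
open Pool.Agent.Lib.K3E (lk)
open Pool.Agent.Lib.EXH (aw)

namespace W71

variable {n : ℕ} {M : Mf n} [M.Cpt] {I : Type} [Fintype I] {S : Sd M I} {m : ℕ}
  {W : M.Fam (Fs n → ℂ)} {a : ℝ → M.X → ℝ}

theorem le_prod {f : I → ℝ} (h : ∀ i, 1 ≤ f i) : 1 ≤ ∏ i, f i ∧ ∀ k, f k ≤ ∏ i, f i := by
  have o : ∀ s : Finset I, 1 ≤ ∏ i ∈ s, f i := fun s =>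
    Finset.prod_induction f (1 ≤ ·) (fun _ _ => one_le_mul_of_one_le_of_one_le) le_rfl
      fun i _ => h i
  refine ⟨o _, fun k => ?_⟩
  rw [← Finset.mul_prod_erase _ _ (Finset.mem_univ k)]
  exact le_mul_of_one_le_right (zero_le_one.trans (h k)) (o _)

theorem maj (hZ : Zs S a) (q : Sq) (hm : 1 ≤ m) : ∃ (Z : ℕ → M.X → ℝ) (C : ℝ), 0 ≤ C ∧ ∀ j,
    Continuous (Z j) ∧ ∫ x, Z j x ∂M.mu S.H ≤ C ∧ ∀ x, Real.exp (-ww S a q m j x) ≤ Z j x ∧
      ∀ k s, q.d j ≤ s → Real.exp (-ww S a q m j x) *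
        (sg S.toDk k x + s) ^ (-((1 - ka S.toDk m k) / 2)) ≤ Z j x := by
  have m0 : (0 : ℝ) ≤ (m : ℝ) - 1 := sub_nonneg.2 (by exact_mod_cast hm)
  obtain ⟨C, hC⟩ := Klt51.klt hZ (t := fun k => ka S.toDk m k + (1 - ka S.toDk m k) / 2)
    (fun k => by linarith [ka_nn S.toDk m k]) (fun k => by linarith [ka_lt S.toDk m k]) m0
  refine ⟨fun j x => Real.exp (-(((m : ℝ) - 1) * a (q.e j) x)) * ∏ k, (sg S.toDk k x + q.d j) ^
    (-(ka S.toDk m k + (1 - ka S.toDk m k) / 2)), |C|, abs_nonneg _, fun j => ⟨?_, ?_, fun x => ?_⟩⟩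
  · exact ((a_sm hZ q j).continuous.const_mul _).neg.rexp.mul (Klt51.pr_ct S (q.d0 j).1 _ _)
  · exact (hC _ ⟨(q.d0 j).1, (q.d0 j).2.trans (by norm_num)⟩ _ (q.e0 j)).trans (le_abs_self _)
  have p := fun k => add_pos_of_nonneg_of_pos (sg_nn S.toDk k x) (q.d0 j).1
  have t := fun k => (by linarith [ka_lt S.toDk m k] : -((1 - ka S.toDk m k) / 2) ≤ 0)
  obtain ⟨b1, b2⟩ := le_prod (f := fun k => (sg S.toDk k x + q.d j) ^ (-((1 - ka S.toDk m k) / 2)))
    fun k => Real.one_le_rpow_of_pos_of_le_one_of_nonpos (p k)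
      (by linarith [S.sml k x, (q.d0 j).2]) (t k)
  have b3 : Real.exp (-ww S a q m j x) ≤
      Real.exp (-(((m : ℝ) - 1) * a (q.e j) x)) * Real.exp (-lf S m (q.d j) x) := by
    rw [ww, neg_add, Real.exp_add]
    exact mul_le_mul_of_nonneg_right (Real.exp_le_exp.2 (neg_le_neg
      (mul_le_mul_of_nonneg_left (tp_ge q j x).2 m0))) (Real.exp_pos _).le
  simp only [neg_add, Real.rpow_add (p _), Finset.prod_mul_distrib, ← exp_lf S m (q.d0 j).1,
    ← mul_assoc]
  exact ⟨b3.trans (le_mul_of_one_le_right (by positivity) b1), fun k s hs => mul_le_mul b3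
    ((Real.rpow_le_rpow_of_nonpos (p k) (by linarith) (t k)).trans (b2 k))
    (Real.rpow_nonneg (by linarith [p k]) _) (by positivity)⟩

theorem cvx (hm : 1 ≤ m) (ε : ℝ) {v : M.X → ℝ} (hv : M.Sm v) {s : ℝ} (hs : 0 < s) (x : M.X) :
    ((m : ℝ) - 1) * cu (oms S ε v) (lb S m) W x = ((m : ℝ) - 1) * ε * cu S.H (lb S m) W x +
      cu (M.hw (pm S m) + M.ric S.H + M.hs fun y => lf S m s y + ((m : ℝ) - 1) * v y) (lb S m) W x -
      cu (G19.rd S m s) (lb S m) W x := by
  rw [eq_sub_iff_add_eq, ← SG.cu_smul, ← SG.cu_smul, ← SG.cu_add, ← SG.cu_add]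
  refine Fl.cu_congr (fun e he z hz => ?_) _ _ _
  have a0 := (aLAM n M _ _ _ (met S) (pm_wt S m)).2.2
  have h1 := G19.cv (S := S) hm hs e he z hz
  have h2 := ((a0 _).1 (lf_sm S m hs)).2 e he z hz
  have h3 := ((a0 _).1 ((lf_sm S m hs).add (hv.const_mul ((m : ℝ) - 1)))).2 e he z hz
  have h4 := (((aLAM n M _ _ _ (met S) ((a0 _).1 (lf_sm S m hs)).1).2.2 _).1
    (hv.const_mul ((m : ℝ) - 1))).2 e he z hz
  have h5 := ((mLAP n M _ _ hv hv).1 ((m : ℝ) - 1) e he z hz).2.2.2.1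
  beta_reduce at h2 h3 h4
  rw [G19.aw_aw, h3, h5] at h4
  simp only [oms, Pi.add_apply, Pi.smul_apply, Pi.sub_apply] at h1 ⊢
  rw [add_right_comm (M.hw (pm S m) e z), h4, add_right_comm (M.hw _ e z), h1]
  module

theorem step (hZ : Zs S a) (q : Sq) (hm : 2 ≤ m) (hW : Nt S m W) (hP : Wp S a q m (up S m W)) :
    ∃ C : ℝ, 0 ≤ C ∧ ∀ (ε : ℝ) (v : M.X → ℝ), 0 ≤ ε → M.Sm v → M.Le 0 (oms S ε v) →
      ∀ d ∈ Ioc (0 : ℝ) (1 / 2), ∃ A : ℝ, ∀ R : ℝ, 2 ≤ R →
        ∫ x, Real.exp (-lf S m d x) * cu (oms S ε v) (lb S m) W x ∂M.mu S.H ≤ C * ε + A / R := by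
  have m1 : 1 ≤ m := by omega
  obtain ⟨μ, hμ⟩ : ∃ μ : ℝ, μ = (m : ℝ) - 1 := ⟨_, rfl⟩
  have m0 : 0 < μ := by
    have : (2 : ℝ) ≤ m := by exact_mod_cast hm
    linarith
  have it := (mMU n M _ (met S)).2.2.2.2.1
  have cU := fun θ hθ => aCU n M S.H θ _ _ W (met S) hθ (pm_wt S m) hW.sec
  obtain ⟨Z, C0, c0, hZj⟩ := maj hZ q m1
  obtain ⟨K, hK⟩ := isCompact_univ.exists_bound_of_continuousOn
    (cU _ (met S).toTen).2.1.continuousOn
  obtain ⟨C1, c1, h1⟩ := lo1 hW.sec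
  choose C2 c2 h2 using ctb hW
  obtain ⟨χ, χs, χ0, χ1, χ2, χ3, -⟩ := A23.chi0
  obtain ⟨κ, hκ⟩ : ∃ κ : ℝ, κ = ∏ k, (1 / 2 : ℝ) ^ fl S.toDk m k := ⟨_, rfl⟩
  have κ0 : 0 < κ := hκ ▸ Finset.prod_pos fun k _ => by positivity
  refine ⟨2 * |K| * C0 / κ, by positivity, fun ε v hε hv hle d hd => ?_⟩
  obtain ⟨C3, c3, h3⟩ := pbv hW (hv.const_mul μ)
  obtain ⟨-, cθ, lθ⟩ := cU _ (oms_clo S ε hv).toTen
  have θ0 : ∀ x, 0 ≤ cu (oms S ε v) (lb S m) W x := fun x => by
    simpa using lθ 0 le_rfl (by simpa using hle) x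
  have cy : Continuous fun x => Real.exp (-lf S m d x) * cu (oms S ε v) (lb S m) W x :=
    (lf_sm S m hd.1).continuous.neg.rexp.mul cθ
  obtain ⟨B, hB⟩ := isCompact_univ.exists_bound_of_continuousOn cy.continuousOn
  obtain ⟨T, hT⟩ : ∃ T : ℝ, T = ∑ k, ((1 - ka S.toDk m k) / 2)⁻¹ := ⟨_, rfl⟩
  have t0 : ∀ k, 0 < (1 - ka S.toDk m k) / 2 := fun k => by linarith [ka_lt S.toDk m k]
  have T0 : 0 ≤ T := hT ▸ Finset.sum_nonneg fun k _ => (inv_pos.2 (t0 k)).le
  have s2 : 0 ≤ ∑ k, C2 k := Finset.sum_nonneg fun k _ => c2 k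
  refine ⟨(2 * (C1 * Fintype.card I) + κ * μ * (|B| * T) + 2 * (C3 * ∑ k, C2 k)) * C0 / (κ * μ),
    fun R hR => ?_⟩
  have R0 : 0 < R := by linarith
  obtain ⟨s, hs⟩ : ∃ s : ℝ, s = Real.exp (-(3 * R)) / R := ⟨_, rfl⟩
  have s0 : 0 < s := hs ▸ by positivity
  have sR : s * R = Real.exp (-(3 * R)) := by rw [hs]; field_simp
  have s1 : s ≤ 1 / 2 := by
    have := Real.exp_le_one_iff.2 (by linarith : -(3 * R) ≤ 0)
    nlinarith
  have p := fun k x => add_pos_of_nonneg_of_pos (sg_nn S.toDk k x) s0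
  have l0 := lsg_le S ⟨s0, s1⟩
  obtain ⟨l, hl⟩ : ∃ l : M.X → ℝ, l = fun x => ∑ k, Real.log (sg S.toDk k x + s) := ⟨_, rfl⟩
  have sl : M.Sm l := hl ▸ Mf.Sm.sum fun k _ => lsg_sm S.toDk s0 k
  have χd : ContDiff ℝ ∞ (deriv χ) := (contDiff_infty_iff_deriv.1 χs).2
  have gs : ContDiff ℝ ∞ fun t => deriv χ (t / R + 2) :=
    χd.comp ((contDiff_id.div_const R).add contDiff_const)
  have gd : ∀ t, HasDerivAt (fun t => deriv χ (t / R + 2)) (deriv (deriv χ) (t / R + 2) / R) t :=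
    fun t => by
      simpa only [Function.comp_def, id, ← div_eq_mul_one_div] using
        ((χd.differentiable (by simp)) (t / R + 2)).hasDerivAt.comp t
          (((hasDerivAt_id t).div_const R).add_const 2)
  obtain ⟨ρ, hρ⟩ : ∃ ρ : M.X → ℝ, ρ = fun x => deriv χ (l x / R + 2) := ⟨_, rfl⟩
  have sρ : M.Sm ρ := hρ ▸ sl.comp (φ := fun t => deriv χ (t / R + 2)) fun x => gs.contDiffAt
  have ρ1 : ∀ x, 0 ≤ ρ x ∧ ρ x ≤ 1 := fun x => hρ ▸ χ1 _
  have ρ2 : ∀ x, ρ x = 0 ∨ ∀ k, s * R ≤ sg S.toDk k x + s := fun x => by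
    refine (lt_or_ge (l x / R + 2) (-1)).imp (fun h => ?_) fun h k => ?_
    · rw [hρ]
      exact (EventuallyEq.deriv_eq ((gt_mem_nhds h).mono fun t ht => χ0 t ht.le)).trans
        (deriv_const _ _)
    · have b1 : -3 * R ≤ l x := (le_div_iff₀ R0).1 (by linarith)
      have b2 := Finset.single_le_sum (f := fun k => -Real.log (sg S.toDk k x + s))
        (fun k _ => neg_nonneg.2 (l0 k x)) (Finset.mem_univ k)
      rw [Finset.sum_neg_distrib] at b2
      rw [hl] at b1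
      rw [sR, ← Real.le_log_iff_exp_le (p k x)]
      linarith
  have ρ3 : ∀ x, 1 ≤ 2 * ρ x + -l x / R := fun x => by
    have b0 : 0 ≤ -l x / R :=
      div_nonneg (neg_nonneg.2 (hl ▸ Finset.sum_nonpos fun k _ => l0 k x)) R0.le
    rcases le_total (-l x / R) 1 with h | h
    · have := χ3 (l x / R + 2) (by rw [neg_div] at h; linarith)
      rw [hρ]
      linarith
    · linarith [(ρ1 x).1]
  obtain ⟨U, hU⟩ : ∃ U, U = (oP S.H (aw M (pm S m) fun y => lf S m s y + μ * v y)).ap W := ⟨_, rfl⟩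
  have sΨ := (lf_sm S m s0).add (hv.const_mul μ)
  have U1 := aSP n M _ _ _ W (met S) (((aLAM n M _ _ _ (met S) (pm_wt S m)).2.2 _).1 sΨ).1
    ⟨hW.sec.sm, hW.sec.cmp⟩
  rw [← hU] at U1
  have U2 : (lb S m).Sec U := ⟨U1.sm, U1.cmp⟩
  have U3 : (lb S m).Sec (mf ρ U) := CUT.sec_mul sρ U2
  have lim := hP _ (up_sec S U3) ⟨{x | ∀ k, s ≤ sg S.toDk k x}, ⟨IsClosed.isCompact (by
      rw [ofPred_forall]
      exact isClosed_iInter fun k => isClosed_le continuous_const (sg_sm _ k).continuous),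
    fun x hx k => (s0.trans_le (hx k)).ne'⟩, fun x hx => by
      have := (ρ2 x).resolve_right fun h => hx fun k => by nlinarith [h k]
      simp only [Mf.ev, up, mf, Mf.ch_symm, this, Complex.ofReal_zero, zero_smul, smul_zero]⟩
  have dt : Tendsto q.d atTop (𝓝 0) := by simpa using q.dt 0 1 one_pos
  have lim2 := ((((Complex.continuous_re.tendsto _).comp lim).const_mul (-2)).add_const
    ((2 * (μ * ε * |K|) + (2 * (C1 * Fintype.card I) + κ * μ * (|B| * T) +
      2 * (C3 * ∑ k, C2 k)) / R) * C0)).div_const (κ * μ)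
  refine (ge_of_tendsto lim2 ?_).trans_eq (by
    rw [Complex.zero_re]
    field_simp
    ring)
  filter_upwards [Nat.hyperfilter_le_atTop (dt.eventually (ge_mem_nhds (lt_min s0 hd.1)))]
    with j hj
  have j1 : q.d j ≤ s := (le_min_iff.1 hj).1
  have j2 : q.d j ≤ d := (le_min_iff.1 hj).2
  have d0 := (q.d0 j).1
  obtain ⟨cZ, iZ, bZ⟩ := hZj j
  obtain ⟨G, hG⟩ : ∃ G : M.X → ℝ,
    G = fun x => Real.exp (-(((m : ℝ) - 1) * pj S a q j x)) * fa S m x := ⟨_, rfl⟩
  have sG : M.Sm G := hG ▸ ((pj_sm hZ q j).const_mul _).neg.exp.mul (fa_sm S m)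
  have G0 : ∀ x, 0 ≤ G x := fun x => hG ▸ mul_nonneg (Real.exp_pos _).le (fa_nn S m x)
  have G1 : ∀ x, G x ≤ Real.exp (-ww S a q m j x) := fun x => hG ▸ fa_pj_le S q m1 j x
  have e1 : ∀ x, (Real.exp (-(((m : ℝ) - 1) * pj S a q j x)) : ℂ) *
      (lk S.H m).pp ((oQ S.H).ap (up S m (mf ρ U))) (up S m W) x =
      (G x : ℂ) * (lb S m).pp ((oQ S.H).ap (mf ρ U)) W x := fun x => by
    rw [hG, Complex.ofReal_mul, mul_assoc, ← pp_up]
    simp only [Bun.pp, Mf.ev_congr (q_up S U3.sm)]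
  have k := ibp S.kae (pm_wt S m) hW.sec hW.hol sΨ sρ sG
  rw [← hU] at k
  have cΨ := (cU _ (((pm_wt S m).clo.toTen.add ((mHES n M).2.2.2.2.2.2.2.2.1 _ (met S)).toTen).add
    ((mHES n M).1 _ sΨ).toTen)).2.1
  have i1 := it ℝ (fun x => ρ x * G x * cu (M.hw (pm S m) + M.ric S.H +
    M.hs fun y => lf S m s y + μ * v y) (lb S m) W x) ((sρ.mul sG).continuous.mul cΨ)
  have i2 := it ℝ _ cZ
  have b1 := integral_mono ((it ℝ _ cy).const_mul (κ * μ)) ((i1.const_mul 2).add (i2.const_mul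
    (2 * (μ * ε * |K|) + (2 * (C1 * Fintype.card I) + κ * μ * (|B| * T)) / R))) fun x => by
      obtain ⟨z1, z2⟩ := bZ x
      have w1 := Real.one_le_exp (neg_nonneg.2 (ww_le hZ q m1 j x))
      have y0 := θ0 x
      have y1 := cvx (S := S) (W := W) m1 ε hv s0 x
      have y2 := ((le_abs_self _).trans (hK x trivial)).trans (le_abs_self K)
      have y3 := ((le_abs_self _).trans (hB x trivial)).trans (le_abs_self B)
      have y4 : -l x ≤ T * Z j x := by
        rw [hl, hT, Finset.sum_mul, ← Finset.sum_neg_distrib]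
        refine Finset.sum_le_sum fun k _ => ?_
        have := Real.log_le_rpow_div (inv_pos.2 (p k x)).le (t0 k)
        rw [Real.log_inv, Real.inv_rpow (p k x).le, ← Real.rpow_neg (p k x).le,
          div_eq_inv_mul] at this
        exact this.trans (mul_le_mul_of_nonneg_left ((le_mul_of_one_le_left
          (Real.rpow_nonneg (p k x).le _) w1).trans (z2 k s j1)) (inv_pos.2 (t0 k)).le)
      have y5 : ρ x * (κ * Real.exp (-lf S m d x)) ≤ ρ x * G x ∧
          ρ x * ∑ k, s / (sg S.toDk k x + s) ≤ Fintype.card I / R := by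
        rcases ρ2 x with h | h
        · rw [h, zero_mul, zero_mul, zero_mul]
          exact ⟨le_rfl, by positivity⟩
        refine ⟨mul_le_mul_of_nonneg_left ?_ (ρ1 x).1, (mul_le_of_le_one_left
          (Finset.sum_nonneg fun k _ => (div_pos s0 (p k x)).le) (ρ1 x).2).trans ?_⟩
        · rw [hG]
          beta_reduce
          rw [fa_pj S q m1, mul_comm, hκ]
          refine mul_le_mul (Real.exp_le_exp.2 (neg_le_neg ?_)) (Finset.prod_le_prod
            (fun k _ => by positivity) fun k _ => pow_le_pow_left₀ (by norm_num) ?_ _)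
            (by positivity) (Real.exp_pos _).le
          · refine (add_le_of_nonpos_left (mul_nonpos_of_nonneg_of_nonpos (hμ ▸ m0.le)
              (tp_le hZ q j x))).trans (Finset.sum_le_sum fun k _ => mul_le_mul_of_nonneg_left
                (Real.log_le_log (add_pos_of_nonneg_of_pos (sg_nn _ k x) d0) (by linarith))
                (ka_nn _ m k))
          · rw [le_div_iff₀ (add_pos_of_nonneg_of_pos (sg_nn _ k x) d0)]
            nlinarith [h k]
        · rw [div_eq_mul_inv, ← nsmul_eq_mul, ← Finset.card_univ, ← Finset.sum_const]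
          refine Finset.sum_le_sum fun k _ => ?_
          rw [div_le_iff₀ (p k x), le_inv_mul_iff₀ R0, mul_comm]
          exact h k
      have y6 := h1 s s0 x
      have y7 := ρ3 x
      obtain ⟨r0, r1⟩ := ρ1 x
      have g0 := G0 x
      have g1 := (G1 x).trans z1
      rw [← hμ] at y1
      simp only [Pi.add_apply, Pi.mul_apply] at y3 ⊢
      generalize cu (oms S ε v) (lb S m) W x = c at *
      generalize cu S.H (lb S m) W x = cH at *
      generalize cu (G19.rd S m s) (lb S m) W x = cR at *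
      generalize cu (M.hw (pm S m) + M.ric S.H + M.hs fun y => lf S m s y + μ * v y) (lb S m) W x =
        cP at *
      have e0 := Real.exp_pos (-lf S m d x)
      generalize Real.exp (-lf S m d x) = e at *
      generalize ∑ k, s / (sg S.toDk k x + s) = σ at *
      have n0 : 0 ≤ e * c := by positivity
      have n1 : e * c ≤ 2 * ρ x * (e * c) + T * Z j x / R * |B| := by
        have := mul_le_mul_of_nonneg_right y7 n0
        have := mul_le_mul (div_le_div_of_nonneg_right y4 R0.le) y3 n0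
          (div_nonneg (mul_nonneg T0 (g0.trans g1)) R0.le)
        linarith
      have n2 := mul_le_mul_of_nonneg_right y5.1 (mul_nonneg m0.le y0)
      have n3 : ρ x * G x ≤ Z j x := (mul_le_of_le_one_left g0 r1).trans g1
      have n4 := mul_le_mul_of_nonneg_left ((mul_le_mul_of_nonneg_left y2 (mul_nonneg r0 g0)).trans
        (mul_le_mul_of_nonneg_right n3 (abs_nonneg K))) (mul_nonneg m0.le hε)
      have n5 := mul_le_mul_of_nonneg_left y6 (mul_nonneg r0 g0)
      have n6 := mul_le_mul_of_nonneg_left ((mul_le_mul_of_nonneg_left y5.2 g0).trans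
        (mul_le_mul_of_nonneg_right g1 (by positivity))) c1
      have n7 := mul_le_mul_of_nonneg_left n1 (mul_pos κ0 m0).le
      have n8 := congrArg (ρ x * G x * ·) y1
      simp only [div_eq_mul_inv] at n6 n7 n8 ⊢
      linarith
  have s4 := ct_sec (met S) (pm_wt S m) hW.sec sρ
  have b2 := integral_mono (it ℝ (fun x => G x * ((lb S m).pp U (ct M ρ W) x).re)
    (sG.continuous.mul ((lb_ok S m).pp_rep U2 s4).2.re.continuous))
    (i2.const_mul (C3 * (∑ k, C2 k) / R)) fun x => by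
      obtain ⟨-, z2⟩ := bZ x
      have e : ((lb S m).pp U (ct M ρ W) x).re = deriv (deriv χ) (l x / R + 2) / R *
          ∑ k, ((lb S m).pp U (ct M (fun y => Real.log (sg S.toDk k y + s)) W) x).re := by
        have u1 := ct_comp sl (gd (l x)) W
        have u2 := ct_sum (V := W) Finset.univ (lsg_sm S.toDk s0) x
        rw [← hl] at u2
        rw [← hρ, u2] at u1
        simp only [Bun.pp, u1, Matrix.mulVec_smul, dotProduct_smul, smul_eq_mul,
          Complex.re_ofReal_mul, Matrix.mulVec_sum, dotProduct_sum, Complex.re_sum]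
      have b : G x * ∑ k, ((lb S m).pp U (ct M (fun y => Real.log (sg S.toDk k y + s)) W) x).re ≤
          C3 * (∑ k, C2 k) * Z j x := by
        rw [Finset.mul_sum, Finset.mul_sum, Finset.sum_mul]
        refine Finset.sum_le_sum fun k _ => ?_
        have r := Real.rpow_nonneg (p k x).le (-((1 - ka S.toDk m k) / 2))
        have := (le_abs_self _).trans ((pcs ⟨S.H, _, met S, lb_ok S m⟩ U _ x).trans
          (mul_le_mul (hU ▸ h3 s s0 x) (h2 k s ⟨s0, s1⟩ x) (Real.sqrt_nonneg _) c3))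
        have := mul_le_mul_of_nonneg_left this (G0 x)
        have := mul_le_mul_of_nonneg_left ((mul_le_mul_of_nonneg_right (G1 x) r).trans (z2 k s j1))
          (mul_nonneg c3 (c2 k))
        linarith
      obtain ⟨x0, x1⟩ := χ2 (l x / R + 2)
      have := mul_le_mul_of_nonneg_left b (div_nonneg x0 R0.le)
      have := mul_le_mul_of_nonneg_right (div_le_div_of_nonneg_right x1 R0.le)
        (mul_nonneg (mul_nonneg c3 s2) (((G0 x).trans (G1 x)).trans (bZ x).1))
      beta_reduce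
      rw [e]
      simp only [div_eq_mul_inv] at *
      linarith
  rw [integral_add' (i1.const_mul _) (i2.const_mul _), integral_const_mul, integral_const_mul,
    integral_const_mul, k] at b1
  rw [integral_const_mul] at b2
  have b3 := mul_le_mul_of_nonneg_left iZ (show 0 ≤ 2 * (μ * ε * |K|) + (2 * (C1 * Fintype.card I) +
    κ * μ * (|B| * T) + 2 * (C3 * ∑ k, C2 k)) / R by positivity)
  simp only [Function.comp, e1]
  rw [le_div_iff₀' (mul_pos κ0 m0)]
  simp only [div_eq_mul_inv, Pi.mul_apply] at b1 b2 b3 ⊢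
  linarith

end W71

theorem lb3 : St_LB3 := fun _ _ _ _ _ _ _ q _ _ hZ hm hW hP => by
  obtain ⟨C, C0, h⟩ := W71.step hZ q hm hW hP
  refine ⟨C, C0, fun ε v hε hv hle d hd => ?_⟩
  obtain ⟨A, hA⟩ := h ε v hε hv hle d hd
  have t := (tendsto_const_nhds (x := A).div_atTop (tendsto_id (α := ℝ))).const_add (C * ε)
  rw [add_zero] at t
  exact ge_of_tendsto t ((eventually_ge_atTop 2).mono hA)

end Pool.Agent.Lib.N4S
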