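import Pool.Agent.Lib.NU4.Blue
import Pool.Agent.Lib.NU4.Flip71a
import Pool.Agent.Lib.KS.Blue

/-! Project n4s: resolutions of terminal minimal models; the data, the bundles, the weights and the
classes of multivectors. -/

open scoped Classical Topology ContDiff ComplexOrder Matrix
open Set Filter MeasureTheory

set_option linter.unusedVariables false

noncomputable section

namespace Pool.Agent.Lib.N4S

open Pool.Agent.Lib.SV (E)
open Pool.Agent.Lib.HS32 Pool.Agent.Lib.HLK Pool.Agent.Lib.F4 Pool.Agent.Lib.NU4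
open Pool.Agent.Lib.K3E (kan wk lk)
open Pool.Agent.Lib.K3S (Dk)
open Pool.Agent.Lib.EXH (aw)

variable {n : ℕ} {M : Mf n} {I : Type} [Fintype I]

/-! ### The data -/

section dk

variable (D : Dk M I)

/-- The squared norm of the equation of a divisor. -/
def sg (k : I) : M.X → ℝ := M.nrC (D.φ k) (D.f k)

/-- The complement of the divisors. -/
def Of : Set M.X := {x | ∀ k, sg D k x ≠ 0}

/-- The discrepancy. -/
def al (k : I) : ℝ := (D.a k : ℝ) / D.c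

/-- The integral part at the level `m`. -/
def fl (m : ℕ) (k : I) : ℕ := (m - 1) * D.a k / D.c

/-- The fractional part at the level `m`. -/
def ka (m : ℕ) (k : I) : ℝ := (((m - 1) * D.a k % D.c : ℕ) : ℝ) / D.c

/-- The product of the powers of the norms. -/
def pw (t : ℝ) (x : M.X) : ℝ := ∏ k, sg D k x ^ (t * al D k)

/-- Holomorphic sections of `j K` over `O`. -/
structure Hs (O : Set M.X) (j : ℕ) (t : M.Fam ℂ) : Prop where
  hol : M.All fun e z => e.symm z ∈ O → HolN (t e) z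
  cmp : M.Ov fun e e' x => x ∈ O → t e' (e' x) = jd M e e' x ^ j * t e (e x)

/-- The local model near `x`. -/
structure Lm (u : M.X → ℝ) (x : M.X) where
  W : Set M.X
  r : ℕ
  g : Fin r → M.X → ℂ
  o : M.Fam ℂ
  F : (Fin r → ℂ) → ℝ
  opn : IsOpen W
  mem : x ∈ W
  hg : ∀ i, Hs W 0 fun e z => g i (e.symm z)
  ho : M.All fun e z => e.symm z ∈ W → HolN (o e) z ∧ o e z ≠ 0
  law : M.Ov fun e e' y => y ∈ W →
    o e' (e' y) * ∏ k, (D.L k).c e e' y ^ D.a k = jd M e e' y ^ D.c * o e (e y)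
  sF : ∀ y ∈ W, ContDiffAt ℝ ∞ F fun i => g i y
  wt : M.All fun e z => e.symm z ∈ W →
    D.c * (Real.log (D.H e z).det.re - ∑ k, al D k * D.φ k e z + u (e.symm z)) =
      Real.log (Complex.normSq (o e z)) + F fun i => g i (e.symm z)
  bt : M.All fun e z => e.symm z ∈ W → ∀ v,
    nq (D.β e z) v ≤ ∑ i, Complex.normSq (gd (fun w => g i (e.symm w)) z ⬝ᵥ v)
  har : ∀ t, Hs (W ∩ Of D) 0 t →
    ∃ s, Hs W 0 s ∧ M.All fun e z => e.symm z ∈ W ∩ Of D → s e z = t e z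

end dk

variable (M I) in
/-- The data on the manifold layer. -/
structure Sd extends Dk M I where
  u : M.X → ℝ
  su : M.Sm u
  u0 : ∀ x, u x ≤ 0
  ap : ∀ k, 0 < a k
  sml : ∀ k x, sg toDk k x ≤ 1 / 2
  amp : KS.AmpM toDk
  snc : ∀ x, ∃ e ∈ M.C, x ∈ e.source ∧ ∀ k, f k e (e x) = 0 → ∃ v : E n, ∀ j, f j e (e x) = 0 →
    fderiv ℂ (f j e) (e x) v = if j = k then 1 else 0
  mod : ∀ x ∉ Of toDk, Nonempty (Lm toDk u x)

variable (S : Sd M I)

/-- The boundary form. -/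
def bf : M.Fam (Mat n) := M.hs S.u - ∑ k, al S.toDk k • M.hw (S.φ k)

/-- A form in the class of `N + ε H`. -/
def oms (ε : ℝ) (v : M.X → ℝ) : M.Fam (Mat n) := bf S - M.ric S.H + ε • S.H + M.hs v

/-- The potential, regularised by `d`. -/
def pot (v : M.X → ℝ) (d : ℝ) (x : M.X) : ℝ :=
  S.u x + v x + ∑ k, al S.toDk k * Real.log (sg S.toDk k x + d)

/-- The weight on `K` given by the potential. -/
def ph (v : M.X → ℝ) (d : ℝ) : M.Fam ℂ := fun e z => ld (S.H e) z + M.lc (pot S v d) e z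

/-- The bundle of the level `m`. -/
def Lb (m : ℕ) : M.Co where
  c e e' x := (kan M m).c e e' x * (∏ k, (S.L k).c e e' x ^ fl S.toDk m k)⁻¹
  hol e he e' he' x hx hx' := by
    have h1 : ∀ᶠ w in 𝓝 (e' x), ∀ k, DifferentiableAt ℂ (fun w => (S.L k).c e e' (e'.symm w)) w :=
      eventually_all.2 fun k => (S.L k).hol e he e' he' x hx hx'
    filter_upwards [(kan M m).hol e he e' he' x hx hx', h1,
      ((mTR n M).2.1 e he e' he' x hx hx').2.2.2.1] with w a b c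
    exact a.mul ((HasFDerivAt.finsetProd fun k _ =>
      ((b k).fun_pow _).hasFDerivAt).differentiableAt.inv (Finset.prod_ne_zero_iff.2 fun k _ =>
        pow_ne_zero _ ((S.L k).ne e he e' he' _ c.2.1 c.2.2.1)))
  ne e he e' he' x hx hx' := mul_ne_zero ((kan M m).ne e he e' he' x hx hx')
    (inv_ne_zero (Finset.prod_ne_zero_iff.2 fun k _ =>
      pow_ne_zero _ ((S.L k).ne e he e' he' x hx hx')))
  mul e he e' he' x hx hx' e'' he'' hx'' := by
    rw [(kan M m).mul e he e' he' x hx hx' e'' he'' hx'']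
    simp only [fun k => (S.L k).mul e he e' he' x hx hx' e'' he'' hx'', mul_pow,
      Finset.prod_mul_distrib, mul_inv]
    ring

/-- The weight of the bundle of the level `m`. -/
def pm (m : ℕ) : M.Fam ℝ := fun e z => wk S.H m e z - ∑ k, fl S.toDk m k * S.φ k e z +
  ((m : ℝ) - 1) * S.u (e.symm z)

/-- The multivectors of the level `m`. -/
abbrev lb (m : ℕ) : Bun M (Fs n) := lam S.H (Lb S m) (pm S m)

/-- The product with the equations of the divisors. -/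
def up (m : ℕ) (W : M.Fam (Fs n → ℂ)) : M.Fam (Fs n → ℂ) :=
  fun e z => (∏ k, S.f k e z ^ fl S.toDk m k) • W e z

/-- The fractional weight. -/
def lf (m : ℕ) (d : ℝ) (x : M.X) : ℝ := ∑ k, ka S.toDk m k * Real.log (sg S.toDk k x + d)

/-- Potentials with zero Lelong numbers. -/
structure Zs (a : ℝ → M.X → ℝ) : Prop where
  out : ZK47.Out M S.H (bf S) a
  itg : ∀ p : ℝ, 0 < p → ∃ C : ℝ, ∀ ε ∈ Ioc (0 : ℝ) 1,
    ∫ x, Real.exp (-(p * a ε x)) ∂M.mu S.H ≤ C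

/-- The parameters of the truncation. -/
structure Sq where
  e : ℕ → ℝ
  d : ℕ → ℝ
  N : ℕ → ℝ
  χ : ℕ → ℝ → ℝ
  K : ℝ
  e0 : ∀ j, e j ∈ Ioc (0 : ℝ) 1
  d0 : ∀ j, d j ∈ Ioc (0 : ℝ) (1 / 2)
  N1 : ∀ j, 1 ≤ N j
  Nt : Tendsto N atTop atTop
  et : ∀ p : ℝ, Tendsto (fun j => Real.exp (p * N j) * e j) atTop (𝓝 0)
  dt : ∀ p δ : ℝ, 0 < δ → Tendsto (fun j => Real.exp (p * N j) * d j ^ δ) atTop (𝓝 0)
  sm : ∀ j, ContDiff ℝ ∞ (χ j)
  id : ∀ j t, -N j ≤ t → χ j t = t ∧ deriv (χ j) t = 1 ∧ deriv (deriv (χ j)) t = 0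
  lo : ∀ j t, -N j - 1 ≤ χ j t ∧ t ≤ χ j t ∧ χ j t ≤ max t (-N j)
  d1 : ∀ j t, 0 ≤ deriv (χ j) t ∧ deriv (χ j) t ≤ 1
  d2 : ∀ j t, 0 ≤ deriv (deriv (χ j)) t ∧ deriv (deriv (χ j)) t ≤ K
  cs : ∀ j t, t ≤ -N j - 1 → deriv (χ j) t = 0 ∧ deriv (deriv (χ j)) t = 0

variable (a : ℝ → M.X → ℝ) (q : Sq)

/-- The truncated potentials. -/
def tp (j : ℕ) (x : M.X) : ℝ := q.χ j (a (q.e j) x)

/-- The weights on the bundle of the level `m`. -/
def ww (m j : ℕ) (x : M.X) : ℝ := ((m : ℝ) - 1) * tp a q j x + lf S m (q.d j) x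

/-- The bundle of the level `m` with the weight number `j`. -/
abbrev lj (m j : ℕ) : Bun M (Fs n) := lam S.H (Lb S m) (aw M (pm S m) (ww S a q m j))

/-- The potential number `j`. -/
abbrev pj (j : ℕ) : M.X → ℝ := pot S (tp a q j) (q.d j)

/-! ### The classes -/

/-- Compact subsets of the complement of the divisors. -/
def Cp (K : Set M.X) : Prop := IsCompact K ∧ K ⊆ Of S.toDk

/-- Multivectors with values in `m K`, holomorphic off the divisors. -/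
structure HO (m : ℕ) (T : M.Fam (Fs n → ℂ)) : Prop where
  hol : M.All fun e z => e.symm z ∈ Of S.toDk → HolV (T e) z
  cmp : M.Ov fun e e' x => x ∈ Of S.toDk →
    T e (e x) = (jd M e e' x ^ m)⁻¹ • La (M.J e e' x) *ᵥ T e' (e' x)

/-- Tangent to the divisor number `k`. -/
def Tk (k : I) (W : M.Fam (Fs n → ℂ)) : Prop :=
  M.All fun e z => S.f k e z = 0 → anv (gd (S.f k e) z) *ᵥ W e z = 0

/-- A field that is tangent to all divisors. -/
def Tg (V : M.Fam (E n)) : Prop := ∀ k, M.All fun e z => S.f k e z = 0 → dir (V e) (S.f k e) z = 0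

/-- The forms close to the class `N` are small on `T`. -/
def Sm0 (m : ℕ) (T : M.Fam (Fs n → ℂ)) : Prop := ∃ C : ℝ, 0 ≤ C ∧ ∀ (ε : ℝ) (v : M.X → ℝ),
  0 ≤ ε → M.Sm v → M.Le 0 (oms S ε v) → ∫ x, cu (oms S ε v) (lk S.H m) T x ∂M.mu S.H ≤ C * ε

/-- Some of the given forms are small on `T`. -/
def N0s (m : ℕ) (T : M.Fam (Fs n → ℂ)) : Prop := ∀ η : ℝ, 0 < η →
  ∃ ε ∈ Ioc (0 : ℝ) 1, ε ≤ η ∧ ∫ x, cu (oms S ε (a ε)) (lk S.H m) T x ∂M.mu S.H ≤ η

/-- The smallness with the fractional weight. -/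
def Smw (m : ℕ) (W : M.Fam (Fs n → ℂ)) : Prop := ∃ C : ℝ, 0 ≤ C ∧ ∀ (ε : ℝ) (v : M.X → ℝ),
  0 ≤ ε → M.Sm v → M.Le 0 (oms S ε v) → ∀ d ∈ Ioc (0 : ℝ) (1 / 2),
    ∫ x, Real.exp (-lf S m d x) * cu (oms S ε v) (lb S m) W x ∂M.mu S.H ≤ C * ε

/-- Holomorphic sections of the level `m` that are tangent to the fractional part. -/
structure Nt (m : ℕ) (W : M.Fam (Fs n → ℂ)) : Prop where
  sec : (lb S m).Sec W
  hol : Hol W
  tan : ∀ k, 0 < ka S.toDk m k → Tk S k W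

/-- The class of the level `m`. -/
structure Nw (m : ℕ) (W : M.Fam (Fs n → ℂ)) : Prop extends Nt S m W where
  sml : Smw S m W

/-- The class of the level `m`, with values in `m K`. -/
def Nn (m : ℕ) (T : M.Fam (Fs n → ℂ)) : Prop :=
  ∃ W, Nw S m W ∧ M.All fun e z => T e z = up S m W e z

/-- The weighted divergence. -/
abbrev Pd (m j : ℕ) (T : M.Fam (Fs n → ℂ)) : M.Fam (Fs n → ℂ) :=
  (oP S.H (wt M S.H m (pj S a q j))).ap T

/-- Weakly parallel off the divisors. -/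
def Wp (m : ℕ) (T : M.Fam (Fs n → ℂ)) : Prop := ∀ y, (lk S.H m).Sec y →
  (∃ K, Cp S K ∧ ∀ x ∉ K, M.ev y x = 0) → Tendsto (fun j =>
    ∫ x, (Real.exp (-(((m : ℝ) - 1) * pj S a q j x)) : ℂ) *
      (lk S.H m).pp ((oQ S.H).ap y) T x ∂M.mu S.H) (hyperfilter ℕ) (𝓝 0)

/-- Parallel in the mean. -/
def Pr1 (m : ℕ) (T : M.Fam (Fs n → ℂ)) : Prop := ∀ c : ℝ, Tendsto (fun j =>
  ∫ x, Real.exp (-(c * tp a q j x)) * √((lk S.H m).pn (Pd S a q m j T) x) ∂M.mu S.H) atTop (𝓝 0)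

/-- The weighted divergences of `T` tend to `R` off the divisors. -/
def Lq (m : ℕ) (T R : M.Fam (Fs n → ℂ)) : Prop := ∀ K, Cp S K → ∀ c : ℝ, Tendsto (fun j =>
  ∫ x in K, Real.exp (-(c * tp a q j x)) * √((lk S.H m).pn (Pd S a q m j T - R) x) ∂M.mu S.H)
    atTop (𝓝 0)

/-- The derivatives of the weights along the field `W` of level `m` tend to `δ`. -/
structure Fd (m : ℕ) (W : M.Fam (E n)) (δ : M.Fam ℂ) : Prop where
  ht : HT M m W
  hol : M.All fun e z => e.symm z ∈ Of S.toDk → HolN (δ e) z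
  cmp : M.Ov fun e e' x => x ∈ Of S.toDk → δ e' (e' x) - a0 M S.H W e' (e' x) =
    jd M e e' x ^ m * (δ e (e x) - a0 M S.H W e (e x))
  lim : ∀ K, Cp S K → ∀ c : ℝ, Tendsto (fun j => ∫ x in K, Real.exp (-(c * tp a q j x)) *
    M.ev (fun e z => ‖dir (W e) (ph S (tp a q j) (q.d j) e) z - δ e z‖ /
      √((S.H e z).det.re ^ m)) x ∂M.mu S.H) atTop (𝓝 0)

/-- The derivative of the model weight along a tangent field of level one. -/
structure B0 (V : M.Fam (E n)) (b : M.Fam ℂ) : Prop where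
  sm : M.All fun e z => ContDiffAt ℝ ∞ (b e) z
  eq : M.All fun e z => e.symm z ∈ Of S.toDk → b e z = dir (V e) (ph S 0 0 e) z
  sec : M.Sec 1 (b - a0 M S.H V)

/-- The obstruction at level two. -/
structure Ob (V : M.Fam (E n)) (b : M.Fam ℂ) (x : M.Fam (Fs n → ℂ)) : Prop where
  sec : (lb S 2).Sec x
  deg : DgM M 1 x
  cl : Zr M ((oQ S.H).ap x)
  eq : M.All fun e z => up S 2 x e z = (oQ S.H).ap (fun e z => NU4.qq (V e) (b e) z • vac n) e z

/-- Sums of products of a smooth function on the model and of a holomorphic section, over `O`. -/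
def Gc {x : M.X} (P : Lm S.toDk S.u x) (O : Set M.X) (j : ℕ) (t : M.Fam ℂ) : Prop :=
  ∃ (N : ℕ) (ψ : Fin N → (Fin P.r → ℂ) → ℂ) (τ : Fin N → M.Fam ℂ),
    (∀ i, (∀ y ∈ P.W, ContDiffAt ℝ ∞ (ψ i) fun l => P.g l y) ∧ Hs (P.W ∩ Of S.toDk) j (τ i)) ∧
    M.All fun e z => e.symm z ∈ P.W ∩ Of S.toDk → e.symm z ∈ O →
      t e z = ∑ i, ψ i (fun l => P.g l (e.symm z)) * τ i e z

/-- The bound given by the model metric, near `x`. -/
def Bd (x : M.X) (O : Set M.X) (j : ℕ) (t : M.Fam ℂ) : Prop := ∃ C : ℝ, ∀ᶠ y in 𝓝 x,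
  y ∈ Of S.toDk → y ∈ O → ∀ e ∈ M.C, y ∈ e.source →
    ‖t e (e y)‖ ^ 2 ≤ C * (S.H e (e y)).det.re ^ j * pw S.toDk j y

/-! ### Admissible weights -/

variable (M) in
/-- Weights with almost positive curvature and without concentration. -/
structure Adm (H : M.Fam (Mat n)) (L : M.Co) (φ : M.Fam ℝ) (w : ℕ → M.X → ℝ) : Prop where
  wt : M.WtC L φ
  sm : ∀ j, M.Sm (w j)
  le : ∀ j x, w j x ≤ 0
  bd : ∃ C : ℝ, ∀ j, ∫ x, Real.exp (-w j x) ∂M.mu H ≤ C
  nc : ∀ η : ℝ, 0 < η → ∃ C : ℝ, 0 ≤ C ∧ ∀ j W, (lam H L φ).Sec W →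
    (lam H L (aw M φ (w j))).nr H W ≤ η * (∫ x, gb H (lam H L (aw M φ (w j))) W x ∂M.mu H +
      (lam H L (aw M φ (w j))).nr H W) + C * (lam H L φ).nr H W
  ng : ∀ η : ℝ, 0 < η → ∀ᶠ j in atTop, ∀ W, (lam H L φ).Sec W →
    -(η * (∫ x, gb H (lam H L (aw M φ (w j))) W x ∂M.mu H + (lam H L (aw M φ (w j))).nr H W)) ≤
      ∫ x, cu (M.hw φ + M.ric H + M.hs (w j)) (lam H L (aw M φ (w j))) W x ∂M.mu H

end Pool.Agent.Lib.N4S
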