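import Pool.Agent.Lib.N4S.SDefs
import Pool.Agent.Lib.N4S.Defs
import Pool.Agent.Lib.KS.B_AMP
import Pool.Agent.Lib.KS.B_KEY
import Pool.Agent.Lib.KS.B_BR0

/-! Project n4s: from the data of the statement to the data on the manifold layer. -/

open scoped Classical Topology ContDiff ComplexOrder Matrix Manifold
open Set Filter Complex

noncomputable section

namespace Pool.Agent.Lib.N4S.BRG

open Pool.Agent.Lib.SV (E)
open Pool.Agent.Lib.HS32 Pool.Agent.Lib.HS.BBR Pool.Agent.Lib.RB.R32 Pool.Agent.Lib.KP.T6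
open Pool.Agent.Lib.KS
open Pool.Agent.Lib.KP (HolAt)
open Pool.Agent.Lib.K3S (Dk Ctr)
open Pool.Agent.Lib.EX (dAt)

variable {n m : ℕ}

theorem dual {J : Type} [Finite J] {l : J → E n →L[ℂ] ℂ} (h : LinearIndependent ℂ l) (k : J) :
    ∃ v, ∀ j, l j v = if j = k then 1 else 0 := by
  have h' := h.map' (ContinuousLinearMap.coeLM ℂ)
    (LinearMap.ker_eq_bot.2 ContinuousLinearMap.coe_injective)
  obtain ⟨v, v1, v2⟩ := SetLike.not_le_iff_exists.1 fun c => h'.notMem_span_image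
    (s := {j | j ≠ k}) (x := k) (by simp) (by
      rw [image_eq_range]
      exact mem_span_of_iInf_ker_le_ker (L := fun j : {j | j ≠ k} => (l j : E n →ₗ[ℂ] ℂ)) c)
  refine ⟨(l k v)⁻¹ • v, fun j => ?_⟩
  rw [map_smul]
  split_ifs with c
  · rw [c]
    exact inv_mul_cancel₀ v2
  · exact mul_eq_zero_of_right _ ((Submodule.mem_iInf _).1 v1 ⟨j, c⟩)

theorem hw_add {M : Mf n} (φ : M.Fam ℝ) (C : ℝ) : M.hw (fun e z => φ e z + C) = M.hw φ := by
  funext e z
  have : ∀ j, dz j (fun z => ((φ e z + C : ℝ) : ℂ)) = dz j fun z => (φ e z : ℂ) := fun j =>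
    funext fun w => by simp only [dz, ofReal_add, fderiv_add_const]
  simp only [Mf.hw, hess, this]

/-- The weights are shifted. -/
theorem shift {M : Mf n} [M.Cpt] {I : Type} [Fintype I] (D : Dk M I) : ∃ φ w q, ∀ k x,
    sg { D with φ := φ, wt := w, nef := q } k x ≤ 1 / 2 := by
  choose C hC using fun k => isCompact_univ.bddAbove_image
    ((D.wt k).nr_sm (D.hol k).toSecC).continuous.continuousOn
  refine ⟨fun k e z => D.φ k e z + 2 * C k, fun k => ⟨fun e he z hz =>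
    ((D.wt k).sm e he z hz).add contDiffAt_const, fun e he e' he' x hx hx' => ?_⟩, ?_,
    fun k x => ?_⟩
  · beta_reduce
    rw [(D.wt k).cmp e he e' he' x hx hx']
    ring
  · simpa only [hw_add] using D.nef
  · have h1 : M.nrC (D.φ k) (D.f k) x ≤ C k := hC k ⟨x, trivial, rfl⟩
    have h2 := Real.add_one_le_exp (2 * C k)
    change normSq (M.ev (D.f k) x) * Real.exp (-(M.ev (D.φ k) x + 2 * C k)) ≤ _
    rw [neg_add, Real.exp_add, ← mul_assoc, Real.exp_neg (2 * C k), ← div_eq_mul_inv,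
      div_le_iff₀ (Real.exp_pos _)]
    rw [Mf.nrC] at h1
    linarith

variable {X : Type} [TopologicalSpace X] [ChartedSpace (E n) X]
  {e e' : OpenPartialHomeomorph X (E n)} {x : X} {v : X → ℂ}

/-- The Jacobian determinant of the change to the preferred chart. -/
def jc (e : OpenPartialHomeomorph X (E n)) (y : X) : ℂ := (jm (chartAt (E n) y ∘ e.symm) (e y)).det

variable [IsManifold 𝓘(ℂ, E n) ω X]

theorem jc_ne (he : e ∈ (mf n X).C) (hx : x ∈ e.source) : jc e x ≠ 0 :=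
  ((mTR n (mf n X)).2.1 _ (HW.ch_mem x) e he x (mem_chart_source _ x) hx).2.1

theorem jc_mul (he : e ∈ (mf n X).C) (he' : e' ∈ (mf n X).C) (hx : x ∈ e.source)
    (hx' : x ∈ e'.source) : jc e' x = jc e x * (jm (e ∘ e'.symm) (e' x)).det :=
  (congrArg Matrix.det (((mTR n (mf n X)).2.1 _ (HW.ch_mem x) e he x (mem_chart_source _ x)
    hx).2.2.2.2 e' he' hx')).trans (Matrix.det_mul _ _)

theorem hol_m (he : e ∈ (mf n X).C) {z : E n} (hz : z ∈ e.target) (h : HolAt n m v (e.symm z)) :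
    DifferentiableAt ℂ (fun w => v (e.symm w) * jc e (e.symm w) ^ m) z := by
  obtain ⟨x, hx, rfl⟩ : ∃ x ∈ e.source, e x = z := ⟨_, e.map_target hz, e.right_inv hz⟩
  rw [e.left_inv hx] at h
  have h0 := mem_chart_source (E n) x
  obtain ⟨t1, -, -, t3, -⟩ := (mTR n (mf n X)).2.1 _ (HW.ch_mem x) e he x h0 hx
  change HolN (chartAt (E n) x ∘ e.symm) (e x) at t1
  have p : (chartAt (E n) x ∘ e.symm) (e x) = chartAt (E n) x x := by
    simp only [Function.comp_apply, e.left_inv hx]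
  rw [HolAt, ← p] at h
  refine ((h.comp _ t1.self_of_nhds).mul
    ((mCHN n _ _ t1).2.2.2.2.1.self_of_nhds.pow m)).congr_of_eventuallyEq (t3.mono fun z hz => ?_)
  have a1 : e.symm z ∈ (chartAt (E n) x).source := hz.2.1
  have a2 : z ∈ e.target := hz.1
  beta_reduce
  rw [jc_mul (HW.ch_mem x) he a1 (e.map_target a2)]
  simp only [Pi.mul_apply, Pi.pow_apply, Function.comp_apply, SV.jacAt,
    (chartAt (E n) x).left_inv a1, e.right_inv a2, BCHN.det_eq, jc]
  ring

theorem hol_0 (he : e ∈ (mf n X).C) {z : E n} (hz : z ∈ e.target) {W : Set X} (hW : IsOpen W)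
    (h : ∀ y ∈ W, HolAt n 0 v y) (h0 : e.symm z ∈ W) : HolN (fun w => v (e.symm w)) z :=
  mem_of_superset ((e.isOpen_inter_preimage_symm hW).mem_nhds ⟨hz, h0⟩) fun _ hw =>
    hol_chart (fun y => (he y).2) hw.1 (h _ hw.2)

theorem dat_one (he : e ∈ (mf n X).C) {z : E n} (hz : z ∈ e.target) (h : HolAt n 0 v (e.symm z))
    (w : E n) : dAt n v (e.symm z) (jm (chartAt (E n) (e.symm z) ∘ e.symm) z *ᵥ w) =
      F4.gd (fun w => v (e.symm w)) z ⬝ᵥ w := by
  have hy := mem_chart_source (E n) (e.symm z)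
  have e1 : (fun w => v (e.symm w)) =ᶠ[𝓝 z] (v ∘ (chartAt (E n) (e.symm z)).symm) ∘
      (chartAt (E n) (e.symm z) ∘ e.symm) := by
    filter_upwards [(e.isOpen_inter_preimage_symm (chartAt (E n) (e.symm z)).open_source).mem_nhds
      ⟨hz, hy⟩] with w hw
    simp only [Function.comp_apply, (chartAt (E n) (e.symm z)).left_inv hw.2]
  have e2 : F4.gd (fun w => v (e.symm w)) z ⬝ᵥ w = fderiv ℂ (fun w => v (e.symm w)) z w := by
    simp only [F4.gd, dotProduct, (mHOL n _ z).2.1 (hol_chart (fun y => (he y).2) hz h)]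
    conv_rhs => rw [pi_eq_sum_univ' w, map_sum]
    simp only [map_smul, smul_eq_mul, mul_comm]
  rw [e2, e1.fderiv_eq, fderiv_comp z (f := chartAt (E n) (e.symm z) ∘ e.symm)
    (g := v ∘ (chartAt (E n) (e.symm z)).symm) (hol0 h) ((he (e.symm z)).2.at hz hy),
    ← BCHN.fderiv_mulVec]
  rfl

theorem dat_eq {r : ℕ} {g : X → E r} (he : e ∈ (mf n X).C) {z : E n} (hz : z ∈ e.target)
    (h : ∀ s, HolAt n 0 (g · s) (e.symm z)) (w : E n) (s : Fin r) :
    dAt n g (e.symm z) (jm (chartAt (E n) (e.symm z) ∘ e.symm) z *ᵥ w) s =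
      F4.gd (fun w => g (e.symm w) s) z ⬝ᵥ w :=
  (DFunLike.congr_fun (fderiv_apply (differentiableAt_pi.2 fun s => hol0 (h s)) s) _).symm.trans
    (dat_one he hz (h s) w)

variable [CompactSpace X] [T2Space X] [ConnectedSpace X] {ι I : Type} [Fintype I]
  {G β : X → Mat n} {U : ι → Set X} {f : I → ι → X → ℂ} {u : I → ι → ι → X → ℂ} {a : I → ℝ}

/-- The data. -/
theorem brg (hn : 0 < n) (hG : GH.Kaehler G) (hβ : K3S.Semi n G β) (hC : Ctr n β U f u)
    (hA : Amp U u β f) (ha : ∀ k, 0 < a k) (hN : K3S.NefW n G β U u fun k => -a k)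
    (hM : Mod U u G β f a) : ∃ (c : ℕ) (p : I → ℕ) (h : Cv n U u) (i : _) (S : Sd h.M I),
      (∀ k, a k = p k / c) ∧ Org h G β f c p i S.toDk := by
  obtain ⟨c, p, φ, c0, hp, gl, hm⟩ := hM
  have c1 : (0 : ℝ) < c := Nat.cast_pos.2 c0
  have ap : ∀ k, a k = p k / c := fun k => by rw [hp, mul_div_cancel_left₀ _ c1.ne']
  obtain ⟨h, i, D₀, o₀⟩ := kBR0 kKEY n X ι I G β U f u c p hn hG hβ hC c0
    (by simpa only [ap] using hN)
  have cpt : h.M.Cpt := ⟨‹_›, ‹_›, ‹_›⟩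
  obtain ⟨D, o, sml⟩ : ∃ D, Org h G β f c p i D ∧ ∀ k x, sg D k x ≤ 1 / 2 :=
    let ⟨φ, w, q, s⟩ := shift D₀
    ⟨{ D₀ with φ := φ, wt := w, nef := q }, ⟨o₀.sub, o₀.H, o₀.β, o₀.c, o₀.a, o₀.L, o₀.f⟩, s⟩
  have hi : ∀ e : OpenPartialHomeomorph X (E n), e ∈ h.M.C → e.source ⊆ U (i e) := o.sub
  have hc : ∀ x : X, chartAt (E n) x ∈ (mf n X).C := HW.ch_mem
  obtain ⟨r, r1, r2, r3, r4⟩ : ∃ r : X → OpenPartialHomeomorph X (E n), (∀ x, r x ∈ h.M.C) ∧
      (∀ x, x ∈ (r x).source) ∧ (∀ x, (r x : X → E n) = chartAt (E n) x) ∧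
      ∀ x, ((r x).symm : E n → X) = (chartAt (E n) x).symm := by
    choose r r1 r2 r3 r4 using fun x : X =>
      restr (mf n X) (U := U) h.opn h.cov (hc x) (mem_chart_source (E n) x)
    exact ⟨r, r1, r2, r3, r4⟩
  have al' : ∀ k, al D k = a k := fun k => by rw [al, o.a, o.c, ap]
  let Φ : h.M.Fam ℝ := fun (e : OpenPartialHomeomorph X (E n)) z =>
    φ (i e) (e.symm z) + ∑ k, a k * D.φ k e z
  have iv : h.M.Inv Φ := by
    intro (e : OpenPartialHomeomorph X (E n)) he (e' : OpenPartialHomeomorph X (E n)) he' (x : X)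
      hx hx'
    have a1 : ∀ k, D.φ k e' (e' x) = D.φ k e (e x) + Real.log (normSq (u k (i e') (i e) x)) :=
      fun k => o.L k e e' x ▸ (D.wt k).cmp e he e' he' x hx hx'
    change φ (i e') (e'.symm (e' x)) + ∑ k, a k * D.φ k e' (e' x) =
      φ (i e) (e.symm (e x)) + ∑ k, a k * D.φ k e (e x)
    simp only [e.left_inv hx, e'.left_inv hx', a1, mul_add, Finset.sum_add_distrib]
    rw [EReal.coe_eq_coe_iff.1 ((gl (i e') (i e) x ⟨hi e' he' hx', hi e he hx⟩).trans
      (EReal.coe_add _ _).symm)]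
    simp only [Pi.neg_apply, neg_mul, Finset.sum_neg_distrib]
    ring
  have sΦ : h.M.Sm (h.M.ev Φ) := iv.sm fun (e : OpenPartialHomeomorph X (E n)) he z hz => by
    have : ContDiffAt ℝ ∞ (φ (i e) ∘ e.symm) (e (e.symm z)) :=
      ((mTR n (mf n X)).2.2.2.1 ℝ (φ (i e))).2.1 _ (hc (e.symm z)) e he.1 _
        (mem_chart_source (M := X) (E n) _) (e.map_target hz)
        (hm _ _ (hi e he (e.map_target hz))).1
    rw [e.right_inv hz] at this
    exact this.add (ContDiffAt.sum fun k _ => contDiffAt_const.mul ((D.wt k).sm e he z hz))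
  obtain ⟨C, hC'⟩ := isCompact_univ.bddAbove_image sΦ.continuous.continuousOn
  have of' : ∀ y : X, y ∈ Of D ↔ ∀ k j, y ∈ U j → f k j y ≠ 0 := fun y => by
    obtain ⟨c1, c2⟩ := (mTR n h.M).1 y
    have e1 : ∀ k, sg D k y ≠ 0 ↔ f k (i (h.M.ch y)) y ≠ 0 := fun k => by
      rw [sg, Mf.nrC_ne, Mf.ev, o.f]
      erw [(h.M.ch y).left_inv c2]
    refine forall_congr' fun k => (e1 k).trans ⟨fun d j hj => ?_, fun d => d _ (hi _ c1 c2)⟩
    obtain ⟨-, u1, u2⟩ := hC.unit k j _ y ⟨hj, hi _ c1 c2⟩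
    exact u2 ▸ mul_ne_zero u1 d
  have oo : IsOpen (Of D) := by
    rw [Of, ofPred_forall]
    exact isOpen_iInter_of_finite fun k =>
      isOpen_ne_fun ((D.wt k).nr_sm (D.hol k).toSecC).continuous continuous_const
  have hs0 : ∀ (W : Set X) (v : X → ℂ), IsOpen W → (∀ y ∈ W, HolAt n 0 v y) →
      Hs (M := h.M) W 0 fun e z => v (e.symm z) := fun W v w1 w2 =>
    ⟨fun e he z hz => hol_0 he.1 hz w1 w2, fun e he e' he' x hx hx' _ => by
      simp only [e.left_inv hx, e'.left_inv hx', pow_zero, one_mul]⟩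
  refine ⟨c, p, h, i, {
    toDk := D
    u := fun x => h.M.ev Φ x - C
    su := fun e he z hz => (sΦ e he z hz).sub contDiffAt_const
    u0 := fun x => sub_nonpos.2 (hC' ⟨x, trivial, rfl⟩)
    ap := fun k => ?_
    sml := sml
    amp := kAMP kKEY n X ι I G β U f u c p h i D o hA
    snc := fun (x : X) => ⟨r x, r1 x, r2 x, fun k hk => ?_⟩
    mod := fun (x : X) hx => ?_ }, ap, o⟩
  · rw [o.a]
    exact Nat.cast_pos.1 ((mul_pos c1 (ha k)).trans_eq (hp k).symm)
  · have e1 : ∀ k, D.f k (r x) (r x x) = f k (i (r x)) x := fun k =>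
      (o.f k (r x) _).trans (congrArg _ ((r x).left_inv (r2 x)))
    have e2 : ∀ k, fderiv ℂ (D.f k (r x)) (r x x) = dAt n (f k (i (r x))) x := fun k => by
      rw [show D.f k (r x) = f k (i (r x)) ∘ (r x).symm from funext fun z => o.f k (r x) z, dAt,
        r3, r4]
    obtain ⟨v, hv⟩ := dual (hm _ x (hi _ (r1 x) (r2 x))).2.1 ⟨k, (e1 k).symm.trans hk⟩
    refine ⟨v, fun j hj => ?_⟩
    have := hv ⟨j, (e1 j).symm.trans hj⟩
    simp only [Subtype.mk.injEq] at this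
    exact (congrArg (· v) (e2 j)).trans this
  replace hx := mt (of' x).2 hx
  push Not at hx
  obtain ⟨k, j, hj, hk⟩ := hx
  obtain ⟨W, m, g, t, F, w1, w2, w3, w4⟩ := (hm j x hj).2.2 ⟨k, hk⟩
  refine ⟨{
    W := W, r := m, g := fun s y => g y s, F := fun w => F w - c * C, opn := w1, mem := w2
    o := fun (e : OpenPartialHomeomorph X (E n)) z => t (i e) (e.symm z) * jc e (e.symm z) ^ c
    hg := fun s => hs0 W _ w1 fun y hy => (w3 y hy).1 s
    ho := fun (e : OpenPartialHomeomorph X (E n)) he z hz hw => ⟨mem_of_superset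
      ((e.isOpen_inter_preimage_symm w1).mem_nhds ⟨hz, hw⟩) fun w hw => hol_m he.1 hw.1
        ((w3 _ hw.2).2.2.2 _ (hi e he (e.map_target hw.1))).1,
      mul_ne_zero ((w3 _ hw).2.2.2 _ (hi e he (e.map_target hz))).2.1
        (pow_ne_zero _ (jc_ne he.1 (e.map_target hz)))⟩
    law := fun (e : OpenPartialHomeomorph X (E n)) he (e' : OpenPartialHomeomorph X (E n)) he'
      (y : X) hy hy' hw => ?_
    sF := fun y hy => (w3 y hy).2.1.sub contDiffAt_const
    wt := fun (e : OpenPartialHomeomorph X (E n)) he z hz hw => ?_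
    bt := fun (e : OpenPartialHomeomorph X (E n)) he z hz hw v => ?_
    har := fun s hs => ?_ }⟩
  · have a1 : ∀ k, (D.L k).c e e' y = u k (i e') (i e) y := fun k => o.L k e e' y
    change t (i e') (e'.symm (e' y)) * jc e' (e'.symm (e' y)) ^ c * ∏ k, (D.L k).c e e' y ^ D.a k =
      (jm (e ∘ e'.symm) (e' y)).det ^ D.c * (t (i e) (e.symm (e y)) * jc e (e.symm (e y)) ^ c)
    rw [e.left_inv hy, e'.left_inv hy', o.a, o.c, jc_mul he.1 he'.1 hy hy',
      ((w3 y hw).2.2.2 _ (hi e' he' hy')).2.2.1 _ (hi e he hy), Finset.prod_congr rfl fun k _ =>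
        congrArg (· ^ p k) (a1 k)]
    ring
  · obtain ⟨-, t1, -, t2⟩ := (w3 (e.symm z) hw).2.2.2 _ (hi e he (e.map_target hz))
    have j0 := jc_ne he.1 (e.map_target hz)
    have a1 : h.M.ev Φ (e.symm z) = φ (i e) (e.symm z) + ∑ k, a k * D.φ k e z := iv.rep e he z hz
    have a2 : (D.H e z).det.re = normSq (jc e (e.symm z)) * (G (e.symm z)).det.re := by
      rw [o.H, jc, e.right_inv hz]
      exact BMU.det_chg _ _
    change D.c * (Real.log (D.H e z).det.re - ∑ k, al D k * D.φ k e z + (h.M.ev Φ (e.symm z) - C)) =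
      Real.log (normSq (t (i e) (e.symm z) * jc e (e.symm z) ^ c)) + (F (g (e.symm z)) - c * C)
    rw [a1, a2, o.c, normSq_mul, Finset.sum_congr rfl fun k _ => congrArg (· * _) (al' k),
      Real.log_mul (normSq_pos.2 j0).ne' (Mf.pd_det_re (hG.pos _)).ne',
      Real.log_mul (normSq_pos.2 t1).ne' (normSq_pos.2 (pow_ne_zero c j0)).ne', map_pow,
      Real.log_pow]
    linarith
  · have := (w3 _ hw).2.2.1 (jm (chartAt (E n) (e.symm z) ∘ e.symm) z *ᵥ v)
    refine le_of_eq_of_le ?_ (this.trans_eq (Finset.sum_congr rfl fun s _ =>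
      congrArg normSq (dat_eq he.1 hz (w3 _ hw).1 v s)))
    rw [o.β, nq, Matrix.star_mulVec, ← Matrix.dotProduct_mulVec, Matrix.mulVec_mulVec,
      Matrix.mulVec_mulVec]
    rfl
  · have rp : ∀ e ∈ h.M.C, ∀ z ∈ e.target, e.symm z ∈ W ∩ Of D → h.M.ev s (e.symm z) = s e z :=
      fun e he z hz hw => by
        obtain ⟨c1, c2⟩ := (mTR n h.M).1 (e.symm z)
        have := hs.cmp e he _ c1 _ (e.map_target hz) c2 hw
        rwa [pow_zero, one_mul, e.right_inv hz] at this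
    obtain ⟨s', h'⟩ := w4 (h.M.ev s) fun y hy ho => by
      have hw : (r y).symm (r y y) ∈ W ∩ Of D := by
        rw [(r y).left_inv (r2 y)]
        exact ⟨hy, (of' y).2 ho⟩
      have hz := (r y).map_source (r2 y)
      rw [HolAt, ← r3, ← r4]
      refine (hs.hol _ (r1 y) _ hz hw).self_of_nhds.congr_of_eventuallyEq ?_
      filter_upwards [((r y).isOpen_inter_preimage_symm (w1.inter oo)).mem_nhds ⟨hz, hw⟩] with w hw
      rw [pow_zero, mul_one]
      exact rp _ (r1 y) w hw.1 hw.2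
    exact ⟨_, hs0 W s' w1 fun y hy => (h' y hy).1, fun e he z hz hw =>
      ((h' _ hw.1).2 ((of' _).1 hw.2)).trans (rp e he z hz hw)⟩

end Pool.Agent.Lib.N4S.BRG
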