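import Pool.Agent.Lib.N4S.SDefs
import Pool.Agent.Lib.KS.B_NU
import Pool.Agent.Lib.KS.B_KEY
import Pool.Agent.Lib.K3S.B_MS
import Pool.Agent.Lib.F4H.Defs

/-! Project n4s: the square of the nef class in the two languages. -/

open scoped Classical Topology ContDiff ComplexOrder Matrix Manifold
open Set Filter MeasureTheory Complex

noncomputable section

namespace Pool.Agent.Lib.N4S.NSQ

open Pool.Agent.Lib.SV (E Cells)
open Pool.Agent.Lib.HS32 Pool.Agent.Lib.HS.BBR Pool.Agent.Lib.RB.R32 Pool.Agent.Lib.KP.T6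
open Pool.Agent.Lib.KS
open Pool.Agent.Lib.HS (inChart)
open Pool.Agent.Lib.HW (levi)
open Pool.Agent.Lib.GH (Hermitian)
open Pool.Agent.Lib.K3S (Dk)
open Pool.Agent.Lib.F4H (Qm)

theorem det4 (A : Mat 4) (t : ℂ) : (A + t • (1 : Mat 4)).det = A.det +
    t * (((A + (1 : ℂ) • (1 : Mat 4)).det - (A + (-1 : ℂ) • (1 : Mat 4)).det) / 2 - A.trace) +
      t ^ 2 * ((A.trace * A.trace - (A * A).trace) / 2) + t ^ 3 * A.trace + t ^ 4 := by
  have d : ∀ B : Mat 4, B.det =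
      B 0 0 * (B 1 1 * B 2 2 * B 3 3 - B 1 1 * B 2 3 * B 3 2 - B 1 2 * B 2 1 * B 3 3 +
        B 1 2 * B 2 3 * B 3 1 + B 1 3 * B 2 1 * B 3 2 - B 1 3 * B 2 2 * B 3 1) -
      B 0 1 * (B 1 0 * B 2 2 * B 3 3 - B 1 0 * B 2 3 * B 3 2 - B 1 2 * B 2 0 * B 3 3 +
        B 1 2 * B 2 3 * B 3 0 + B 1 3 * B 2 0 * B 3 2 - B 1 3 * B 2 2 * B 3 0) +
      B 0 2 * (B 1 0 * B 2 1 * B 3 3 - B 1 0 * B 2 3 * B 3 1 - B 1 1 * B 2 0 * B 3 3 +
        B 1 1 * B 2 3 * B 3 0 + B 1 3 * B 2 0 * B 3 1 - B 1 3 * B 2 1 * B 3 0) -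
      B 0 3 * (B 1 0 * B 2 1 * B 3 2 - B 1 0 * B 2 2 * B 3 1 - B 1 1 * B 2 0 * B 3 2 +
        B 1 1 * B 2 2 * B 3 0 + B 1 2 * B 2 0 * B 3 1 - B 1 2 * B 2 1 * B 3 0) := fun B => by
    rw [Matrix.det_succ_row_zero, Fin.sum_univ_four]
    simp only [Matrix.det_fin_three]
    change (-1) ^ 0 * _ * _ + (-1) ^ 1 * _ * _ + (-1) ^ 2 * _ * _ + (-1) ^ 3 * _ * _ = _
    simp only [pow_zero, one_mul, neg_mul, pow_succ, mul_neg, neg_neg, mul_one,
      ← sub_eq_add_neg]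
    rfl
  simp only [d]
  simp [Matrix.trace, Matrix.mul_apply, Fin.sum_univ_four]
  ring

theorem exp4 (M : Mf 4) [M.Cpt] {H T : M.Fam (Mat 4)} (hH : M.Kae H) (hT : M.Clo T) :
    ∃ a b c d : ℝ, ∀ t : ℝ, ∫ x, M.dq H (T + t • H) x ∂M.mu H =
      a + t * b + t ^ 2 * (Qm M H T T / 2) + t ^ 3 * c + t ^ 4 * d := by
  obtain ⟨i1, i2, i3, i4, -⟩ := mINV 4 M H hH.toMet
  obtain ⟨-, -, -, -, m5, -⟩ := mMU 4 M H hH.toMet
  have cl : ∀ t : ℝ, M.Clo (T + t • H) := fun t => hT.add (hH.toClo.smul t)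
  have pt : ∀ (t : ℝ) x, M.dq H (T + t • H) x = M.dq H T x + t * ((M.dq H (T + (1 : ℝ) • H) x -
      M.dq H (T + (-1 : ℝ) • H) x) / 2 - M.tr H T x) + t ^ 2 * (F4.mx M H T T x / 2) +
        t ^ 3 * M.tr H T x + t ^ 4 * 1 := fun t x => by
    obtain ⟨e, he, hx⟩ := M.cov x
    have hz := e.map_source hx
    have u := (hH.pos e he _ hz).isUnit
    have u1 := (Matrix.isUnit_iff_isUnit_det _).1 u
    have q : ∀ s : ℝ, (M.dq H (T + s • H) x : ℂ) =
        ((H e (e x))⁻¹ * T e (e x) + (s : ℂ) • (1 : Mat 4)).det := fun s => by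
      have := (i2 _ (cl s).toForm e he _ hz).2.1
      rw [e.left_inv hx] at this
      rw [this, ← Matrix.nonsing_inv_mul _ u1, ← Matrix.mul_smul, ← Matrix.mul_add, Matrix.det_mul,
        Matrix.det_nonsing_inv, Ring.inverse_eq_inv, div_eq_inv_mul]
      rfl
    have q0 := q 0
    have q1 := (i2 _ hT.toForm e he _ hz).1
    have q2 := i4 _ _ hT.toForm hT.toForm e he _ hz
    rw [e.left_inv hx] at q1 q2
    simp only [zero_smul, add_zero, ofReal_zero] at q0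
    refine ofReal_injective ?_
    rw [F4.mx]
    push_cast
    rw [q, q, q, q0, q1, q2, det4, Matrix.mul_assoc (_ * _)]
    push_cast
    ring
  have c1 := fun t => (i1 _ (cl t).toTen).2.2.2.1.continuous
  have c2 := (i1 _ hT.toTen).2.1.continuous
  have c3 := (i1 _ hT.toTen).2.2.2.1.continuous
  have c4 : Continuous (F4.mx M H T T) :=
    (c2.mul c2).sub (i3 _ _ hT.toTen hT.toTen).2.1.continuous
  have j1 := m5 ℝ _ c3
  have j2 := m5 ℝ _ ((((c1 1).sub (c1 (-1))).div_const 2).sub c2)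
  have j3 := m5 ℝ _ (c4.div_const 2)
  have j4 := m5 ℝ _ c2
  have j5 := m5 ℝ (fun _ => (1 : ℝ)) continuous_const
  refine ⟨∫ x, M.dq H T x ∂M.mu H, ∫ x, (M.dq H (T + (1 : ℝ) • H) x -
    M.dq H (T + (-1 : ℝ) • H) x) / 2 - M.tr H T x ∂M.mu H, ∫ x, M.tr H T x ∂M.mu H,
    ∫ _, (1 : ℝ) ∂M.mu H, fun t => ?_⟩
  rw [integral_congr_ae (ae_of_all _ (pt t)), integral_add, integral_add, integral_add,
    integral_add, integral_const_mul, integral_const_mul, integral_const_mul, integral_const_mul,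
    integral_div, Qm]
  exacts [j1, j2.const_mul _, j1.add (j2.const_mul _), j3.const_mul _,
    (j1.add (j2.const_mul _)).add (j3.const_mul _), j4.const_mul _,
    ((j1.add (j2.const_mul _)).add (j3.const_mul _)).add (j4.const_mul _), j5.const_mul _]

theorem qm_hs (M : Mf 4) [M.Cpt] {H T : M.Fam (Mat 4)} {g : M.X → ℝ} (hH : M.Kae H)
    (hT : M.Clo T) (hg : M.Sm g) : Qm M H (T + M.hs g) (T + M.hs g) = Qm M H T T := by
  obtain ⟨a, b, c, d, h⟩ := exp4 M hH hT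
  obtain ⟨a', b', c', d', h'⟩ := exp4 M hH (hT.add ((mHES 4 M).1 g hg))
  have k : ∀ t : ℝ, a' + t * b' + t ^ 2 * (Qm M H (T + M.hs g) (T + M.hs g) / 2) + t ^ 3 * c' +
      t ^ 4 * d' = a + t * b + t ^ 2 * (Qm M H T T / 2) + t ^ 3 * c + t ^ 4 * d := fun t => by
    rw [← h, ← h', add_right_comm, mCOH 4 M _ _ g hH.toMet (hT.add (hH.toClo.smul t)) hg]
  linarith [k 0, k 1, k (-1), k 2, k (-2)]

theorem lim {p : ℝ → ℝ} (hp : Continuous p) (h : ∀ t ∈ Ioc (0 : ℝ) 1, 0 ≤ p t) : 0 ≤ p 0 :=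
  ge_of_tendsto (hp.continuousAt.tendsto.mono_left nhdsWithin_le_nhds)
    (mem_of_superset (Ioc_mem_nhdsGT one_pos) h)

theorem nu_le {M : Mf 4} [M.Cpt] {I : Type} [Fintype I] (D : Dk M I) (h : Nu D 1) :
    Qm M D.H D.T D.T ≤ 0 := by
  obtain ⟨C, h⟩ := h
  have kH := D.kae
  have cT := K3S.MS.clo D
  obtain ⟨a, b, c, d, e⟩ := exp4 M kH cT
  obtain ⟨B, b0, b1, -⟩ := (mBD 4 M _ kH.toMet).1 _ D.cβ.toForm
  generalize Qm M D.H D.T D.T = q at e ⊢
  have p : ∀ t ∈ Ioc (0 : ℝ) 1, 0 ≤ a + t * b + t ^ 2 * (q / 2) + t ^ 3 * c + t ^ 4 * d :=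
    fun t ht => by
      obtain ⟨ψ, -, -, s, n1, -⟩ := D.nef (t / B) (div_pos ht.1 b0)
      have c1 := cT.add (kH.toClo.smul t)
      rw [← e, ← mCOH 4 M _ _ ψ kH.toMet c1 s]
      refine integral_nonneg fun x => ?_
      obtain ⟨r, hr, hx⟩ := M.cov x
      have hz := r.map_source hx
      have k := ((mINV 4 M _ kH.toMet).2.1 _ (c1.add ((mHES 4 M).1 ψ s)).toForm r hr _ hz).2.2
      rw [r.left_inv hx] at k
      have k1 : ((D.T + t • D.H + M.hs ψ) r (r x)).PosSemidef := by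
        have := (n1 r hr _ hz).add ((b1 r hr _ hz).smul (div_pos ht.1 b0).le)
        refine (congrArg Matrix.PosSemidef ?_).mpr this
        simp only [Dk.T, Pi.add_apply, Pi.sub_apply, Pi.smul_apply, Pi.zero_apply, smul_sub,
          smul_smul, div_mul_cancel₀ _ b0.ne']
        abel
      exact nonneg_of_mul_nonneg_left (k ▸ (Complex.le_def.1 k1.det_nonneg).1)
        (Mf.pd_det_re (kH.pos r hr _ hz))
  simp only [e, show 4 - 1 = 3 from rfl] at h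
  have a0 : a = 0 := le_antisymm (by
    simpa using lim (p := fun t => C * t ^ 3 - (a + t * b + t ^ 2 * (q / 2) + t ^ 3 * c + t ^ 4 * d))
      (by fun_prop) fun t ht => sub_nonneg.2 (h t ht)) (by simpa using lim (by fun_prop) p)
  have b2 := lim (p := fun t => b + t * (q / 2) + t ^ 2 * c + t ^ 3 * d) (by fun_prop)
    fun t ht => (mul_nonneg_iff_of_pos_left ht.1).1 (by have := p t ht; rw [a0] at this; linarith)
  have b3 : 0 ≤ b := by linarith [show b + 0 * (q / 2) + 0 ^ 2 * c + 0 ^ 3 * d = b by ring]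
  have b4 := lim (p := fun t => C * t - (q / 2 + t * c + t ^ 2 * d)) (by fun_prop)
    fun t ht => (mul_nonneg_iff_of_pos_left (pow_pos ht.1 2)).1
      (by have := h t ht; rw [a0] at this; linarith [mul_nonneg ht.1.le b3])
  linarith [show C * 0 - (q / 2 + 0 * c + 0 ^ 2 * d) = -(q / 2) by ring]

/-- The integral of the statement is the square of the nef class. -/
theorem br {X ι I : Type} [TopologicalSpace X] [ChartedSpace (E 4) X] [IsManifold 𝓘(ℂ, E 4) ω X]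
    [CompactSpace X] [T2Space X] [ConnectedSpace X] [Fintype I] {G β : X → Mat 4} {U : ι → Set X}
    {f : I → ι → X → ℂ} {u : I → ι → ι → X → ℂ} {c : ℕ} {a : I → ℕ} {h : Cv 4 U u} {i D}
    (o : Org h G β f c a i D) {φ : ι → X → ℝ} {Θ : X → Mat 4} {r₀ : ℕ} {x : Fin r₀ → X}
    {B : Fin r₀ → Set (E 4)} (gl : ZK47.Glue U u (fun k => -(a k / c : ℝ)) fun i y => φ i y)
    (ce : Cells x B) (hs : ∀ i, ∀ y ∈ U i,
      ContDiffAt ℝ ∞ (φ i ∘ (chartAt (E 4) y).symm) (chartAt (E 4) y y) ∧ (Θ y).IsHermitian ∧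
      ∀ v, levi (fun z => φ i ((chartAt (E 4) y).symm z) + Real.log (inChart G y z).det.re)
        (chartAt (E 4) y y) v = (star v ⬝ᵥ Θ y *ᵥ v).re) :
    ∑ k, ∫ z in B k, (inChart G (x k) z).det.re *
      (fun A : Mat 4 => A.trace.re ^ 2 - (A * A).trace.re)
        ((G ((chartAt (E 4) (x k)).symm z))⁻¹ * Θ ((chartAt (E 4) (x k)).symm z)) =
      Qm h.M D.H D.T D.T := by
  have cpt : h.M.Cpt := ⟨‹_›, ‹_›, ‹_›⟩
  have cp0 : (mf 4 X).Cpt := ⟨‹_›, ‹_›, ‹_›⟩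
  have hc : ∀ x : X, chartAt (E 4) x ∈ (mf 4 X).C := HW.ch_mem
  obtain ⟨r, r1, r2, r3, r4⟩ : ∃ r : X → OpenPartialHomeomorph X (E 4), (∀ x, r x ∈ h.M.C) ∧
      (∀ x, x ∈ (r x).source) ∧ (∀ x, (r x : X → E 4) = chartAt (E 4) x) ∧
      ∀ x, ((r x).symm : E 4 → X) = (chartAt (E 4) x).symm := by
    choose r r1 r2 r3 r4 using fun x : X =>
      restr (mf 4 X) (U := U) h.opn h.cov (hc x) (mem_chart_source (E 4) x)
    exact ⟨r, r1, r2, r3, r4⟩
  have kH := D.kae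
  have fr : ∀ y, D.H (r y) = inChart G y := fun y => by
    funext z
    rw [o.H]
    change (jm (chartAt (E 4) ((r y).symm z) ∘ (r y).symm) z)ᴴ * G ((r y).symm z) *
      jm (chartAt (E 4) ((r y).symm z) ∘ (r y).symm) z = _
    rw [r4]
    rfl
  have e0 : ∀ y : X, D.H (r y) (r y y) = G y := fun y => by
    have h0 : jm (chartAt (E 4) y ∘ (chartAt (E 4) y).symm) (chartAt (E 4) y y) = 1 :=
      (mTR 4 (mf 4 X)).2.2.1 _ (hc y) y (mem_chart_source (M := X) (E 4) y)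
    rw [o.H]
    change (jm (chartAt (E 4) ((r y).symm (r y y)) ∘ (r y).symm) (r y y))ᴴ *
      G ((r y).symm (r y y)) * jm (chartAt (E 4) ((r y).symm (r y y)) ∘ (r y).symm) (r y y) = _
    rw [(r y).left_inv (r2 y), r3, r4, h0, Matrix.conjTranspose_one, Matrix.one_mul, Matrix.mul_one]
  have hz : ∀ y, r y y ∈ (r y).target := fun y => (r y).map_source (r2 y)
  have hG : Hermitian G := ⟨fun y => e0 y ▸ kH.pos _ (r1 y) _ (hz y), fun y => by
    rw [← fr, ← r3]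
    exact kH.sm _ (r1 y) _ (hz y)⟩
  have m0 := (fam_ok hG).1
  have em : h.M.mu D.H = (mf 4 X).mu (fam G) := BMU.uniq (mMU 4 h.M _ kH.toMet).1 fun e he => by
    rw [o.H]
    exact (mMU 4 _ _ m0).1 e he.1
  obtain ⟨g, sg, hg⟩ := kKEY 4 X ι I U u h i D.L D.φ _ φ o.sub o.L D.wt gl
    fun j y hy => (hs j y hy).1
  have cT := K3S.MS.clo D
  have cg := cT.add ((mHES 4 h.M).1 g sg)
  have et : ∀ y : X, (D.T + h.M.hs g) (r y) (r y y) = Θ y := fun y => by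
    obtain ⟨j, hj⟩ := h.cov y
    obtain ⟨s1, s2⟩ := hg _ (r1 y) j _ (hz y) (by rwa [(r y).left_inv (r2 y)])
    have sl := ((mCOF 4 _ _ (kH.sm _ (r1 y) _ (hz y))).2.2.2.2.2
      (Mf.AllOn.ev kH.pos (r1 y) (hz y))).2.1
    refine NU.herm_eq (cg.herm _ (r1 y) _ (hz y)) (hs j y hj).2.1 fun v => ?_
    have h1 := (hs j y hj).2.2 v
    rw [← fr, ← r3, ← r4] at h1
    refine Eq.trans (congrArg (nq · v) ?_) ((HW.levi_eq (s1.add sl) v).symm.trans h1)
    simp only [ofReal_add]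
    refine Eq.trans ?_ (hess_add (cd_ofReal s1) (cd_ofReal sl)).symm
    refine Eq.trans ?_ (congrArg (· + _) s2.symm)
    simp only [K3S.Dk.T, o.a, o.c, Mf.ric, Pi.add_apply, Pi.sub_apply, Pi.neg_apply,
      Finset.sum_apply, Pi.smul_apply, neg_smul, Finset.sum_neg_distrib, neg_neg]
    exact (sub_add_eq_add_sub _ _ _).trans ((sub_eq_neg_add _ _).trans
      ((congrArg _ (add_comm _ _)).trans (add_assoc _ _ _).symm))
  obtain ⟨i1, i2, -⟩ := (mINV 4 _ _ kH.toMet).1 _ cg.toTen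
  obtain ⟨i3, i4, -⟩ := (mINV 4 _ _ kH.toMet).2.2.1 _ _ cg.toTen cg.toTen
  rw [← qm_hs _ kH cT sg, Qm, em]
  refine ((NU.cells (mf 4 X) m0 (fun k => chartAt (M := X) (E 4) (x k)) B (fun k => hc _) ce.meas
    ce.sub ce.part ((i2.continuous.mul i2.continuous).sub i4.continuous)).trans
      (Finset.sum_congr rfl fun k _ => integral_congr_ae (ae_of_all _ fun z => ?_))).symm
  obtain ⟨y, hy⟩ : ∃ y : X, (chartAt (E 4) (x k)).symm z = y := ⟨_, rfl⟩
  have a1 := i1.at (r1 y) (r2 y)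
  have a2 := i3.at (r1 y) (r2 y)
  erw [e0, et] at a1 a2
  change (inChart G (x k) z).det.re * (h.M.tr _ _ ((chartAt (E 4) (x k)).symm z) *
    h.M.tr _ _ ((chartAt (E 4) (x k)).symm z) - h.M.ip _ _ _ ((chartAt (E 4) (x k)).symm z)) =
    (inChart G (x k) z).det.re * (((G ((chartAt (E 4) (x k)).symm z))⁻¹ *
      Θ ((chartAt (E 4) (x k)).symm z)).trace.re ^ 2 - ((G ((chartAt (E 4) (x k)).symm z))⁻¹ *
      Θ ((chartAt (E 4) (x k)).symm z) * ((G ((chartAt (E 4) (x k)).symm z))⁻¹ *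
      Θ ((chartAt (E 4) (x k)).symm z))).trace.re)
  rw [hy, a1, a2, sq, Matrix.mul_assoc (_ * _)]

end Pool.Agent.Lib.N4S.NSQ
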