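import Pool.Agent.Lib.N4S.SDefs
import Pool.Agent.Lib.F4.SDefs

/-! Project n4s: the statement. -/

open scoped Manifold ContDiff Topology

namespace Pool.Agent.Lib.N4S

open Pool.Agent.Lib.SV Pool.Agent.Lib.HS Pool.Agent.Lib.GH Pool.Agent.Lib.EX Pool.Agent.Lib.K3S
  Pool.Agent.Lib.KS Pool.Agent.Lib.F4

/-- The theorem. -/
def St_N4F : Prop := ∀ (X ι I : Type) [TopologicalSpace X] [ChartedSpace (E 4) X]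
  [IsManifold 𝓘(ℂ, E 4) ω X] [CompactSpace X] [T2Space X] [ConnectedSpace X] [Fintype I]
  (G β : X → Mat 4) (U : ι → Set X) (f : I → ι → X → ℂ) (u : I → ι → ι → X → ℂ) (a : I → ℚ),
  Kaehler G → Semi 4 G β → Ctr 4 β U f u → Amp U u β f → (∀ k, 0 < a k) →
  NefW 4 G β U u (fun k => -a k) → Mod U u G β f (fun k => a k) →
  (∀ η ∈ TF 4 X 3 0, ∀ k i, ∀ x ∈ U i, f k i x = 0 → ∀ v : Fin 3 → E 4,
    (∀ l, dAt 4 (f k i) x (v l) = 0) → η x v = 0) →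
  (Nonempty I → NSq U u G fun k => -a k) →
  (∀ ρ ∈ TF 4 X 1 0, ρ = 0) → (∃ σ ∈ TF 4 X 2 0, σ ≠ 0) →
  (∃ m, 0 < m ∧ ∃ s ∈ Pluri 4 X m, s ≠ 0) ∨ (NSq U u G fun k => -a k) ∧
    (∃ η ∈ TF 4 X 3 0, ∃ θ ∈ TF 4 X 3 0, LinearIndependent ℂ ![η, θ]) ∧
      ∀ η ∈ TF 4 X 3 0, ∀ θ ∈ TF 4 X 3 0, ∀ x, ¬LinearIndependent ℂ ![η x, θ x]

end Pool.Agent.Lib.N4S
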