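import Pool.Agent.Lib.N4S.Blue
import Pool.Agent.Lib.N4S.Stm
import Pool.Agent.Lib.N4S.Brg
import Pool.Agent.Lib.N4S.Nsq
import Pool.Agent.Lib.F4P.All
import Pool.Agent.Lib.K3S.B_RS

/-! Project n4s: the outer layer. -/

open scoped Classical Topology ContDiff ComplexOrder Matrix Manifold
open Set Filter Complex

noncomputable section

namespace Pool.Agent.Lib.N4S

open Pool.Agent.Lib.SV (E)
open Pool.Agent.Lib.HS32 Pool.Agent.Lib.GH Pool.Agent.Lib.F4 Pool.Agent.Lib.F4P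
open Pool.Agent.Lib.HS.BBR (mf)
open Pool.Agent.Lib.RB.R32 (fam)
open Pool.Agent.Lib.HW (CanNef levi)
open Pool.Agent.Lib.K3S (Semi Ctr NefW)

namespace OUT

theorem levi_congr {n : ℕ} {φ ψ : E n → ℝ} {z : E n} (h : φ =ᶠ[𝓝 z] ψ) (v : E n) :
    levi φ z v = levi ψ z v := by
  have k : ∀ u, fderiv ℝ (fun w => fderiv ℝ φ w u) z = fderiv ℝ (fun w => fderiv ℝ ψ w u) z :=
    fun u => EventuallyEq.fderiv_eq ((h.fderiv (𝕜 := ℝ)).mono fun w hw => congrArg (· u) hw)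
  rw [levi, levi, k, k]

theorem nef {n : ℕ} {X ι I : Type} [TopologicalSpace X] [ChartedSpace (E n) X]
    [IsManifold 𝓘(ℂ, E n) ω X] [CompactSpace X] [T2Space X] [ConnectedSpace X] [Fintype I]
    [IsEmpty I] {G β : X → Mat n} {U : ι → Set X} {f : I → ι → X → ℂ} {u : I → ι → ι → X → ℂ}
    {b : I → ℝ} (hG : Kaehler G) (hβ : Semi n G β) (hC : Ctr n β U f u) (hN : NefW n G β U u b) :
    CanNef G := fun ε hε => by
  have : (mf n X).Cpt := ⟨‹_›, ‹_›, ‹_›⟩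
  have g1 := HW.kae hG
  obtain ⟨B, b0, b1, -⟩ := (mBD n _ _ g1.toMet).1 _ ((HW.kae hβ.1).toClo.sub g1.toClo).toForm
  let c : (mf n X).X → (mf n X).Ch := chartAt (M := X) (E n)
  have e0 : ∀ (h : X → Mat n) x, fam h (c x) (c x x) = h x := fun h x => by
    have hx : x ∈ (c x).source := mem_chart_source (M := X) (E n) x
    have := (mTR n (mf n X)).2.2.1 _ (HW.ch_mem (X := X) x) x hx
    rw [Mf.J] at this
    simp only [fam, (c x).left_inv hx]
    erw [this]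
    simp
  obtain ⟨φ, C, gl, hs⟩ := hN (ε / B) (div_pos hε b0)
  choose j hj using hC.cov
  refine ⟨fun x => φ (j x) x, fun x => ?_⟩
  have ev : ∀ᶠ z in 𝓝 (chartAt (E n) x x), φ (j ((chartAt (E n) x).symm z))
      ((chartAt (E n) x).symm z) = φ (j x) ((chartAt (E n) x).symm z) :=
    (((chartAt (E n) x).tendsto_symm (mem_chart_source _ x)).eventually
      ((hC.opn _).mem_nhds (hj x))).mono fun z hz => by simpa using gl _ _ _ ⟨hj _, hz⟩
  refine ⟨(hs _ x (hj x)).1.congr_of_eventuallyEq ev, fun v => (le_trans ?_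
    ((hs _ x (hj x)).2 v).1).trans_eq (levi_congr (ev.mono fun z hz => congrArg (· + _) hz.symm) v)⟩
  have h4 := (b1 _ (HW.ch_mem x) _ (mem_chart_target (E n) x)).re_dotProduct_nonneg v
  change 0 ≤ (star v ⬝ᵥ (B • fam G (c x) (c x x) -
    (fam (G + β) (c x) (c x x) - fam G (c x) (c x x))) *ᵥ v).re at h4
  rw [e0, e0, Pi.add_apply, add_sub_cancel_left, Matrix.sub_mulVec, dotProduct_sub, sub_re,
    Matrix.smul_mulVec, dotProduct_smul, smul_re, smul_eq_mul] at h4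
  have := mul_nonneg (div_pos hε b0).le h4
  rw [mul_sub, ← mul_assoc, div_mul_cancel₀ _ b0.ne'] at this
  linarith

theorem ker {l : E 4 →L[ℂ] ℂ} {y : E 4}
    (h : ∀ v : Fin 3 → E 4, (∀ s, l (v s) = 0) → G72.m3 (n := 3) y v = 0) : l y = 0 :=
  by_contra fun c => c <| by
    rw [F4P.OUT.m3_inj (u := y) (AlternatingMap.ext fun v => ?_), map_zero]
    refine Eq.trans ?_ (h (fun s => v s - (l (v s) / l y) • y) fun s => by
      rw [map_sub, map_smul, smul_eq_mul, div_mul_cancel₀ _ c, sub_self])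
    refine Matrix.det_eq_of_forall_row_eq_smul_add_const
      (Matrix.vecCons 0 fun s => l (v s) / l y) 0 rfl fun i j => Fin.cases ?_ (fun i => ?_) i <;>
      simp

end OUT

theorem out (hM : St_MAIN) : St_N4F := by
  intro X ι I _ _ _ _ _ _ _ G β U f u a hG hβ hC hA ha hN hD hT hQ h1 h2
  rcases isEmpty_or_nonempty I with hI | hI
  · refine (aF4Q X G hG (OUT.nef hG hβ hC hN) h1 h2).imp_right
      fun ⟨⟨Θ, r, x, B, ce, hΘ, pos⟩, hp⟩ => ⟨⟨fun _ _ => 0, Θ, r, x, B, fun _ _ _ _ => by simp, ce,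
        fun _ y _ => ⟨contDiffAt_const, (hΘ y).1, fun v => ?_⟩, pos⟩, hp⟩
    simpa only [zero_add] using (hΘ y).2 v
  obtain ⟨σ, s1, s2⟩ := h2
  refine or_iff_not_imp_left.2 fun hP => ?_
  obtain ⟨c, p, h, i, S, ap, o⟩ := BRG.brg four_pos hG hβ hC hA (fun k => Rat.cast_pos.2 (ha k))
    hN hD
  have : (mf 4 X).Cpt := ⟨‹_›, ‹_›, ‹_›⟩
  have : h.M.Cpt := ⟨‹_›, ‹_›, ‹_›⟩
  obtain ⟨r1, -, r3⟩ := K3S.bRS 4 (mf 4 X) ι U h.opn h.cov
  have no : ∀ m, 0 < m → ∀ t, h.M.HSec m t → ¬∃ e ∈ h.M.C, ∃ z ∈ e.target, t e z ≠ 0 :=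
    fun m m0 t t1 t2 => let ⟨t', t3, t4⟩ := r3 m t t1 t2
      hP ⟨m, m0, (K3E.bMER 4 X).2 m t' t3 t4⟩
  have q0 : ∀ ρ, H1 (mf 4 X) 0 ρ → Zr (mf 4 X) ρ := fun ρ h => by_contra fun c =>
    (G72.t1 (a := 0) h c).elim fun t ht => ht.2.1 (h1 t ht.1)
  obtain ⟨x₀⟩ : Nonempty X := inferInstance
  obtain ⟨-, V, W, -, -, a3, a4, a5⟩ := st_VW IDX.aIDX K3E.bKAN aXP aXT aOS aPT1 _ _ (HW.kae hG)
    (by_contra fun c => let ⟨m, m0, t, t1, t2⟩ := KBM.ms 4 _ I S.toDk (by rwa [o.H, r1])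
      no m m0 t t1 t2) q0 (st_FH 4 X _ 2 2 rfl σ s1 s2)
    (st_FH 4 X _ 0 4 rfl (fun _ => AlternatingMap.constOfIsEmpty ℂ _ _ 1) (fun x v => by simp)
      fun c => one_ne_zero (α := ℂ) (congrArg (fun β => β x₀ 0) c))
  refine ⟨hQ hI, ⟨_, OUT.fo_mem a3, _, OUT.fo_mem a4, DIC.ind a3 a4 a5⟩, fun η d θ d' => ?_⟩
  obtain ⟨Y, y, rfl⟩ := DIC.dic d
  obtain ⟨Z, z, rfl⟩ := DIC.dic d'
  have ht : ∀ {V}, HT (mf 4 X) 1 V → HT h.M 1 V := fun v =>
    ⟨fun e he => v.hol e he.1, fun e he e' he' => v.cmp e he.1 e' he'.1⟩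
  have tg : ∀ {V}, HT (mf 4 X) 1 V → Tg S V := fun {V} v k (e : OpenPartialHomeomorph X (E 4)) he
      w hw h0 => by
    have hx := e.map_target hw
    have k1 := v.cmp _ (HW.ch_mem (e.symm w)) e he.1 _ (mem_chart_source (M := X) _ _) hx
    have k2 := BRG.dat_one he.1 hw (hC.hol k _ _ (o.sub e he hx)) (V e w)
    have k3 := OUT.ker (hT _ (OUT.fo_mem v) k _ _ (o.sub e he hx) ((o.f k e w).symm.trans h0))
    change jm (chartAt (E 4) (e.symm w) ∘ e.symm) (e (e.symm w)) *ᵥ V e (e (e.symm w)) = _ at k1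
    rw [e.right_inv hw] at k1
    rw [k1, map_smul] at k2
    rw [show S.f k e = fun w => f k (i e) (e.symm w) from funext (o.f k e)]
    exact (dotProduct_comm _ _).trans (k2.symm.trans (smul_eq_zero_of_right _ k3))
  obtain ⟨φ, Θ, r, x, B, gl, ce, hs, pos⟩ := hQ hI
  refine DIC.dep (by_contra fun c => (pos.trans_eq (NSQ.br o (by simpa only [ap] using gl)
    ce hs)).not_ge (NSQ.nu_le _ (hM _ I S Y Z (fun m m0 t t1 e he w hw =>
      by_contra fun c => no m m0 t t1 ⟨e, he, w, hw, c⟩) (ht y) (ht z) (tg y) (tg z)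
        fun k => c fun e he w hw => ?_)))
  obtain ⟨e', e1, e2, e3, e4⟩ := KP.T6.restr (mf 4 X) (U := U) h.opn h.cov he (e.map_target hw)
  have q : ∀ {V}, HT (mf 4 X) 1 V → V e' (e' (e.symm w)) = V e w := fun v => by
    have k1 := v.cmp e he e' e1.1 _ (e.map_target hw) e2
    have k2 : (mf 4 X).J e e' (e.symm w) = 1 := by
      rw [Mf.J, e3, e4]
      exact (mTR 4 _).2.2.1 e he _ (e.map_target hw)
    simpa only [jd, k2, Matrix.one_mulVec, Matrix.det_one, one_zpow, one_smul, e.right_inv hw]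
      using k1
  exact (congrArg₂ wg (q y) (q z)).symm.trans (k e' e1 _ (e'.map_source e2))

end Pool.Agent.Lib.N4S
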