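import Pool.Agent.Lib.N4S.B_ADM
import Pool.Agent.Lib.N4S.B_AFX
import Pool.Agent.Lib.N4S.B_EXC
import Pool.Agent.Lib.N4S.B_FLP
import Pool.Agent.Lib.N4S.B_GEN
import Pool.Agent.Lib.N4S.B_HLX
import Pool.Agent.Lib.N4S.B_INF
import Pool.Agent.Lib.N4S.B_KV
import Pool.Agent.Lib.N4S.B_LB
import Pool.Agent.Lib.N4S.B_LQY
import Pool.Agent.Lib.N4S.B_MAIN
import Pool.Agent.Lib.N4S.B_N4H
import Pool.Agent.Lib.N4S.B_N4L
import Pool.Agent.Lib.N4S.B_NIL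
import Pool.Agent.Lib.N4S.B_NM
import Pool.Agent.Lib.N4S.B_OB1
import Pool.Agent.Lib.N4S.B_OB2
import Pool.Agent.Lib.N4S.B_PA
import Pool.Agent.Lib.N4S.B_PB
import Pool.Agent.Lib.N4S.B_PPI
import Pool.Agent.Lib.N4S.B_PQ
import Pool.Agent.Lib.N4S.B_PR1
import Pool.Agent.Lib.N4S.B_PRD
import Pool.Agent.Lib.N4S.B_R1
import Pool.Agent.Lib.N4S.B_R2
import Pool.Agent.Lib.N4S.B_REC
import Pool.Agent.Lib.N4S.B_SEQ
import Pool.Agent.Lib.N4S.B_SG
import Pool.Agent.Lib.N4S.B_SMV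
import Pool.Agent.Lib.N4S.B_UPS
import Pool.Agent.Lib.N4S.B_WPT
import Pool.Agent.Lib.N4S.B_ZW
import Pool.Agent.Lib.N4S.Lb71c
import Pool.Agent.Lib.N4S.Out

/-! Project n4s: the theorem. -/

namespace Pool.Agent.Lib.N4S

theorem aN4F : St_N4F :=
  have hSEQ : St_SEQ := st_SEQ
  have hZW : St_ZW := st_ZW
  have hINF : St_INF := st_INF
  have hOB1 : St_OB1 := st_OB1
  have hOB2 : St_OB2 := st_OB2
  have hADM : St_ADM := st_ADM
  have hHLX : St_HLX := st_HLX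
  have hWPT : St_WPT := st_WPT hADM
  have hLB3 : St_LB3 := lb3
  have hLB : St_LB := st_LB hLB3
  have hSG : St_SG := st_SG
  have hPR1 : St_PR1 := st_PR1 hSG
  have hNM : St_NM := st_NM
  have hSMV : St_SMV := st_SMV
  have hFLP : St_FLP := st_FLP hADM hINF hSG
  have hKV : St_KV := st_KV
  have hEXC : St_EXC := st_EXC hFLP hLB hKV hADM hPR1
  have hPPI : St_PPI := st_PPI
  have hREC : St_REC := st_REC
  have hNIL : St_NIL := st_NIL hINF hREC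
  have hPRD : St_PRD := st_PRD
  have hGEN : St_GEN := st_GEN
  have hUPS : St_UPS := st_UPS hGEN hLB hEXC
  have hR2 : St_R2 := st_R2 hPRD hUPS hPR1 hINF
  have hN4L : St_N4L := st_N4L
  have hLQY : St_LQY := st_LQY hN4L
  have hR1 : St_R1 := st_R1 hPR1 hNM hSMV hEXC hPPI hNIL hR2 hUPS hINF hLQY
  have hHQ : St_HQ := st_HQ
  have hPB : St_PB := st_PB
  have hPA : St_PA := st_PA hPR1
  have hPQ : St_PQ := st_PQ hOB1 hOB2 hADM hHLX hWPT hLB hR1 hHQ hPB hPA hPR1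
  have hAFX : St_AFX := st_AFX
  have hMAIN : St_MAIN := st_MAIN hSEQ hZW hINF hPQ hSMV hAFX hR2
  out hMAIN

end Pool.Agent.Lib.N4S
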