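import Pool.Agent.Lib.N4S.Defs

/-! Project n4s: the forms given by the relative ampleness. -/

open scoped Classical Topology ContDiff ComplexOrder Matrix
open Set Filter MeasureTheory

set_option linter.unusedVariables false

noncomputable section

namespace Pool.Agent.Lib.N4S.A23

open Pool.Agent.Lib.SV (E)
open Pool.Agent.Lib.HS32 Pool.Agent.Lib.HLK Pool.Agent.Lib.F4 Pool.Agent.Lib.NU4
open Pool.Agent.Lib.K3S (Dk)

variable {n : ℕ} {M : Mf n} {I : Type} [Fintype I] (D : Dk M I)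

theorem sg_sm (k : I) : M.Sm (sg D k) := (D.wt k).nr_sm (D.hol k).toSecC

theorem sg_nn (k : I) (x : M.X) : 0 ≤ sg D k x := Mf.nrC_nonneg _ _ x

theorem sg_rep (k : I) :
    M.Rep (sg D k) fun e z => Complex.normSq (D.f k e z) * Real.exp (-D.φ k e z) :=
  (D.wt k).nr_rep (D.hol k).toSecC

theorem f_hol (k : I) : M.All fun e z => HolN (D.f k e) z := fun e he z hz =>
  Mf.AllOn.ev (D.hol k).hol he hz

theorem of_open : IsOpen (Of D) := by
  have : Of D = ⋂ k, {x | sg D k x ≠ 0} := by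
    ext x
    simp [Of]
  rw [this]
  exact isOpen_iInter_of_finite fun k => isOpen_ne_fun (sg_sm D k).continuous continuous_const

theorem f_ne (k : I) : M.All fun e z => e.symm z ∈ Of D → D.f k e z ≠ 0 := fun e he z hz h h0 =>
  h k (by rw [sg_rep D k e he z hz]; simp [h0])

/-- The logarithm of the norm, near a point off the divisor. -/
theorem log_ev (k : I) : M.All fun e z => D.f k e z ≠ 0 →
    (fun w => Real.log (sg D k (e.symm w))) =ᶠ[𝓝 z]
      fun w => Real.log (Complex.normSq (D.f k e w)) - D.φ k e w := fun e he z hz h => by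
  filter_upwards [Mf.AllOn.ev (sg_rep D k) he hz,
    ((mHOL n _ z).2.2 (f_hol D k e he z hz)).1.continuousAt.eventually_ne h] with w h1 h2
  rw [h1, Real.log_mul (by simpa using h2) (Real.exp_pos _).ne', Real.log_exp]
  ring

/-- The derivatives of the logarithm of the norm. -/
theorem log_sg (k : I) : M.All fun e z => D.f k e z ≠ 0 →
    ContDiffAt ℝ ∞ (fun w => Real.log (sg D k (e.symm w))) z ∧
    M.hs (fun x => Real.log (sg D k x)) e z = -M.hw (D.φ k) e z ∧
    ∀ j, dz j (M.lc (fun x => Real.log (sg D k x)) e) z =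
      dz j (D.f k e) z / D.f k e z - dz j (fun w => (D.φ k e w : ℂ)) z := fun e he z hz h => by
  have ev := log_ev D k e he z hz h
  obtain ⟨c1, c2, c3⟩ := ((mHOL n _ z).2.2 (f_hol D k e he z hz)).2.2.2 h
  have c4 := (D.wt k).sm e he z hz
  have ev2 : M.lc (fun x => Real.log (sg D k x)) e =ᶠ[𝓝 z]
      fun w => (Real.log (Complex.normSq (D.f k e w)) : ℂ) - (D.φ k e w : ℂ) :=
    ev.mono fun w hw => by
      simp only [Mf.lc]
      rw [← Complex.ofReal_sub]
      exact congrArg _ hw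
  refine ⟨(c1.sub c4).congr_of_eventuallyEq ev, ?_, fun j => ?_⟩
  · simp only [Mf.hs, Mf.hw]
    rw [hess_congr ev2, hess_sub (cd_ofReal c1) (cd_ofReal c4), c2, zero_sub]
  · rw [dz_congr ev2, dz_sub (cd_diff (cd_ofReal c1)) (cd_diff (cd_ofReal c4)), c3]

/-- The potential with logarithmic poles. -/
def lg (w : I → ℕ) (g : M.X → ℝ) (x : M.X) : ℝ := ∑ k, (w k : ℝ) * Real.log (sg D k x) - g x

/-- The positive form. -/
def af (w : I → ℕ) (g : M.X → ℝ) (C : ℝ) : M.Fam (Mat n) :=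
  C • D.β - (∑ k, (w k : ℝ) • M.hw (D.φ k) + M.hs g)

/-- A function of the potential, extended by zero. -/
def cv (w : I → ℕ) (g : M.X → ℝ) (χ : ℝ → ℝ) : M.X → ℝ := (Of D).indicator fun x => χ (lg D w g x)

theorem hess_fsum {ι : Type} {s : Finset ι} {f : ι → E n → ℂ} {z : E n}
    (hf : ∀ a ∈ s, ContDiffAt ℝ ∞ (f a) z) :
    hess (fun y => ∑ a ∈ s, f a y) z = ∑ a ∈ s, hess (f a) z := by
  induction s using Finset.induction_on with
  | empty => simp
  | insert a s ha ih =>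
    simp only [Finset.sum_insert ha]
    rw [hess_add (hf a (Finset.mem_insert_self a s))
      (ContDiffAt.sum fun b hb => hf b (Finset.mem_insert_of_mem hb)),
      ih fun b hb => hf b (Finset.mem_insert_of_mem hb)]

variable {D} {w : I → ℕ} {g : M.X → ℝ} {χ : ℝ → ℝ} {C R : ℝ}

/-- The derivatives of the potential. -/
theorem lg_off (hg : M.Sm g) (C : ℝ) : M.All fun e z => e.symm z ∈ Of D →
    ContDiffAt ℝ ∞ (fun y => lg D w g (e.symm y)) z ∧
    M.hs (lg D w g) e z = af D w g C e z - C • D.β e z ∧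
    ∀ j, dz j (M.lc (lg D w g) e) z = ∑ k, (w k : ℂ) *
      (dz j (D.f k e) z / D.f k e z - dz j (fun y => (D.φ k e y : ℂ)) z) - dz j (M.lc g e) z :=
  fun e he z hz h => by
  have a := fun k => log_sg D k e he z hz (f_ne D k e he z hz h)
  have cs : ∀ k ∈ (Finset.univ : Finset I), ContDiffAt ℝ ∞
      (fun y => (w k : ℂ) * M.lc (fun x => Real.log (sg D k x)) e y) z :=
    fun k _ => contDiffAt_const.mul (cd_ofReal (a k).1)
  have e1 : M.lc (lg D w g) e = fun y =>
      (∑ k, (w k : ℂ) * M.lc (fun x => Real.log (sg D k x)) e y) - M.lc g e y := by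
    funext y
    simp only [Mf.lc, lg]
    push_cast
    rfl
  have cg := hg.lc e he z hz
  refine ⟨(ContDiffAt.sum fun k _ => contDiffAt_const.mul (a k).1).sub (hg e he z hz), ?_,
    fun j => ?_⟩
  · have b : ∀ k ∈ (Finset.univ : Finset I),
        hess (fun y => (w k : ℂ) * M.lc (fun x => Real.log (sg D k x)) e y) z =
          -((w k : ℝ) • M.hw (D.φ k) e z) := fun k _ => by
      have h2 := (a k).2.1
      simp only [Mf.hs] at h2
      rw [hess_const_mul _ (f := M.lc (fun x => Real.log (sg D k x)) e) (cd_ofReal (a k).1), h2]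
      ext i j
      simp
    simp only [Mf.hs, af, Pi.sub_apply, Pi.add_apply, Pi.smul_apply, Finset.sum_apply]
    rw [e1, hess_sub (ContDiffAt.sum cs) cg, hess_fsum cs, Finset.sum_congr rfl b,
      Finset.sum_neg_distrib]
    abel
  · rw [e1, dz_sub (cd_diff (ContDiffAt.sum cs)) (cd_diff cg), dz_sum fun k hk => cd_diff (cs k hk)]
    refine congrArg (· - _) (Finset.sum_congr rfl fun k _ => ?_)
    rw [dz_const_mul _ (f := M.lc (fun x => Real.log (sg D k x)) e) (cd_diff (cd_ofReal (a k).1)),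
      (a k).2.2 j]

/-- An upper bound of the potential by the logarithm of each norm. -/
theorem lg_le (h1 : ∀ k x, sg D k x ≤ 1) (hw : ∀ k, 0 < w k) {B : ℝ} (hB : ∀ x, ‖g x‖ ≤ B) (k : I)
    (x : M.X) : lg D w g x ≤ Real.log (sg D k x) + B := by
  have l0 : ∀ j, Real.log (sg D j x) ≤ 0 := fun j => Real.log_nonpos (sg_nn D j x) (h1 j x)
  have h2 : ∑ j, (w j : ℝ) * Real.log (sg D j x) ≤ (w k : ℝ) * Real.log (sg D k x) := by
    rw [← Finset.add_sum_erase _ _ (Finset.mem_univ k)]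
    exact add_le_of_nonpos_right (Finset.sum_nonpos fun j _ =>
      mul_nonpos_of_nonneg_of_nonpos (Nat.cast_nonneg _) (l0 j))
  have h3 : (1 : ℝ) ≤ w k := by exact_mod_cast hw k
  have h4 := (abs_le.1 (hB x)).1
  have := l0 k
  unfold lg
  nlinarith

/-- The sets where the potential is bounded below. -/
theorem cpt [M.Cpt] (h1 : ∀ k x, sg D k x ≤ 1) (hw : ∀ k, 0 < w k) (hg : M.Sm g) (R : ℝ) :
    ∃ K : Set M.X, IsCompact K ∧ IsClosed K ∧ K ⊆ Of D ∧ ∀ x ∈ Of D, x ∉ K → lg D w g x < -R := by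
  obtain ⟨B, -, hB⟩ := hg.exists_bound
  have c : IsClosed {x | ∀ k, Real.exp (-R - B) ≤ sg D k x} := by
    rw [Set.ofPred_forall]
    exact isClosed_iInter fun k => isClosed_le continuous_const (sg_sm D k).continuous
  refine ⟨_, c.isCompact, c, fun x hx k => ((Real.exp_pos _).trans_le (hx k)).ne', fun x hx h => ?_⟩
  obtain ⟨k, hk⟩ := not_forall.1 h
  have := (Real.log_lt_iff_lt_exp ((sg_nn D k x).lt_of_ne' (hx k))).2 (not_le.1 hk)
  linarith [lg_le h1 hw hB k x]

theorem cv_of {x : M.X} (h : x ∈ Of D) : cv D w g χ x = χ (lg D w g x) := indicator_of_mem h _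

/-- The function of the potential is smooth with compact support off the divisors. -/
theorem cv_sm [M.Cpt] (h1 : ∀ k x, sg D k x ≤ 1) (hw : ∀ k, 0 < w k) (hg : M.Sm g)
    (hχ : ContDiff ℝ ∞ χ) (h0 : ∀ t ≤ -R, χ t = 0) : M.Sm (cv D w g χ) ∧
    (∃ K : Set M.X, IsCompact K ∧ K ⊆ Of D ∧ (∀ x ∉ K, cv D w g χ x = 0) ∧
      M.All fun e z => e.symm z ∉ K → M.hs (cv D w g χ) e z = 0 ∧ gd (M.lc (cv D w g χ) e) z = 0) ∧
    M.All fun e z => e.symm z ∈ Of D →
      M.hs (cv D w g χ) e z = deriv χ (lg D w g (e.symm z)) • M.hs (lg D w g) e z +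
        deriv (deriv χ) (lg D w g (e.symm z)) • M.ds (lg D w g) (lg D w g) e z ∧
      gd (M.lc (cv D w g χ) e) z =
        ((deriv χ (lg D w g (e.symm z)) : ℝ) : ℂ) • gd (M.lc (lg D w g) e) z := by
  obtain ⟨K, k1, k2, k3, k4⟩ := cpt h1 hw hg R
  have z0 : ∀ x ∉ K, cv D w g χ x = 0 := fun x hx => by
    by_cases h : x ∈ Of D
    · rw [cv_of h, h0 _ (k4 x h hx).le]
    · exact indicator_of_notMem h _
  have ct : M.All fun e z => ContinuousAt e.symm z := fun e he z hz => e.continuousAt_symm hz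
  have e0 : M.All fun e z => e.symm z ∉ K → (cv D w g χ ∘ e.symm) =ᶠ[𝓝 z] fun _ => 0 :=
    fun e he z hz h => ((ct e he z hz).eventually (k2.isOpen_compl.mem_nhds h)).mono
      fun y hy => z0 _ hy
  have e1 : M.All fun e z => e.symm z ∈ Of D →
      (cv D w g χ ∘ e.symm) =ᶠ[𝓝 z] fun y => χ (lg D w g (e.symm y)) :=
    fun e he z hz h => ((ct e he z hz).eventually ((of_open D).mem_nhds h)).mono
      fun y hy => cv_of hy
  refine ⟨fun e he z hz => ?_, ⟨K, k1, k3, z0, fun e he z hz h => ?_⟩, fun e he z hz h => ?_⟩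
  · by_cases h : e.symm z ∈ K
    · exact (hχ.contDiffAt.comp z (lg_off hg 0 e he z hz (k3 h)).1).congr_of_eventuallyEq
        (e1 e he z hz (k3 h))
    · exact contDiffAt_const.congr_of_eventuallyEq (e0 e he z hz h)
  · have e2 : M.lc (cv D w g χ) e =ᶠ[𝓝 z] fun _ => 0 := (e0 e he z hz h).mono fun y hy => by
      simp only [Mf.lc]
      exact_mod_cast hy
    exact ⟨(hess_congr e2).trans (hess_const 0), funext fun j => (dz_congr e2).trans (by simp)⟩
  · have e2 : M.lc (cv D w g χ) e =ᶠ[𝓝 z] fun y => (χ (lg D w g (e.symm y)) : ℂ) :=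
      (e1 e he z hz h).mono fun y hy => congrArg Complex.ofReal hy
    have c := (lg_off (w := w) hg 0 e he z hz h).1
    refine ⟨(hess_congr e2).trans ((BLAP.hess_comp c fun _ => hχ.contDiffAt).trans ?_),
      funext fun j => (dz_congr e2).trans ?_⟩
    · ext i j
      simp [Mf.hs, Mf.ds]
      rfl
    · exact dz_comp_real (hχ.differentiable (by simp) _).hasDerivAt (c.differentiableAt (by simp))

/-- The data given by the relative ampleness. -/
theorem amp [M.Cpt] (h : KS.AmpM D) : ∃ (w : I → ℕ) (g : M.X → ℝ) (C c : ℝ), (∀ k, 0 < w k) ∧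
    M.Sm g ∧ 0 ≤ C ∧ 0 < c ∧ M.Kae (af D w g C) ∧ M.Le (c • D.H) (af D w g C) := by
  obtain ⟨w, g, C, hw, hg, hp⟩ := h.amp
  have cs : ∀ s : Finset I, M.Clo (∑ k ∈ s, (w k : ℝ) • M.hw (D.φ k)) := fun s => by
    induction s using Finset.induction_on with
    | empty => simpa using Mf.clo_zero
    | insert a s ha ih =>
      rw [Finset.sum_insert ha]
      exact ((D.wt a).clo.smul _).add ih
  have cl : M.Clo (af D w g (max C 0)) :=
    (D.cβ.smul _).sub ((cs _).add ((mHES n M).1 g hg))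
  have pd : M.All fun e z => (af D w g (max C 0) e z).PosDef := fun e he z hz => by
    have h1 := Mf.psd_rsmul (D.nβ e he z hz) (sub_nonneg.2 (le_max_left C 0))
    have h2 := (hp e he z hz).add_posSemidef h1
    refine (congrArg Matrix.PosDef ?_).mp h2
    simp only [af, Pi.sub_apply, Pi.add_apply, Pi.smul_apply, Finset.sum_apply, Pi.zero_apply,
      sub_zero, sub_smul]
    abel
  have km : M.Kae (af D w g (max C 0)) := { cl with pos := pd }
  obtain ⟨B, B0, b1, -⟩ := (mBD n M _ km.toMet).1 D.H D.kae.toForm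
  refine ⟨w, g, max C 0, B⁻¹, hw, hg, le_max_right _ _, inv_pos.2 B0, km, ?_⟩
  have := b1.smul (inv_pos.2 B0).le
  rwa [smul_smul, inv_mul_cancel₀ B0.ne', one_smul] at this

/-- The forms `C β + hs (χ lg)`. -/
theorem ga [M.Cpt] (h1 : ∀ k x, sg D k x ≤ 1) (hw : ∀ k, 0 < w k) (hg : M.Sm g)
    (hχ : ContDiff ℝ ∞ χ) (h0 : ∀ t ≤ -R, χ t = 0) (C : ℝ) : M.All fun e z => e.symm z ∈ Of D →
    (C • D.β + M.hs (cv D w g χ)) e z = ((1 - deriv χ (lg D w g (e.symm z))) * C) • D.β e z +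
      deriv χ (lg D w g (e.symm z)) • af D w g C e z +
      deriv (deriv χ) (lg D w g (e.symm z)) • M.ds (lg D w g) (lg D w g) e z := fun e he z hz h => by
  simp only [Pi.add_apply, Pi.smul_apply]
  rw [((cv_sm h1 hw hg hχ h0).2.2 e he z hz h).1, (lg_off hg C e he z hz h).2.1]
  module

theorem ds_psd (hg : M.Sm g) : M.All fun e z => e.symm z ∈ Of D →
    (M.ds (lg D w g) (lg D w g) e z).PosSemidef ∧
    M.ds (lg D w g) (lg D w g) e z =
      Matrix.vecMulVec (star (gd (M.lc (lg D w g) e) z)) (gd (M.lc (lg D w g) e) z) :=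
  fun e he z hz h => by
  have c := cd_diff (cd_ofReal (lg_off (w := w) hg 0 e he z hz h).1)
  have e1 : M.ds (lg D w g) (lg D w g) e z =
      Matrix.vecMulVec (star (gd (M.lc (lg D w g) e) z)) (gd (M.lc (lg D w g) e) z) := by
    ext i j
    simp only [Mf.ds, dd_apply, Matrix.vecMulVec_apply, Pi.star_apply, gd]
    exact congrArg (· * _) (star_dz_ofReal c).symm
  exact ⟨e1 ▸ Matrix.posSemidef_vecMulVec_star_self _, e1⟩

/-- The lower bound. -/
theorem ga_ge [M.Cpt] (h1 : ∀ k x, sg D k x ≤ 1) (hw : ∀ k, 0 < w k) (hg : M.Sm g)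
    (hχ : ContDiff ℝ ∞ χ) (h0 : ∀ t ≤ -R, χ t = 0) (C0 : 0 ≤ C) {c : ℝ} (c0 : 0 ≤ c)
    (hc : M.Le (c • D.H) (af D w g C)) (d1 : ∀ t, 0 ≤ deriv χ t ∧ deriv χ t ≤ 1)
    (d2 : ∀ t, 0 ≤ deriv (deriv χ) t) : M.Clo (C • D.β + M.hs (cv D w g χ)) ∧
    M.Le 0 (C • D.β + M.hs (cv D w g χ)) ∧ M.All fun e z => e.symm z ∈ Of D →
      ((C • D.β + M.hs (cv D w g χ)) e z - ((deriv χ (lg D w g (e.symm z)) * c) • D.H e z +
        deriv (deriv χ) (lg D w g (e.symm z)) • M.ds (lg D w g) (lg D w g) e z)).PosSemidef := by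
  obtain ⟨s1, ⟨K, -, k2, -, k3⟩, -⟩ := cv_sm h1 hw hg hχ h0
  have key : M.All fun e z => e.symm z ∈ Of D →
      ((C • D.β + M.hs (cv D w g χ)) e z - ((deriv χ (lg D w g (e.symm z)) * c) • D.H e z +
        deriv (deriv χ) (lg D w g (e.symm z)) • M.ds (lg D w g) (lg D w g) e z)).PosSemidef :=
    fun e he z hz h => by
    rw [ga h1 hw hg hχ h0 C e he z hz h]
    have p1 := Mf.psd_rsmul (D.nβ e he z hz)
      (mul_nonneg (sub_nonneg.2 (d1 (lg D w g (e.symm z))).2) C0)
    have p2 := Mf.psd_rsmul (hc e he z hz) (d1 (lg D w g (e.symm z))).1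
    refine (congrArg Matrix.PosSemidef ?_).mp (p1.add p2)
    simp only [Pi.smul_apply, Pi.zero_apply, sub_zero]
    module
  refine ⟨(D.cβ.smul _).add ((mHES n M).1 _ s1), fun e he z hz => ?_, key⟩
  by_cases h : e.symm z ∈ Of D
  · have p1 := Mf.psd_rsmul (D.kae.pos e he z hz).posSemidef
      (mul_nonneg (d1 (lg D w g (e.symm z))).1 c0)
    have p2 := Mf.psd_rsmul (ds_psd (w := w) hg e he z hz h).1 (d2 (lg D w g (e.symm z)))
    refine (congrArg Matrix.PosSemidef ?_).mp ((key e he z hz h).add (p1.add p2))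
    simp only [Pi.zero_apply, sub_zero]
    abel
  · have p1 := Mf.psd_rsmul (D.nβ e he z hz) C0
    refine (congrArg Matrix.PosSemidef ?_).mp p1
    simp only [Pi.add_apply, Pi.smul_apply, Pi.zero_apply, sub_zero]
    rw [(k3 e he z hz fun hk => h (k2 hk)).1, add_zero]

end Pool.Agent.Lib.N4S.A23
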