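import Pool.Agent.Lib.N4S.Blue
import Pool.Agent.Lib.N4S.Nc4d

/-! Project n4s: the weights are admissible. -/

namespace Pool.Agent.Lib.N4S

theorem st_ADM : St_ADM := fun _ _ _ _ _ S _ q _ hZ hm => Nc4.adm q S.pos hZ (by omega)

end Pool.Agent.Lib.N4S
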