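import Pool.Agent.Lib.N4S.B_PQ
import Pool.Agent.Lib.N4S.B_LQY

/-! Project n4s, row HQ: the divergence passes to the multiples of a parallel field. -/

open scoped Topology Matrix
open Set Filter

namespace Pool.Agent.Lib.N4S

open Pool.Agent.Lib.HS32 Pool.Agent.Lib.HLK Pool.Agent.Lib.F4 Pool.Agent.Lib.NU4

theorem hq_of_n4l (h : St_N4L) : St_HQ := by
  intro n M _ I _ S a q W hZ hW h1 h2 h3 h4 e he U Y hU u1 u2 hY z
  obtain ⟨t, t1, t2, -⟩ := h n M I S a q 2 _ hZ le_rfl h1 h2 h3 h4 e he U Y hU u1 u2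
    (fun w hw i => (differentiableOn_pi.1 hY i).eventually_differentiableAt (hU.mem_nhds hw))
    fun w hw => by
      have := (st_FK n (W e w) (Y w) 0 0 0 0).2.2.2.2.2.2.2.2.2.2.2.2.2.2.2.1.2 (z w hw)
      rw [vec, Matrix.mulVec_mulVec, (st_FK n (Y w) (W e w) 0 0 0 0).1, Matrix.neg_mulVec,
        ← Matrix.mulVec_mulVec, this, neg_zero]
  refine ⟨t, t1, fun w hw => funext fun k => ?_⟩
  have := congrFun (t2 w hw) {k}
  rw [P43.pfv hW he (u1 hw), Matrix.mulVec_smul, vec] at this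
  simp only [Pi.smul_apply, P43.cvk, smul_eq_mul] at this ⊢
  rw [← this]
  norm_num

end Pool.Agent.Lib.N4S
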