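import Pool.Agent.Lib.N4S.Defs
import Pool.Agent.Lib.NU4.Ext91

/-! Project n4s: the numerical dimension of a terminal minimal model without sections, in dimension
four. Blueprint. -/

open scoped Classical Topology ContDiff ComplexOrder Matrix
open Set Filter MeasureTheory

set_option linter.unusedVariables false

noncomputable section

namespace Pool.Agent.Lib.N4S

open Pool.Agent.Lib.SV (E)
open Pool.Agent.Lib.HS32 Pool.Agent.Lib.HLK Pool.Agent.Lib.F4 Pool.Agent.Lib.NU4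
open Pool.Agent.Lib.K3E (kan wk lk)
open Pool.Agent.Lib.EXH (aw)
open Pool.Agent.Lib.IDX (Nx)

/-! ### The data -/

/-- The parameters exist. -/
def St_SEQ : Prop := Nonempty Sq

/-- The potentials exist. -/
def St_ZW : Prop := ∀ (n : ℕ) (M : Mf n) [M.Cpt] (I : Type) [Fintype I] (S : Sd M I), ∃ a, Zs S a

/-- Only finitely many levels carry tensors. -/
def St_INF : Prop := ∀ (n : ℕ) (M : Mf n) [M.Cpt] (I : Type) [Fintype I] (S : Sd M I), NoS M →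
  {m | ∃ W, HM M m W ∧ Nz W}.Finite ∧ {m | ∃ h, HM2 M m h ∧ Nz h}.Finite

/-- The local model at every point. -/
def St_LMX : Prop := ∀ (n : ℕ) (M : Mf n) [M.Cpt] (I : Type) [Fintype I] (S : Sd M I) (x : M.X),
  Nonempty (Lm S.toDk S.u x)

/-- The norms, the open set and the exponents. -/
def St_KA : Prop := ∀ (n : ℕ) (M : Mf n) [M.Cpt] (I : Type) [Fintype I] (S : Sd M I),
  (∀ k, DX.Sg M (M.hw (S.φ k)) (sg S.toDk k) ∧ 0 < al S.toDk k ∧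
    M.All fun e z => sg S.toDk k (e.symm z) =
      Complex.normSq (S.f k e z) * Real.exp (-S.φ k e z) ∧ HolN (S.f k e) z) ∧
  IsOpen (Of S.toDk) ∧ Dense (Of S.toDk) ∧ M.mu S.H (Of S.toDk)ᶜ = 0 ∧
  (M.All fun e z => (e.symm z ∈ Of S.toDk ↔ ∀ k, S.f k e z ≠ 0) ∧
    ∃ᶠ w in 𝓝 z, w ∈ e.target ∧ e.symm w ∈ Of S.toDk) ∧
  (∀ m k, 0 ≤ ka S.toDk m k ∧ ka S.toDk m k < 1 ∧ (1 ≤ m →
    ((m : ℝ) - 1) * al S.toDk k = fl S.toDk m k + ka S.toDk m k ∧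
    fl S.toDk (m + S.c) k = fl S.toDk m k + S.a k)) ∧
  ∀ K, Cp S K → (∃ c : ℝ, 0 < c ∧ ∀ k, ∀ x ∈ K, c ≤ sg S.toDk k x) ∧
    ∃ (ρ : M.X → ℝ) (K' : Set M.X), M.Sm ρ ∧ Cp S K' ∧ (∀ x, 0 ≤ ρ x ∧ ρ x ≤ 1) ∧
      (∀ᶠ x in 𝓝ˢ K, ρ x = 1) ∧ tsupport ρ ⊆ K'

/-- The potentials and their curvature. -/
def St_KB : Prop := ∀ (n : ℕ) (M : Mf n) [M.Cpt] (I : Type) [Fintype I] (S : Sd M I),
  M.Clo (bf S - M.ric S.H) ∧
  (M.All fun e z => (bf S - M.ric S.H) e z = (S.toDk.T + M.hs S.u) e z) ∧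
  (∀ ε v, M.Sm v → M.Clo (oms S ε v)) ∧
  (∀ d : ℝ, 0 < d → (∀ k, M.Sm (fun x => Real.log (sg S.toDk k x + d)) ∧ M.All fun e z =>
      (M.hw (S.φ k) e z + M.hs (fun x => Real.log (sg S.toDk k x + d)) e z -
        (d / (sg S.toDk k (e.symm z) + d)) • M.hw (S.φ k) e z).PosSemidef ∧
      sg S.toDk k (e.symm z) • (M.hw (S.φ k) e z +
        M.hs (fun x => Real.log (sg S.toDk k x + d)) e z -
        (d / (sg S.toDk k (e.symm z) + d)) • M.hw (S.φ k) e z) =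
        (d / (sg S.toDk k (e.symm z) + d) ^ 2) • M.ds (sg S.toDk k) (sg S.toDk k) e z) ∧
    (∀ v, M.Sm v → M.Sm (pot S v d)) ∧ (∀ m, M.Sm (lf S m d)) ∧
    (d ≤ 1 / 2 → ∀ x, (∀ v, pot S v d x ≤ v x) ∧ ∀ m, lf S m d x ≤ 0)) ∧
  (∀ v, M.Sm v → M.All fun e z => e.symm z ∈ Of S.toDk →
    ContDiffAt ℝ ∞ (pot S v 0 ∘ e.symm) z ∧ ContDiffAt ℝ ∞ (ph S v 0 e) z ∧
    hess (ph S v 0 e) z = oms S 0 v e z) ∧
  (∀ m, 1 ≤ m → M.All fun e z => M.hw (pm S m) e z + M.ric S.H e z =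
    ((m : ℝ) - 1) • (bf S - M.ric S.H) e z + ∑ k, ka S.toDk m k • M.hw (S.φ k) e z) ∧
  ∀ (a : ℝ → M.X → ℝ) (q : Sq), Zs S a → (∀ j, M.Sm (tp a q j) ∧ M.Sm (pj S a q j) ∧
      (∀ x, tp a q j x ≤ 0 ∧ a (q.e j) x ≤ tp a q j x ∧ -q.N j - 1 ≤ tp a q j x) ∧
      (∀ m, M.Sm (ww S a q m j) ∧ (1 ≤ m → ∀ x, ww S a q m j x ≤ 0)) ∧
      M.Le 0 (oms S (q.e j) (a (q.e j))) ∧ M.All fun e z =>
        (bf S - M.ric S.H) e z + M.hs (tp a q j) e z =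
          deriv (q.χ j) (a (q.e j) (e.symm z)) • (oms S (q.e j) (a (q.e j)) e z - q.e j • S.H e z) +
          (1 - deriv (q.χ j) (a (q.e j) (e.symm z))) • (bf S - M.ric S.H) e z +
          deriv (deriv (q.χ j)) (a (q.e j) (e.symm z)) • M.ds (a (q.e j)) (a (q.e j)) e z) ∧
    (∀ p : ℝ, ∃ C : ℝ, ∀ j, ∫ x, Real.exp (-(p * tp a q j x)) ∂M.mu S.H ≤ C) ∧
    (∀ p : ℝ, Tendsto (fun j => Real.exp (p * q.N j) *
      (M.mu S.H).real {x | a (q.e j) x ≤ -q.N j}) atTop (𝓝 0)) ∧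
    (∃ C : ℝ, ∀ j, ∫ x, -pj S a q j x ∂M.mu S.H ≤ C) ∧
    ∃ C : ℝ, ∀ j, ∫ x, Real.exp (a (q.e j) x) * M.gr S.H (a (q.e j)) (a (q.e j)) x ∂M.mu S.H ≤ C ∧
      ∫ x, Real.exp (tp a q j x) * M.gr S.H (tp a q j) (tp a q j) x ∂M.mu S.H ≤ C

/-- The bundles of the levels. -/
def St_UP : Prop := ∀ (n : ℕ) (M : Mf n) [M.Cpt] (I : Type) [Fintype I] (S : Sd M I),
  (∀ m, M.WtC (Lb S m) (pm S m)) ∧
  (∃ A ψ, ∀ m w, 1 ≤ m → M.Sm w →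
    Nx (Lb S m) (aw M (pm S m) w) A ψ (Lb S (m + S.c)) (aw M (pm S (m + S.c)) w)) ∧
  ∀ m W, (∀ W' x, (lk S.H m).pp (up S m W) (up S m W') x = (lb S m).pp W W' x *
        (Real.exp (((m : ℝ) - 1) * S.u x) * ∏ k, sg S.toDk k x ^ fl S.toDk m k : ℝ) ∧
      (lk S.H m).pn (up S m W) x = (lb S m).pn W x *
        (Real.exp (((m : ℝ) - 1) * S.u x) * ∏ k, sg S.toDk k x ^ fl S.toDk m k) ∧
      ∀ T, cu T (lk S.H m) (up S m W) x = cu T (lb S m) W x *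
        (Real.exp (((m : ℝ) - 1) * S.u x) * ∏ k, sg S.toDk k x ^ fl S.toDk m k)) ∧
    ((lb S m).Sec W → (lk S.H m).Sec (up S m W) ∧ (Hol W → HM M m (up S m W)) ∧
      (Nz W ↔ Nz (up S m W)) ∧ (∀ q, (lb S m).Sec (prt M q W) ∧ (Hol W → Hol (prt M q W)) ∧
        ((M.All fun e z => e.symm z ∈ Of S.toDk → Dg q (up S m W e z)) → DgM M q W)) ∧
      M.All fun e z => (oQ S.H).ap (up S m W) e z = up S m ((oQ S.H).ap W) e z ∧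
        (e.symm z ∈ Of S.toDk → ∀ (v : M.X → ℝ) (d : ℝ), M.Sm v → 0 < d → 1 ≤ m →
          (oP S.H (wt M S.H m (pot S v d))).ap (up S m W) e z =
            up S m ((oP S.H (aw M (pm S m) fun x => ((m : ℝ) - 1) * v x + lf S m d x)).ap W) e z +
            ∑ k, ((fl S.toDk m k * d / (sg S.toDk k (e.symm z) * (sg S.toDk k (e.symm z) + d)) : ℝ) :
              ℂ) • up S m (iot M (sg S.toDk k) W) e z))

/-- Division by the equations of the divisors. -/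
def St_DV : Prop := ∀ (n : ℕ) (M : Mf n) [M.Cpt] (I : Type) [Fintype I] (S : Sd M I) (m : ℕ)
  (T : M.Fam (Fs n → ℂ)), (M.Ov fun e e' x => x ∈ Of S.toDk →
    T e (e x) = (jd M e e' x ^ m)⁻¹ • La (M.J e e' x) *ᵥ T e' (e' x)) →
  (∀ x, ∃ e ∈ M.C, x ∈ e.source ∧ ∃ y : E n → Fs n → ℂ, ∀ᶠ w in 𝓝 (e x), ContDiffAt ℝ ∞ y w ∧
    (e.symm w ∈ Of S.toDk → T e w = (∏ k, S.f k e w ^ fl S.toDk m k) • y w)) →
  ∃ W, (lb S m).Sec W ∧ (M.All fun e z => e.symm z ∈ Of S.toDk → T e z = up S m W e z) ∧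
    (HO S m T → Hol W)

/-! ### Pointwise algebra -/

/-- The norm of a multivector as a function of the form. -/
def St_NGA : Prop := ∀ n : ℕ,
  (∃ (N : ℕ) (τ c : Fin N → ℝ), (∀ i, τ i ∈ Icc (0 : ℝ) 1) ∧ ∀ (A T : Mat n) (W : Fs n → ℂ),
    ng (A + T) W - ng A W = ∑ i, c i * cg (A + τ i • T) T W) ∧
  ∀ (A T : Mat n) (v : E n) (W : Fs n → ℂ),
    cg A (Matrix.vecMulVec (star v) v) W = ng A (anv v *ᵥ W) ∧
    (∀ T' (c : ℝ), cg A (T + T') W = cg A T W + cg A T' W ∧ cg A (c • T) W = c * cg A T W) ∧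
    (∀ q, Dg q W → cg A A W = q * ng A W ∧ ∀ c : ℝ, ng (c • A) W = c ^ q * ng A W) ∧
    (A.PosSemidef → 0 ≤ ng A W ∧
      ng A W + ng A (anv v *ᵥ W) ≤ ng (A + Matrix.vecMulVec (star v) v) W ∧
      (T.PosSemidef → 0 ≤ cg A T W ∧ ng A W ≤ ng (A + T) W))

/-- Integration by parts, for every line bundle. -/
def St_IBG : Prop := ∀ (n : ℕ) (M : Mf n) [M.Cpt] (H : M.Fam (Mat n)) (L : M.Co) (φ : M.Fam ℝ)
  (W : M.Fam (Fs n → ℂ)) (F v : M.X → ℝ), M.Kae H → M.WtC L φ → M.Sm F → M.Sm v →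
  (lam H L φ).Sec W → (lam H L φ).Sec (iot M v W) ∧ (lam H L φ).Sec (sm M F W) ∧
  (M.All fun e z => (oP H φ).ap (sm M F W) e z = sm M F ((oP H φ).ap W) e z + iot M F W e z ∧
    (oP H (aw M φ v)).ap W e z = (oP H φ).ap W e z - iot M v W e z) ∧
  (∀ x, (lam H L φ).pn (iot M v W) x ≤ M.gr H v v x * (lam H L φ).pn W x ∧
    cu (M.ds v v) (lam H L φ) W x = (lam H L φ).pn (iot M v W) x ∧
    (∀ U, (lam H L φ).Sec U → (lam H L φ).pp ((oQ H).ap (sm M F U)) W x =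
      F x * (lam H L φ).pp ((oQ H).ap U) W x + (lam H L φ).pp U (iot M F W) x) ∧
    ∀ (T : M.Fam (Mat n)) (c : ℝ), 0 ≤ c → (c • M.ev H x - M.ev T x).PosSemidef →
      cu T (lam H L φ) W x ≤ c * n * (lam H L φ).pn W x) ∧
  (Hol W → Zr M ((oQ H).ap W) ∧ (∀ x, gb H (lam H L φ) W x = 0 ∧
      cu (M.hs v) (lam H L φ) W x = ((lam H L φ).pp ((oQ H).ap (iot M v W)) W x).re) ∧
    ∫ x, F x * cu (M.hs v) (lam H L φ) W x ∂M.mu H =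
      -((lam H L φ).ip H (iot M v W) ((oP H φ).ap (sm M F W))).re)

/-! ### The inequality of Hardy -/

/-- Dual holomorphic fields. -/
def St_XI : Prop := ∀ (n : ℕ) (J : Type) [Fintype J] (f : J → E n → ℂ) (z : E n),
  (∀ k, HolN (f k) z) → (∀ k, ∃ v : E n, ∀ j, fderiv ℂ (f j) z v = if j = k then 1 else 0) →
  ∃ ξ : J → E n → E n, ∀ᶠ w in 𝓝 z, ∀ k, HolV (ξ k) w ∧
    ∀ j, dir (ξ k) (f j) w = if j = k then 1 else 0

/-- The inequality in coordinates. -/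
def St_HAR : Prop := ∀ (n : ℕ) (U K : Set (E n)) (ξ : E n → E n) (f : E n → ℂ) (t : ℝ), IsOpen U →
  IsCompact K → K ⊆ U → (∀ z ∈ U, HolV ξ z ∧ HolN f z ∧ dir ξ f z = 1) → 0 ≤ t → t < 1 →
  ∃ C : ℝ, 0 ≤ C ∧ ∀ (d : ℝ) (o : E n → ℝ) (u : E n → ℂ), d ∈ Ioc (0 : ℝ) 1 →
    (∀ z ∈ U, ContDiffAt ℝ ∞ o z ∧ 0 ≤ o z ∧ dir ξ (fun w => (o w : ℂ)) z = 0 ∧
      ContDiffAt ℝ ∞ u z ∧ (z ∉ K → u z = 0)) →
    ∫ z in K, Complex.normSq (u z) * (Complex.normSq (f z) + d) ^ (-t) * o z ≤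
      C * ∫ z in K, (∑ k, Complex.normSq (dzb k u z) + Complex.normSq (u z)) * o z

/-- The inequality on the manifold. -/
def St_HRG : Prop := ∀ (n : ℕ) (M : Mf n) [M.Cpt] (I : Type) [Fintype I] (S : Sd M I) (σ : Type)
  [Fintype σ] [DecidableEq σ] (b : Bun M σ) (κ : I → ℝ) (k : I) (δ : ℝ), b.Ok → b.Hl →
  (∀ i, 0 ≤ κ i) → 0 ≤ δ → κ k + δ < 1 → ∃ C : ℝ, 0 ≤ C ∧ ∀ d ∈ Ioc (0 : ℝ) 1, ∀ W, b.Sec W →
    ∫ x, (∏ i, (sg S.toDk i x + d) ^ (-κ i)) * (sg S.toDk k x + d) ^ (-δ) * b.pn W x ∂M.mu S.H ≤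
      C * (∫ x, (∏ i ∈ Finset.univ.erase k, (sg S.toDk i x + d) ^ (-κ i)) * gb S.H b W x ∂M.mu S.H +
        ∫ x, (∏ i ∈ Finset.univ.erase k, (sg S.toDk i x + d) ^ (-κ i)) * b.pn W x ∂M.mu S.H)

/-- The weights are integrable. -/
def St_INT : Prop := ∀ (n : ℕ) (M : Mf n) [M.Cpt] (I : Type) [Fintype I] (S : Sd M I) (κ : I → ℝ),
  (∀ i, 0 ≤ κ i ∧ κ i < 1) →
  (∃ C : ℝ, ∀ d ∈ Ioc (0 : ℝ) 1, ∫ x, ∏ i, (sg S.toDk i x + d) ^ (-κ i) ∂M.mu S.H ≤ C) ∧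
  ∀ (a : ℝ → M.X → ℝ) (p η : ℝ), Zs S a → 0 < η → ∃ C t : ℝ, 0 < t ∧ ∀ ε ∈ Ioc (0 : ℝ) 1,
    ∀ d ∈ Ioc (0 : ℝ) 1, ∀ v : M.X → ℝ, Continuous v → (∀ x, a ε x ≤ v x ∧ v x ≤ 0) →
      ∫ x, Real.exp (-(p * v x)) * ∏ i, (sg S.toDk i x + d) ^ (-κ i) ∂M.mu S.H ≤ C ∧
      ∀ B, MeasurableSet B → (M.mu S.H).real B ≤ t →
        ∫ x in B, Real.exp (-(p * v x)) * ∏ i, (sg S.toDk i x + d) ^ (-κ i) ∂M.mu S.H ≤ η

/-- No concentration. -/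
def St_NC : Prop := ∀ (n : ℕ) (M : Mf n) [M.Cpt] (I : Type) [Fintype I] (S : Sd M I)
  (a : ℝ → M.X → ℝ) (q : Sq) (m : ℕ), Zs S a → 2 ≤ m → ∀ η : ℝ, 0 < η → ∃ C : ℝ, 0 ≤ C ∧
    ∀ j W, (lb S m).Sec W → (lj S a q m j).nr S.H W ≤
      η * (∫ x, gb S.H (lj S a q m j) W x ∂M.mu S.H + (lj S a q m j).nr S.H W) +
        C * (lb S m).nr S.H W

/-- The negative part of the curvature is small. -/
def St_NG : Prop := ∀ (n : ℕ) (M : Mf n) [M.Cpt] (I : Type) [Fintype I] (S : Sd M I)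
  (a : ℝ → M.X → ℝ) (q : Sq) (m : ℕ), Zs S a → 2 ≤ m → ∀ η : ℝ, 0 < η → ∀ᶠ j in atTop,
    ∀ W, (lb S m).Sec W →
      -(η * (∫ x, gb S.H (lj S a q m j) W x ∂M.mu S.H + (lj S a q m j).nr S.H W)) ≤
        ∫ x, cu (M.hw (pm S m) + M.ric S.H + M.hs (ww S a q m j)) (lj S a q m j) W x ∂M.mu S.H

/-- The weights are admissible. -/
def St_ADM : Prop := ∀ (n : ℕ) (M : Mf n) [M.Cpt] (I : Type) [Fintype I] (S : Sd M I)
  (a : ℝ → M.X → ℝ) (q : Sq) (m : ℕ), Zs S a → 2 ≤ m →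
  Adm M S.H (Lb S m) (pm S m) (ww S a q m)

/-! ### Admissible weights -/

/-- Almost harmonic sections for another weight. -/
def St_AHW : Prop := ∀ (n : ℕ) (M : Mf n) [M.Cpt] (H : M.Fam (Mat n)) (L : M.Co) (φ : M.Fam ℝ)
  (v w : M.X → ℝ), M.Kae H → M.WtC L φ → M.Sm v → M.Sm w → Ah H L (aw M φ v) → Ah H L (aw M φ w)

/-- The holomorphic limit. -/
def St_LIM : Prop := ∀ (n : ℕ) (M : Mf n) [M.Cpt] (H : M.Fam (Mat n)) (L : M.Co) (φ : M.Fam ℝ)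
  (w : ℕ → M.X → ℝ) (W : ℕ → M.Fam (Fs n → ℂ)) (B : ℝ), 0 < n → M.Kae H → Adm M H L φ w →
  (∀ j, (lam H L φ).Sec (W j) ∧ (lam H L (aw M φ (w j))).nr H (W j) ≤ B) →
  Tendsto (fun j => (lam H L (aw M φ (w j))).nr H ((oD H (aw M φ (w j))).ap (W j))) atTop (𝓝 0) →
  ∃ V, (lam H L φ).Sec V ∧ Hol V ∧ Fl.WP H L φ (fun j x => Real.exp (-w j x)) V ∧
    Tendsto (fun j => (lam H L (aw M φ (w j))).nr H (W j - V)) (hyperfilter ℕ) (𝓝 0) ∧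
    ((∀ j, (lam H L (aw M φ (w j))).nr H (W j) = 1) → Nz V) ∧
    ∀ s : ℂ, (∀ j, Pa M s (W j)) → Pa M s V

/-- Small eigenvalues pass to the other parity. -/
def St_EXS : Prop := ∀ (n : ℕ) (M : Mf n) [M.Cpt] (H : M.Fam (Mat n)) (L : ℕ → M.Co)
  (φ : ℕ → M.Fam ℝ) (A : M.Co) (ψ : M.Fam ℝ) (s : ℂ) (η : ℝ) (W : M.Fam (Fs n → ℂ)), M.Kae H →
  (∀ b, Nx (L b) (φ b) A ψ (L (b + 1)) (φ (b + 1))) → {b | Ah H (L b) (φ b)}.Finite →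
  s = 1 ∨ s = -1 → 0 < η → (lam H (L 0) (φ 0)).Sec W → Pa M s W →
  0 < (lam H (L 0) (φ 0)).nr H W →
  (lam H (L 0) (φ 0)).nr H ((oD H (φ 0)).ap W) ≤ η * (lam H (L 0) (φ 0)).nr H W →
  ∃ U, (lam H (L 0) (φ 0)).Sec U ∧ Pa M (-s) U ∧ (lam H (L 0) (φ 0)).nr H U = 1 ∧
    (lam H (L 0) (φ 0)).nr H ((oD H (φ 0)).ap U) ≤ 4 * η

/-- The hard Lefschetz theorem for one class. -/
def St_HLX : Prop := ∀ (n : ℕ) (M : Mf n) [M.Cpt] (H : M.Fam (Mat n)) (L : M.Co) (φ : M.Fam ℝ)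
  (w : ℕ → M.X → ℝ) (x : M.Fam (Fs n → ℂ)), 0 < n → M.Kae H → Adm M H L φ w →
  (lam H L φ).Sec x → Zr M ((oQ H).ap x) →
  (∀ η : ℝ, 0 < η → ∃ y, (lam H L φ).Sec y ∧ (lam H L φ).nr H (x - (oQ H).ap y) ≤ η) ∨
  ∃ W, (lam H L φ).Sec W ∧ Hol W ∧ Fl.WP H L φ (fun j x => Real.exp (-w j x)) W ∧
    ¬Tendsto (fun j => (lam H L (aw M φ (w j))).ip H W x) (hyperfilter ℕ) (𝓝 0)

/-- Finitely many levels of a tower have almost harmonic sections. -/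
def St_IX : Prop := ∀ (n : ℕ) (M : Mf n) [M.Cpt] (I : Type) [Fintype I] (S : Sd M I)
  (a : ℝ → M.X → ℝ) (q : Sq) (m : ℕ) (w : M.X → ℝ), Zs S a → NoS M → 2 ≤ m → M.Sm w →
  {b | Ah S.H (Lb S (m + S.c * b)) (aw M (pm S (m + S.c * b)) w)}.Finite

/-- The flip of the parity. -/
def St_FLP : Prop := ∀ (n : ℕ) (M : Mf n) [M.Cpt] (I : Type) [Fintype I] (S : Sd M I)
  (a : ℝ → M.X → ℝ) (q : Sq) (m : ℕ) (s : ℂ) (W : M.Fam (Fs n → ℂ)), Zs S a → NoS M → 2 ≤ m →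
  s = 1 ∨ s = -1 → Nw S m W → Nz W → Pa M s W → ∃ U, (lb S m).Sec U ∧ Hol U ∧ Nz U ∧
    Pa M (-s) U ∧ Fl.WP S.H (Lb S m) (pm S m) (fun j x => Real.exp (-ww S a q m j x)) U

/-- The transfer of the weak condition. -/
def St_WPT : Prop := ∀ (n : ℕ) (M : Mf n) [M.Cpt] (I : Type) [Fintype I] (S : Sd M I)
  (a : ℝ → M.X → ℝ) (q : Sq) (m : ℕ), Zs S a → 2 ≤ m →
  (∀ U, (lb S m).Sec U →
    Fl.WP S.H (Lb S m) (pm S m) (fun j x => Real.exp (-ww S a q m j x)) U →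
    ∀ r, Wp S a q m (up S m (prt M r U))) ∧
  ∀ T T', (M.All fun e z => e.symm z ∈ Of S.toDk → T e z = T' e z) → Wp S a q m T → Wp S a q m T'

/-! ### Membership -/

/-- Local sections are bounded for the model metric. -/
def St_NB0 : Prop := ∀ (n : ℕ) (M : Mf n) [M.Cpt] (I : Type) [Fintype I] (S : Sd M I) (x : M.X)
  (P : Lm S.toDk S.u x) (j : ℕ) (t : M.Fam ℂ), Hs (P.W ∩ Of S.toDk) j t → Bd S x univ j t

/-- Multivectors are bounded for the model metric. -/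
def St_NB : Prop := ∀ (n : ℕ) (M : Mf n) [M.Cpt] (I : Type) [Fintype I] (S : Sd M I) (m r : ℕ)
  (T : M.Fam (Fs n → ℂ)), HO S m T → DgM M r T → ∃ C : ℝ, 0 ≤ C ∧ M.All fun e z =>
    e.symm z ∈ Of S.toDk →
      ng (S.β e z) (T e z) ≤ C * (S.H e z).det.re ^ m * pw S.toDk m (e.symm z)

section defs

variable {n : ℕ} {M : Mf n} {I : Type} [Fintype I] (S : Sd M I)

/-- The exhaustion. -/
def lg (w : I → ℕ) (g : M.X → ℝ) (x : M.X) : ℝ := ∑ k, w k * Real.log (sg S.toDk k x) - g x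

/-- The integral bounds. -/
def Ib (m r : ℕ) (T : M.Fam (Fs n → ℂ)) : Prop := ∃ (w : I → ℕ) (g : M.X → ℝ) (C : ℝ),
  (∀ k, 0 < w k) ∧ M.Sm g ∧ ∀ χ : ℝ → ℝ, ContDiff ℝ ∞ χ →
    (∀ t, 0 ≤ deriv χ t ∧ deriv χ t ≤ 1 ∧ 0 ≤ deriv (deriv χ) t) →
    (∃ R, ∀ t ≤ R, deriv χ t = 0) → ∀ K, Cp S K →
      ∫ x in K, pw S.toDk (1 - m) x * (deriv χ (lg S w g x) ^ r * (lk S.H m).pn T x +
        deriv (deriv χ) (lg S w g x) * deriv χ (lg S w g x) ^ (r - 1) *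
          (lk S.H m).pn (iot M (lg S w g) T) x) ∂M.mu S.H ≤ C

/-- The covariant derivative along a field of level one. -/
def dc (j : ℕ) (V : M.Fam (E n)) (b t : M.Fam ℂ) : M.Fam ℂ :=
  fun e z => dir (V e) (t e) z - j * b e z * t e z

/-- The defect of a field of level two. -/
def ep (W : M.Fam (E n)) : M.Fam ℂ := fun e z => dv (W e) z - dir (W e) (ph S 0 0 e) z

/-- The derivative of the difference of the two affine structures. -/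
def aq (W V : M.Fam (E n)) (b₀ b : M.Fam ℂ) : M.Fam ℂ :=
  fun e z => dc 2 V b₀ (ep S W) e z - 2 * (b e z - b₀ e z) * ep S W e z

/-- The difference of the two projective structures. -/
def dq (V : M.Fam (E n)) (b₀ b : M.Fam ℂ) : M.Fam ℂ :=
  fun e z => NU4.qq (V e) (b₀ e) z - NU4.qq (V e) (b e) z

/-- The logarithmic derivative of the local generator. -/
def lo {x : M.X} (P : Lm S.toDk S.u x) (e : M.Ch) (Y : E n → E n) (z : E n) : ℂ :=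
  (dir Y (P.o e) z / P.o e z + ∑ k, S.a k * dir Y (S.f k e) z / S.f k e z) / S.c

/-- The divergence of `W` passes to the multiples of `W`, off the divisors. -/
def Hq (W : M.Fam (E n)) : Prop := ∀ e ∈ M.C, ∀ (U : Set (E n)) (Y : E n → E n), IsOpen U →
  U ⊆ e.target → (∀ z ∈ U, e.symm z ∈ Of S.toDk) → DifferentiableOn ℂ Y U →
  (∀ z ∈ U, wg (W e z) (Y z) = 0) →
  ∃ h : E n → ℂ, DifferentiableOn ℂ h U ∧ ∀ z ∈ U, h z • W e z = dv (W e) z • Y z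

/-- The bound on the derivative of the difference of the projective structures. -/
def Pb (W V : M.Fam (E n)) (g : M.Fam (Fs n → ℂ)) (b₀ b : M.Fam ℂ) : Prop := ∃ C : ℝ,
  M.All fun e z => e.symm z ∈ Of S.toDk → g e z ≠ 0 →
    ‖dir (W e) (dq V b₀ b e) z - 2 * dv (W e) z * dq V b₀ b e z‖ ≤
      C * (S.H e z).det.re ^ 2 * pw S.toDk 1 (e.symm z) *
        (1 + √(M.gr S.H ((lk S.H 3).pn g) ((lk S.H 3).pn g) (e.symm z)) /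
          (lk S.H 3).pn g (e.symm z))

end defs

/-- The integral bounds hold. -/
def St_LB1 : Prop := ∀ (n : ℕ) (M : Mf n) [M.Cpt] (I : Type) [Fintype I] (S : Sd M I)
  (a : ℝ → M.X → ℝ) (q : Sq) (m r : ℕ) (T : M.Fam (Fs n → ℂ)), Zs S a → 2 ≤ m → HO S m T →
  DgM M r T → Wp S a q m T → Ib S m r T

/-- Extension, division and tangency. -/
def St_LB2 : Prop := ∀ (n : ℕ) (M : Mf n) [M.Cpt] (I : Type) [Fintype I] (S : Sd M I) (m r : ℕ)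
  (T : M.Fam (Fs n → ℂ)), 2 ≤ m → HO S m T → Ib S m r T → ∃ W, (lb S m).Sec W ∧ Hol W ∧
    M.All fun e z => e.symm z ∈ Of S.toDk → T e z = up S m W e z

/-- Tangency. -/
def St_LBT : Prop := ∀ (n : ℕ) (M : Mf n) [M.Cpt] (I : Type) [Fintype I] (S : Sd M I) (m r : ℕ)
  (T W : M.Fam (Fs n → ℂ)), 2 ≤ m → Ib S m r T → (lb S m).Sec W → Hol W →
  (M.All fun e z => e.symm z ∈ Of S.toDk → T e z = up S m W e z) → Nt S m W

/-- The contraction with the derivative of a norm. -/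
def St_TN : Prop := ∀ (n : ℕ) (M : Mf n) [M.Cpt] (I : Type) [Fintype I] (S : Sd M I) (m : ℕ)
  (W : M.Fam (Fs n → ℂ)), (lb S m).Sec W → Hol W → ∃ C : ℝ, 0 ≤ C ∧ ∀ k,
    (∀ x, (lb S m).pn (iot M (sg S.toDk k) W) x ≤ C * sg S.toDk k x) ∧
    (Tk S k W → ∀ x, (lb S m).pn (iot M (sg S.toDk k) W) x ≤ C * sg S.toDk k x ^ 2)

/-- Smallness. -/
def St_LB3 : Prop := ∀ (n : ℕ) (M : Mf n) [M.Cpt] (I : Type) [Fintype I] (S : Sd M I)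
  (a : ℝ → M.X → ℝ) (q : Sq) (m : ℕ) (W : M.Fam (Fs n → ℂ)), Zs S a → 2 ≤ m → Nt S m W →
  Wp S a q m (up S m W) → Smw S m W

/-- Weakly parallel multivectors are in the class. -/
def St_LB : Prop := ∀ (n : ℕ) (M : Mf n) [M.Cpt] (I : Type) [Fintype I] (S : Sd M I)
  (a : ℝ → M.X → ℝ) (q : Sq) (m r : ℕ) (T : M.Fam (Fs n → ℂ)), Zs S a → 2 ≤ m → HO S m T →
  DgM M r T → Wp S a q m T → ∃ W, Nw S m W ∧ DgM M r W ∧
    M.All fun e z => e.symm z ∈ Of S.toDk → T e z = up S m W e z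

/-! ### The class is parallel -/

/-- The integration by parts with the fractional weight. -/
def St_SG0 : Prop := ∀ (n : ℕ) (M : Mf n) [M.Cpt] (I : Type) [Fintype I] (S : Sd M I) (m : ℕ)
  (W : M.Fam (Fs n → ℂ)), Nt S m W → ∃ C : ℝ, 0 ≤ C ∧ ∀ d ∈ Ioc (0 : ℝ) (1 / 2),
    ∀ v : M.X → ℝ, M.Sm v → |∫ x, Real.exp (-lf S m d x) * cu (M.hs v) (lb S m) W x ∂M.mu S.H| ≤
      C * ∫ x, Real.exp (-lf S m d x) * √((lb S m).pn (iot M v W) x) ∂M.mu S.H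

/-- The shell. -/
def St_SG1 : Prop := ∀ (n : ℕ) (M : Mf n) [M.Cpt] (I : Type) [Fintype I] (S : Sd M I)
  (a : ℝ → M.X → ℝ) (q : Sq) (m : ℕ) (W : M.Fam (Fs n → ℂ)) (p : ℝ), Zs S a → 2 ≤ m → Nw S m W →
  Tendsto (fun j => Real.exp (p * q.N j) * ∫ x, Real.exp (-lf S m (q.d j) x) *
    (deriv (deriv (q.χ j)) (a (q.e j) x) * (lb S m).pn (iot M (a (q.e j)) W) x) ∂M.mu S.H)
      atTop (𝓝 0)

/-- Parallel in the quadratic mean. -/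
def St_SG : Prop := ∀ (n : ℕ) (M : Mf n) [M.Cpt] (I : Type) [Fintype I] (S : Sd M I)
  (a : ℝ → M.X → ℝ) (q : Sq) (m : ℕ) (W : M.Fam (Fs n → ℂ)), Zs S a → 2 ≤ m → Nw S m W →
  Tendsto (fun j => (lj S a q m j).nr S.H ((oP S.H (aw M (pm S m) (ww S a q m j))).ap W))
    atTop (𝓝 0)

/-- Parallel in the mean. -/
def St_PR1 : Prop := ∀ (n : ℕ) (M : Mf n) [M.Cpt] (I : Type) [Fintype I] (S : Sd M I)
  (a : ℝ → M.X → ℝ) (q : Sq) (m : ℕ), Zs S a → 2 ≤ m →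
  (∀ T, Nn S m T → HM M m T ∧ Sm0 S m T ∧ Pr1 S a q m T) ∧
  ∀ W, HT M m W → Pr1 S a q m (vec M W) → Fd S a q m W fun e z => dv (W e) z / ((m : ℂ) - 1)

/-- The limit of the divergences. -/
def St_GEN : Prop := ∀ (n : ℕ) (M : Mf n) [M.Cpt] (I : Type) [Fintype I] (S : Sd M I)
  (a : ℝ → M.X → ℝ) (q : Sq) (m : ℕ) (T R : M.Fam (Fs n → ℂ)), Zs S a → 2 ≤ m → HM M m T →
  HO S m R → Lq S a q m T R → Wp S a q m R ∧
    ((M.All fun e z => e.symm z ∈ Of S.toDk → R e z = 0) → Wp S a q m T)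

/-- The product of two fields. -/
def St_PRD : Prop := ∀ (n : ℕ) (M : Mf n) [M.Cpt] (I : Type) [Fintype I] (S : Sd M I)
  (a : ℝ → M.X → ℝ) (q : Sq) (m l : ℕ) (W U : M.Fam (E n)) (δ δ' : M.Fam ℂ), Zs S a → 0 < m →
  0 < l → Fd S a q m W δ → Fd S a q l U δ' →
  ∃ R, HO S (m + l) R ∧ DgM M 1 R ∧ Lq S a q (m + l) (wd M W (vec M U)) R

/-- No mass near the zero set. -/
def St_NM : Prop := ∀ (n : ℕ) (M : Mf n) [M.Cpt] (I : Type) [Fintype I] (S : Sd M I)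
  (a : ℝ → M.X → ℝ) (m l : ℕ) (W : M.Fam (Fs n → ℂ)), Zs S a → HM M m W →
  (Nz W → ∀ η : ℝ, 0 < η → ∃ d : ℝ, 0 < d ∧ ∀ ε ∈ Ioc (0 : ℝ) 1,
    ∫ x in {x | (lk S.H m).pn W x ≤ d}, M.tr S.H (oms S ε (a ε)) x ∂M.mu S.H ≤ η) ∧
  (Sm0 S m W → (∀ r, Sm0 S m (prt M r W)) ∧
    (∀ V, HT M l V → Sm0 S l (vec M V) → Sm0 S (l + m) (wd M V W)) ∧
    (Nz W → ∀ V, HT M l V → Zr M (wd M V W) → N0s S a l (vec M V)))

/-- Local multiples of a parallel multivector. -/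
def St_N4H : Prop := ∀ (n : ℕ) (M : Mf n) [M.Cpt] (I : Type) [Fintype I] (S : Sd M I)
  (a : ℝ → M.X → ℝ) (q : Sq) (l : ℕ) (π : M.Fam (Fs n → ℂ)), Zs S a → 2 ≤ l → HM M l π → Nz π →
  Sm0 S l π → Pr1 S a q l π → ∀ e ∈ M.C, ∀ (U : Set (E n)) (T : E n → Fs n → ℂ), IsOpen U →
  U ⊆ e.target → (∀ z ∈ U, e.symm z ∈ Of S.toDk) → DifferentiableOn ℂ T U →
  (∀ z ∈ U, Pr (T z) (π e z)) → ∃ A : E n → Fs n → ℂ, DifferentiableOn ℂ A U ∧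
    ∀ z ∈ U, ∀ B J, ((l : ℂ) - 1) * A z B * π e z J = pf0 (π e) z B * T z J

/-- Global multiples of a parallel multivector. -/
def St_PRP : Prop := ∀ (n : ℕ) (M : Mf n) [M.Cpt] (I : Type) [Fintype I] (S : Sd M I)
  (a : ℝ → M.X → ℝ) (q : Sq) (l m : ℕ) (π T : M.Fam (Fs n → ℂ)), Zs S a → 2 ≤ l → 2 ≤ m →
  HM M l π → Nz π → Sm0 S l π → Pr1 S a q l π → HM M m T → DgM M 2 π → DgM M 2 T →
  (M.All fun e z => Pr (T e z) (π e z)) → ∃ R, HO S m R ∧ DgM M 1 R ∧ Lq S a q m T R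

/-- The vanishing theorem in degree `n - 1`. -/
def St_KV : Prop := ∀ (n : ℕ) (M : Mf n) [M.Cpt] (I : Type) [Fintype I] (S : Sd M I)
  (a : ℝ → M.X → ℝ) (m r : ℕ) (T : M.Fam (Fs n → ℂ)), Zs S a → r + 1 = n → HM M m T →
  DgM M r T → Nz T → Sm0 S m T → KS.Nu S.toDk 1

/-! ### Level one -/

/-- Smallness at level one. -/
def St_SMV : Prop := ∀ (n : ℕ) (M : Mf n) [M.Cpt] (I : Type) [Fintype I] (S : Sd M I)
  (a : ℝ → M.X → ℝ) (V : M.Fam (E n)), Zs S a → V1 M V →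
  (N0s S a 1 (vec M V) ∨ ∫ x, qV M S.H (-M.ric S.H) V x ∂M.mu S.H ≤ 0) → Sm0 S 1 (vec M V)

/-- The derivative of the model weight. -/
def St_OB1 : Prop := ∀ (n : ℕ) (M : Mf n) [M.Cpt] (I : Type) [Fintype I] (S : Sd M I)
  (V : M.Fam (E n)), HT M 1 V → (Tg S V → (∃ b, B0 S V b) ∧ ∀ k, M.All fun e z =>
    ∃ τ : E n → ℂ, HolN τ z ∧ ∀ᶠ w in 𝓝 z, dir (V e) (S.f k e) w = S.f k e w * τ w) ∧
  ∀ b, B0 S V b → M.Sec 2 (dq V b (a0 M S.H V)) ∧ X91.Aff (kan M 1) b ∧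
    M.All fun e z => ∀ l, dzb l (b e) z = ((bf S - M.ric S.H) e z *ᵥ V e z) l

/-- The obstruction. -/
def St_OB2 : Prop := ∀ (n : ℕ) (M : Mf n) [M.Cpt] (I : Type) [Fintype I] (S : Sd M I)
  (V : M.Fam (E n)) (b : M.Fam ℂ), HT M 1 V → Tg S V → B0 S V b → ∃ x, Ob S V b x

/-- The affine structure at level one. -/
def St_AF1 : Prop := ∀ (n : ℕ) (M : Mf n) [M.Cpt] (I : Type) [Fintype I] (S : Sd M I)
  (a : ℝ → M.X → ℝ) (V : M.Fam (E n)) (b : M.Fam ℂ), Zs S a → NoS M → V1 M V → B0 S V b →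
  Sm0 S 1 (vec M V) → ∃ δ : M.Fam ℂ, (M.All fun e z => HolN (δ e) z) ∧ M.Sec 1 (b - δ)

/-- The convergence at level one. -/
def St_AF2 : Prop := ∀ (n : ℕ) (M : Mf n) [M.Cpt] (I : Type) [Fintype I] (S : Sd M I)
  (a : ℝ → M.X → ℝ) (q : Sq) (V : M.Fam (E n)) (y : M.Fam ℂ), Zs S a → NoS M → V1 M V →
  Sm0 S 1 (vec M V) → M.Sec 1 y →
  (M.All fun e z => ∀ l, dzb l (y e) z = ((bf S - M.ric S.H) e z *ᵥ V e z) l) →
  Tendsto (fun j => ∫ x, M.ev (fun e z => Complex.normSq (y e z +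
    dir (V e) (M.lc (tp a q j) e) z) / (S.H e z).det.re) x ∂M.mu S.H) atTop (𝓝 0)

/-- Fields of level one. -/
def St_AFX : Prop := ∀ (n : ℕ) (M : Mf n) [M.Cpt] (I : Type) [Fintype I] (S : Sd M I)
  (a : ℝ → M.X → ℝ) (q : Sq) (V : M.Fam (E n)), Zs S a → NoS M → V1 M V → Tg S V →
  Sm0 S 1 (vec M V) → ∃ δ, Fd S a q 1 V δ

/-! ### One parallel direction -/

/-- Two parallel objects. -/
def St_PPI : Prop := ∀ (n : ℕ) (M : Mf n) [M.Cpt] (I : Type) [Fintype I] (S : Sd M I)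
  (a : ℝ → M.X → ℝ) (q : Sq) (m l : ℕ) (W : M.Fam (E n)), Zs S a → 2 ≤ m → 2 ≤ l → HT M m W →
  Pr1 S a q m (vec M W) →
  (∀ π, HM M l π → Pr1 S a q l π → Zr M (wd M W π) → Zr M (nab M m l W π)) ∧
  ∀ U, HT M l U → Pr1 S a q l (vec M U) → Zr M (wd M W (vec M U)) → M.All fun e z =>
    (dv (U e) z / ((l : ℂ) - 1)) • W e z = (dv (W e) z / ((m : ℂ) - 1)) • U e z

/-- Recurrence. -/
def St_REC : Prop := ∀ (n : ℕ) (M : Mf n) [M.Cpt] (I : Type) [Fintype I] (S : Sd M I)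
  (a : ℝ → M.X → ℝ) (q : Sq) (l : ℕ) (W : M.Fam (E n)) (ρ τ : M.Fam (Fs n → ℂ)), Zs S a →
  HT M 2 W → Pr1 S a q 2 (vec M W) → HM M l ρ → HM M (2 + l) τ → Zr M (wd M W ρ) →
  Zr M (wd M W τ) → (M.All fun e z => nab M 2 l W ρ e z = τ e z ∧ Pr (ρ e z) (τ e z)) →
  Zr M (nab M 2 (2 + l) W τ) → Zr M τ

/-- The bracket is tangent to the plane. -/
def St_NIL : Prop := ∀ (M : Mf 4) [M.Cpt] (I : Type) [Fintype I] (S : Sd M I)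
  (a : ℝ → M.X → ℝ) (q : Sq) (W V : M.Fam (E 4)) (π : M.Fam (Fs 4 → ℂ)), Zs S a → NoS M →
  HT M 2 W → ¬Zr M W → Pr1 S a q 2 (vec M W) → HT M 1 V → HM M 2 π → DgM M 2 π →
  Zr M (wd M W π) → Zr M (nab M 2 2 W π) → Nz (wd M V π) → Zr M (wd M (yy M 2 W V) π)

/-! ### The pairing -/

/-- The identity. -/
def St_PID : Prop := ∀ (n : ℕ) (v w : E n → E n) (b Φ : E n → ℂ) (z : E n), HolV v z → HolV w z →
  HolN b z → ContDiffAt ℝ ∞ Φ z →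
  (∀ᶠ y in 𝓝 z, dv v y = 0 ∧ br v w y = (2 * b y) • w y - dv w y • v y) →
  ∀ b₀ ε A s : E n → ℂ, (b₀ =ᶠ[𝓝 z] dir v Φ) → (ε = fun y => dv w y - dir w Φ y) →
  (A = fun y => dir v ε y - 2 * b₀ y * ε y - 2 * (b y - b₀ y) * ε y) →
  (s = fun y => NU4.qq v b₀ y - NU4.qq v b y) →
  dir w s z - 2 * dv w z * s z = -(dir v A z - 3 * b₀ z * A z) + 2 * (b z - b₀ z) * A z

/-- The class of the bounded functions. -/
def St_GCL : Prop := ∀ (n : ℕ) (M : Mf n) [M.Cpt] (I : Type) [Fintype I] (S : Sd M I) (x : M.X)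
  (P : Lm S.toDk S.u x) (O : Set M.X), IsOpen O →
  (∀ j t, Gc S P O j t → Bd S x O j t ∧ (∀ (c : ℂ) s, Gc S P O j s →
      Gc S P O j fun e z => t e z + c * s e z) ∧
    (∀ i s, Gc S P O i s → Gc S P O (j + i) fun e z => t e z * s e z) ∧
    (∀ s, (M.All fun e z => e.symm z ∈ P.W ∩ Of S.toDk → e.symm z ∈ O → s e z = t e z) →
      Gc S P O j s) ∧
    ∀ V b, HT M 1 V → B0 S V b → Gc S P O (j + 1) (dc j V b t)) ∧
  (∀ j t, Hs (P.W ∩ Of S.toDk) j t → Gc S P O j t) ∧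
  ∃ ψ : Fin P.r → (Fin P.r → ℂ) → ℂ,
    (∀ i, Gc S P O 0 fun e z => ψ i fun l => P.g l (e.symm z)) ∧
    M.All fun e z => e.symm z ∈ P.W ∩ Of S.toDk → ∀ Y : E n → E n, dir Y (ph S 0 0 e) z =
      lo S P e Y z + ∑ i, ψ i (fun l => P.g l (e.symm z)) * dir Y (fun w => P.g i (e.symm w)) z

/-- The local bounds. -/
def St_PB2 : Prop := ∀ (n : ℕ) (M : Mf n) [M.Cpt] (I : Type) [Fintype I] (S : Sd M I)
  (W V : M.Fam (E n)) (b₀ b : M.Fam ℂ) (x : M.X), HT M 2 W → HT M 1 V → B0 S V b₀ → Hq S W →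
  Nz (wd M W (vec M V)) → Af M S.H V (wd M W (vec M V)) b →
  (M.All fun e z => wd M W (vec M V) e z ≠ 0 → yy M 2 W V e z = (-(2 * b e z)) • W e z) →
  Bd S x {y | (lk S.H 3).pn (wd M W (vec M V)) y ≠ 0} 3 (aq S W V b₀ b) ∧
    Bd S x {y | (lk S.H 3).pn (wd M W (vec M V)) y ≠ 0} 4 (dc 3 V b₀ (aq S W V b₀ b))

/-- The pointwise bound. -/
def St_PB : Prop := ∀ (n : ℕ) (M : Mf n) [M.Cpt] (I : Type) [Fintype I] (S : Sd M I)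
  (W V : M.Fam (E n)) (b₀ : M.Fam ℂ), HT M 2 W → V1 M V → B0 S V b₀ → Hq S W →
  Nz (wd M W (vec M V)) → Zr M (wd M W (vec M (yy M 2 W V))) →
  ∃ b, Af M S.H V (wd M W (vec M V)) b ∧ Pb S W V (wd M W (vec M V)) b₀ b

/-- The logarithmic derivative of a norm is uniformly integrable. -/
def St_UI : Prop := ∀ (n : ℕ) (M : Mf n) [M.Cpt] (H : M.Fam (Mat n)) (σ : Type) [Fintype σ]
  [DecidableEq σ] (b : Bun M σ) (s : M.Fam (σ → ℂ)) (η : ℝ), 0 < n → M.Kae H → b.Ok → b.Hl →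
  b.Sec s → Hol s → Nz s → 0 < η → ∃ d : ℝ, 0 < d ∧ ∀ (d' : ℝ) (u : M.X → ℝ), 0 < d' →
    Continuous u → (∀ x, 0 ≤ u x) → ∫ x, u x ^ (8 * n) ∂M.mu H ≤ 1 →
    ∫ x in {x | d' ≤ b.pn s x ∧ b.pn s x ≤ d},
      √(M.gr H (b.pn s) (b.pn s) x) / b.pn s x * u x ∂M.mu H ≤ η

/-- The pairing tends to zero. -/
def St_PA : Prop := ∀ (n : ℕ) (M : Mf n) [M.Cpt] (I : Type) [Fintype I] (S : Sd M I)
  (a : ℝ → M.X → ℝ) (q : Sq) (W V : M.Fam (E n)) (U x g : M.Fam (Fs n → ℂ)) (b₀ b : M.Fam ℂ),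
  Zs S a → HT M 2 W → HT M 1 V → Nw S 2 U → (M.All fun e z => vec M W e z = up S 2 U e z) →
  B0 S V b₀ → Ob S V b₀ x → HM M 3 g → Nz g → Af M S.H V g b → Pb S W V g b₀ b →
  Tendsto (fun j => (lj S a q 2 j).ip S.H U x) atTop (𝓝 0)

/-! ### The assembly -/

/-- The situation that is to be excluded. -/
structure Bad {M : Mf 4} {I : Type} [Fintype I] (S : Sd M I) (a : ℝ → M.X → ℝ) : Prop where
  zs : Zs S a
  no : NoS M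
  nu : ¬KS.Nu S.toDk 1

/-- A field in the class of level `m`. -/
def Wf {n : ℕ} {M : Mf n} {I : Type} [Fintype I] (S : Sd M I) (m : ℕ) (W : M.Fam (E n)) : Prop :=
  HT M m W ∧ ¬Zr M W ∧ Nn S m (vec M W)

/-- The exchange between fields and bivectors. -/
def St_EXC : Prop := ∀ (M : Mf 4) [M.Cpt] (I : Type) [Fintype I] (S : Sd M I) (a : ℝ → M.X → ℝ)
  (q : Sq) (m : ℕ), Bad S a → 2 ≤ m → (∀ t, HM M m t → DgM M 3 t → Sm0 S m t → Zr M t) ∧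
  ((∃ π, Nn S m π ∧ DgM M 2 π ∧ Nz π) ↔ ∃ W, Wf S m W)

/-- A bivector whose divergences converge gives a field. -/
def St_UPS : Prop := ∀ (M : Mf 4) [M.Cpt] (I : Type) [Fintype I] (S : Sd M I) (a : ℝ → M.X → ℝ)
  (q : Sq) (m : ℕ) (T R : M.Fam (Fs 4 → ℂ)), Bad S a → 2 ≤ m → HM M m T → DgM M 2 T → Nz T →
  HO S m R → DgM M 1 R → Lq S a q m T R → ∃ W, Wf S m W

/-- Two directions. -/
def St_R2 : Prop := ∀ (M : Mf 4) [M.Cpt] (I : Type) [Fintype I] (S : Sd M I) (a : ℝ → M.X → ℝ)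
  (q : Sq) (m l : ℕ) (W U : M.Fam (E 4)) (δ δ' : M.Fam ℂ), Bad S a → 0 < m → 0 < l →
  Fd S a q m W δ → Fd S a q l U δ' → Zr M (wd M W (vec M U))

/-- One direction. -/
def St_R1 : Prop := ∀ (M : Mf 4) [M.Cpt] (I : Type) [Fintype I] (S : Sd M I) (a : ℝ → M.X → ℝ)
  (q : Sq) (W V : M.Fam (E 4)), Bad S a → Wf S 2 W → V1 M V →
  Sm0 S 1 (vec M V) ∨ (Nz (wd M W (vec M V)) ∧ Zr M (wd M W (vec M (yy M 2 W V))))

/-- A projective structure exists, or the curvature vanishes on the field. -/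
def St_PQ : Prop := ∀ (M : Mf 4) [M.Cpt] (I : Type) [Fintype I] (S : Sd M I) (a : ℝ → M.X → ℝ)
  (q : Sq) (V : M.Fam (E 4)), Bad S a → V1 M V → Tg S V →
  Sm0 S 1 (vec M V) ∨ ∃ r, Pq M S.H V r

/-- The theorem on the manifold layer. -/
def St_MAIN : Prop := ∀ (M : Mf 4) [M.Cpt] (I : Type) [Fintype I] (S : Sd M I)
  (V W : M.Fam (E 4)), NoS M → HT M 1 V → HT M 1 W → Tg S V → Tg S W →
  ¬Zr M (fun e z => wg (V e z) (W e z)) → KS.Nu S.toDk 1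

end Pool.Agent.Lib.N4S
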