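import Pool.Agent.Lib.N4S.Nc4d
import Pool.Agent.Lib.N4S.Blue

/-! Project n4s, row NC: the truncated weights are admissible in every dimension. -/

open scoped Classical Topology ContDiff ComplexOrder Matrix
open Set MeasureTheory Filter

set_option linter.unusedVariables false

noncomputable section

namespace Pool.Agent.Lib.N4S

open Pool.Agent.Lib.SV (E)
open Pool.Agent.Lib.HS32 Pool.Agent.Lib.HLK Pool.Agent.Lib.N4S.K78

namespace Nc4

theorem sub0 (M : Mf 0) [M.Cpt] : Subsingleton M.X := by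
  have : DiscreteTopology M.X := discreteTopology_iff_isOpen_singleton.2 fun x => by
    obtain ⟨e, -, hx⟩ := M.cov x
    rw [← (subsingleton_of_forall_eq x fun y hy =>
      e.injOn hy hx (Subsingleton.elim _ _)).eq_singleton_of_mem hx]
    exact e.open_source
  exact PreconnectedSpace.trivial_of_discrete

theorem adm_pt {M : Mf 0} [M.Cpt] {I : Type} [Fintype I] {S : Sd M I} {a : ℝ → M.X → ℝ} (q : Sq)
    (hZ : Zs S a) {m : ℕ} (hm : 1 ≤ m) : Adm M S.H (Lb S m) (pm S m) (ww S a q m) := by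
  have := sub0 M
  obtain ⟨x⟩ : Nonempty M.X := inferInstance
  obtain ⟨-, fin, -, μ0, -⟩ := mMU 0 M _ (met S)
  have ev : ∀ f : M.X → ℝ, ∫ y, f y ∂M.mu S.H = (M.mu S.H).real univ * f x := fun f => by
    rw [show f = fun _ => f x from funext fun y => congrArg f (Subsingleton.elim _ _),
      integral_const, smul_eq_mul]
  have sp : ∀ k, 0 < sg S.toDk k x := fun k => by
    obtain ⟨e, he, hx, hv⟩ := S.snc x
    refine (sg_nn _ k x).lt_of_ne' ?_
    rw [← e.left_inv hx, sg_ne _ he (e.map_source hx)]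
    intro h
    obtain ⟨v, h1⟩ := hv k h
    have := h1 k h
    rw [Subsingleton.elim v 0, map_zero, if_pos rfl] at this
    exact zero_ne_one this
  obtain ⟨Z, hZ1⟩ := hZ.itg 1 one_pos
  have az : ∀ j, -a (q.e j) x ≤ Z / (M.mu S.H).real univ := fun j => by
    have := hZ1 _ (q.e0 j)
    rw [ev, one_mul, ← le_div_iff₀' μ0] at this
    linarith [Real.add_one_le_exp (-a (q.e j) x)]
  obtain ⟨B, hB⟩ : ∃ B : ℝ, ∀ j, -ww S a q m j x ≤ B := by
    refine ⟨((m : ℝ) - 1) * (Z / (M.mu S.H).real univ) -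
      ∑ k, ka S.toDk m k * Real.log (sg S.toDk k x), fun j => ?_⟩
    have h1 : ∑ k, ka S.toDk m k * Real.log (sg S.toDk k x) ≤ lf S m (q.d j) x :=
      Finset.sum_le_sum fun k _ => mul_le_mul_of_nonneg_left
        (Real.log_le_log (sp k) (le_add_of_nonneg_right (q.d0 j).1.le)) (ka_nn _ m k)
    have h2 := mul_le_mul_of_nonneg_left ((neg_le_neg (tp_ge q j x).2).trans (az j)) (m0 hm)
    rw [ww]
    linarith
  have g0 : ∀ j W, (lb S m).Sec W → 0 ≤ ∫ x, gb S.H (lj S a q m j) W x ∂M.mu S.H := fun j W hW =>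
    integral_nonneg (gb_c (met S) (lj_ok hZ q m j) (aLAM 0 M _ _ _ (met S) (lj_wt hZ q m j)).2.1
      (W := W) ⟨hW.sm, hW.cmp⟩).2
  have p0 : ∀ j W, 0 ≤ (lj S a q m j).nr S.H W := fun j W =>
    integral_nonneg (pn_0 (met S) (lj_ok hZ q m j) W)
  refine Adm51.adm q hZ hm ⟨(M.mu S.H).real univ * Real.exp B, fun j => ?_⟩
    (fun η hη => ⟨Real.exp B, (Real.exp_pos _).le, fun j W hW => ?_⟩) fun η hη => ?_
  · rw [ev]
    exact mul_le_mul_of_nonneg_left (Real.exp_le_exp.2 (hB j)) μ0.le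
  · refine le_add_of_nonneg_of_le (mul_nonneg hη.le (add_nonneg (g0 j W hW) (p0 j W))) ?_
    rw [Bun.nr, Bun.nr, ev, ev, pn_lj, ← mul_assoc, mul_comm (Real.exp B)]
    exact mul_le_mul_of_nonneg_left (Real.exp_le_exp.2 (hB j))
      (mul_nonneg μ0.le (pn_0 (met S) (lb_ok S m) W x))
  · have t1 : Tendsto q.e atTop (𝓝 0) := by
      simpa only [zero_mul, Real.exp_zero, one_mul] using q.et 0
    have t2 : Tendsto q.d atTop (𝓝 0) := by
      simpa only [zero_mul, Real.exp_zero, one_mul, Real.rpow_one] using q.dt 0 1 one_pos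
    have t3 := t1.add (tendsto_finsetSum Finset.univ fun k _ =>
      t2.div (t2.const_add (sg S.toDk k x)) (by rw [add_zero]; exact (sp k).ne'))
    simp only [zero_div, Finset.sum_const_zero, add_zero] at t3
    filter_upwards [t3.eventually (ge_mem_nhds hη),
      q.Nt.eventually_ge_atTop (Z / (M.mu S.H).real univ)] with j h1 h2 W hW
    have h3 : Adm51.la S a q j x ≤ η := by
      rw [Adm51.la, if_neg (by linarith [az j]), add_zero]
      exact h1
    have h4 := p0 j W
    have h5 := mul_le_mul h3 (le_add_of_nonneg_left (g0 j W hW)) h4 hη.le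
    refine le_trans (le_of_eq ?_) h5
    rw [Bun.nr, ev, ev]
    ring

/-- The weights are admissible. -/
theorem adm0 {n : ℕ} {M : Mf n} [M.Cpt] {I : Type} [Fintype I] {S : Sd M I} {a : ℝ → M.X → ℝ}
    (q : Sq) (hZ : Zs S a) {m : ℕ} (hm : 1 ≤ m) : Adm M S.H (Lb S m) (pm S m) (ww S a q m) := by
  rcases Nat.eq_zero_or_pos n with rfl | hn
  · exact adm_pt q hZ hm
  · exact adm q hn hZ hm

end Nc4

theorem st_NC : St_NC := fun n M _ I _ S a q m hZ hm => (Nc4.adm0 q hZ (by omega)).nc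

end Pool.Agent.Lib.N4S
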