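import Pool.Agent.Lib.N4S.Blue
import Pool.Agent.Lib.N4S.Ppi55

/-! Project n4s: the bracket is tangent to the plane. -/

set_option linter.unusedVariables false

namespace Pool.Agent.Lib.N4S

theorem st_NIL (hI : St_INF) (hR : St_REC) : St_NIL :=
  fun M _ I _ S a q W V π hZ no hW nW pW hV hπ dπ h0 h1 nV =>
    P55.nil55 S.kae.toMet no (hI 4 M I S no).1
      (fun l ρ τ => hR 4 M I S a q l W ρ τ hZ hW pW) hW nW hV hπ dπ h0 h1 nV

end Pool.Agent.Lib.N4S
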