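import Pool.Agent.Lib.N4S.Nb51

/-! Project n4s: the product of the two defects is a sum of products of smooth functions on the
model and of sections that are holomorphic off the divisors. -/

open scoped Classical Topology ContDiff ComplexOrder Matrix
open Set Filter

set_option linter.unusedVariables false

noncomputable section

namespace Pool.Agent.Lib.N4S

open Pool.Agent.Lib.SV (E)
open Pool.Agent.Lib.HS32 Pool.Agent.Lib.HLK Pool.Agent.Lib.F4 Pool.Agent.Lib.NU4

namespace Fe22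

open Nb51 Lie87

variable {n : ℕ} {M : Mf n} {I : Type} [Fintype I] {S : Sd M I} {x y : M.X} {e e' : M.Ch}
  {z : E n}

/-- The chain rule for a holomorphic map. -/
theorem chain {r : ℕ} {f : E r → ℂ} {G : E n → E r} (hG : DifferentiableAt ℂ G z)
    (hf : DifferentiableAt ℝ f (G z)) (j : Fin n) :
    dz j (fun w => f (G w)) z = ∑ i, dz i f (G z) * dz j (fun w => G w i) z := by
  have a : fderiv ℝ (fun w => f (G w)) z =
      (fderiv ℝ f (G z)).comp ((fderiv ℂ G z).restrictScalars ℝ) :=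
    (hf.hasFDerivAt.comp z (hG.hasFDerivAt.restrictScalars ℝ)).fderiv
  have b : ∀ i, dz j (fun w => G w i) z = fderiv ℂ G z (Pi.single j 1) i := fun i => by
    rw [(mHOL n _ z).2.1 (differentiableAt_pi.1 hG i), fderiv_apply hG i]
    rfl
  have c : (Pi.single j Complex.I : E n) = Complex.I • (Pi.single j 1 : E n) := by
    rw [← Pi.single_smul, smul_eq_mul, mul_one]
  have d : ∀ (L : E r →L[ℝ] ℂ) (u : E r), L u =
      ∑ i, ((u i).re * L (Pi.single i 1) + (u i).im * L (Pi.single i Complex.I)) := fun L u => by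
    conv_lhs => rw [← Finset.univ_sum_single u, map_sum]
    refine Finset.sum_congr rfl fun i _ => ?_
    have : (Pi.single i (u i) : E r) =
        (u i).re • (Pi.single i 1 : E r) + (u i).im • (Pi.single i Complex.I : E r) := by
      rw [← Pi.single_smul, ← Pi.single_smul, ← Pi.single_add]
      congr 1
      simp
    rw [this, map_add, map_smul, map_smul, Complex.real_smul, Complex.real_smul]
  simp only [b]
  rw [dz, a, ContinuousLinearMap.comp_apply, ContinuousLinearMap.comp_apply,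
    ContinuousLinearMap.coe_restrictScalars', c, map_smul, d, d (fderiv ℝ f (G z)) (_ • _),
    Finset.mul_sum, ← Finset.sum_sub_distrib, Finset.sum_div]
  refine Finset.sum_congr rfl fun i _ => ?_
  set u := fderiv ℂ G z (Pi.single j 1) with hu
  rw [dz]
  conv_rhs => rw [← Complex.re_add_im (u i)]
  simp only [Pi.smul_apply, smul_eq_mul, Complex.mul_re, Complex.mul_im, Complex.I_re,
    Complex.I_im, zero_mul, one_mul, zero_sub, zero_add, Complex.ofReal_neg]
  linear_combination ((u i).im * fderiv ℝ f (G z) (Pi.single i Complex.I) / 2) * Complex.I_mul_I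

/-- The law of the derivative of a function along a field. -/
theorem dirc {a : ℕ} {W : M.Fam (E n)} (hW : HT M a W) {u : M.X → ℂ} (he : e ∈ M.C)
    (he' : e' ∈ M.C) (hy : y ∈ e.source) (hy' : y ∈ e'.source)
    (hu : DifferentiableAt ℝ (fun w => u (e.symm w)) (e y)) :
    dir (W e') (fun w => u (e'.symm w)) (e' y) =
      jd M e e' y ^ a * dir (W e) (fun w => u (e.symm w)) (e y) := by
  obtain ⟨t1, -, -, t4, -⟩ := (mTR n M).2.1 e he e' he' y hy hy'
  have x0 : (e ∘ e'.symm) (e' y) = e y := by simp [e'.left_inv hy']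
  have a2 : (fun w => u (e'.symm w)) =ᶠ[𝓝 (e' y)] (fun w => u (e.symm w)) ∘ (e ∘ e'.symm) :=
    t4.mono fun w hw => by simp only [Function.comp_apply, hw.2.2.2.2.1]
  have c := fun j => ((mCHN n _ _ t1).2.2.2.2.2.2.2.2.2.1 _ (x0.symm ▸ hu) j).1
  have w := fun i => congrFun (hW.cmp e he e' he' y hy hy') i
  simp only [Matrix.mulVec, dotProduct, Pi.smul_apply, smul_eq_mul, Mf.J, zpow_natCast] at w
  rw [P56.dir_congr a2]
  simp only [dir, c, x0, Finset.mul_sum]
  rw [Finset.sum_comm]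
  refine Finset.sum_congr rfl fun i _ => ?_
  rw [← mul_assoc, ← w i, Finset.sum_mul]
  exact Finset.sum_congr rfl fun k _ => by ring

variable (P : Lm S.toDk S.u x)

theorem near (he : e ∈ M.C) (hz : z ∈ e.target) (h : e.symm z ∈ P.W ∩ Of S.toDk) :
    ∀ᶠ w in 𝓝 z, w ∈ e.target ∧ e.symm w ∈ P.W ∩ Of S.toDk :=
  (e.open_target.eventually_mem hz).and
    ((e.continuousAt_symm hz).eventually ((P.opn.inter of_open).mem_nhds h))

/-- The model weight. -/
theorem ph_eq (he : e ∈ M.C) (hz : z ∈ e.target) (h : e.symm z ∈ P.W ∩ Of S.toDk) :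
    ph S 0 0 e z = (S.c : ℂ)⁻¹ * (((Real.log (Complex.normSq (om P e z)) : ℝ) : ℂ) +
      ((P.F fun i => P.g i (e.symm z) : ℝ) : ℂ)) := by
  have k := om_nrm P he (e.map_target hz) h
  have c : (S.c : ℝ) ≠ 0 := Nat.cast_ne_zero.2 S.c0.ne'
  have c' : (S.c : ℂ) ≠ 0 := Nat.cast_ne_zero.2 S.c0.ne'
  have d := det_pos (D := S.toDk) he hz
  have p := pw_pos h.2 1
  rw [e.right_inv hz, ← Complex.normSq_eq_norm_sq] at k
  rw [k, Real.log_mul (pow_pos (mul_pos d p) _).ne' (Real.exp_pos _).ne', Real.log_exp,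
    Real.log_pow, Real.log_mul d.ne' p.ne', pw_eq h.2, Real.log_exp]
  simp only [ph, ld, Mf.lc, pot, Pi.zero_apply, add_zero, one_mul]
  push_cast
  field_simp
  ring

/-- The coefficients. -/
def ps (i : Fin P.r) (p : Fin P.r → ℂ) : ℂ := (S.c : ℂ)⁻¹ * dz i (fun q => (P.F q : ℂ)) p

/-- The holomorphic part of the derivative of the model weight. -/
def la (Y : M.Fam (E n)) : M.Fam ℂ := fun e z => (S.c : ℂ)⁻¹ * (dir (Y e) (om P e) z / om P e z)

/-- The derivatives of the coordinates of the model. -/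
def dg (Y : M.Fam (E n)) (i : Fin P.r) : M.Fam ℂ := fun e => dir (Y e) fun w => P.g i (e.symm w)

theorem ps_sm (i : Fin P.r) (hy : y ∈ P.W) : ContDiffAt ℝ ∞ (ps P i) fun l => P.g l y :=
  contDiffAt_const.mul (cd_dz (cd_ofReal (P.sF y hy)) i)

theorem form (he : e ∈ M.C) (hz : z ∈ e.target) (h : e.symm z ∈ P.W ∩ Of S.toDk) :
    DifferentiableAt ℝ (ph S 0 0 e) z ∧ ∀ Y : M.Fam (E n), dir (Y e) (ph S 0 0 e) z =
      la P Y e z + ∑ i, ps P i (fun l => P.g l (e.symm z)) * dg P Y i e z := by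
  have o := (om_hs P).hol e he z hz h.1
  have o0 := om_ne P he (e.map_target hz) h
  rw [e.right_inv hz] at o0
  obtain ⟨s1, -, s2⟩ := ((mHOL n _ z).2.2 o).2.2.2 o0
  have g : DifferentiableAt ℂ (fun w l => P.g l (e.symm w)) z :=
    differentiableAt_pi.2 fun l => ((P.hg l).hol e he z hz h.1).self_of_nhds
  have f : DifferentiableAt ℝ (fun q => (P.F q : ℂ)) fun l => P.g l (e.symm z) :=
    cd_diff (cd_ofReal (P.sF _ h.1))
  have f' : DifferentiableAt ℝ (fun w => ((P.F fun l => P.g l (e.symm w) : ℝ) : ℂ)) z :=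
    f.comp z (g.restrictScalars ℝ)
  have s := cd_diff (cd_ofReal s1)
  have ev : ph S 0 0 e =ᶠ[𝓝 z] fun w => (S.c : ℂ)⁻¹ *
      (((Real.log (Complex.normSq (om P e w)) : ℝ) : ℂ) +
        ((P.F fun i => P.g i (e.symm w) : ℝ) : ℂ)) :=
    (near P he hz h).mono fun w k => ph_eq P he k.1 k.2
  refine ⟨((s.fun_add f').const_mul _).congr_of_eventuallyEq ev, fun Y => ?_⟩
  rw [P56.dir_congr ev]
  have k : ∀ j, dz j (fun w => (S.c : ℂ)⁻¹ *
      (((Real.log (Complex.normSq (om P e w)) : ℝ) : ℂ) +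
        ((P.F fun i => P.g i (e.symm w) : ℝ) : ℂ))) z = (S.c : ℂ)⁻¹ *
      (dz j (om P e) z / om P e z + ∑ i, dz i (fun q => (P.F q : ℂ)) (fun l => P.g l (e.symm z)) *
        dz j (fun w => P.g i (e.symm w)) z) := fun j => by
    rw [dz_const_mul _ (s.fun_add f'), dz_add s f', s2, chain (f := fun q => (P.F q : ℂ)) g f]
  simp only [dir, k]
  simp only [la, dg, ps, dir, Finset.mul_sum, Finset.sum_div, mul_add, Finset.sum_add_distrib]
  congr 1
  · exact Finset.sum_congr rfl fun k _ => by ring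
  · rw [Finset.sum_comm]
    exact Finset.sum_congr rfl fun k _ => Finset.sum_congr rfl fun l _ => by ring

theorem la_hol {Y : M.Fam (E n)} (he : e ∈ M.C) (hz : z ∈ e.target)
    (h : e.symm z ∈ P.W ∩ Of S.toDk) (hY : HolV (Y e) z) : HolN (la P Y e) z := by
  have o := (om_hs P).hol e he z hz h.1
  have o0 := om_ne P he (e.map_target hz) h
  rw [e.right_inv hz] at o0
  filter_upwards [h_dir hY o, o, o.self_of_nhds.continuousAt.eventually_ne o0] with w a b c
  have q : la P Y e = fun w => (S.c : ℂ)⁻¹ * (dir (Y e) (om P e) w * (om P e w)⁻¹) :=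
    funext fun w => by rw [la, div_eq_mul_inv]
  rw [q]
  exact (a.fun_mul (b.fun_inv c)).const_mul _

theorem dg_hol {Y : M.Fam (E n)} (he : e ∈ M.C) (hz : z ∈ e.target) (h : e.symm z ∈ P.W)
    (hY : HolV (Y e) z) (i : Fin P.r) : HolN (dg P Y i e) z :=
  h_dir hY ((P.hg i).hol e he z hz h)

theorem dg_cmp {a : ℕ} {W : M.Fam (E n)} (hW : HT M a W) (he : e ∈ M.C) (he' : e' ∈ M.C)
    (hy : y ∈ e.source) (hy' : y ∈ e'.source) (h : y ∈ P.W) (i : Fin P.r) :
    dg P W i e' (e' y) = jd M e e' y ^ a * dg P W i e (e y) :=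
  dirc hW he he' hy hy' (h_d ((P.hg i).hol e he _ (e.map_source hy) (by rwa [e.left_inv hy])))

theorem dg_hs {a : ℕ} {W : M.Fam (E n)} (hW : HT M a W) (i : Fin P.r) :
    Hs (P.W ∩ Of S.toDk) a (dg P W i) :=
  ⟨fun e he z hz h => dg_hol P he hz h.1 (hW.hol e he z hz) i,
    fun e he e' he' y hy hy' h => dg_cmp P hW he he' hy hy' h.1 i⟩

/-- The holomorphic part has the law of the derivative of the weight of the metric. -/
theorem la_cmp {a : ℕ} {W : M.Fam (E n)} (hW : HT M a W) (he : e ∈ M.C) (he' : e' ∈ M.C)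
    (hy : y ∈ e.source) (hy' : y ∈ e'.source) (h : y ∈ P.W ∩ Of S.toDk) :
    la P W e' (e' y) - a0 M S.H W e' (e' y) =
      jd M e e' y ^ a * (la P W e (e y) - a0 M S.H W e (e y)) := by
  have k : ∀ e ∈ M.C, y ∈ e.source →
      DifferentiableAt ℝ (fun w => (pot S 0 0 (e.symm w) : ℂ)) (e y) ∧
      la P W e (e y) - a0 M S.H W e (e y) = dir (W e) (fun w => (pot S 0 0 (e.symm w) : ℂ)) (e y) -
        ∑ i, ps P i (fun l => P.g l y) * dg P W i e (e y) := fun e he hy => by
    have hz := e.map_source hy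
    obtain ⟨f1, f2⟩ := form P he hz (by rwa [e.left_inv hy])
    have l : DifferentiableAt ℝ (ld (S.H e)) (e y) := cd_diff
      ((mCOF n _ _ (S.kae.sm e he _ hz)).2.2.2.2.2 (S.kae.pos.ev he hz)).1
    have p : (fun w => (pot S 0 0 (e.symm w) : ℂ)) = fun w => ph S 0 0 e w - ld (S.H e) w :=
      funext fun w => (add_sub_cancel_left _ _).symm
    have f3 := f2 W
    rw [e.left_inv hy] at f3
    refine ⟨p ▸ f1.fun_sub l, ?_⟩
    rw [p, eq_sub_iff_add_eq, sub_add_eq_add_sub, ← f3, a0]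
    simp only [dir, dz_sub f1 l, mul_sub, Finset.sum_sub_distrib]
  rw [(k e he hy).2, (k e' he' hy').2, dirc (u := fun y => (pot S 0 0 y : ℂ)) hW he he' hy hy'
    (k e he hy).1, mul_sub, Finset.mul_sum]
  congr 1
  exact Finset.sum_congr rfl fun i _ => by rw [dg_cmp P hW he he' hy hy' h.1 i]; ring

/-- A law that holds on a dense set holds everywhere. -/
theorem hs_den {U O : Set M.X} {j : ℕ} {t : M.Fam ℂ} (hU : IsOpen U)
    (den : M.All fun e z => ∃ᶠ w in 𝓝 z, e.symm w ∈ O)
    (hol : M.All fun e z => e.symm z ∈ U → HolN (t e) z)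
    (cmp : M.Ov fun e e' y => y ∈ U → y ∈ O → t e' (e' y) = jd M e e' y ^ j * t e (e y)) :
    Hs U j t := by
  refine ⟨hol, fun e he e' he' y hy hy' h => ?_⟩
  obtain ⟨t1, -, -, t4, -⟩ := (mTR n M).2.1 e he e' he' y hy hy'
  have hz := e'.map_source hy'
  have x0 : (e ∘ e'.symm) (e' y) = e y := by simp [e'.left_inv hy']
  have c1 : ContinuousAt (t e') (e' y) :=
    (hol e' he' _ hz (by rwa [e'.left_inv hy'])).self_of_nhds.continuousAt
  have c2 : ContinuousAt (t e) ((e ∘ e'.symm) (e' y)) := by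
    rw [x0]
    exact (hol e he _ (e.map_source hy) (by rwa [e.left_inv hy])).self_of_nhds.continuousAt
  have c3 : ContinuousAt (fun w => (jm (e ∘ e'.symm) w).det ^ j * t e ((e ∘ e'.symm) w)) (e' y) :=
    (((mCHN n _ _ t1).2.2.2.2.1.self_of_nhds.continuousAt).pow j).mul
      (c2.comp t1.self_of_nhds.continuousAt)
  have u : ∀ᶠ w in 𝓝 (e' y), e'.symm w ∈ U :=
    (e'.continuousAt_symm hz).eventually (hU.mem_nhds (by rwa [e'.left_inv hy']))
  have := tendsto_nhds_unique_of_frequently_eq c1 c3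
    (((den e' he' _ hz).and_eventually (t4.and u)).mono fun w k => by
      have q := cmp e he e' he' _ k.2.1.2.1 k.2.1.2.2.1 k.2.2 k.1
      rw [k.2.1.2.2.2.2.2.1, jd, k.2.1.2.2.2.2.2.2] at q
      exact q)
  rw [this]
  beta_reduce
  rw [x0]
  rfl

theorem gc_of {O : Set M.X} {j : ℕ} {t : M.Fam ℂ} {J : Type} [Fintype J]
    (ψ : J → (Fin P.r → ℂ) → ℂ) (τ : J → M.Fam ℂ)
    (h : ∀ i, (∀ y ∈ P.W, ContDiffAt ℝ ∞ (ψ i) fun l => P.g l y) ∧ Hs (P.W ∩ Of S.toDk) j (τ i))
    (k : M.All fun e z => e.symm z ∈ P.W ∩ Of S.toDk → e.symm z ∈ O →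
      t e z = ∑ i, ψ i (fun l => P.g l (e.symm z)) * τ i e z) : Gc S P O j t :=
  ⟨_, ψ ∘ (Fintype.equivFin J).symm, τ ∘ (Fintype.equivFin J).symm, fun i => h _,
    fun e he z hz a b => (k e he z hz a b).trans ((Fintype.equivFin J).symm.sum_comp
      fun i => ψ i (fun l => P.g l (e.symm z)) * τ i e z).symm⟩

/-- The product of the two defects. -/
theorem fe {O : Set M.X} {l m : ℕ} {V W Y : M.Fam (E n)} {b δ h : M.Fam ℂ} (hV : HT M l V)
    (hW : HT M m W) (den : M.All fun e z => ∃ᶠ w in 𝓝 z, e.symm w ∈ O)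
    (cb : M.Ov fun e e' y => y ∈ Of S.toDk → y ∈ O → b e' (e' y) - a0 M S.H V e' (e' y) =
      jd M e e' y ^ l * (b e (e y) - a0 M S.H V e (e y)))
    (hδ : M.All fun e z => e.symm z ∈ Of S.toDk → HolN (δ e) z)
    (cδ : M.Ov fun e e' y => y ∈ Of S.toDk → δ e' (e' y) - a0 M S.H W e' (e' y) =
      jd M e e' y ^ m * (δ e (e y) - a0 M S.H W e (e y)))
    (hY : M.All fun e z => e.symm z ∈ Of S.toDk → HolV (Y e) z ∧ HolN (h e) z ∧
      (e.symm z ∈ O → Y e z = b e z • W e z ∧ h e z = b e z * δ e z)) :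
    Gc S P O (l + m) fun e z =>
      (b e z - dir (V e) (ph S 0 0 e) z) * (δ e z - dir (W e) (ph S 0 0 e) z) := by
  have hU := P.opn.inter (of_open (D := S.toDk))
  have dd : Hs (P.W ∩ Of S.toDk) m fun e z => δ e z - la P W e z :=
    ⟨fun e he z hz a => h_sub (hδ e he z hz a.2) (la_hol P he hz a (hW.hol e he z hz)),
      fun e he e' he' y hy hy' a => by
        linear_combination cδ e he e' he' y hy hy' a.2 - la_cmp P hW he he' hy hy' a⟩
  have bb : M.Ov fun e e' y => y ∈ P.W ∩ Of S.toDk → y ∈ O → b e' (e' y) - la P V e' (e' y) =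
      jd M e e' y ^ l * (b e (e y) - la P V e (e y)) := fun e he e' he' y hy hy' a o => by
    linear_combination cb e he e' he' y hy hy' a.2 o - la_cmp P hV he he' hy hy' a
  have e0 : M.All fun e z => e.symm z ∈ P.W ∩ Of S.toDk → e.symm z ∈ O →
      (h e z - la P Y e z - la P V e z * (δ e z - la P W e z) =
        (b e z - la P V e z) * (δ e z - la P W e z)) ∧ ∀ i,
      dg P Y i e z - la P V e z * dg P W i e z = (b e z - la P V e z) * dg P W i e z :=
    fun e he z hz a o => by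
      obtain ⟨k1, k2⟩ := (hY e he z hz a.2).2.2 o
      have q : ∀ f, dir (Y e) f z = b e z * dir (W e) f z := fun f => by
        simp only [dir, k1, Pi.smul_apply, smul_eq_mul, Finset.mul_sum, mul_assoc]
      refine ⟨?_, fun i => ?_⟩
      · simp only [la, q, k2]
        ring
      · simp only [dg, q]
        ring
  have e1 : ∀ e ∈ M.C, ∀ y ∈ e.source, y ∈ P.W ∩ Of S.toDk → y ∈ O → _ := fun e he y hy a o =>
    e0 e he _ (e.map_source hy) (by rwa [e.left_inv hy]) (by rwa [e.left_inv hy])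
  have t0 : Hs (P.W ∩ Of S.toDk) (l + m) fun e z =>
      h e z - la P Y e z - la P V e z * (δ e z - la P W e z) :=
    hs_den hU den (fun e he z hz a => h_sub (h_sub (hY e he z hz a.2).2.1
      (la_hol P he hz a (hY e he z hz a.2).1)) (h_mul (la_hol P he hz a (hV.hol e he z hz))
        (dd.hol e he z hz a))) fun e he e' he' y hy hy' a o => by
      have q := dd.cmp e he e' he' y hy hy' a
      beta_reduce at q ⊢
      rw [(e1 e he y hy a o).1, (e1 e' he' y hy' a o).1, bb e he e' he' y hy hy' a o, q]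
      ring
  have t1 : ∀ i, Hs (P.W ∩ Of S.toDk) (l + m) fun e z =>
      dg P Y i e z - la P V e z * dg P W i e z := fun i =>
    hs_den hU den (fun e he z hz a => h_sub (dg_hol P he hz a.1 (hY e he z hz a.2).1 i)
      (h_mul (la_hol P he hz a (hV.hol e he z hz)) (dg_hol P he hz a.1 (hW.hol e he z hz) i)))
      fun e he e' he' y hy hy' a o => by
        rw [(e1 e he y hy a o).2 i, (e1 e' he' y hy' a o).2 i, bb e he e' he' y hy hy' a o,
          dg_cmp P hW he he' hy hy' a.1 i]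
        ring
  refine gc_of P (J := (Unit ⊕ Fin P.r) ⊕ Fin P.r ⊕ Fin P.r × Fin P.r)
    (Sum.elim (Sum.elim (fun _ _ => 1) fun i p => -ps P i p)
      (Sum.elim (fun i p => -ps P i p) fun i p => ps P i.1 p * ps P i.2 p))
    (Sum.elim (Sum.elim (fun _ e z => h e z - la P Y e z - la P V e z * (δ e z - la P W e z))
        fun i e z => dg P Y i e z - la P V e z * dg P W i e z)
      (Sum.elim (fun i e z => dg P V i e z * (δ e z - la P W e z))
        fun i e z => dg P V i.1 e z * dg P W i.2 e z)) ?_ fun e he z hz a o => ?_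
  · rintro ((i | i) | i | i)
    · exact ⟨fun y hy => contDiffAt_const, t0⟩
    · exact ⟨fun y hy => (ps_sm P i hy).neg, t1 i⟩
    · exact ⟨fun y hy => (ps_sm P i hy).neg, hs_mul (dg_hs P hV i) dd⟩
    · exact ⟨fun y hy => (ps_sm P i.1 hy).mul (ps_sm P i.2 hy),
        hs_mul (dg_hs P hV i.1) (dg_hs P hW i.2)⟩
  · obtain ⟨k1, k2⟩ := e0 e he z hz a o
    simp only [Fintype.sum_sum_type, Fintype.sum_prod_type, Sum.elim_inl, Sum.elim_inr,
      Finset.univ_unique, Finset.sum_singleton, k1, k2, (form P he hz a).2]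
    set p := fun i => ps P i fun l => P.g l (e.symm z) with hp
    have s1 : ∑ i, -p i * ((b e z - la P V e z) * dg P W i e z) =
        -((b e z - la P V e z) * ∑ i, p i * dg P W i e z) := by
      rw [Finset.mul_sum, ← Finset.sum_neg_distrib]
      exact Finset.sum_congr rfl fun i _ => by ring
    have s2 : ∑ i, -p i * (dg P V i e z * (δ e z - la P W e z)) =
        -((∑ i, p i * dg P V i e z) * (δ e z - la P W e z)) := by
      rw [Finset.sum_mul, ← Finset.sum_neg_distrib]
      exact Finset.sum_congr rfl fun i _ => by ring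
    have s3 : ∑ i, ∑ k, p i * p k * (dg P V i e z * dg P W k e z) =
        (∑ i, p i * dg P V i e z) * ∑ i, p i * dg P W i e z := by
      rw [Finset.sum_mul_sum]
      exact Finset.sum_congr rfl fun i _ => Finset.sum_congr rfl fun k _ => by ring
    show (b e z - (la P V e z + ∑ i, p i * dg P V i e z)) *
      (δ e z - (la P W e z + ∑ i, p i * dg P W i e z)) = 1 * _ +
      ∑ i, -p i * ((b e z - la P V e z) * dg P W i e z) +
      (∑ i, -p i * (dg P V i e z * (δ e z - la P W e z)) +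
        ∑ i, ∑ k, p i * p k * (dg P V i e z * dg P W k e z))
    rw [s1, s2, s3]
    ring

end Fe22

end Pool.Agent.Lib.N4S
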