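import Pool.Agent.Lib.N4S.Defs
import Pool.Agent.Lib.NU4.B_QQL
import Pool.Agent.Lib.NU4.B_NAB
import Pool.Agent.Lib.NU4.B_FK
import Pool.Agent.Lib.NU4.B_KIT
import Pool.Agent.Lib.NU4.B_LIE

/-! Project n4s: sums of products of a smooth function on the model and of a holomorphic section
are stable under products and under the covariant derivatives, and bounded by the model metric. -/

open scoped Classical Topology ContDiff ComplexOrder Matrix
open Set Filter Complex

noncomputable section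

namespace Pool.Agent.Lib.N4S.Gc75

open Pool.Agent.Lib.SV (E)
open Pool.Agent.Lib.HS32 Pool.Agent.Lib.HLK Pool.Agent.Lib.F4 Pool.Agent.Lib.NU4
open Pool.Agent.Lib.NU4.Q76 (dir_congr dir_add dir_mul dir_comp)
open Pool.Agent.Lib.K3S (Dk)

variable {n : ℕ}

/-! ### Coordinates -/

theorem chain {r : ℕ} {G : E n → E r} {z : E n} (h : DifferentiableAt ℂ G z) {f : E r → ℂ}
    (hf : DifferentiableAt ℝ f (G z)) (j : Fin n) :
    dz j (fun w => f (G w)) z = ∑ a, dz a f (G z) * dz j (fun w => G w a) z := by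
  have e : ∀ c : ℂ, fderiv ℝ (fun w => f (G w)) z (Pi.single j c) =
      ∑ a, (dz a f (G z) * (dz j (fun w => G w a) z * c) +
        dzb a f (G z) * star (dz j (fun w => G w a) z * c)) := by
    intro c
    rw [fderiv_fun_comp z hf (h.restrictScalars ℝ), h.fderiv_restrictScalars ℝ,
      ContinuousLinearMap.comp_apply, fderiv_eq_sum]
    refine Finset.sum_congr rfl fun a _ => ?_
    have : (ContinuousLinearMap.restrictScalars ℝ (fderiv ℂ G z)) (Pi.single j c) a =
        dz j (fun w => G w a) z * c := by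
      change fderiv ℂ G z (Pi.single j c) a = _
      rw [(mHOL n (fun w => G w a) z).2.1 (differentiableAt_pi.1 h a) j, fderiv_apply h a,
        show (Pi.single j c : E n) = c • Pi.single j 1 by rw [← Pi.single_smul, smul_eq_mul, mul_one],
        map_smul, mul_comm]
      rfl
    rw [this]
  have hI : star I = -I := conj_I
  rw [dz, e, e, Finset.mul_sum, ← Finset.sum_sub_distrib, Finset.sum_div]
  refine Finset.sum_congr rfl fun a _ => ?_
  rw [star_mul', star_mul', star_one, hI]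
  linear_combination (-(dz a f (G z) * dz j (fun w => G w a) z -
    dzb a f (G z) * star (dz j (fun w => G w a) z)) / 2) * I_mul_I

variable {V : E n → E n} {f g : E n → ℂ} {z : E n}

theorem hd (h : HolN f z) : DifferentiableAt ℝ f z := h.self_of_nhds.restrictScalars ℝ

theorem dir_chain {r : ℕ} {G : E n → E r} (h : DifferentiableAt ℂ G z) {f : E r → ℂ}
    (hf : DifferentiableAt ℝ f (G z)) :
    dir V (fun w => f (G w)) z = ∑ a, dz a f (G z) * dir V (fun w => G w a) z := by
  simp only [dir, chain h hf, Finset.mul_sum]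
  rw [Finset.sum_comm]
  exact Finset.sum_congr rfl fun a _ => Finset.sum_congr rfl fun k _ => by ring

theorem dir_pow (hf : DifferentiableAt ℝ f z) (h0 : f z ≠ 0) (j : ℕ) :
    dir V (fun w => f w ^ j) z = j * (dir V f z / f z) * f z ^ j := by
  induction j with
  | zero => simp [dir]
  | succ j ih =>
    simp only [pow_succ]
    rw [dir_mul (hf.fun_pow j) hf, ih]
    push_cast
    field_simp

theorem dir_sum {ι : Type} {s : Finset ι} {f : ι → E n → ℂ}
    (hf : ∀ a ∈ s, DifferentiableAt ℝ (f a) z) :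
    dir V (fun w => ∑ a ∈ s, f a w) z = ∑ a ∈ s, dir V (f a) z := by
  simp only [dir, dz_sum hf, Finset.mul_sum]
  exact Finset.sum_comm

theorem dir_cmul (c : ℂ) (hf : DifferentiableAt ℝ f z) :
    dir V (fun w => c * f w) z = c * dir V f z := by
  simp only [dir, dz_const_mul c hf, Finset.mul_sum]
  exact Finset.sum_congr rfl fun k _ => by ring

theorem hol_dir (hv : HolV V z) (hf : HolN f z) : HolN (dir V f) z := by
  filter_upwards [eventually_all.2 hv, eventually_all.2 ((mHOL n _ _).2.2 hf).2.1] with w a b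
  exact DifferentiableAt.fun_sum fun k _ => (a k).mul (b k)

theorem hol_mul (h : HolN f z) (h' : HolN g z) : HolN (fun w => f w * g w) z :=
  (h.and h').mono fun _ a => a.1.mul a.2

theorem hol_sub (h : HolN f z) (h' : HolN g z) : HolN (fun w => f w - g w) z :=
  (h.and h').mono fun _ a => a.1.sub a.2

theorem hol_c (c : ℂ) (z : E n) : HolN (fun _ : E n => c) z :=
  Eventually.of_forall fun _ => differentiableAt_const _

theorem hol_add (h : HolN f z) (h' : HolN g z) : HolN (fun w => f w + g w) z :=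
  (h.and h').mono fun _ a => a.1.add a.2

theorem hol_div (h : HolN f z) (h' : HolN g z) (h0 : g z ≠ 0) : HolN (fun w => f w / g w) z := by
  filter_upwards [h, h', h'.self_of_nhds.continuousAt.eventually_ne h0] with w a b c
  simp only [div_eq_mul_inv]
  exact a.mul (b.inv c)

/-! ### Holomorphic sections over an open set -/

variable {M : Mf n} {O : Set M.X} {j l m : ℕ} {s t : M.Fam ℂ} {W : M.Fam (E n)}

theorem hs_mono {O' : Set M.X} (h : Hs O j t) (hO : O' ⊆ O) : Hs O' j t :=
  ⟨fun e he z hz a => h.hol e he z hz (hO a), fun e he e' he' x hx hx' a =>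
    h.cmp e he e' he' x hx hx' (hO a)⟩

theorem hs_mul (hs : Hs O j s) (ht : Hs O l t) : Hs O (j + l) fun e z => s e z * t e z :=
  ⟨fun e he z hz a => hol_mul (hs.hol e he z hz a) (ht.hol e he z hz a),
    fun e he e' he' x hx hx' a => by
      simp only [hs.cmp e he e' he' x hx hx' a, ht.cmp e he e' he' x hx hx' a, pow_add]
      ring⟩

theorem hs_add (hs : Hs O j s) (ht : Hs O j t) : Hs O j fun e z => s e z + t e z :=
  ⟨fun e he z hz a => hol_add (hs.hol e he z hz a) (ht.hol e he z hz a),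
    fun e he e' he' x hx hx' a => by
      simp only [hs.cmp e he e' he' x hx hx' a, ht.cmp e he e' he' x hx hx' a]
      ring⟩

theorem hs_const (O : Set M.X) (c : ℂ) : Hs O 0 fun _ _ => c :=
  ⟨fun _ _ z _ _ => hol_c c z, fun _ _ _ _ _ _ _ _ => by simp⟩

theorem ev_mem (hO : IsOpen O) {e : M.Ch} {z : E n} (hz : z ∈ e.target) (h : e.symm z ∈ O) :
    ∀ᶠ w in 𝓝 z, w ∈ e.target ∧ e.symm w ∈ O :=
  (e.open_target.eventually_mem hz).and ((e.continuousAt_symm hz).eventually (hO.eventually_mem h))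

variable (W) in
/-- The logarithmic derivative of the Jacobian along the field. -/
def lm (e e' : M.Ch) (x : M.X) : ℂ :=
  dir (W e') (fun w => (jm (e ∘ e'.symm) w).det) (e' x) / jd M e e' x

theorem hv_law (hW : HT M m W) : M.Ov fun e e' x => jm (e ∘ e'.symm) (e' x) *ᵥ W e' (e' x) =
    jd M e e' x ^ m • W e ((e ∘ e'.symm) (e' x)) := fun e he e' he' x hx hx' => by
  have ex : (e ∘ e'.symm) (e' x) = e x := congrArg e (e'.left_inv hx')
  beta_reduce
  rw [ex]
  simpa only [zpow_natCast, Mf.J] using hW.cmp e he e' he' x hx hx'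

/-- The derivative of a section in two charts. -/
theorem dir_law (hO : IsOpen O) (hW : HT M m W)
    (hd : M.All fun e z => e.symm z ∈ O → DifferentiableAt ℝ (t e) z)
    (hc : M.Ov fun e e' x => x ∈ O → t e' (e' x) = jd M e e' x ^ j * t e (e x)) :
    M.Ov fun e e' x => x ∈ O → dir (W e') (t e') (e' x) =
      jd M e e' x ^ (j + m) * dir (W e) (t e) (e x) + j * lm W e e' x * t e' (e' x) := by
  intro e he e' he' x hx hx' a
  obtain ⟨t1, t2, -, t4, -⟩ := (mTR n M).2.1 e he e' he' x hx hx'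
  have c5 := Gc75.hd (mCHN n _ _ t1).2.2.2.2.1
  have ex : (e ∘ e'.symm) (e' x) = e x := congrArg e (e'.left_inv hx')
  have p : DifferentiableAt ℝ (t e) ((e ∘ e'.symm) (e' x)) :=
    ex ▸ hd e he _ (e.map_source hx) (by rwa [e.left_inv hx])
  have ev : t e' =ᶠ[𝓝 (e' x)] fun w => (jm (e ∘ e'.symm) w).det ^ j * (t e ∘ e ∘ e'.symm) w := by
    filter_upwards [t4, ev_mem hO (e'.map_source hx') (by rwa [e'.left_inv hx'])] with w k k1
    have k2 := hc e he e' he' _ k.2.1 k.2.2.1 k1.2
    simpa only [jd, k.2.2.2.2.2.1, k.2.2.2.2.2.2, Function.comp] using k2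
  rw [dir_congr ev, dir_mul (c5.fun_pow j) (p.comp _ (cd_diff (mCHN n _ _ t1).1)),
    dir_comp t1 (hv_law hW e he e' he' x hx hx') p, dir_pow c5 t2, hc e he e' he' x hx hx' a,
    Function.comp_apply, ex, lm, pow_add]
  simp only [jd, Mf.J]
  ring

theorem hs_d (h : Hs O j t) : M.All fun e z => e.symm z ∈ O → DifferentiableAt ℝ (t e) z :=
  fun e he z hz a => hd (h.hol e he z hz a)

/-- The derivative of a holomorphic function. -/
theorem hs_dir (hO : IsOpen O) (hW : HT M m W) (h : Hs O 0 t) :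
    Hs O m fun e => dir (W e) (t e) :=
  ⟨fun e he z hz a => hol_dir (hW.hol e he z hz) (h.hol e he z hz a),
    fun e he e' he' x hx hx' a => by
      simpa using dir_law hO hW (hs_d h) h.cmp e he e' he' x hx hx' a⟩

variable (O m W) in
/-- A holomorphic connection along the field. -/
structure Cn (Λ : M.Fam ℂ) : Prop where
  hol : M.All fun e z => e.symm z ∈ O → HolN (Λ e) z
  cmp : M.Ov fun e e' x => x ∈ O → Λ e' (e' x) = jd M e e' x ^ m * Λ e (e x) + lm W e e' x

variable {Λ Λ' : M.Fam ℂ}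

theorem Cn.mono {O' : Set M.X} (h : Cn O m W Λ) (hO : O' ⊆ O) : Cn O' m W Λ :=
  ⟨fun e he z hz a => h.hol e he z hz (hO a), fun e he e' he' x hx hx' a =>
    h.cmp e he e' he' x hx hx' (hO a)⟩

theorem Cn.sub (h : Cn O m W Λ) (h' : Cn O m W Λ') : Hs O m fun e z => Λ e z - Λ' e z :=
  ⟨fun e he z hz a => hol_sub (h.hol e he z hz a) (h'.hol e he z hz a),
    fun e he e' he' x hx hx' a => by
      simp only [h.cmp e he e' he' x hx hx' a, h'.cmp e he e' he' x hx hx' a]
      ring⟩

/-- The covariant derivative. -/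
theorem Cn.cov (h : Cn O m W Λ) (hO : IsOpen O) (hW : HT M m W) (ht : Hs O j t) :
    Hs O (j + m) fun e z => dir (W e) (t e) z - j * Λ e z * t e z :=
  ⟨fun e he z hz a => hol_sub (hol_dir (hW.hol e he z hz) (ht.hol e he z hz a))
    (hol_mul (hol_mul (hol_c _ z) (h.hol e he z hz a)) (ht.hol e he z hz a)),
    fun e he e' he' x hx hx' a => by
      simp only [dir_law hO hW (hs_d ht) ht.cmp e he e' he' x hx hx' a,
        h.cmp e he e' he' x hx hx' a, ht.cmp e he e' he' x hx hx' a, pow_add]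
      ring⟩

/-- The connection given by a section without zeros. -/
theorem cn_sec (hO : IsOpen O) (hW : HT M m W) (hj : 0 < j) (ht : Hs O j t)
    (h0 : M.All fun e z => e.symm z ∈ O → t e z ≠ 0) :
    Cn O m W fun e z => dir (W e) (t e) z / (j * t e z) := by
  have j0 : (j : ℂ) ≠ 0 := Nat.cast_ne_zero.2 hj.ne'
  refine ⟨fun e he z hz a => hol_div (hol_dir (hW.hol e he z hz) (ht.hol e he z hz a))
    (hol_mul (hol_c _ z) (ht.hol e he z hz a)) (mul_ne_zero j0 (h0 e he z hz a)),
    fun e he e' he' x hx hx' a => ?_⟩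
  have b := h0 e he _ (e.map_source hx) (by rwa [e.left_inv hx])
  have c : jd M e e' x ≠ 0 := ((mTR n M).2.1 e he e' he' x hx hx').2.1
  simp only [dir_law hO hW (hs_d ht) ht.cmp e he e' he' x hx hx' a, ht.cmp e he e' he' x hx hx' a,
    pow_add]
  field_simp

/-- The law of the derivative of the weight. -/
theorem a0_law {H : M.Fam (Mat n)} (hH : M.Met H) (hW : HT M m W) : M.Ov fun e e' x =>
    a0 M H W e' (e' x) = jd M e e' x ^ m * a0 M H W e (e x) + lm W e e' x := by
  intro e he e' he' x hx hx'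
  obtain ⟨t1, t2, -, t4, -⟩ := (mTR n M).2.1 e he e' he' x hx hx'
  have c5 := (mCHN n _ _ t1).2.2.2.2.1
  have ex : (e ∘ e'.symm) (e' x) = e x := congrArg e (e'.left_inv hx')
  obtain ⟨s4, -, s5⟩ := ((mHOL n _ _).2.2 c5).2.2.2 t2
  have p : DifferentiableAt ℝ (ld (H e)) ((e ∘ e'.symm) (e' x)) :=
    ex ▸ cd_diff (Q76.cd_ld hH he (e.map_source hx))
  have ev : ld (H e') =ᶠ[𝓝 (e' x)] fun w => (ld (H e) ∘ e ∘ e'.symm) w +
      (Real.log (normSq (jm (e ∘ e'.symm) w).det) : ℝ) := by
    filter_upwards [t4] with w k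
    have k2 := (mINV n M H hH).2.2.2.2.2.2.1.cmp e he e' he' _ k.2.1 k.2.2.1
    simp only [k.2.2.2.2.2.1, k.2.2.2.2.2.2] at k2
    simp only [ld, k2, Function.comp]
    push_cast; ring
  rw [a0, dir_congr ev, dir_add (p.comp _ (cd_diff (mCHN n _ _ t1).1)) (cd_diff (cd_ofReal s4)),
    dir_comp t1 (hv_law hW e he e' he' x hx hx') p, ex]
  simp only [dir, s5, a0, lm, Finset.sum_div, mul_div_assoc]
  rfl

/-- A holomorphic family with the cocycle of the derivative of the weight. -/
theorem cn_a0 {H : M.Fam (Mat n)} (hH : M.Met H) (hW : HT M m W)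
    (hol : M.All fun e z => e.symm z ∈ O → HolN (Λ e) z)
    (cmp : M.Ov fun e e' x => x ∈ O → Λ e' (e' x) - a0 M H W e' (e' x) =
      jd M e e' x ^ m * (Λ e (e x) - a0 M H W e (e x))) : Cn O m W Λ :=
  ⟨hol, fun e he e' he' x hx hx' a => by
    linear_combination cmp e he e' he' x hx hx' a + a0_law hH hW e he e' he' x hx hx'⟩

/-- The divergence. -/
theorem cn_dv (O : Set M.X) {H : M.Fam (Mat n)} (hH : M.Met H) (hW : HT M m W) (h2 : 2 ≤ m) :
    Cn O m W fun e z => dv (W e) z / ((m : ℂ) - 1) := by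
  have m1 : (m : ℂ) - 1 ≠ 0 := sub_ne_zero.2 (by exact_mod_cast (by omega : m ≠ 1))
  have hv : HM M m (vec M W) := ((st_KIT n M H m 0 hH).2.1 W hW).1
  have sv := ((st_KIT n M H m (vec M W) hH).1.1 hv).1
  have L := fun e he z hz => st_LIE st_FK n (W e) (W e) (vec M W e) (fun _ => 0) z
    (hW.hol e he z hz) (hW.hol e he z hz) (hv.hol e he z hz) (hol_c 0 z)
  have dl : M.All fun e z => P0 M H m (vec M W) e z =
      (dv (W e) z - ((m : ℂ) - 1) * a0 M H W e z) • vac n := by
    intro e he z hz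
    have h1 : pf0 (vec M W e) z = dv (W e) z • vac n := (L e he z hz).2.2.2.2.2.2.2.2.2.2.2.1
    obtain ⟨-, -, h, -, -, -, -, -, -, -, -, h0, -⟩ :=
      st_FK n (W e z) (W e z) (gd (ld (H e)) z) 0 0 0
    have h3 : gd (ld (H e)) z ⬝ᵥ W e z = a0 M H W e z := by
      simp only [dotProduct, gd, a0, dir, mul_comm]
    rw [Nab5.p0_eq hH m _ e he z hz, h1, sub_smul (dv (W e) z), mul_smul, vec,
      Matrix.mulVec_mulVec, eq_sub_of_add_eq h, Matrix.sub_mulVec, ← Matrix.mulVec_mulVec, h0,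
      Matrix.mulVec_zero, sub_zero, Matrix.smul_mulVec, Matrix.one_mulVec, h3]
  have v1 : vac n ∅ = 1 := Pi.single_eq_same _ _
  refine cn_a0 hH hW (fun e he z hz _ => hol_div (L e he z hz).2.1 (hol_c _ z) m1)
    fun e he e' he' x hx hx' _ => ?_
  have d : jd M e e' x ≠ 0 := ((mTR n M).2.1 e he e' he' x hx hx').2.1
  have h1 := Nab5.p0_cmp hH sv e he e' he' x hx hx'
  beta_reduce at h1
  rw [dl e he _ (e.map_source hx), dl e' he' _ (e'.map_source hx'), Matrix.mulVec_smul,
    (st_FK n 0 0 0 (M.J e e' x) 0 0).2.2.2.2.2.2.2.2.2.2.2.2.1, smul_smul] at h1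
  have h5 := congrFun h1 ∅
  simp only [Pi.smul_apply, v1, smul_eq_mul, mul_one] at h5
  rw [eq_inv_mul_iff_mul_eq₀ (pow_ne_zero m d)] at h5
  field_simp
  linear_combination -h5

/-! ### The class -/

variable {I : Type} [Fintype I] {S : Sd M I} {x : M.X} {P : Lm S.toDk S.u x}

theorem sg_rep (D : Dk M I) (k : I) :
    M.Rep (sg D k) fun e z => normSq (D.f k e z) * Real.exp (-D.φ k e z) :=
  (D.wt k).nr_rep (D.hol k).toSecC

theorem of_open (D : Dk M I) : IsOpen (Of D) := by
  rw [Of, ofPred_forall]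
  exact isOpen_iInter_of_finite fun k =>
    isOpen_ne_fun ((D.wt k).nr_sm (D.hol k).toSecC).continuous continuous_const

theorem f_ne (D : Dk M I) (k : I) : M.All fun e z => e.symm z ∈ Of D → D.f k e z ≠ 0 :=
  fun e he z hz a h => a k (by rw [sg_rep D k e he z hz]; simp [h])

theorem f_hol (D : Dk M I) (k : I) : M.All fun e z => HolN (D.f k e) z :=
  fun _ he _ hz => (D.hol k).hol.ev he hz

variable (P) in
theorem u_open : IsOpen (P.W ∩ Of S.toDk) := P.opn.inter (of_open _)

theorem congr (h : Gc S P O j t)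
    (he : M.All fun e z => e.symm z ∈ P.W ∩ Of S.toDk → e.symm z ∈ O → s e z = t e z) :
    Gc S P O j s := by
  obtain ⟨N, ψ, τ, a, b⟩ := h
  exact ⟨N, ψ, τ, a, fun e h z hz c d => (he e h z hz c d).trans (b e h z hz c d)⟩

theorem mono {O' : Set M.X} (h : Gc S P O j t) (hO : O' ⊆ O) : Gc S P O' j t := by
  obtain ⟨N, ψ, τ, a, b⟩ := h
  exact ⟨N, ψ, τ, a, fun e h z hz c d => b e h z hz c (hO d)⟩

theorem fin {ι : Type} [Fintype ι] {ψ : ι → (Fin P.r → ℂ) → ℂ} {τ : ι → M.Fam ℂ}
    (h1 : ∀ i, ∀ y ∈ P.W, ContDiffAt ℝ ∞ (ψ i) fun l => P.g l y)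
    (h2 : ∀ i, Hs (P.W ∩ Of S.toDk) j (τ i)) :
    Gc S P O j fun e z => ∑ i, ψ i (fun l => P.g l (e.symm z)) * τ i e z :=
  ⟨_, fun i => ψ ((Fintype.equivFin ι).symm i), fun i => τ ((Fintype.equivFin ι).symm i),
    fun _ => ⟨h1 _, h2 _⟩, fun e _ z _ _ _ => ((Fintype.equivFin ι).symm.sum_comp
      fun i => ψ i (fun l => P.g l (e.symm z)) * τ i e z).symm⟩

theorem one {ψ : (Fin P.r → ℂ) → ℂ} (h1 : ∀ y ∈ P.W, ContDiffAt ℝ ∞ ψ fun l => P.g l y)
    (h2 : Hs (P.W ∩ Of S.toDk) j t) :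
    Gc S P O j fun e z => ψ (fun l => P.g l (e.symm z)) * t e z :=
  ⟨1, fun _ => ψ, fun _ => t, fun _ => ⟨h1, h2⟩, fun _ _ _ _ _ _ => by simp⟩

theorem of_hs (h : Hs (P.W ∩ Of S.toDk) j t) : Gc S P O j t :=
  congr (one (ψ := fun _ => 1) (fun _ _ => contDiffAt_const) h) fun _ _ _ _ _ _ => (one_mul _).symm

theorem of_sm {ψ : (Fin P.r → ℂ) → ℂ} (h : ∀ y ∈ P.W, ContDiffAt ℝ ∞ ψ fun l => P.g l y) :
    Gc S P O 0 fun e z => ψ fun l => P.g l (e.symm z) :=
  congr (one h (hs_const _ 1)) fun _ _ _ _ _ _ => (mul_one _).symm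

theorem zero : Gc S P O j fun _ _ => 0 :=
  ⟨0, Fin.elim0, Fin.elim0, fun i => i.elim0, fun _ _ _ _ _ _ => by simp⟩

theorem add (hs : Gc S P O j s) (ht : Gc S P O j t) : Gc S P O j fun e z => s e z + t e z := by
  obtain ⟨N, ψ, τ, a, b⟩ := hs
  obtain ⟨N', ψ', τ', a', b'⟩ := ht
  refine congr (fin (ψ := Sum.elim ψ ψ') (τ := Sum.elim τ τ')
    (fun i => by cases i <;> [exact (a _).1; exact (a' _).1])
    (fun i => by cases i <;> [exact (a _).2; exact (a' _).2])) fun e h z hz c d => ?_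
  simp only [b e h z hz c d, b' e h z hz c d, Fintype.sum_sum_type, Sum.elim_inl, Sum.elim_inr]

theorem mul (hs : Gc S P O j s) (ht : Gc S P O l t) :
    Gc S P O (j + l) fun e z => s e z * t e z := by
  obtain ⟨N, ψ, τ, a, b⟩ := hs
  obtain ⟨N', ψ', τ', a', b'⟩ := ht
  refine congr (fin (ι := Fin N × Fin N') (ψ := fun p y => ψ p.1 y * ψ' p.2 y)
    (τ := fun p e z => τ p.1 e z * τ' p.2 e z) (fun p y hy => ((a _).1 y hy).mul ((a' _).1 y hy))
    fun p => hs_mul (a _).2 (a' _).2) fun e h z hz c d => ?_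
  simp only [b e h z hz c d, b' e h z hz c d, Fintype.sum_prod_type, Finset.sum_mul_sum]
  exact Finset.sum_congr rfl fun _ _ => Finset.sum_congr rfl fun _ _ => by ring

theorem cmul (c : ℂ) (ht : Gc S P O j t) : Gc S P O j fun e z => c * t e z := by
  have := mul (of_hs (O := O) (hs_const (P.W ∩ Of S.toDk) c)) ht
  rwa [zero_add] at this

theorem sub (hs : Gc S P O j s) (ht : Gc S P O j t) : Gc S P O j fun e z => s e z - t e z :=
  congr (add hs (cmul (-1) ht)) fun _ _ _ _ _ _ => by ring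

theorem sum {ι : Type} (u : Finset ι) {t : ι → M.Fam ℂ} (h : ∀ i ∈ u, Gc S P O j (t i)) :
    Gc S P O j fun e z => ∑ i ∈ u, t i e z := by
  induction u using Finset.induction_on with
  | empty => exact congr zero fun _ _ _ _ _ _ => Finset.sum_empty
  | insert a u ha ih =>
    exact congr (add (h a (Finset.mem_insert_self _ _)) (ih fun i hi =>
      h i (Finset.mem_insert_of_mem hi))) fun _ _ _ _ _ _ => Finset.sum_insert ha

variable (P) in
/-- The generator. -/
def om : M.Fam ℂ := fun e z => P.o e z * ∏ k, S.f k e z ^ S.a k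

variable (P) in
theorem om_hs : Hs P.W S.c (om P) := by
  refine ⟨fun e he z hz a => hol_mul (P.ho e he z hz a).1 ?_, fun e he e' he' y hy hy' a => ?_⟩
  · filter_upwards [eventually_all.2 fun k => f_hol S.toDk k e he z hz] with w b
    exact (HasFDerivAt.finsetProd fun k _ => ((b k).fun_pow _).hasFDerivAt).differentiableAt
  · simp only [om, fun k => (S.hol k).cmp e he e' he' y hy hy', mul_pow, Finset.prod_mul_distrib]
    linear_combination (∏ k, S.f k e (e y) ^ S.a k) * P.law e he e' he' y hy hy' a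

variable (P) in
theorem om_ne : M.All fun e z => e.symm z ∈ P.W ∩ Of S.toDk → om P e z ≠ 0 :=
  fun e he z hz a => mul_ne_zero (P.ho e he z hz a.1).2
    (Finset.prod_ne_zero_iff.2 fun k _ => pow_ne_zero _ (f_ne S.toDk k e he z hz a.2))

variable (P) in
/-- The model weight. -/
theorem ph_eq : M.All fun e z => e.symm z ∈ P.W ∩ Of S.toDk → ph S 0 0 e z =
    (S.c : ℂ)⁻¹ * ((Real.log (normSq (om P e z)) : ℝ) + (P.F fun i => P.g i (e.symm z) : ℝ)) := by
  intro e he z hz a
  have c0 : (S.c : ℝ) ≠ 0 := Nat.cast_ne_zero.2 S.c0.ne'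
  have f0 : ∀ k, normSq (S.f k e z) ≠ 0 := fun k =>
    normSq_eq_zero.not.2 (f_ne S.toDk k e he z hz a.2)
  have e1 : ∀ k, Real.log (sg S.toDk k (e.symm z)) = Real.log (normSq (S.f k e z)) - S.φ k e z :=
    fun k => by
      rw [sg_rep S.toDk k e he z hz, Real.log_mul (f0 k) (Real.exp_pos _).ne', Real.log_exp]
      ring
  have e2 : Real.log (normSq (om P e z)) = Real.log (normSq (P.o e z)) +
      ∑ k, S.c * (al S.toDk k * Real.log (normSq (S.f k e z))) := by
    rw [om, map_mul, map_prod, Real.log_mul (normSq_eq_zero.not.2 (P.ho e he z hz a.1).2)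
      (Finset.prod_ne_zero_iff.2 fun k _ => by rw [map_pow]; exact pow_ne_zero _ (f0 k)),
      Real.log_prod fun k _ => by rw [map_pow]; exact pow_ne_zero _ (f0 k)]
    refine congrArg _ (Finset.sum_congr rfl fun k _ => ?_)
    rw [map_pow, Real.log_pow, al]
    field_simp
  have w := P.wt e he z hz a.1
  have k : Real.log (S.H e z).det.re + pot S 0 0 (e.symm z) =
      (S.c : ℝ)⁻¹ * (Real.log (normSq (om P e z)) + P.F fun i => P.g i (e.symm z)) := by
    rw [eq_inv_mul_iff_mul_eq₀ c0, e2, ← Finset.mul_sum]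
    simp only [pot, add_zero, Pi.zero_apply, e1, mul_sub, Finset.sum_sub_distrib] at w ⊢
    linarith
  simp only [ph, ld, Mf.lc]
  rw [← ofReal_add, k]
  push_cast
  rfl

variable (P) in
theorem g_d : M.All fun e z => e.symm z ∈ P.W →
    DifferentiableAt ℂ (fun w i => P.g i (e.symm w)) z := fun e he z hz a =>
  differentiableAt_pi.2 fun i => ((P.hg i).hol e he z hz a).self_of_nhds

variable (P W) in
/-- The connection given by the generator. -/
def l0 : M.Fam ℂ := fun e z => dir (W e) (om P e) z / (S.c * om P e z)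

variable (P) in
theorem l0_cn (hW : HT M m W) : Cn (P.W ∩ Of S.toDk) m W (l0 W P) :=
  cn_sec (u_open P) hW S.c0 (hs_mono (om_hs P) inter_subset_left) (om_ne P)

variable (P W) in
/-- The derivative of the model weight. -/
theorem dir_ph : M.All fun e z => e.symm z ∈ P.W ∩ Of S.toDk → dir (W e) (ph S 0 0 e) z =
    l0 W P e z + ∑ i, ((S.c : ℂ)⁻¹ * dz i (fun y => (P.F y : ℂ)) fun l => P.g l (e.symm z)) *
      dir (W e) (fun w => P.g i (e.symm w)) z := by
  intro e he z hz a
  have ev : ph S 0 0 e =ᶠ[𝓝 z] fun w => (S.c : ℂ)⁻¹ * ((Real.log (normSq (om P e w)) : ℝ) +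
      (P.F fun i => P.g i (e.symm w) : ℝ)) :=
    (ev_mem (u_open P) hz a).mono fun w h => ph_eq P e he w h.1 h.2
  obtain ⟨s4, -, s5⟩ := ((mHOL n _ _).2.2 ((om_hs P).hol e he z hz a.1)).2.2.2 (om_ne P e he z hz a)
  have d1 := cd_diff (cd_ofReal s4)
  have d2 : DifferentiableAt ℝ (fun y => (P.F y : ℂ)) fun l => P.g l (e.symm z) :=
    cd_diff (cd_ofReal (P.sF _ a.1))
  have d3 : DifferentiableAt ℝ (fun w => (P.F fun i => P.g i (e.symm w) : ℂ)) z :=
    d2.comp z ((g_d P e he z hz a.1).restrictScalars ℝ)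
  have k := dir_chain (V := W e) (g_d P e he z hz a.1) d2
  rw [dir_congr ev, dir_cmul _ (d1.fun_add d3), dir_add d1 d3, k, mul_add, Finset.mul_sum]
  refine congrArg₂ _ ?_ (Finset.sum_congr rfl fun i _ => (mul_assoc _ _ _).symm)
  simp only [dir, s5, l0, Finset.mul_sum, Finset.sum_div]
  exact Finset.sum_congr rfl fun i _ => by ring

theorem g_dir (hW : HT M m W) (i : Fin P.r) :
    Hs P.W m fun e => dir (W e) fun w => P.g i (e.symm w) := hs_dir P.opn hW (P.hg i)

/-- The derivative of the model weight differs from the connection by an element of the class. -/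
theorem ph_l0 (hW : HT M m W) :
    Gc S P O m fun e z => dir (W e) (ph S 0 0 e) z - l0 W P e z :=
  congr (fin (ψ := fun i y => (S.c : ℂ)⁻¹ * dz i (fun y => (P.F y : ℂ)) y)
    (fun i y hy => contDiffAt_const.mul (cd_dz (cd_ofReal (P.sF y hy)) i))
    fun i => hs_mono (g_dir hW i) inter_subset_left) fun e he z hz a _ => by
      rw [dir_ph W P e he z hz a, add_sub_cancel_left]

/-- A connection minus the derivative of the model weight. -/
theorem aff (hW : HT M m W) (h : Cn (P.W ∩ Of S.toDk) m W Λ) :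
    Gc S P O m fun e z => Λ e z - dir (W e) (ph S 0 0 e) z :=
  congr (sub (of_hs (h.sub (l0_cn P hW))) (ph_l0 hW)) fun _ _ _ _ _ _ => by ring

theorem aff_fd {a : ℝ → M.X → ℝ} {q : Sq} {δ : M.Fam ℂ} (h : Fd S a q m W δ) :
    Gc S P O m fun e z => δ e z - dir (W e) (ph S 0 0 e) z :=
  aff h.ht ((cn_a0 S.kae.toMet h.ht h.hol h.cmp).mono inter_subset_right)

theorem aff_dv (hW : HT M m W) (h2 : 2 ≤ m) :
    Gc S P O m fun e z => dv (W e) z / ((m : ℂ) - 1) - dir (W e) (ph S 0 0 e) z :=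
  aff hW (cn_dv _ S.kae.toMet hW h2)

/-- The elements of the class are smooth off the divisors. -/
theorem smooth (hO : IsOpen O) (h : Gc S P O j t) : M.All fun e z =>
    e.symm z ∈ P.W ∩ Of S.toDk → e.symm z ∈ O → ContDiffAt ℝ ∞ (t e) z := by
  obtain ⟨N, ψ, τ, a, b⟩ := h
  intro e he z hz c d
  have G : ContDiffAt ℝ ∞ (fun w i => P.g i (e.symm w)) z := contDiffAt_pi.2 fun i =>
    ((mHOL n _ _).2.2 ((P.hg i).hol e he z hz c.1)).1
  refine (ContDiffAt.sum fun i (_ : i ∈ Finset.univ) => (((a i).1 _ c.1).comp z G).mul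
    ((mHOL n _ _).2.2 ((a i).2.hol e he z hz c)).1).congr_of_eventuallyEq ?_
  exact (ev_mem ((u_open P).inter hO) hz ⟨c, d⟩).mono fun w h => b e he w h.1 h.2.1 h.2.2

/-- The covariant derivative for the model weight. -/
theorem der (hO : IsOpen O) (hW : HT M m W) (h : Gc S P O j t) :
    Gc S P O (j + m) fun e z => dir (W e) (t e) z - j * dir (W e) (ph S 0 0 e) z * t e z := by
  have h3 := cmul j (mul h (ph_l0 hW))
  obtain ⟨N, ψ, τ, a, b⟩ := h
  have h1 : ∀ i ∈ (Finset.univ : Finset (Fin N)), Gc S P O (j + m) fun e z => ∑ k,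
      dz k (ψ i) (fun l => P.g l (e.symm z)) *
        (τ i e z * dir (W e) (fun w => P.g k (e.symm w)) z) := fun i _ =>
    fin (fun k y hy => cd_dz ((a i).1 y hy) k) fun k =>
      hs_mul (a i).2 (hs_mono (g_dir hW k) inter_subset_left)
  have h2 := fin (O := O) (fun i => (a i).1) fun i => (l0_cn P hW).cov (u_open P) hW (a i).2
  refine congr (sub (add (sum _ h1) h2) h3) fun e he z hz c d => ?_
  have ev : t e =ᶠ[𝓝 z] fun w => ∑ i, ψ i (fun l => P.g l (e.symm w)) * τ i e w :=
    (ev_mem ((u_open P).inter hO) hz ⟨c, d⟩).mono fun w h => b e he w h.1 h.2.1 h.2.2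
  have G := g_d P e he z hz c.1
  have d1 := fun i => cd_diff ((a i).1 _ c.1)
  have d2 : ∀ i, DifferentiableAt ℝ (fun w => ψ i fun l => P.g l (e.symm w)) z :=
    fun i => (d1 i).comp z (G.restrictScalars ℝ)
  have d3 := fun i => hs_d (a i).2 e he z hz c
  have k : dir (W e) (t e) z = ∑ i, (∑ k, dz k (ψ i) (fun l => P.g l (e.symm z)) *
      (τ i e z * dir (W e) (fun w => P.g k (e.symm w)) z) +
        ψ i (fun l => P.g l (e.symm z)) * dir (W e) (τ i e) z) := by
    rw [dir_congr ev, dir_sum fun i _ => (d2 i).fun_mul (d3 i)]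
    refine Finset.sum_congr rfl fun i _ => ?_
    refine (dir_mul (d2 i) (d3 i)).trans (congrArg (· + _) ?_)
    rw [dir_chain G (d1 i), Finset.sum_mul]
    exact Finset.sum_congr rfl fun k _ => by ring
  have k2 : ∑ i, ψ i (fun l => P.g l (e.symm z)) * (dir (W e) (τ i e) z - j * l0 W P e z * τ i e z) =
      ∑ i, ψ i (fun l => P.g l (e.symm z)) * dir (W e) (τ i e) z - j * l0 W P e z * t e z := by
    rw [b e he z hz c d, Finset.mul_sum, ← Finset.sum_sub_distrib]
    exact Finset.sum_congr rfl fun i _ => by ring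
  simp only [k, k2, Finset.sum_add_distrib]
  ring

/-! ### The bound -/

theorem wt_nn (j : ℕ) {e : M.Ch} (he : e ∈ M.C) {y : M.X} (hy : y ∈ e.source) :
    0 ≤ (S.H e (e y)).det.re ^ j * pw S.toDk j y :=
  mul_nonneg (pow_nonneg (Complex.pos_iff.1 (S.kae.toMet.pos.at he hy).det_pos).1.le _)
    (Finset.prod_nonneg fun _ _ => Real.rpow_nonneg (Mf.nrC_nonneg _ _ _) _)

theorem bd_add (hs : Bd S x O j s) (ht : Bd S x O j t) : Bd S x O j fun e z => s e z + t e z := by
  obtain ⟨A, hA⟩ := hs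
  obtain ⟨B, hB⟩ := ht
  refine ⟨2 * A + 2 * B, (hA.and hB).mono fun y h a b e he hy => ?_⟩
  have h1 := h.1 a b e he hy
  have h2 := h.2 a b e he hy
  have h3 := pow_le_pow_left₀ (norm_nonneg _) (norm_add_le (s e (e y)) (t e (e y))) 2
  nlinarith [sq_nonneg (‖s e (e y)‖ - ‖t e (e y)‖)]

theorem bd_mul {φ : M.X → ℂ} (hφ : ContinuousAt φ x) (ht : Bd S x O j t) :
    Bd S x O j fun e z => φ (e.symm z) * t e z := by
  obtain ⟨B, hB⟩ := ht
  refine ⟨(‖φ x‖ + 1) ^ 2 * |B|, (hB.and (hφ.norm.eventually (gt_mem_nhds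
    (lt_add_one ‖φ x‖)))).mono fun y h a b e he hy => ?_⟩
  have h1 := h.1 a b e he hy
  have h2 := mul_le_mul_of_nonneg_right (le_abs_self B) (wt_nn (S := S) j he hy)
  beta_reduce
  rw [e.left_inv hy, norm_mul, mul_pow, mul_assoc, mul_assoc]
  exact mul_le_mul (pow_le_pow_left₀ (norm_nonneg _) h.2.le 2) (by linarith) (by positivity)
    (by positivity)

theorem bd_sum {ι : Type} (u : Finset ι) {t : ι → M.Fam ℂ} (h : ∀ i ∈ u, Bd S x O j (t i)) :
    Bd S x O j fun e z => ∑ i ∈ u, t i e z := by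
  induction u using Finset.induction_on with
  | empty => exact ⟨0, Eventually.of_forall fun _ _ _ _ _ _ => by simp⟩
  | insert a u ha ih =>
    simp only [Finset.sum_insert ha]
    exact bd_add (h a (Finset.mem_insert_self _ _)) (ih fun i hi =>
      h i (Finset.mem_insert_of_mem hi))

variable (P) in
theorem g_cont {y : M.X} (hy : y ∈ P.W) : ContinuousAt (fun y i => P.g i y) y := by
  obtain ⟨he, h⟩ := (mTR n M).1 y
  have c := (g_d P _ he _ ((M.ch y).map_source h) (by rwa [(M.ch y).left_inv h])).continuousAt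
  refine (c.comp ((M.ch y).continuousAt h)).congr ?_
  filter_upwards [(M.ch y).open_source.eventually_mem h] with w hw
  simp only [Function.comp, (M.ch y).left_inv hw]

/-- The bound by the model metric. -/
theorem bd (hN : ∀ τ, Hs (P.W ∩ Of S.toDk) j τ → Bd S x O j τ) (h : Gc S P O j t) :
    Bd S x O j t := by
  obtain ⟨N, ψ, τ, a, b⟩ := h
  obtain ⟨C, hC⟩ := bd_sum Finset.univ fun i _ => bd_mul (φ := fun y => ψ i fun l => P.g l y)
    (((a i).1 x P.mem).continuousAt.comp (f := fun y i => P.g i y) (g_cont P P.mem))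
      (hN _ (a i).2)
  refine ⟨C, (hC.and (P.opn.eventually_mem P.mem)).mono fun y h c d e he hy => ?_⟩
  rw [b e he _ (e.map_source hy) (by rw [e.left_inv hy]; exact ⟨h.2, c⟩) (by rwa [e.left_inv hy])]
  exact h.1 c d e he hy

end Pool.Agent.Lib.N4S.Gc75
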