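import Pool.Agent.Lib.N4S.Defs
import Pool.Agent.Lib.NU4.B_PB

/-! Project n4s: the local model at the points that are not on the divisors. -/

open scoped Classical Topology ContDiff ComplexOrder Matrix
open Set Filter

set_option linter.unusedVariables false

noncomputable section

namespace Pool.Agent.Lib.N4S

open Pool.Agent.Lib.SV (E)
open Pool.Agent.Lib.HS32 Pool.Agent.Lib.HLK Pool.Agent.Lib.F4 Pool.Agent.Lib.NU4
open Pool.Agent.Lib.K3S (Dk)

namespace L26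

variable {n : ℕ} {M : Mf n} {I : Type} [Fintype I]

theorem of_open (D : Dk M I) : IsOpen (Of D) := by
  have : Of D = ⋂ k, {x | sg D k x ≠ 0} := by
    ext x
    simp [Of]
  rw [this]
  exact isOpen_iInter_of_finite fun k => isOpen_ne_fun
    (((mTR n M).2.2.2.1 ℝ _).1 ((D.wt k).nr_sm (D.hol k).toSecC)) continuous_const

theorem nq_chg (J T : Mat n) (v : E n) : nq (Jᴴ * T * J) v = nq T (J *ᵥ v) := by
  rw [nq, nq, ← Matrix.mulVec_mulVec, ← Matrix.mulVec_mulVec, Matrix.dotProduct_mulVec,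
    Matrix.star_mulVec]

theorem nq_le (T : Mat n) (v : E n) {B : ℝ} (h : ∑ i, ∑ j, ‖T i j‖ ≤ B) :
    nq T v ≤ B * ∑ i, Complex.normSq (v i) := by
  have b0 : 0 ≤ ∑ i, ∑ j, ‖T i j‖ :=
    Finset.sum_nonneg fun i _ => Finset.sum_nonneg fun j _ => norm_nonneg _
  have s0 : 0 ≤ ∑ i, Complex.normSq (v i) := Finset.sum_nonneg fun i _ => Complex.normSq_nonneg _
  have a : ‖v‖ ≤ √(∑ i, Complex.normSq (v i)) :=
    (pi_norm_le_iff_of_nonneg (Real.sqrt_nonneg _)).2 fun i => by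
      refine Real.le_sqrt_of_sq_le ?_
      rw [← Complex.normSq_eq_norm_sq]
      exact Finset.single_le_sum (f := fun i => Complex.normSq (v i))
        (fun i _ => Complex.normSq_nonneg _) (Finset.mem_univ i)
  have a2 : ‖v‖ ^ 2 ≤ ∑ i, Complex.normSq (v i) := by
    rw [← Real.sq_sqrt s0]
    exact pow_le_pow_left₀ (norm_nonneg _) a 2
  exact ((Complex.re_le_norm _).trans (P56.up T v)).trans
    (mul_le_mul h a2 (sq_nonneg _) (b0.trans h))

theorem hol_c {e₀ e : M.Ch} (h₀ : e₀ ∈ M.C) (he : e ∈ M.C) {z : E n} (hz : z ∈ e.target)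
    (hy : e.symm z ∈ e₀.source) : HolN (e₀ ∘ e.symm) z := by
  have := ((mTR n M).2.1 e₀ h₀ e he _ hy (e.map_target hz)).1
  rwa [e.right_inv hz] at this

theorem hol_i {ψ : E n → E n} {z : E n} (h : HolN ψ z) (i : Fin n) : HolN (fun w => ψ w i) z :=
  h.mono fun w hw => differentiableAt_pi.1 hw i

theorem gd_i {ψ : E n → E n} {z : E n} (h : HolN ψ z) (c : ℂ) (i : Fin n) (v : E n) :
    gd (fun w => c * ψ w i) z ⬝ᵥ v = c * (jm ψ z *ᵥ v) i := by
  have d : DifferentiableAt ℂ ψ z := h.self_of_nhds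
  have k : HasFDerivAt (fun w => c * ψ w i)
      (c • (ContinuousLinearMap.proj i).comp (fderiv ℂ ψ z)) z :=
    (hasFDerivAt_pi'.1 d.hasFDerivAt i).const_mul c
  simp only [gd, dotProduct, Matrix.mulVec, jm, Matrix.of_apply, Finset.mul_sum]
  refine Finset.sum_congr rfl fun j _ => ?_
  rw [(mHOL n _ z).2.1 k.differentiableAt j, k.fderiv]
  simp [mul_assoc]

/-- The local model at a point off the divisors. -/
theorem lmx (D : Dk M I) {u : M.X → ℝ} (hu : M.Sm u) {x : M.X} (hx : x ∈ Of D) :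
    Nonempty (Lm D u x) := by
  obtain ⟨e₀, h₀, x₀⟩ := M.cov x
  have cB : ContinuousAt (fun y => ∑ i, ∑ j, ‖D.β e₀ (e₀ y) i j‖) x :=
    tendsto_finsetSum _ fun i _ => tendsto_finsetSum _ fun j _ =>
      ((D.cβ.sm e₀ h₀ _ (e₀.map_source x₀) i j).continuousAt.comp (e₀.continuousAt x₀)).norm
  obtain ⟨B, hB⟩ : ∃ B, B = ∑ i, ∑ j, ‖D.β e₀ (e₀ x) i j‖ + 1 := ⟨_, rfl⟩
  have B0 : 0 < B := by
    rw [hB]
    positivity
  have ev : ∀ᶠ y in 𝓝 x, y ∈ e₀.source ∧ y ∈ Of D ∧ ∑ i, ∑ j, ‖D.β e₀ (e₀ y) i j‖ < B :=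
    (e₀.open_source.eventually_mem x₀).and (((of_open D).eventually_mem hx).and
      (cB.eventually_lt continuousAt_const (by rw [hB]; exact lt_add_one _)))
  obtain ⟨W, hW, oW, xW⟩ := eventually_nhds_iff.1 ev
  obtain ⟨l, hl⟩ : ∃ l : ℂ, l = (√B : ℝ) := ⟨_, rfl⟩
  have l0 : l ≠ 0 := by
    rw [hl]
    exact Complex.ofReal_ne_zero.2 (Real.sqrt_pos.2 B0).ne'
  have l2 : Complex.normSq l = B := by
    rw [hl, Complex.normSq_ofReal, Real.mul_self_sqrt B0.le]
  have il : ∀ y : M.X, l⁻¹ • (fun i => l * e₀ y i) = e₀ y := fun y => funext fun i => by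
    simp [l0]
  have c0 : (D.c : ℝ) ≠ 0 := Nat.cast_ne_zero.2 D.c0.ne'
  refine ⟨{
    W := W
    r := n
    g := fun i y => l * e₀ y i
    o := fun e z => jd M e₀ e (e.symm z) ^ D.c * (∏ k, (D.L k).c e₀ e (e.symm z) ^ D.a k)⁻¹
    F := fun w => D.c * (Real.log (D.H e₀ (l⁻¹ • w)).det.re - ∑ k, al D k * D.φ k e₀ (l⁻¹ • w) +
      u (e₀.symm (l⁻¹ • w)))
    opn := oW
    mem := xW
    hg := fun i => ⟨fun e he z hz hy => ?_, fun e he e' he' y hy hy' _ => ?_⟩
    ho := fun e he z hz hy => ⟨?_, ?_⟩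
    law := fun e he e' he' y hy hy' hW' => ?_
    sF := fun y hy => ?_
    wt := fun e he z hz hy => ?_
    bt := fun e he z hz hy v => ?_
    har := fun t ht => ⟨t, ?_, fun e he z hz _ => rfl⟩ }⟩
  · exact P56.hmul (P56.hc l) (hol_i (hol_c h₀ he hz (hW _ hy).1) i)
  · simp only [e.left_inv hy, e'.left_inv hy', pow_zero, one_mul]
  · have y₀ := (hW _ hy).1
    have y₁ := e.map_target hz
    obtain ⟨t1, -, -, t3, -⟩ := (mTR n M).2.1 e₀ h₀ e he _ y₀ y₁
    have t4 := (mCHN n _ _ t1).2.2.2.2.1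
    have h1 : ∀ᶠ w in 𝓝 (e (e.symm z)), ∀ k,
        DifferentiableAt ℂ (fun w => (D.L k).c e₀ e (e.symm w)) w :=
      eventually_all.2 fun k => (D.L k).hol e₀ h₀ e he _ y₀ y₁
    rw [e.right_inv hz] at t3 t4 h1
    filter_upwards [t4, h1, t3.eventually_nhds] with w a b c
    have c' := c.self_of_nhds
    refine DifferentiableAt.fun_mul ((a.congr_of_eventuallyEq (c.mono fun y hy => ?_)).fun_pow _)
      ((HasFDerivAt.finsetProd fun k _ => ((b k).fun_pow _).hasFDerivAt).differentiableAt.inv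
        (Finset.prod_ne_zero_iff.2 fun k _ =>
          pow_ne_zero _ ((D.L k).ne e₀ h₀ e he _ c'.2.1 c'.2.2.1)))
    simp only [jd, hy.2.2.2.2.2.2]
  · have y₀ := (hW _ hy).1
    have y₁ := e.map_target hz
    exact mul_ne_zero (pow_ne_zero _ ((mTR n M).2.1 e₀ h₀ e he _ y₀ y₁).2.1)
      (inv_ne_zero (Finset.prod_ne_zero_iff.2 fun k _ =>
        pow_ne_zero _ ((D.L k).ne e₀ h₀ e he _ y₀ y₁)))
  · have y₀ := (hW _ hW').1
    have n1 : ∏ k, (D.L k).c e e' y ^ D.a k ≠ 0 :=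
      Finset.prod_ne_zero_iff.2 fun k _ => pow_ne_zero _ ((D.L k).ne e he e' he' _ hy hy')
    simp only [e.left_inv hy, e'.left_inv hy', jd,
      ((mTR n M).2.1 e₀ h₀ e he _ y₀ hy).2.2.2.2 e' he' hy',
      fun k => (D.L k).mul e₀ h₀ e he y y₀ hy e' he' hy', Matrix.det_mul, mul_pow,
      Finset.prod_mul_distrib, mul_inv]
    field_simp
  · have y₀ := e₀.map_source (hW _ hy).1
    have s : ContDiffAt ℝ ∞ (fun w : E n => l⁻¹ • w) fun i => l * e₀ y i :=
      contDiffAt_id.const_smul _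
    have k : ContDiffAt ℝ ∞ (fun w => D.c * (Real.log (D.H e₀ w).det.re -
        ∑ k, al D k * D.φ k e₀ w + u (e₀.symm w))) (e₀ y) :=
      contDiffAt_const.mul ((((cd_re (D.kae.sm e₀ h₀ _ y₀).det).log
        (Mf.pd_det_re (D.kae.pos e₀ h₀ _ y₀)).ne').sub (ContDiffAt.sum fun k _ =>
          contDiffAt_const.mul ((D.wt k).sm e₀ h₀ _ y₀))).add (hu e₀ h₀ _ y₀))
    rw [← il y] at k
    exact k.comp _ s
  · have y₀ := (hW _ hy).1
    have y₁ := e.map_target hz
    have d := P56.det_cmp D.kae.toMet e₀ h₀ e he _ y₀ y₁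
    have p := fun k => (D.wt k).cmp e₀ h₀ e he _ y₀ y₁
    have j0 : jd M e₀ e (e.symm z) ≠ 0 := ((mTR n M).2.1 e₀ h₀ e he _ y₀ y₁).2.1
    have n1 := fun k => (D.L k).ne e₀ h₀ e he _ y₀ y₁
    have q1 : Complex.normSq (jd M e₀ e (e.symm z)) ≠ 0 := mt Complex.normSq_eq_zero.1 j0
    have q2 : ∀ k, Complex.normSq ((D.L k).c e₀ e (e.symm z)) ≠ 0 := fun k =>
      mt Complex.normSq_eq_zero.1 (n1 k)
    simp only [e.right_inv hz] at d p
    have ac : ∀ k, (D.c : ℝ) * al D k = D.a k := fun k => by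
      rw [al]
      field_simp
    simp only [il, e₀.left_inv y₀, d, p, map_mul, map_pow, map_inv₀, map_prod]
    rw [← Complex.normSq_eq_norm_sq,
      Real.log_mul q1 (Mf.pd_det_re (D.kae.pos e₀ h₀ _ (e₀.map_source y₀))).ne',
      Real.log_mul (pow_ne_zero _ q1) (inv_ne_zero (Finset.prod_ne_zero_iff.2 fun k _ =>
        pow_ne_zero _ (q2 k))), Real.log_inv, Real.log_prod fun k _ => pow_ne_zero _ (q2 k)]
    simp only [Real.log_pow, mul_add, Finset.sum_add_distrib, mul_sub, Finset.mul_sum,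
      ← mul_assoc, ac]
    ring
  · have y₀ := (hW _ hy).1
    have y₁ := e.map_target hz
    have b := D.cβ.cmp e₀ h₀ e he _ y₀ y₁
    have hc := hol_c h₀ he hz y₀
    simp only [Mf.J, e.right_inv hz] at b
    have g := fun i => gd_i hc l i v
    simp only [Function.comp] at g
    simp only [b, nq_chg, g, map_mul, l2, ← Finset.mul_sum]
    exact nq_le _ _ (hW _ hy).2.2.le
  · rwa [inter_eq_left.2 fun y hy => (hW y hy).2.1] at ht

/-- There is a local model at every point. -/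
theorem lm (S : Sd M I) (x : M.X) : Nonempty (Lm S.toDk S.u x) := by
  by_cases h : x ∈ Of S.toDk
  · exact lmx _ S.su h
  · exact S.mod x h

end L26

end Pool.Agent.Lib.N4S
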