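import Pool.Agent.Lib.N4S.Blue
import Pool.Agent.Lib.N4S.Fe22
import Pool.Agent.Lib.N4S.Gc75
import Pool.Agent.Lib.N4S.Lmx26

/-! Project n4s, row PB2: the local bounds for the derivatives of the affine structure. -/

open scoped Classical Topology ContDiff ComplexOrder Matrix
open Set Filter

set_option linter.unusedVariables false

noncomputable section

namespace Pool.Agent.Lib.N4S

open Pool.Agent.Lib.SV (E)
open Pool.Agent.Lib.HS32 Pool.Agent.Lib.HLK Pool.Agent.Lib.F4 Pool.Agent.Lib.NU4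
open Pool.Agent.Lib.K3E (kan wk lk)

namespace Pb22

open Lie87

variable {n : ℕ} {M : Mf n} {I : Type} [Fintype I] {S : Sd M I} {x : M.X} {W V : M.Fam (E n)}
  {b₀ b : M.Fam ℂ}

/-- The set where a multivector does not vanish. -/
theorem opn {H : M.Fam (Mat n)} (hH : M.Met H) {m : ℕ} {g : M.Fam (Fs n → ℂ)} (hg : HM M m g) :
    IsOpen {y | (lk H m).pn g y ≠ 0} ∧
    (∀ e ∈ M.C, ∀ y ∈ e.source, y ∈ {y | (lk H m).pn g y ≠ 0} ↔ g e (e y) ≠ 0) ∧
    M.All fun e z => e.symm z ∈ {y | (lk H m).pn g y ≠ 0} ↔ g e z ≠ 0 := by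
  have ok : (lk H m).Ok := (st_LAM (st_FK2 st_FK1) (st_FK3 st_FK1 (st_FK2 st_FK1)) n M H _ _ hH
    (K3E.bKAN n M H m hH).1).1
  have sec := ((st_KIT n M H m g hH).1.1 hg).1
  have k : ∀ e ∈ M.C, ∀ y ∈ e.source, y ∈ {y | (lk H m).pn g y ≠ 0} ↔ g e (e y) ≠ 0 :=
    fun e he y hy => (CHT.pn_zero ok sec he hy).not
  refine ⟨isOpen_ne_fun ((st_KIT n M H m g hH).2.2.2.2.2.2.1 sec).2.continuous continuous_const, k,
    fun e he z hz => ?_⟩
  have := k e he _ (e.map_target hz)
  rwa [e.right_inv hz] at this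

theorem yy_hol (hW : HT M 2 W) (hV : HT M 1 V) : M.All fun e z => HolV (yy M 2 W V e) z :=
  fun e he z hz => by
    have w := hW.hol e he z hz
    have v := hV.hol e he z hz
    have q : yy M 2 W V e = fun y => (dirv (W e) (V e) y - dirv (V e) (W e) y) -
        (dv (W e) y * (((2 : ℕ) : ℂ) - 1)⁻¹) • V e y := funext fun y => by
      rw [yy, br, div_eq_mul_inv]
    beta_reduce
    rw [q]
    exact v_sub (v_sub (v_dirv w v) (v_dirv v w)) (v_smul (h_mul (h_dv w) (h_c _)) v)

/-- The classes of the defect, of the product and of the two derivatives. -/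
theorem gc [M.Cpt] (P : Lm S.toDk S.u x) (hW : HT M 2 W) (hV : HT M 1 V) (hB : B0 S V b₀)
    (hq : Hq S W) (nz : Nz (wd M W (vec M V))) (af : Af M S.H V (wd M W (vec M V)) b)
    (hy : M.All fun e z => wd M W (vec M V) e z ≠ 0 → yy M 2 W V e z = (-(2 * b e z)) • W e z) :
    Gc S P {y | (lk S.H 3).pn (wd M W (vec M V)) y ≠ 0} 3 (aq S W V b₀ b) ∧
    Gc S P {y | (lk S.H 3).pn (wd M W (vec M V)) y ≠ 0} 4 (dc 3 V b₀ (aq S W V b₀ b)) := by
  have hH := S.kae.toMet
  have g1 : HM M 1 (vec M V) := ((st_KIT n M S.H 1 0 hH).2.1 V hV).1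
  have g3 : HM M 3 (wd M W (vec M V)) := ((st_KIT n M S.H 1 _ hH).2.2.1 2 W hW).1 g1
  have den := ((st_KIT n M S.H 3 _ hH).2.2.2.2.1 g3).2.2.2.2 inferInstance nz
  obtain ⟨hO, p1, p2⟩ := opn hH g3
  set O := {y | (lk S.H 3).pn (wd M W (vec M V)) y ≠ 0} with hO'
  have c : ((2 : ℕ) : ℂ) - 1 = 1 := by norm_num
  have hY : M.All fun e z => HolV (fun w => (-2⁻¹ : ℂ) • yy M 2 W V e w) z := fun e he z hz =>
    v_smul (h_c _) (yy_hol hW hV e he z hz)
  have eY : M.All fun e z => wd M W (vec M V) e z ≠ 0 →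
      (-2⁻¹ : ℂ) • yy M 2 W V e z = b e z • W e z := fun e he z hz h => by
    rw [hy e he z hz h, smul_smul]
    congr 1
    ring
  have w0 : M.All fun e z => wg (W e z) ((-2⁻¹ : ℂ) • yy M 2 W V e z) = 0 := fun e he z hz => by
    ext i j
    have a := fun i => (hW.hol e he z hz i).self_of_nhds.continuousAt
    have d := fun i => (hY e he z hz i).self_of_nhds.continuousAt
    exact tendsto_nhds_unique_of_frequently_eq (((a i).mul (d j)).sub ((d i).mul (a j)))
      (continuousAt_const (y := (0 : ℂ)))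
      (((den e he z hz).and_eventually (e.open_target.eventually_mem hz)).mono fun w k => by
        have := congrFun (congrFun (P56.wg_smul (W e w) (b e w)) i) j
        rw [← eY e he w k.2 k.1] at this
        exact this)
  have uo : ∀ e : M.Ch, IsOpen (e.target ∩ e.symm ⁻¹' Of S.toDk) := fun e =>
    e.continuousOn_symm.isOpen_inter_preimage e.open_target Nb51.of_open
  choose! h h1 h2 using fun e (he : e ∈ M.C) => hq e he _
    (fun w => (-2⁻¹ : ℂ) • yy M 2 W V e w) (uo e) inter_subset_left (fun z hz => hz.2)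
    (fun z hz => (differentiableAt_pi.2 fun i =>
      (hY e he z hz.1 i).self_of_nhds).differentiableWithinAt) fun z hz => w0 e he z hz.1
  have f3 := Fe22.fe P (O := O) (l := 1) (m := 2) (b := b) (δ := fun e => dv (W e)) (h := h)
    (Y := fun e w => (-2⁻¹ : ℂ) • yy M 2 W V e w) hV hW
    (fun e he z hz => ((den e he z hz).and_eventually (e.open_target.eventually_mem hz)).mono
      fun w k => (p2 e he w k.2).2 k.1)
    (fun e he e' he' y hy hy' _ o => by
      rw [pow_one]
      exact af.cmp e he e' he' y hy hy' ((p1 e he y hy).1 o))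
    (fun e he z hz _ => h_dv (hW.hol e he z hz))
    (fun e he e' he' y hy hy' _ => by
      have k := (Gc75.cn_dv univ hH (m := 2) hW le_rfl).cmp e he e' he' y hy hy' trivial
      simp only [c, div_one] at k
      linear_combination k - Gc75.a0_law hH (m := 2) hW e he e' he' y hy hy')
    fun e he z hz a => ⟨hY e he z hz, ((uo e).eventually_mem ⟨hz, a⟩).mono fun w hw =>
      (h1 e he w hw).differentiableAt ((uo e).mem_nhds hw), fun o => by
        have k := (p2 e he z hz).1 o
        have q := h2 e he z ⟨hz, a⟩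
        rw [eY e he z hz k, smul_smul, mul_comm] at q
        exact ⟨eY e he z hz k, smul_left_injective ℂ (P56.ne0 (w := W e) (v := V e) k) q⟩⟩
  have e2 : Gc S P O 2 (ep S W) := Gc75.congr (Gc75.aff_dv (m := 2) hW le_rfl)
    fun _ _ _ _ _ _ => by simp only [ep, c, div_one]
  have a3 : Gc S P O 3 (aq S W V b₀ b) := Gc75.congr
    (Gc75.sub (Gc75.der (m := 1) hO hV e2) (Gc75.cmul 2 f3)) fun e he z hz a _ => by
      simp only [aq, dc, hB.eq e he z hz a.2]
      rw [ep]
      ring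
  exact ⟨a3, Gc75.congr (Gc75.der (m := 1) hO hV a3) fun e he z hz a _ => by
    rw [dc, hB.eq e he z hz a.2]⟩

end Pb22

theorem st_PB2 : St_PB2 := fun n M _ I _ S W V b₀ b x hW hV hB hq nz af hy =>
  (Pb22.gc (L26.lm S x).some hW hV hB hq nz af hy).imp (Nb51.nbG _) (Nb51.nbG _)

end Pool.Agent.Lib.N4S
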