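import Pool.Agent.Lib.N4S.Blue
import Pool.Agent.Lib.N4S.Smv49
import Pool.Agent.Lib.NU4.B_IBP
import Pool.Agent.Lib.NU4.B_KIT
import Pool.Agent.Lib.NU4.B_PW
import Pool.Agent.Lib.NU4.B_LIE
import Pool.Agent.Lib.NU4.B_FK

/-! Project n4s, row SMV: smallness at level one. -/

namespace Pool.Agent.Lib.N4S

theorem st_SMV : St_SMV := fun _ _ _ _ _ S _ _ hZ hV h =>
  Smv49.smv S (NU4.st_IBP NU4.st_KIT NU4.st_FK NU4.st_PW) NU4.st_KIT NU4.st_PW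
    (NU4.st_LIE NU4.st_FK) hZ hV (h.imp_right Or.inl)

end Pool.Agent.Lib.N4S
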