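import Pool.Agent.Lib.N4S.Stm
import Pool.Agent.Lib.N4S.Nsq
import Pool.Agent.Lib.KS.B_BR0
import Pool.Agent.Lib.F4P.Ksq

/-! Project n4s: the theorem contains the case of a nef canonical bundle. -/

open scoped Classical Topology ContDiff ComplexOrder Matrix Manifold
open Set MeasureTheory Filter Complex

noncomputable section

namespace Pool.Agent.Lib.N4S

open Pool.Agent.Lib.SV (E)
open Pool.Agent.Lib.HS32 Pool.Agent.Lib.GH Pool.Agent.Lib.K3S Pool.Agent.Lib.KS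
open Pool.Agent.Lib.HS (inChart del)
open Pool.Agent.Lib.HS.BBR (mf)
open Pool.Agent.Lib.HW (CanNef levi)
open Pool.Agent.Lib.RB.R32 (fam)

namespace CHK

variable {n : ℕ} {X : Type} [TopologicalSpace X] [ChartedSpace (E n) X] {g : X → Mat n}

theorem semi [Nonempty X] (hg : Kaehler g) : Semi n g g := by
  have e2 : ∀ x, inChart (g + g) x = fun z => inChart g x z + inChart g x z := fun x =>
    funext fun z => by simp only [inChart, Pi.add_apply, Matrix.mul_add, Matrix.add_mul]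
  have e3 : ∀ x v, del v (inChart (g + g) x) (chartAt (E n) x x) =
      del v (inChart g x) (chartAt (E n) x x) + del v (inChart g x) (chartAt (E n) x x) :=
    fun x v => Matrix.ext fun i j => by
      have d := cd_diff (hg.smooth x i j)
      simp only [e2, del, Matrix.of_apply, Matrix.add_apply, fderiv_fun_add d d, add_apply]
      ring
  obtain ⟨x₀⟩ : Nonempty X := inferInstance
  refine ⟨⟨⟨fun x => (hg.pos x).add (hg.pos x), fun x i j => ?_⟩, fun x v w => ?_⟩,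
    fun x => (hg.pos x).posSemidef, x₀, hg.pos x₀⟩
  · rw [e2]
    exact (hg.smooth x i j).add (hg.smooth x i j)
  · rw [e3, e3, Matrix.add_mulVec, Matrix.add_mulVec, hg.closed]

variable [IsManifold 𝓘(ℂ, E n) ω X] [CompactSpace X] [T2Space X] [ConnectedSpace X]

theorem nef (hg : Kaehler g) (hK : CanNef g) (b : Fin 0 → ℝ) :
    NefW n g g (fun _ : Unit => univ) (fun _ _ _ _ => 1) b := fun ε hε => by
  let M : Mf n := mf n X
  have : M.Cpt := ⟨‹_›, ‹_›, ‹_›⟩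
  let c : M.X → M.Ch := chartAt (M := X) (E n)
  have hc : ∀ x, c x ∈ M.C := HW.ch_mem (X := X)
  have hs : ∀ x, x ∈ (c x).source := mem_chart_source (M := X) (E n)
  obtain ⟨-, -, hJ, hsm, -⟩ := mTR n M
  have hk : M.Kae (fam g) := HW.kae hg
  obtain ⟨u, hu⟩ := hK ε hε
  have su : M.Sm u := (hsm ℝ u).2.2 fun x => ⟨c x, hc x, hs x, (hu x).1⟩
  obtain ⟨C, -, hC, -⟩ := (mBD n M _ hk.toMet).1 _ (((mHES n M).1 u su).sub
    ((mHES n M).2.2.2.2.2.2.2.2.1 _ hk.toMet)).toForm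
  refine ⟨fun _ => u, C, fun _ _ _ _ => by simp, fun _ x _ => ⟨(hu x).1, fun v =>
    ⟨(hu x).2 v, ?_⟩⟩⟩
  have hz := (c x).map_source (hs x)
  have e0 : fam g (c x) (c x x) = g x := by
    have := hJ _ (hc x) x (hs x)
    rw [Mf.J] at this
    simp only [fam, (c x).left_inv (hs x)]
    erw [this]
    simp
  have s1 := su _ (hc x) _ hz
  have s2 := ((mCOF n _ _ (hk.sm _ (hc x) _ hz)).2.2.2.2.2 (Mf.AllOn.ev hk.pos (hc x) hz))
  have h3 : hess (fun w => ((u ((c x).symm w) + Real.log (fam g (c x) w).det.re : ℝ) : ℂ))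
      (c x x) = M.hs u (c x) (c x x) - M.ric (fam g) (c x) (c x x) := by
    simp only [ofReal_add]
    refine (hess_add (cd_ofReal s1) (cd_ofReal s2.2.1)).trans ?_
    rw [Mf.ric, sub_neg_eq_add]
    rfl
  refine (HW.levi_eq (s1.add s2.2.1) v).le.trans ?_
  have h4 := (hC _ (hc x) _ hz).re_dotProduct_nonneg v
  simp only [Pi.sub_apply, Pi.smul_apply, e0, ← h3, Matrix.sub_mulVec, dotProduct_sub,
    Matrix.smul_mulVec, dotProduct_smul, RCLike.re_to_complex, sub_re, real_smul,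
    re_ofReal_mul] at h4
  exact sub_nonneg.1 h4

theorem cur (hg : Kaehler g) : ∃ Θ : X → Mat n, ∀ y, (Θ y).IsHermitian ∧
    ∀ v, levi (fun z => Real.log (inChart g y z).det.re) (chartAt (E n) y y) v =
      (star v ⬝ᵥ Θ y *ᵥ v).re := by
  let M : Mf n := mf n X
  have : M.Cpt := ⟨‹_›, ‹_›, ‹_›⟩
  let c : M.X → M.Ch := chartAt (M := X) (E n)
  have hc : ∀ x, c x ∈ M.C := HW.ch_mem (X := X)
  have hk : M.Kae (fam g) := HW.kae hg
  have hf : M.Clo (-M.ric (fam g)) := ((mHES n M).2.2.2.2.2.2.2.2.1 _ hk.toMet).neg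
  refine ⟨fun y : M.X => (-M.ric (fam g)) (c y) (c y y), fun y : M.X => ?_⟩
  have hz := (c y).map_source (mem_chart_source (M := X) (E n) y)
  refine ⟨hf.herm _ (hc y) _ hz, fun v => ?_⟩
  exact (HW.levi_eq ((mCOF n _ _ (hk.sm _ (hc y) _ hz)).2.2.2.2.2
    (Mf.AllOn.ev hk.pos (hc y) hz)).2.1 v).trans (congrArg (nq · v) (neg_neg _).symm)

end CHK

theorem old (h : St_N4F) : F4P.St_F4Q := by
  intro X _ _ _ _ _ _ G hG hK h1 h2
  have hC : Ctr 4 G (fun _ : Unit => univ) (fun (_ : Fin 0) _ _ => 1) fun _ _ _ _ => 1 :=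
    ⟨fun _ => isOpen_univ, fun _ => ⟨(), trivial⟩, fun k => k.elim0, fun k => k.elim0,
      fun k => k.elim0⟩
  have gl : ∀ b : Fin 0 → ℝ, ZK47.Glue (fun _ : Unit => (univ : Set X)) (fun _ _ _ _ => 1) b
      fun _ _ => ((0 : ℝ) : EReal) := fun _ _ _ _ _ => by simp
  refine (h X Unit (Fin 0) G G (fun _ => univ) (fun _ _ _ => 1) (fun _ _ _ _ => 1) (fun _ => 0) hG
    (CHK.semi hG) hC ⟨fun k => k.elim0, fun _ => 0, fun _ _ => 0, 1, fun k => k.elim0, gl _,
      fun _ y _ => ⟨contDiffAt_const, fun v hv => ?_⟩⟩ (fun k => k.elim0) (CHK.nef hG hK _)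
    ⟨1, fun _ => 0, fun _ _ => 0, one_pos, fun k => k.elim0, gl _, fun _ _ _ =>
      ⟨contDiffAt_const, linearIndependent_empty_type, fun ⟨k, _⟩ => k.elim0⟩⟩
    (fun _ _ k => k.elim0) (fun ⟨k⟩ => k.elim0) h1 h2).imp_right fun ⟨hN, hp⟩ => ⟨?_, hp⟩
  · have : levi ((fun _ => (0 : ℝ)) ∘ (chartAt (E 4) y).symm) (chartAt (E 4) y y) v = 0 := by
      simp [levi, Function.comp_def]
    rw [this, one_mul]
    exact (hG.pos y).re_dotProduct_pos hv
  obtain ⟨φ, Θ, r, x, B, -, ce, hs, pos⟩ := hN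
  obtain ⟨Θ', hΘ⟩ := CHK.cur hG
  obtain ⟨_, _, D, o⟩ := kBR0 kKEY 4 X Unit (Fin 0) G G _ _ _ 1 (fun _ => 0) four_pos hG
    (CHK.semi hG) hC one_pos (CHK.nef hG hK _)
  refine ⟨Θ', r, x, B, ce, hΘ, pos.trans_eq
    ((NSQ.br o (fun _ _ _ _ => by simp) ce hs).trans
      (NSQ.br o (φ := fun _ _ => 0) (gl _) ce fun _ y _ =>
        ⟨contDiffAt_const, (hΘ y).1, fun v => ?_⟩).symm)⟩
  simpa only [zero_add] using (hΘ y).2 v

end Pool.Agent.Lib.N4S
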