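import Pool.Agent.Lib.KS.Neg1

/-! Project n4s: tubes around a smooth hypersurface, vanishing and division of square integrable
holomorphic functions. -/

open scoped Classical Topology ContDiff ComplexOrder Matrix ENNReal
open Set Filter Complex MeasureTheory

noncomputable section

namespace Pool.Agent.Lib.N4S.D64

open Pool.Agent.Lib.SV (E)
open Pool.Agent.Lib.HS32 Pool.Agent.Lib.KS.NEG

variable {n : ℕ} {f s g : E n → ℂ} {z : E n}

/-- The real determinant of a perturbation of rank one. -/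
theorem det1 {Φ : E n → E n} {y w : E n} {m : E n →L[ℂ] ℂ} (h : HolN Φ y)
    (d : fderiv ℂ Φ y = ContinuousLinearMap.id ℂ (E n) + m.smulRight w) :
    (fderiv ℝ Φ y).det = normSq (1 + m w) := by
  obtain ⟨-, -, -, -, -, -, -, c8, -⟩ := mCHN n Φ y h
  have e : jm Φ y = 1 + Matrix.replicateCol Unit w *
      Matrix.replicateRow Unit fun j => m (Pi.single j 1) := by
    ext i j
    simp [jm, d, Matrix.mul_apply, Matrix.one_apply, Pi.single_apply, mul_comm]
  have k : (fun j => m (Pi.single j 1)) ⬝ᵥ w = m w := by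
    conv_rhs => rw [← Finset.univ_sum_single w, map_sum]
    refine Finset.sum_congr rfl fun j _ => ?_
    rw [mul_comm, ← smul_eq_mul, ← map_smul, ← Pi.single_smul', smul_eq_mul, mul_one]
  rw [c8, e, Matrix.det_one_add_replicateCol_mul_replicateRow, k]

/-- The volume of a shell around a smooth hypersurface. -/
theorem tube (hf : HolN f z) (h0 : f z = 0) (h1 : fderiv ℂ f z ≠ 0) {V : Set (E n)}
    (hV : V ∈ 𝓝 z) {a : ℝ} (ha : 0 ≤ a) (ha1 : a < 1) : ∃ c : ℝ, 0 < c ∧ ∃ O, IsOpen O ∧ O ⊆ V ∧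
      ContinuousOn f O ∧ ∀ᶠ r in 𝓝[>] (0 : ℝ),
      ENNReal.ofReal (c * r ^ 2) ≤ volume {y ∈ O | a * r < ‖f y‖ ∧ ‖f y‖ < r} := by
  obtain ⟨w, hw⟩ : ∃ w, fderiv ℂ f z w = 1 := by
    obtain ⟨v, hv⟩ := DFunLike.ne_iff.1 h1
    exact ⟨(fderiv ℂ f z v)⁻¹ • v, by rw [map_smul, smul_eq_mul, inv_mul_cancel₀ hv]⟩
  obtain ⟨U, ho, hz, hU⟩ := BHOL.smoothC hf
  have c : ContDiffAt ℂ 1 f z := (hU.contDiffAt (ho.mem_nhds hz)).of_le (by simp)
  have c' : ContinuousAt (fun y => ‖fderiv ℂ f y w‖) z :=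
    ((c.continuousAt_fderiv one_ne_zero).clm_apply continuousAt_const).norm
  have b2 : ∀ᶠ y in 𝓝 z, ‖fderiv ℂ f y w‖ < 2 :=
    c'.eventually_lt continuousAt_const (by rw [hw]; norm_num)
  generalize hl : fderiv ℂ f z = l at hw
  have d : HasStrictFDerivAt f l z := hl ▸ c.hasStrictFDerivAt one_ne_zero
  let F : ℂ → E n → E n := fun t y => y - z + (t * f y - l (y - z)) • w
  have dF : HasStrictFDerivAt (F 1)
      ((ContinuousLinearEquiv.refl ℂ (E n) : E n ≃L[ℂ] E n) : E n →L[ℂ] E n) z := by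
    have t := ((hasStrictFDerivAt_id z).sub_const z).add (((d.const_mul 1).sub
      (l.hasStrictFDerivAt.comp z ((hasStrictFDerivAt_id z).sub_const z))).smul_const w)
    refine (t.congr_fderiv ?_ :)
    ext1 y
    simp
  have F0 : F 1 z = 0 := by simp [F, h0]
  have lF : ∀ t y, l (F t y) = t * f y := fun t y => by
    simp only [F, map_add, map_smul, hw, smul_eq_mul, mul_one, add_sub_cancel]
  obtain ⟨O, sO, oO, zO⟩ := mem_nhds_iff.1 (inter_mem hV (hf.eventually_nhds.and b2))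
  have mO : F 1 '' O ∈ 𝓝 (0 : E n) := by
    rw [← F0, ← dF.map_nhds_eq_of_equiv]
    exact image_mem_map (oO.mem_nhds zO)
  obtain ⟨ρ, hρ, hb⟩ := Metric.mem_nhds_iff.1 mO
  have cO : ContinuousOn f O := fun y hy =>
    (sO hy).2.1.self_of_nhds.continuousAt.continuousWithinAt
  -- the model set
  let T : Set (E n) := {x | ‖x - l x • w‖ < ρ / 2 ∧ a < ‖l x‖ ∧ ‖l x‖ < 1}
  have cl : Continuous fun x => ‖l x‖ := l.continuous.norm
  have oT : IsOpen T := (isOpen_lt (continuous_id.sub (l.continuous.smul continuous_const)).norm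
    continuous_const).inter ((isOpen_lt continuous_const cl).inter (isOpen_lt cl continuous_const))
  have nT : T.Nonempty := by
    have e : l ((((a + 1) / 2 : ℝ) : ℂ) • w) = (((a + 1) / 2 : ℝ) : ℂ) := by
      rw [map_smul, hw, smul_eq_mul, mul_one]
    have e2 : ‖(((a + 1) / 2 : ℝ) : ℂ)‖ = (a + 1) / 2 := by
      rw [Complex.norm_real, Real.norm_of_nonneg (by linarith)]
    refine ⟨(((a + 1) / 2 : ℝ) : ℂ) • w, ?_, ?_, ?_⟩
    · rw [e, sub_self, norm_zero]; exact half_pos hρ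
    · rw [e, e2]; linarith
    · rw [e, e2]; linarith
  obtain ⟨c0, -, p0, p1⟩ := ENNReal.lt_iff_exists_real_btwn.1 (oT.measure_pos volume nT)
  have p2 : 0 < c0 := ENNReal.ofReal_pos.1 p0
  refine ⟨c0 / 4, by positivity, O, oO, fun y hy => (sO hy).1, cO, ?_⟩
  have sm : ∀ᶠ r in 𝓝[>] (0 : ℝ), r * ‖w‖ < ρ / 2 := nhdsWithin_le_nhds
    (ContinuousAt.eventually_lt (f := fun r : ℝ => r * ‖w‖) (by fun_prop) continuousAt_const
      (by simpa using hρ))
  filter_upwards [sm, self_mem_nhdsWithin] with r h2 (hr : 0 < r)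
  set S := {y ∈ O | a * r < ‖f y‖ ∧ ‖f y‖ < r} with hS
  have oS : IsOpen S := cO.norm.isOpen_inter_preimage oO (isOpen_Ioo (a := a * r) (b := r))
  have rc : (r : ℂ) ≠ 0 := ofReal_ne_zero.2 hr.ne'
  have nr : ‖(r : ℂ)‖ = r := by rw [Complex.norm_real, Real.norm_of_nonneg hr.le]
  have sub : T ⊆ F (r : ℂ)⁻¹ '' S := fun x ⟨x1, x2, x3⟩ => by
    obtain ⟨y, yO, hy⟩ := hb (a := x - l x • w + ((r : ℂ) * l x) • w) (by
      rw [mem_ball_zero_iff]
      refine (norm_add_le _ _).trans_lt ?_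
      rw [norm_smul, norm_mul, nr]
      nlinarith [mul_nonneg hr.le (norm_nonneg w), norm_nonneg (l x)])
    have e := lF 1 y
    rw [hy, one_mul, map_add, map_sub, map_smul, map_smul, hw, smul_eq_mul, smul_eq_mul, mul_one,
      mul_one, sub_self, zero_add] at e
    refine ⟨y, ⟨yO, ?_, ?_⟩, ?_⟩
    · rw [← e, norm_mul, nr]; nlinarith
    · rw [← e, norm_mul, nr]; nlinarith
    · have k : F (r : ℂ)⁻¹ y = F 1 y + ((r : ℂ)⁻¹ * f y - f y) • w := by
        simp only [F, sub_smul, one_mul]; abel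
      rw [k, hy, ← e, inv_mul_cancel_left₀ rc, sub_smul]; abel
  have hol : ∀ y ∈ O, HolN (F (r : ℂ)⁻¹) y := fun y hy => (sO hy).2.1.mono fun u hu =>
    (differentiableAt_id.sub_const z).add (((hu.const_mul _).sub
      (l.differentiableAt.comp u (differentiableAt_id.sub_const z))).smul_const w)
  have dt : ∀ y ∈ S, ENNReal.ofReal |(fderiv ℝ (F (r : ℂ)⁻¹) y).det| ≤
      ENNReal.ofReal (4 / r ^ 2) := fun y hy => by
    have t := ((hasFDerivAt_id y).sub_const z).add
      ((((sO hy.1).2.1.self_of_nhds.hasFDerivAt.const_mul (r : ℂ)⁻¹).sub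
      (l.hasFDerivAt.comp y ((hasFDerivAt_id y).sub_const z))).smul_const w)
    rw [det1 (hol y hy.1) t.fderiv, abs_of_nonneg (normSq_nonneg _), normSq_eq_norm_sq]
    refine ENNReal.ofReal_le_ofReal ?_
    have q := (sO hy.1).2.2
    simp only [sub_apply, smul_apply,
      ContinuousLinearMap.comp_apply, ContinuousLinearMap.id_apply, hw, add_sub_cancel,
      smul_eq_mul, norm_mul, norm_inv, nr, mul_pow, inv_pow]
    rw [div_eq_inv_mul]
    exact mul_le_mul_of_nonneg_left (by nlinarith [norm_nonneg (fderiv ℂ f y w)]) (by positivity)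
  have k := ((measure_mono sub).trans (addHaar_image_le_lintegral_abs_det_fderiv volume
    oS.measurableSet fun y hy => ((hol y hy.1).self_of_nhds.restrictScalars ℝ).hasFDerivAt
      |>.hasFDerivWithinAt)).trans (setLIntegral_mono' oS.measurableSet dt)
  rw [setLIntegral_const] at k
  calc ENNReal.ofReal (c0 / 4 * r ^ 2) = ENNReal.ofReal (r ^ 2 / 4) * ENNReal.ofReal c0 := by
        rw [← ENNReal.ofReal_mul (by positivity)]; ring_nf
    _ ≤ ENNReal.ofReal (r ^ 2 / 4) * (ENNReal.ofReal (4 / r ^ 2) * volume S) := by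
        gcongr; exact p1.le.trans k
    _ = volume S := by
        rw [← mul_assoc, ← ENNReal.ofReal_mul (by positivity),
          show r ^ 2 / 4 * (4 / r ^ 2) = 1 by field_simp, ENNReal.ofReal_one, one_mul]

/-- A continuous function with small weighted integrals on shells vanishes on the hypersurface. -/
theorem vanT (hf : HolN f z) (h0 : f z = 0) (h1 : fderiv ℂ f z ≠ 0) {u : E n → ℝ}
    (hs : ContinuousAt u z) (hu : 0 ≤ u z) {V : Set (E n)} (hV : V ∈ 𝓝 z) {a : ℝ} (ha : 0 ≤ a)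
    (ha1 : a < 1) (h : ∀ η : ℝ, 0 < η → ∃ᶠ r in 𝓝[>] (0 : ℝ),
      ∫⁻ y in {y ∈ V | a * r < ‖f y‖ ∧ ‖f y‖ < r}, ENNReal.ofReal (u y / ‖f y‖ ^ 2) ≤
        ENNReal.ofReal η) : u z = 0 := by
  by_contra hn
  have p : 0 < u z / 2 := half_pos (hu.lt_of_ne' hn)
  obtain ⟨c, hc, O, oO, sO, cO, hO⟩ := tube hf h0 h1
    (inter_mem hV (continuousAt_const.eventually_lt hs (half_lt_self (hu.lt_of_ne' hn)))) ha ha1
  obtain ⟨r, h2, h3, (hr : 0 < r)⟩ :=
    ((h (u z / 2 * c / 2) (by positivity)).and_eventually (hO.and self_mem_nhdsWithin)).exists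
  have oS : IsOpen {y ∈ O | a * r < ‖f y‖ ∧ ‖f y‖ < r} :=
    cO.norm.isOpen_inter_preimage oO (isOpen_Ioo (a := a * r) (b := r))
  have k : ENNReal.ofReal (u z / 2 / r ^ 2) * ENNReal.ofReal (c * r ^ 2) ≤
      ENNReal.ofReal (u z / 2 * c / 2) := by
    have sb : {y ∈ O | a * r < ‖f y‖ ∧ ‖f y‖ < r} ⊆ {y ∈ V | a * r < ‖f y‖ ∧ ‖f y‖ < r} :=
      fun y hy => ⟨(sO hy.1).1, hy.2⟩
    refine le_trans ?_ ((lintegral_mono_set sb).trans h2)
    refine le_trans ?_ (setLIntegral_mono' oS.measurableSet (f := fun _ =>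
      ENNReal.ofReal (u z / 2 / r ^ 2)) fun y hy => ENNReal.ofReal_le_ofReal ?_)
    · rw [setLIntegral_const]; gcongr
    · have q : 0 < ‖f y‖ := (mul_nonneg ha hr.le).trans_lt hy.2.1
      exact div_le_div₀ (p.le.trans (sO hy.1).2.le) (sO hy.1).2.le (by positivity)
        (pow_le_pow_left₀ q.le hy.2.2.le 2)
  rw [← ENNReal.ofReal_mul (by positivity), ENNReal.ofReal_le_ofReal_iff (by positivity),
    show u z / 2 / r ^ 2 * (c * r ^ 2) = u z / 2 * c by field_simp] at k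
  nlinarith [mul_pos p hc]

/-- A continuous function that is integrable against the inverse of the square of the equation
vanishes on the hypersurface. -/
theorem van (hf : HolN f z) (h0 : f z = 0) (h1 : fderiv ℂ f z ≠ 0) {u : E n → ℝ}
    (hs : ContinuousAt u z) (hu : ∀ y, 0 ≤ u y) {V : Set (E n)} (hV : V ∈ 𝓝 z)
    (h : IntegrableOn (fun y => u y / ‖f y‖ ^ 2) V) : u z = 0 := by
  obtain ⟨O, sO, oO, zO⟩ := mem_nhds_iff.1 (inter_mem hV hf)
  have cO : ContinuousOn f O := fun y hy => (sO hy).2.continuousAt.continuousWithinAt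
  have hO := h.mono_set fun y hy => (sO (a := y) hy).1
  refine vanT hf h0 h1 hs (hu z) (oO.mem_nhds zO) le_rfl one_pos fun η hη => ?_
  let S : ℕ → Set (E n) := fun i => {y ∈ O | 0 * (1 / ((i : ℝ) + 1)) < ‖f y‖ ∧
    ‖f y‖ < 1 / ((i : ℝ) + 1)}
  have oS : ∀ i, IsOpen (S i) := fun i => cO.norm.isOpen_inter_preimage oO
    (isOpen_Ioo (a := 0 * (1 / ((i : ℝ) + 1))) (b := 1 / ((i : ℝ) + 1)))
  have an : Antitone S := fun i j hij y hy => ⟨hy.1, by simpa using hy.2.1,
    hy.2.2.trans_le (Nat.one_div_le_one_div hij)⟩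
  have em : ⋂ i, S i = ∅ := eq_empty_of_forall_notMem fun y hy => by
    have p : 0 < ‖f y‖ := by simpa using (mem_iInter.1 hy 0).2.1
    obtain ⟨i, hi⟩ := exists_nat_one_div_lt p
    exact lt_asymm hi (mem_iInter.1 hy i).2.2
  have t := tendsto_setIntegral_of_antitone (fun i => (oS i).measurableSet) an
    ⟨0, hO.mono_set fun y hy => hy.1⟩
  rw [em, setIntegral_empty] at t
  have t2 : Tendsto (fun i : ℕ => 1 / ((i : ℝ) + 1)) atTop (𝓝[>] 0) :=
    tendsto_nhdsWithin_iff.2 ⟨tendsto_one_div_add_atTop_nhds_zero_nat,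
      Eventually.of_forall fun i => mem_Ioi.2 (Nat.one_div_pos_of_nat (n := i))⟩
  refine t2.frequently ((t.eventually (gt_mem_nhds hη)).mono fun i hi => ?_).frequently
  rw [← ofReal_integral_eq_lintegral_ofReal (hO.mono_set fun y hy => hy.1)
    (Eventually.of_forall fun y => div_nonneg (hu y) (by positivity))]
  exact ENNReal.ofReal_le_ofReal hi.le

/-- The derivative does not vanish on the zero set, near the point. -/
theorem reg_ev (hf : HolN f z) (h1 : f z = 0 → fderiv ℂ f z ≠ 0) :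
    ∀ᶠ y in 𝓝 z, f y = 0 → fderiv ℂ f y ≠ 0 := by
  by_cases h0 : f z = 0
  · obtain ⟨U, ho, hz, hU⟩ := BHOL.smoothC hf
    have c : ContDiffAt ℂ 1 f z := (hU.contDiffAt (ho.mem_nhds hz)).of_le (by simp)
    exact ((c.continuousAt_fderiv one_ne_zero).eventually_ne (h1 h0)).mono fun y hy _ => hy
  · exact (hf.self_of_nhds.continuousAt.eventually_ne h0).mono fun y hy k => (hy k).elim

variable {I : Type} [Fintype I] {φ : I → E n → ℂ}

/-- The complement of finitely many smooth hypersurfaces is dense. -/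
theorem fr_all (hf : ∀ k, HolN (φ k) z) (h1 : ∀ k, φ k z = 0 → fderiv ℂ (φ k) z ≠ 0) :
    ∀ᶠ x in 𝓝 z, ∃ᶠ y in 𝓝 x, ∀ k, φ k y ≠ 0 := by
  have key : ∀ T : Finset I, ∀ᶠ x in 𝓝 z, ∃ᶠ y in 𝓝 x, ∀ k ∈ T, φ k y ≠ 0 := fun T => by
    induction T using Finset.induction_on with
    | empty => exact Eventually.of_forall fun x => Frequently.of_forall fun y k hk => by simp at hk
    | insert j T _ ih =>
      filter_upwards [ih.eventually_nhds, (reg_ev (hf j) (h1 j)).eventually_nhds,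
        (eventually_all.2 hf).eventually_nhds.eventually_nhds] with x a b c
      refine fun hn => a.self_of_nhds ?_
      filter_upwards [hn.eventually_nhds, b, c] with y d e k hy
      refine fr_ne e ?_
      filter_upwards [d, (eventually_all_finset T).2 fun i hi =>
        (k.self_of_nhds i).continuousAt.eventually_ne (hy i hi)] with u p q r
      exact p fun i hi => (Finset.mem_insert.1 hi).elim (fun t => t ▸ r) (q i)
  exact (key Finset.univ).mono fun x hx => hx.mono fun y hy k => hy k (Finset.mem_univ k)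

/-- Division of a function that is holomorphic off the hypersurfaces and square integrable
against the inverse of a product of powers of the equations. -/
theorem divs (p : I → ℕ) (hf : ∀ k, HolN (φ k) z) (h1 : ∀ k, φ k z = 0 → fderiv ℂ (φ k) z ≠ 0)
    (hg : ∀ᶠ y in 𝓝 z, (∀ k, φ k y ≠ 0) → DifferentiableAt ℂ g y) {V : Set (E n)} (hV : V ∈ 𝓝 z)
    (hi : ∫⁻ y in {y ∈ V | ∀ k, φ k y ≠ 0},
      ENNReal.ofReal (‖g y‖ ^ 2 / ∏ k, ‖φ k y‖ ^ (2 * p k)) ≠ ⊤) :
    ∃ h, HolN h z ∧ ∀ᶠ y in 𝓝 z, (∀ k, φ k y ≠ 0) → g y = h y * ∏ k, φ k y ^ p k := by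
  obtain ⟨O, sO, oO, zO⟩ := mem_nhds_iff.1 (inter_mem hV ((eventually_all.2 hf).and hg))
  have ne : ∀ {y}, ∏ k, φ k y ≠ 0 ↔ ∀ k, φ k y ≠ 0 := by simp [Finset.prod_ne_zero_iff]
  have n2 : ∀ {y}, (∀ k, φ k y ≠ 0) → ∏ k, φ k y ^ p k ≠ 0 := fun h =>
    Finset.prod_ne_zero_iff.2 fun k _ => pow_ne_zero _ (h k)
  obtain ⟨G, hG⟩ := SV.H85.ext_local volume (f := fun w => g w * (∏ k, φ k w ^ p k)⁻¹)
    (j := fun w => ∏ k, φ k w) oO
    (fun w hw => (HasFDerivAt.finsetProd fun k _ =>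
      ((sO hw).2.1 k).hasFDerivAt).differentiableAt.differentiableWithinAt)
    (fun w hw => (((sO hw.1).2.2 (ne.1 hw.2)).fun_mul ((HasFDerivAt.finsetProd fun k _ =>
      (((sO hw.1).2.1 k).fun_pow _).hasFDerivAt).differentiableAt.fun_inv
        (n2 (ne.1 hw.2)))).differentiableWithinAt)
    (by
      have sb : {w | w ∈ O ∧ ∏ k, φ k w ≠ 0} ⊆ {y ∈ V | ∀ k, φ k y ≠ 0} :=
        fun w hw => ⟨(sO hw.1).1, ne.1 hw.2⟩
      refine ne_top_of_le_ne_top hi ((lintegral_mono_set sb).trans (le_of_eq ?_))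
      refine lintegral_congr fun w => congrArg _ ?_
      rw [norm_mul, norm_inv, norm_prod, mul_pow, inv_pow, ← Finset.prod_pow, div_eq_mul_inv]
      simp only [norm_pow, ← pow_mul, mul_comm (p _) 2])
    zO (not_eventually.2 ((fr_all hf h1).self_of_nhds.mono fun y hy => ne.2 hy))
  refine ⟨G, hG.mono fun w h => h.1, hG.mono fun w h k => ?_⟩
  rw [h.2 (ne.2 k), inv_mul_cancel_right₀ (n2 k)]

/-- An identity between continuous functions extends to the hypersurfaces. -/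
theorem ext_eq (hf : ∀ k, HolN (φ k) z) (h1 : ∀ k, φ k z = 0 → fderiv ℂ (φ k) z ≠ 0)
    {F : Type} [TopologicalSpace F] [T2Space F] {a b : E n → F}
    (ha : ∀ᶠ y in 𝓝 z, ContinuousAt a y) (hb : ∀ᶠ y in 𝓝 z, ContinuousAt b y)
    (h : ∀ᶠ y in 𝓝 z, (∀ k, φ k y ≠ 0) → a y = b y) : ∀ᶠ y in 𝓝 z, a y = b y := by
  filter_upwards [fr_all hf h1, ha, hb, h.eventually_nhds] with y p q r t
  exact tendsto_nhds_unique_of_frequently_eq q r ((p.and_eventually t).mono fun u k => k.2 k.1)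

/-- Division of a holomorphic function. -/
theorem divs' (p : I → ℕ) (hf : ∀ k, HolN (φ k) z) (h1 : ∀ k, φ k z = 0 → fderiv ℂ (φ k) z ≠ 0)
    (hg : HolN g z) {V : Set (E n)} (hV : V ∈ 𝓝 z)
    (hi : ∫⁻ y in {y ∈ V | ∀ k, φ k y ≠ 0},
      ENNReal.ofReal (‖g y‖ ^ 2 / ∏ k, ‖φ k y‖ ^ (2 * p k)) ≠ ⊤) :
    ∃ h, HolN h z ∧ ∀ᶠ y in 𝓝 z, g y = h y * ∏ k, φ k y ^ p k := by
  obtain ⟨h, a, b⟩ := divs p hf h1 (hg.mono fun y k _ => k) hV hi
  refine ⟨h, a, ext_eq hf h1 (hg.mono fun y k => k.continuousAt) ?_ b⟩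
  filter_upwards [a, eventually_all.2 hf] with y k l
  exact k.continuousAt.mul (HasFDerivAt.finsetProd fun i _ =>
    ((l i).fun_pow _).hasFDerivAt).differentiableAt.continuousAt

/-- Division of a function that is holomorphic off the hypersurfaces and bounded by a product of
powers of the equations. -/
theorem divb (p : I → ℕ) (hf : ∀ k, HolN (φ k) z) (h1 : ∀ k, φ k z = 0 → fderiv ℂ (φ k) z ≠ 0)
    (hg : ∀ᶠ y in 𝓝 z, (∀ k, φ k y ≠ 0) → DifferentiableAt ℂ g y) {C : ℝ}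
    (hb : ∀ᶠ y in 𝓝 z, (∀ k, φ k y ≠ 0) → ‖g y‖ ^ 2 ≤ C * ∏ k, ‖φ k y‖ ^ (2 * p k)) :
    ∃ h, HolN h z ∧ ∀ᶠ y in 𝓝 z, (∀ k, φ k y ≠ 0) → g y = h y * ∏ k, φ k y ^ p k := by
  obtain ⟨O, sO, oO, zO⟩ := mem_nhds_iff.1
    (inter_mem (Metric.ball_mem_nhds z one_pos) ((eventually_all.2 hf).and hb))
  refine divs p hf h1 hg (oO.mem_nhds zO) (ne_top_of_le_ne_top ?_
    (setLIntegral_mono (g := fun _ => ENNReal.ofReal C) measurable_const fun w hw =>
      ENNReal.ofReal_le_ofReal ?_))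
  · rw [setLIntegral_const]
    exact ENNReal.mul_ne_top ENNReal.ofReal_ne_top (ne_top_of_le_ne_top
      (measure_ball_lt_top (x := z) (r := 1)).ne (measure_mono fun w hw => (sO hw.1).1))
  · rw [div_le_iff₀ (Finset.prod_pos fun k _ => pow_pos (norm_pos_iff.2 (hw.2 k)) _)]
    exact (sO hw.1).2.2 hw.2

/-- Two hypersurfaces that are transverse at a point are transverse near the point. -/
theorem trv_ev {a b : E n → ℂ} (ha : HolN a z) (hb : HolN b z) {v w : E n}
    (h1 : fderiv ℂ a z v = 1) (h2 : fderiv ℂ b z v = 0) (h3 : fderiv ℂ a z w = 0)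
    (h4 : fderiv ℂ b z w = 1) :
    ∀ᶠ y in 𝓝 z, ∃ u, fderiv ℂ a y u = 0 ∧ fderiv ℂ b y u ≠ 0 := by
  have c : ∀ {f : E n → ℂ}, HolN f z → ∀ u, ContinuousAt (fun y => fderiv ℂ f y u) z :=
    fun hf u => by
      obtain ⟨U, ho, hz, hU⟩ := BHOL.smoothC hf
      exact (((hU.contDiffAt (ho.mem_nhds hz)).of_le (m := 1) (by simp)).continuousAt_fderiv
        one_ne_zero).clm_apply continuousAt_const
  filter_upwards [(((c ha v).mul (c hb w)).sub ((c ha w).mul (c hb v))).eventually_ne (y := 0)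
    (by simp [h1, h2, h3, h4])] with y hy
  refine ⟨fderiv ℂ a y v • w - fderiv ℂ a y w • v, by simp [mul_comm], ?_⟩
  simpa using hy

omit [Fintype I] in
/-- A holomorphic function that vanishes on hypersurfaces with normal crossings is divisible by
the product of the equations. -/
theorem divc (hf : ∀ k, HolN (φ k) z) (hs : ∀ k, φ k z = 0 → ∃ v : E n, ∀ j, φ j z = 0 →
      fderiv ℂ (φ j) z v = if j = k then 1 else 0) (T : Finset I) (hg : HolN g z)
    (hv : ∀ k ∈ T, ∀ᶠ y in 𝓝 z, φ k y = 0 → g y = 0) :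
    ∃ h, HolN h z ∧ ∀ᶠ y in 𝓝 z, g y = h y * ∏ k ∈ T, φ k y := by
  have h1 : ∀ k, φ k z = 0 → fderiv ℂ (φ k) z ≠ 0 := fun k hk e => by
    obtain ⟨v, hv⟩ := hs k hk
    simpa [e] using hv k hk
  induction T using Finset.induction_on generalizing g with
  | empty => exact ⟨g, hg, Eventually.of_forall fun y => by simp⟩
  | insert j T hj ih =>
    obtain ⟨u, u1, u2⟩ := dvd (hf j) (h1 j) hg (hv j (Finset.mem_insert_self j T))
    obtain ⟨h, a, b⟩ := ih u1 fun k hk => by
      have ne : k ≠ j := fun e => hj (e ▸ hk)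
      have off : ∀ᶠ y in 𝓝 z, φ k y = 0 → φ j y ≠ 0 → u y = 0 := by
        filter_upwards [u2, hv k (Finset.mem_insert_of_mem hk)] with y p q r t
        exact (mul_eq_zero.1 (p.symm.trans (q r))).resolve_right t
      by_cases z1 : φ k z = 0
      swap
      · exact ((hf k).self_of_nhds.continuousAt.eventually_ne z1).mono fun y p q => (p q).elim
      by_cases z2 : φ j z = 0
      swap
      · filter_upwards [off, (hf j).self_of_nhds.continuousAt.eventually_ne z2] with y p q r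
          using p r q
      obtain ⟨v, p1⟩ := hs k z1
      obtain ⟨w, p2⟩ := hs j z2
      filter_upwards [trv_ev (hf k) (hf j) (v := v) (w := w) (by simpa using p1 k z1)
        (by simpa [ne.symm] using p1 j z2) (by simpa [ne] using p2 k z1) (by simpa using p2 j z2),
        off.eventually_nhds, (hf k).eventually_nhds, (hf j).eventually_nhds, u1,
        reg_ev (hf k) (h1 k)] with y ⟨x, x1, x2⟩ o f1 f2 c r y0
      exact tendsto_nhds_unique_of_frequently_eq c.continuousAt continuousAt_const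
        (((freq f1 y0 (r y0) f2 x1 x2).and_eventually o).mono fun t k => k.2 k.1.1 k.1.2)
    refine ⟨h, a, ?_⟩
    filter_upwards [u2, b] with y p q
    rw [p, q, Finset.prod_insert hj]
    ring

end Pool.Agent.Lib.N4S.D64
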