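import Pool.Agent.Lib.N4S.Blue
import Pool.Agent.Lib.N4S.Spw84
import Pool.Agent.Lib.N4S.Fin31

/-! Project n4s: the flip of the parity. -/

open scoped Classical Topology ContDiff ComplexOrder Matrix
open Set Filter MeasureTheory Complex

set_option linter.unusedVariables false

noncomputable section

namespace Pool.Agent.Lib.N4S

open Pool.Agent.Lib.SV (E)
open Pool.Agent.Lib.HS32 Pool.Agent.Lib.KP Pool.Agent.Lib.HLK Pool.Agent.Lib.F4 Pool.Agent.Lib.NU4
open Pool.Agent.Lib.EXH (aw)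
open Pool.Agent.Lib.N4S.Lim84 Pool.Agent.Lib.N4S.Spw84

namespace P31

variable {n : ℕ} {M : Mf n} [M.Cpt] {H : M.Fam (Mat n)} {L : M.Co} {φ : M.Fam ℝ}

theorem pos (hm : M.Met H) (hφ : M.WtC L φ) {W : M.Fam (Fs n → ℂ)} (hW : (lam H L φ).Sec W)
    (hz : Nz W) : 0 < (lam H L φ).nr H W := by
  have o := (aLAM n M H L φ hm hφ).1
  let g : Geo M (Fs n) := ⟨H, _, hm, o⟩
  refine (nr0 hm o hW).lt_of_ne' fun c => ?_
  obtain ⟨e, he, z, hz, h⟩ := hz
  refine h ((IDX.st_INJ n M _ g (Pre.mk (g := g) W hW)).1 ?_ e he z hz)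
  exact pow_eq_zero_iff (two_ne_zero) |>.1 ((Pre.norm_sq _).trans c)

theorem nml (hH : M.Kae H) (hφ : M.WtC L φ) {W : M.Fam (Fs n → ℂ)} (hW : (lam H L φ).Sec W)
    (hh : Hol W) {s : ℂ} (hp : Pa M s W) {r : ℝ} (r0 : 0 < r) (hr : r ≤ (lam H L φ).nr H W) :
    ∃ U, (lam H L φ).Sec U ∧ Pa M s U ∧ (lam H L φ).nr H U = 1 ∧
      (lam H L φ).nr H ((oD H φ).ap U) ≤ (lam H L φ).nr H ((oP H φ).ap W) / r := by
  have hm := hH.toMet
  have o := (aLAM n M H L φ hm hφ).1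
  obtain ⟨k, -, s0⟩ := aSKW n M H L φ hH hφ
  let g : Geo M (Fs n) := ⟨H, _, hm, o⟩
  let f : Pre g := Pre.mk (g := g) W hW
  have f1 : ‖f‖ ^ 2 = (lam H L φ).nr H W := Pre.norm_sq _
  have f0 : 0 < ‖f‖ := by nlinarith [norm_nonneg f]
  have q : (lam H L φ).nr H ((oQ H).ap W) = 0 := by
    have a := (aSQ n M H L φ W hm hW).1
    have := (IDX.st_INJ n M _ g (Pre.mk (g := g) _ a)).2 (Fl.q_hol hh)
    exact (Pre.norm_sq (Pre.mk (g := g) _ a)).symm.trans (by rw [this]; simp)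
  have d : ‖Pre.op (g := g) _ k.sec f‖ ^ 2 = (lam H L φ).nr H ((oP H φ).ap W) :=
    (ONE.nr_op (g := g) k.sec f).trans (((s0 W hW).2.2).trans (by rw [q, zero_add]))
  let u : Pre g := ((‖f‖⁻¹ : ℝ) : ℂ) • f
  refine ⟨u.val, u.sec, fun e he z hz => ?_, ?_, ?_⟩
  · have := hp e he z hz
    funext A
    have := congrFun this A
    simp only [u, Pre.val_smul, IDX.par, Pi.smul_apply, smul_eq_mul] at this ⊢
    change (-1) ^ A.card * (_ * W e z A) = s * (_ * W e z A)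
    linear_combination (((‖f‖⁻¹ : ℝ) : ℂ)) * this
  · refine (Pre.norm_sq u).symm.trans ?_
    rw [norm_smul, norm_real, norm_inv, norm_norm, inv_mul_cancel₀ f0.ne', one_pow]
  · refine (ONE.nr_op (g := g) k.sec u).symm.trans_le ?_
    rw [map_smul, norm_smul, norm_real, norm_inv, norm_norm, mul_pow, d, inv_pow, f1,
      ← div_eq_inv_mul]
    exact div_le_div_of_nonneg_left (d ▸ sq_nonneg _) r0 hr

end P31

theorem flp31 (hSG : St_SG) (hADM : St_ADM) (hINF : St_INF) : St_FLP :=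
  fun n M _ I _ S a q m s W hZ hN hm hs hW hz hp => by
  have hA := hADM n M I S a q m hZ hm
  have nc := adm_nc hA
  have hf := finL S (fun l hl => ⟨_, adm_nc (hADM n M I S a q l hZ hl)⟩) (hINF n M I S hN).1
  have hH := S.kae
  have hM := hH.toMet
  obtain ⟨-, -, a0⟩ := aLAM n M S.H _ _ hM hA.wt
  have hψ := fun j => ((a0 (ww S a q m j)).1 (hA.sm j)).1
  have r0 := P31.pos hM hA.wt hW.sec hz
  have t := hSG n M I S a q m W hZ hm hW
  choose U u1 u2 u3 u4 using fun j => P31.nml hH (hψ j) (sw _ hW.sec) hW.hol hp r0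
    (mono hM hA.wt (hA.sm j) (hA.le j) hW.sec).1
  have x0 := fun j => (nr0 hM (aLAM n M S.H _ _ hM (hψ j)).1
    ((aSKW n M S.H _ _ hH (hψ j)).1.sec _ (u1 j))).trans (u4 j)
  choose V v1 v2 v3 v4 using fun j : ℕ => exsL S (by omega : 1 ≤ m) hf (hA.sm j) hs (sw _ (u1 j))
    (u2 j) (u3 j) (add_pos_of_nonneg_of_pos (x0 j) (Nat.one_div_pos_of_nat (n := j)))
    ((u4 j).trans (le_add_of_nonneg_right (Nat.one_div_pos_of_nat (n := j)).le))
  obtain ⟨Y, y1, y2, y3, y4, -, y5⟩ := nc.lim1 S.pos hH hA.wt (hyperfilter ℕ)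
    Nat.hyperfilter_le_atTop (fun k => (-1 : ℂ) ^ k = -s) (W := V)
    (fun j => ⟨v1 j, v3 j, fun e he z hz A c => by
      have := congrFun (v2 j e he z hz) A
      simp only [IDX.par, Pi.smul_apply, smul_eq_mul] at this
      exact (mul_eq_mul_right_iff.1 this).resolve_left c⟩)
    (squeeze_zero (fun j => nr0 hM (aLAM n M S.H _ _ hM (hψ j)).1
      ((aSKW n M S.H _ _ hH (hψ j)).1.sec _ (sw _ (v1 j)))) v4 (by
        have := (((t.div_const ((lb S m).nr S.H W)).add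
          tendsto_one_div_add_atTop_nhds_zero_nat).const_mul 4).mono_left Nat.hyperfilter_le_atTop
        simpa using this))
  refine ⟨Y, y1, y2, y3, fun e he z hz => funext fun A => ?_, fun y hy => (y5 y hy).congr fun j => ?_⟩
  · simp only [IDX.par, Pi.smul_apply, smul_eq_mul]
    by_cases c : (-1 : ℂ) ^ A.card = -s
    · rw [c]
    · rw [y4 e z A c, mul_zero, mul_zero]
  · simp only [Bun.ip, fun x => ((a0 (ww S a q m j)).2 ((oQ S.H).ap y) Y x).1, mul_comm]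

end Pool.Agent.Lib.N4S
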