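import Pool.Agent.Lib.NU4.B_IX0

/-! Project n4s: almost harmonic sections do not depend on the smooth weight; exchange of the
parity for small eigenvalues. -/

open scoped Classical Topology ContDiff ComplexOrder Matrix
open Set MeasureTheory Complex Filter UniformSpace

set_option linter.unusedVariables false

noncomputable section

namespace Pool.Agent.Lib.N4S

open Pool.Agent.Lib.SV (E)
open Pool.Agent.Lib.HS32 Pool.Agent.Lib.KP Pool.Agent.Lib.HLK Pool.Agent.Lib.NU4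
open Pool.Agent.Lib.EXH (aw)
open Pool.Agent.Lib.IDX (Lev geo Nx)

namespace X31

theorem nrm {V : Type} [SeminormedAddCommGroup V] [InnerProductSpace ℂ V] (D : V →ₗ[ℂ] V) {u : V}
    {η : ℝ} (p : 0 < ‖u‖) (h : ‖D u‖ ≤ η * ‖u‖) :
    ‖((‖u‖⁻¹ : ℝ) : ℂ) • u‖ = 1 ∧ ‖D (((‖u‖⁻¹ : ℝ) : ℂ) • u)‖ ≤ η := by
  constructor
  · rw [norm_smul, norm_real, norm_inv, norm_norm, inv_mul_cancel₀ p.ne']
  · rw [map_smul, norm_smul, norm_real, norm_inv, norm_norm, inv_mul_le_iff₀ p]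
    linarith

/-- Change of the product. -/
theorem chg {C D : Type} [SeminormedAddCommGroup C] [InnerProductSpace ℂ C]
    [SeminormedAddCommGroup D] [InnerProductSpace ℂ D] (ι : D →ₗ[ℂ] C) {k : ℝ} (k1 : 1 ≤ k)
    (i1 : ∀ a, ‖ι a‖ ≤ ‖a‖) (i2 : ∀ a, ‖a‖ ≤ k * ‖ι a‖) {Q0 P0 : C →ₗ[ℂ] C} {Q1 P1 : D →ₗ[ℂ] D}
    (hq : ∀ a, ι (Q1 a) = Q0 (ι a)) (ad : ∀ a b, inner ℂ (Q0 a) b = -inner ℂ a (P0 b))
    (near : ∀ (t d : ℝ) (f : D), 0 < t → 0 < d → ∃ w y r : D,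
      w + (t : ℂ) • (Q1 y + P1 y) = f + r ∧ ‖r‖ ≤ d ∧ ‖w‖ ≤ ‖f‖ + d ∧ ‖y‖ ≤ ‖f‖ + d ∧
      t * ‖Q1 w + P1 w‖ ≤ ‖f‖ + d ∧ (t * ‖P1 y‖) ^ 2 ≤ 2 * t * ‖Q1 f‖ * (‖f‖ + d) + 2 * d ^ 2)
    (hA : ∀ η : ℝ, 0 < η → ∃ f, ‖ι f‖ = 1 ∧ ‖Q0 (ι f)‖ ≤ η ∧ ‖P0 (ι f)‖ ≤ η) {η : ℝ} (hη : 0 < η) :
    ∃ u, ‖u‖ = 1 ∧ ‖(Q1 + P1) u‖ ≤ η := by
  have k0 : 0 < k := by linarith
  have t0 : 0 < 4 * k / η := by positivity
  have t1 : 4 * k / η * η = 4 * k := div_mul_cancel₀ _ hη.ne'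
  generalize 4 * k / η = t at t0 t1
  have d0 : 0 < (128 * t * k ^ 2)⁻¹ := by positivity
  have d1 : 128 * t * k ^ 2 * (128 * t * k ^ 2)⁻¹ = 1 := mul_inv_cancel₀ (by positivity)
  generalize (128 * t * k ^ 2)⁻¹ = δ at d0 d1
  obtain ⟨f, f1, f2, f3⟩ := hA δ d0
  obtain ⟨u, y, r, c1, c2, c3, c4, c5, c6⟩ := near t (1 / 8) f t0 (by norm_num)
  have f4 : ‖f‖ + 1 / 8 ≤ 2 * k := by
    have := i2 f
    rw [f1] at this
    linarith
  have lo := ONE.low ι i1 (y' := ι y) (p' := P0 (ι f)) t0.le c1 f1 (by rw [hq, ad])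
  have b3 : ‖Q1 f‖ ≤ k * δ := (i2 _).trans (by rw [hq]; gcongr)
  have b4 : t * ‖P1 y‖ ≤ 1 / 4 := by
    refine ONE.sq2 (c6.trans ?_) (by norm_num)
    have := mul_le_mul_of_nonneg_left (mul_le_mul b3 f4 (by positivity) (by positivity)) t0.le
    nlinarith
  have b5 : t * (‖ι y‖ * ‖P0 (ι f)‖) ≤ 1 / 8 := by
    have := mul_le_mul_of_nonneg_left (mul_le_mul (((i1 y).trans c4).trans f4) f3 (norm_nonneg _)
      (by positivity)) t0.le
    have h2 : t * k * δ ≤ t * k * δ * k := le_mul_of_one_le_right (by positivity) k1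
    nlinarith
  have u1 : 1 / 2 ≤ ‖u‖ := by linarith [i1 u]
  refine ⟨_, nrm (Q1 + P1) (u := u) (by linarith) (le_of_mul_le_mul_left ?_ t0)⟩
  rw [LinearMap.add_apply, ← mul_assoc, t1]
  nlinarith

/-- Exchange of the parity. -/
theorem exs {V : Type} [SeminormedAddCommGroup V] [InnerProductSpace ℂ V] {D e : V →ₗ[ℂ] V}
    (h : Lev D e) {s : ℝ} (hs : s * s = 1) (hk : IDX.wk D e (-s) = ⊥ → IDX.wk D e s = ⊥) {f : V}
    (f1 : ‖f‖ = 1) (hf : ‖e f - (s : ℂ) • f‖ = 0) {η : ℝ} (hη : 0 < η) (f2 : ‖D f‖ ≤ η) :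
    ∃ w, ‖w‖ = 1 ∧ ‖D w‖ ≤ 2 * η ∧ e w = ((-s : ℝ) : ℂ) • w := by
  by_cases c : IDX.wk D e (-s) = ⊥
  swap
  · exact I31.aps h (by rw [neg_mul_neg, hs]) c (by positivity)
  have k := IDX.PRE.dk h
  have hs' : (s : ℂ) * s = 1 := by exact_mod_cast hs
  have n1 : ‖(s : ℂ)‖ = 1 := by
    have := congrArg norm hs'
    rw [norm_mul, norm_one] at this
    nlinarith [norm_nonneg (s : ℂ)]
  obtain ⟨w, hw⟩ := I31.rng h hs (hk c) (f := f) (fun w => by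
    have := norm_inner_le_norm (𝕜 := ℂ) (e f - (s : ℂ) • f) w
    rwa [hf, zero_mul, norm_le_zero_iff, inner_sub_left, sub_eq_zero, h.es, inner_smul_left,
      Complex.conj_ofReal] at this) (d := 1 / 3) (by norm_num)
  have a1 : ‖(2 : ℂ) • f - D (w - (s : ℂ) • e w)‖ ≤ 2 / 3 := by
    have : (2 : ℂ) • f - D (w - (s : ℂ) • e w) = (f - D w) + (s : ℂ) • e (f - D w) +
        (s : ℂ) • (D (e w) + e (D w)) - (s : ℂ) • (e f - (s : ℂ) • f) := by
      rw [map_sub, map_smul, map_sub, smul_sub, smul_add, smul_sub, smul_smul, hs', one_smul,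
        two_smul]
      abel
    rw [this]
    refine (norm_sub_le _ _).trans ?_
    refine (add_le_add_left ((norm_add_le _ _).trans (add_le_add_left (norm_add_le _ _) _)) _).trans ?_
    rw [norm_smul, norm_smul, norm_smul, n1, k.nrm, h.od, hf]
    linarith
  have e1 : e (w - (s : ℂ) • e w) = ((-s : ℝ) : ℂ) • (w - (s : ℂ) • e w) := by
    rw [map_sub, map_smul, h.ee, ofReal_neg, neg_smul, smul_sub, smul_smul, hs', one_smul]
    abel
  generalize w - (s : ℂ) • e w = u at a1 e1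
  have n2 : ‖(2 : ℂ) • f‖ = 2 := by rw [norm_smul, f1, Complex.norm_ofNat, mul_one]
  have a2 : ‖D u‖ ≤ 8 / 3 := by
    have := norm_sub_norm_le (D u) ((2 : ℂ) • f)
    rw [norm_sub_rev, n2] at this
    linarith
  have a3 : 4 / 3 ≤ ‖u‖ * η := by
    have b1 := norm_inner_le_norm (𝕜 := ℂ) ((2 : ℂ) • f - D u) f
    have b2 := norm_inner_le_norm (𝕜 := ℂ) u (D f)
    have b3 : inner ℂ ((2 : ℂ) • f - D u) f - inner ℂ u (D f) = 2 := by
      rw [inner_sub_left, h.sk, inner_smul_left, inner_self_eq_norm_sq_to_K, f1]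
      simp [map_ofNat]
    have b4 := norm_sub_le (inner ℂ ((2 : ℂ) • f - D u) f) (inner ℂ u (D f))
    rw [b3, Complex.norm_ofNat] at b4
    rw [f1] at b1
    have := mul_le_mul_of_nonneg_left f2 (norm_nonneg u)
    linarith
  have p : 0 < ‖u‖ := by
    by_contra c
    rw [le_antisymm (not_lt.1 c) (norm_nonneg u)] at a3
    linarith
  obtain ⟨r1, r2⟩ := nrm D (η := 2 * η) p (by linarith)
  exact ⟨_, r1, r2, by rw [map_smul, e1, smul_comm]⟩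

end X31

variable {n : ℕ} {M : Mf n} [M.Cpt] {H : M.Fam (Mat n)}

/-- Almost harmonic sections do not depend on the smooth weight. -/
theorem ahw {L : M.Co} {φ : M.Fam ℝ} {w : M.X → ℝ} (hH : M.Kae H) (hφ : M.WtC L φ) (hw : M.Sm w)
    (hA : Ah H L φ) : Ah H L (aw M φ w) := by
  intro η hη
  have hm := hH.toMet
  obtain ⟨o0, l0, a0⟩ := aLAM n M H L φ hm hφ
  obtain ⟨⟨hψ, hh⟩, a1⟩ := And.intro ((a0 w).1 hw) (a0 w).2
  obtain ⟨o1, l1, -⟩ := aLAM n M H L _ hm hψ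
  let g0 : Geo M (Fs n) := ⟨H, lam H L φ, hm, o0⟩
  let g1 : Geo M (Fs n) := ⟨H, lam H L (aw M φ w), hm, o1⟩
  let ι : Pre g1 →ₗ[ℂ] Pre g0 :=
    ⟨⟨fun u => Pre.mk u.val ⟨u.sec.sm, u.sec.cmp⟩, fun _ _ => rfl⟩, fun _ _ => rfl⟩
  obtain ⟨K, K0, hK⟩ := hw.exists_bound
  have K1 : 1 ≤ Real.exp K := Real.one_le_exp K0.le
  have ex : ∀ x, 1 ≤ Real.exp K ^ 2 * Real.exp (-w x) ∧ Real.exp (-w x) ≤ Real.exp K ^ 2 :=
    fun x => by
      have := abs_le.1 (hK x)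
      rw [← Real.exp_nat_mul, ← Real.exp_add]
      exact ⟨Real.one_le_exp (by push_cast; linarith), Real.exp_le_exp.2 (by push_cast; linarith)⟩
  have i1 : ∀ a, ‖ι a‖ ≤ Real.exp K * ‖a‖ := fun a => by
    refine ONE.sq2 ?_ (by positivity)
    rw [mul_pow, Pre.norm_sq, Pre.norm_sq, Bun.nr, Bun.nr, ← integral_const_mul]
    refine integral_mono (ONE.itg (ι a)) ((ONE.itg a).const_mul _) fun x => ?_
    have := (a1 a.val a.val x).2.1
    have p := Pre.pn_nonneg (g := g0) a.val x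
    change (lam H L φ).pn a.val x ≤ _ * (lam H L (aw M φ w)).pn a.val x
    change 0 ≤ (lam H L φ).pn a.val x at p
    rw [this]
    nlinarith [(ex x).1]
  have i2 : ∀ a, ‖a‖ ≤ Real.exp K * ‖ι a‖ := fun a => by
    refine ONE.sq2 ?_ (by positivity)
    rw [mul_pow, Pre.norm_sq, Pre.norm_sq, Bun.nr, Bun.nr, ← integral_const_mul]
    refine integral_mono (ONE.itg a) ((ONE.itg (ι a)).const_mul _) fun x => ?_
    have := (a1 a.val a.val x).2.1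
    have p := Pre.pn_nonneg (g := g0) a.val x
    change (lam H L (aw M φ w)).pn a.val x ≤ _ * (lam H L φ).pn a.val x
    change 0 ≤ (lam H L φ).pn a.val x at p
    rw [this]
    nlinarith [(ex x).2]
  have q0 : ∀ W, g0.b.Sec W → g0.b.Sec ((oQ H).ap W) := fun W h => (aSQ n M H L _ W hm h).1
  have q1 : ∀ W, g1.b.Sec W → g1.b.Sec ((oQ H).ap W) := fun W h => (aSQ n M H L _ W hm h).1
  have p0 : ∀ W, g0.b.Sec W → g0.b.Sec ((oP H φ).ap W) := fun W h => aSP n M H L _ W hm hφ h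
  have p1 : ∀ W, g1.b.Sec W → g1.b.Sec ((oP H (aw M φ w)).ap W) := fun W h =>
    aSP n M H L _ W hm hψ h
  obtain ⟨-, -, s0⟩ := aSKW n M H L φ hH hφ
  obtain ⟨k1, -, s1⟩ := aSKW n M H L _ hH hψ
  have eD : ∀ s : Pre g1, Pre.op (g := g1) _ k1.sec s = Pre.op _ q1 s + Pre.op _ p1 s := fun s =>
    Pre.ext (funext fun e => funext fun z => by
      show (if e ∈ M.C ∧ z ∈ e.target then (oD H (aw M φ w)).ap s.val e z else 0) =
        (if e ∈ M.C ∧ z ∈ e.target then (oQ H).ap s.val e z else 0) +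
        if e ∈ M.C ∧ z ∈ e.target then (oP H (aw M φ w)).ap s.val e z else 0
      by_cases c : e ∈ M.C ∧ z ∈ e.target
      · simp only [if_pos c]
        exact (s1 _ s.sec).1 e z
      · simp only [if_neg c, add_zero])
  have ort : ∀ a b : Pre g1, inner ℂ (Pre.op _ q1 a) (Pre.op _ p1 b) = 0 := fun a b =>
    (ONE.ip_op q1 p1 a b).2.2.trans ((s1 _ a.sec).2.1 _ b.sec)
  have near := aNEAR (Pre g1) (Pre.op _ p1) (Pre.op _ q1) (fun a b => by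
    rw [(ONE.ip_op q1 p1 a b).1, (ONE.ip_op q1 p1 a b).2.1]
    exact aADJ n M H L _ _ _ hH hψ a.sec b.sec) ort fun t d f hd => by
      simpa only [eD] using (aDNS (Pre g1) (Pre.op (g := g1) _ k1.sec) (Pre.op_skew (g := g1) k1)
        (aWS n M _ g1 _ k1)).1 t d f hd
  have hι : ∀ a, ι (Pre.op _ q1 a) = Pre.op _ q0 (ι a) := fun a => rfl
  have ad : ∀ a b : Pre g0, inner ℂ (Pre.op _ q0 a) b = -inner ℂ a (Pre.op _ p0 b) := fun a b => by
    rw [(ONE.ip_op q0 p0 a b).1, (ONE.ip_op q0 p0 a b).2.1]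
    exact aADJ n M H L _ _ _ hH hφ a.sec b.sec
  have su : ∀ W h, ∃ f, ι f = Pre.mk (g := g0) W h := fun W h =>
    ⟨Pre.mk W ⟨h.sm, h.cmp⟩, rfl⟩
  clear_value ι
  generalize Real.exp K = k at K1 i1 i2
  have k0 : 0 < k := by linarith
  have nk : ∀ a, ‖(((k⁻¹ : ℝ) : ℂ) • ι) a‖ = k⁻¹ * ‖ι a‖ := fun a => by
    rw [LinearMap.smul_apply, norm_smul, norm_real, Real.norm_of_nonneg (by positivity)]
  obtain ⟨u, u1, u2⟩ := X31.chg (((k⁻¹ : ℝ) : ℂ) • ι) (k := k * k) (by nlinarith)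
    (fun a => by rw [nk, inv_mul_le_iff₀ k0]; exact i1 a)
    (fun a => by rw [nk, mul_assoc, mul_inv_cancel_left₀ k0.ne']; exact i2 a)
    (Q0 := Pre.op _ q0) (P0 := Pre.op _ p0)
    (fun a => by rw [LinearMap.smul_apply, LinearMap.smul_apply, hι, map_smul]) ad near
    (fun δ hδ => by
      obtain ⟨W, hW, n1, n2⟩ := hA (δ ^ 2) (by positivity)
      obtain ⟨f, hf⟩ := su W hW
      have e : (((k⁻¹ : ℝ) : ℂ) • ι) ((k : ℂ) • f) = Pre.mk (g := g0) W hW := by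
        rw [LinearMap.smul_apply, map_smul, smul_smul, ← ofReal_mul, inv_mul_cancel₀ k0.ne',
          ofReal_one, one_smul, hf]
      rw [(s0 W hW).2.2, show (lam H L φ).nr H ((oQ H).ap W) = _ from
        (ONE.nr_op q0 (Pre.mk (g := g0) W hW)).symm, show (lam H L φ).nr H ((oP H φ).ap W) = _ from
        (ONE.nr_op p0 (Pre.mk (g := g0) W hW)).symm] at n2
      have n3 : ‖Pre.mk (g := g0) W hW‖ ^ 2 = 1 := (Pre.norm_sq _).trans n1
      refine ⟨(k : ℂ) • f, ?_, ?_, ?_⟩ <;> rw [e]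
      · nlinarith [norm_nonneg (Pre.mk (g := g0) W hW)]
      · exact ONE.sq2 (le_trans (le_add_of_nonneg_right (sq_nonneg _)) n2) hδ.le
      · exact ONE.sq2 (le_trans (le_add_of_nonneg_left (sq_nonneg _)) n2) hδ.le)
    (Real.sqrt_pos.2 hη)
  rw [LinearMap.add_apply, ← eD] at u2
  refine ⟨u.val, u.sec, ?_, ?_⟩
  · have := Pre.norm_sq u
    rw [u1, one_pow] at this
    exact this.symm
  · refine (ONE.nr_op (g := g1) k1.sec u).symm.trans_le ?_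
    exact (pow_le_pow_left₀ (norm_nonneg _) u2 2).trans_eq (Real.sq_sqrt hη.le)

omit [M.Cpt] in
theorem aw_neg (φ : M.Fam ℝ) (w : M.X → ℝ) : aw M (aw M φ w) (fun x => -w x) = φ := by
  funext e z
  simp [aw]

/-- The same, both ways. -/
theorem ahw_iff {L : M.Co} {φ : M.Fam ℝ} {w : M.X → ℝ} (hH : M.Kae H) (hφ : M.WtC L φ)
    (hw : M.Sm w) : Ah H L (aw M φ w) ↔ Ah H L φ :=
  ⟨fun h => by
    have := ahw hH (((aLAM n M H L φ hH.toMet hφ).2.2 w).1 hw).1 hw.neg h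
    rwa [aw_neg] at this, ahw hH hφ hw⟩

/-- Exchange of the parity in a tower with finitely many levels with almost harmonic sections. -/
theorem exs0 {L : ℕ → M.Co} {φ : ℕ → M.Fam ℝ} {A : M.Co} {ψ : M.Fam ℝ} (hK : M.Kae H)
    (hN : ∀ b, Nx (L b) (φ b) A ψ (L (b + 1)) (φ (b + 1))) (hf : {b | Ah H (L b) (φ b)}.Finite)
    (a : ℕ) {s : ℂ} (hs : s = 1 ∨ s = -1) {W : M.Fam (Fs n → ℂ)} (hW : (lam H (L a) (φ a)).Sec W)
    (hp : Pa M s W) (w1 : (lam H (L a) (φ a)).nr H W = 1) {η : ℝ} (hη : 0 < η)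
    (w2 : (lam H (L a) (φ a)).nr H ((oD H (φ a)).ap W) ≤ η) :
    ∃ W', (lam H (L a) (φ a)).Sec W' ∧ Pa M (-s) W' ∧ (lam H (L a) (φ a)).nr H W' = 1 ∧
      (lam H (L a) (φ a)).nr H ((oD H (φ a)).ap W') ≤ 4 * η := by
  have hH := hK.toMet
  have ob := (aLAM n M H _ _ hH (hN a).wl).1
  have hD := (aSKW n M H _ _ hK (hN a).wl).1
  obtain ⟨ε, hε, hl⟩ := IDX.bLEV aSKW aWS aREL aDNS IDX.bPAR n M H _ _ hH ob hD hK (hN a).wl
  obtain ⟨f1, f2⟩ := idx31 hK hN hf a hH ob hD ε hε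
  obtain ⟨r, rfl, hr, r1⟩ : ∃ r : ℝ, s = r ∧ r * r = 1 ∧ (r = 1 ∨ r = -1) := by
    rcases hs with rfl | rfl
    · exact ⟨1, by simp, by simp, by simp⟩
    · exact ⟨-1, by simp, by simp, by simp⟩
  let g := geo (L a) (φ a) hH ob
  obtain ⟨w, v1, v2, v3⟩ := X31.exs hl hr (f := Pre.mk W hW) (fun c => by
      have := f1 r
      have := f1 (-r)
      rw [← Submodule.finrank_eq_zero] at c ⊢
      rcases r1 with rfl | rfl
      · rwa [f2]
      · rwa [neg_neg, f2] at c)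
    (by
      have : ‖Pre.mk (g := g) W hW‖ ^ 2 = 1 := (Pre.norm_sq _).trans w1
      nlinarith [norm_nonneg (Pre.mk (g := g) W hW)])
    ((IDX.st_INJ n M _ g _).2 fun e he z hz => by
      beta_reduce
      rw [Pre.val_sub, Pre.val_smul, hε]
      exact sub_eq_zero.2 (hp e he z hz)) (Real.sqrt_pos.2 hη)
    (ONE.sq2 (((ONE.nr_op (g := g) hD.sec (Pre.mk W hW)).trans_le w2).trans_eq
      (Real.sq_sqrt hη.le).symm) (Real.sqrt_nonneg _))
  refine ⟨w.val, w.sec, fun e he z hz => ?_, ?_, ?_⟩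
  · rw [← ofReal_neg]
    exact congrFun (congrFun ((hε w).symm.trans (congrArg Pre.val v3)) e) z
  · have := Pre.norm_sq w
    rw [v1, one_pow] at this
    exact this.symm
  · refine (ONE.nr_op (g := g) hD.sec w).symm.trans_le ?_
    refine (pow_le_pow_left₀ (norm_nonneg _) v2 2).trans_eq ?_
    rw [mul_pow, Real.sq_sqrt hη.le]
    norm_num

/-- The same for every smooth change of the weight. -/
theorem exs31 {L : ℕ → M.Co} {φ : ℕ → M.Fam ℝ} {A : M.Co} {ψ : M.Fam ℝ} (hK : M.Kae H)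
    (hN : ∀ b, Nx (L b) (φ b) A ψ (L (b + 1)) (φ (b + 1))) (hf : {b | Ah H (L b) (φ b)}.Finite)
    (a : ℕ) {u : M.X → ℝ} (hu : M.Sm u) {s : ℂ} (hs : s = 1 ∨ s = -1) {W : M.Fam (Fs n → ℂ)}
    (hW : (lam H (L a) (aw M (φ a) u)).Sec W) (hp : Pa M s W)
    (w1 : (lam H (L a) (aw M (φ a) u)).nr H W = 1) {η : ℝ} (hη : 0 < η)
    (w2 : (lam H (L a) (aw M (φ a) u)).nr H ((oD H (aw M (φ a) u)).ap W) ≤ η) :
    ∃ W', (lam H (L a) (aw M (φ a) u)).Sec W' ∧ Pa M (-s) W' ∧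
      (lam H (L a) (aw M (φ a) u)).nr H W' = 1 ∧
      (lam H (L a) (aw M (φ a) u)).nr H ((oD H (aw M (φ a) u)).ap W') ≤ 4 * η := by
  have w := fun b => (((aLAM n M H _ _ hK.toMet (hN b).wl).2.2 u).1 hu).1
  refine exs0 (φ := fun b => aw M (φ b) u) (A := A) (ψ := ψ) hK
    (fun b => ⟨w b, (hN b).wa, w (b + 1), (hN b).c, fun e he z hz => ?_⟩)
    (hf.subset fun b hb => (ahw_iff hK (hN b).wl hu).1 hb) a hs hW hp w1 hη w2
  have := (hN b).w e he z hz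
  simp only [aw, Pi.add_apply] at this ⊢
  rw [this]
  ring

end Pool.Agent.Lib.N4S
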