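import Pool.Agent.Lib.N4S.Defs
import Pool.Agent.Lib.NU4.B_IBP
import Pool.Agent.Lib.NU4.B_FK

/-! Project n4s: the test section attached to a second metric. -/

open scoped Classical Topology ContDiff ComplexOrder Matrix
open Set Filter MeasureTheory

noncomputable section

namespace Pool.Agent.Lib.N4S.L5

open Pool.Agent.Lib.SV (E)
open Pool.Agent.Lib.HS32 Pool.Agent.Lib.HLK Pool.Agent.Lib.F4 Pool.Agent.Lib.NU4
open Pool.Agent.Lib.K3E (kan wk lk)

variable {n : ℕ} {M : Mf n} {H G : M.Fam (Mat n)} {L : M.Co} {φ : M.Fam ℝ}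
  {W U : M.Fam (Fs n → ℂ)}

/-- The change of the metric. -/
def ty (H G : M.Fam (Mat n)) (U : M.Fam (Fs n → ℂ)) : M.Fam (Fs n → ℂ) :=
  fun e z => La ((H e z)⁻¹ * G e z) *ᵥ U e z

theorem sec_ty (hH : M.Met H) (hG : M.Ten G) (hU : (lam H L φ).Sec U) :
    (lam H L φ).Sec (ty H G U) where
  sm e he z hz := ADJ.sm_mv ((aFK3 n (fun w => (H e w)⁻¹ * G e w) z).2
    (((hH.sm e he z hz).inv (hH.det_ne e he z hz)).mul (hG.sm e he z hz))).1 (hU.sm e he z hz)
  cmp e he e' he' x hx hx' := by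
    have j := ((mTR n M).2.1 e he e' he' x hx hx').2.1
    have d := hH.det_ne e he _ (e.map_source hx)
    have k : (H e (e x))⁻¹ * G e (e x) * M.J e e' x =
        M.J e e' x * ((H e' (e' x))⁻¹ * G e' (e' x)) := by
      have jt : (M.J e e' x)ᴴ.det ≠ 0 := by
        rw [Matrix.det_conjTranspose]
        exact star_ne_zero.2 j
      rw [hH.cmp e he e' he' x hx hx', hG.cmp e he e' he' x hx hx', Matrix.mul_inv_rev,
        Matrix.mul_inv_rev]
      simp only [Matrix.mul_assoc, Matrix.mul_nonsing_inv_cancel_left _ _ j.isUnit,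
        Matrix.nonsing_inv_mul_cancel_left _ _ jt.isUnit]
    simp only [ty, hU.cmp e he e' he' x hx hx', lam, Matrix.smul_mulVec, Matrix.mulVec_smul,
      Matrix.mulVec_mulVec, Matrix.smul_mul, ← ((aFK2 n).2 _).2.2.1, k]

theorem div0 (hG : M.Kae G) {e : M.Ch} (he : e ∈ M.C) {z : E n} (hz : z ∈ e.target)
    {y : E n → Fs n → ℂ} (hy : ContDiffAt ℝ ∞ y z) (τ : Fs n → ℂ) :
    ∑ l, dz l (fun w => star (y w) ⬝ᵥ La (G e w) *ᵥ an l *ᵥ τ) z =
      ∑ l, star (dzbv l y z) ⬝ᵥ La (G e z) *ᵥ an l *ᵥ τ := by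
  obtain ⟨sL, dLa⟩ := (aFK3 n (G e) z).2 (hG.sm e he z hz)
  have hd := hG.toMet.det_ne e he z hz
  have h0 := ADJ.sym_zero aFK1 (g := fun l => gam (G e) l z) fun i j l => by
    simp only [gam, Matrix.mul_apply]
    exact Finset.sum_congr rfl fun a _ => by rw [hG.cl e he z hz a j l]
  have hl : ∀ l, dz l (fun w => star (y w) ⬝ᵥ La (G e w) *ᵥ an l *ᵥ τ) z =
      star (dzbv l y z) ⬝ᵥ La (G e z) *ᵥ an l *ᵥ τ +
        star (y z) ⬝ᵥ La (G e z) *ᵥ (dL (gam (G e) l z) * an l) *ᵥ τ := fun l => by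
    have d2 : (Matrix.of fun i j => dz l (fun w => La (G e w) i j) z) =
        La (G e z) * dL (gam (G e) l z) := by
      ext i j
      exact (dLa hd l i j).1
    have d3 : dzv l (fun _ : E n => an l *ᵥ τ) z = 0 := funext fun i => dz_const _
    rw [ADJ.dz_dot l hy (ADJ.sm_mv sL contDiffAt_const), ADJ.dzv_mv l sL contDiffAt_const, d2, d3]
    simp only [Matrix.mulVec_zero, add_zero, ← Matrix.mulVec_mulVec]
  rw [Finset.sum_congr rfl fun l _ => hl l, Finset.sum_add_distrib, ← dotProduct_sum,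
    ← Matrix.mulVec_sum, ← Matrix.sum_mulVec, h0, Matrix.zero_mulVec, Matrix.mulVec_zero,
    dotProduct_zero, add_zero]

theorem q_ty (hH : M.Kae H) (hG : M.Kae G) (hU : (lam H L φ).Sec U) : M.All fun e z => ∀ τ,
    star ((oQ H).ap (ty H G U) e z) ⬝ᵥ La (H e z) *ᵥ τ =
      ∑ l, star (dzbv l (U e) z) ⬝ᵥ La (G e z) *ᵥ an l *ᵥ τ := fun e he z hz τ => by
  rw [← div0 hG he hz (hU.sm e he z hz) τ]
  have ev : ∀ l, (fun w => star (U e w) ⬝ᵥ La (G e w) *ᵥ an l *ᵥ τ) =ᶠ[𝓝 z]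
      fun w => star (ty H G U e w) ⬝ᵥ La (H e w) *ᵥ an l *ᵥ τ := fun l => by
    filter_upwards [e.open_target.mem_nhds hz] with w hw
    have k : ((H e w)⁻¹ * G e w)ᴴ * H e w = G e w := by
      rw [Matrix.conjTranspose_mul, (hG.herm e he w hw).eq, Matrix.conjTranspose_nonsing_inv,
        (hH.herm e he w hw).eq, Matrix.mul_assoc,
        Matrix.nonsing_inv_mul _ (hH.toMet.det_ne e he w hw).isUnit, Matrix.mul_one]
    rw [ty, Matrix.star_mulVec, ← Matrix.dotProduct_mulVec, Matrix.mulVec_mulVec _ (La _)ᴴ,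
      ← ((aFK2 n).2 _).1, ← ((aFK2 n).2 _).2.2.1, k]
  rw [Finset.sum_congr rfl fun l _ => dz_congr (ev l),
    div0 hH he hz ((sec_ty hH.toMet hG.toTen hU).sm e he z hz) τ]
  simp only [Op.ap, oQ, Matrix.zero_mulVec, zero_add, add_zero, star_sum, sum_dotProduct]
  refine Finset.sum_congr rfl fun l _ => ?_
  rw [Matrix.star_mulVec, ← Matrix.dotProduct_mulVec, Matrix.mulVec_mulVec,
    ADJ.up aFK2 (hH.pos e he z hz) l, Matrix.mulVec_mulVec]

theorem d_iot {v : M.X → ℝ} (hv : M.Sm v) (hW : (lam H L φ).Sec W) {e : M.Ch} (he : e ∈ M.C)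
    {z : E n} (hz : z ∈ e.target) (hh : HolV (W e) z ∨ ∃ c, M.lc v e =ᶠ[𝓝 z] fun _ => c)
    (l : Fin n) : dzbv l (iot M v W e) z = ∑ k, M.hs v e z l k • an k *ᵥ W e z := by
  have a : iot M v W e = fun w => ∑ k, dz k (M.lc v e) w • an k *ᵥ W e w := by
    funext w
    simp only [iot, anv, gd, Matrix.sum_mulVec, Matrix.smul_mulVec]
  have s := hW.sm e he z hz
  have p := fun k => cd_dz (hv.lc e he z hz) k
  rw [a, BOC.dzbv_sum fun k => BOC.sm_sm (p k) _ s]
  refine Finset.sum_congr rfl fun k _ => ?_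
  rw [BOC.dzbv_sm (p k) _ s]
  rcases hh with hh | ⟨c, hh⟩
  · rw [(I57.hz0 hh l).eq_of_nhds, Matrix.mulVec_zero, smul_zero, add_zero]
    rfl
  · rw [(dz_congr hh).trans (dz_const c), zero_smul, add_zero]
    rfl

/-- The product of the test section with the multivector. -/
theorem pp_ty {v : M.X → ℝ} (hH : M.Kae H) (hG : M.Kae G) (hv : M.Sm v) (hW : (lam H L φ).Sec W)
    (hh : M.All fun e z => HolV (W e) z ∨ ∃ c, M.lc v e =ᶠ[𝓝 z] fun _ => c) (x : M.X) :
    ((lam H L φ).pp ((oQ H).ap (ty H G (iot M v W))) W x).re =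
      Real.exp (-M.ev φ x) * cg (M.ev G x) (M.ev (M.hs v) x) (M.ev W x) := by
  have he := Mf.ch_mem x
  have hz := Mf.ch_tgt x
  have k := q_ty hH hG (I20.sec_iot st_FK H L φ hv hW) _ he _ hz (M.ev W x)
  have hm : (La (M.ev G x))ᴴ = La (M.ev G x) := by
    rw [← ((aFK2 n).2 _).1, (hG.toMet.ev_pos x).1.eq]
  simp only [Bun.pp, lam, Mf.ev, Matrix.smul_mulVec, dotProduct_smul, smul_eq_mul,
    Complex.re_ofReal_mul] at k hm ⊢
  rw [k, cg, ← Complex.conj_re, Finset.sum_comm]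
  congr 2
  simp only [d_iot hv hW he hz (hh _ he _ hz), star_sum, sum_dotProduct, star_smul,
    smul_dotProduct, smul_eq_mul, map_sum, map_mul, RCLike.star_def, Complex.conj_conj]
  refine Finset.sum_congr rfl fun l _ => Finset.sum_congr rfl fun k _ => congrArg _ ?_
  rw [← RCLike.star_def, Matrix.dotProduct_mulVec, ← hm, ← Matrix.star_mulVec,
    Matrix.star_dotProduct, star_star, hm]

end Pool.Agent.Lib.N4S.L5
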