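import Pool.Agent.Lib.N4S.Alg81

/-! Project n4s: quadrature identities for the norm of a multivector, in every dimension. -/

open scoped Classical ComplexOrder Matrix
open Set Polynomial

noncomputable section

namespace Pool.Agent.Lib.N4S.L5

open Pool.Agent.Lib.SV (E)
open Pool.Agent.Lib.HS32 Pool.Agent.Lib.HLK Pool.Agent.Lib.F4 Pool.Agent.Lib.NU4

theorem quad (N : ℕ) (μ : ℕ → ℝ) : ∃ s c : Fin (N + 1) → ℝ, (∀ i, s i ∈ Ioc (0 : ℝ) 1) ∧
    ∀ p : ℂ[X], p.natDegree ≤ N → ∑ i, c i * (p.eval (s i : ℂ)).re =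
      (∑ k ∈ Finset.range (N + 1), p.coeff k * μ k).re := by
  have q : (0 : ℝ) < N + 1 := by positivity
  obtain ⟨s, hs⟩ : ∃ s : Fin (N + 1) → ℝ,
      s = fun i : Fin (N + 1) => ((i : ℕ) + 1 : ℝ) / (N + 1) := ⟨_, rfl⟩
  have inj : Function.Injective s := fun i j h => by
    simp only [hs, div_left_inj' q.ne', add_left_inj, Nat.cast_inj] at h
    exact Fin.ext h
  have d := (Matrix.det_vandermonde_ne_zero_iff.2 inj).isUnit
  obtain ⟨c, hc⟩ : ∃ c : Fin (N + 1) → ℝ,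
      c ᵥ* Matrix.vandermonde s = fun k : Fin (N + 1) => μ k :=
    ⟨(fun k : Fin (N + 1) => μ k) ᵥ* (Matrix.vandermonde s)⁻¹, by
      rw [Matrix.vecMul_vecMul, Matrix.nonsing_inv_mul _ d, Matrix.vecMul_one]⟩
  refine ⟨s, c, fun i => ?_, fun p hp => ?_⟩
  · have : ((i : ℕ) : ℝ) ≤ N := by exact_mod_cast Nat.lt_succ_iff.1 i.2
    rw [hs]
    exact ⟨by positivity, (div_le_one q).2 (by linarith)⟩
  · simp only [← Complex.re_ofReal_mul, ← Complex.re_sum, eval_eq_sum_range' (Nat.lt_succ_of_le hp),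
      Finset.mul_sum, Finset.sum_range]
    rw [Finset.sum_comm]
    refine congrArg _ (Finset.sum_congr rfl fun k _ => ?_)
    have := congrFun hc k
    simp only [Matrix.vecMul, dotProduct, Matrix.vandermonde_apply] at this
    rw [← this]
    push_cast
    rw [Finset.mul_sum]
    exact Finset.sum_congr rfl fun i _ => by ring

theorem cg_q (n : ℕ) : ∃ s c : Fin (n + 1) → ℝ, (∀ i, s i ∈ Ioc (0 : ℝ) 1) ∧
    ∀ (A H B : Mat n) (W : Fs n → ℂ), cg A B W = ∑ i, c i * cg (A + s i • H) B W := by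
  obtain ⟨s, c, h0, h⟩ := quad n fun k => if k = 0 then 1 else 0
  refine ⟨s, c, h0, fun A H B W => ?_⟩
  let φ : Mx (Fs n) →ₗ[ℂ] ℂ :=
    ⟨⟨fun Y => ∑ k, ∑ l, B l k * (star (an l *ᵥ W) ⬝ᵥ Y *ᵥ an k *ᵥ W), fun Y Z => by
      simp only [Matrix.add_mulVec, dotProduct_add, mul_add, Finset.sum_add_distrib]⟩, fun c Y => by
      simp only [Matrix.smul_mulVec, dotProduct_smul, smul_eq_mul, RingHom.id_apply, Finset.mul_sum,
        mul_left_comm]⟩
  obtain ⟨p, p1, p2⟩ := R81.poly A H φ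
  have e : ∀ t : ℝ, cg (A + t • H) B W = (p.eval (t : ℂ)).re := fun t => by
    rw [← p2, Complex.coe_smul]
    rfl
  have e0 := e 0
  rw [zero_smul, add_zero] at e0
  simp only [e, e0, h p p1]
  simp [Finset.sum_range_succ', coeff_zero_eq_eval_zero]

theorem ng_q (n : ℕ) : ∃ s c : Fin (n + 1) → ℝ, (∀ i, s i ∈ Ioc (0 : ℝ) 1) ∧
    ∀ (A B : Mat n) (W : Fs n → ℂ),
      ng (A + B) W - ng A W = ∑ i, c i * cg (A + s i • B) B W := by
  obtain ⟨s, c, h0, h⟩ := quad n fun k => ((k : ℝ) + 1)⁻¹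
  refine ⟨s, c, h0, fun A B W => ?_⟩
  let φ : Mx (Fs n) →ₗ[ℂ] ℂ :=
    ⟨⟨fun Y => star W ⬝ᵥ Y *ᵥ W, fun Y Z => by
      simp only [Matrix.add_mulVec, dotProduct_add]⟩, fun c Y => by
      simp only [Matrix.smul_mulVec, dotProduct_smul, RingHom.id_apply]⟩
  obtain ⟨p, p1, p2⟩ := R81.poly A B φ
  have b : B = ∑ l, Matrix.vecMulVec (Pi.single l 1) (B l) := by
    ext i j
    simp [Matrix.sum_apply, Matrix.vecMulVec_apply, Pi.single_apply]
  have d : ∀ t : ℝ, cg (A + t • B) B W = ((derivative p).eval (t : ℂ)).re := fun t => by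
    have h := R81.der Finset.univ (fun l => Pi.single l 1) B A φ t
    rw [← b, funext p2] at h
    rw [← h.unique (p.hasDerivAt _), Complex.coe_smul, cg, Finset.sum_comm, map_sum]
    refine congrArg _ (Finset.sum_congr rfl fun l _ => ?_)
    change _ = star W ⬝ᵥ _ *ᵥ W
    rw [R81.crv_single, ← Matrix.mulVec_mulVec, ← Matrix.mulVec_mulVec,
      Matrix.dotProduct_mulVec _ (cr l),
      show star W ᵥ* cr l = star (an l *ᵥ W) by rw [Matrix.star_mulVec, an,
        Matrix.conjTranspose_conjTranspose]]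
    simp only [anv, Matrix.sum_mulVec, Matrix.smul_mulVec, Matrix.mulVec_sum, Matrix.mulVec_smul,
      dotProduct_sum, dotProduct_smul, smul_eq_mul]
  have e : ∀ t : ℝ, ng (A + t • B) W = (p.eval (t : ℂ)).re := fun t => by
    rw [← p2, Complex.coe_smul]
    rfl
  have e0 := e 0
  have e1 := e 1
  rw [zero_smul, add_zero] at e0
  rw [one_smul] at e1
  simp only [d, e0, e1, h _ ((natDegree_derivative_le p).trans ((Nat.sub_le _ _).trans p1))]
  rw [← Complex.sub_re, Complex.ofReal_one, Complex.ofReal_zero, ← coeff_zero_eq_eval_zero,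
    eval_eq_sum_range' (n := n + 1 + 1) (by omega), Finset.sum_range_succ', pow_zero, mul_one,
    add_sub_cancel_right]
  refine congrArg _ (Finset.sum_congr rfl fun k _ => ?_)
  have : (k : ℂ) + 1 ≠ 0 := by exact_mod_cast k.succ_ne_zero
  rw [coeff_derivative, one_pow, mul_one]
  push_cast
  rw [mul_assoc, mul_inv_cancel₀ this, mul_one]

end Pool.Agent.Lib.N4S.L5
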