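import Pool.Agent.Lib.N4S.Lb5a
import Pool.Agent.Lib.N4S.Lb5q
import Pool.Agent.Lib.N4S.Alg86
import Pool.Agent.Lib.N4S.Amp23
import Pool.Agent.Lib.N4S.Nb51
import Pool.Agent.Lib.N4S.Kit78
import Pool.Agent.Lib.NU4.B_KIT

/-! Project n4s: integration by parts off the divisors. -/

open scoped Classical Topology ContDiff ComplexOrder Matrix
open Set Filter MeasureTheory

noncomputable section

namespace Pool.Agent.Lib.N4S.L5

open Pool.Agent.Lib.SV (E)
open Pool.Agent.Lib.HS32 Pool.Agent.Lib.HLK Pool.Agent.Lib.F4 Pool.Agent.Lib.NU4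
open Pool.Agent.Lib.K3E (kan wk lk bKAN)

section gen

variable {n : ℕ} {M : Mf n} {H A : M.Fam (Mat n)} {L : M.Co} {φ : M.Fam ℝ}
  {W : M.Fam (Fs n → ℂ)}

theorem ng_sm (hA : M.Ten A) (hφ : M.WtC L φ) (hW : (lam H L φ).Sec W) :
    M.Sm fun x => Real.exp (-M.ev φ x) * ng (M.ev A x) (M.ev W x) := by
  have i : M.Inv fun e z => star (W e z) ⬝ᵥ (lam A L φ).G e z *ᵥ W e z :=
    fun e he e' he' x hx hx' => by
    have h0 := L.ne e he e' he' x hx hx'
    have e1 : ((Real.exp (-φ e' (e' x)) : ℝ) : ℂ) =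
        star (L.c e e' x)⁻¹ * (((Real.exp (-φ e (e x)) : ℝ) : ℂ) * (L.c e e' x)⁻¹) := by
      rw [hφ.cmp e he e' he' x hx hx', neg_add, Real.exp_add, Real.exp_neg (Real.log _),
        Real.exp_log (Complex.normSq_pos.2 h0), Complex.ofReal_mul, Complex.ofReal_inv,
        Complex.normSq_eq_conj_mul_self, star_inv₀, mul_inv, RCLike.star_def]
      ring
    have c : (lam A L φ).G e' (e' x) =
        ((lam H L φ).T e e' x)ᴴ * (lam A L φ).G e (e x) * (lam H L φ).T e e' x := by
      simp only [lam, hA.cmp e he e' he' x hx hx', ((aFK2 n).2 _).2.2.1, ((aFK2 n).2 _).1, e1,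
        Matrix.conjTranspose_smul, Matrix.smul_mul, Matrix.mul_smul, smul_smul]
      exact congrArg (· • _) (by ring)
    beta_reduce
    rw [c, hW.cmp e he e' he' x hx hx', ← Matrix.mulVec_mulVec, ← Matrix.mulVec_mulVec,
      Matrix.dotProduct_mulVec, ← Matrix.star_mulVec]
  have s := (i.sm fun e he z hz => ADJ.sm_dot (hW.sm e he z hz) (ADJ.sm_mv (fun B C =>
    (cd_ofReal (hφ.sm e he z hz).neg.exp).mul (((aFK3 n _ _).2 (hA.sm e he z hz)).1 B C))
      (hW.sm e he z hz))).re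
  refine Eq.subst (motive := fun f => M.Sm f) (funext fun x => ?_) s
  simp only [Mf.ev, lam, ng, Matrix.smul_mulVec, dotProduct_smul, smul_eq_mul,
    Complex.re_ofReal_mul]

theorem ng_lo {B : Mat n} (hB : B.PosSemidef) {t : ℝ} (h0 : 0 ≤ t) (h1 : t ≤ 1) (Y : Fs n → ℂ) :
    t ^ n * ng B Y ≤ ng (t • B) Y := by
  rw [A86.ng_pt B, A86.ng_pt (t • B), Finset.mul_sum]
  refine Finset.sum_le_sum fun q hq => ?_
  rw [A86.ng_smul t B (A86.dg_pt q Y)]
  exact mul_le_mul_of_nonneg_right (pow_le_pow_of_le_one h0 h1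
    (Nat.lt_succ_iff.1 (Finset.mem_range.1 hq))) (A86.ng_nonneg hB _)

theorem ng_hi {B : Mat n} (hB : B.PosSemidef) {t : ℝ} (h0 : 0 ≤ t) (Y : Fs n → ℂ) :
    ng (t • B) Y ≤ (t + 1) ^ n * ng B Y := by
  rw [A86.ng_pt B, A86.ng_pt (t • B), Finset.mul_sum]
  refine Finset.sum_le_sum fun q hq => ?_
  rw [A86.ng_smul t B (A86.dg_pt q Y)]
  exact mul_le_mul_of_nonneg_right ((pow_le_pow_left₀ h0 (by linarith) q).trans
    (pow_le_pow_right₀ (by linarith) (Nat.lt_succ_iff.1 (Finset.mem_range.1 hq))))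
    (A86.ng_nonneg hB _)

theorem kap (hH : M.Met H) (m : ℕ) (x : M.X) :
    Real.exp (-M.ev (wk H m) x) = ((M.ev H x).det.re ^ m)⁻¹ := by
  have p : 0 < (M.ev H x).det.re := Mf.pd_det_re (hH.ev_pos x)
  show Real.exp (-(m * Real.log (M.ev H x).det.re)) = _
  rw [Real.exp_neg, Real.exp_nat_mul, Real.exp_log p]

end gen

variable {n : ℕ} {M : Mf n} {I : Type} [Fintype I] {S : Sd M I} {a : ℝ → M.X → ℝ} {q : Sq}
  {m : ℕ} {T W : M.Fam (Fs n → ℂ)} {K : Set M.X}

theorem cut (hK : Cp S K) (hT : HO S m T) : ∃ W, (lk S.H m).Sec W ∧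
    M.All fun e z => e.symm z ∈ K → W e =ᶠ[𝓝 z] T e := by
  have ss : ∀ s : Finset I, M.Sm fun x => ∏ k ∈ s, sg S.toDk k x := fun s => by
    induction s using Finset.induction_on with
    | empty => simpa using Mf.sm_const (M := M) (1 : ℝ)
    | insert b s hb ih =>
      simp only [Finset.prod_insert hb]
      exact (A23.sg_sm S.toDk b).mul ih
  obtain ⟨s, hs, s1, s0⟩ : ∃ s : M.X → ℝ, M.Sm s ∧ (∀ x ∈ Of S.toDk, 0 < s x) ∧
      ∀ x ∉ Of S.toDk, s x = 0 := ⟨_, ss Finset.univ, fun x hx => Finset.prod_pos fun k _ =>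
        (A23.sg_nn _ k x).lt_of_ne' (hx k), fun x hx => by
      obtain ⟨k, hk⟩ := not_forall.1 hx
      exact Finset.prod_eq_zero (Finset.mem_univ k) (not_not.1 hk)⟩
  obtain ⟨δ, d0, d1⟩ := hK.1.exists_forall_le' hs.continuous.continuousOn
    fun x hx => s1 x (hK.2 hx)
  have sρ : M.Sm fun x => Real.smoothTransition (3 / δ * s x - 1) :=
    Mf.Sm.comp (φ := fun t => Real.smoothTransition (3 / δ * t - 1)) (fun x =>
      (Real.smoothTransition.contDiff.comp (by fun_prop)).contDiffAt) hs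
  have cs : ∀ e ∈ M.C, ∀ z ∈ e.target, ContinuousAt (fun w => 3 / δ * s (e.symm w) - 1) z :=
    fun e he z hz => ((hs e he z hz).continuousAt.const_mul _).sub continuousAt_const
  refine ⟨sm M (fun x => Real.smoothTransition (3 / δ * s x - 1)) T, ⟨fun e he z hz => ?_,
    fun e he e' he' x hx hx' => ?_⟩, fun e he z hz h => ?_⟩
  · by_cases c : e.symm z ∈ Of S.toDk
    · exact (sρ.lc e he z hz).smul (contDiffAt_pi.2 fun B =>
        ((mHOL n _ _).2.2 (hT.hol e he z hz c B)).1)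
    · refine (contDiffAt_const (c := 0)).congr_of_eventuallyEq ?_
      filter_upwards [(cs e he z hz).eventually_lt continuousAt_const
        (show 3 / δ * s (e.symm z) - 1 < 0 by rw [s0 _ c]; norm_num)] with w hw
      simp only [sm, Real.smoothTransition.zero_of_nonpos hw.le, Complex.ofReal_zero, zero_smul]
  · simp only [sm, e.left_inv hx, e'.left_inv hx', Matrix.mulVec_smul]
    by_cases c : x ∈ Of S.toDk
    · rw [K92.tr_eq, ← hT.cmp e he e' he' x hx hx' c]
    · rw [Real.smoothTransition.zero_of_nonpos (by rw [s0 _ c]; norm_num), Complex.ofReal_zero,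
        zero_smul, zero_smul]
  · have k : (1 : ℝ) < 3 / δ * s (e.symm z) - 1 := by
      have := mul_le_mul_of_nonneg_left (d1 _ h) (show 0 ≤ 3 / δ by positivity)
      rw [div_mul_cancel₀ _ d0.ne'] at this
      linarith
    filter_upwards [continuousAt_const.eventually_lt (cs e he z hz) k] with w hw
    simp only [sm, Real.smoothTransition.one_of_one_le hw.le, Complex.ofReal_one, one_smul]

variable (S a q m) in
/-- The density number `j`. -/
def ej (j : ℕ) (x : M.X) : ℝ := Real.exp (-(((m : ℝ) - 1) * pj S a q j x))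

variable (S a q m) in
/-- Continuous functions whose weighted integrals tend to zero. -/
def Z0 (f : M.X → ℝ) : Prop := Continuous f ∧
  Tendsto (fun j => ∫ x, ej S a q m j x * f x ∂M.mu S.H) (hyperfilter ℕ) (𝓝 0)

theorem ej_ct [M.Cpt] (hZ : Zs S a) (j : ℕ) : Continuous (ej S a q m j) :=
  ((K78.pj_sm hZ q j).continuous.const_mul _).neg.rexp

theorem Z0.lin [M.Cpt] (hZ : Zs S a) {f g : M.X → ℝ} (hf : Z0 S a q m f) (hg : Z0 S a q m g)
    (s t : ℝ) : Z0 S a q m fun x => s * f x + t * g x := by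
  have ig := (mMU n M S.H S.kae.toMet).2.2.2.2.1 ℝ
  refine ⟨(hf.1.const_mul s).add (hg.1.const_mul t), ?_⟩
  have k := (hf.2.const_mul s).add (hg.2.const_mul t)
  rw [mul_zero, mul_zero, add_zero] at k
  refine k.congr fun j => ?_
  rw [← integral_const_mul, ← integral_const_mul]
  exact (integral_add ((ig _ ((ej_ct hZ j).mul hf.1)).const_mul s)
    ((ig _ ((ej_ct hZ j).mul hg.1)).const_mul t)).symm.trans
    (integral_congr_ae (Eventually.of_forall fun x => by simp only [Pi.mul_apply]; ring))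

theorem Z0.sum [M.Cpt] (hZ : Zs S a) {ι : Type} (s : Finset ι) (c : ι → ℝ) {f : ι → M.X → ℝ}
    (hf : ∀ i, Z0 S a q m (f i)) : Z0 S a q m fun x => ∑ i ∈ s, c i * f i x := by
  induction s using Finset.induction_on with
  | empty => exact ⟨by simpa using continuous_const, by simpa using tendsto_const_nhds⟩
  | insert b s hb ih => simpa only [Finset.sum_insert hb, one_mul] using (hf b).lin hZ ih (c b) 1

theorem ibp [M.Cpt] (hZ : Zs S a) (hT : HO S m T) (hP : Wp S a q m T) (hK : Cp S K)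
    (hW : (lk S.H m).Sec W) (hE : M.All fun e z => e.symm z ∈ K → W e =ᶠ[𝓝 z] T e)
    {v : M.X → ℝ} (hv : M.Sm v) (h0 : ∀ x ∉ K, v x = 0) {G : M.Fam (Mat n)} (hG : M.Kae G) :
    Z0 S a q m fun x => Real.exp (-M.ev (wk S.H m) x) *
      cg (M.ev G x) (M.ev (M.hs v) x) (M.ev W x) := by
  have hm := S.kae.toMet
  have ok := (aLAM n M S.H _ _ hm (bKAN n M S.H m hm).1).1
  have lc0 : M.All fun e z => e.symm z ∉ K → M.lc v e =ᶠ[𝓝 z] fun _ => 0 := fun e he z hz h => by
    filter_upwards [(e.continuousAt_symm hz).eventually (hK.1.isClosed.isOpen_compl.mem_nhds h)]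
      with w hw
    simp only [Mf.lc, h0 _ hw, Complex.ofReal_zero]
  have hh : M.All fun e z => HolV (W e) z ∨ ∃ c, M.lc v e =ᶠ[𝓝 z] fun _ => c := fun e he z hz => by
    by_cases c : e.symm z ∈ K
    · refine Or.inl fun B => ?_
      filter_upwards [hT.hol e he z hz (hK.2 c) B, (hE e he z hz c).eventually_nhds] with w h1 h2
      exact h1.congr_of_eventuallyEq (h2.mono fun y hy => congrFun hy B)
    · exact Or.inr ⟨0, lc0 e he z hz c⟩
  have sy := sec_ty hm hG.toTen (I20.sec_iot st_FK S.H _ _ hv hW)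
  have y0 : M.All fun e z => e.symm z ∉ K →
      ty S.H G (iot M v W) e =ᶠ[𝓝 z] fun _ => 0 := fun e he z hz h => by
    filter_upwards [(lc0 e he z hz h).eventually_nhds] with w hw
    have : gd (M.lc v e) w = 0 := funext fun k => (dz_congr hw).trans (dz_const 0)
    simp only [ty, iot, this, anv, Pi.zero_apply, zero_smul, Finset.sum_const_zero,
      Matrix.zero_mulVec, Matrix.mulVec_zero]
  have sq := (aSQ n M S.H _ _ _ hm sy).1
  have ct := (ok.pp_rep sq hW).2.continuous
  have e1 := pp_ty S.kae hG hv hW hh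
  have e2 : ∀ x, (lk S.H m).pp ((oQ S.H).ap (ty S.H G (iot M v W))) T x =
      (lk S.H m).pp ((oQ S.H).ap (ty S.H G (iot M v W))) W x := fun x => by
    by_cases c : x ∈ K
    · have := (hE _ (Mf.ch_mem x) _ (Mf.ch_tgt x) (by rwa [Mf.ch_symm])).eq_of_nhds
      simp only [Bun.pp, Mf.ev, this]
    · have k := y0 _ (Mf.ch_mem x) _ (Mf.ch_tgt x) (by rwa [Mf.ch_symm])
      have k2 : ∀ l, dzbv l (ty S.H G (iot M v W) (M.ch x)) (M.ch x x) = 0 := fun l =>
        funext fun B => (dzb_congr (k.mono fun y hy => congrFun hy B)).trans (dzb_const _)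
      simp only [Bun.pp, Mf.ev, BOC.apQ, k2, Matrix.mulVec_zero, smul_zero, Finset.sum_const_zero,
        star_zero, zero_dotProduct]
  refine ⟨(Complex.continuous_re.comp ct).congr e1, ?_⟩
  have k := (Complex.continuous_re.tendsto _).comp (hP _ sy ⟨K, hK, fun x c =>
    (y0 _ (Mf.ch_mem x) _ (Mf.ch_tgt x) (by rwa [Mf.ch_symm])).eq_of_nhds⟩)
  rw [Complex.zero_re] at k
  refine k.congr fun j => ?_
  simp only [Function.comp, e2]
  refine (integral_re ((mMU n M S.H hm).2.2.2.2.1 ℂ _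
    ((Complex.continuous_ofReal.comp (ej_ct (q := q) (m := m) hZ j)).mul ct))).symm.trans ?_
  refine integral_congr_ae (Eventually.of_forall fun x => ?_)
  simp only [Pi.mul_apply, Function.comp, RCLike.re_to_complex, Complex.re_ofReal_mul, e1]

end Pool.Agent.Lib.N4S.L5
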