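import Pool.Agent.Lib.N4S.Lb5b
import Pool.Agent.Lib.N4S.Chi23

/-! Project n4s: the uniform bound for weakly parallel multivectors. -/

open scoped Classical Topology ContDiff ComplexOrder Matrix
open Set Filter MeasureTheory

noncomputable section

namespace Pool.Agent.Lib.N4S.L5

open Pool.Agent.Lib.SV (E)
open Pool.Agent.Lib.HS32 Pool.Agent.Lib.HLK Pool.Agent.Lib.F4 Pool.Agent.Lib.NU4
open Pool.Agent.Lib.K3E (kan wk lk bKAN)

variable {n : ℕ} {M : Mf n} {I : Type} [Fintype I] {S : Sd M I} {a : ℝ → M.X → ℝ} {q : Sq}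
  {m : ℕ} {T W : M.Fam (Fs n → ℂ)} {K : Set M.X}

theorem ej_hi [M.Cpt] (hZ : Zs S a) (h1 : 1 ≤ m) : ∃ C : ℝ, 0 ≤ C ∧ ∀ j, ∀ x ∈ Of S.toDk,
    ej S a q m j x * pw S.toDk m x ≤ C * Real.exp (-(m * a (q.e j) x)) := by
  obtain ⟨B, B0, hB⟩ := S.su.exists_bound
  have m1 : (0 : ℝ) ≤ m - 1 := sub_nonneg.2 (by exact_mod_cast h1)
  refine ⟨Real.exp (m * B), (Real.exp_pos _).le, fun j x hx => ?_⟩
  rw [Nb51.pw_eq hx, ej, ← Real.exp_add, ← Real.exp_add, Real.exp_le_exp]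
  have k1 : ∑ k, al S.toDk k * Real.log (sg S.toDk k x) ≤
      ∑ k, al S.toDk k * Real.log (sg S.toDk k x + q.d j) := Finset.sum_le_sum fun k _ =>
    mul_le_mul_of_nonneg_left (Real.log_le_log (Nb51.sg_pos hx k) (by linarith [(q.d0 j).1]))
      (K78.al_nn _ k)
  have k2 : ∑ k, al S.toDk k * Real.log (sg S.toDk k x) ≤ 0 := Finset.sum_nonpos fun k _ =>
    mul_nonpos_of_nonneg_of_nonpos (K78.al_nn _ k)
      (Real.log_nonpos (Nb51.sg_pos hx k).le (by linarith [S.sml k x]))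
  have k3 : a (q.e j) x ≤ tp a q j x := (q.lo j _).2.1
  have k4 := hZ.out.le _ (q.e0 j) x
  have k5 := (abs_le.1 (hB x)).1
  simp only [pj, pot]
  nlinarith [mul_le_mul_of_nonneg_left k1 m1, mul_le_mul_of_nonneg_left k3 m1,
    mul_le_mul_of_nonneg_left k5 m1]

theorem ej_lo [M.Cpt] (hZ : Zs S a) (h1 : 1 ≤ m) : ∃ c : ℝ, 0 ≤ c ∧ ∀ K, Cp S K →
    ∀ᶠ j in atTop, ∀ x ∈ K, (pw S.toDk (m - 1) x)⁻¹ ≤ c * ej S a q m j x := by
  have m1 : (0 : ℝ) ≤ m - 1 := sub_nonneg.2 (by exact_mod_cast h1)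
  refine ⟨Real.exp ((m - 1) * ∑ k, al S.toDk k * Real.log 2), (Real.exp_pos _).le, fun K hK => ?_⟩
  have d0 : Tendsto q.d atTop (𝓝 0) := by simpa using q.dt 0 1 one_pos
  have ev : ∀ k, ∀ᶠ j in atTop, ∀ x ∈ K, q.d j ≤ sg S.toDk k x := fun k => by
    obtain ⟨δ, δ0, δ1⟩ := hK.1.exists_forall_le' (A23.sg_sm S.toDk k).continuous.continuousOn
      fun x hx => Nb51.sg_pos (hK.2 hx) k
    filter_upwards [d0.eventually (ge_mem_nhds δ0)] with j hj x hx using hj.trans (δ1 x hx)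
  filter_upwards [eventually_all.2 ev] with j hj x hx
  rw [Nb51.pw_eq (hK.2 hx), ej, ← Real.exp_neg, ← Real.exp_add, Real.exp_le_exp]
  have k1 : ∑ k, al S.toDk k * Real.log (sg S.toDk k x + q.d j) ≤
      ∑ k, al S.toDk k * Real.log 2 + ∑ k, al S.toDk k * Real.log (sg S.toDk k x) := by
    rw [← Finset.sum_add_distrib]
    refine Finset.sum_le_sum fun k _ => ?_
    have p := Nb51.sg_pos (hK.2 hx) k
    rw [← mul_add, ← Real.log_mul two_ne_zero p.ne']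
    exact mul_le_mul_of_nonneg_left (Real.log_le_log (by linarith [(q.d0 j).1])
      (by linarith [hj k x hx])) (K78.al_nn _ k)
  have k2 := K78.tp_le hZ q j x
  have k3 := S.u0 x
  simp only [pj, pot]
  nlinarith [mul_le_mul_of_nonneg_left k1 m1, mul_nonneg m1 (neg_nonneg.2 k2),
    mul_nonneg m1 (neg_nonneg.2 k3)]

theorem pw_ct (hK : Cp S K) (r : ℝ) : ContinuousOn (pw S.toDk r) K :=
  continuousOn_finsetProd _ fun k _ => (A23.sg_sm S.toDk k).continuous.continuousOn.rpow_const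
    fun _ hx => Or.inl (hK.2 hx k)

theorem lim [M.Cpt] (h1 : 1 ≤ m) (hZ : Zs S a) {D : ℝ} (D0 : 0 ≤ D) : ∃ B : ℝ,
    ∀ (K : Set M.X) (f g : M.X → ℝ), Cp S K → Continuous f → Continuous g → (∀ x, 0 ≤ f x) →
      (∀ x ∉ K, f x = g x) → (∀ x ∈ K, g x ≤ D * pw S.toDk m x) →
      Tendsto (fun j => ∫ x, ej S a q m j x * (f x - g x) ∂M.mu S.H) (hyperfilter ℕ) (𝓝 0) →
      ∫ x in K, (pw S.toDk (m - 1) x)⁻¹ * f x ∂M.mu S.H ≤ B := by
  have hm := S.kae.toMet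
  have ig := (mMU n M S.H hm).2.2.2.2.1 ℝ
  have fin := (mMU n M S.H hm).2.1
  obtain ⟨C1, c1, u1⟩ := ej_hi (q := q) hZ h1
  obtain ⟨c, c0, l1⟩ := ej_lo (q := q) hZ h1
  obtain ⟨C3, u3⟩ := hZ.itg m (by exact_mod_cast h1)
  refine ⟨c * (0 + D * C1 * C3), fun K f g hK cf cg f0 e1 b2 z => ?_⟩
  have mK := hK.1.isClosed.measurableSet
  refine ge_of_tendsto ((z.add_const (D * C1 * C3)).const_mul c) ?_
  filter_upwards [Nat.hyperfilter_le_atTop (l1 K hK)] with j hj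
  have ce := ej_ct (q := q) (m := m) hZ j
  have e0 : ∀ x, 0 ≤ ej S a q m j x := fun x => (Real.exp_pos _).le
  have i1 : Integrable (fun x => ej S a q m j x * f x) (M.mu S.H) := ig _ (ce.mul cf)
  have i2 : Integrable (fun x => ej S a q m j x * g x) (M.mu S.H) := ig _ (ce.mul cg)
  have i3 : Integrable (fun x => Real.exp (-(m * a (q.e j) x))) (M.mu S.H) :=
    ig _ ((hZ.out.sm _ (q.e0 j)).continuous.const_mul _).neg.rexp
  have s1 : ∫ x in K, (pw S.toDk (m - 1) x)⁻¹ * f x ∂M.mu S.H ≤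
      ∫ x in K, c * (ej S a q m j x * f x) ∂M.mu S.H :=
    setIntegral_mono_on ((((pw_ct hK _).inv₀ fun x hx => (Nb51.pw_pos (hK.2 hx) _).ne').mul
      cf.continuousOn).integrableOn_compact hK.1) (i1.const_mul c).integrableOn mK fun x hx => by
      rw [← mul_assoc]
      exact mul_le_mul_of_nonneg_right (hj x hx) (f0 x)
  have s2 : ∫ x, ej S a q m j x * (f x - g x) ∂M.mu S.H =
      ∫ x in K, ej S a q m j x * f x ∂M.mu S.H - ∫ x in K, ej S a q m j x * g x ∂M.mu S.H := by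
    rw [← integral_sub i1.integrableOn i2.integrableOn,
      ← setIntegral_eq_integral_of_forall_compl_eq_zero (s := K) fun x hx => by
        rw [e1 x hx, sub_self, mul_zero]]
    simp only [mul_sub]
  have s3 : ∫ x in K, ej S a q m j x * g x ∂M.mu S.H ≤
      ∫ x in K, D * C1 * Real.exp (-(m * a (q.e j) x)) ∂M.mu S.H :=
    setIntegral_mono_on i2.integrableOn (i3.const_mul _).integrableOn mK fun x hx => by
      nlinarith [mul_le_mul_of_nonneg_left (b2 x hx) (e0 x),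
        mul_le_mul_of_nonneg_left (u1 j x (hK.2 hx)) D0]
  have s4 := setIntegral_le_integral (s := K) (i3.const_mul (D * C1))
    (Eventually.of_forall fun x => by positivity)
  rw [integral_const_mul] at s3
  rw [integral_const_mul, integral_const_mul] at s4
  have s5 := mul_le_mul_of_nonneg_left (u3 _ (q.e0 j)) (mul_nonneg D0 c1)
  rw [integral_const_mul] at s1
  exact s1.trans (mul_le_mul_of_nonneg_left (by linarith) c0)

theorem z_cg [M.Cpt] (hZ : Zs S a) {B : M.Fam (Mat n)} {κ : M.X → ℝ}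
    (h : ∀ G, M.Kae G → Z0 S a q m fun x => κ x * cg (M.ev G x) (M.ev B x) (M.ev W x))
    {A : M.Fam (Mat n)} (hA : M.Clo A) (pA : M.Le 0 A) :
    Z0 S a q m fun x => κ x * cg (M.ev A x) (M.ev B x) (M.ev W x) := by
  have k : ∀ τ : ℝ, 0 < τ → Z0 S a q m fun x =>
      κ x * cg (M.ev A x + τ • M.ev S.H x) (M.ev B x) (M.ev W x) := fun τ hτ =>
    h (A + τ • S.H) { hA.add (S.kae.toClo.smul τ) with
      pos := fun e he z hz => Matrix.PosDef.posSemidef_add (by simpa using pA e he z hz)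
        (Mf.pd_rsmul (S.kae.pos e he z hz) hτ) }
  obtain ⟨s, c, s0, hs⟩ := cg_q n
  refine Eq.subst (motive := fun f => Z0 S a q m f) (funext fun x => ?_)
    (Z0.sum hZ Finset.univ c fun i => k (s i) (s0 i).1)
  rw [hs (M.ev A x) (M.ev S.H x), Finset.mul_sum]
  exact Finset.sum_congr rfl fun i _ => by ring

theorem z_ng [M.Cpt] (hZ : Zs S a) {B : M.Fam (Mat n)} {κ : M.X → ℝ}
    (h : ∀ G, M.Kae G → Z0 S a q m fun x => κ x * cg (M.ev G x) (M.ev B x) (M.ev W x))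
    {A : M.Fam (Mat n)} (hA : M.Clo A) (hB : M.Clo B) (pA : M.Le 0 A) (pB : M.Le 0 (A + B)) :
    Z0 S a q m fun x => κ x * ng (M.ev (A + B) x) (M.ev W x) - κ x * ng (M.ev A x) (M.ev W x) := by
  obtain ⟨s, c, s0, hs⟩ := ng_q n
  have p2 : ∀ i, M.Le 0 (A + s i • B) := fun i e he z hz => by
    refine (congrArg Matrix.PosSemidef ?_).mp
      ((Mf.psd_rsmul (pA e he z hz) (sub_nonneg.2 (s0 i).2)).add
        (Mf.psd_rsmul (pB e he z hz) (s0 i).1.le))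
    simp only [Pi.add_apply, Pi.smul_apply, Pi.zero_apply, sub_zero]
    module
  refine Eq.subst (motive := fun f => Z0 S a q m f) (funext fun x => ?_)
    (Z0.sum hZ Finset.univ c fun i => z_cg hZ h (hA.add (hB.smul (s i))) (p2 i))
  have k := hs (M.ev A x) (M.ev B x) (M.ev W x)
  simp only [Mf.ev, Pi.add_apply, Pi.smul_apply] at k ⊢
  rw [← mul_sub, k, Finset.mul_sum]
  exact Finset.sum_congr rfl fun i _ => by ring

/-- The bound. -/
theorem bound [M.Cpt] (h1 : 1 ≤ m) (hZ : Zs S a) (hT : HO S m T) (hP : Wp S a q m T) {C : ℝ}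
    (C0 : 0 ≤ C) : ∃ B : ℝ, ∀ (K : Set M.X) (W : M.Fam (Fs n → ℂ)) (v : M.X → ℝ), Cp S K →
      (lk S.H m).Sec W → (M.All fun e z => e.symm z ∈ K → W e =ᶠ[𝓝 z] T e) → M.Sm v →
      (∀ x ∉ K, v x = 0) → (∀ x ∉ K, M.ev (M.hs v) x = 0) → M.Le 0 (C • S.β + M.hs v) →
      ∫ x in K, (pw S.toDk (m - 1) x)⁻¹ * (Real.exp (-M.ev (wk S.H m) x) *
        ng (M.ev (C • S.β + M.hs v) x) (M.ev W x)) ∂M.mu S.H ≤ B := by
  have hm := S.kae.toMet
  obtain ⟨C2, c2, u2⟩ := Nb51.ng_glob hT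
  obtain ⟨B, hB⟩ := lim (q := q) h1 hZ (show 0 ≤ (C + 1) ^ n * C2 by positivity)
  refine ⟨B, fun K W v hK hW hE hv v0 v1 pv => ?_⟩
  have kc := (bKAN n M S.H m hm).1
  have cA := S.cβ.smul C
  have cB := (mHES n M).1 _ hv
  have pA : M.Le 0 (C • S.β) := by simpa using S.nβ.smul C0
  have z := (z_ng hZ (fun G hG => ibp hZ hT hP hK hW hE hv v0 hG) cA cB pA pv).2
  have t1 := (ng_sm (cA.add cB).toTen kc hW).continuous
  have t2 := (ng_sm cA.toTen kc hW).continuous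
  have n1 : ∀ x, 0 ≤ Real.exp (-M.ev (wk S.H m) x) *
      ng (M.ev (C • S.β + M.hs v) x) (M.ev W x) := fun x => mul_nonneg (Real.exp_pos _).le
    (A86.ng_nonneg (by simpa [Mf.ev] using pv.ch x) _)
  have b2 : ∀ x ∈ K, Real.exp (-M.ev (wk S.H m) x) * ng (M.ev (C • S.β) x) (M.ev W x) ≤
      (C + 1) ^ n * C2 * pw S.toDk m x := fun x hx => by
    have e1 : M.ev W x = M.ev T x :=
      (hE _ (Mf.ch_mem x) _ (Mf.ch_tgt x) (by rwa [Mf.ch_symm])).eq_of_nhds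
    have p : 0 < (M.ev S.H x).det.re ^ m := pow_pos (Mf.pd_det_re (hm.ev_pos x)) m
    have y1 : ng (C • M.ev S.β x) (M.ev T x) ≤ _ :=
      (ng_hi (by simpa [Mf.ev] using S.nβ.ch x) C0 _).trans (mul_le_mul_of_nonneg_left
        (u2 x (hK.2 hx) _ (Mf.ch_mem x) (Mf.mem_ch x)) (by positivity))
    rw [kap hm, e1, inv_mul_le_iff₀ p]
    exact y1.trans_eq (by simp only [Mf.ev]; ring)
  have z0 : ∀ x ∉ K, M.ev (C • S.β + M.hs v) x = M.ev (C • S.β) x := fun x hx => by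
    have := v1 x hx
    simp only [Mf.ev, Pi.add_apply] at this ⊢
    rw [this, add_zero]
  exact hB K _ _ hK t1 t2 n1 (fun x hx => by rw [z0 x hx]) b2 z

theorem chi2 (R : ℝ) : ∃ χ : ℝ → ℝ, ContDiff ℝ ∞ χ ∧ (∀ t ≤ -(R + 2), χ t = 0) ∧
    (∀ t, 0 ≤ deriv χ t ∧ deriv χ t ≤ 1) ∧ (∀ t, 0 ≤ deriv (deriv χ) t) ∧
    (∀ t ≥ -R - 1 / 4, 1 / 4 ≤ deriv χ t) ∧ ∀ t, |t + R| ≤ 1 / 4 → 1 / 2 ≤ deriv (deriv χ) t := by
  obtain ⟨f, f0, f1, f2, f3, -, f5, -⟩ := A23.chi R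
  obtain ⟨g, g0, g1, g2, g3, g4, -, -⟩ := A23.chi (R + 1)
  have d : ∀ u w : ℝ → ℝ, ContDiff ℝ ∞ u → ContDiff ℝ ∞ w →
      deriv (fun t => (u t + w t) / 2) = fun t => (deriv u t + deriv w t) / 2 := fun u w hu hw =>
    funext fun t => ((((hu.differentiable (by simp)) t).hasDerivAt.add
      ((hw.differentiable (by simp)) t).hasDerivAt).div_const 2).deriv
  refine ⟨fun t => (f t + g t) / 2, (f0.add g0).div_const 2, fun t ht => ?_, ?_⟩
  · beta_reduce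
    rw [f1 t (by linarith), g1 t (by linarith)]
    norm_num
  · rw [d f g f0 g0, d _ _ (contDiff_infty_iff_deriv.1 f0).2 (contDiff_infty_iff_deriv.1 g0).2]
    refine ⟨fun t => ⟨?_, ?_⟩, fun t => ?_, fun t ht => ?_, fun t ht => ?_⟩
    · linarith [(f2 t).1, (g2 t).1]
    · linarith [(f2 t).2, (g2 t).2]
    · linarith [(f3 t).1, (g3 t).1]
    · linarith [(f2 t).1, g4 t (by linarith)]
    · linarith [f5 t ht, (g3 t).1]

end Pool.Agent.Lib.N4S.L5
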