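import Pool.Agent.Lib.NU4.Hv39
import Pool.Agent.Lib.NU4.Nm43b
import Pool.Agent.Lib.NU4.B_PW
import Pool.Agent.Lib.HLK.All0

/-! Project n4s: the derivative of a limit weight along a null vector field, on one ball, for a
general class. -/

open scoped Classical Topology ENNReal ContDiff ComplexOrder Matrix
open Set MeasureTheory Complex Filter Metric

set_option linter.unusedVariables false

noncomputable section

namespace Pool.Agent.Lib.N4S.Lc93

open Pool.Agent.Lib.SV (E)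
open Pool.Agent.Lib.HS32 Pool.Agent.Lib.HLK Pool.Agent.Lib.F4 Pool.Agent.Lib.NU4
open Pool.Agent.Lib.NU4.Hx39
open Pool.Agent.Lib.F4G.Sz44 (nq0 le_tr)

variable {n : ℕ} {M : Mf n}

theorem loc2 [M.Cpt] {H θ : M.Fam (Mat n)} (hH : M.Kae H) (hθ : M.Ten θ) (l : Filter ℕ) [l.NeBot]
    (ε : ℕ → ℝ) (u : ℕ → M.X → ℝ) (C B : ℝ) (hε : ∀ j, 0 ≤ ε j ∧ ε j ≤ 1)
    (hε0 : Tendsto ε l (𝓝 0)) (hu : ∀ j, M.Sm (u j)) (hu0 : ∀ j x, u j x ≤ 0)
    (hT : ∀ j, M.Le 0 (θ + ε j • H + M.hs (u j)))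
    (hC : ∀ j, ∫ x, Real.exp (-u j x) ∂M.mu H ≤ C) {e : M.Ch} (he : e ∈ M.C) {c : E n} {r : ℝ}
    (hr : 0 < r) (hs : closedBall c (4 * r) ⊆ e.target) {U : E n → E n} {ψ : E n → ℂ}
    (hU : ∀ z ∈ closedBall c (4 * r), HolV U z)
    (hψ0 : ∀ z ∈ closedBall c (4 * r), ContDiffAt ℝ ∞ ψ z ∧ hess ψ z = θ e z)
    {ρ : M.X → ℝ} {q : ℕ → M.X → ℝ} (hρ : Continuous ρ)
    (hq : ∀ j, Continuous (q j) ∧ ∀ x, 0 ≤ q j x)
    (q0 : Tendsto (fun j => ∫ x, q j x ∂M.mu H) l (𝓝 0)) (hB0 : 0 < B)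
    (hB : ∀ z ∈ closedBall c (4 * r), ∀ j,
      ρ (e.symm z) * nq ((θ + ε j • H + M.hs (u j)) e z) (U z) ≤ B * q j (e.symm z))
    (hNM : ∀ η : ℝ, 0 < η → ∃ s : ℝ, 0 < s ∧ ∀ᶠ j in l,
      ∫ x in {x | ρ x ≤ s}, M.tr H (θ + ε j • H + M.hs (u j)) x ∂M.mu H ≤ η) :
    ∃ F : E n → ℂ, DifferentiableOn ℂ F (ball c r) ∧ ∀ z ∈ ball c r, ∀ (m : E n → ℂ) (d : ℝ),
      0 < d → d ≤ r → ContinuousOn m (closedBall z d) → Tendsto (fun j => ∫ w in closedBall z d,
        ‖dir U (fun w => ψ w + M.lc (u j) e w) w - m w‖) l (𝓝 0) → F z = m z := by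
  set K := closedBall c (4 * r) with hK'
  have hK : IsCompact K := isCompact_closedBall _ _
  have hM := hH.toMet
  have := (mMU n M H hM).2.1
  have I := (mMU n M H hM).2.2.2.2.1 ℝ
  obtain ⟨C₀, hC₀, hch⟩ := chart_le hM he hK hs
  obtain ⟨C₁, hC₁, hmean⟩ := mean hH hθ
  have hTen : ∀ j, M.Ten (θ + ε j • H + M.hs (u j)) := fun j =>
    (hθ.add (hM.toTen.smul _)).add ((mHES n M).1 _ (hu j)).toTen
  have hld : ∀ z ∈ K, ContDiffAt ℝ ∞ ψ z := fun z hz => (hψ0 z hz).1
  have hψ : ∀ j, ∀ z ∈ K, ContDiffAt ℝ ∞ (fun w => ψ w + M.lc (u j) e w) z :=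
    fun j z hz => (hld z hz).add ((hu j).lc e he z (hs hz))
  have cU : ∀ i, ContinuousOn (fun z => U z i) K := fun i z hz =>
    (hU z hz i).self_of_nhds.continuousAt.continuousWithinAt
  have cH : ∀ i j, ContinuousOn (fun z => H e z i j) K := fun i j z hz =>
    (hM.sm e he z (hs hz) i j).continuousAt.continuousWithinAt
  obtain ⟨b₁, hb₁, h1⟩ := bd hK cU
  obtain ⟨b₂, hb₂, h2⟩ := bd hK (f := fun i => dz i ψ) fun i z hz =>
    (cd_dz (hld z hz) i).continuousAt.continuousWithinAt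
  obtain ⟨b₃, hb₃, h3⟩ := bd hK (f := fun i z => nq (H e z) (Pi.single i 1)) fun i =>
    cnq cH fun _ => continuousOn_const
  obtain ⟨b₄, hb₄, h4⟩ := bd hK (f := fun (i : Unit) z => nq (H e z) (U z)) fun i => cnq cH cU
  obtain ⟨b₅, hb₅, h5⟩ := bd hK (f := fun i z => (H e z *ᵥ U z) i) fun i =>
    continuousOn_finsetSum (f := fun j z => H e z i j * U z j) Finset.univ fun j _ =>
      (cH i j).mul (cU j)
  have ctr := fun j => ((mINV n M H hM).1 _ (hTen j)).2.1.continuous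
  have tr0 := fun j x => hM.tr_nonneg (hT j) x
  have hle : ∀ j, ∀ z ∈ K, ∀ v, nq ((θ + ε j • H + M.hs (u j)) e z) v ≤
      M.tr H (θ + ε j • H + M.hs (u j)) (e.symm z) * nq (H e z) v := fun j z hz v => by
    rw [((mINV n M H hM).1 _ (hTen j)).1 e he z (hs hz)]
    exact le_tr (hM.pos e he z (hs hz)) (by simpa using hT j e he z (hs hz)) v
  have g1 : ∀ j, ∫ z in K, ‖dir U (fun w => ψ w + M.lc (u j) e w) z‖ ≤
      C₀ * (n * b₁ * (b₂ * (M.mu H).real univ + b₃ * C₁ + C)) := fun j => by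
    have L := (mLAP n M _ _ (hu j) (hu j)).2.2 H hM
    have c1 : Continuous fun x => Real.exp (u j x) * M.gr H (u j) (u j) x :=
      (hu j).exp.continuous.mul L.2.1.continuous
    have c2 : Continuous fun x => Real.exp (-u j x) := (hu j).neg.exp.continuous
    have c3 : Continuous fun x => b₂ + b₃ * (Real.exp (u j x) * M.gr H (u j) (u j) x) := by
      fun_prop
    refine (hch K (fun x => n * b₁ * (b₂ + b₃ * (Real.exp (u j x) * M.gr H (u j) (u j) x) +
      Real.exp (-u j x))) _ hK Subset.rfl (I _ (by fun_prop)) (fun x => ?_) (fun z hz =>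
        (cd_dir (hU z hz) (hψ j z hz)).continuousAt.norm.continuousWithinAt)
      fun z hz => ⟨norm_nonneg _, ?_⟩).trans ?_
    · have := (L.2.2.1 x 0).2.2.2.2.2.2.1
      positivity
    · refine (norm_sum_le _ _).trans ((Finset.sum_le_card_nsmul _ _ (b₁ * (b₂ + b₃ *
        (Real.exp (u j (e.symm z)) * M.gr H (u j) (u j) (e.symm z)) +
          Real.exp (-u j (e.symm z)))) fun i _ => ?_).trans_eq (by simp [mul_assoc]))
      rw [norm_mul, dz_add (cd_diff (hld z hz)) (cd_diff ((hu j).lc e he z (hs hz)))]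
      refine mul_le_mul (h1 i z hz) ((norm_add_le _ _).trans ?_) (norm_nonneg _) hb₁.le
      linarith [h2 i z hz, dz_le hM (hu j) he (hs hz) i ((le_abs_self _).trans (h3 i z hz))]
    · rw [integral_const_mul, integral_add (I _ c3) (I _ c2), integral_add (integrable_const _)
        ((I _ c1).const_mul _), integral_const_mul, integral_const, smul_eq_mul]
      have := mul_le_mul_of_nonneg_left (hmean _ _ (hε j).2 (hu j) (hu0 j) (hT j)).2 hb₃.le
      have := hC j
      refine mul_le_mul_of_nonneg_left (mul_le_mul_of_nonneg_left ?_ (by positivity)) hC₀.le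
      linarith
  have g2 : ∀ k, Tendsto (fun j => ∫ z in K,
      ‖dzb k (dir U fun w => ψ w + M.lc (u j) e w) z‖) l (𝓝 0) := fun k => by
    refine tendsto_order.2 ⟨fun a ha => Eventually.of_forall fun j =>
      ha.trans_le (integral_nonneg fun _ => norm_nonneg _), fun κ hκ => ?_⟩
    obtain ⟨δ, hδ, hδ'⟩ : ∃ δ : ℝ, 0 < δ ∧ C₀ * (δ * b₃ * C₁) = κ / 4 :=
      ⟨κ / (4 * C₀ * b₃ * C₁), by positivity, by field_simp⟩
    obtain ⟨η, hη, hη'⟩ : ∃ η : ℝ, 0 < η ∧ C₀ * (δ⁻¹ * b₄ * η) = κ / 4 :=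
      ⟨κ * δ / (4 * C₀ * b₄), by positivity, by field_simp⟩
    obtain ⟨s, hs0, hN⟩ := hNM η hη
    have t0 := ((q0.const_mul (δ⁻¹ * (B / s))).add
      (hε0.mul_const (b₅ * (M.mu H).real univ))).const_mul C₀
    rw [mul_zero, zero_mul, add_zero, mul_zero] at t0
    filter_upwards [hN, t0.eventually (gt_mem_nhds (half_pos hκ))] with j j1 j2
    have hS : MeasurableSet {x | ρ x ≤ s} := (isClosed_le hρ continuous_const).measurableSet
    have i1 := (I _ (ctr j)).const_mul (δ * b₃)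
    have i2 := ((I _ (ctr j)).indicator hS).const_mul (δ⁻¹ * b₄)
    have i3 := (I _ (hq j).1).const_mul (δ⁻¹ * (B / s))
    have n2 : ∀ x, 0 ≤ {x | ρ x ≤ s}.indicator (M.tr H (θ + ε j • H + M.hs (u j))) x :=
      indicator_nonneg fun x _ => tr0 j x
    refine (hch K (fun x => δ * b₃ * M.tr H (θ + ε j • H + M.hs (u j)) x + δ⁻¹ * b₄ *
      {x | ρ x ≤ s}.indicator (M.tr H (θ + ε j • H + M.hs (u j))) x + δ⁻¹ * (B / s) * q j x +
        ε j * b₅) _ hK Subset.rfl (((i1.add i2).add i3).add (integrable_const _)) (fun x => ?_)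
      (fun z hz => (cd_dzb (cd_dir (hU z hz) (hψ j z hz)) k).continuousAt.norm.continuousWithinAt)
      fun z hz => ⟨norm_nonneg _, ?_⟩).trans_lt ?_
    · have := tr0 j x
      have := n2 x
      have := (hq j).2 x
      have := (hε j).1
      positivity
    · have hP : ((θ + ε j • H + M.hs (u j)) e z).PosSemidef := by simpa using hT j e he z (hs hz)
      have e1 : hess (fun w => ψ w + M.lc (u j) e w) z =
          (θ + ε j • H + M.hs (u j)) e z - ε j • H e z := by
        rw [hess_add (hld z hz) ((hu j).lc e he z (hs hz)), (hψ0 z hz).2]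
        simp only [Mf.hs, Pi.add_apply, Pi.smul_apply]
        abel
      rw [dzb_dir (hU z hz) (hψ j z hz), e1, Matrix.sub_mulVec, Matrix.smul_mulVec, Pi.sub_apply,
        Pi.smul_apply]
      refine (norm_sub_le _ _).trans (add_le_add ((cs2 hP _ k hδ).trans ?_) ?_)
      · have a1 := (hle j z hz (Pi.single k 1)).trans (mul_le_mul_of_nonneg_left
          ((le_abs_self _).trans (h3 k z hz)) (tr0 j _))
        have a4 := (le_abs_self _).trans (h4 () z hz)
        have a2 : nq ((θ + ε j • H + M.hs (u j)) e z) (U z) ≤ b₄ * {x | ρ x ≤ s}.indicator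
            (M.tr H (θ + ε j • H + M.hs (u j))) (e.symm z) + B / s * q j (e.symm z) := by
          have := (hq j).2 (e.symm z)
          by_cases h : ρ (e.symm z) ≤ s
          · rw [indicator_of_mem (show e.symm z ∈ {x | ρ x ≤ s} from h)]
            have := (hle j z hz (U z)).trans (mul_le_mul_of_nonneg_left a4 (tr0 j _))
            have : 0 ≤ B / s * q j (e.symm z) := by positivity
            linarith
          · rw [indicator_of_notMem (show e.symm z ∉ {x | ρ x ≤ s} from h), mul_zero, zero_add]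
            rw [div_mul_eq_mul_div, le_div_iff₀ hs0]
            nlinarith [hB z hz j, mul_le_mul_of_nonneg_left (not_le.1 h).le (nq0 hP (U z))]
        nlinarith [mul_le_mul_of_nonneg_left a1 hδ.le,
          mul_le_mul_of_nonneg_left a2 (inv_pos.2 hδ).le]
      · rw [norm_smul, Real.norm_of_nonneg (hε j).1]
        exact mul_le_mul_of_nonneg_left (h5 k z hz) (hε j).1
    · rw [integral_add ((i1.fun_add i2).fun_add i3) (integrable_const _),
        integral_add (i1.fun_add i2) i3, integral_add i1 i2, integral_const_mul, integral_const_mul, integral_const_mul,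
        integral_indicator hS, integral_const, smul_eq_mul]
      have a1 := mul_le_mul_of_nonneg_left (hmean _ _ (hε j).2 (hu j) (hu0 j) (hT j)).1
        (show 0 ≤ C₀ * (δ * b₃) by positivity)
      have a2 := mul_le_mul_of_nonneg_left j1 (show 0 ≤ C₀ * (δ⁻¹ * b₄) by positivity)
      nlinarith
  exact hx39 l _ _ c hr (fun j z hz => cd_le (cd_dir (hU z hz) (hψ j z hz)) 1) g1 g2

/-- The limit function solves the linear equations that hold in the limit. -/
theorem ident {l : Filter ℕ} {a : ℕ → E n → ℂ} {c : E n} {r : ℝ} (hr : 0 < r) {F : E n → ℂ}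
    (hm : ∀ z ∈ ball c r, ∀ (m : E n → ℂ) (d : ℝ), 0 < d → d ≤ r →
      ContinuousOn m (closedBall z d) →
      Tendsto (fun j => ∫ w in closedBall z d, ‖a j w - m w‖) l (𝓝 0) → F z = m z)
    (ha : ∀ j, ContinuousOn (a j) (closedBall c (4 * r))) {σ : Type} [Fintype σ]
    {W Z : E n → σ → ℂ} (hW : ContinuousOn W (closedBall c (4 * r)))
    (hZ : ContinuousOn Z (closedBall c (4 * r)))
    (t : Tendsto (fun j => ∫ w in closedBall c (4 * r), ‖a j w • W w - Z w‖) l (𝓝 0))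
    {z : E n} (hz : z ∈ ball c r) (h0 : W z ≠ 0) : F z • W z = Z z := by
  have hs : closedBall z r ⊆ closedBall c (4 * r) :=
    closedBall_subset_closedBall' (by linarith [mem_ball.1 hz])
  have hn : closedBall c (4 * r) ∈ 𝓝 z := mem_of_superset (closedBall_mem_nhds z hr) hs
  have key : ∀ L : (σ → ℂ) →L[ℂ] ℂ, L (W z) ≠ 0 → F z * L (W z) = L (Z z) := fun L hL => by
    have cW := L.continuous.comp_continuousOn hW
    have cZ := L.continuous.comp_continuousOn hZ
    obtain ⟨d, hd, hd'⟩ := nhds_basis_closedBall.eventually_iff.1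
      ((cW.continuousAt hn).eventually_ne hL)
    have hs' : closedBall z (min d r) ⊆ closedBall c (4 * r) :=
      (closedBall_subset_closedBall (min_le_right _ _)).trans hs
    have hne : ∀ w ∈ closedBall z (min d r), L (W w) ≠ 0 := fun w hw =>
      hd' (closedBall_subset_closedBall (min_le_left _ _) hw)
    have ci : ContinuousOn (fun w => (L (W w))⁻¹) (closedBall z (min d r)) :=
      (cW.mono hs').inv₀ hne
    have cm : ContinuousOn (fun w => (L (W w))⁻¹ * L (Z w)) (closedBall z (min d r)) :=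
      ci.mul (cZ.mono hs')
    obtain ⟨b, hb, h6⟩ := bd (isCompact_closedBall z (min d r)) (ι := Unit) fun _ => ci
    rw [hm z hz _ _ (lt_min hd hr) (min_le_right _ _) cm ?_, mul_right_comm, inv_mul_cancel₀ hL,
      one_mul]
    have t0 := t.const_mul (b * ‖L‖)
    rw [mul_zero] at t0
    refine squeeze_zero (fun j => integral_nonneg fun _ => norm_nonneg _) (fun j => ?_) t0
    have i0 : IntegrableOn (fun w => ‖a j w • W w - Z w‖) (closedBall c (4 * r)) :=
      (((ha j).smul hW).sub hZ).norm.integrableOn_compact (isCompact_closedBall _ _)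
    refine le_trans ?_ (mul_le_mul_of_nonneg_left (setIntegral_mono_set i0
      (Eventually.of_forall fun _ => norm_nonneg _) hs'.eventuallyLE) (by positivity))
    rw [← integral_const_mul]
    refine setIntegral_mono_on ((((ha j).mono hs').sub cm).norm.integrableOn_compact
      (isCompact_closedBall _ _)) ((i0.mono_set hs').const_mul _) measurableSet_closedBall
      fun w hw => ?_
    have e1 : a j w - (L (W w))⁻¹ * L (Z w) = (L (W w))⁻¹ * L (a j w • W w - Z w) := by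
      rw [map_sub, map_smul, smul_eq_mul, mul_sub, mul_left_comm, inv_mul_cancel₀ (hne w hw),
        mul_one]
    rw [e1, norm_mul, mul_assoc]
    exact mul_le_mul (h6 () w hw) (L.le_opNorm _) (norm_nonneg _) hb.le
  obtain ⟨i, hi⟩ := Function.ne_iff.1 h0
  funext k
  have k1 : F z * W z i = Z z i := key (ContinuousLinearMap.proj i) hi
  by_cases hk : W z k = 0
  · have k2 : F z * (W z i + W z k) = Z z i + Z z k :=
      key ((ContinuousLinearMap.proj i : (σ → ℂ) →L[ℂ] ℂ) +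
        (ContinuousLinearMap.proj k : (σ → ℂ) →L[ℂ] ℂ))
        (show W z i + W z k ≠ 0 by rw [hk, add_zero]; exact hi)
    show F z * W z k = Z z k
    linear_combination k2 - k1
  · exact key (ContinuousLinearMap.proj k) hk

theorem glue {σ : Type} {U : Set (E n)} (hU : IsOpen U) {W Z : E n → σ → ℂ}
    (hd : ∀ z ∈ U, ∃ᶠ w in 𝓝 z, W w ≠ 0) (cW : ∀ z ∈ U, ContinuousAt W z)
    (cZ : ∀ z ∈ U, ContinuousAt Z z) (h : ∀ z ∈ U, ∃ r : ℝ, 0 < r ∧ ∃ F : E n → ℂ,
      DifferentiableOn ℂ F (ball z r) ∧ ∀ w ∈ ball z r, W w ≠ 0 → F w • W w = Z w) :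
    ∃ F : E n → ℂ, DifferentiableOn ℂ F U ∧ ∀ z ∈ U, F z • W z = Z z := by
  choose! r hr F hF e using h
  have D : DifferentiableOn ℂ (fun z => F z z) U := fun z hz => by
    refine (((hF z hz).differentiableAt (ball_mem_nhds z (hr z hz))).congr_of_eventuallyEq
      ?_).differentiableWithinAt
    filter_upwards [hU.mem_nhds hz, ball_mem_nhds z (hr z hz)] with w h1 h2
    have n1 := ball_mem_nhds w (hr w h1)
    have n2 := isOpen_ball.mem_nhds h2
    refine tendsto_nhds_unique_of_frequently_eq ((hF w h1).continuousOn.continuousAt n1)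
      ((hF z hz).continuousOn.continuousAt n2) ?_
    exact ((hd w h1).and_eventually (Eventually.and n1 n2)).mono fun y hy =>
      smul_left_injective ℂ hy.1 ((e w h1 y hy.2.1 hy.1).trans (e z hz y hy.2.2 hy.1).symm)
  refine ⟨fun z => F z z, D, fun z hz => ?_⟩
  exact tendsto_nhds_unique_of_frequently_eq (f := fun w => F w w • W w)
    ((D.continuousOn.continuousAt (hU.mem_nhds hz)).smul (cW z hz)) (cZ z hz)
    (((hd z hz).and_eventually (hU.mem_nhds hz)).mono fun w hw =>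
      e w hw.2 w (mem_ball_self (hr w hw.2)) hw.1)

theorem sub {X : Type} [MeasurableSpace X] (μ : Measure X) [IsFiniteMeasure μ] {ρ : X → ℝ}
    (hρ : Measurable ρ) (h0 : ∀ x, 0 ≤ ρ x) (hz : μ {x | ρ x = 0} = 0) {c : ℝ} (hc : 0 < c) :
    ∃ r : ℝ, 0 < r ∧ μ.real {x | ρ x ≤ r} ≤ c := by
  have h := tendsto_measure_iInter_atTop (μ := μ) (s := fun k : ℕ => {x | ρ x ≤ 1 / ((k : ℝ) + 1)})
    (fun k => (measurableSet_le hρ measurable_const).nullMeasurableSet)
    (fun i j hij x (hx : ρ x ≤ _) => hx.trans (Nat.one_div_le_one_div hij)) ⟨0, measure_ne_top _ _⟩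
  have e : (⋂ k : ℕ, {x | ρ x ≤ 1 / ((k : ℝ) + 1)}) = {x | ρ x = 0} := by
    ext x
    simp only [mem_iInter, mem_ofPred_eq]
    exact ⟨fun h => le_antisymm (ge_of_tendsto' tendsto_one_div_add_atTop_nhds_zero_nat h) (h0 x),
      fun h k => h.le.trans (by positivity)⟩
  rw [e, hz] at h
  obtain ⟨k, hk⟩ := (h.eventually (gt_mem_nhds (ENNReal.ofReal_pos.2 hc))).exists
  exact ⟨_, by positivity, ENNReal.toReal_le_of_le_ofReal hc.le hk.le⟩

/-- The weighted size of the gradient. -/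
def gw (H : M.Fam (Mat n)) (p : ℝ) (u : M.X → ℝ) (x : M.X) : ℝ :=
  Real.exp (-(p * u x)) * (1 + √(M.gr H u u x))

theorem gw_nn (H : M.Fam (Mat n)) (p : ℝ) (u : M.X → ℝ) (x : M.X) : 0 ≤ gw H p u x := by
  unfold gw
  positivity

theorem gw_cont {H : M.Fam (Mat n)} (hH : M.Met H) (p : ℝ) {u : M.X → ℝ} (hu : M.Sm u) :
    Continuous (gw H p u) :=
  (hu.const_mul p).neg.exp.continuous.mul (continuous_const.add
    ((mLAP n M _ _ hu hu).2.2 H hH).2.1.continuous.sqrt)

theorem gw_le {t g p δ T : ℝ} (ht : t ≤ 0) (hg : 0 ≤ g) (hp : 0 ≤ p) (hδ : 0 < δ) (hT : 0 < T) :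
    Real.exp (-(p * t)) * (1 + √g) ≤ δ * (Real.exp t * g) + (1 + δ⁻¹) * T⁻¹ *
      Real.exp (-((4 * p + 2) * t)) + (1 + δ⁻¹) * T := by
  set x := Real.exp (t / 2) * √g
  set y := Real.exp (-((p + 1 / 2) * t))
  have e1 : Real.exp (-(p * t)) * √g = x * y := by
    rw [mul_right_comm, ← Real.exp_add]
    congr 2
    ring
  have e2 : Real.exp t * g = x ^ 2 := by
    rw [mul_pow, Real.sq_sqrt hg, ← Real.exp_nat_mul]
    congr 2
    push_cast
    ring
  have e3 : Real.exp (-((4 * p + 2) * t)) = (y ^ 2) ^ 2 := by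
    rw [← pow_mul, ← Real.exp_nat_mul]
    congr 1
    push_cast
    ring
  have e4 : Real.exp (-(p * t)) ≤ y ^ 2 := by
    rw [← Real.exp_nat_mul]
    refine Real.exp_le_exp.2 ?_
    push_cast
    nlinarith
  have a1 : x * y ≤ δ * x ^ 2 + δ⁻¹ * y ^ 2 := by
    refine le_of_mul_le_mul_left ?_ hδ
    rw [mul_add, mul_inv_cancel_left₀ hδ.ne']
    nlinarith [sq_nonneg (δ * x - y), sq_nonneg (δ * x), sq_nonneg y]
  have a2 : y ^ 2 ≤ T⁻¹ * (y ^ 2) ^ 2 + T := by
    refine le_of_mul_le_mul_left ?_ hT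
    rw [mul_add, mul_inv_cancel_left₀ hT.ne']
    nlinarith [sq_nonneg (y ^ 2 - T), sq_nonneg (y ^ 2), sq_nonneg T]
  have a3 := mul_le_mul_of_nonneg_left a2 (show 0 ≤ 1 + δ⁻¹ by positivity)
  rw [mul_add, mul_one, e1, e2, e3]
  nlinarith

/-- Uniform integrability of the weighted gradients. -/
theorem ui [M.Cpt] {H θ : M.Fam (Mat n)} (hH : M.Kae H) (hθ : M.Ten θ) {p C η : ℝ} (hp : 0 ≤ p)
    (hη : 0 < η) : ∃ κ : ℝ, 0 < κ ∧ ∀ (ε : ℝ) (u : M.X → ℝ) (A : Set M.X), ε ≤ 1 → M.Sm u →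
      (∀ x, u x ≤ 0) → M.Le 0 (θ + ε • H + M.hs u) →
      ∫ x, Real.exp (-((4 * p + 2) * u x)) ∂M.mu H ≤ C → MeasurableSet A → (M.mu H).real A ≤ κ →
      ∫ x, A.indicator (gw H p u) x ∂M.mu H ≤ η := by
  have hM := hH.toMet
  have := (mMU n M H hM).2.1
  have I := (mMU n M H hM).2.2.2.2.1 ℝ
  obtain ⟨C₁, hC₁, hmean⟩ := mean hH hθ
  obtain ⟨δ, hδ, hδ'⟩ : ∃ δ : ℝ, 0 < δ ∧ δ * C₁ = η / 3 :=
    ⟨η / (3 * C₁), by positivity, by field_simp⟩
  obtain ⟨T, hT, hT'⟩ : ∃ T : ℝ, 0 < T ∧ (1 + δ⁻¹) * T⁻¹ * (|C| + 1) = η / 3 :=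
    ⟨3 * (1 + δ⁻¹) * (|C| + 1) / η, by positivity, by field_simp⟩
  refine ⟨η / (3 * ((1 + δ⁻¹) * T)), by positivity, fun ε u A h1 hu u0 hL hC hA hκ => ?_⟩
  have L := (mLAP n M _ _ hu hu).2.2 H hM
  have i1 := (I _ (hu.exp.continuous.mul L.2.1.continuous)).const_mul δ
  have i2 := (I _ (hu.const_mul (4 * p + 2)).neg.exp.continuous).const_mul ((1 + δ⁻¹) * T⁻¹)
  have i3 := (integrable_const (μ := M.mu H) ((1 + δ⁻¹) * T)).indicator hA
  refine (integral_mono ((I _ (gw_cont hM p hu)).indicator hA) ((i1.add i2).add i3)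
    fun x => ?_).trans ?_
  · have g0 := (L.2.2.1 x 0).2.2.2.2.2.2.1
    simp only [Pi.add_apply, Pi.mul_apply]
    by_cases hx : x ∈ A
    · rw [indicator_of_mem hx, indicator_of_mem hx]
      exact gw_le (u0 x) g0 hp hδ hT
    · rw [indicator_of_notMem hx, indicator_of_notMem hx]
      positivity
  · rw [integral_add' (i1.add i2) i3, integral_add' i1 i2, integral_const_mul, integral_const_mul,
      integral_indicator_const _ hA, smul_eq_mul]
    have a1 := mul_le_mul_of_nonneg_left (hmean ε u h1 hu u0 hL).2 hδ.le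
    have a2 := mul_le_mul_of_nonneg_left (hC.trans ((le_abs_self C).trans (le_add_of_nonneg_right
      zero_le_one))) (show 0 ≤ (1 + δ⁻¹) * T⁻¹ by positivity)
    have a3 := (le_div_iff₀ (by positivity)).1 hκ
    simp only [Pi.mul_apply]
    linarith

theorem dz_sq {H : M.Fam (Mat n)} (hH : M.Met H) {u : M.X → ℝ} (hu : M.Sm u) {e : M.Ch}
    (he : e ∈ M.C) {z : E n} (hz : z ∈ e.target) (v : E n → E n) :
    ‖dir v (M.lc u e) z‖ ≤ √(nq (H e z) (v z)) * √(M.gr H u u (e.symm z)) := by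
  have h1 := (mHES n M).2.2.1 u hu
  have h2 := le_tr (hH.pos e he z hz) (by simpa using h1.2 e he z hz) (v z)
    (T := M.ds u u e z)
  have h5 : M.gr H u u (e.symm z) = ((H e z)⁻¹ * M.ds u u e z).trace.re :=
    ((mINV n M H hH).1 _ h1.1.toTen).1 e he z hz
  have h3 : nq (M.ds u u e z) (v z) = ‖dir v (M.lc u e) z‖ ^ 2 := by
    have := fun i => star_dz_ofReal (j := i) (u := fun w => u (e.symm w))
      (cd_diff (hu.lc e he z hz))
    have e1 : star (v z) ⬝ᵥ M.ds u u e z *ᵥ v z =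
        star (dir v (M.lc u e) z) * dir v (M.lc u e) z := by
      simp only [dir, star_sum, star_mul', Finset.sum_mul, Finset.mul_sum, dotProduct,
        Matrix.mulVec, Mf.ds, dd_apply, Pi.star_apply]
      rw [Finset.sum_comm]
      refine Finset.sum_congr rfl fun i _ => Finset.sum_congr rfl fun j _ => ?_
      rw [show dzb j (M.lc u e) z = star (dz j (M.lc u e) z) from (this j).symm]
      ring
    rw [nq, e1, star_def, ← normSq_eq_conj_mul_self, ofReal_re, normSq_eq_norm_sq]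
  rw [h3, ← h5] at h2
  rw [← Real.sqrt_mul (nq0 (hH.pos e he z hz).posSemidef _), mul_comm]
  exact Real.le_sqrt_of_sq_le h2

/-- The coefficients are bounded by the norm. -/
theorem sup_le {H : E n → Mat n} {K : Set (E n)} (hK : IsCompact K)
    (hH : ∀ z ∈ K, SmM H z ∧ (H z).PosDef) :
    ∃ c : ℝ, 0 ≤ c ∧ ∀ z ∈ K, ∀ s : Fs n → ℂ, ‖s‖ ^ 2 ≤ c * ng (H z) s := by
  obtain ⟨c, c0, h⟩ := Nm43.hom_bound hK (F := fun z (v : ℝ) (s : Fs n → ℂ) => -(v ^ 2 * ‖s‖ ^ 2))
    (P := fun z v s => v ^ 2 * RAA.hq (La (H z)) s) (fun p hp => by fun_prop)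
    (fun p hp => ((continuousAt_fst.comp continuousAt_snd).pow 2).mul (Nm43.hq_cont
      (fun i j => ContinuousAt.comp (f := Prod.fst) (g := fun z => La (H z) i j)
        (FK3.sm (hH _ hp).1 i j).continuousAt continuousAt_fst)
      (continuousAt_snd.comp continuousAt_snd)))
    (fun z v s a b => by rw [norm_smul, smul_eq_mul, mul_pow, mul_pow, Real.norm_eq_abs, sq_abs]; ring)
    (fun z v s a b => by rw [Nm43.hq_rs, smul_eq_mul]; ring)
    fun z hz v s hv hs => mul_pos (by positivity)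
      (((st_PW n (H z) 0 0 0 s (hH z hz).2).1).lt_of_ne' fun h =>
        hs ((st_PW n (H z) 0 0 0 s (hH z hz).2).2.1 h))
  exact ⟨c, c0, fun z hz s => by simpa [ng, RAA.hq] using h z hz 1 s⟩

end Pool.Agent.Lib.N4S.Lc93
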