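import Pool.Agent.Lib.NU4.Hu39
import Pool.Agent.Lib.HLK.All0

/-! From a weighted inequality in the charts to the inequality for sections of a bundle. -/

open scoped Classical Topology ContDiff ComplexOrder Matrix
open Set MeasureTheory Complex Filter Metric

set_option linter.unusedVariables false

noncomputable section

namespace Pool.Agent.Lib.N4S.Nc4

open Pool.Agent.Lib.SV (E)
open Pool.Agent.Lib.HS32 Pool.Agent.Lib.HLK
open Pool.Agent.Lib.NU4.Hx39 (chart_le bd)

variable {n : ℕ} {M : Mf n} {σ : Type} [Fintype σ] [DecidableEq σ] {P : Type}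

/-- The weighted inequality near every point. -/
def Loc (M : Mf n) (A B : P → M.X → ℝ) : Prop := ∀ x, ∃ e ∈ M.C, x ∈ e.source ∧ ∃ r C : ℝ,
  0 < r ∧ 0 ≤ C ∧ ball (e x) r ⊆ e.target ∧ ∀ (d : P) (u : E n → ℂ), ContDiff ℝ ∞ u →
    tsupport u ⊆ ball (e x) r → ∫ z, normSq (u z) * A d (e.symm z) ≤
      C * ∫ z, (∑ l, normSq (dzb l u z) + normSq (u z)) * B d (e.symm z)

theorem nsq_add (a b : ℂ) : normSq (a + b) ≤ 2 * (‖a‖ ^ 2 + ‖b‖ ^ 2) := by
  rw [normSq_eq_norm_sq]
  have h := pow_le_pow_left₀ (norm_nonneg _) (norm_add_le a b) 2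
  nlinarith [sq_nonneg (‖a‖ - ‖b‖)]

theorem pt [M.Cpt] {H : M.Fam (Mat n)} {b : Bun M σ} {A B : P → M.X → ℝ} (hH : M.Met H)
    (hb : b.Ok) (hl : b.Hl) (hA : ∀ d, Continuous (A d)) (A0 : ∀ d x, 0 ≤ A d x)
    (hB : ∀ d, Continuous (B d)) (B0 : ∀ d x, 0 ≤ B d x) (h : Loc M A B) (x : M.X) :
    ∃ U ∈ 𝓝 x, MeasurableSet U ∧ ∃ C : ℝ, 0 ≤ C ∧ ∀ d W, b.Sec W →
      ∫ y in U, b.pn W y * A d y ∂M.mu H ≤
        C * ∫ y, (gb H b W y + b.pn W y) * B d y ∂M.mu H := by
  obtain ⟨e, he, hx, r, C, hr, C0, hs, hC⟩ := h x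
  obtain ⟨g1, g2⟩ := aGB n M σ H b hH hb hl
  obtain ⟨c, hc⟩ := g2 e he
  obtain ⟨-, -, -, -, hi, hm, -⟩ := mMU n M H hH
  let β : ContDiffBump (e x) := ⟨r / 4, r / 2, by positivity, by linarith⟩
  have kb : closedBall (e x) (r / 2) ⊆ ball (e x) r := closedBall_subset_ball (by linarith)
  have kt := kb.trans hs
  have kc := isCompact_closedBall (e x) (r / 2)
  have kc' := isCompact_closedBall (e x) (r / 4)
  have kk : closedBall (e x) (r / 4) ⊆ closedBall (e x) (r / 2) :=
    closedBall_subset_closedBall (by linarith)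
  have βs : ∀ z, ContDiffAt ℝ ∞ (fun w => (β w : ℂ)) z := fun z =>
    cd_ofReal (β.contDiff.contDiffAt)
  obtain ⟨K1, K10, hK1⟩ := bd kc (f := fun _ : Unit => c)
    fun _ z hz => (hc z (kt hz)).1.continuousWithinAt
  obtain ⟨K2, K21, hK2⟩ := (mBD n M H hH).2.2.1 e he _ kc kt
  obtain ⟨K3, K30, hK3⟩ := chart_le hH he kc kt
  obtain ⟨K4, K40, hK4⟩ := bd kc (f := fun l : Fin n => dzb l fun w => (β w : ℂ))
    fun l z hz => (cd_dzb (βs z) l).continuousAt.continuousWithinAt
  obtain ⟨m1, -, m2, -⟩ := hm e he _ kc'.measurableSet (kk.trans kt)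
  refine ⟨e.symm '' closedBall (e x) (r / 4), ?_, m1,
    K2 * K1 * (Fintype.card σ * (C * (K3 * ((2 * n * (K4 ^ 2 + 1) + 1) * K1)))), by positivity,
    fun d W hW => ?_⟩
  · have := image_mem_map (m := e.symm) (closedBall_mem_nhds (e x) (by positivity : 0 < r / 4))
    rwa [e.symm.map_nhds_eq (e.map_source hx), e.left_inv hx] at this
  have p0 : ∀ y, 0 ≤ b.pn W y := Pre.pn_nonneg (g := ⟨H, b, hH, hb⟩) W
  have pc : Continuous (b.pn W) := continuous_re.comp (hb.pp_rep hW hW).2.continuous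
  obtain ⟨-, gc, g0, -⟩ := g1 W hW
  have sc : ContinuousOn e.symm (closedBall (e x) (r / 2)) := e.continuousOn_symm.mono kt
  set u : σ → E n → ℂ := fun i z => (β z : ℂ) * W e z i with hu
  have u0 : ∀ i z, z ∉ closedBall (e x) (r / 2) → u i =ᶠ[𝓝 z] fun _ => 0 := fun i z hz => by
    have : z ∉ tsupport β := by rwa [β.tsupport_eq]
    filter_upwards [notMem_tsupport_iff_eventuallyEq.1 this] with w hw
    simp only [hu, hw, Pi.zero_apply, ofReal_zero, zero_mul]
  have ws : ∀ i, ∀ z ∈ closedBall (e x) (r / 2), ContDiffAt ℝ ∞ (fun w => W e w i) z :=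
    fun i z hz => contDiffAt_pi.1 (hW.sm e he z (kt hz)) i
  have us : ∀ i, ContDiff ℝ ∞ (u i) := fun i => contDiff_iff_contDiffAt.2 fun z => by
    by_cases hz : z ∈ closedBall (e x) (r / 2)
    · exact (βs z).mul (ws i z hz)
    · exact contDiffAt_const.congr_of_eventuallyEq (u0 i z hz)
  have ut : ∀ i, tsupport (u i) ⊆ ball (e x) r := fun i z hz => kb (by
    by_contra h'
    exact (notMem_tsupport_iff_eventuallyEq.2 (u0 i z h')) hz)
  have cF : ∀ i, ContinuousOn (fun z => normSq (u i z) * A d (e.symm z))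
      (closedBall (e x) (r / 2)) := fun i =>
    (continuous_normSq.comp (us i).continuous).continuousOn.mul ((hA d).comp_continuousOn sc)
  have cG : ∀ i, ContinuousOn (fun z => (∑ l, normSq (dzb l (u i) z) + normSq (u i z)) *
      B d (e.symm z)) (closedBall (e x) (r / 2)) := fun i =>
    ((continuous_finsetSum _ fun l _ => continuous_normSq.comp (continuous_iff_continuousAt.2
      fun z => (cd_dzb (us i).contDiffAt l).continuousAt)).add
      (continuous_normSq.comp (us i).continuous)).continuousOn.mul ((hB d).comp_continuousOn sc)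
  have J0 : 0 ≤ ∫ y, (gb H b W y + b.pn W y) * B d y ∂M.mu H :=
    integral_nonneg fun y => mul_nonneg (add_nonneg (g0 y) (p0 y)) (B0 d y)
  have step : ∀ i, ∫ z in closedBall (e x) (r / 4), normSq (u i z) * A d (e.symm z) ≤
      C * (K3 * ((2 * n * (K4 ^ 2 + 1) + 1) * K1)) *
        ∫ y, (gb H b W y + b.pn W y) * B d y ∂M.mu H := fun i => by
    have a1 : ∫ z in closedBall (e x) (r / 4), normSq (u i z) * A d (e.symm z) ≤
        ∫ z in closedBall (e x) (r / 2), normSq (u i z) * A d (e.symm z) :=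
      setIntegral_mono_set ((cF i).integrableOn_compact kc)
        (Eventually.of_forall fun z => mul_nonneg (normSq_nonneg _) (A0 _ _)) kk.eventuallyLE
    have a2 : ∫ z in closedBall (e x) (r / 2), normSq (u i z) * A d (e.symm z) =
        ∫ z, normSq (u i z) * A d (e.symm z) :=
      setIntegral_eq_integral_of_forall_compl_eq_zero fun z hz => by
        rw [(u0 i z hz).eq_of_nhds, map_zero, zero_mul]
    have a3 : ∫ z in closedBall (e x) (r / 2),
        (∑ l, normSq (dzb l (u i) z) + normSq (u i z)) * B d (e.symm z) =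
        ∫ z, (∑ l, normSq (dzb l (u i) z) + normSq (u i z)) * B d (e.symm z) :=
      setIntegral_eq_integral_of_forall_compl_eq_zero fun z hz => by
        simp only [(u0 i z hz).eq_of_nhds, dzb_congr (u0 i z hz), dzb_const, map_zero,
          Finset.sum_const_zero, add_zero, zero_mul]
    have a4 := hK3 _ (fun y => (2 * n * (K4 ^ 2 + 1) + 1) * K1 *
      ((gb H b W y + b.pn W y) * B d y)) _ kc subset_rfl (hi ℝ _ (by fun_prop))
      (fun y => mul_nonneg (by positivity) (mul_nonneg (add_nonneg (g0 y) (p0 y)) (B0 d y)))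
      (cG i) fun z hz => ⟨mul_nonneg (add_nonneg (Finset.sum_nonneg fun l _ => normSq_nonneg _)
        (normSq_nonneg _)) (B0 _ _), by
        rw [← mul_assoc]
        refine mul_le_mul_of_nonneg_right ?_ (B0 _ _)
        obtain ⟨-, c0, k⟩ := hc z (kt hz)
        obtain ⟨k1, k2, -⟩ := k W hW
        have c1 : c z ≤ K1 := (le_abs_self _).trans (hK1 () z hz)
        have q0 := p0 (e.symm z)
        have q1 := g0 (e.symm z)
        have b1 := (k1 i).trans (mul_le_mul_of_nonneg_right c1 q0)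
        have β1 : ‖(β z : ℂ)‖ ^ 2 ≤ 1 := by
          rw [norm_real, Real.norm_of_nonneg β.nonneg]
          exact pow_le_one₀ β.nonneg β.le_one
        have b2 : normSq (u i z) ≤ K1 * b.pn W (e.symm z) := by
          rw [normSq_eq_norm_sq, hu, norm_mul, mul_pow]
          exact (mul_le_of_le_one_left (sq_nonneg _) β1).trans b1
        have b3 : ∀ l, normSq (dzb l (u i) z) ≤
            2 * (K4 ^ 2 * (K1 * b.pn W (e.symm z)) + K1 * gb H b W (e.symm z)) := fun l => by
          rw [hu, dzb_mul (cd_diff (βs z)) (cd_diff (ws i z hz))]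
          refine (nsq_add _ _).trans (mul_le_mul_of_nonneg_left (add_le_add ?_ ?_) zero_le_two)
          · rw [norm_mul, mul_pow]
            exact mul_le_mul (pow_le_pow_left₀ (norm_nonneg _) (hK4 l z hz) 2) b1 (sq_nonneg _)
              (sq_nonneg _)
          · rw [norm_mul, mul_pow]
            exact (mul_le_of_le_one_left (sq_nonneg _) β1).trans
              ((k2 l i).trans (mul_le_mul_of_nonneg_right c1 q1))
        have b4 := Finset.sum_le_card_nsmul Finset.univ _ _ fun l _ => b3 l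
        rw [nsmul_eq_mul, Finset.card_univ, Fintype.card_fin] at b4
        have t1 := mul_nonneg K10.le q0
        have t2 := mul_nonneg K10.le q1
        have t3 : 0 ≤ (n : ℝ) * (K1 * b.pn W (e.symm z)) := by positivity
        have t4 : 0 ≤ (n : ℝ) * (K4 ^ 2 * (K1 * gb H b W (e.symm z))) := by positivity
        nlinarith⟩
    rw [integral_const_mul, a3] at a4
    rw [a2] at a1
    refine (a1.trans (hC d _ (us i) (ut i))).trans ?_
    rw [mul_assoc C, mul_assoc K3]
    exact mul_le_mul_of_nonneg_left a4 C0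
  rw [m2]
  have iF : ∀ i, IntegrableOn (fun z => normSq (u i z) * A d (e.symm z))
      (closedBall (e x) (r / 4)) := fun i => ((cF i).mono kk).integrableOn_compact kc'
  refine (integral_mono_of_nonneg (g := fun z => K2 * K1 * ∑ i, normSq (u i z) * A d (e.symm z))
    ((ae_restrict_iff' kc'.measurableSet).2 (Eventually.of_forall fun z hz => ?_))
    ((integrable_finsetSum _ fun i _ => iF i).const_mul _)
    ((ae_restrict_iff' kc'.measurableSet).2 (Eventually.of_forall fun z hz => ?_))).trans ?_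
  · exact mul_nonneg ((inv_pos.2 (by linarith)).le.trans (hK2 z (kk hz)).2.2.1)
      (mul_nonneg (p0 _) (A0 _ _))
  · obtain ⟨-, c0, k⟩ := hc z (kt (kk hz))
    have c1 : c z ≤ K1 := (le_abs_self _).trans (hK1 () z (kk hz))
    have b1 := (k W hW).2.2.trans (mul_le_mul_of_nonneg_right c1 (by positivity))
    have β1 : β z = 1 := β.one_of_mem_closedBall hz
    simp only [hu, β1, ofReal_one, one_mul, normSq_eq_norm_sq]
    rw [← Finset.sum_mul, mul_assoc K2, ← mul_assoc K1]
    exact mul_le_mul (hK2 z (kk hz)).2.2.2 (mul_le_mul_of_nonneg_right b1 (A0 _ _))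
      (mul_nonneg (p0 _) (A0 _ _)) (by linarith)
  · rw [integral_const_mul, integral_finsetSum _ fun i _ => iF i, mul_assoc (K2 * K1),
      mul_assoc (Fintype.card σ : ℝ)]
    refine mul_le_mul_of_nonneg_left ?_ (by positivity)
    have := Finset.sum_le_card_nsmul Finset.univ _ _ fun i _ => step i
    rwa [nsmul_eq_mul, Finset.card_univ] at this

/-- The global inequality. -/
theorem glob [M.Cpt] {H : M.Fam (Mat n)} {b : Bun M σ} {A B : P → M.X → ℝ} (hH : M.Met H)
    (hb : b.Ok) (hl : b.Hl) (hA : ∀ d, Continuous (A d)) (A0 : ∀ d x, 0 ≤ A d x)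
    (hB : ∀ d, Continuous (B d)) (B0 : ∀ d x, 0 ≤ B d x) (h : Loc M A B) :
    ∃ C : ℝ, 0 ≤ C ∧ ∀ d W, b.Sec W → ∫ y, b.pn W y * A d y ∂M.mu H ≤
      C * ∫ y, (gb H b W y + b.pn W y) * B d y ∂M.mu H := by
  choose U hU mU C C0 hC using pt hH hb hl hA A0 hB B0 h
  obtain ⟨t, -, ht⟩ := isCompact_univ.elim_nhds_subcover U fun x _ => hU x
  refine ⟨∑ x ∈ t, C x, Finset.sum_nonneg fun x _ => C0 x, fun d W hW => ?_⟩
  have p0 : ∀ y, 0 ≤ b.pn W y := Pre.pn_nonneg (g := ⟨H, b, hH, hb⟩) W
  have pc : Continuous (b.pn W) := continuous_re.comp (hb.pp_rep hW hW).2.continuous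
  have i1 : Integrable (fun y => b.pn W y * A d y) (M.mu H) :=
    (mMU n M H hH).2.2.2.2.1 ℝ _ (pc.mul (hA d))
  rw [Finset.sum_mul]
  refine le_trans ?_ (Finset.sum_le_sum fun x _ => hC x d W hW)
  simp only [← integral_indicator (mU _)]
  rw [← integral_finsetSum _ fun x _ => i1.indicator (mU x)]
  refine integral_mono i1 (integrable_finsetSum _ fun x _ => i1.indicator (mU x)) fun y => ?_
  obtain ⟨x, hx, hy⟩ := mem_iUnion₂.1 (ht (mem_univ y))
  refine le_trans (le_of_eq (indicator_of_mem hy fun y => b.pn W y * A d y).symm)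
    (Finset.single_le_sum (f := fun x => (U x).indicator (fun y => b.pn W y * A d y) y)
      (fun x _ => indicator_nonneg (fun y _ => mul_nonneg (p0 y) (A0 d y)) y) hx)

end Pool.Agent.Lib.N4S.Nc4
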