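import Pool.Agent.Lib.N4S.Nc4b
import Pool.Agent.Lib.N4S.Kit78
import Pool.Agent.Lib.F4.D_PW

/-! No concentration for weights that are sums of a potential with zero Lelong numbers and of a
fractional divisor with normal crossings. -/

open scoped Classical Topology ContDiff ComplexOrder Matrix
open Set MeasureTheory Filter

set_option linter.unusedVariables false
set_option linter.unusedSectionVars false

noncomputable section

namespace Pool.Agent.Lib.N4S.Nc4

open Pool.Agent.Lib.SV (E)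
open Pool.Agent.Lib.HS32 Pool.Agent.Lib.HLK Pool.Agent.Lib.N4S.K78

variable {n : ℕ} {M : Mf n} {σ : Type} [Fintype σ] [DecidableEq σ] {I : Type} [Fintype I]

theorem young {κ l : I → ℝ} (κ0 : ∀ k, 0 ≤ κ k) {δ η : ℝ} (hδ : 0 < δ) (hη : 0 < η) (y : ℝ) :
    Real.exp y * Real.exp (∑ k, κ k * l k) ≤
      η * ∑ k, Real.exp (∑ k, κ k * l k) * Real.exp (δ * l k) +
      Real.exp (-((∑ k, κ k) / δ * Real.log η)) * Real.exp ((1 + (∑ k, κ k) / δ) * y) := by
  by_cases h : ∃ k, Real.exp y ≤ η * Real.exp (δ * l k)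
  · obtain ⟨k, hk⟩ := h
    refine le_add_of_le_of_nonneg ?_ (by positivity)
    refine le_trans ?_ (mul_le_mul_of_nonneg_left (Finset.single_le_sum
      (f := fun k => Real.exp (∑ k, κ k * l k) * Real.exp (δ * l k)) (fun k _ => by positivity)
      (Finset.mem_univ k)) hη.le)
    exact (mul_le_mul_of_nonneg_right hk (Real.exp_pos _).le).trans (le_of_eq (by ring))
  · push Not at h
    refine le_add_of_nonneg_of_le (by positivity) ?_
    rw [← Real.exp_add, ← Real.exp_add]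
    refine Real.exp_le_exp.2 ?_
    have h1 : ∀ k, l k ≤ (y - Real.log η) / δ := fun k => by
      have := h k
      rw [← Real.exp_log hη, ← Real.exp_add, Real.exp_lt_exp] at this
      rw [le_div_iff₀ hδ]
      linarith
    have h2 : ∑ k, κ k * l k ≤ (∑ k, κ k) * ((y - Real.log η) / δ) := by
      rw [Finset.sum_mul]
      exact Finset.sum_le_sum fun k _ => mul_le_mul_of_nonneg_left (h1 k) (κ0 k)
    refine (add_le_add_right h2 y).trans (le_of_eq (by ring))

theorem tail_pt {r K : ℝ} (hr : 0 ≤ r) (hK : 0 < K) {N : ℕ} (hN : N ≠ 0) :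
    max (r - K) 0 ^ N ≤ r ^ (N + 1) / K := by
  by_cases h : r ≤ K
  · rw [max_eq_right (by linarith), zero_pow hN]
    positivity
  · push Not at h
    rw [max_eq_left (by linarith), le_div_iff₀ hK, pow_succ]
    exact mul_le_mul (pow_le_pow_left₀ (by linarith) (by linarith) N) h.le hK.le (by positivity)

section bun

variable [M.Cpt] {H : M.Fam (Mat n)} {b : Bun M σ}

theorem pn_c (hb : b.Ok) {W : M.Fam (σ → ℂ)} (hW : b.Sec W) : Continuous (b.pn W) :=
  Complex.continuous_re.comp (hb.pp_rep hW hW).2.continuous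

theorem pn_0 (hH : M.Met H) (hb : b.Ok) (W : M.Fam (σ → ℂ)) (x : M.X) : 0 ≤ b.pn W x :=
  Pre.pn_nonneg (g := ⟨H, b, hH, hb⟩) W x

theorem itg (hH : M.Met H) {f : M.X → ℝ} (hf : Continuous f) : Integrable f (M.mu H) :=
  (mMU n M H hH).2.2.2.2.1 ℝ f hf

theorem gb_c (hH : M.Met H) (hb : b.Ok) (hl : b.Hl) {W : M.Fam (σ → ℂ)} (hW : b.Sec W) :
    Continuous (gb H b W) ∧ ∀ x, 0 ≤ gb H b W x :=
  ⟨((aGB n M σ H b hH hb hl).1 W hW).2.1, ((aGB n M σ H b hH hb hl).1 W hW).2.2.1⟩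

/-- A small density sees a small part of the energy. -/
theorem sob (hn : 0 < n) (hH : M.Met H) (hb : b.Ok) (hl : b.Hl) {η : ℝ} (hη : 0 < η) :
    ∃ ε : ℝ, 0 < ε ∧ ∀ (W : M.Fam (σ → ℂ)) (ρ F : M.X → ℝ) (A : ℝ), b.Sec W → Measurable ρ →
      (∀ x, 0 ≤ ρ x ∧ ρ x ≤ A) → ∫ x, ρ x ^ (2 * n) ∂M.mu H ≤ ε → Continuous F → (∀ x, 1 ≤ F x) →
      ∫ x, ρ x * b.pn W x ∂M.mu H ≤ η * ∫ x, (gb H b W x + b.pn W x) * F x ∂M.mu H := by
  obtain ⟨C, C0, hC⟩ := aSOB n M σ H b hn hH hb hl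
  refine ⟨(η / (C + 1)) ^ (2 * n), by positivity, fun W ρ F A hW hρ hA h hF F1 => ?_⟩
  obtain ⟨gc, g0⟩ := gb_c hH hb hl hW
  have p0 := pn_0 hH hb W
  have pc := pn_c hb hW
  have e : (1 / (2 * n : ℝ)) = ((2 * n : ℕ) : ℝ)⁻¹ := by push_cast; rw [one_div]
  have h1 : (∫ x, ρ x ^ (2 * n) ∂M.mu H) ^ (1 / (2 * n : ℝ)) ≤ η / (C + 1) := by
    refine (Real.rpow_le_rpow (integral_nonneg fun x => pow_nonneg (hA x).1 _) h
      (by positivity)).trans (le_of_eq ?_)
    rw [e, Real.pow_rpow_inv_natCast (by positivity) (by omega)]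
  have h2 : b.nr H W + ∫ x, gb H b W x ∂M.mu H ≤ ∫ x, (gb H b W x + b.pn W x) * F x ∂M.mu H := by
    rw [Bun.nr, add_comm, ← integral_add (itg hH gc) (itg hH pc)]
    exact integral_mono (itg hH (gc.add pc)) (itg hH ((gc.add pc).mul hF)) fun x =>
      le_mul_of_one_le_right (add_nonneg (g0 x) (p0 x)) (F1 x)
  refine (hC W ρ A hW hρ hA).trans (mul_le_mul ?_ h2
    (add_nonneg (integral_nonneg p0) (integral_nonneg g0)) hη.le)
  refine (mul_le_mul_of_nonneg_left h1 C0).trans ?_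
  rw [← mul_div_assoc, div_le_iff₀ (by positivity)]
  nlinarith

end bun

variable (S : Sd M I)

/-- Minus the logarithm of the regularised norm. -/
def lg (d : ℝ) (k : I) (x : M.X) : ℝ := -Real.log (sg S.toDk k x + d)

/-- The fractional density. -/
def vp (κ : I → ℝ) (d : ℝ) (x : M.X) : ℝ := Real.exp (∑ k, κ k * lg S d k x)

theorem lg_c {d : ℝ} (hd : 0 < d) (k : I) : Continuous (lg S d k) :=
  (lsg_sm S.toDk hd k).continuous.neg

theorem lg_0 {d : ℝ} (hd : d ∈ Ioc (0 : ℝ) (1 / 2)) (k : I) (x : M.X) : 0 ≤ lg S d k x :=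
  neg_nonneg.2 (lsg_le S hd k x)

theorem lg_exp {d : ℝ} (hd : 0 < d) (k : I) (x : M.X) (t : ℝ) :
    Real.exp (t * lg S d k x) = (sg S.toDk k x + d) ^ (-t) := by
  rw [Real.rpow_def_of_pos (add_pos_of_nonneg_of_pos (sg_nn _ k x) hd), lg]
  exact congrArg Real.exp (by ring)

theorem vp_c (κ : I → ℝ) {d : ℝ} (hd : 0 < d) : Continuous (vp S κ d) :=
  Real.continuous_exp.comp (continuous_finsetSum _ fun k _ => continuous_const.mul (lg_c S hd k))

theorem vp_1 {κ : I → ℝ} (κ0 : ∀ k, 0 ≤ κ k) {d : ℝ} (hd : d ∈ Ioc (0 : ℝ) (1 / 2)) (x : M.X) :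
    1 ≤ vp S κ d x :=
  Real.one_le_exp (Finset.sum_nonneg fun k _ => mul_nonneg (κ0 k) (lg_0 S hd k x))

theorem vp_eq (κ : I → ℝ) {d : ℝ} (hd : 0 < d) (x : M.X) :
    vp S κ d x = ∏ k, (sg S.toDk k x + d) ^ (-κ k) := by
  rw [vp, Real.exp_sum]
  exact Finset.prod_congr rfl fun k _ => lg_exp S hd k x _

variable [M.Cpt] {b : Bun M σ} {κ : I → ℝ}

/-- The inequality of Hardy, with a gain. -/
theorem har2 (hb : b.Ok) (hl : b.Hl) (hκ : ∀ k, 0 ≤ κ k ∧ κ k < 1) :
    ∃ δ C : ℝ, 0 < δ ∧ δ ≤ 1 ∧ 0 ≤ C ∧ ∀ d ∈ Ioc (0 : ℝ) (1 / 2), ∀ W, b.Sec W → ∀ k,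
      ∫ x, b.pn W x * (vp S κ d x * Real.exp (δ * lg S d k x)) ∂M.mu S.H ≤
        C * ∫ x, (gb S.H b W x + b.pn W x) * vp S κ d x ∂M.mu S.H := by
  have h1 : ∀ᶠ δ in 𝓝[>] (0 : ℝ), ∀ k, δ ∈ Ioo 0 (1 - κ k) :=
    eventually_all.2 fun k => Ioo_mem_nhdsGT (by linarith [(hκ k).2])
  obtain ⟨δ, h2, h3⟩ := (h1.and (Ioo_mem_nhdsGT one_pos)).exists
  choose C C0 hC using fun k => ghar (met S) hb hl S.hol S.wt S.snc (fun k => (hκ k).1) k
    (t := κ k + δ) (by linarith [(hκ k).1, h3.1]) (by linarith [(h2 k).2])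
  refine ⟨δ, ∑ k, C k, h3.1, h3.2.le, Finset.sum_nonneg fun k _ => C0 k, fun d hd W hW k => ?_⟩
  obtain ⟨gc, g0⟩ := gb_c (met S) hb hl hW
  have p0 := pn_0 (met S) hb W
  have sp : ∀ j x, 0 < sg S.toDk j x + d := fun j x => add_pos_of_nonneg_of_pos (sg_nn _ j x) hd.1
  have e : ∀ x, vp S κ d x = (sg S.toDk k x + d) ^ (-κ k) *
      ∏ j ∈ Finset.univ.erase k, (sg S.toDk j x + d) ^ (-κ j) := fun x => by
    rw [vp_eq S κ hd.1, Finset.mul_prod_erase _ (fun j => (sg S.toDk j x + d) ^ (-κ j))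
      (Finset.mem_univ k)]
  have q0 : ∀ x, 0 ≤ ∏ j ∈ Finset.univ.erase k, (sg S.toDk j x + d) ^ (-κ j) := fun x =>
    Finset.prod_nonneg fun j _ => (Real.rpow_pos_of_pos (sp j x) _).le
  refine le_trans (le_of_eq (integral_congr_ae (Eventually.of_forall fun x => ?_)))
    ((hC k d ⟨hd.1, by linarith [hd.2]⟩ W hW).trans (mul_le_mul
      (Finset.single_le_sum (fun k _ => C0 k) (Finset.mem_univ k)) (integral_mono_of_nonneg
        (Eventually.of_forall fun x => mul_nonneg (add_nonneg (g0 x) (p0 x)) (q0 x))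
        (itg (met S) ((gc.add (pn_c hb hW)).mul (vp_c S κ hd.1))) (Eventually.of_forall fun x =>
          mul_le_mul_of_nonneg_left ?_ (add_nonneg (g0 x) (p0 x))))
      (integral_nonneg fun x => mul_nonneg (add_nonneg (g0 x) (p0 x)) (q0 x))
      (Finset.sum_nonneg fun k _ => C0 k)))
  · show _ = b.pn W x * ((sg S.toDk k x + d) ^ (-(κ k + δ)) *
      ∏ j ∈ Finset.univ.erase k, (sg S.toDk j x + d) ^ (-κ j))
    beta_reduce
    rw [e, lg_exp S hd.1, neg_add, Real.rpow_add (sp k x)]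
    ring
  · rw [e]
    refine le_mul_of_one_le_left (q0 x) ?_
    rw [← lg_exp S hd.1]
    exact Real.one_le_exp (mul_nonneg (hκ k).1 (lg_0 S hd k x))

/-- No concentration. -/
theorem master (hn : 0 < n) (hb : b.Ok) (hl : b.Hl) (hκ : ∀ k, 0 ≤ κ k ∧ κ k < 1) {J : Type}
    {y : J → M.X → ℝ} (yc : ∀ j, Continuous (y j)) (y0 : ∀ j x, 0 ≤ y j x)
    (hy : ∀ p : ℝ, 0 < p → ∃ C : ℝ, ∀ j, ∫ x, Real.exp (p * y j x) ∂M.mu S.H ≤ C)
    {η : ℝ} (hη : 0 < η) :
    ∃ K : ℝ, 0 ≤ K ∧ ∀ j, ∀ d ∈ Ioc (0 : ℝ) (1 / 2), ∀ W, b.Sec W → ∀ θ : M.X → ℝ, Measurable θ →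
      (∀ x, 0 ≤ θ x ∧ θ x ≤ 1) →
      ∫ x, θ x * (b.pn W x * (Real.exp (y j x) * vp S κ d x)) ∂M.mu S.H ≤
        η * ∫ x, (gb S.H b W x + b.pn W x) * (Real.exp (y j x) * vp S κ d x) ∂M.mu S.H +
          K * ∫ x, θ x * b.pn W x ∂M.mu S.H := by
  have hH := met S
  obtain ⟨δ, C, δ0, -, C0, hC⟩ := har2 S hb hl hκ
  obtain ⟨ε, ε0, hε⟩ := sob hn hH hb hl (half_pos hη)
  set s : ℝ := η / 2 / (Fintype.card I * C + 1) with hs
  have s0 : 0 < s := by positivity
  have A0 : 0 ≤ (∑ k, κ k) / δ := div_nonneg (Finset.sum_nonneg fun k _ => (hκ k).1) δ0.le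
  set c : ℝ := Real.exp (-((∑ k, κ k) / δ * Real.log s)) with hc
  have c0 : 0 < c := Real.exp_pos _
  set p : ℝ := 1 + (∑ k, κ k) / δ with hp
  obtain ⟨Z, hZ⟩ := hy (((2 * n + 1 : ℕ) : ℝ) * p) (by positivity)
  set K : ℝ := c ^ (2 * n + 1) * max Z 1 / ε with hK
  have K0 : 0 < K := by positivity
  refine ⟨K, K0.le, fun j d hd W hW θ θm θ1 => ?_⟩
  obtain ⟨gc, g0⟩ := gb_c hH hb hl hW
  have p0 := pn_0 hH hb W
  have pc := pn_c hb hW
  have vc := vp_c S κ hd.1
  have v1 := vp_1 S (fun k => (hκ k).1) hd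
  have ec : ∀ t : ℝ, Continuous fun x => Real.exp (t * y j x) := fun t =>
    Real.continuous_exp.comp (continuous_const.mul (yc j))
  have Fc : Continuous fun x => Real.exp (y j x) * vp S κ d x :=
    (Real.continuous_exp.comp (yc j)).mul vc
  have e1 : ∀ x, 1 ≤ Real.exp (y j x) := fun x => Real.one_le_exp (y0 j x)
  set ρ : M.X → ℝ := fun x => max (c * Real.exp (p * y j x) - K) 0 with hρ
  have ρc : Continuous ρ := ((continuous_const.mul (ec p)).sub continuous_const).max continuous_const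
  obtain ⟨A, hA⟩ := isCompact_univ.bddAbove_image ρc.continuousOn
  have t1 := hε W ρ _ A hW ρc.measurable (fun x => ⟨le_max_right _ _, hA ⟨x, mem_univ x, rfl⟩⟩)
    (by
      refine (integral_mono (g := fun x => c ^ (2 * n + 1) / K *
        Real.exp (((2 * n + 1 : ℕ) : ℝ) * p * y j x)) (itg hH (ρc.pow _))
        ((itg hH (ec _)).const_mul _) fun x => ?_).trans ?_
      · refine (tail_pt (by positivity) K0 (by omega)).trans (le_of_eq ?_)
        beta_reduce
        rw [mul_pow, mul_assoc _ p, Real.exp_nat_mul (p * y j x)]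
        ring
      · rw [integral_const_mul]
        refine (mul_le_mul_of_nonneg_left ((hZ j).trans (le_max_left Z 1))
          (by positivity)).trans (le_of_eq ?_)
        rw [hK]
        have : 0 < max Z 1 := by positivity
        field_simp)
    Fc fun x => one_le_mul_of_one_le_of_one_le (e1 x) (v1 x)
  set Q := ∫ x, (gb S.H b W x + b.pn W x) * (Real.exp (y j x) * vp S κ d x) ∂M.mu S.H with hQ
  have gp : ∀ x, 0 ≤ gb S.H b W x + b.pn W x := fun x => add_nonneg (g0 x) (p0 x)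
  have Q1 : ∫ x, (gb S.H b W x + b.pn W x) * vp S κ d x ∂M.mu S.H ≤ Q :=
    integral_mono (itg hH ((gc.add pc).mul vc)) (itg hH ((gc.add pc).mul Fc)) fun x =>
      mul_le_mul_of_nonneg_left (le_mul_of_one_le_left (zero_le_one.trans (v1 x)) (e1 x)) (gp x)
  have Q0 : 0 ≤ Q := (integral_nonneg fun x => mul_nonneg (gp x) (zero_le_one.trans (v1 x))).trans Q1
  have i1 : ∀ k, Integrable (fun x => b.pn W x * (vp S κ d x * Real.exp (δ * lg S d k x)))
      (M.mu S.H) := fun k => itg hH (pc.mul (vc.mul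
        (Real.continuous_exp.comp (continuous_const.mul (lg_c S hd.1 k)))))
  have i2 : Integrable (fun x => θ x * b.pn W x) (M.mu S.H) :=
    (itg hH pc).bdd_mul (c := 1) θm.aestronglyMeasurable (Eventually.of_forall fun x => by
      rw [Real.norm_of_nonneg (θ1 x).1]
      exact (θ1 x).2)
  have i3 : Integrable (fun x => ρ x * b.pn W x) (M.mu S.H) := itg hH (ρc.mul pc)
  have i4 : Integrable (fun x => s * ∑ k, b.pn W x * (vp S κ d x * Real.exp (δ * lg S d k x)))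
      (M.mu S.H) := (integrable_finsetSum _ fun k _ => i1 k).const_mul s
  have i5 : Integrable (fun x => K * (θ x * b.pn W x) + ρ x * b.pn W x) (M.mu S.H) :=
    (i2.const_mul K).add i3
  refine (integral_mono_of_nonneg (g := fun x =>
    s * ∑ k, b.pn W x * (vp S κ d x * Real.exp (δ * lg S d k x)) +
      (K * (θ x * b.pn W x) + ρ x * b.pn W x)) (Eventually.of_forall fun x => mul_nonneg (θ1 x).1
        (mul_nonneg (p0 x) (mul_nonneg (Real.exp_pos _).le (zero_le_one.trans (v1 x)))))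
    (i4.add i5) (Eventually.of_forall fun x => ?_)).trans ?_
  · have a1 := young (l := fun k => lg S d k x) (fun k => (hκ k).1) δ0 s0 (y j x)
    have a2 : c * Real.exp (p * y j x) ≤ K + ρ x := by
      linarith [le_max_left (c * Real.exp (p * y j x) - K) 0]
    have a3 : 0 ≤ s * ∑ k, vp S κ d x * Real.exp (δ * lg S d k x) :=
      mul_nonneg s0.le (Finset.sum_nonneg fun k _ =>
        mul_nonneg (zero_le_one.trans (v1 x)) (Real.exp_pos _).le)
    have a4 : Real.exp (y j x) * vp S κ d x ≤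
        s * ∑ k, vp S κ d x * Real.exp (δ * lg S d k x) + (K + ρ x) :=
      a1.trans (add_le_add_right a2 _)
    have a5 : 0 ≤ ρ x := le_max_right _ _
    beta_reduce
    rw [← Finset.mul_sum]
    have a6 := mul_le_mul_of_nonneg_left a4 (mul_nonneg (θ1 x).1 (p0 x))
    have a7 := mul_le_mul_of_nonneg_right (θ1 x).2 (mul_nonneg (p0 x) (add_nonneg a3 a5))
    linarith
  · rw [integral_add i4 i5, integral_add (i2.const_mul K) i3, integral_const_mul,
      integral_const_mul, integral_finsetSum _ fun k _ => i1 k]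
    have a1 := Finset.sum_le_card_nsmul Finset.univ _ _ fun k _ =>
      (hC d hd W hW k).trans (mul_le_mul_of_nonneg_left Q1 C0)
    rw [nsmul_eq_mul, Finset.card_univ] at a1
    have a2 : s * (Fintype.card I * C) ≤ η / 2 := by
      rw [hs, div_mul_eq_mul_div, div_le_iff₀ (by positivity)]
      linarith
    have a3 := mul_le_mul_of_nonneg_left a1 s0.le
    have a4 := mul_le_mul_of_nonneg_right a2 Q0
    linarith

end Pool.Agent.Lib.N4S.Nc4
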