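import Pool.Agent.Lib.N4S.Klt51
import Pool.Agent.Lib.NU4.B_PB
import Pool.Agent.Lib.NU4.Pa37
import Pool.Agent.Lib.NU4.B_KIT

/-! Project n4s: the total weights at level two; tightness, uniform integrability and the
divergence. -/

open scoped Classical Topology ContDiff ComplexOrder Matrix
open Set Filter MeasureTheory

set_option linter.unusedVariables false

noncomputable section

namespace Pool.Agent.Lib.N4S.T44

open Pool.Agent.Lib.SV (E)
open Pool.Agent.Lib.HS32 Pool.Agent.Lib.HLK Pool.Agent.Lib.F4 Pool.Agent.Lib.NU4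
open Pool.Agent.Lib.K3E (kan wk lk)
open Pool.Agent.Lib.N4S.K78

variable {n : ℕ} {M : Mf n} {I : Type} [Fintype I]

/-- The total weight at level two. -/
def uj (S : Sd M I) (a : ℝ → M.X → ℝ) (q : Sq) (j : ℕ) : M.X → ℝ :=
  fun x => ww S a q 2 j x + Real.log (fa S 2 x)

/-- The derivative of a function along a field of level two is bounded. -/
theorem dbd [M.Cpt] {H : M.Fam (Mat n)} (hH : M.Met H) {W : M.Fam (E n)} (hW : HT M 2 W)
    {f : M.X → ℝ} (hf : M.Sm f) : ∃ C : ℝ, 0 ≤ C ∧ ∀ x,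
      M.ev (fun e z => ‖dir (W e) (M.lc f e) z‖ / (H e z).det.re) x ≤ C := by
  have wt1 : M.Wt 1 (F4.ph M H) := (mINV n M H hH).2.2.2.2.2.2.1
  have i : M.Inv fun e z => Complex.normSq (dir (W e) (M.lc f e) z) *
      Real.exp (-F4.ph M H e z) ^ 2 := fun e he e' he' x hx hx' => by
    have nj : 0 < Complex.normSq (jd M e e' x) :=
      Complex.normSq_pos.2 ((mTR n M).2.1 e he e' he' x hx hx').2.1
    have := nj.ne'
    beta_reduce
    rw [P56.dir_cmp hW hf e he e' he' x hx hx', wt1.cmp e he e' he' x hx hx', one_mul, neg_add,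
      Real.exp_add, Real.exp_neg (Real.log _), Real.exp_log nj, map_mul, zpow_ofNat, map_pow]
    field_simp
  obtain ⟨C, C0, hC⟩ := (i.sm fun e he z hz => (Mf.cd_normSq (ContDiffAt.sum fun k _ =>
    ((mHOL n _ z).2.2 (hW.hol e he z hz k)).1.mul (cd_dz (hf.lc e he z hz) k))).mul
      ((wt1.sm e he z hz).neg.exp.pow 2)).exists_bound
  refine ⟨√C, Real.sqrt_nonneg _, fun x => Real.le_sqrt_of_sq_le ?_⟩
  refine le_trans (le_of_eq ?_) ((le_abs_self _).trans (hC x))
  simp only [Mf.ev, F4.ph, Real.exp_neg, Real.exp_log (Mf.pd_det_re (hH.pos.ch x)),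
    Complex.normSq_eq_norm_sq, div_eq_mul_inv, mul_pow]

variable {S : Sd M I} {a : ℝ → M.X → ℝ}

theorem uj_eq (q : Sq) (j : ℕ) {x : M.X} (hx : x ∈ Of S.toDk) : uj S a q j x = pj S a q j x +
    ∑ k, (fl S.toDk 2 k : ℝ) *
      (Real.log (sg S.toDk k x) - Real.log (sg S.toDk k x + q.d j)) := by
  have h : ∀ k, al S.toDk k = fl S.toDk 2 k + ka S.toDk 2 k := fun k => by
    rw [fl_ka S.toDk one_le_two k]; push_cast; ring
  rw [uj, fa, Real.log_mul (Finset.prod_ne_zero_iff.2 fun k _ => pow_ne_zero _ (hx k))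
    (Real.exp_pos _).ne', Real.log_exp, Real.log_prod fun k _ => pow_ne_zero _ (hx k)]
  simp only [Real.log_pow, pot, ww, lf, h, add_mul, mul_sub, Finset.sum_add_distrib,
    Finset.sum_sub_distrib]
  push_cast
  ring

/-- Smoothness off the divisors. -/
theorem uj_sm (hZ : Zs S a) (q : Sq) (j : ℕ) : M.All fun e z => e.symm z ∈ Of S.toDk →
    ContDiffAt ℝ ∞ (uj S a q j ∘ e.symm) z := fun e he z hz h =>
  (ww_sm hZ q 2 j e he z hz).add ((fa_sm S 2 e he z hz).log (fa_pos S 2 h).ne')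

theorem exp_uj (q : Sq) (j : ℕ) {x : M.X} (hx : x ∈ Of S.toDk) :
    Real.exp (-uj S a q j x) * fa S 2 x = Real.exp (-ww S a q 2 j x) := by
  rw [uj, neg_add, Real.exp_add, Real.exp_neg (Real.log _), Real.exp_log (fa_pos S 2 hx),
    mul_assoc, inv_mul_cancel₀ (fa_pos S 2 hx).ne', mul_one]

/-- Tightness. -/
theorem tg [M.Cpt] (hZ : Zs S a) (q : Sq) (δ : ℝ) (hδ : 0 < δ) :
    ∃ R : ℝ, ∀ j, (M.mu S.H).real {x | uj S a q j x ≤ -R} ≤ δ := by
  have := (mMU n M _ (met S)).2.1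
  have i := (mMU n M _ (met S)).2.2.2.2.1 ℝ
  obtain ⟨C, hC⟩ := Klt51.bd hZ q one_le_two
  have m : Measurable fun x => Real.log (fa S 2 x) := (fa_sm S 2).continuous.measurable.log
  have t := tendsto_measure_iInter_atTop (μ := M.mu S.H)
    (s := fun k : ℕ => {x | Real.log (fa S 2 x) ≤ -k})
    (fun k => (measurableSet_le m measurable_const).nullMeasurableSet)
    (fun b c h x (hx : Real.log _ ≤ _) => show Real.log _ ≤ _ from
      le_trans hx (neg_le_neg (Nat.cast_le.2 h)))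
    ⟨0, measure_ne_top _ _⟩
  have e : (⋂ k : ℕ, {x | Real.log (fa S 2 x) ≤ -k}) = ∅ := eq_empty_of_forall_notMem fun x hx => by
    obtain ⟨k, hk⟩ := exists_nat_gt (-Real.log (fa S 2 x))
    have : Real.log (fa S 2 x) ≤ -k := mem_iInter.1 hx k
    linarith
  rw [e, measure_empty] at t
  obtain ⟨k, hk⟩ := (t.eventually (ge_mem_nhds (ENNReal.ofReal_pos.2 (half_pos hδ)))).exists
  have hk' := ENNReal.toReal_le_of_le_ofReal (half_pos hδ).le hk
  set T : ℝ := 2 * (|C| + 1) / δ with hT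
  have T0 : 0 < T := by positivity
  refine ⟨Real.log T + k, fun j => ?_⟩
  have c := (ww_sm hZ q 2 j).continuous.neg.rexp
  have mk := mul_meas_ge_le_integral_of_nonneg
    (Eventually.of_forall fun x => (Real.exp_pos (-ww S a q 2 j x)).le) (i _ c) T
  have s : {x | uj S a q j x ≤ -(Real.log T + k)} ⊆
      {x | T ≤ Real.exp (-ww S a q 2 j x)} ∪ {x | Real.log (fa S 2 x) ≤ -k} := fun x hx => by
    by_contra h
    simp only [mem_union, mem_ofPred_eq, not_or, not_le] at h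
    have h1 := (Real.lt_log_iff_exp_lt T0).2 h.1
    have h2 : ww S a q 2 j x + Real.log (fa S 2 x) ≤ _ := hx
    linarith [h.2]
  refine ((measureReal_mono s).trans (measureReal_union_le _ _)).trans
    ((add_le_add ?_ hk').trans_eq (add_halves δ))
  refine le_of_mul_le_mul_left ((mk.trans (hC j)).trans ?_) T0
  have : T * (δ / 2) = |C| + 1 := by rw [hT]; field_simp
  linarith [le_abs_self C]

/-- A higher power of the weights is integrable. -/
theorem hp [M.Cpt] (hZ : Zs S a) (q : Sq) {m : ℕ} (hm : 1 ≤ m) : ∃ r C : ℝ, 1 < r ∧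
    ∀ j, ∫ x, Real.exp (-ww S a q m j x) ^ r ∂M.mu S.H ≤ C := by
  have m0 : (0 : ℝ) ≤ (m : ℝ) - 1 := sub_nonneg.2 (by exact_mod_cast hm)
  obtain ⟨r, r1, hr⟩ := Klt51.room (ka_lt S.toDk m)
  have r0 := one_pos.trans r1
  obtain ⟨C, hC⟩ := Klt51.klt hZ (fun k => mul_nonneg (ka_nn S.toDk m k) r0.le) hr
    (mul_nonneg m0 r0.le)
  have i := (mMU n M _ (met S)).2.2.2.2.1 ℝ
  refine ⟨r, C, r1, fun j => le_trans ?_
    (hC _ ⟨(q.d0 j).1, (q.d0 j).2.trans (by norm_num)⟩ _ (q.e0 j))⟩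
  refine integral_mono (i _ ((ww_sm hZ q m j).continuous.neg.rexp.rpow_const fun x => Or.inr r0.le))
    (i _ (((a_sm hZ q j).continuous.const_mul _).neg.rexp.mul (Klt51.pr_ct S (q.d0 j).1 _ _)))
    fun x => ?_
  have p := fun k => add_nonneg (sg_nn S.toDk k x) (q.d0 j).1.le
  beta_reduce
  rw [ww, neg_add, Real.exp_add, exp_lf S m (q.d0 j).1, Real.mul_rpow (Real.exp_pos _).le
    (Klt51.pr_pos S (q.d0 j).1 _ _ x).le, ← Real.exp_mul,
    ← Real.finsetProd_rpow _ _ fun k _ => Real.rpow_nonneg (p k) _]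
  simp only [fun k => (Real.rpow_mul (p k) (-ka S.toDk m k) r).symm, neg_mul]
  refine mul_le_mul_of_nonneg_right (Real.exp_le_exp.2 (neg_le_neg ?_))
    (Klt51.pr_pos S (q.d0 j).1 _ _ x).le
  rw [mul_right_comm]
  exact mul_le_mul_of_nonneg_right (mul_le_mul_of_nonneg_left (tp_ge q j x).2 m0) r0.le

/-- Uniform integrability, at every level. -/
theorem uwm [M.Cpt] (hZ : Zs S a) (q : Sq) {m : ℕ} (hm : 1 ≤ m) (η : ℝ) (hη : 0 < η) :
    ∃ δ > (0 : ℝ), ∀ j A, MeasurableSet A → (M.mu S.H).real A ≤ δ →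
      ∫ x in A, Real.exp (-ww S a q m j x) ∂M.mu S.H ≤ η := by
  have := (mMU n M _ (met S)).2.1
  have i := (mMU n M _ (met S)).2.2.2.2.1 ℝ
  obtain ⟨r, C, r1, hC⟩ := hp hZ q hm
  have t := (tendsto_rpow_neg_atTop (sub_pos.2 r1)).mul_const C
  rw [zero_mul] at t
  obtain ⟨T, h1, T0⟩ := ((t.eventually (ge_mem_nhds (half_pos hη))).and
    (eventually_gt_atTop 0)).exists
  refine ⟨η / 2 / T, by positivity, fun j A mA hA => ?_⟩
  have c := (ww_sm hZ q m j).continuous.neg.rexp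
  have i1 := i _ (c.rpow_const (p := r) fun x => Or.inr (one_pos.trans r1).le)
  have P := Real.rpow_pos_of_pos T0 (-(r - 1))
  have le : ∀ y : ℝ, 0 < y → y ≤ T + T ^ (-(r - 1)) * y ^ r := fun y hy => by
    have p := mul_pos P (Real.rpow_pos_of_pos hy r)
    rcases le_or_gt y T with h | h
    · linarith
    · have h2 := Real.rpow_le_rpow_of_nonpos T0 h.le (neg_nonpos.2 (sub_pos.2 r1).le)
      have h3 := mul_le_mul_of_nonneg_right h2 (Real.rpow_pos_of_pos hy r).le
      rw [← Real.rpow_add hy, show -(r - 1) + r = 1 by ring, Real.rpow_one] at h3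
      linarith
  refine (integral_mono (i _ c).integrableOn ((integrable_const T).add
    (i1.const_mul (T ^ (-(r - 1)))).integrableOn) fun x => le _ (Real.exp_pos _)).trans ?_
  rw [integral_add' (integrable_const T) (i1.const_mul _).integrableOn, setIntegral_const,
    integral_const_mul, smul_eq_mul]
  have h2 := (setIntegral_le_integral (s := A) i1 (Eventually.of_forall fun x =>
    Real.rpow_nonneg (Real.exp_pos _).le _)).trans (hC j)
  have h3 := (le_div_iff₀ T0).1 hA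
  linarith [mul_le_mul_of_nonneg_left h2 P.le]

/-- Uniform integrability. -/
theorem uw [M.Cpt] (hZ : Zs S a) (q : Sq) (η : ℝ) (hη : 0 < η) :
    ∃ δ > (0 : ℝ), ∀ j A, MeasurableSet A → (M.mu S.H).real A ≤ δ →
      ∫ x in A, Real.exp (-ww S a q 2 j x) ∂M.mu S.H ≤ η := uwm hZ q one_le_two η hη

/-- The divergence for the total weight. -/
theorem tp [M.Cpt] (hZ : Zs S a) (q : Sq) {W : M.Fam (E n)} (hW : HT M 2 W)
    (hP : Pr1 S a q 2 (vec M W)) : ∃ p : ℕ → M.X → ℝ,
    (∀ j x, x ∈ Of S.toDk → M.ev (fun e z => ‖dir (W e)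
      (fun w => ld (S.H e) w + M.lc (uj S a q j) e w) z - dv (W e) z‖ / (S.H e z).det.re) x ≤
        p j x) ∧ ∀ K, Cp S K → (∀ j, IntegrableOn (p j) K (M.mu S.H)) ∧
      Tendsto (fun j => ∫ x in K, p j x ∂M.mu S.H) atTop (𝓝 0) := by
  have := (mMU n M _ (met S)).2.1
  have i := (mMU n M _ (met S)).2.2.2.2.1 ℝ
  choose C C0 hC using fun k => dbd (met S) hW (sg_sm S.toDk k)
  have sW := ((st_KIT n M S.H 2 _ (met S)).1.1 ((st_KIT n M S.H 2 0 (met S)).2.1 W hW).1).1
  set g : ℕ → M.X → ℝ := fun j x => √((lk S.H 2).pn (Pd S a q 2 j (vec M W)) x) with hg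
  have cg : ∀ j, Continuous (g j) := fun j => by
    have sP := aSP n M S.H _ _ (vec M W) (met S)
      ((lk_wt S 2).addF ((pj_sm hZ q j).const_mul (((2 : ℕ) : ℝ) - 1))).1 ⟨sW.sm, sW.cmp⟩
    have sP' : (lk S.H 2).Sec (Pd S a q 2 j (vec M W)) := ⟨sP.sm, sP.cmp⟩
    exact ((lk_ok S 2).pp_rep sP' sP').2.re.continuous.sqrt
  set h : M.X → ℝ := fun x => ∑ k, (fl S.toDk 2 k : ℝ) * C k * (sg S.toDk k x ^ 2)⁻¹ with hh
  refine ⟨fun j x => g j x + q.d j * h x, fun j x hx => ?_, fun K hK => ?_⟩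
  · have D := Mf.pd_det_re ((met S).pos.ch x)
    have hx' : (M.ch x).symm (M.ch x x) ∈ Of S.toDk := by rwa [Mf.ch_symm]
    have wt1 : M.Wt 1 (F4.ph M S.H) := (mINV n M S.H (met S)).2.2.2.2.2.2.1
    have s1 : DifferentiableAt ℝ (fun w =>
        ((F4.ph M S.H (M.ch x) w + pj S a q j ((M.ch x).symm w) : ℝ) : ℂ)) (M.ch x x) :=
      cd_diff (cd_ofReal ((wt1.sm.ch x).add ((pj_sm hZ q j).ch x)))
    have s2 : ∀ k, DifferentiableAt ℝ (fun w => sg S.toDk k ((M.ch x).symm w)) (M.ch x x) :=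
      fun k => cd_diff ((sg_sm S.toDk k).ch x)
    have p1 := fun k => sg_pos S.toDk hx k
    have p2 := fun k => add_pos (p1 k) (q.d0 j).1
    have hd : ∀ k, HasDerivAt (fun t => (fl S.toDk 2 k : ℝ) * (Real.log t - Real.log (t + q.d j)))
        (fl S.toDk 2 k * ((sg S.toDk k x)⁻¹ - (sg S.toDk k x + q.d j)⁻¹))
        (sg S.toDk k ((M.ch x).symm (M.ch x x))) := fun k => by
      rw [Mf.ch_symm]
      have h := (Real.hasDerivAt_log (p2 k).ne').comp (sg S.toDk k x)
        ((hasDerivAt_id _).add_const (q.d j))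
      rw [mul_one] at h
      exact ((Real.hasDerivAt_log (p1 k).ne').sub h).const_mul _
    have s3 : ∀ k, DifferentiableAt ℝ (fun w => (((fl S.toDk 2 k : ℝ) *
        (Real.log (sg S.toDk k ((M.ch x).symm w)) -
          Real.log (sg S.toDk k ((M.ch x).symm w) + q.d j)) : ℝ) : ℂ)) (M.ch x x) := fun k =>
      by
        have := ((hd k).comp_hasFDerivAt (M.ch x x) (s2 k).hasFDerivAt).differentiableAt
        exact Complex.ofRealCLM.differentiableAt.comp (M.ch x x) this
    have ev : (fun w => ld (S.H (M.ch x)) w + M.lc (uj S a q j) (M.ch x) w) =ᶠ[𝓝 (M.ch x x)]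
        fun w => ((F4.ph M S.H (M.ch x) w + pj S a q j ((M.ch x).symm w) : ℝ) : ℂ) +
          ∑ k, (((fl S.toDk 2 k : ℝ) * (Real.log (sg S.toDk k ((M.ch x).symm w)) -
            Real.log (sg S.toDk k ((M.ch x).symm w) + q.d j)) : ℝ) : ℂ) :=
      (ev_Of S.toDk (Mf.ch_mem x) (Mf.ch_tgt x) hx').mono fun w hw => by
        simp only [Mf.lc, uj_eq q j hw.2, ld, F4.ph, Complex.ofReal_add, Complex.ofReal_sum,
          add_assoc]
    have e : dir (W (M.ch x)) (fun w => ld (S.H (M.ch x)) w + M.lc (uj S a q j) (M.ch x) w)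
        (M.ch x x) = dir (W (M.ch x)) (fun w =>
          ((F4.ph M S.H (M.ch x) w + pj S a q j ((M.ch x).symm w) : ℝ) : ℂ)) (M.ch x x) +
        ∑ k, (fl S.toDk 2 k * ((sg S.toDk k x)⁻¹ - (sg S.toDk k x + q.d j)⁻¹) : ℝ) *
          dir (W (M.ch x)) (M.lc (sg S.toDk k) (M.ch x)) (M.ch x x) := by
      simp only [dir, Finset.mul_sum]
      rw [Finset.sum_comm, ← Finset.sum_add_distrib]
      refine Finset.sum_congr rfl fun l _ => ?_
      rw [dz_congr ev, dz_add s1 (DifferentiableAt.fun_sum fun k _ => s3 k),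
        dz_sum fun k _ => s3 k, mul_add, Finset.mul_sum]
      refine congrArg _ (Finset.sum_congr rfl fun k _ => ?_)
      rw [dz_comp_real (hd k) (s2 k), mul_left_comm]
      rfl
    simp only [hg, hh, P37.sq_pn (met S) (pj_sm hZ q j) hW, Mf.ev, e]
    rw [add_sub_right_comm, Finset.mul_sum, norm_sub_rev (dv _ _)]
    refine (div_le_div_of_nonneg_right ((norm_add_le _ _).trans
      (add_le_add_right (norm_sum_le _ _) _)) D.le).trans ?_
    rw [add_div, Finset.sum_div]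
    refine add_le_add_right (Finset.sum_le_sum fun k _ => ?_) _
    have b1 : (sg S.toDk k x)⁻¹ - (sg S.toDk k x + q.d j)⁻¹ =
        q.d j * (sg S.toDk k x * (sg S.toDk k x + q.d j))⁻¹ := by
      have := (p1 k).ne'
      have := (p2 k).ne'
      field_simp
      ring
    have b2 : (sg S.toDk k x * (sg S.toDk k x + q.d j))⁻¹ ≤ (sg S.toDk k x ^ 2)⁻¹ :=
      inv_anti₀ (pow_pos (p1 k) 2) (by nlinarith [mul_pos (p1 k) (q.d0 j).1])
    have b3 : 0 ≤ (fl S.toDk 2 k : ℝ) * q.d j := mul_nonneg (Nat.cast_nonneg _) (q.d0 j).1.le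
    have b4 : 0 ≤ (sg S.toDk k x * (sg S.toDk k x + q.d j))⁻¹ :=
      inv_nonneg.2 (mul_pos (p1 k) (p2 k)).le
    rw [norm_mul, Complex.norm_real, b1, ← mul_assoc, Real.norm_of_nonneg (mul_nonneg b3 b4),
      mul_div_assoc]
    refine (mul_le_mul (mul_le_mul_of_nonneg_left b2 b3) (hC k x)
      (div_nonneg (norm_nonneg _) D.le)
      (mul_nonneg b3 (by positivity))).trans_eq (by ring)
  · have ih : IntegrableOn h K (M.mu S.H) := ContinuousOn.integrableOn_compact hK.1
      (continuousOn_finsetSum _ fun k _ => continuousOn_const.mul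
        (((sg_sm S.toDk k).continuous.pow 2).continuousOn.inv₀ fun x hx =>
          pow_ne_zero _ (hK.2 hx k)))
    refine ⟨fun j => (i _ (cg j)).integrableOn.add (ih.const_mul _), ?_⟩
    have t1 : Tendsto (fun j => ∫ x in K, g j x ∂M.mu S.H) atTop (𝓝 0) := by
      have := hP 0
      simp only [zero_mul, neg_zero, Real.exp_zero, one_mul] at this
      exact squeeze_zero (fun j => integral_nonneg fun x => Real.sqrt_nonneg _) (fun j =>
        setIntegral_le_integral (i _ (cg j)) (Eventually.of_forall fun x => Real.sqrt_nonneg _))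
        this
    have t2 := q.dt 0 1 one_pos
    simp only [zero_mul, Real.exp_zero, one_mul, Real.rpow_one] at t2
    have t3 := t1.add (t2.mul_const (∫ x in K, h x ∂M.mu S.H))
    rw [zero_mul, add_zero] at t3
    refine t3.congr fun j => ?_
    rw [integral_add (i _ (cg j)).integrableOn (ih.const_mul _), integral_const_mul]

end Pool.Agent.Lib.N4S.T44
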