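import Pool.Agent.Lib.N4S.Alg81

/-! Project n4s: quadrature formulas for the norm of a multivector, in every dimension. -/

open scoped Classical Topology ComplexOrder Matrix MatrixOrder
open Set Filter Polynomial

noncomputable section

namespace Pool.Agent.Lib.N4S.Q71

open Pool.Agent.Lib.SV (E)
open Pool.Agent.Lib.HS32 Pool.Agent.Lib.HLK Pool.Agent.Lib.F4 Pool.Agent.Lib.NU4 R81

variable {n : ℕ}

theorem lag {v : Fin (n + 1) → ℝ} (hv : Function.Injective v) {q : ℝ[X]} (h : q.natDegree ≤ n)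
    (t : ℝ) : q.eval t = ∑ i, (Lagrange.basis Finset.univ v i).eval t * q.eval (v i) := by
  have d : q.degree < (Finset.univ : Finset (Fin (n + 1))).card := by
    rw [Finset.card_univ, Fintype.card_fin]
    exact degree_le_natDegree.trans_lt (by exact_mod_cast Nat.lt_succ_of_le h)
  have e := congrArg (eval t) (Lagrange.eq_interpolate (v := v) hv.injOn d)
  rw [Lagrange.interpolate_apply, eval_finsetSum] at e
  rw [e]
  exact Finset.sum_congr rfl fun i _ => by rw [eval_mul, eval_C, mul_comm]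

theorem re_poly {p : ℂ[X]} (h : p.natDegree ≤ n) : ∃ q : ℝ[X], q.natDegree ≤ n ∧
    (∀ t : ℝ, q.eval t = (p.eval (t : ℂ)).re) ∧
    ∀ t : ℝ, (derivative q).eval t = ((derivative p).eval (t : ℂ)).re := by
  obtain ⟨q, q1, q2⟩ : ∃ q : ℝ[X], q.natDegree ≤ n ∧ ∀ t : ℝ, q.eval t = (p.eval (t : ℂ)).re := by
    refine ⟨∑ i ∈ Finset.range (n + 1), C (p.coeff i).re * X ^ i, natDegree_sum_le_of_forall_le _ _
      fun i hi => (natDegree_C_mul_X_pow_le _ _).trans (Nat.lt_succ_iff.1 (Finset.mem_range.1 hi)),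
      fun t => ?_⟩
    rw [eval_eq_sum_range' (Nat.lt_succ_of_le h), Complex.re_sum, eval_finsetSum]
    exact Finset.sum_congr rfl fun i _ => by
      rw [eval_mul, eval_C, eval_pow, eval_X, ← Complex.ofReal_pow, Complex.re_mul_ofReal]
  refine ⟨q, q1, q2, fun t => (q.hasDerivAt t).unique ?_⟩
  rw [funext q2]
  exact (p.hasDerivAt (t : ℂ)).real_of_complex

theorem quad (n : ℕ) : ∃ τ c : Fin (n + 1) → ℝ, (∀ i, τ i ∈ Icc (0 : ℝ) 1) ∧
    ∀ q : ℝ[X], q.natDegree ≤ n → q.eval 1 - q.eval 0 = ∑ i, c i * (derivative q).eval (τ i) := by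
  have p : (0 : ℝ) < n + 1 := by positivity
  have hv : Function.Injective fun i : Fin (n + 1) => ((i : ℕ) : ℝ) / (n + 1) := fun i j h =>
    Fin.ext (Nat.cast_injective (R := ℝ) ((div_left_inj' p.ne').1 h))
  refine ⟨fun i => ((i : ℕ) : ℝ) / (n + 1), fun i => ∫ t in (0 : ℝ)..1, (Lagrange.basis Finset.univ
    (fun i : Fin (n + 1) => ((i : ℕ) : ℝ) / (n + 1)) i).eval t, fun i => ⟨by positivity,
      (div_le_one p).2 (by exact_mod_cast i.2.le)⟩, fun q h => ?_⟩
  rw [← intervalIntegral.integral_eq_sub_of_hasDerivAt (fun t _ => q.hasDerivAt t)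
    ((derivative q).continuous.intervalIntegrable _ _),
    funext (lag hv (natDegree_derivative_le q |>.trans ((Nat.sub_le _ _).trans h))),
    intervalIntegral.integral_finsetSum fun i _ =>
      ((Polynomial.continuous _).intervalIntegrable _ _).mul_const _]
  exact Finset.sum_congr rfl fun i _ => intervalIntegral.integral_mul_const _ _

/-- The extrapolation from the interior of the cone. -/
theorem cg_exN (n : ℕ) : ∃ s c : Fin (n + 1) → ℝ, (∀ i, 0 < s i) ∧
    ∀ (A H B : Mat n) (W : Fs n → ℂ), cg A B W = ∑ i, c i * cg (A + s i • H) B W := by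
  have hv : Function.Injective fun i : Fin (n + 1) => ((i : ℕ) : ℝ) + 1 := fun i j h =>
    Fin.ext (Nat.cast_injective (R := ℝ) (add_right_cancel h))
  refine ⟨fun i => ((i : ℕ) : ℝ) + 1, fun i => (Lagrange.basis Finset.univ
    (fun i : Fin (n + 1) => ((i : ℕ) : ℝ) + 1) i).eval 0, fun i => by positivity,
    fun A H B W => ?_⟩
  let φ : Mx (Fs n) →ₗ[ℂ] ℂ :=
    ⟨⟨fun Y => ∑ k, ∑ l, B l k * (star (an l *ᵥ W) ⬝ᵥ Y *ᵥ an k *ᵥ W), fun Y Z => by
      simp only [Matrix.add_mulVec, dotProduct_add, mul_add, Finset.sum_add_distrib]⟩, fun c Y => by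
      simp only [Matrix.smul_mulVec, dotProduct_smul, smul_eq_mul, RingHom.id_apply, Finset.mul_sum,
        mul_left_comm]⟩
  obtain ⟨p, p1, p2⟩ := poly A H φ
  obtain ⟨q, q1, q2, -⟩ := re_poly p1
  have e : ∀ t : ℝ, cg (A + t • H) B W = q.eval t := fun t => by
    rw [q2, ← p2, Complex.coe_smul]
    rfl
  have e0 := e 0
  rw [zero_smul, add_zero] at e0
  simp only [e, e0]
  exact lag hv q1 0

/-- The difference of the norms. -/
theorem ng_subN (n : ℕ) : ∃ τ c : Fin (n + 1) → ℝ, (∀ i, τ i ∈ Icc (0 : ℝ) 1) ∧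
    ∀ (A B : Mat n) (W : Fs n → ℂ), ng (A + B) W - ng A W = ∑ i, c i * cg (A + τ i • B) B W := by
  obtain ⟨τ, c, h1, h2⟩ := quad n
  refine ⟨τ, c, h1, fun A B W => ?_⟩
  let φ : Mx (Fs n) →ₗ[ℂ] ℂ :=
    ⟨⟨fun Y => star W ⬝ᵥ Y *ᵥ W, fun Y Z => by
      simp only [Matrix.add_mulVec, dotProduct_add]⟩, fun c Y => by
      simp only [Matrix.smul_mulVec, dotProduct_smul, RingHom.id_apply]⟩
  obtain ⟨p, p1, p2⟩ := poly A B φ
  obtain ⟨q, q1, q2, q3⟩ := re_poly p1
  have b : B = ∑ l, Matrix.vecMulVec (Pi.single l 1) (B l) := by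
    ext i j
    simp [Matrix.sum_apply, Matrix.vecMulVec_apply, Pi.single_apply]
  have d : ∀ t : ℝ, cg (A + t • B) B W = (derivative q).eval t := fun t => by
    have h := der Finset.univ (fun l => Pi.single l 1) B A φ t
    rw [← b, funext p2] at h
    rw [q3, ← h.unique (p.hasDerivAt _), Complex.coe_smul, cg, Finset.sum_comm, map_sum]
    refine congrArg _ (Finset.sum_congr rfl fun l _ => ?_)
    change _ = star W ⬝ᵥ _ *ᵥ W
    rw [crv_single, ← Matrix.mulVec_mulVec, ← Matrix.mulVec_mulVec, Matrix.dotProduct_mulVec _ (cr l),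
      show star W ᵥ* cr l = star (an l *ᵥ W) by rw [Matrix.star_mulVec, an,
        Matrix.conjTranspose_conjTranspose]]
    simp only [anv, Matrix.sum_mulVec, Matrix.smul_mulVec, Matrix.mulVec_sum, Matrix.mulVec_smul,
      dotProduct_sum, dotProduct_smul, smul_eq_mul]
  have e : ∀ t : ℝ, ng (A + t • B) W = q.eval t := fun t => by
    rw [q2, ← p2, Complex.coe_smul]
    rfl
  have e0 := e 0
  have e1 := e 1
  rw [zero_smul, add_zero] at e0
  rw [one_smul] at e1
  simp only [d, e0, e1]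
  exact h2 q q1

/-- Both formulas together: only positive forms occur. -/
theorem ng_kae (n : ℕ) : ∃ (τ s c : Fin (n + 1) × Fin (n + 1) → ℝ),
    (∀ i, τ i ∈ Icc (0 : ℝ) 1 ∧ 0 < s i) ∧ ∀ (A H B : Mat n) (W : Fs n → ℂ),
      ng (A + B) W - ng A W = ∑ i, c i * cg (A + τ i • B + s i • H) B W := by
  obtain ⟨τ, c, h1, h2⟩ := ng_subN n
  obtain ⟨s, c', h3, h4⟩ := cg_exN n
  refine ⟨fun i => τ i.1, fun i => s i.2, fun i => c i.1 * c' i.2, fun i => ⟨h1 _, h3 _⟩,
    fun A H B W => ?_⟩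
  rw [h2, Fintype.sum_prod_type]
  refine Finset.sum_congr rfl fun i _ => ?_
  rw [h4 _ H, Finset.mul_sum]
  exact Finset.sum_congr rfl fun j _ => (mul_assoc _ _ _).symm

end Pool.Agent.Lib.N4S.Q71
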