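import Pool.Agent.Lib.KS.SDefs

/-! Definitions used in the statement: the local structure along the contracted hypersurfaces, and
the square of the nef class. -/

open scoped ContDiff Matrix
open MeasureTheory

noncomputable section

namespace Pool.Agent.Lib.N4S

open Pool.Agent.Lib.SV Pool.Agent.Lib.HS Pool.Agent.Lib.HW Pool.Agent.Lib.KP Pool.Agent.Lib.ZK47
  Pool.Agent.Lib.EX

variable {n : ℕ} {X ι I : Type} [TopologicalSpace X] [ChartedSpace (E n) X] [Fintype I]
  (U : ι → Set X) (u : I → ι → ι → X → ℂ)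

/-- The hypersurfaces `f k i = 0` have normal crossings, and near each of their points there are an
open set `W`, a holomorphic map `g` on `W` that dominates `β`, and a holomorphic section `t`
without zeros of `c (K - ∑ a k D k)` on `W` whose norm is a smooth function of `g`; holomorphic
functions on the complement of the hypersurfaces in `W` extend to `W`. -/
def Mod (G β : X → Mat n) (f : I → ι → X → ℂ) (a : I → ℝ) : Prop :=
  ∃ (c : ℕ) (p : I → ℕ) (φ : ι → X → ℝ), 0 < c ∧ (∀ k, (p k : ℝ) = c * a k) ∧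
    Glue U u (-a) (fun i y => φ i y) ∧ ∀ i, ∀ x ∈ U i,
      ContDiffAt ℝ ∞ (φ i ∘ (chartAt (E n) x).symm) (chartAt (E n) x x) ∧
      (LinearIndependent ℂ fun k : {k // f k i x = 0} => dAt n (f k i) x) ∧
      ((∃ k, f k i x = 0) → ∃ (W : Set X) (r : ℕ) (g : X → E r) (t : ι → X → ℂ) (F : E r → ℝ),
        IsOpen W ∧ x ∈ W ∧
        (∀ y ∈ W, (∀ s, HolAt n 0 (g · s) y) ∧ ContDiffAt ℝ ∞ F (g y) ∧
          (∀ v, (star v ⬝ᵥ β y *ᵥ v).re ≤ ∑ s, Complex.normSq (dAt n g y v s)) ∧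
          ∀ j, y ∈ U j → HolAt n c (t j) y ∧ t j y ≠ 0 ∧
            (∀ l, y ∈ U l → t l y = t j y * ∏ k, u k j l y ^ p k) ∧
            c * (φ j y + Real.log (G y).det.re) = Real.log (Complex.normSq (t j y)) + F (g y)) ∧
        ∀ h : X → ℂ, (∀ y ∈ W, (∀ k j, y ∈ U j → f k j y ≠ 0) → HolAt n 0 h y) →
          ∃ h' : X → ℂ, ∀ y ∈ W, HolAt n 0 h' y ∧ ((∀ k j, y ∈ U j → f k j y ≠ 0) → h' y = h y))

/-- The number `N ^ 2 · ω ^ (n - 2)` is positive for `N = K + ∑ b k D k`: `Θ` is the curvature form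
of a smooth metric `exp (-φ) / det G` on `N`, and the integrand is `Θ ∧ Θ ∧ ω ^ (n - 2)` up to a
positive constant. -/
def NSq (G : X → Mat n) (b : I → ℝ) : Prop :=
  ∃ (φ : ι → X → ℝ) (Θ : X → Mat n) (r : ℕ) (x : Fin r → X) (B : Fin r → Set (E n)),
    Glue U u b (fun i y => φ i y) ∧ Cells x B ∧ (∀ i, ∀ y ∈ U i,
      ContDiffAt ℝ ∞ (φ i ∘ (chartAt (E n) y).symm) (chartAt (E n) y y) ∧ (Θ y).IsHermitian ∧
      ∀ v, levi (fun z => φ i ((chartAt (E n) y).symm z) + Real.log (inChart G y z).det.re)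
        (chartAt (E n) y y) v = (star v ⬝ᵥ Θ y *ᵥ v).re) ∧
    0 < ∑ k, ∫ z in B k, (inChart G (x k) z).det.re *
      (fun A : Mat n => A.trace.re ^ 2 - (A * A).trace.re)
        ((G ((chartAt (E n) (x k)).symm z))⁻¹ * Θ ((chartAt (E n) (x k)).symm z))

end Pool.Agent.Lib.N4S
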