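import Pool.Agent.Lib.NU4.Sg10

/-! Project n4s: the weighted divergence for a truncated weight. -/

open scoped Classical Topology ContDiff ComplexOrder Matrix
open Set Filter MeasureTheory Complex

noncomputable section

namespace Pool.Agent.Lib.N4S.G19

open Pool.Agent.Lib.SV (E)
open Pool.Agent.Lib.HS32 Pool.Agent.Lib.HLK Pool.Agent.Lib.KP Pool.Agent.Lib.NU4.SG
open Pool.Agent.Lib.EXH (aw)

theorem q2 {A B X : ℝ} (hq : ∀ c : ℝ, 0 ≤ B - 2 * c * X + c ^ 2 * A) (hA : 0 ≤ A) (p c : ℝ) :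
    0 ≤ p ^ 2 * B - 2 * p * c * X + c ^ 2 * A := by
  rcases eq_or_ne p 0 with rfl | h
  · simpa using mul_nonneg (sq_nonneg c) hA
  refine (mul_nonneg (sq_nonneg p) (hq (c / p))).trans_eq ?_
  field_simp

theorem cmp {A B X t δ c e κ : ℝ} (hq : ∀ c : ℝ, 0 ≤ B - 2 * c * X + c ^ 2 * A) (hA : 0 ≤ A)
    (hδ : 0 < δ) (ht : 0 < t) (h1 : 1 ≤ κ) (e0 : 0 ≤ e) (et : e ≤ t) (c0 : 0 ≤ c) (c1 : c ≤ 1)
    (h2 : c ≠ 0 → δ * t ≤ 1) (h3 : c ≠ 1 → 1 ≤ κ * (δ * t)) :
    e * (B - 2 * c * X + c ^ 2 * A) ≤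
      8 * (t * (B - 2 * (1 / (1 + δ * t)) * X + (1 / (1 + δ * t)) ^ 2 * A)) +
        2 * κ * (δ * t ^ 2 * B) := by
  have B0 : 0 ≤ B := by simpa using hq 0
  have p : 0 < δ * t := by positivity
  obtain ⟨s, hs⟩ : ∃ s, s = 1 / (1 + δ * t) := ⟨_, rfl⟩
  have s1 : s * (1 + δ * t) = 1 := by rw [hs]; field_simp
  rw [← hs]
  have R0 := hq s
  have Q0 := hq c
  obtain ⟨l, hl⟩ : ∃ l, l = c * (1 + δ * t) := ⟨_, rfl⟩
  have ls : l * s = c := by rw [hl]; linear_combination c * s1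
  have k1 : B - 2 * c * X + c ^ 2 * A ≤
      2 * (1 - l) ^ 2 * B + 2 * l ^ 2 * (B - 2 * s * X + s ^ 2 * A) := by
    have := q2 hq hA (2 * l - 1) c
    rw [← ls] at this ⊢
    nlinarith
  have l0 : 0 ≤ l := hl ▸ mul_nonneg c0 (by positivity)
  have l2 : l ≤ 2 := by
    rcases eq_or_ne c 0 with h | h
    · rw [hl, h]; norm_num
    · have := h2 h
      rw [hl]; nlinarith
  have k2 : (1 - l) ^ 2 ≤ κ * (δ * t) := by
    rcases eq_or_ne c 1 with h | h
    · have := h2 (by rw [h]; exact one_ne_zero)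
      rw [hl, h]; nlinarith
    · have := h3 h
      nlinarith
  have k3 : l ^ 2 ≤ 4 := by nlinarith
  have k4 := mul_le_mul_of_nonneg_right k2 B0
  have k5 := mul_le_mul_of_nonneg_right k3 R0
  have k6 := mul_le_mul_of_nonneg_right et Q0
  have k7 : B - 2 * c * X + c ^ 2 * A ≤ 8 * (B - 2 * s * X + s ^ 2 * A) + 2 * (κ * (δ * t) * B) := by
    linarith
  have := mul_le_mul_of_nonneg_left k7 ht.le
  nlinarith

variable {n : ℕ} {M : Mf n} [M.Cpt] {H : M.Fam (Mat n)} {L : M.Co} {φ : M.Fam ℝ}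
  {W : M.Fam (Fs n → ℂ)}

/-- The divergence for the weight `v`, which is a truncation of `w`. -/
theorem sgw (hH : M.Kae H) (hφ : M.WtC L φ) (hW : (lam H L φ).Sec W) (hol : Hol W)
    {S R : M.Fam (Mat n)} {w G r : M.X → ℝ} {g : ℝ → ℝ} {ε δ κ : ℝ} (hS : M.Ten S) (hR : M.Ten R)
    (hE : M.All fun e z => (M.hw φ + M.ric H) e z = (S + R) e z) (hε : 0 ≤ ε) (hδ : 0 < δ)
    (h1 : 1 ≤ κ) (hw : M.Sm w) (w0 : ∀ x, w x ≤ 0) (hω : M.Le 0 (S + M.hs w + ε • H))
    (cG : Continuous G) (cr : Continuous r) (r0 : ∀ x, 0 ≤ r x)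
    (b1 : ∀ x, (lam H L φ).pn ((oP H φ).ap W) x ≤ G x) (b2 : ∀ x, cu S (lam H L φ) W x ≤ G x)
    (b3 : ∀ x, cu R (lam H L φ) W x ≤ r x) (sg : ContDiff ℝ ∞ g)
    (hg : ∀ y, y ≤ g y ∧ 0 ≤ deriv g y ∧ deriv g y ≤ 1 ∧ (deriv g y ≠ 0 → δ * Real.exp (-y) ≤ 1) ∧
      (deriv g y ≠ 1 → 1 ≤ κ * (δ * Real.exp (-y)))) :
    (lam H L (aw M φ fun x => g (w x))).nr H ((oP H (aw M φ fun x => g (w x))).ap W) ≤
      ∫ x, ((16 + 2 * κ) * δ * (Real.exp (-w x) ^ 2 * G x) + 8 * (Real.exp (-w x) * r x))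
        ∂M.mu H + 8 / δ * ∫ x, cu (S + M.hs w + ε • H) (lam H L φ) W x ∂M.mu H := by
  have hm := hH.toMet
  obtain ⟨o0, -, a0⟩ := aLAM n M H L φ hm hφ
  have ig := (mMU n M H hm).2.2.2.2.1 ℝ
  have t1 : ∀ x, 1 ≤ Real.exp (-w x) := fun x => Real.one_le_exp (neg_nonneg.2 (w0 x))
  obtain ⟨sv, hv⟩ := (mLAP n M w w hw hw).2.1 _ fun x => sc hδ (w x)
  obtain ⟨hψ, hh⟩ := (a0 _).1 sv
  have hW' : (lam H L (aw M φ fun x => -Real.log (wd δ (w x)))).Sec W := ⟨hW.sm, hW.cmp⟩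
  have boc := aBOC n M H L _ W hH hψ hW'
  have ex : ∀ x, Real.exp (- -Real.log (wd δ (w x))) = wd δ (w x) := fun x => by
    rw [neg_neg, Real.exp_log (wd_pos hδ _)]
  have q0 : (lam H L (aw M φ fun x => -Real.log (wd δ (w x)))).nr H ((oQ H).ap W) = 0 := by
    have : ∀ x, M.ev ((oQ H).ap W) x = 0 := fun x => by
      simp [Mf.ev, Op.ap, oQ, (gb_hol (H := H) (lam H L φ) hol x).2]
    simp [Bun.nr, Bun.pn, Bun.pp, this]
  simp only [q0, (gb_hol _ hol _).1, integral_zero, zero_add] at boc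
  have tw := ((mHES n M).1 w hw).toTen
  have hT : M.Ten (S + M.hs w + ε • H) := (hS.add tw).add (hm.toTen.smul ε)
  obtain ⟨-, cω, lω⟩ := aCU n M H _ L φ W hm hT hφ hW
  obtain ⟨-, -, lH⟩ := aCU n M H _ L φ W hm hm.toTen hφ hW
  have lω' := lω 0 le_rfl (by simpa using hω)
  have lH' := lH 0 le_rfl (by simpa using hm.nonneg)
  obtain ⟨-, cψ, -⟩ := aCU n M H _ L _ W hm
    (hψ.clo.toTen.add ((mHES n M).2.2.2.2.2.2.2.2.1 H hm).toTen) hψ hW'
  have pψ := aSP n M H L _ W hm hψ hW'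
  have cP : Continuous ((lam H L (aw M φ fun x => -Real.log (wd δ (w x)))).pn
      ((oP H (aw M φ fun x => -Real.log (wd δ (w x)))).ap W)) :=
    ((aLAM n M H L _ hm hψ).1.pp_rep pψ pψ).2.re.continuous
  have su : M.Sm fun x => g (w x) := hw.comp fun x => sg.contDiffAt
  have hu := ((a0 _).1 su).1
  have pu := aSP n M H L _ W hm hu ⟨hW.sm, hW.cmp⟩
  have cw := hw.continuous
  have key : ∀ x, (lam H L (aw M φ fun x => g (w x))).pn
      ((oP H (aw M φ fun x => g (w x))).ap W) x ≤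
      8 * ((lam H L (aw M φ fun x => -Real.log (wd δ (w x)))).pn
        ((oP H (aw M φ fun x => -Real.log (wd δ (w x)))).ap W) x -
        cu (M.hw (aw M φ fun x => -Real.log (wd δ (w x))) + M.ric H)
          (lam H L (aw M φ fun x => -Real.log (wd δ (w x)))) W x) +
      (((16 + 2 * κ) * δ * (Real.exp (-w x) ^ 2 * G x) + 8 * (Real.exp (-w x) * r x)) +
        8 / δ * cu (S + M.hs w + ε • H) (lam H L φ) W x) := fun x => by
    have hG := o0.pos.ch x
    have qs := q_sub hG.1 (M.ev ((oP H φ).ap W) x) (M.ev (ct M w W) x)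
    have nn : ∀ p : Fs n → ℂ, 0 ≤ (star p ⬝ᵥ M.ev (lam H L φ).G x *ᵥ p).re := fun p =>
      (Complex.le_def.1 (hG.posSemidef.dotProduct_mulVec_nonneg _)).1
    have e2 := Eq.trans
      (a := (lam H L φ).pn ((oP H (aw M φ fun x => -Real.log (wd δ (w x)))).ap W) x) (by
      rw [← ct_comp hw (dc hδ (w x)) W]
      simp only [Bun.pn, Bun.pp, Mf.ev_congr (oP_aw hm hφ sv W)]
      rfl) (qs (wf δ (w x) / wd δ (w x)))
    have e4 := Eq.trans
      (a := (lam H L φ).pn ((oP H (aw M φ fun x => g (w x))).ap W) x) (by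
      rw [← ct_comp hw ((sg.differentiable (by simp)) (w x)).hasDerivAt W]
      simp only [Bun.pn, Bun.pp, Mf.ev_congr (oP_aw hm hφ su W)]
      rfl) (qs (deriv g (w x)))
    have e3 : cu (M.hw (aw M φ fun x => -Real.log (wd δ (w x))) + M.ric H) (lam H L φ) W x =
        cu (S + R + (wf δ (w x) / wd δ (w x)) • M.hs w +
          deriv (deriv fun y => -Real.log (wd δ y)) (w x) • M.ds w w) (lam H L φ) W x := by
      refine cu_congr _ _ ?_
      have u1 := hh.ch x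
      have u2 := (hv.ch x).1
      have u3 := hE.ch x
      simp only [Mf.ch_symm, (dc hδ (w x)).deriv] at u1 u2
      simp only [Mf.ev, Pi.add_apply, Pi.smul_apply, u1, u2] at u3 ⊢
      rw [← u3]
      abel
    obtain ⟨n1, n2, n3, n4, n5⟩ := wn hδ (t1 x)
    obtain ⟨g1, g2, g3, g4, g5⟩ := hg (w x)
    have n0 := cmp (fun c => (qs c) ▸ nn _) (nn (M.ev (ct M w W) x)) hδ (Real.exp_pos (-w x)) h1
      (Real.exp_pos (-g (w x))).le (Real.exp_le_exp.2 (neg_le_neg g1)) g2 g3 g4 g5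
    rw [((a0 _).2 _ W x).2.1, ((a0 _).2 _ W x).2.1, cu_aw, ex, e2, e3, e4, dc2 hδ, mul_comm]
    refine n0.trans ?_
    have z1 := lω' x
    have z2 := lH' x
    have z3 := b2 x
    have z5 := b3 x
    have z6 := b1 x
    have z7 := r0 x
    have z8 := nn (M.ev ((oP H φ).ap W) x)
    have z4 := cu_ds (lam H L φ) hw W x
    simp only [cu_add, cu_smul] at z1 ⊢
    rw [z4]
    simp only [zero_mul, neg_zero] at z1 z2
    have wp := wd_pos hδ (w x)
    change _ ≤ wd δ (w x) at n3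
    change wd δ (w x) ≤ _ at n4
    change 0 < wf δ (w x) at n1
    change wf δ (w x) ≤ _ at n2 n3
    change _ - wf δ (w x) ≤ _ at n5
    have e5 : wf δ (w x) = Real.exp (-w x) * (1 / (1 + δ * Real.exp (-w x))) := by
      rw [wf]; ring
    have tp := Real.exp_pos (-w x)
    simp only [Bun.pn, Bun.pp, Mf.ev] at z6 z8 ⊢
    generalize wd δ (w x) = Wd at *
    generalize wf δ (w x) = f at *
    generalize cu S (lam H L φ) W x = cS at *
    generalize cu R (lam H L φ) W x = cR at *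
    generalize cu (M.hs w) (lam H L φ) W x = cw at *
    generalize cu H (lam H L φ) W x = cH at *
    generalize Real.exp (-w x) = t at *
    generalize 1 / (1 + δ * t) = s at *
    have y4 : ∀ A B X : ℝ, (B - 2 * (f / Wd) * X + (f / Wd) ^ 2 * A) * Wd -
        (cS + cR + f / Wd * cw + ((f / Wd) ^ 2 - t * s ^ 2 / Wd) * A) * Wd =
        t * (B - 2 * s * X + s ^ 2 * A) - (t - Wd) * B - (Wd * (cS + cR) + f * cw) :=
      fun A B X => by
      rw [e5]
      field_simp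
      ring
    rw [y4, show 8 / δ = 8 * (1 / δ) by ring]
    generalize (star ((oP H φ).ap W (M.ch x) (M.ch x x)) ⬝ᵥ (lam H L φ).G (M.ch x) (M.ch x x) *ᵥ
      (oP H φ).ap W (M.ch x) (M.ch x x)).re = B at *
    have G0 := z8.trans z6
    have d0 : 0 ≤ δ * t ^ 2 := by positivity
    have y1 := mul_le_mul_of_nonneg_right n2 z1
    have y2 : (Wd - f) * cS ≤ δ * t ^ 2 * G x :=
      (mul_le_mul_of_nonneg_left z3 (sub_nonneg.2 n3)).trans
        (mul_le_mul_of_nonneg_right ((sub_le_sub_right n4 _).trans n5) G0)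
    have y3 := mul_nonneg n1.le (mul_nonneg hε z2)
    have y5 : (t - Wd) * B ≤ δ * t ^ 2 * G x :=
      mul_le_mul ((sub_le_sub_left n3 _).trans n5) z6 z8 d0
    have y6 : Wd * cR ≤ t * r x :=
      (mul_le_mul_of_nonneg_left z5 wp.le).trans (mul_le_mul_of_nonneg_right n4 z7)
    have y7 := mul_le_mul_of_nonneg_left (mul_le_mul_of_nonneg_left z6 d0)
      (show 0 ≤ 2 * κ by positivity)
    nlinarith
  have i1 := ig _ cP
  have i2 := ig _ cψ
  have i3 := ig _ cω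
  have j3 := ig (fun x => (16 + 2 * κ) * δ * (Real.exp (-w x) ^ 2 * G x) +
    8 * (Real.exp (-w x) * r x)) (by fun_prop)
  have fin := integral_mono (ig _ ((aLAM n M H L _ hm hu).1.pp_rep pu pu).2.re.continuous)
    (((i1.sub i2).const_mul 8).add (j3.add (i3.const_mul (8 / δ)))) key
  rwa [integral_add' ((i1.sub i2).const_mul 8) (j3.add (i3.const_mul _)),
    integral_add' j3 (i3.const_mul _), integral_const_mul, integral_const_mul,
    integral_sub' i1 i2, ← boc, Bun.nr, sub_self, mul_zero, zero_add] at fin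

end Pool.Agent.Lib.N4S.G19
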