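import Pool.Agent.Lib.NU4.Sg10a
import Pool.Agent.Lib.NU4.B_LIE
import Pool.Agent.Lib.KS.Neg1
import Pool.Agent.Lib.KP.B_NHS

/-! Project n4s: the logarithmic derivative of the norm of an equation along a tangent
multivector is bounded. -/

open scoped Classical Topology ContDiff ComplexOrder Matrix
open Set Filter MeasureTheory Complex

noncomputable section

namespace Pool.Agent.Lib.N4S.G19

open Pool.Agent.Lib.SV (E)
open Pool.Agent.Lib.HS32 Pool.Agent.Lib.HLK Pool.Agent.Lib.KP Pool.Agent.Lib.F4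
  Pool.Agent.Lib.NU4 Pool.Agent.Lib.NU4.SG Pool.Agent.Lib.NU4.Lie87

variable {n : ℕ} {M : Mf n} {H : M.Fam (Mat n)} {L L' : M.Co} {φ ψ : M.Fam ℝ} {f : M.Fam ℂ}
  {W : M.Fam (Fs n → ℂ)}

theorem r1 (G : Mx (Fs n)) (c : ℝ) (v : E n) (Y : Fs n → ℂ) :
    (∑ k, ∑ l, (c • Matrix.vecMulVec (star v) v) l k * (star (an l *ᵥ Y) ⬝ᵥ G *ᵥ an k *ᵥ Y)).re =
      c * (star (anv v *ᵥ Y) ⬝ᵥ G *ᵥ anv v *ᵥ Y).re := by
  rw [← re_ofReal_mul]
  simp only [anv, Matrix.sum_mulVec, Matrix.smul_mulVec, star_sum, star_smul, Matrix.mulVec_sum,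
    Matrix.mulVec_smul, sum_dotProduct, dotProduct_sum, smul_dotProduct, dotProduct_smul,
    smul_eq_mul, Finset.mul_sum, Matrix.smul_apply, Matrix.vecMulVec_apply, Pi.star_apply,
    real_smul]
  refine congrArg re (Finset.sum_congr rfl fun k _ => Finset.sum_congr rfl fun l _ => by ring)

theorem glob [M.Cpt] {u v : M.X → ℝ} (hv : ∀ x, 0 ≤ v x)
    (h : ∀ x, ∃ C : ℝ, ∀ᶠ y in 𝓝 x, u y ≤ C * v y) : ∃ C : ℝ, 0 ≤ C ∧ ∀ x, u x ≤ C * v x := by
  obtain ⟨C, h⟩ := isCompact_univ.induction_on (p := fun s => ∃ C : ℝ, ∀ y ∈ s, u y ≤ C * v y)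
    ⟨0, fun _ h => h.elim⟩ (fun _ _ a ⟨C, b⟩ => ⟨C, fun y k => b y (a k)⟩)
    (fun _ _ ⟨C, a⟩ ⟨C', b⟩ => ⟨max C C', fun y k => k.elim
      (fun k => (a y k).trans (mul_le_mul_of_nonneg_right (le_max_left _ _) (hv y)))
      fun k => (b y k).trans (mul_le_mul_of_nonneg_right (le_max_right _ _) (hv y))⟩)
    fun x _ => by
      obtain ⟨C, k⟩ := h x
      exact ⟨_, mem_nhdsWithin_of_mem_nhds k, C, fun y a => a⟩
  exact ⟨|C|, abs_nonneg _, fun x => (h x trivial).trans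
    (mul_le_mul_of_nonneg_right (le_abs_self _) (hv x))⟩

theorem tq [M.Cpt] (hm : M.Met H) (hφ : M.WtC L φ) (hW : (lam H L φ).Sec W) (hol : Hol W)
    (hf : M.HSecC L' f) (hψ : M.WtC L' ψ)
    (hd : ∀ x, ∃ e ∈ M.C, x ∈ e.source ∧ (f e (e x) = 0 → fderiv ℂ (f e) (e x) ≠ 0))
    (ht : M.All fun e z => f e z = 0 → anv (gd (f e) z) *ᵥ W e z = 0) : ∃ C : ℝ, 0 ≤ C ∧ ∀ x,
      cu (M.hs (M.nrC ψ f) + fun e z => M.nrC ψ f (e.symm z) • M.hw ψ e z) (lam H L φ) W x ≤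
        C * M.nrC ψ f x := by
  have ss := hψ.nr_sm hf.toSecC
  have rp := (aCU n M H _ L φ W hm ((((mHES n M).1 _ ss).toTen).add (hψ.clo.toTen.fsmul ss))
    hφ hW).1
  have o0 := (aLAM n M H L φ hm hφ).1
  refine glob (Mf.nrC_nonneg _ _) fun x => ?_
  obtain ⟨e, he, hx, h1⟩ := hd x
  have hz := e.map_source hx
  have fz := hf.holN e he _ hz
  have hs : ∀ A, HolN (fun y => (anv (gd (f e) y) *ᵥ W e y) A) (e x) :=
    v_mv (fun A B => by
      simp only [anv, Matrix.sum_apply, Matrix.smul_apply, smul_eq_mul]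
      exact h_sum fun k => h_mul (h_dz fz k) (h_c _)) (hol e he _ hz)
  choose u hu eu using fun A => KS.NEG.dvd fz h1 (hs A)
    ((ht.ev he hz).mono fun _ a b => congrFun (a b) A)
  obtain ⟨Y, hY⟩ : ∃ Y : E n → Fs n → ℂ, Y = fun y => (fun A => u A y) -
    ∑ k, dz k (fun w => (ψ e w : ℂ)) y • (an k *ᵥ W e y) := ⟨_, rfl⟩
  have cY : ContinuousAt Y (e x) := by
    rw [hY]
    refine (continuousAt_pi.2 fun A => (hu A).self_of_nhds.continuousAt).sub
      (tendsto_finsetSum _ fun k _ => ((cd_dz (cd_ofReal (hψ.sm e he _ hz)) k).continuousAt.smul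
        ?_))
    exact (continuous_const.matrix_mulVec continuous_id).continuousAt.comp
      (hW.sm e he _ hz).continuousAt
  have cG : ContinuousAt ((lam H L φ).G e) (e x) :=
    continuousAt_pi.2 fun i => continuousAt_pi.2 fun j => (o0.gsm e he _ hz i j).continuousAt
  have cc : ContinuousAt (fun y => (star (Y y) ⬝ᵥ (lam H L φ).G e y *ᵥ Y y).re) (e x) := by
    have : Continuous fun p : Mx (Fs n) × (Fs n → ℂ) => (star p.2 ⬝ᵥ p.1 *ᵥ p.2).re :=
      continuous_re.comp (continuous_snd.star.dotProduct (continuous_fst.matrix_mulVec continuous_snd))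
    exact this.continuousAt.comp (cG.prodMk cY)
  refine ⟨(star (Y (e x)) ⬝ᵥ (lam H L φ).G e (e x) *ᵥ Y (e x)).re + 1, ?_⟩
  have k : ∀ᶠ y in 𝓝 (e x), cu (M.hs (M.nrC ψ f) + fun e z => M.nrC ψ f (e.symm z) • M.hw ψ e z)
      (lam H L φ) W (e.symm y) ≤ ((star (Y (e x)) ⬝ᵥ (lam H L φ).G e (e x) *ᵥ Y (e x)).re + 1) *
        M.nrC ψ f (e.symm y) := by
    filter_upwards [cc.eventually (gt_mem_nhds (lt_add_one _)), eventually_all.2 eu,
      e.open_target.eventually_mem hz] with y a b c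
    have y1 : anv (M.cv ψ f e y) *ᵥ W e y = f e y • Y y := by
      have : (fun A => u A y * f e y) = anv (gd (f e) y) *ᵥ W e y := funext fun A => (b A).symm
      rw [hY, smul_sub, show f e y • (fun A => u A y) = fun A => u A y * f e y from
        funext fun A => mul_comm _ _, this]
      simp only [anv, Mf.cv, gd, Matrix.sum_mulVec, Matrix.smul_mulVec, sub_smul,
        Finset.sum_sub_distrib, Finset.smul_sum, smul_smul, Matrix.sub_mulVec]
    rw [rp e he y c]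
    simp only [Pi.add_apply, (st_NHS n M L' f ψ hf hψ e he y c).1, sub_add_cancel]
    rw [r1, y1, hψ.nr_rep hf.toSecC e he y c, star_smul, Matrix.mulVec_smul, smul_dotProduct,
      dotProduct_smul, smul_smul, smul_eq_mul, star_def, ← normSq_eq_conj_mul_self, re_ofReal_mul]
    have := mul_le_mul_of_nonneg_left a.le
      (mul_nonneg (normSq_nonneg (f e y)) (Real.exp_pos (-ψ e y)).le)
    linarith
  filter_upwards [(e.continuousAt hx).eventually k, e.open_source.eventually_mem hx] with y a b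
  rwa [e.left_inv b] at a

theorem dl {d : ℝ} (y : ℝ) (h : 0 < y + d) :
    HasDerivAt (fun t => Real.log (t + d)) (y + d)⁻¹ y ∧
      deriv (deriv fun t => Real.log (t + d)) y = -((y + d)⁻¹ ^ 2) := by
  have a : ∀ y, 0 < y + d → HasDerivAt (fun t => Real.log (t + d)) (y + d)⁻¹ y := fun y h => by
    simpa using ((hasDerivAt_id y).add_const d).log h.ne'
  refine ⟨a y h, ?_⟩
  have e : deriv (fun t => Real.log (t + d)) =ᶠ[𝓝 y] fun t => (t + d)⁻¹ :=
    ((continuous_add_const d).continuousAt.eventually (lt_mem_nhds h)).mono fun t k => (a t k).deriv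
  rw [e.deriv_eq, (((hasDerivAt_id' y).add_const d).fun_inv h.ne').deriv]
  field_simp

/-- The regularised logarithm along a tangent multivector. -/
theorem tan [M.Cpt] (hm : M.Met H) (hφ : M.WtC L φ) (hW : (lam H L φ).Sec W) (hol : Hol W)
    (hf : M.HSecC L' f) (hψ : M.WtC L' ψ)
    (hd : ∀ x, ∃ e ∈ M.C, x ∈ e.source ∧ (f e (e x) = 0 → fderiv ℂ (f e) (e x) ≠ 0))
    (ht : M.All fun e z => f e z = 0 → anv (gd (f e) z) *ᵥ W e z = 0) :
    ∃ C : ℝ, 0 ≤ C ∧ ∀ d : ℝ, 0 < d → ∀ x,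
      cu (M.hw ψ + M.hs fun y => Real.log (M.nrC ψ f y + d)) (lam H L φ) W x ≤
        C * (d / (M.nrC ψ f x + d)) ∧
      (lam H L φ).pn (ct M (fun y => Real.log (M.nrC ψ f y + d)) W) x ≤ C := by
  obtain ⟨C, C0, hC⟩ := tq hm hφ hW hol hf hψ hd ht
  have ss := hψ.nr_sm hf.toSecC
  obtain ⟨B, hB⟩ := isCompact_univ.exists_bound_of_continuousOn
    (aCU n M H _ L φ W hm hψ.clo.toTen hφ hW).2.1.continuousOn
  refine ⟨C + |B|, by positivity, fun d d0 x => ?_⟩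
  have s0 := Mf.nrC_nonneg ψ f x
  have p : ∀ y, 0 < M.nrC ψ f y + d := fun y => add_pos_of_nonneg_of_pos (Mf.nrC_nonneg ψ f y) d0
  have sl : ∀ y, ContDiffAt ℝ ∞ (fun t => Real.log (t + d)) (M.nrC ψ f y) := fun y =>
    (contDiffAt_id.add contDiffAt_const).log (p y).ne'
  obtain ⟨sv, hv⟩ := (mLAP n M _ _ ss ss).2.1 _ sl
  obtain ⟨u1, u2, -⟩ := (st_NHS n M L' f ψ hf hψ).ch x
  have u3 := (hv.ch x).1
  simp only [Mf.ch_symm, (dl _ (p x)).1.deriv, (dl _ (p x)).2] at u1 u2 u3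
  have e1 : cu (M.hs (M.nrC ψ f) + fun e z => M.nrC ψ f (e.symm z) • M.hw ψ e z) (lam H L φ) W x =
      cu (M.hs (M.nrC ψ f) + M.nrC ψ f x • M.hw ψ) (lam H L φ) W x :=
    cu_congr _ _ (by simp only [Mf.ev, Pi.add_apply, Pi.smul_apply, Mf.ch_symm])
  have e2 : cu (M.ds (M.nrC ψ f) (M.nrC ψ f)) (lam H L φ) W x =
      cu (M.nrC ψ f x • (M.hs (M.nrC ψ f) + M.nrC ψ f x • M.hw ψ)) (lam H L φ) W x :=
    cu_congr _ _ (by
      simp only [Mf.ev, Pi.add_apply, Pi.smul_apply, u1, u2, sub_add_cancel, smul_smul])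
  have e3 : cu (M.hw ψ + M.hs fun y => Real.log (M.nrC ψ f y + d)) (lam H L φ) W x =
      cu (M.hw ψ + ((M.nrC ψ f x + d)⁻¹ • M.hs (M.nrC ψ f) +
        -((M.nrC ψ f x + d)⁻¹ ^ 2) • M.ds (M.nrC ψ f) (M.nrC ψ f))) (lam H L φ) W x :=
    cu_congr _ _ (by simp only [Mf.ev, Pi.add_apply, Pi.smul_apply, u3])
  have e4 : (lam H L φ).pn (ct M (fun y => Real.log (M.nrC ψ f y + d)) W) x =
      (M.nrC ψ f x + d)⁻¹ ^ 2 * cu (M.ds (M.nrC ψ f) (M.nrC ψ f)) (lam H L φ) W x := by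
    rw [cu_ds _ ss]
    simp only [Bun.pn, Bun.pp, ct_comp ss (dl _ (p x)).1 W, star_smul, Matrix.mulVec_smul,
      smul_dotProduct, dotProduct_smul, smul_eq_mul, RCLike.star_def, conj_ofReal, re_ofReal_mul]
    ring
  have b1 := hC x
  have b2 : cu (M.hw ψ) (lam H L φ) W x ≤ |B| :=
    ((le_abs_self _).trans (hB x trivial)).trans (le_abs_self _)
  rw [e1] at b1
  rw [e3, e4]
  simp only [cu_add, cu_smul, e2] at b1 ⊢
  have q := p x
  generalize M.nrC ψ f x = s at *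
  generalize cu (M.hw ψ) (lam H L φ) W x = cw at *
  generalize cu (M.hs (M.nrC ψ f)) (lam H L φ) W x = cs at *
  obtain ⟨i, hi⟩ : ∃ i, i = (s + d)⁻¹ := ⟨_, rfl⟩
  have i0 : 0 < i := hi ▸ inv_pos.2 q
  have i1 : s * i + d * i = 1 := by rw [hi]; field_simp
  have i2 : 0 ≤ s * i := by positivity
  have i3 : 0 < d * i := by positivity
  rw [div_eq_mul_inv, ← hi]
  have k1 := mul_le_mul_of_nonneg_left b1 i0.le
  have k2 : i * (cs + s * cw) ≤ C := k1.trans (by nlinarith)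
  have k3 := mul_le_mul_of_nonneg_left k2 i3.le
  have k4 := mul_le_mul_of_nonneg_left b2 i3.le
  have k5 := mul_le_mul_of_nonneg_left k2 i2
  refine ⟨(le_of_eq (b := d * i * (i * (cs + s * cw)) + d * i * cw) ?_).trans (by linarith), ?_⟩
  · linear_combination (-(cw + i * (cs + s * cw))) * i1
  · nlinarith [abs_nonneg B]

end Pool.Agent.Lib.N4S.G19
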