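import Pool.Agent.Lib.N4S.Kit78
import Pool.Agent.Lib.N4S.Sg19a
import Pool.Agent.Lib.N4S.Sg19b

/-! Project n4s: bounds for the fractional weight along a tangent multivector. -/

open scoped Classical Topology ContDiff ComplexOrder Matrix
open Set Filter MeasureTheory

noncomputable section

namespace Pool.Agent.Lib.N4S.G19

open Pool.Agent.Lib.SV (E)
open Pool.Agent.Lib.HS32 Pool.Agent.Lib.HLK Pool.Agent.Lib.F4 Pool.Agent.Lib.NU4
  Pool.Agent.Lib.NU4.SG Pool.Agent.Lib.N4S.K78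
open Pool.Agent.Lib.EXH (aw)

variable {n : ℕ} {M : Mf n} {I : Type} [Fintype I] {S : Sd M I} {m : ℕ} {W : M.Fam (Fs n → ℂ)}

theorem aw_aw (φ : M.Fam ℝ) (u v : M.X → ℝ) : aw M (aw M φ u) v = aw M φ fun x => u x + v x := by
  funext e z
  simp only [aw, Pi.add_apply, add_assoc]

theorem cu_sum (b : Bun M (Fs n)) (s : Finset I) (T : I → M.Fam (Mat n)) (x : M.X) :
    cu (∑ k ∈ s, T k) b W x = ∑ k ∈ s, cu (T k) b W x := by
  induction s using Finset.induction_on with
  | empty => simp [cu, Mf.ev]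
  | insert k s hk ih => rw [Finset.sum_insert hk, Finset.sum_insert hk, cu_add, ih]

theorem tk [M.Cpt] (hW : Nt S m W) (k : I) : ∃ C : ℝ, 0 ≤ C ∧ ∀ d : ℝ, 0 < d → ∀ x,
    ka S.toDk m k * cu (M.hw (S.φ k) + M.hs fun y => Real.log (sg S.toDk k y + d)) (lb S m) W x ≤
      C * (d / (sg S.toDk k x + d)) ∧
    (lb S m).pn (ct M (fun y => ka S.toDk m k * Real.log (sg S.toDk k y + d)) W) x ≤ C := by
  have e : ∀ d : ℝ, 0 < d → ∀ x,
      (lb S m).pn (ct M (fun y => ka S.toDk m k * Real.log (sg S.toDk k y + d)) W) x =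
      ka S.toDk m k ^ 2 * (lb S m).pn (ct M (fun y => Real.log (sg S.toDk k y + d)) W) x :=
    fun d d0 x => by
      have := ct_comp (lsg_sm S.toDk d0 k) (g := fun t => ka S.toDk m k * t) (x := x)
        (hasDerivAt_const_mul _) W
      simp only [Bun.pn, Bun.pp, this, star_smul, Matrix.mulVec_smul, smul_dotProduct,
        dotProduct_smul, smul_eq_mul, RCLike.star_def, Complex.conj_ofReal, Complex.re_ofReal_mul]
      ring
  rcases (ka_nn S.toDk m k).eq_or_lt with h | h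
  · exact ⟨0, le_rfl, fun d d0 x => by rw [e d d0, ← h]; simp⟩
  obtain ⟨C, C0, hC⟩ := tan (met S) (pm_wt S m) hW.sec hW.hol (S.hol k) (S.wt k)
    (fun x => (S.deg k x).imp fun e a => ⟨a.1, a.2.1, fun b => (a.2.2 b).1⟩) (hW.tan k h)
  have h1 := (ka_lt S.toDk m k).le
  refine ⟨C, C0, fun d d0 x => ⟨?_, ?_⟩⟩
  · refine (mul_le_mul_of_nonneg_left (hC d d0 x).1 h.le).trans (mul_le_of_le_one_left ?_ h1)
    exact mul_nonneg C0 (div_nonneg d0.le (add_nonneg (sg_nn _ k x) d0.le))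
  · rw [e d d0]
    exact (mul_le_mul_of_nonneg_left (hC d d0 x).2 (sq_nonneg _)).trans
      (mul_le_of_le_one_left C0 (pow_le_one₀ h.le h1))

theorem pb [M.Cpt] (hW : Nt S m W) (s : Finset I) : ∃ C : ℝ, ∀ d : ℝ, 0 < d → ∀ x,
    (lb S m).pn ((oP S.H (aw M (pm S m) fun y =>
      ∑ k ∈ s, ka S.toDk m k * Real.log (sg S.toDk k y + d))).ap W) x ≤ C := by
  induction s using Finset.induction_on with
  | empty =>
    have p := aSP n M _ _ _ W (met S) (pm_wt S m) hW.sec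
    obtain ⟨C, -, h⟩ := ((lb_ok S m).pp_rep p p).2.re.exists_bound
    refine ⟨C, fun d _ x => ?_⟩
    rw [show (aw M (pm S m) fun y => ∑ k ∈ ∅, ka S.toDk m k * Real.log (sg S.toDk k y + d)) =
      pm S m from funext fun e => funext fun z => by simp [aw]]
    exact (le_abs_self _).trans (h x)
  | insert k s hk ih =>
    obtain ⟨C, ih⟩ := ih
    obtain ⟨C', -, h⟩ := tk hW k
    refine ⟨2 * C + 2 * C', fun d d0 x => ?_⟩
    have s1 : M.Sm fun y => ∑ k ∈ s, ka S.toDk m k * Real.log (sg S.toDk k y + d) :=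
      Mf.Sm.sum fun k _ => (lsg_sm _ d0 k).const_mul _
    have hG := (lb_ok S m).pos.ch x
    have a := ih d d0 x
    have b := (h d d0 x).2
    simp only [Finset.sum_insert hk, add_comm (ka S.toDk m k * _)]
    rw [← aw_aw]
    simp only [Bun.pn, Bun.pp] at a b ⊢
    rw [Mf.ev_congr (oP_aw (met S) (((aLAM n M _ _ _ (met S) (pm_wt S m)).2.2 _).1 s1).1
      ((lsg_sm _ d0 k).const_mul _) W)]
    have q1 := q_sub hG.1 (M.ev ((oP S.H (aw M (pm S m) fun y =>
      ∑ k ∈ s, ka S.toDk m k * Real.log (sg S.toDk k y + d))).ap W) x)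
      (M.ev (ct M (fun y => ka S.toDk m k * Real.log (sg S.toDk k y + d)) W) x)
    have q2 := (q1 (-1)) ▸ (Complex.le_def.1 (hG.posSemidef.dotProduct_mulVec_nonneg _)).1
    have q3 := q1 1
    simp only [Complex.ofReal_one, one_smul, Complex.zero_re] at q2 q3
    refine (le_of_eq q3).trans ?_
    simp only [Mf.ev] at a b q2 ⊢
    linarith

/-- The curvature of the fractional weight. -/
def rd (S : Sd M I) (m : ℕ) (d : ℝ) : M.Fam (Mat n) :=
  ∑ k, ka S.toDk m k • (M.hw (S.φ k) + M.hs fun y => Real.log (sg S.toDk k y + d))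

theorem bnd [M.Cpt] (hW : Nt S m W) : ∃ C : ℝ, 0 ≤ C ∧ ∀ d : ℝ, 0 < d → ∀ x,
    (lb S m).pn ((oP S.H (aw M (pm S m) (lf S m d))).ap W) x ≤ C ∧
    cu (((m : ℝ) - 1) • (bf S - M.ric S.H)) (lb S m) W x ≤ C ∧
    cu (rd S m d) (lb S m) W x ≤ C * ∑ k, d / (sg S.toDk k x + d) := by
  obtain ⟨C1, h1⟩ := pb hW Finset.univ
  obtain ⟨C2, h2⟩ := isCompact_univ.exists_bound_of_continuousOn (aCU n M _ _ _ _ W (met S)
    (((bf_clo S).toTen.sub ((mHES n M).2.2.2.2.2.2.2.2.1 _ (met S)).toTen).smul ((m : ℝ) - 1))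
    (pm_wt S m) hW.sec).2.1.continuousOn
  choose C3 c3 h3 using tk hW
  have s0 : 0 ≤ ∑ k, C3 k := Finset.sum_nonneg fun k _ => c3 k
  refine ⟨|C1| + |C2| + ∑ k, C3 k, by positivity, fun d d0 x => ⟨?_, ?_, ?_⟩⟩
  · linarith [abs_nonneg C2, le_abs_self C1,
      show (lb S m).pn ((oP S.H (aw M (pm S m) (lf S m d))).ap W) x ≤ C1 from h1 d d0 x]
  · linarith [((le_abs_self _).trans (h2 x trivial)).trans (le_abs_self C2), abs_nonneg C1]
  · rw [rd, cu_sum, Finset.mul_sum]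
    refine Finset.sum_le_sum fun k _ => ?_
    rw [cu_smul]
    refine (h3 k d d0 x).1.trans (mul_le_mul_of_nonneg_right ?_
      (div_nonneg d0.le (add_nonneg (sg_nn _ k x) d0.le)))
    linarith [Finset.single_le_sum (fun k _ => c3 k) (Finset.mem_univ k), abs_nonneg C1,
      abs_nonneg C2]

theorem rd_ten {d : ℝ} (d0 : 0 < d) : M.Ten (rd S m d) := by
  unfold rd
  induction (Finset.univ : Finset I) using Finset.induction_on with
  | empty => simpa using Mf.clo_zero.toTen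
  | insert k s hk ih =>
    rw [Finset.sum_insert hk]
    exact (((S.wt k).clo.toTen.add ((mHES n M).1 _ (lsg_sm _ d0 k)).toTen).smul _).add ih

theorem cv (hm : 1 ≤ m) {d : ℝ} (d0 : 0 < d) : M.All fun e z =>
    (M.hw (aw M (pm S m) (lf S m d)) + M.ric S.H) e z =
      (((m : ℝ) - 1) • (bf S - M.ric S.H) + rd S m d) e z := fun e he z hz => by
  have a := (((aLAM n M _ _ _ (met S) (pm_wt S m)).2.2 _).1 (lf_sm S m d0)).2 e he z hz
  have b := pm_hw S hm e he z hz
  have c := hs_lin Finset.univ (ka S.toDk m) _ (lsg_sm S.toDk d0) e he z hz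
  change M.hs (lf S m d) e z = _ at c
  simp only [rd, Pi.add_apply, Pi.smul_apply, Pi.sub_apply, Finset.sum_apply, smul_add,
    Finset.sum_add_distrib, a, c] at b ⊢
  rw [add_right_comm, b, add_assoc]

end Pool.Agent.Lib.N4S.G19
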