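import Pool.Agent.Lib.N4S.Defs
import Pool.Agent.Lib.N4S.Ix31

/-! Project n4s: the tower of the level bundles and the exchange of the parity. -/

open scoped Classical Topology ContDiff ComplexOrder Matrix
open Set MeasureTheory Complex Filter

set_option linter.unusedVariables false

noncomputable section

namespace Pool.Agent.Lib.N4S

open Pool.Agent.Lib.SV (E)
open Pool.Agent.Lib.HS32 Pool.Agent.Lib.KP Pool.Agent.Lib.HLK Pool.Agent.Lib.NU4
open Pool.Agent.Lib.EXH (aw)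
open Pool.Agent.Lib.IDX (Nx)

namespace T31

variable {n : ℕ} {M : Mf n} {I : Type} [Fintype I]

/-- The quotient of two cocycles. -/
def qt (L' L : M.Co) : M.Co where
  c e e' x := L'.c e e' x * (L.c e e' x)⁻¹
  hol e he e' he' x hx hx' := by
    filter_upwards [L'.hol e he e' he' x hx hx', L.hol e he e' he' x hx hx',
      ((mTR n M).2.1 e he e' he' x hx hx').2.2.2.1] with w a b c
    exact a.mul (b.inv (L.ne e he e' he' _ c.2.1 c.2.2.1))
  ne e he e' he' x hx hx' := mul_ne_zero (L'.ne e he e' he' x hx hx')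
    (inv_ne_zero (L.ne e he e' he' x hx hx'))
  mul e he e' he' x hx hx' e'' he'' hx'' := by
    rw [L'.mul e he e' he' x hx hx' e'' he'' hx'', L.mul e he e' he' x hx hx' e'' he'' hx'', mul_inv]
    ring

theorem qt_wt {L' L : M.Co} {φ' φ : M.Fam ℝ} (h' : M.WtC L' φ') (h : M.WtC L φ) :
    M.WtC (qt L' L) (φ' - φ) := by
  refine ⟨fun e he z hz => (h'.sm e he z hz).sub (h.sm e he z hz), fun e he e' he' x hx hx' => ?_⟩
  have a := h'.cmp e he e' he' x hx hx'
  have b := h.cmp e he e' he' x hx hx'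
  show φ' e' (e' x) - φ e' (e' x) = φ' e (e x) - φ e (e x) +
    Real.log (normSq (L'.c e e' x * (L.c e e' x)⁻¹))
  rw [a, b, map_mul, map_inv₀, Real.log_mul (mt normSq_eq_zero.1 (L'.ne e he e' he' x hx hx'))
    (inv_ne_zero (mt normSq_eq_zero.1 (L.ne e he e' he' x hx hx'))), Real.log_inv]
  ring

variable (S : Sd M I)

/-- The weight of the level bundle. -/
theorem wtL (m : ℕ) : M.WtC (Lb S m) (pm S m) := by
  have w := (K3E.bKAN n M S.H m S.kae.toMet).1
  refine ⟨fun e he z hz => ((w.sm e he z hz).sub (ContDiffAt.sum fun k _ =>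
    contDiffAt_const.mul ((S.wt k).sm e he z hz))).add (contDiffAt_const.mul (S.su e he z hz)),
    fun e he e' he' x hx hx' => ?_⟩
  have a := w.cmp e he e' he' x hx hx'
  have b := fun k => (S.wt k).cmp e he e' he' x hx hx'
  have c : ∀ k, normSq ((S.L k).c e e' x) ≠ 0 := fun k =>
    mt normSq_eq_zero.1 ((S.L k).ne e he e' he' x hx hx')
  simp only [pm, Lb, a, b, e.left_inv hx, e'.left_inv hx', map_mul, map_inv₀, map_prod, map_pow]
  rw [Real.log_mul (mt normSq_eq_zero.1 ((K3E.kan M m).ne e he e' he' x hx hx'))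
    (inv_ne_zero (Finset.prod_ne_zero_iff.2 fun k _ => pow_ne_zero _ (c k))), Real.log_inv,
    Real.log_prod (fun k _ => pow_ne_zero _ (c k))]
  simp only [Real.log_pow, mul_add, Finset.sum_add_distrib]
  ring

theorem fl_add {m : ℕ} (hm : 1 ≤ m) (b : ℕ) (k : I) :
    fl S.toDk (m + S.c * b) k = fl S.toDk m k + S.a k * b := by
  unfold fl
  rw [show (m + S.c * b - 1) * S.a k = (m - 1) * S.a k + S.c * (S.a k * b) by
    rw [show m + S.c * b - 1 = m - 1 + S.c * b by omega]; ring, Nat.add_mul_div_left _ _ S.c0]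

theorem ka_add {m : ℕ} (hm : 1 ≤ m) (b : ℕ) (k : I) :
    ka S.toDk (m + S.c * b) k = ka S.toDk m k := by
  unfold ka
  rw [show (m + S.c * b - 1) * S.a k = (m - 1) * S.a k + S.c * (S.a k * b) by
    rw [show m + S.c * b - 1 = m - 1 + S.c * b by omega]; ring, Nat.add_mul_mod_self_left]

/-- The tower that starts at the level `m`. -/
theorem nx {m : ℕ} (hm : 1 ≤ m) (b : ℕ) : Nx (Lb S (m + S.c * b)) (pm S (m + S.c * b))
    (qt (Lb S (1 + S.c * 1)) (Lb S 1)) (pm S (1 + S.c * 1) - pm S 1)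
    (Lb S (m + S.c * (b + 1))) (pm S (m + S.c * (b + 1))) := by
  refine ⟨wtL S _, qt_wt (wtL S _) (wtL S _), wtL S _, fun e he e' he' x hx hx' => ?_,
    fun e he z hz => ?_⟩
  · have c : ∀ k, (S.L k).c e e' x ≠ 0 := fun k => (S.L k).ne e he e' he' x hx hx'
    have d := (K3E.kan M 1).ne e he e' he' x hx hx'
    have p : ∀ t : I → ℕ, ∏ k, (S.L k).c e e' x ^ t k ≠ 0 := fun t =>
      Finset.prod_ne_zero_iff.2 fun k _ => pow_ne_zero _ (c k)
    simp only [K3E.kan, K3E.triv, Mf.Co.tw, pow_one, mul_one] at d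
    simp only [qt, Lb, fl_add S hm, fl_add S le_rfl, K3E.kan, K3E.triv, Mf.Co.tw]
    simp only [mul_add, pow_add, mul_one, pow_one, Finset.prod_mul_distrib]
    have := p fun k => fl S.toDk m k
    have := p fun k => S.a k * b
    have := p fun k => S.a k
    have := p fun k => fl S.toDk 1 k
    field_simp
  · simp only [pm, Pi.sub_apply, fl_add S hm, fl_add S le_rfl, K3E.wk]
    push_cast
    simp only [mul_add, add_mul, mul_one, Finset.sum_add_distrib]
    ring

end T31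

variable {n : ℕ} {M : Mf n} [M.Cpt] {I : Type} [Fintype I] (S : Sd M I)

/-- Exchange of the parity at the level `m`, for every smooth weight. -/
theorem exsL {m : ℕ} (hm : 1 ≤ m) (hf : {l | Ah S.H (Lb S l) (pm S l)}.Finite) {u : M.X → ℝ}
    (hu : M.Sm u) {s : ℂ} (hs : s = 1 ∨ s = -1) {W : M.Fam (Fs n → ℂ)} (hW : (lb S m).Sec W)
    (hp : Pa M s W) (w1 : (lam S.H (Lb S m) (aw M (pm S m) u)).nr S.H W = 1) {η : ℝ} (hη : 0 < η)
    (w2 : (lam S.H (Lb S m) (aw M (pm S m) u)).nr S.H ((oD S.H (aw M (pm S m) u)).ap W) ≤ η) :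
    ∃ W', (lb S m).Sec W' ∧ Pa M (-s) W' ∧ (lam S.H (Lb S m) (aw M (pm S m) u)).nr S.H W' = 1 ∧
      (lam S.H (Lb S m) (aw M (pm S m) u)).nr S.H ((oD S.H (aw M (pm S m) u)).ap W') ≤ 4 * η := by
  obtain ⟨W', a, b⟩ := exs31 (L := fun b => Lb S (m + S.c * b)) (φ := fun b => pm S (m + S.c * b))
    S.kae (T31.nx S hm) (hf.preimage (f := fun b => m + S.c * b) fun x _ y _ h =>
      Nat.eq_of_mul_eq_mul_left S.c0 (Nat.add_left_cancel h)) 0 hu hs (W := W) ⟨hW.sm, hW.cmp⟩ hp
    w1 hη w2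
  exact ⟨W', ⟨a.sm, a.cmp⟩, b⟩

end Pool.Agent.Lib.N4S
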